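import Pool.Agent.Lib.MP_973905_nt.K9.Stmts

/-! (N5) The mean square with mismatch. -/

namespace Pool.Agent.Lib.MP_973905_nt
namespace K9

open MeasureTheory ProbabilityTheory Complex Filter Topology K1 K4 K5

namespace NBx

/-- the derivative of a power series with nonnegative coefficients -/
lemma deriv_ser (c : ℕ → ℝ) (hc : ∀ j, 0 ≤ c j) (R : ℝ)
    (hs : Summable (fun j : ℕ => ((j + 1 : ℕ) : ℝ) * c (j + 1) * R ^ j)) (v : ℝ) (hv : |v| < R) :
    HasDerivAt (fun v => ∑' j : ℕ, c j * v ^ j)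
      (∑' j : ℕ, ((j + 1 : ℕ) : ℝ) * c (j + 1) * v ^ j) v := by
  have hR : 0 < R := lt_of_le_of_lt (abs_nonneg v) hv
  have hs' : Summable (fun j : ℕ => c j * ((j : ℝ) * R ^ (j - 1))) := by
    rw [← summable_nat_add_iff 1]
    refine hs.congr fun j => ?_
    simp only [Nat.add_sub_cancel]
    ring
  have hg : ∀ (j : ℕ) (y : ℝ), y ∈ Set.Ioo (-R) R →
      HasDerivAt (fun y : ℝ => c j * y ^ j) (c j * ((j : ℝ) * y ^ (j - 1))) y :=
    fun j y _ => (hasDerivAt_pow j y).const_mul (c j)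
  have hb : ∀ (j : ℕ) (y : ℝ), y ∈ Set.Ioo (-R) R →
      ‖c j * ((j : ℝ) * y ^ (j - 1))‖ ≤ c j * ((j : ℝ) * R ^ (j - 1)) := by
    intro j y hy
    rw [norm_mul, norm_mul, norm_pow, Real.norm_of_nonneg (hc j),
      Real.norm_of_nonneg (Nat.cast_nonneg j)]
    have : ‖y‖ ≤ R := (abs_lt.2 ⟨hy.1, hy.2⟩).le
    have h2 := pow_le_pow_left₀ (norm_nonneg y) this (j - 1)
    have := hc j
    gcongr
  have h0 : Summable (fun j : ℕ => c j * (0 : ℝ) ^ j) := by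
    refine summable_of_ne_finset_zero (s := {0}) fun j hj => ?_
    have : j ≠ 0 := by simpa using hj
    rw [zero_pow this, mul_zero]
  have hv' : v ∈ Set.Ioo (-R) R := ⟨(abs_lt.1 hv).1, (abs_lt.1 hv).2⟩
  have key := hasDerivAt_tsum_of_isPreconnected hs' isOpen_Ioo isPreconnected_Ioo hg hb
    (⟨by linarith, hR⟩ : (0 : ℝ) ∈ Set.Ioo (-R) R) h0 hv'
  have hsv : Summable (fun j : ℕ => c j * ((j : ℝ) * v ^ (j - 1))) :=
    Summable.of_norm_bounded hs' fun j => hb j v hv'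
  have he : ∑' j : ℕ, c j * ((j : ℝ) * v ^ (j - 1)) =
      ∑' j : ℕ, ((j + 1 : ℕ) : ℝ) * c (j + 1) * v ^ j := by
    rw [hsv.tsum_eq_zero_add]
    simp only [Nat.cast_zero, zero_mul, mul_zero, zero_add, Nat.add_sub_cancel]
    refine tsum_congr fun j => ?_
    ring
  rw [he] at key
  exact key

/-- an elementary inequality -/
lemma log_bd (x : ℝ) (h0 : 0 ≤ x) (h1 : x ≤ 2 / 5) :
    x / (1 - x) + Real.log (1 - x) ≤ x ^ 2 := by
  have hs := Real.hasSum_pow_div_log_of_abs_lt_one (x := x) (by rw [abs_of_nonneg h0]; linarith)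
  have h2 := sum_le_hasSum (Finset.range 6) (fun i _ => by positivity) hs
  simp only [Finset.sum_range_succ, Finset.sum_range_zero] at h2
  norm_num at h2
  have hp : 0 < 1 - x := by linarith
  have h3 : x / (1 - x) ≤ x ^ 2 + (x + x ^ 2 / 2 + x ^ 3 / 3 + x ^ 4 / 4 + x ^ 5 / 5 +
      x ^ 6 / 6) := by
    rw [div_le_iff₀ hp]
    have e : (x ^ 2 + (x + x ^ 2 / 2 + x ^ 3 / 3 + x ^ 4 / 4 + x ^ 5 / 5 + x ^ 6 / 6)) * (1 - x) -
        x = x ^ 2 * (1 / 2 - 7 / 6 * x - x ^ 2 / 12 - x ^ 3 / 20 - x ^ 4 / 30 - x ^ 5 / 6) := by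
      ring
    have a2 : x ^ 2 ≤ (2 / 5) ^ 2 := pow_le_pow_left₀ h0 h1 2
    have a3 : x ^ 3 ≤ (2 / 5) ^ 3 := pow_le_pow_left₀ h0 h1 3
    have a4 : x ^ 4 ≤ (2 / 5) ^ 4 := pow_le_pow_left₀ h0 h1 4
    have a5 : x ^ 5 ≤ (2 / 5) ^ 5 := pow_le_pow_left₀ h0 h1 5
    have : 0 ≤ 1 / 2 - 7 / 6 * x - x ^ 2 / 12 - x ^ 3 / 20 - x ^ 4 / 30 - x ^ 5 / 6 := by
      norm_num at a2 a3 a4 a5
      linarith
    have := mul_nonneg (sq_nonneg x) this
    linarith
  linarith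

/-- the bound for the derivative of one mean square -/
lemma bd (h : StCrudeD) (hP : StPart9) (b τ v : ℝ) (n : ℕ) (hb : 0 < b) (hb4 : b ≤ 1 / 4)
    (hn : 1 ≤ n) (hτ : (n : ℝ) = τ + 2 / b) (h1 : -2 ≤ τ) (h2 : τ ≤ 2) (hv : 0 ≤ v)
    (hy : 2 * b * v ≤ 2 / 5) :
    ∑' j : ℕ, ((j + 1 : ℕ) : ℝ) ^ 2 * K8.dcf b 2 n (j + 1) ^ 2 * (j.factorial : ℝ) * v ^ j ≤
      2 * b * (2 * b * v / (1 - 2 * b * v) * (1 + 2 * b * v / (1 - 2 * b * v)) +
        b / 2 * (3 / 10 + 2 * (2 * b * v / (1 - 2 * b * v)) * (1 - 2 * b * v / (1 - 2 * b * v)) *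
          (1 + 2 * b * v / (1 - 2 * b * v)) * τ + 6 / 5 * τ ^ 2)) := by
  set y : ℝ := 2 * b * v with hyd
  have hy0 : 0 ≤ y := by positivity
  have hw : 0 < 1 - y := by linarith
  set r : ℝ := y / (1 - y) with hr
  have hr0 : 0 ≤ r := by positivity
  have hr1 : r ≤ 2 / 3 := by
    rw [hr, div_le_iff₀ hw]
    linarith
  set u : ℝ := b / 2 with hu
  have hu0 : 0 ≤ u := by positivity
  have hu1 : u ≤ 1 / 8 := by rw [hu]; linarith
  have hE : 0 < 1 + (1 - τ) * u * r := by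
    have : u * r ≤ 1 / 8 * (2 / 3) := by gcongr
    nlinarith [mul_nonneg hu0 hr0]
  set E : ℝ := 1 + (1 - τ) * u * r with hEd
  have hb0 : b ≠ 0 := hb.ne'
  have hw0 : 1 - y ≠ 0 := hw.ne'
  have hE0 : E ≠ 0 := hE.ne'
  have hD : 1 - ((n : ℝ) - 1) * b ^ 2 * v = (1 - y) * E := by
    rw [hEd, hr, hτ, hu]
    field_simp
    rw [hyd]
    ring
  have hDp : 0 < (1 - y) * E := mul_pos hw hE
  have hlt : ((n : ℝ) - 1) * b ^ 2 * v < 1 := by linarith
  have k1 := (h b 2 v n hb hn hv hlt).2.2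
  have k2 := hP τ r u h1 h2 hr0 hr1 hu0 hu1
  rw [hD] at k1
  have e1 : (2 : ℝ) - ((n : ℝ) - 1) * b = (1 - τ) * b := by
    rw [hτ]
    field_simp
    ring
  have e2 : (n : ℝ) - 2 / b = τ := by rw [hτ]; ring
  rw [e1, e2] at k1
  have e3 : ((1 - τ) * b) ^ 2 * v / ((1 - y) * E) = (1 - τ) ^ 2 * u * r / E := by
    rw [hr, hu, hyd]
    rw [hyd] at hw0
    field_simp
  have e4 : b ^ 2 * (1 / ((1 - y) * E)) * Real.exp ((1 - τ) ^ 2 * u * r / E) *
      ((τ + 2 * ((1 - τ) * b) * v / ((1 - y) * E)) ^ 2 + 2 ^ 2 * v / ((1 - y) * E)) =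
      2 * b * ((1 + r) / E * Real.exp ((1 - τ) ^ 2 * u * r / E) *
        (u * (τ + (1 - τ) * r / E) ^ 2 + r / E)) := by
    have f1 : 1 + r = 1 / (1 - y) := by
      rw [hr]
      field_simp
      ring
    have f2 : 2 * ((1 - τ) * b) * v / ((1 - y) * E) = (1 - τ) * r / E := by
      rw [hr, hyd]
      rw [hyd] at hw0
      field_simp
    have f3 : 2 ^ 2 * v / ((1 - y) * E) = 2 / b * (r / E) := by
      rw [hr, hyd]
      rw [hyd] at hw0
      field_simp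
    rw [f1, f2, f3, hu]
    generalize Real.exp ((1 - τ) ^ 2 * (b / 2) * r / E) = X
    generalize (τ + (1 - τ) * r / E) ^ 2 = Y
    field_simp
  rw [e3, e4] at k1
  refine k1.trans ?_
  have : 0 ≤ 2 * b := by linarith
  exact mul_le_mul_of_nonneg_left k2 this

/-- the value of the series at `0` -/
lemma at_zero (b : ℝ) (n : ℕ) :
    ∑' j : ℕ, K8.dcf b 2 n j ^ 2 * (j.factorial : ℝ) * (0 : ℝ) ^ j = 1 := by
  rw [tsum_eq_single 0]
  · have : K8.dcf b 2 n 0 = 1 := rfl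
    simp [this]
  · intro j hj
    rw [zero_pow hj, mul_zero]

end NBx

open NBx

theorem stNB (h : StCrudeD) (hP : StPart9) : StNB := by
  intro b t V m hb hb4 ht0 ht1 hmt hV hbV
  have hb0 : b ≠ 0 := hb.ne'
  have hinv : 1 / b = m + t := by
    rw [div_eq_iff hb0]
    exact hmt.symm
  have hm3 : (3 : ℝ) ≤ m := by
    have : 4 ≤ 1 / b := by
      rw [le_div_iff₀ hb]
      linarith
    linarith
  have hm : 1 ≤ m := by
    have : (1 : ℝ) ≤ m := by linarith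
    exact_mod_cast this
  have h2b : 2 / b = 2 * (m + t) := by
    rw [← hinv]
    ring
  have hlt : ∀ v : ℝ, 0 ≤ v → v ≤ V + 1 / 2 → ∀ n : ℕ, n ≤ 2 * m + 2 →
      ((n : ℝ) - 1) * b ^ 2 * v < 1 := by
    intro v hv0 hv n hn
    have hn' : (n : ℝ) ≤ 2 * m + 2 := by exact_mod_cast hn
    have hmb : (m : ℝ) * b ≤ 1 := by nlinarith
    have q1 : ((n : ℝ) - 1) * b ≤ 2 + b := by nlinarith
    have q2 : ((n : ℝ) - 1) * b * (b * v) ≤ (2 + b) * (b * v) :=
      mul_le_mul_of_nonneg_right q1 (by positivity)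
    have q3 : b * v ≤ b * V + b * (1 / 2) := by nlinarith
    have q4 : b * v ≤ 1 / 5 + 1 / 8 := by linarith
    have q5 : (2 + b) * (b * v) ≤ (2 + 1 / 4) * (1 / 5 + 1 / 8) := by
      gcongr
    calc ((n : ℝ) - 1) * b ^ 2 * v = ((n : ℝ) - 1) * b * (b * v) := by ring
      _ ≤ (2 + b) * (b * v) := q2
      _ ≤ (2 + 1 / 4) * (1 / 5 + 1 / 8) := q5
      _ < 1 := by norm_num
  have n1 : 1 ≤ 2 * m := by omega
  have n2 : 1 ≤ 2 * m + 2 := by omega
  refine ⟨(h b 2 V (2 * m) hb n1 hV (hlt V hV (by linarith) _ (by omega))).1,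
    (h b 2 V (2 * m + 2) hb n2 hV (hlt V hV (by linarith) _ le_rfl)).1, ?_⟩
  -- the derivative of the series
  have hder : ∀ n : ℕ, 1 ≤ n → n ≤ 2 * m + 2 → ∀ v : ℝ, 0 ≤ v → v ≤ V →
      HasDerivAt (fun v => ∑' j : ℕ, K8.dcf b 2 n j ^ 2 * (j.factorial : ℝ) * v ^ j)
        (∑' j : ℕ, ((j + 1 : ℕ) : ℝ) ^ 2 * K8.dcf b 2 n (j + 1) ^ 2 * (j.factorial : ℝ) *
          v ^ j) v := by
    intro n hn hn2 v hv0 hv
    have hs := (h b 2 (V + 1 / 2) n hb hn (by linarith) (hlt _ (by linarith) le_rfl n hn2)).2.1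
    have e : ∀ (j : ℕ) (w : ℝ), ((j + 1 : ℕ) : ℝ) ^ 2 * K8.dcf b 2 n (j + 1) ^ 2 *
        (j.factorial : ℝ) * w ^ j = ((j + 1 : ℕ) : ℝ) *
          (K8.dcf b 2 n (j + 1) ^ 2 * ((j + 1).factorial : ℝ)) * w ^ j := by
      intro j w
      rw [Nat.factorial_succ]
      push_cast
      ring
    simp only [e] at hs ⊢
    exact deriv_ser (fun j => K8.dcf b 2 n j ^ 2 * (j.factorial : ℝ)) (fun j => by positivity)
      (V + 1 / 2) hs v (by rw [abs_of_nonneg hv0]; linarith)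
  -- the comparison function
  set S : ℕ → ℝ → ℝ := fun n v => ∑' j : ℕ, K8.dcf b 2 n j ^ 2 * (j.factorial : ℝ) * v ^ j with hS
  set S' : ℕ → ℝ → ℝ := fun n v => ∑' j : ℕ, ((j + 1 : ℕ) : ℝ) ^ 2 *
    K8.dcf b 2 n (j + 1) ^ 2 * (j.factorial : ℝ) * v ^ j with hS'
  set G : ℝ → ℝ := fun v => (1 - t) * S (2 * m) v + t * S (2 * m + 2) v -
    (1 + 2 * b * v / (1 - 2 * b * v) + Real.log (1 - 2 * b * v) + 3 / 2 * b ^ 2 * v) with hG
  have hyv : ∀ v : ℝ, v ≤ V → 2 * b * v ≤ 2 / 5 := fun v hv => by nlinarith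
  have hGd : ∀ v : ℝ, 0 ≤ v → v ≤ V → HasDerivAt G ((1 - t) * S' (2 * m) v +
      t * S' (2 * m + 2) v - (2 * b / (1 - 2 * b * v) ^ 2 + -(2 * b) / (1 - 2 * b * v) +
        3 / 2 * b ^ 2)) v := by
    intro v hv0 hv
    have hp : 0 < 1 - 2 * b * v := by linarith [hyv v hv]
    have d1 := hder (2 * m) n1 (by omega) v hv0 hv
    have d2 := hder (2 * m + 2) n2 le_rfl v hv0 hv
    have a1 : HasDerivAt (fun v : ℝ => 2 * b * v) (2 * b) v := by
      simpa using (hasDerivAt_id v).const_mul (2 * b)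
    have a2 : HasDerivAt (fun v : ℝ => 1 - 2 * b * v) (-(2 * b)) v := by
      simpa using a1.const_sub 1
    have a3 := a1.div a2 hp.ne'
    have a4 := a2.log hp.ne'
    have a5 : HasDerivAt (fun v : ℝ => 3 / 2 * b ^ 2 * v) (3 / 2 * b ^ 2) v := by
      simpa using (hasDerivAt_id v).const_mul (3 / 2 * b ^ 2)
    have a6 := ((d1.const_mul (1 - t)).add (d2.const_mul t)).sub
      (((a3.const_add 1).add a4).add a5)
    have a7 : (2 * b * (1 - 2 * b * v) - 2 * b * v * -(2 * b)) / (1 - 2 * b * v) ^ 2 =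
        2 * b / (1 - 2 * b * v) ^ 2 := by
      congr 1
      ring
    rw [a7] at a6
    exact a6
  have hanti : AntitoneOn G (Set.Icc 0 V) := by
    refine antitoneOn_of_deriv_nonpos (convex_Icc 0 V) ?_ ?_ ?_
    · exact fun v hv => (hGd v hv.1 hv.2).continuousAt.continuousWithinAt
    · intro v hv
      rw [interior_Icc] at hv
      exact (hGd v hv.1.le hv.2.le).differentiableAt.differentiableWithinAt
    · intro v hv
      rw [interior_Icc] at hv
      rw [(hGd v hv.1.le hv.2.le).deriv]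
      have hv0 := hv.1.le
      have hy := hyv v hv.2.le
      have hp : 0 < 1 - 2 * b * v := by linarith
      have b1 := bd h hP b (-(2 * t)) v (2 * m) hb hb4 n1 (by rw [h2b]; push_cast; ring)
        (by linarith) (by linarith) hv0 hy
      have b2 := bd h hP b (2 * (1 - t)) v (2 * m + 2) hb hb4 n2 (by rw [h2b]; push_cast; ring)
        (by linarith) (by linarith) hv0 hy
      have c1 := mul_le_mul_of_nonneg_left b1 (by linarith : 0 ≤ 1 - t)
      have c2 := mul_le_mul_of_nonneg_left b2 ht0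
      have hr : 2 * b / (1 - 2 * b * v) ^ 2 + -(2 * b) / (1 - 2 * b * v) =
          2 * b * (2 * b * v / (1 - 2 * b * v) * (1 + 2 * b * v / (1 - 2 * b * v))) := by
        field_simp
        ring
      rw [hr]
      set r : ℝ := 2 * b * v / (1 - 2 * b * v) with hrd
      have c3 : (1 - t) * (2 * b * (r * (1 + r) + b / 2 * (3 / 10 + 2 * r * (1 - r) * (1 + r) *
          (-(2 * t)) + 6 / 5 * (-(2 * t)) ^ 2))) + t * (2 * b * (r * (1 + r) + b / 2 *
          (3 / 10 + 2 * r * (1 - r) * (1 + r) * (2 * (1 - t)) + 6 / 5 * (2 * (1 - t)) ^ 2))) =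
          2 * b * (r * (1 + r)) + b ^ 2 * (3 / 10 + 6 / 5 * (4 * t * (1 - t))) := by
        ring
      have c4 : 4 * t * (1 - t) ≤ 1 := by nlinarith [sq_nonneg (2 * t - 1)]
      have c5 : b ^ 2 * (3 / 10 + 6 / 5 * (4 * t * (1 - t))) ≤ b ^ 2 * (3 / 2) :=
        mul_le_mul_of_nonneg_left (by linarith) (sq_nonneg b)
      simp only [hS']
      linarith
  have hfin := hanti (Set.left_mem_Icc.2 hV) (Set.right_mem_Icc.2 hV) hV
  have hG0 : G 0 = 0 := by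
    simp only [hG, hS, at_zero]
    simp
  rw [hG0] at hfin
  have hl := log_bd (2 * b * V) (by positivity) hbV
  simp only [hG, hS] at hfin
  linarith

end K9
end Pool.Agent.Lib.MP_973905_nt
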