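import Pool.Agent.Lib.MP_973905_nt.K9.Stmts
import Pool.Agent.Lib.MP_973905_nt.K5.G

/-! (N11) The Barnes quotient `G(1+k)^2 / G(1+2k)` for `0 < k < 1` from above. -/

namespace Pool.Agent.Lib.MP_973905_nt
namespace K9

open CK K5.GQ

namespace Gu9M

lemma harm : harmonic 256 ≤ 61244 / 10000 := by decide +kernel

lemma gamma_le : Real.eulerMascheroniConstant ≤ 29 / 50 := by
  have h1 := Real.eulerMascheroniConstant_lt_eulerMascheroniSeq' 256
  unfold Real.eulerMascheroniSeq' at h1
  rw [if_neg (by norm_num)] at h1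
  have h2 : Real.log ((256 : ℕ) : ℝ) = 8 * Real.log 2 := by
    rw [show ((256 : ℕ) : ℝ) = 2 ^ 8 by norm_num, Real.log_pow]
    norm_num
  rw [h2] at h1
  have h3 : ((harmonic 256 : ℚ) : ℝ) ≤ ((61244 / 10000 : ℚ) : ℝ) := by
    exact_mod_cast harm
  have h4 := Real.log_two_gt_d9
  push_cast at h3
  linarith

lemma tt_le {k : ℝ} (hk : 0 ≤ k) (n : ℕ) :
    tt k n ≤ -(k ^ 2 * (2 * k / ((n + 1) * (n + 1 + 2 * k)))) := by
  have hn : (0 : ℝ) < n + 1 := by positivity
  have hn2 : (0 : ℝ) < n + 1 + 2 * k := by positivity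
  rw [tt_eq hk]
  have h := Real.log_le_sub_one_of_pos
    (x := 1 + k ^ 2 / (((n : ℝ) + 1) * (n + 1 + 2 * k))) (by positivity)
  have h1 : ((n : ℝ) + 1) * Real.log (1 + k ^ 2 / ((n + 1) * (n + 1 + 2 * k))) ≤
      (n + 1) * (k ^ 2 / ((n + 1) * (n + 1 + 2 * k))) := by
    apply mul_le_mul_of_nonneg_left _ hn.le
    linarith
  have e : ((n : ℝ) + 1) * (k ^ 2 / ((n + 1) * (n + 1 + 2 * k))) - k ^ 2 / (n + 1) =
      -(k ^ 2 * (2 * k / ((n + 1) * (n + 1 + 2 * k)))) := by
    field_simp
    ring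
  linarith

/-- a bound for the sum of the series -/
lemma sum_tt {k : ℝ} (hk : 0 ≤ k) {c : ℝ} (a b : ℝ) (ha : 0 ≤ a) (hb : 0 ≤ b)
    (hab : a + 3 / 2 * b = c)
    (h : ∀ n : ℕ, a * (1 / (((n : ℝ) + 1) * (n + 1 + 1))) +
      b * (2 / (((n : ℝ) + 1) * (n + 3))) ≤ 2 * k / ((n + 1) * (n + 1 + 2 * k))) :
    ∑' n, tt k n ≤ -(k ^ 2 * c) := by
  have hs := (summable_tt hk).hasSum.tendsto_sum_nat
  have t1 : ∀ N : ℕ, ∑ n ∈ Finset.range N, (a * (1 / (((n : ℝ) + 1) * (n + 1 + 1))) +
      b * (2 / (((n : ℝ) + 1) * (n + 3)))) =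
        c - a / (N + 1) - b / (N + 1) - b / (N + 2) := by
    intro N
    induction N with
    | zero =>
      rw [Finset.sum_range_zero, ← hab]
      norm_num
      ring
    | succ N ih =>
      rw [Finset.sum_range_succ, ih]
      push_cast
      have h1 : (N : ℝ) + 1 ≠ 0 := by positivity
      have h2 : (N : ℝ) + 1 + 1 ≠ 0 := by positivity
      have h3 : (N : ℝ) + 3 ≠ 0 := by positivity
      have h4 : (N : ℝ) + 2 ≠ 0 := by positivity
      have h5 : (N : ℝ) + 1 + 2 ≠ 0 := by positivity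
      field_simp
      ring
  have t2 : Filter.Tendsto (fun N : ℕ => -(k ^ 2 * (c - a / (N + 1) - b / (N + 1) - b / (N + 2))))
      Filter.atTop (nhds (-(k ^ 2 * c))) := by
    have u1 := tendsto_one_div_add_atTop_nhds_zero_nat (𝕜 := ℝ)
    have u2 : Filter.Tendsto (fun N : ℕ => 1 / ((N : ℝ) + 2)) Filter.atTop (nhds 0) := by
      have := u1.comp (Filter.tendsto_add_atTop_nat 1)
      refine this.congr fun N => ?_
      simp only [Function.comp]
      push_cast
      rw [add_assoc]
      norm_num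
    have := ((((tendsto_const_nhds (x := c)).sub (u1.const_mul a)).sub (u1.const_mul b)).sub
      (u2.const_mul b)).const_mul (k ^ 2) |>.neg
    simp only [mul_zero, sub_zero] at this
    refine this.congr fun N => ?_
    rw [mul_one_div, mul_one_div, mul_one_div]
  refine le_of_tendsto_of_tendsto' hs t2 fun N => ?_
  rw [← t1, Finset.mul_sum, ← Finset.sum_neg_distrib]
  refine Finset.sum_le_sum fun n _ => (tt_le hk n).trans ?_
  rw [neg_le_neg_iff]
  exact mul_le_mul_of_nonneg_left (h n) (sq_nonneg k)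

end Gu9M

open Gu9M in
/-- (N11) -/
theorem stGu9 : StGu9 := by
  intro k hk hk1
  have hg := gamma_le
  rw [quot_eq hk.le]
  constructor
  · intro h2
    apply Real.exp_le_exp.2
    have h := sum_tt hk.le (c := 2 * k) (2 * k) 0 (by linarith) le_rfl (by ring) (fun n => by
      rw [zero_mul, add_zero, mul_one_div]
      apply div_le_div_of_nonneg_left (by linarith) (by positivity)
      apply mul_le_mul_of_nonneg_left (by linarith) (by positivity))
    nlinarith [sq_nonneg k]
  · intro h2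
    apply Real.exp_le_exp.2
    have h := sum_tt hk.le (c := (1 + 2 * k) / 2) (2 - 2 * k) (2 * k - 1) (by linarith)
      (by linarith) (by ring) (fun n => by
        have hn : (0 : ℝ) ≤ n := by positivity
        have h1 : (0 : ℝ) < n + 1 := by positivity
        have h3 : (0 : ℝ) < n + 1 + 1 := by positivity
        have h4 : (0 : ℝ) < (n : ℝ) + 3 := by positivity
        have h5 : (0 : ℝ) < n + 1 + 2 * k := by positivity
        rw [← sub_nonneg]
        have e : 2 * k / (((n : ℝ) + 1) * (n + 1 + 2 * k)) -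
            ((2 - 2 * k) * (1 / (((n : ℝ) + 1) * (n + 1 + 1))) +
              (2 * k - 1) * (2 / (((n : ℝ) + 1) * (n + 3)))) =
            (2 * k - 1) * (2 - 2 * k) / ((n + 1 + 2 * k) * (n + 1 + 1) * (n + 3)) := by
          field_simp
          ring
        rw [e]
        apply div_nonneg (mul_nonneg (by linarith) (by linarith)) (by positivity))
    nlinarith [sq_nonneg k]

end K9
end Pool.Agent.Lib.MP_973905_nt
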