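import Mathlib

set_option autoImplicit false

/-!
# Nonnegativity of polynomials on the unit cube by Bernstein coefficients

`ev1`, `ev2`, `ev3` evaluate polynomials in one, two, three variables given by (nested) lists of
integer coefficients (constant term first). If all coefficients in the Bernstein basis are
nonnegative (a computation with integers, `decide +kernel`), the polynomial is nonnegative on the
unit cube.
-/

namespace Pool.Agent.Lib.MP_973905_nt.K9

namespace BernBox

/-- Evaluation of a list of coefficients, given a map of the coefficients to the reals. -/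
def ev {α : Type} (φ : α → ℝ) : List α → ℝ → ℝ
  | [], _ => 0
  | a :: l, z => φ a + z * ev φ l z

/-- Evaluation in one variable. -/
def ev1 (l : List ℤ) (x : ℝ) : ℝ := ev (fun a : ℤ => (a : ℝ)) l x

/-- Evaluation in two variables: a list of coefficients which are polynomials in `x`. -/
def ev2 (l : List (List ℤ)) (x y : ℝ) : ℝ := ev (fun a => ev1 a x) l y

/-- Evaluation in three variables. -/
def ev3 (l : List (List (List ℤ))) (x y z : ℝ) : ℝ := ev (fun a => ev2 a x y) l z

/-- Addition of lists of coefficients. -/
def addL {α : Type} (add : α → α → α) : List α → List α → List α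
  | [], l => l
  | l, [] => l
  | a :: l, b :: l' => add a b :: addL add l l'

/-- Binomial coefficients. -/
def row : ℕ → List ℕ
  | 0 => [1]
  | n + 1 => addL (· + ·) (row n) (0 :: row n)

/-- Bernstein coefficients (times binomial coefficients). -/
def bern {α : Type} (add : α → α → α) (smul : ℕ → α → α) (zero : α) : List α → List α
  | [] => []
  | a :: l => addL add ((row l.length).map fun c => smul c a) (zero :: bern add smul zero l)

/-- Homogeneous evaluation. -/
def evH {α : Type} (φ : α → ℝ) : List α → ℝ → ℝ → ℝ
  | [], _, _ => 0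
  | a :: l, z, w => φ a * w ^ l.length + z * evH φ l z w

section

variable {α : Type} {φ : α → ℝ} {add : α → α → α} {smul : ℕ → α → α} {zero : α}

theorem length_addL (add : α → α → α) (l l' : List α) :
    (addL add l l').length = max l.length l'.length := by
  induction l generalizing l' with
  | nil => simp [addL]
  | cons a l ih =>
    cases l' with
    | nil => simp [addL]
    | cons b l' =>
      simp only [addL, List.length_cons, ih]
      omega

theorem length_row (n : ℕ) : (row n).length = n + 1 := by
  induction n with
  | zero => rfl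
  | succ n ih =>
    rw [row, length_addL, List.length_cons, ih]
    omega

theorem length_bern (l : List α) : (bern add smul zero l).length = l.length := by
  induction l with
  | nil => rfl
  | cons a l ih =>
    rw [bern, length_addL, List.length_map, length_row, List.length_cons, ih, List.length_cons]
    omega

theorem ev_addL (hadd : ∀ a b, φ (add a b) = φ a + φ b) (l l' : List α) (z : ℝ) :
    ev φ (addL add l l') z = ev φ l z + ev φ l' z := by
  induction l generalizing l' with
  | nil => simp [addL, ev]
  | cons a l ih =>
    cases l' with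
    | nil => simp [addL, ev]
    | cons b l' =>
      simp only [addL, ev, ih, hadd]
      ring

theorem evH_addL (hadd : ∀ a b, φ (add a b) = φ a + φ b) (l l' : List α) (z w : ℝ)
    (h : l.length = l'.length) :
    evH φ (addL add l l') z w = evH φ l z w + evH φ l' z w := by
  induction l generalizing l' with
  | nil =>
    cases l' with
    | nil => simp [addL, evH]
    | cons b l' => simp at h
  | cons a l ih =>
    cases l' with
    | nil => simp at h
    | cons b l' =>
      have h' : l.length = l'.length := by simpa using h
      simp only [addL, evH, ih l' h', hadd, length_addL, h', max_self]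
      ring

theorem evH_map (hsmul : ∀ (n : ℕ) a, φ (smul n a) = n * φ a) (a : α) (l : List ℕ) (z w : ℝ) :
    evH φ (l.map fun c => smul c a) z w = φ a * evH (fun n : ℕ => (n : ℝ)) l z w := by
  induction l with
  | nil => simp [evH]
  | cons c l ih =>
    simp only [List.map_cons, evH, ih, hsmul, List.length_map]
    ring

theorem evH_snoc_zero (l : List ℕ) (z w : ℝ) :
    evH (fun n : ℕ => (n : ℝ)) (addL (· + ·) l (0 :: l)) z w =
      (z + w) * evH (fun n : ℕ => (n : ℝ)) l z w := by
  have key : ∀ (l : List ℕ) (c : ℕ),
      evH (fun n : ℕ => (n : ℝ)) (addL (· + ·) l (c :: l)) z w =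
        c * w ^ l.length + (z + w) * evH (fun n : ℕ => (n : ℝ)) l z w := by
    intro l
    induction l with
    | nil => intro c; simp [addL, evH]
    | cons a l ih =>
      intro c
      simp only [addL, evH, ih a, length_addL, List.length_cons]
      rw [max_eq_right (by omega)]
      push_cast
      ring
  rw [key l 0]
  simp

theorem evH_row (n : ℕ) (z w : ℝ) : evH (fun n : ℕ => (n : ℝ)) (row n) z w = (z + w) ^ n := by
  induction n with
  | zero => simp [row, evH]
  | succ n ih => rw [row, evH_snoc_zero, ih, pow_succ, mul_comm]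

theorem evH_bern (hadd : ∀ a b, φ (add a b) = φ a + φ b)
    (hsmul : ∀ (n : ℕ) a, φ (smul n a) = n * φ a) (hzero : φ zero = 0) (l : List α) (z : ℝ) :
    evH φ (bern add smul zero l) z (1 - z) = ev φ l z := by
  induction l with
  | nil => rfl
  | cons a l ih =>
    rw [bern, evH_addL hadd, evH_map hsmul, evH_row, ev, evH, hzero, ih]
    · simp
    · rw [List.length_map, length_row, List.length_cons, length_bern]

theorem evH_nonneg (l : List α) (z w : ℝ) (hz : 0 ≤ z) (hw : 0 ≤ w) (h : ∀ a ∈ l, 0 ≤ φ a) :
    0 ≤ evH φ l z w := by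
  induction l with
  | nil => simp [evH]
  | cons a l ih =>
    rw [evH]
    have h1 := h a (by simp)
    have h2 := ih fun b hb => h b (by simp [hb])
    positivity

theorem ev_nonneg (hadd : ∀ a b, φ (add a b) = φ a + φ b)
    (hsmul : ∀ (n : ℕ) a, φ (smul n a) = n * φ a) (hzero : φ zero = 0) (l : List α) (z : ℝ)
    (hz : 0 ≤ z) (hz1 : z ≤ 1) (h : ∀ a ∈ bern add smul zero l, 0 ≤ φ a) : 0 ≤ ev φ l z := by
  rw [← evH_bern hadd hsmul hzero]
  exact evH_nonneg _ _ _ hz (by linarith) h

theorem ev_map (hsmul : ∀ (n : ℕ) a, φ (smul n a) = n * φ a) (n : ℕ) (l : List α) (z : ℝ) :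
    ev φ (l.map (smul n)) z = n * ev φ l z := by
  induction l with
  | nil => simp [ev]
  | cons c l ih =>
    simp only [List.map_cons, ev, ih, hsmul]
    ring

end

/-- The operations on polynomials in one variable. -/
def add1 : List ℤ → List ℤ → List ℤ := addL (· + ·)

/-- The operations on polynomials in one variable. -/
def smul1 (n : ℕ) : List ℤ → List ℤ := List.map fun a => (n : ℤ) * a

/-- The operations on polynomials in two variables. -/
def add2 : List (List ℤ) → List (List ℤ) → List (List ℤ) := addL add1

/-- The operations on polynomials in two variables. -/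
def smul2 (n : ℕ) : List (List ℤ) → List (List ℤ) := List.map (smul1 n)

/-- The test in one variable. -/
def ok1 (l : List ℤ) : Bool := (bern (· + ·) (fun (n : ℕ) a => (n : ℤ) * a) 0 l).all (0 ≤ ·)

/-- The test in two variables. -/
def ok2 (l : List (List ℤ)) : Bool := (bern add1 smul1 [] l).all ok1

/-- The test in three variables. -/
def ok3 (l : List (List (List ℤ))) : Bool := (bern add2 smul2 [] l).all ok2

theorem ev1_nonneg {l : List ℤ} (h : ok1 l = true) {x : ℝ} (hx : 0 ≤ x) (hx1 : x ≤ 1) :
    0 ≤ ev1 l x := by
  refine ev_nonneg (add := (· + ·)) (smul := fun (n : ℕ) a => (n : ℤ) * a) (zero := 0)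
    (fun a b => by push_cast; ring) (fun n a => by push_cast; ring) (by simp) l x hx hx1 ?_
  intro a ha
  have := List.all_eq_true.1 h a ha
  have h2 : 0 ≤ a := by simpa using this
  exact_mod_cast h2

theorem ev1_add (l l' : List ℤ) (x : ℝ) : ev1 (add1 l l') x = ev1 l x + ev1 l' x :=
  ev_addL (fun a b => by push_cast; ring) l l' x

theorem ev1_smul (n : ℕ) (l : List ℤ) (x : ℝ) : ev1 (smul1 n l) x = n * ev1 l x :=
  ev_map (smul := fun (n : ℕ) a => (n : ℤ) * a) (fun n a => by push_cast; ring) n l x

theorem ev2_nonneg {l : List (List ℤ)} (h : ok2 l = true) {x y : ℝ} (hx : 0 ≤ x) (hx1 : x ≤ 1)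
    (hy : 0 ≤ y) (hy1 : y ≤ 1) : 0 ≤ ev2 l x y := by
  refine ev_nonneg (add := add1) (smul := smul1) (zero := [])
    (fun a b => ev1_add a b x) (fun n a => ev1_smul n a x) rfl l y hy hy1 ?_
  intro a ha
  exact ev1_nonneg (List.all_eq_true.1 h a ha) hx hx1

theorem ev2_add (l l' : List (List ℤ)) (x y : ℝ) :
    ev2 (add2 l l') x y = ev2 l x y + ev2 l' x y :=
  ev_addL (fun a b => ev1_add a b x) l l' y

theorem ev2_smul (n : ℕ) (l : List (List ℤ)) (x y : ℝ) :
    ev2 (smul2 n l) x y = n * ev2 l x y :=
  ev_map (smul := smul1) (fun n a => ev1_smul n a x) n l y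

theorem ev3_nonneg {l : List (List (List ℤ))} (h : ok3 l = true) {x y z : ℝ} (hx : 0 ≤ x)
    (hx1 : x ≤ 1) (hy : 0 ≤ y) (hy1 : y ≤ 1) (hz : 0 ≤ z) (hz1 : z ≤ 1) : 0 ≤ ev3 l x y z := by
  refine ev_nonneg (add := add2) (smul := smul2) (zero := [])
    (fun a b => ev2_add a b x y) (fun n a => ev2_smul n a x y) rfl l z hz hz1 ?_
  intro a ha
  exact ev2_nonneg (List.all_eq_true.1 h a ha) hx hx1 hy hy1

end BernBox

end Pool.Agent.Lib.MP_973905_nt.K9
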