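import Pool.Agent.Lib.MP_973905_nt.K9.Defs

/-! Statements (as propositions) of the modules of folder K9 (lower bounds, `0 < k < 1`). -/

namespace Pool.Agent.Lib.MP_973905_nt
namespace K9

open MeasureTheory ProbabilityTheory Complex Filter Topology K1 K4 K5

/-! ### Part A: analysis to the right of the critical line -/

/-- (A1) from the line `1/2 + ψ/log T` to the critical line -/
def StOff : Prop := ∀ k : ℝ, 0 < k → k ≤ 1 → ∀ ψ : ℝ, 0 < ψ → ∀ η : ℝ, 0 < η → η < 1 → ∃ T₀ : ℝ,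
    3 ≤ T₀ ∧ ∀ T, T₀ ≤ T → ∀ τ : ℝ, T / Real.log T ≤ |τ| → |τ| ≤ 3 / 2 * T → ∀ D : ℝ, 1 ≤ D →
    D ≤ EG T τ (fun t => ‖riemannZeta (1 / 2 + ((ψ / Real.log T : ℝ) : ℂ) + t * I)‖ ^ (2 * k)) →
    (1 - η) * D ≤ EG T τ (fun t => ‖riemannZeta (1 / 2 + t * I)‖ ^ (2 * k))

/-- (A2) the functional equation of the shifted moment (compare `K5.StFE`) -/
def StFE9 : Prop := ∃ T₀ : ℝ, 3 ≤ T₀ ∧ ∀ T, T₀ ≤ T → ∀ τ : ℝ, T / Real.log T ≤ |τ| →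
    |τ| ≤ 3 / 2 * T → ∀ H : ℝ → ℂ, Continuous H → (∀ t, ‖H t‖ ≤ T ^ 2) →
    EG T τ (fun t => ‖H t‖ ^ 2) ≤ T ^ (1 / 100 : ℝ) → ∀ w : ℂ, 0 ≤ w.re → w.re ≤ 1 / 200 →
    |w.im| ≤ Real.log T →
    ‖FH T τ H (-w) - ((|τ| / (2 * Real.pi) : ℝ) : ℂ) ^ (2 * w) * FH T τ H w‖ ≤ T ^ (-(7 / 1000) : ℝ)

/-- (A3) the moment on a line as an integral to the right of it (compare `K5.StHalf`) -/
def StHalfS : Prop := ∃ T₀ : ℝ, 3 ≤ T₀ ∧ ∀ T, T₀ ≤ T → ∀ τ : ℝ, T / Real.log T ≤ |τ| →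
    |τ| ≤ 3 / 2 * T → ∀ H : ℝ → ℂ, Continuous H → (∀ t, ‖H t‖ ≤ T ^ 2) →
    EG T τ (fun t => ‖H t‖ ^ 2) ≤ T ^ (1 / 100 : ℝ) → ∀ a : ℝ, 0 < a → a ≤ 1 / 400 →
    ‖FH T τ H a - ((1 / Real.pi : ℝ) : ℂ) * ∫ y : ℝ in (-Real.log T)..(Real.log T),
      KNa (|τ| / (2 * Real.pi)) a ((1 / 200 : ℝ) + y * I) * FH T τ H ((1 / 200 : ℝ) + y * I)‖ ≤
      T ^ (-(6 / 1000) : ℝ)

/-- (A4) moving the line of integration to the right (compare `K5.StMove`) -/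
def StMoveS : Prop := ∀ A : ℝ, 1 ≤ A → ∃ T₀ : ℝ, 3 ≤ T₀ ∧ ∀ T, T₀ ≤ T → ∀ τ : ℝ,
    T / Real.log T ≤ |τ| → |τ| ≤ 3 / 2 * T → ∀ H : ℝ → ℂ, Continuous H → (∀ t, ‖H t‖ ≤ T ^ 2) →
    ∀ a : ℝ, 0 < a → a ≤ 1 / 400 →
    ‖(∫ y : ℝ in (-Real.log T)..(Real.log T),
        KNa (|τ| / (2 * Real.pi)) a ((1 / 200 : ℝ) + y * I) * FH T τ H ((1 / 200 : ℝ) + y * I)) -
      ∫ y : ℝ in (-Real.log T)..(Real.log T),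
        KNa (|τ| / (2 * Real.pi)) a ((A : ℝ) + y * I) * FH T τ H ((A : ℝ) + y * I)‖ ≤ T ^ (-1 : ℝ)

/-- (A5) the main term (compare `K5.StBack`) -/
def StBackS : Prop := ∀ A : ℝ, 1 ≤ A → ∃ T₀ : ℝ, 3 ≤ T₀ ∧ ∀ T, T₀ ≤ T → ∀ τ : ℝ,
    T / Real.log T ≤ |τ| → |τ| ≤ 3 / 2 * T → ∀ (N : ℕ) (c : ℕ → ℕ → ℂ), (N : ℝ) ≤ T →
    (∀ m n, ‖c m n‖ ≤ T ^ (1 / 1000 : ℝ)) → (∀ m n : ℕ, T ^ (89 / 100 : ℝ) < (m : ℝ) * n → c m n = 0) →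
    ∀ a : ℝ, 1 / Real.log T ^ 2 ≤ a → a ≤ 1 / 400 →
    ‖((1 / Real.pi : ℝ) : ℂ) * (∫ y : ℝ in (-Real.log T)..(Real.log T),
        KNa (|τ| / (2 * Real.pi)) a ((A : ℝ) + y * I) *
          (riemannZeta (1 + 2 * ((A : ℝ) + y * I)) * RB N c ((A : ℝ) + y * I))) -
      (riemannZeta (1 + 2 * a) * RB N c a + ((|τ| / (2 * Real.pi) : ℝ) : ℂ) ^ (-(2 * a : ℂ)) *
        (riemannZeta (1 - 2 * a) * RB N c (-a)))‖ ≤ T ^ (-(1 / 50) : ℝ)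

/-- (A6) the long twisted second moment to the right of the critical line (compare
`K5.StLong`) -/
def StLongS : Prop := ∃ T₀ : ℝ, 3 ≤ T₀ ∧ ∀ T, T₀ ≤ T → ∀ τ : ℝ, T / Real.log T ≤ |τ| →
    |τ| ≤ 3 / 2 * T → ∀ (N : ℕ) (c : ℕ → ℕ → ℂ), (N : ℝ) ≤ T →
    (∀ m n, ‖c m n‖ ≤ T ^ (1 / 1000 : ℝ)) → (∀ m n : ℕ, T ^ (89 / 100 : ℝ) < (m : ℝ) * n → c m n = 0) →
    ∀ a : ℝ, 1 / Real.log T ^ 2 ≤ a → a ≤ 1 / 400 →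
    ‖FH T τ (fun t => GB N c (fs (1 / 2 + t * I))) a -
      (riemannZeta (1 + 2 * a) * RB N c a + ((|τ| / (2 * Real.pi) : ℝ) : ℂ) ^ (-(2 * a : ℂ)) *
        (riemannZeta (1 - 2 * a) * RB N c (-a)))‖ ≤ T ^ (-(5 / 1000) : ℝ)

/-- (A7) means of zeta times Dirichlet polynomials to the right of the critical line (compare
`K1.StTransferZeta`) -/
def StTransS : Prop := ∃ T₀ : ℝ, 3 ≤ T₀ ∧ ∀ T, T₀ ≤ T → ∀ τ : ℝ, T / Real.log T ≤ |τ| →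
    |τ| ≤ 3 / 2 * T → ∀ (r : ℕ) (Sb : Fin r → Finset ℕ), Blk Sb → UU Sb = PS 0 T →
    ∀ G H : (ℕ → ℂ) → ℂ, DP (T ^ (9 / 10 : ℝ)) (T ^ 3) G → DP (T ^ (9 / 10 : ℝ)) (T ^ 3) H →
    ∀ a : ℝ, 0 ≤ a → a ≤ 1 / 4 →
    ‖EG T τ (fun t => riemannZeta (1 / 2 + (a : ℂ) + t * I) *
        (G (fs (1 / 2 + t * I)) * (starRingEnd ℂ) (H (fs (1 / 2 + t * I))))) -
      ER Sb (fun f => ZZ (PS 0 T) (tw (1 / 2 + (a : ℂ)) f) *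
        (G (tw (1 / 2) f) * (starRingEnd ℂ) (H (tw (1 / 2) f))))‖ ≤ T ^ (-2 : ℝ)

/-! ### Part Z: the sides with zeta -/

/-- (Z0) the variance of the prime sum over a block (compare `K5.StPrimeInt`) -/
def StPrimeV : Prop := ∀ lo hi ψ : ℝ, 0 < lo → lo < hi → hi ≤ 1 → 0 < ψ → ∀ ε : ℝ, 0 < ε →
    ∃ T₀ : ℝ, 3 ≤ T₀ ∧ ∀ T, T₀ ≤ T →
    |∑ p ∈ PS (Real.exp (lo * Real.log T)) (Real.exp (hi * Real.log T)),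
      (p : ℝ) ^ (-(1 + 2 * (ψ / Real.log T))) - VI ψ lo hi| ≤ ε

/-- (Z1) the complex Gaussian limit of one top block (compare `K8.StGaussC`) -/
def StGaussM : Prop := ∀ lo hi ψ : ℝ, 0 < lo → lo < hi → hi ≤ 1 → 0 < ψ →
    ∀ p q : Polynomial ℝ, ∀ ε : ℝ, 0 < ε → ∃ T₀ : ℝ, 3 ≤ T₀ ∧ ∀ T, T₀ ≤ T → ∀ S : Finset ℕ,
    S = PS (Real.exp (lo * Real.log T)) (Real.exp (hi * Real.log T)) → ∀ a : ℂ,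
    a = ((ψ / Real.log T : ℝ) : ℂ) →
    ‖ES S (fun f => Polynomial.aeval (∑ l ∈ S, tw (1 / 2 + a) f l) p *
        (starRingEnd ℂ) (Polynomial.aeval (∑ l ∈ S, tw (1 / 2 + a) f l) q)) -
      ((FK p q (VI ψ lo hi) : ℝ) : ℂ)‖ ≤ ε ∧
    ‖ES S (fun f => ZZ S (tw (1 / 2 + a) f) *
        (Polynomial.aeval (∑ l ∈ S, tw (1 / 2 + a) f l) p *
          (starRingEnd ℂ) (Polynomial.aeval (∑ l ∈ S, tw (1 / 2 + a) f l) q))) -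
      ((FK p (sh q (VI ψ lo hi)) (VI ψ lo hi) : ℝ) : ℂ)‖ ≤ ε ∧
    ‖ES S (fun f => ZZ S (tw (1 / 2 + a) f) * (starRingEnd ℂ) (ZZ S (tw (1 / 2 + a) f)) *
        (Polynomial.aeval (∑ l ∈ S, tw (1 / 2 + a) f l) p *
          (starRingEnd ℂ) (Polynomial.aeval (∑ l ∈ S, tw (1 / 2 + a) f l) q))) *
        ∏ l ∈ S, (1 - (l : ℂ) ^ (-(1 + a + a))) -
      ((FK (sh p (VI ψ lo hi)) (sh q (VI ψ lo hi)) (VI ψ lo hi) : ℝ) : ℂ)‖ ≤ ε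

/-- (Z2) the limits of the top factors (compare `K8.StTop8`) -/
def StTop9 : Prop := ∀ (k : ℝ) (M : ℕ) (C : Cfg), Adm k M C → ∀ i, i < C.N →
    ∀ ε : ℝ, 0 < ε → ∃ T₀ : ℝ, 3 ≤ T₀ ∧ ∀ T, T₀ ≤ T →
    ‖ETf C T i - ((lF C i : ℝ) : ℂ)‖ ≤ ε ∧
    ‖ETs C T ((C.a T : ℝ) : ℂ) i - ((lS C i : ℝ) : ℂ)‖ ≤ ε ∧
    |ES (C.U T i) (fun f => VT C T i (tw (1 / 2) f)) - lW C i| ≤ ε

/-- (Z3) the arithmetic factor is a product over the blocks (compare `K8.StFactZ`) -/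
def StFactS : Prop := ∀ k : ℝ, 0 < k → k < 1 → ∀ (M : ℕ) (C : Cfg), Adm k M C → ∃ T₀ : ℝ,
    3 ≤ T₀ ∧ ∀ T, T₀ ≤ T → ∀ (N : ℕ) (c : ℕ → ℕ → ℂ), (N : ℝ) ≤ T →
    (∀ f, CMul f → ((‖G1 k C T M f‖ ^ 2 : ℝ) : ℂ) = GB N c f) →
    (RB N c ((C.a T : ℝ) : ℂ) =
      (∏ j ∈ Finset.range (JJ T + 1), EBo T M k (Finset.range (JJ T + 1)) ∅ ((C.a T : ℝ) : ℂ) j) *
        ∏ i ∈ Finset.range C.N, ETs C T ((C.a T : ℝ) : ℂ) i) ∧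
    (∃ x : ℝ, 0 ≤ x ∧ RB N c (-((C.a T : ℝ) : ℂ)) = x)

/-- (Z4) the first moment is a product over the blocks -/
def StFactF : Prop := ∀ k : ℝ, 0 < k → k < 1 → ∀ (M : ℕ) (C : Cfg), Adm k M C → ∃ T₀ : ℝ,
    3 ≤ T₀ ∧ ∀ T, T₀ ≤ T →
    ER (SB9 C T M) (fun f => ZZ (PS 0 T) (tw (1 / 2 + ((C.a T : ℝ) : ℂ)) f) *
        (G1 k C T M (tw (1 / 2) f) * (starRingEnd ℂ) (G2 k C T M (tw (1 / 2) f)))) =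
      (∏ j ∈ Finset.range (JJ T + 1), EBf T M k (C.a T) j) * ∏ i ∈ Finset.range C.N, ETf C T i

/-- (Z5) our polynomials belong to the classes (compare `K8.StBQZ`) -/
def StBQ9 : Prop := ∀ k : ℝ, 0 < k → k < 1 → ∃ M₀ : ℕ, ∀ M : ℕ, M₀ ≤ M → ∀ C : Cfg, Adm k M C →
    ∃ T₀ : ℝ, 3 ≤ T₀ ∧ ∀ T, T₀ ≤ T →
    BQ (T ^ (89 / 100 : ℝ)) (T ^ (1 / 1000 : ℝ)) (fun f => ((‖G1 k C T M f‖ ^ 2 : ℝ) : ℂ)) ∧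
    DP (T ^ (9 / 10 : ℝ)) (T ^ 3) (G1 k C T M) ∧ DP (T ^ (9 / 10 : ℝ)) (T ^ 3) (G2 k C T M)

/-- (Z6) continuity and size of our functions on the critical line (compare `K8.StCont8`) -/
def StCont9 : Prop := ∀ k : ℝ, 0 < k → k < 1 → ∃ M₀ : ℕ, ∀ M : ℕ, M₀ ≤ M → ∀ C : Cfg, Adm k M C →
    ∃ T₀ : ℝ, 3 ≤ T₀ ∧ ∀ T, T₀ ≤ T →
    (Continuous fun t : ℝ => G1 k C T M (fs (1 / 2 + t * I))) ∧
    (Continuous fun t : ℝ => G2 k C T M (fs (1 / 2 + t * I))) ∧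
    (Continuous fun t : ℝ => VV9 k C T M (fs (1 / 2 + t * I))) ∧
    (∀ t : ℝ, ‖G1 k C T M (fs (1 / 2 + t * I))‖ ≤ T ^ 3) ∧
    (∀ t : ℝ, ‖G2 k C T M (fs (1 / 2 + t * I))‖ ≤ T ^ 3) ∧
    (∀ f, 0 ≤ VV9 k C T M f) ∧
    ∀ t : ℝ, VV9 k C T M (fs (1 / 2 + t * I)) ≤ T ^ 3

/-- (Z7) the bottom blocks, second moment (compare `K5.StBotMain`) -/
def StBotS : Prop := ∀ k : ℝ, 0 < k → k < 1 → ∀ Ψ : ℝ, 0 < Ψ → ∀ η : ℝ, 0 < η → ∃ M₀ : ℕ,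
    ∀ M : ℕ, M₀ ≤ M → ∃ T₀ : ℝ, 3 ≤ T₀ ∧ ∀ T, T₀ ≤ T → ∀ w : ℂ, ‖w‖ ≤ Ψ / Real.log T →
    ‖(∏ j ∈ Finset.range (JJ T + 1), EBo T M k (Finset.range (JJ T + 1)) ∅ w j) -
      ((aK k * lM T M ^ (k ^ 2 - 1) : ℝ) : ℂ)‖ ≤ η * (aK k * lM T M ^ (k ^ 2 - 1))

/-- (Z8) one block, first moment (compare `K8.StBlkN`, `K1.StBlockShift`) -/
def StBlkF : Prop := ∃ C₁ : ℝ, 0 < C₁ ∧ ∀ (A l : ℕ) (S : Finset ℕ) (k a : ℝ),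
    1 ≤ A → (∀ p ∈ S, p.Prime) → 0 < k → k ≤ 1 → 0 ≤ a → (∀ p ∈ S, a * Real.log p ≤ 1 / 20) →
    a * ∑ p ∈ S, Real.log p / p ≤ 1 →
    16 * Real.exp (C₁ * ∑ p ∈ S, 1 / (p : ℝ)) ≤ Real.exp (l / 2) →
    ‖ES S (fun f => ZZ S (tw (1 / 2 + (a : ℂ)) f) * (Ntr l (k - 1) (Pj A S (tw (1 / 2) f)) *
          (starRingEnd ℂ) (Ntr l k (Pj A S (tw (1 / 2) f))))) -
        ((∏ p ∈ S, Dl k ((p : ℝ) ^ (-(1 / 2) : ℝ)) : ℝ) : ℂ)‖ ≤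
      C₁ * (Real.exp (3 * Pool.Agent.Lib.MP_973905_nt.rho A S) - 1 + Real.exp (-(l / 2)) +
        a * ∑ p ∈ S, Real.log p / p) * ∏ p ∈ S, Dl k ((p : ℝ) ^ (-(1 / 2) : ℝ))

/-- (Z9) the bottom blocks, first moment -/
def StBotF : Prop := ∀ k : ℝ, 0 < k → k < 1 → ∀ Ψ : ℝ, 0 < Ψ → ∀ η : ℝ, 0 < η → ∃ M₀ : ℕ,
    ∀ M : ℕ, M₀ ≤ M → ∃ T₀ : ℝ, 3 ≤ T₀ ∧ ∀ T, T₀ ≤ T → ∀ a : ℝ, 0 ≤ a → a ≤ Ψ / Real.log T →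
    ‖(∏ j ∈ Finset.range (JJ T + 1), EBf T M k a j) - ((aK k * lM T M ^ (k ^ 2) : ℝ) : ℂ)‖ ≤
      η * (aK k * lM T M ^ (k ^ 2))

/-- (Z10) the first moment -/
def StFst9 : Prop := ∀ k : ℝ, 0 < k → k < 1 → ∀ Ψ : ℝ, 0 < Ψ → ∀ η : ℝ, 0 < η → ∃ M₀ : ℕ,
    ∀ M : ℕ, M₀ ≤ M → ∀ C : Cfg, Adm k M C → C.psi ≤ Ψ → ∃ T₀ : ℝ, 3 ≤ T₀ ∧ ∀ T, T₀ ≤ T →
    ∀ τ : ℝ, T / Real.log T ≤ |τ| → |τ| ≤ 3 / 2 * T →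
    (1 - η) * (aK k * lM T M ^ (k ^ 2) * ∏ i ∈ Finset.range C.N, lF C i) ≤
    ‖EG T τ (fun t => riemannZeta (1 / 2 + ((C.a T : ℝ) : ℂ) + t * I) *
      (G1 k C T M (fs (1 / 2 + t * I)) * (starRingEnd ℂ) (G2 k C T M (fs (1 / 2 + t * I)))))‖

/-- (Z11) the second moment -/
def StSec9 : Prop := ∀ k : ℝ, 0 < k → k < 1 → ∀ Ψ : ℝ, 0 < Ψ → ∀ η : ℝ, 0 < η → ∃ M₀ : ℕ,
    ∀ M : ℕ, M₀ ≤ M → ∀ C : Cfg, Adm k M C → C.psi ≤ Ψ → ∃ T₀ : ℝ, 3 ≤ T₀ ∧ ∀ T, T₀ ≤ T →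
    ∀ τ : ℝ, T / Real.log T ≤ |τ| → |τ| ≤ 3 / 2 * T →
    EG T τ (fun t => ‖riemannZeta (1 / 2 + ((C.a T : ℝ) : ℂ) + t * I)‖ ^ 2 *
      ‖G1 k C T M (fs (1 / 2 + t * I))‖ ^ 2) ≤
    (1 + η) * (aK k * lM T M ^ (k ^ 2 - 1) * (Real.log T / (2 * C.psi)) *
      ∏ i ∈ Finset.range C.N, lS C i)

/-! ### Part V: the side without zeta -/

/-- (V1) the pointwise inequality in a bottom block (compare `K8.StPtB`) -/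
def StPtB9 : Prop := ∀ k : ℝ, 0 < k → k < 1 → ∃ M₀ : ℕ, ∀ M : ℕ, M₀ ≤ M → ∀ (T : ℝ) (j : ℕ),
    j ≤ JJ T → ∀ z : ℂ, ‖Ntr (ll M (JJ T) j) (k - 1) z‖ ^ 2 *
      (‖Ntr (ll M (JJ T) j) k z‖ ^ 2) ^ (1 / k) ≤ VBz k T M j z

/-- (V2) the pointwise inequality (compare `K8.StPt8`) -/
def StPt9 : Prop := ∀ k : ℝ, 0 < k → k < 1 → ∃ M₀ : ℕ, ∀ M : ℕ, M₀ ≤ M → ∀ C : Cfg, Adm k M C →
    ∀ (T : ℝ) (f : ℕ → ℂ), ‖G1 k C T M f‖ ^ 2 * (‖G2 k C T M f‖ ^ 2) ^ (1 / k) ≤ VV9 k C T M f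

/-- (V3) the product over the bottom blocks (compare `K8.StBotV`) -/
def StBotV9 : Prop := ∀ k : ℝ, 0 < k → k < 1 → ∀ η : ℝ, 0 < η → ∃ M₀ : ℕ, ∀ M : ℕ, M₀ ≤ M →
    ∃ T₀ : ℝ, 3 ≤ T₀ ∧ ∀ T, T₀ ≤ T →
    ∏ j ∈ Finset.range (JJ T + 1), ES (Sj T M (JJ T) j) (fun f => VB k T M j (tw (1 / 2) f)) ≤
      (1 + η) * (aK k * lM T M ^ (k ^ 2))

/-- (V4) the bottom polynomials are short (compare `K8.StLen8`) -/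
def StLen9 : Prop := ∀ k θ : ℝ, 0 < k → k < 1 → 0 < θ → ∃ M₀ : ℕ, ∀ M : ℕ, M₀ ≤ M → ∃ T₀ : ℝ,
    3 ≤ T₀ ∧ ∀ T, T₀ ≤ T → ∀ h : Finset ℕ,
    DP (T ^ θ) (T ^ θ) (fun f => ∏ j ∈ Finset.range (JJ T + 1),
      (if j ∈ h then (Pj M (Sj T M (JJ T) j) f / (KK M (JJ T) j : ℂ)) ^ K8.nb k T M j
        else Ntr (ll M (JJ T) j) k (Pj M (Sj T M (JJ T) j) f))) ∧
    ∏ j ∈ Finset.range (JJ T + 1), (2 * Real.exp (2 * K8.pe k * KK M (JJ T) j)) ≤ T ^ θ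

/-- (V5) the Gaussian means of the weight (compare `K8.StMeanV`) -/
def StMeanV9 : Prop := ∀ k : ℝ, 0 < k → k < 1 → ∃ M₀ : ℕ, ∀ M : ℕ, M₀ ≤ M → ∀ C : Cfg,
    Adm k M C → ∃ T₀ : ℝ, 3 ≤ T₀ ∧ ∀ T, T₀ ≤ T → ∀ τ : ℝ,
    EG T τ (fun t => VV9 k C T M (fs (1 / 2 + t * I))) ≤
      (∏ j ∈ Finset.range (JJ T + 1), ES (Sj T M (JJ T) j) (fun f => VB k T M j (tw (1 / 2) f))) *
        (∏ i ∈ Finset.range C.N, ES (C.U T i) (fun f => VT C T i (tw (1 / 2) f))) +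
      T ^ (-10 : ℝ)

/-- (V6) the side without zeta -/
def StSideV9 : Prop := ∀ k : ℝ, 0 < k → k < 1 → ∀ η : ℝ, 0 < η → ∃ M₀ : ℕ, ∀ M : ℕ, M₀ ≤ M →
    ∀ C : Cfg, Adm k M C → ∃ T₀ : ℝ, 3 ≤ T₀ ∧ ∀ T, T₀ ≤ T → ∀ τ : ℝ,
    EG T τ (fun t => VV9 k C T M (fs (1 / 2 + t * I))) ≤
      (1 + η) * (aK k * lM T M ^ (k ^ 2) * ∏ i ∈ Finset.range C.N, lW C i)

/-! ### The lower bound -/

/-- (H) Hölder's inequality -/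
def StHold9 : Prop := ∀ k : ℝ, 0 < k → k < 1 → ∀ Ψ : ℝ, 0 < Ψ → ∀ η : ℝ, 0 < η → ∃ M₀ : ℕ,
    ∀ M : ℕ, M₀ ≤ M → ∀ C : Cfg, Adm k M C → C.psi ≤ Ψ → ∃ T₀ : ℝ, 3 ≤ T₀ ∧ ∀ T, T₀ ≤ T →
    (1 - η) * (aK k * Real.log T ^ (k ^ 2) *
      (Real.exp ((Real.eulerMascheroniConstant - M) * (k ^ 2 + 1 - k)) *
        (2 * C.psi) ^ (1 - k) *
        ((∏ i ∈ Finset.range C.N, lF C i) ^ 2 /
          ((∏ i ∈ Finset.range C.N, lS C i) ^ (1 - k) *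
            (∏ i ∈ Finset.range C.N, lW C i) ^ k)))) ≤
    T⁻¹ * ∫ t in (0 : ℝ)..T, ‖riemannZeta (1 / 2 + t * I)‖ ^ (2 * k)

/-! ### Part N: numbers -/

/-- (N1) the Gaussian shift, in terms of Taylor coefficients (compare `K8.StFock`) -/
def StTilt : Prop := ∀ (p q : Polynomial ℝ) (u w V : ℝ), 0 ≤ V →
    HasSum (fun j : ℕ => cfe p u j * cfe q w j * (j.factorial : ℝ) * V ^ j)
      (Real.exp (u * w * V) * FK (sh p (-(w * V))) (sh q (-(u * V))) V)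

/-- (N2) Cauchy–Schwarz for a product -/
def StFockCS : Prop := ∀ (p q : Polynomial ℝ) (u w V : ℝ), 0 ≤ V →
    (∑' j : ℕ, cfe (p * q) (u + w) j ^ 2 * (j.factorial : ℝ) * V ^ j) ^ 2 ≤
      (∑' j : ℕ, cfe (p * p) (2 * u) j ^ 2 * (j.factorial : ℝ) * V ^ j) *
        ∑' j : ℕ, cfe (q * q) (2 * w) j ^ 2 * (j.factorial : ℝ) * V ^ j

/-- (N3) a bound for the derivative of the mean square -/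
def StCrudeD : Prop := ∀ (a l V : ℝ) (n : ℕ), 0 < a → 1 ≤ n → 0 ≤ V →
    ((n : ℝ) - 1) * a ^ 2 * V < 1 →
    Summable (fun j : ℕ => K8.dcf a l n j ^ 2 * (j.factorial : ℝ) * V ^ j) ∧
    Summable (fun j : ℕ => ((j + 1 : ℕ) : ℝ) ^ 2 * K8.dcf a l n (j + 1) ^ 2 *
      (j.factorial : ℝ) * V ^ j) ∧
    ∑' j : ℕ, ((j + 1 : ℕ) : ℝ) ^ 2 * K8.dcf a l n (j + 1) ^ 2 * (j.factorial : ℝ) * V ^ j ≤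
      a ^ 2 * (1 / (1 - ((n : ℝ) - 1) * a ^ 2 * V)) *
        Real.exp ((l - ((n : ℝ) - 1) * a) ^ 2 * V / (1 - ((n : ℝ) - 1) * a ^ 2 * V)) *
        (((n : ℝ) - l / a + l * (l - ((n : ℝ) - 1) * a) * V / (1 - ((n : ℝ) - 1) * a ^ 2 * V)) ^ 2 +
          l ^ 2 * V / (1 - ((n : ℝ) - 1) * a ^ 2 * V))

/-- (N4) the mean square without mismatch -/
def StNA : Prop := ∀ (a V : ℝ) (n : ℕ), 0 < a → 1 ≤ n → 0 ≤ V → n * a ^ 2 * V ≤ 2 / 5 →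
    Summable (fun j : ℕ => K8.dcf a (n * a) n j ^ 2 * (j.factorial : ℝ) * V ^ j) ∧
    ∑' j : ℕ, K8.dcf a (n * a) n j ^ 2 * (j.factorial : ℝ) * V ^ j ≤ 1 + (n * a ^ 2 * V) ^ 2

/-- (N5a) an inequality in three variables -/
def StPart9 : Prop := ∀ τ r u : ℝ, -2 ≤ τ → τ ≤ 2 → 0 ≤ r → r ≤ 2 / 3 → 0 ≤ u → u ≤ 1 / 8 →
    (1 + r) / (1 + (1 - τ) * u * r) * Real.exp ((1 - τ) ^ 2 * u * r / (1 + (1 - τ) * u * r)) *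
        (u * (τ + (1 - τ) * r / (1 + (1 - τ) * u * r)) ^ 2 + r / (1 + (1 - τ) * u * r)) ≤
      r * (1 + r) + u * (3 / 10 + 2 * r * (1 - r) * (1 + r) * τ + 6 / 5 * τ ^ 2)

/-- (N5) the mean square with mismatch -/
def StNB : Prop := ∀ (b t V : ℝ) (m : ℕ), 0 < b → b ≤ 1 / 4 → 0 ≤ t → t ≤ 1 → (m + t) * b = 1 →
    0 ≤ V → 2 * b * V ≤ 2 / 5 →
    Summable (fun j : ℕ => K8.dcf b 2 (2 * m) j ^ 2 * (j.factorial : ℝ) * V ^ j) ∧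
    Summable (fun j : ℕ => K8.dcf b 2 (2 * m + 2) j ^ 2 * (j.factorial : ℝ) * V ^ j) ∧
    (1 - t) * ∑' j : ℕ, K8.dcf b 2 (2 * m) j ^ 2 * (j.factorial : ℝ) * V ^ j +
      t * ∑' j : ℕ, K8.dcf b 2 (2 * m + 2) j ^ 2 * (j.factorial : ℝ) * V ^ j ≤
      1 + (2 * b * V) ^ 2 + 3 / 2 * (b ^ 2 * V)

/-- (N6) the loss of a block -/
def StLoss9 : Prop := ∀ (k V : ℝ) (D E : ℕ), 0 < k → k < 1 → 1 ≤ D → 1 ≤ E → 0 < V →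
    2 * (1 - k) ^ 2 * V / D ≤ 2 / 5 → 2 * k * V / E ≤ 2 / 5 → k / E ≤ 1 / 4 →
    0 < bF k D E V ∧ 0 < bS k D V ∧ 0 < bW k D E V ∧
    (k ^ 2 + 1 - k) * V - ((1 - k) ^ 4 * (1 + k) * V ^ 2 / D ^ 2 + 2 * k ^ 3 * V ^ 2 / E ^ 2 +
        3 / 4 * k ^ 3 * V / E ^ 2) ≤
      2 * Real.log (bF k D E V) - (1 - k) * Real.log (bS k D V) - k * Real.log (bW k D E V)

/-- (N7) the sum of the variances -/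
def StSumV : Prop := ∀ ψ te₀ : ℝ, 0 < ψ → 0 < te₀ → ∀ ε : ℝ, 0 < ε → ∃ M₁ : ℕ, ∀ M : ℕ,
    M₁ ≤ M → (M : ℝ) - Real.eulerMascheroniConstant - Real.log (2 * ψ) - E1 (2 * ψ * te₀) - ε ≤
      VI ψ (Real.exp (-(M : ℝ))) te₀

/-- (N8) values of the exponential integral -/
def StE1 : Prop := E1 (9 / 5) ≤ 7 / 100 ∧ E1 (4 / 5) ≤ 8 / 25 ∧ E1 (3 / 10) ≤ 23 / 25 ∧
    ∀ y : ℝ, 0 < y → 0 ≤ E1 y ∧ E1 y ≤ Real.exp (-y) / y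

/-- (N9) our data are admissible -/
def StAdm9 : Prop := ∀ k : ℝ, 0 < k → k < 1 → ∃ M₀ : ℕ, ∀ M : ℕ, M₀ ≤ M →
    Adm k M (cfg9 k M) ∧ 2 ≤ Nt k M ∧ te9 k M 0 = th k ∧
    (∀ i, i < Nt k M → 0 < V9 k M i ∧ V9 k M i ≤ 2) ∧ V9 k M 0 ≤ vo k ∧
    ∀ i, i + 1 < Nt k M → V9 k M i ≤ 1

/-- (N10) the total loss -/
def StLam9 : Prop := ∀ k : ℝ, 0 < k → k < 1 → ∀ ε : ℝ, 0 < ε → ∃ M₁ : ℕ, ∀ M : ℕ, M₁ ≤ M →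
    ∑ i ∈ Finset.range (Nt k M), ls9 k (cfg9 k M) i ≤ LamB k + ε

/-- (N11) the Barnes quotient from above -/
def StGu9 : Prop := ∀ k : ℝ, 0 < k → k < 1 →
    (k ≤ 1 / 2 → barnesG (k + 1) ^ 2 / barnesG (2 * k + 1) ≤
      Real.exp (k ^ 2 * (79 / 50 - 2 * k))) ∧
    (1 / 2 ≤ k → barnesG (k + 1) ^ 2 / barnesG (2 * k + 1) ≤ Real.exp (k ^ 2 * (27 / 25 - k)))

/-- The final inequality. -/
def FinI (k : ℝ) : Prop := k ^ 2 * Real.log (xo k / th k) + (k ^ 2 + 1 - k) * E1 (xo k) + LamB k +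
    Real.log (barnesG (k + 1) ^ 2 / barnesG (2 * k + 1)) ≤ 3 * k ^ 2 * (1 - Real.log k)

/-- (N12) the final inequality, first interval -/
def StNumA : Prop := ∀ k : ℝ, 0 < k → k ≤ 1 / 4 → FinI k

/-- (N13) the final inequality, second interval -/
def StNumB : Prop := ∀ k : ℝ, 1 / 4 < k → k ≤ 1 / 2 → FinI k

/-- (N14) the final inequality, third interval -/
def StNumC : Prop := ∀ k : ℝ, 1 / 2 < k → k ≤ 3 / 4 → FinI k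

/-- (N15) the final inequality, fourth interval -/
def StNumD : Prop := ∀ k : ℝ, 3 / 4 < k → k < 1 → FinI k

/-! ### the theorem -/

/-- (F) the lower bound for every fixed order between 0 and 1 -/
def StFinal9 : Prop := ∀ k : ℝ, 0 < k → k < 1 → ∀ ε : ℝ, 0 < ε → ∃ T₀ : ℝ, 3 ≤ T₀ ∧ ∀ T, T₀ ≤ T →
    LL9 k - ε ≤ (T⁻¹ * ∫ t in (0 : ℝ)..T, ‖riemannZeta (1 / 2 + t * I)‖ ^ (2 * k)) /
      (cK k * (Real.log T) ^ (k ^ 2))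

end K9
end Pool.Agent.Lib.MP_973905_nt
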