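import Pool.Agent.Lib.MP_973905_nt.K8.CrudeF
import Pool.Agent.Lib.MP_973905_nt.K9.Stmts

/-! (N3) A bound for the Gaussian mean square of the derivative of `(1 + a z)^n e^{-lz}`. -/

namespace Pool.Agent.Lib.MP_973905_nt
namespace K9

open MeasureTheory ProbabilityTheory Complex Filter Topology K1 K4 K5

namespace CrD

open K8.CrF

/-! ### comparison of two entire functions -/

lemma ser_bd' (x y : ℕ → ℝ) (X Y : ℂ → ℂ) (cX : Continuous X) (cY : Continuous Y)
    (hX : ∀ z, HasSum (fun j => (x j : ℂ) * z ^ j) (X z))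
    (hY : ∀ z, HasSum (fun j => (y j : ℂ) * z ^ j) (Y z)) (K d : ℝ)
    (hb : ∀ z, ‖X z‖ ^ 2 ≤ K * (Real.exp (d * ‖z‖ ^ 2) * ‖Y z‖ ^ 2)) (r : ℝ) (N : ℕ) :
    ∑ j ∈ Finset.range N, x j ^ 2 * r ^ (2 * j) ≤
      K * (Real.exp (d * r ^ 2) * ∑' j : ℕ, y j ^ 2 * r ^ (2 * j)) := by
  have hA := pars x r X hX
  have hB := pars y r Y hY
  rw [hB.tsum_eq]
  refine (sum_le_hasSum _ (fun j _ => by rw [pow_mul]; positivity) hA).trans ?_
  have e : K * (Real.exp (d * r ^ 2) * ((2 * Real.pi)⁻¹ *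
      ∫ θ in (0 : ℝ)..(2 * Real.pi), ‖Y (r * Complex.exp (θ * I))‖ ^ 2)) =
      (2 * Real.pi)⁻¹ * ((K * Real.exp (d * r ^ 2)) *
      ∫ θ in (0 : ℝ)..(2 * Real.pi), ‖Y (r * Complex.exp (θ * I))‖ ^ 2) := by ring
  rw [e]
  refine mul_le_mul_of_nonneg_left ?_ (by positivity)
  rw [← intervalIntegral.integral_const_mul]
  apply intervalIntegral.integral_mono_on (by positivity)
  · exact Continuous.intervalIntegrable (by fun_prop) _ _
  · exact Continuous.intervalIntegrable (by fun_prop) _ _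
  · intro θ _
    have h := hb (r * Complex.exp (θ * I))
    have h2 : ‖(r : ℂ) * Complex.exp (θ * I)‖ ^ 2 = r ^ 2 := by
      rw [norm_mul, Complex.norm_exp_ofReal_mul_I, mul_one, Complex.norm_real, Real.norm_eq_abs,
        sq_abs]
    rw [h2] at h
    linarith

lemma majo (x y : ℕ → ℝ) (X Y : ℂ → ℂ) (cX : Continuous X) (cY : Continuous Y)
    (hX : ∀ z, HasSum (fun j => (x j : ℂ) * z ^ j) (X z))
    (hY : ∀ z, HasSum (fun j => (y j : ℂ) * z ^ j) (Y z)) (K d V R : ℝ) (hK : 0 ≤ K)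
    (hV : 0 ≤ V) (hd : d * V < 1)
    (hb : ∀ z, ‖X z‖ ^ 2 ≤ K * (Real.exp (d * ‖z‖ ^ 2) * ‖Y z‖ ^ 2))
    (hR : HasSum (fun j => y j ^ 2 * V ^ j * ((j.factorial : ℝ) / (1 - d * V) ^ (j + 1))) R) :
    Summable (fun j => x j ^ 2 * (j.factorial : ℝ) * V ^ j) ∧
      ∑' j, x j ^ 2 * (j.factorial : ℝ) * V ^ j ≤ K * R := by
  have hb1 : 0 < 1 - d * V := by linarith
  have hR0 : 0 ≤ R := hR.nonneg fun j => by positivity
  suffices hN : ∀ N : ℕ, ∑ j ∈ Finset.range N, x j ^ 2 * (j.factorial : ℝ) * V ^ j ≤ K * R from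
    ⟨summable_of_sum_range_le (fun j => by positivity) hN,
      Real.tsum_le_of_sum_range_le (fun j => by positivity) hN⟩
  intro N
  -- the right side
  set g : ℕ → ℝ → ℝ := fun j s =>
    y j ^ 2 * V ^ j * (s ^ j * Real.exp (-((1 - d * V) * s))) with hg
  have g0 : ∀ j, ∀ s : ℝ, 0 < s → 0 ≤ g j s := by
    intro j s hs
    simp only [hg]
    positivity
  have gi : ∀ j, IntegrableOn (g j) (Set.Ioi 0) := fun j => ((mom (1 - d * V) hb1 j).1).const_mul _
  have gs : HasSum (fun j => ∫ s in Set.Ioi (0 : ℝ), g j s) R := by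
    refine hR.congr_fun ?_
    intro j
    simp only [hg]
    rw [integral_const_mul, (mom (1 - d * V) hb1 j).2]
  -- the left side
  set f : ℝ → ℝ := fun s => ∑ j ∈ Finset.range N,
    x j ^ 2 * V ^ j * (s ^ j * Real.exp (-(1 * s))) with hf
  have fi : IntegrableOn f (Set.Ioi 0) := by
    simp only [hf]
    exact integrable_finsetSum _ fun j _ => ((mom 1 one_pos j).1).const_mul _
  have fv : ∫ s in Set.Ioi (0 : ℝ), f s =
      ∑ j ∈ Finset.range N, x j ^ 2 * (j.factorial : ℝ) * V ^ j := by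
    simp only [hf]
    rw [integral_finsetSum _ fun j _ => ((mom 1 one_pos j).1).const_mul _]
    refine Finset.sum_congr rfl fun j _ => ?_
    rw [integral_const_mul, (mom 1 one_pos j).2, one_pow, div_one]
    ring
  have f0 : ∀ s : ℝ, 0 < s → 0 ≤ f s := by
    intro s hs
    simp only [hf]
    positivity
  -- the pointwise inequality
  have hpt : ∀ s : ℝ, 0 < s → Summable (fun j => g j s) ∧ f s ≤ K * ∑' j, g j s := by
    intro s hs
    have hr : ∀ j : ℕ, Real.sqrt (V * s) ^ (2 * j) = V ^ j * s ^ j := by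
      intro j
      rw [pow_mul, Real.sq_sqrt (by positivity), mul_pow]
    have h1 := ser_bd' x y X Y cX cY hX hY K d hb (Real.sqrt (V * s)) N
    simp only [hr] at h1
    rw [Real.sq_sqrt (by positivity)] at h1
    have hS : Summable (fun j : ℕ => y j ^ 2 * (V ^ j * s ^ j)) := by
      have hB := pars y (Real.sqrt (V * s)) Y hY
      simp only [hr] at hB
      exact hB.summable
    have e1 : ∀ j, g j s = Real.exp (-((1 - d * V) * s)) * (y j ^ 2 * (V ^ j * s ^ j)) := by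
      intro j
      simp only [hg]
      ring
    refine ⟨by simp only [e1]; exact hS.mul_left _, ?_⟩
    simp only [e1]
    rw [tsum_mul_left]
    have e2 : f s = Real.exp (-s) * ∑ j ∈ Finset.range N, x j ^ 2 * (V ^ j * s ^ j) := by
      simp only [hf, one_mul]
      rw [Finset.mul_sum]
      refine Finset.sum_congr rfl fun j _ => ?_
      ring
    rw [e2]
    calc Real.exp (-s) * ∑ j ∈ Finset.range N, x j ^ 2 * (V ^ j * s ^ j)
        ≤ Real.exp (-s) * (K * (Real.exp (d * (V * s)) * ∑' j : ℕ, y j ^ 2 * (V ^ j * s ^ j))) :=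
          mul_le_mul_of_nonneg_left h1 (Real.exp_pos _).le
      _ = K * ((Real.exp (-s) * Real.exp (d * (V * s))) *
          ∑' j : ℕ, y j ^ 2 * (V ^ j * s ^ j)) := by ring
      _ = K * (Real.exp (-((1 - d * V) * s)) * ∑' j : ℕ, y j ^ 2 * (V ^ j * s ^ j)) := by
          rw [← Real.exp_add]
          congr 3
          ring
  -- integration
  have key : ENNReal.ofReal (∫ s in Set.Ioi (0 : ℝ), f s) ≤ ENNReal.ofReal (K * R) := by
    rw [ofReal_integral_eq_lintegral_ofReal fi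
      ((ae_restrict_iff' measurableSet_Ioi).mpr (ae_of_all _ fun s hs => f0 s hs))]
    calc ∫⁻ s in Set.Ioi (0 : ℝ), ENNReal.ofReal (f s)
        ≤ ∫⁻ s in Set.Ioi (0 : ℝ), ENNReal.ofReal K * ∑' j, ENNReal.ofReal (g j s) := by
          refine setLIntegral_mono' measurableSet_Ioi fun s hs => ?_
          rw [← ENNReal.ofReal_tsum_of_nonneg (fun j => g0 j s hs) (hpt s hs).1,
            ← ENNReal.ofReal_mul hK]
          exact ENNReal.ofReal_le_ofReal (hpt s hs).2
      _ = ENNReal.ofReal K * ∫⁻ s in Set.Ioi (0 : ℝ), ∑' j, ENNReal.ofReal (g j s) :=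
          lintegral_const_mul' _ _ ENNReal.ofReal_ne_top
      _ = ENNReal.ofReal K * ∑' j, ∫⁻ s in Set.Ioi (0 : ℝ), ENNReal.ofReal (g j s) := by
          rw [lintegral_tsum fun j => ((gi j).aestronglyMeasurable.aemeasurable).ennreal_ofReal]
      _ = ENNReal.ofReal K * ∑' j, ENNReal.ofReal (∫ s in Set.Ioi (0 : ℝ), g j s) := by
          congr 2
          funext j
          rw [ofReal_integral_eq_lintegral_ofReal (gi j)
            ((ae_restrict_iff' measurableSet_Ioi).mpr (ae_of_all _ fun s hs => g0 j s hs))]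
      _ = ENNReal.ofReal (K * R) := by
          rw [← ENNReal.ofReal_tsum_of_nonneg (fun j =>
            setIntegral_nonneg measurableSet_Ioi fun s hs => g0 j s hs) gs.summable, gs.tsum_eq,
            ENNReal.ofReal_mul hK]
  rw [← fv]
  exact (ENNReal.ofReal_le_ofReal_iff (by positivity)).mp key

/-! ### the derivative -/

/-- the Taylor coefficients of the derivative -/
lemma cf_der (a l : ℝ) (m j : ℕ) : ((j + 1 : ℕ) : ℝ) * cf a l (m + 1) (j + 1) =
    (((m : ℝ) + 1) * a - l) * cf a l m j -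
      (if j = 0 then 0 else a * l * cf a l m (j - 1)) := by
  match j with
  | 0 =>
    have h := (cf_rec a l (m + 1)).1
    rw [cf_zero]
    simp only [if_true]
    push_cast at h ⊢
    linarith
  | j + 1 =>
    have h := (cf_rec a l m).2 j
    have h1 : cf a l (m + 1) (j + 1 + 1) = cf a l m (j + 2) + a * cf a l m (j + 1) := rfl
    rw [h1, if_neg (by omega), Nat.add_sub_cancel]
    push_cast
    linear_combination h

/-- a power series times a linear factor -/
lemma hasSum_lin {c : ℕ → ℝ} {z H : ℂ} (h : HasSum (fun j => (c j : ℂ) * z ^ j) H) (p q : ℝ) :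
    HasSum (fun j => ((p * c j - (if j = 0 then 0 else q * c (j - 1)) : ℝ) : ℂ) * z ^ j)
      (((p : ℂ) - q * z) * H) := by
  have h1 : HasSum (fun j => ((if j = 0 then 0 else q * c (j - 1) : ℝ) : ℂ) * z ^ j)
      (q * z * H) := by
    rw [← hasSum_nat_add_iff' 1]
    simp only [Finset.sum_range_one, if_true, Complex.ofReal_zero, zero_mul, sub_zero]
    refine (h.mul_left ((q : ℂ) * z)).congr_fun fun j => ?_
    rw [if_neg (by omega), Nat.add_sub_cancel]
    push_cast
    ring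
  have h2 := (h.mul_left (p : ℂ)).sub h1
  have h3 : ((p : ℂ) - q * z) * H = (p : ℂ) * H - q * z * H := by ring
  rw [h3]
  refine h2.congr_fun fun j => ?_
  split_ifs
  · push_cast
    ring
  · push_cast
    ring

/-- the coefficients of the majorant -/
noncomputable def yD (τ l e : ℝ) (j : ℕ) : ℝ :=
  τ * (e ^ j / (j.factorial : ℝ)) -
    (if j = 0 then 0 else l * (e ^ (j - 1) / ((j - 1).factorial : ℝ)))

lemma yD_sum (τ l e W : ℝ) :
    HasSum (fun j => yD τ l e j ^ 2 * (j.factorial : ℝ) * W ^ j)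
      (Real.exp (e ^ 2 * W) * ((τ - l * e * W) ^ 2 + l ^ 2 * W)) := by
  set x : ℝ := e ^ 2 * W with hx
  have h0 := hasSum_rexp x
  -- `∑ j x^j / j! = x e^x`
  have h1 : HasSum (fun j : ℕ => (j : ℝ) * (x ^ j / (j.factorial : ℝ))) (x * Real.exp x) := by
    rw [← hasSum_nat_add_iff' 1]
    simp only [Finset.sum_range_one, Nat.cast_zero, zero_mul, sub_zero]
    refine (h0.mul_left x).congr_fun fun j => ?_
    have h2 : ((j.factorial : ℕ) : ℝ) ≠ 0 := by positivity
    rw [Nat.factorial_succ]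
    push_cast
    field_simp
    ring
  have h3 : HasSum (fun j : ℕ => (x ^ (j + 1) / ((j + 1).factorial : ℝ))) (Real.exp x - 1) := by
    have := (hasSum_nat_add_iff' 1).mpr h0
    simpa using this
  rw [← hasSum_nat_add_iff' 1]
  have h4 := ((h3.mul_left (τ ^ 2)).sub (h0.mul_left (2 * τ * l * e * W))).add
    ((h0.add h1).mul_left (l ^ 2 * W))
  convert h4 using 1
  · funext j
    have h2 : ((j.factorial : ℕ) : ℝ) ≠ 0 := by positivity
    simp only [yD]
    rw [if_neg (by omega), Nat.add_sub_cancel, Nat.factorial_succ]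
    push_cast
    have hxj : x ^ j = (e ^ j) ^ 2 * W ^ j := by rw [hx, mul_pow, ← pow_mul, ← pow_mul, mul_comm 2]
    rw [pow_succ x, hxj, hx, pow_succ e, pow_succ W]
    field_simp
    ring
  · simp only [Finset.sum_range_one, yD, if_true, pow_zero, Nat.factorial_zero, Nat.cast_one]
    rw [hx]
    ring

end CrD

open CrD K8.CrF in
theorem stCrudeD : StCrudeD := by
  intro a l V n ha hn hV hd
  obtain ⟨m, rfl⟩ : ∃ m, n = m + 1 := ⟨n - 1, by omega⟩
  have em : (((m + 1 : ℕ) : ℝ) - 1) = m := by push_cast; ring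
  rw [em] at hd ⊢
  simp only [K8.CrF.dcf_eq]
  set d : ℝ := m * a ^ 2 with hdd
  set q : ℝ := 1 / (1 - d * V) with hq
  have hb : 0 < 1 - d * V := by linarith
  have hq0 : 0 < q := by positivity
  set τ : ℝ := ((m + 1 : ℕ) : ℝ) - l / a with hτ
  set e : ℝ := m * a - l with he
  have haτ : a * τ = ((m : ℝ) + 1) * a - l := by
    rw [hτ]
    push_cast
    field_simp
  have hX : ∀ z : ℂ, HasSum (fun j => ((((j + 1 : ℕ) : ℝ) * cf a l (m + 1) (j + 1) : ℝ) : ℂ) * z ^ j)
      ((((((m : ℝ) + 1) * a - l : ℝ) : ℂ) - ((a * l : ℝ) : ℂ) * z) *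
        ((1 + a * z) ^ m * Complex.exp (-(l * z)))) := by
    intro z
    have h := hasSum_lin (hasSum_cf a l m z) (((m : ℝ) + 1) * a - l) (a * l)
    refine h.congr_fun fun j => ?_
    rw [cf_der]
  have hY : ∀ z : ℂ, HasSum (fun j => (yD τ l e j : ℂ) * z ^ j)
      (((τ : ℂ) - (l : ℂ) * z) * Complex.exp ((e : ℂ) * z)) := by
    intro z
    have h0 : HasSum (fun j : ℕ => ((e ^ j / (j.factorial : ℝ) : ℝ) : ℂ) * z ^ j)
        (Complex.exp ((e : ℂ) * z)) := by
      convert hasSum_cexp ((e : ℂ) * z) using 2 with j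
      rw [mul_pow]
      push_cast
      ring
    exact hasSum_lin h0 τ l
  have hbd : ∀ z : ℂ, ‖(((((m : ℝ) + 1) * a - l : ℝ) : ℂ) - ((a * l : ℝ) : ℂ) * z) *
        ((1 + a * z) ^ m * Complex.exp (-(l * z)))‖ ^ 2 ≤
      a ^ 2 * (Real.exp (d * ‖z‖ ^ 2) *
        ‖((τ : ℂ) - (l : ℂ) * z) * Complex.exp ((e : ℂ) * z)‖ ^ 2) := by
    intro z
    have h1 := norm_bd a l m z
    have h2 : (((((m : ℝ) + 1) * a - l : ℝ) : ℂ) - ((a * l : ℝ) : ℂ) * z) =
        (a : ℂ) * ((τ : ℂ) - (l : ℂ) * z) := by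
      rw [← haτ]
      push_cast
      ring
    rw [h2, norm_mul, norm_mul (a : ℂ), norm_mul ((τ : ℂ) - (l : ℂ) * z), mul_pow, mul_pow,
      mul_pow, Complex.norm_real, Real.norm_eq_abs, sq_abs]
    calc _ ≤ a ^ 2 * ‖(τ : ℂ) - (l : ℂ) * z‖ ^ 2 * (Real.exp (m * a ^ 2 * ‖z‖ ^ 2) *
          ‖Complex.exp (((m * a - l : ℝ) : ℂ) * z)‖ ^ 2) :=
          mul_le_mul_of_nonneg_left h1 (by positivity)
      _ = _ := by rw [← hdd, ← he]; ring
  have hR : HasSum (fun j => yD τ l e j ^ 2 * V ^ j * ((j.factorial : ℝ) / (1 - d * V) ^ (j + 1)))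
      (q * (Real.exp (e ^ 2 * (q * V)) * ((τ - l * e * (q * V)) ^ 2 + l ^ 2 * (q * V)))) := by
    refine ((yD_sum τ l e (q * V)).mul_left q).congr_fun fun j => ?_
    rw [mul_pow, hq, div_pow, one_pow, pow_succ (1 - d * V)]
    field_simp
  obtain ⟨h1, h2⟩ := majo _ _ _ _ (by fun_prop) (by fun_prop) hX hY (a ^ 2) d V _ (by positivity)
    hV hd hbd hR
  have e1 : ∀ j : ℕ, ((j + 1 : ℕ) : ℝ) ^ 2 * cf a l (m + 1) (j + 1) ^ 2 * (j.factorial : ℝ) *
      V ^ j = (((j + 1 : ℕ) : ℝ) * cf a l (m + 1) (j + 1)) ^ 2 * (j.factorial : ℝ) * V ^ j :=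
    fun j => by rw [mul_pow]
  refine ⟨?_, ?_, ?_⟩
  · rw [← summable_nat_add_iff 1]
    refine Summable.of_nonneg_of_le (fun j => by positivity) (fun j => ?_) (h1.mul_left V)
    rw [Nat.factorial_succ]
    push_cast
    have h3 : (0 : ℝ) ≤ cf a l (m + 1) (j + 1) ^ 2 * (j.factorial : ℝ) * V ^ (j + 1) := by
      positivity
    have h4 : ((j : ℝ) + 1) ≤ ((j : ℝ) + 1) ^ 2 := by
      have : (0 : ℝ) ≤ j := Nat.cast_nonneg j
      nlinarith
    calc cf a l (m + 1) (j + 1) ^ 2 * (((j : ℝ) + 1) * (j.factorial : ℝ)) * V ^ (j + 1)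
        = ((j : ℝ) + 1) * (cf a l (m + 1) (j + 1) ^ 2 * (j.factorial : ℝ) * V ^ (j + 1)) := by ring
      _ ≤ ((j : ℝ) + 1) ^ 2 *
          (cf a l (m + 1) (j + 1) ^ 2 * (j.factorial : ℝ) * V ^ (j + 1)) :=
          mul_le_mul_of_nonneg_right h4 h3
      _ = _ := by ring
  · simp only [e1]
    exact h1
  · simp only [e1]
    refine h2.trans (le_of_eq ?_)
    have e2 : e ^ 2 * (q * V) = (l - (m : ℝ) * a) ^ 2 * V / (1 - d * V) := by
      rw [hq, he]
      field_simp
      ring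
    have e3 : τ - l * e * (q * V) = τ + l * (l - (m : ℝ) * a) * V / (1 - d * V) := by
      rw [hq, he]
      field_simp
      ring
    have e4 : l ^ 2 * (q * V) = l ^ 2 * V / (1 - d * V) := by
      rw [hq]
      field_simp
    rw [e2, e3, e4]
    ring

end K9
end Pool.Agent.Lib.MP_973905_nt
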