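import Pool.Agent.Lib.MP_973905_nt.K9.Base
import Pool.Agent.Lib.MP_973905_nt.K8.Adm8

/-! Module N9 (K9): our data are admissible. -/

namespace Pool.Agent.Lib.MP_973905_nt
namespace K9

open MeasureTheory ProbabilityTheory Complex Filter Topology K1 K4 K5

namespace Adm9Aux

/-- The numerical facts on our choice. -/
structure Facts (k : ℝ) : Prop where
  th0 : 0 < th k
  th1 : th k ≤ 1 / 4
  xo0 : 0 < xo k
  D0 : 1 ≤ cD k
  D1 : 1 ≤ cD' k
  E0 : 1 ≤ cE k
  E1 : 1 ≤ cE' k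
  b1 : th k * (1582 / 1000 * cD k + 921 / 1000 * cD' k) ≤ 44 / 100
  b2 : th k * (1582 / 1000 * (cD k + 1 + cE k / k) + 921 / 1000 * (cD' k + cE' k / k)) ≤ 93 / 100
  b3 : th k * (1582 / 1000 * cE k + 921 / 1000 * cE' k) ≤ 88 / 100
  v1 : 5 * (1 - k) ^ 2 * vo k ≤ cD k
  v2 : 5 * k * vo k ≤ cE k
  v3 : 5 * (1 - k) ^ 2 ≤ cD k + cD' k
  v4 : 5 * k ≤ cE k + cE' k
  v5 : 4 * k ≤ cE k

theorem exp1_gt : (2.7182818283 : ℝ) < Real.exp 1 := Real.exp_one_gt_d9

theorem inv_e_ge : (367 / 1000 : ℝ) ≤ Real.exp (-1) := by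
  have h1 : Real.exp 1 < 2.7182818286 := Real.exp_one_lt_d9
  have h2 : Real.exp (-1 : ℝ) * Real.exp 1 = 1 := by
    rw [← Real.exp_add]
    norm_num
  have h3 : 0 < Real.exp (-1 : ℝ) := Real.exp_pos _
  by_contra h
  push Not at h
  nlinarith

/-- `e^{-x} (1 + x) ≤ 1` -/
theorem exp_mul_le (x : ℝ) : Real.exp (-x) * (1 + x) ≤ 1 := by
  have h1 := Real.add_one_le_exp x
  have h2 : Real.exp (-x) * Real.exp x = 1 := by
    rw [← Real.exp_add]
    simp
  have h3 := mul_le_mul_of_nonneg_left h1 (Real.exp_pos (-x)).le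
  linarith

theorem vo_le_of {k c : ℝ} (hc : 0 ≤ c) (h : c ≤ xo k) : vo k * (1 + c * (367 / 1000)) ≤ 1 := by
  unfold vo
  have h1 : c * (367 / 1000) ≤ xo k * Real.exp (-1) :=
    mul_le_mul h inv_e_ge (by norm_num) (hc.trans h)
  have h2 := exp_mul_le (xo k * Real.exp (-1))
  have h3 : Real.exp (-(xo k * Real.exp (-1))) * (1 + c * (367 / 1000)) ≤
      Real.exp (-(xo k * Real.exp (-1))) * (1 + xo k * Real.exp (-1)) :=
    mul_le_mul_of_nonneg_left (by linarith) (Real.exp_pos _).le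
  linarith

theorem vo_pos (k : ℝ) : 0 < vo k := Real.exp_pos _

theorem factsA {k : ℝ} (h0 : 0 < k) (h1 : k ≤ 1 / 4) : Facts k := by
  obtain ⟨n, hn⟩ : ∃ n : ℕ, n = ⌈1 / k⌉₊ := ⟨_, rfl⟩
  have hc : cD k = n := by rw [cD, if_pos h1, hn]
  have hc' : cD' k = n := by rw [cD', if_pos h1, hn]
  have he : cE k = 1 := by rw [cE, if_pos h1]
  have he' : cE' k = 1 := by rw [cE', if_pos h1]
  have hx : xo k = 1 / k - 1 := by rw [xo, if_pos h1]
  have hn1 : 1 / k ≤ n := by rw [hn]; exact Nat.le_ceil _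
  have hk4 : (4 : ℝ) ≤ 1 / k := by
    rw [le_div_iff₀ h0]
    linarith
  have hn4 : (4 : ℝ) ≤ n := hk4.trans hn1
  have hn0 : (0 : ℝ) < n := by linarith
  have ht : th k = 1 / (6 * n) := by rw [th, if_pos h1, hc]
  have hnn : 1 ≤ n := by
    have : (1 : ℝ) ≤ n := by linarith
    exact_mod_cast this
  have hv := vo_le_of (k := k) (c := 3) (by norm_num) (by rw [hx]; linarith)
  have hvp := vo_pos k
  have hv8 : vo k ≤ 8 / 10 := by nlinarith
  refine ⟨?_, ?_, ?_, ?_, ?_, ?_, ?_, ?_, ?_, ?_, ?_, ?_, ?_, ?_, ?_⟩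
  · rw [ht]; positivity
  · rw [ht, div_le_div_iff₀ (by positivity) (by norm_num)]
    linarith
  · rw [hx]; linarith
  · rw [hc]; exact hnn
  · rw [hc']; exact hnn
  · rw [he]
  · rw [he']
  · rw [ht, hc, hc']
    have : 1 / (6 * (n : ℝ)) * (1582 / 1000 * n + 921 / 1000 * n) = 2503 / 6000 := by
      field_simp
      ring
    rw [this]
    norm_num
  · rw [ht, hc, hc', he, he', Nat.cast_one, div_mul_eq_mul_div, one_mul,
      div_le_iff₀ (by positivity)]
    linarith
  · rw [ht, he, he', Nat.cast_one, div_mul_eq_mul_div, one_mul, div_le_iff₀ (by positivity)]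
    linarith
  · rw [hc]
    have : (1 - k) ^ 2 ≤ 1 := by nlinarith
    nlinarith
  · rw [he, Nat.cast_one]
    nlinarith
  · rw [hc, hc']
    have : (1 - k) ^ 2 ≤ 1 := by nlinarith
    linarith
  · rw [he, he', Nat.cast_one]
    linarith
  · rw [he, Nat.cast_one]
    linarith

theorem factsB {k : ℝ} (h0 : 1 / 4 < k) (h1 : k ≤ 1 / 2) : Facts k := by
  have hg : ¬ k ≤ 1 / 4 := not_le.2 h0
  have hc : cD k = 3 := by rw [cD, if_neg hg, if_pos h1]
  have hc' : cD' k = 3 := by rw [cD', if_neg hg, if_pos h1]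
  have he : cE k = 2 := by rw [cE, if_neg hg, if_pos h1]
  have he' : cE' k = 2 := by rw [cE', if_neg hg, if_pos h1]
  have hx : xo k = 9 / 5 := by rw [xo, if_neg hg, if_pos h1]
  have hk : 0 < k := by linarith
  have ht : th k = 93 / 100 * k / (9091 / 1000 * k + 5006 / 1000) := by
    rw [th, if_neg hg, hc, hc', he, he']
    congr 1
    push_cast
    ring
  have hd : 0 < 9091 / 1000 * k + 5006 / 1000 := by positivity
  have hv := vo_le_of (k := k) (c := 9 / 5) (by norm_num) (by rw [hx])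
  have hvp := vo_pos k
  have hv8 : vo k ≤ 8 / 10 := by nlinarith
  refine ⟨?_, ?_, ?_, ?_, ?_, ?_, ?_, ?_, ?_, ?_, ?_, ?_, ?_, ?_, ?_⟩
  · rw [ht]; positivity
  · rw [ht, div_le_div_iff₀ (by positivity) (by norm_num)]
    linarith
  · rw [hx]; norm_num
  · rw [hc]; norm_num
  · rw [hc']; norm_num
  · rw [he]; norm_num
  · rw [he']; norm_num
  · rw [ht, hc, hc', div_mul_eq_mul_div, div_le_iff₀ hd]
    push_cast
    linarith
  · rw [ht, hc, hc', he, he', div_mul_eq_mul_div, div_le_iff₀ hd]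
    push_cast
    have : 93 / 100 * k * (1582 / 1000 * (3 + 1 + 2 / k) + 921 / 1000 * (3 + 2 / k)) =
        93 / 100 * (9091 / 1000 * k + 5006 / 1000) := by
      field_simp
      ring
    rw [this]
  · rw [ht, he, he', div_mul_eq_mul_div, div_le_iff₀ hd]
    push_cast
    linarith
  · rw [hc]
    push_cast
    have : (1 - k) ^ 2 ≤ 9 / 16 := by nlinarith
    nlinarith
  · rw [he]
    push_cast
    nlinarith
  · rw [hc, hc']
    push_cast
    nlinarith
  · rw [he, he']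
    push_cast
    linarith
  · rw [he]
    push_cast
    linarith

theorem factsC {k : ℝ} (h0 : 1 / 2 < k) (h1 : k ≤ 3 / 4) : Facts k := by
  have hg : ¬ k ≤ 1 / 4 := by intro h; linarith
  have hg2 : ¬ k ≤ 1 / 2 := not_le.2 h0
  have hc : cD k = 1 := by rw [cD, if_neg hg, if_neg hg2]
  have hc' : cD' k = 2 := by rw [cD', if_neg hg, if_neg hg2, if_pos h1]
  have he : cE k = 3 := by rw [cE, if_neg hg, if_neg hg2, if_pos h1]
  have he' : cE' k = 3 := by rw [cE', if_neg hg, if_neg hg2]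
  have hx : xo k = 4 / 5 := by rw [xo, if_neg hg, if_neg hg2, if_pos h1]
  have hk : 0 < k := by linarith
  have ht : th k = 93 / 100 * k / (5006 / 1000 * k + 7509 / 1000) := by
    rw [th, if_neg hg, hc, hc', he, he']
    congr 1
    push_cast
    ring
  have hd : 0 < 5006 / 1000 * k + 7509 / 1000 := by positivity
  have hv := vo_le_of (k := k) (c := 4 / 5) (by norm_num) (by rw [hx])
  have hvp := vo_pos k
  have hv8 : vo k ≤ 78 / 100 := by nlinarith
  refine ⟨?_, ?_, ?_, ?_, ?_, ?_, ?_, ?_, ?_, ?_, ?_, ?_, ?_, ?_, ?_⟩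
  · rw [ht]; positivity
  · rw [ht, div_le_div_iff₀ (by positivity) (by norm_num)]
    linarith
  · rw [hx]; norm_num
  · rw [hc]
  · rw [hc']; norm_num
  · rw [he]; norm_num
  · rw [he']; norm_num
  · rw [ht, hc, hc', div_mul_eq_mul_div, div_le_iff₀ hd]
    push_cast
    linarith
  · rw [ht, hc, hc', he, he', div_mul_eq_mul_div, div_le_iff₀ hd]
    push_cast
    have : 93 / 100 * k * (1582 / 1000 * (1 + 1 + 3 / k) + 921 / 1000 * (2 + 3 / k)) =
        93 / 100 * (5006 / 1000 * k + 7509 / 1000) := by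
      field_simp
      ring
    rw [this]
  · rw [ht, he, he', div_mul_eq_mul_div, div_le_iff₀ hd]
    push_cast
    linarith
  · rw [hc]
    push_cast
    have h2 : (1 - k) ^ 2 ≤ 1 / 4 := by nlinarith
    have h3 : (1 - k) ^ 2 * vo k ≤ 1 / 4 * (78 / 100) :=
      mul_le_mul h2 hv8 hvp.le (by norm_num)
    linarith
  · rw [he]
    push_cast
    have h3 : k * vo k ≤ 3 / 4 * (78 / 100) := mul_le_mul h1 hv8 hvp.le (by norm_num)
    linarith
  · rw [hc, hc']
    push_cast
    have h2 : (1 - k) ^ 2 ≤ 1 / 4 := by nlinarith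
    linarith
  · rw [he, he']
    push_cast
    linarith
  · rw [he]
    push_cast
    linarith

theorem factsD {k : ℝ} (h0 : 3 / 4 < k) (h1 : k < 1) : Facts k := by
  have hg : ¬ k ≤ 1 / 4 := by intro h; linarith
  have hg2 : ¬ k ≤ 1 / 2 := by intro h; linarith
  have hg3 : ¬ k ≤ 3 / 4 := not_le.2 h0
  have hc : cD k = 1 := by rw [cD, if_neg hg, if_neg hg2]
  have hc' : cD' k = 1 := by rw [cD', if_neg hg, if_neg hg2, if_neg hg3]
  have he : cE k = 5 := by rw [cE, if_neg hg, if_neg hg2, if_neg hg3]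
  have he' : cE' k = 3 := by rw [cE', if_neg hg, if_neg hg2]
  have hx : xo k = 3 / 10 := by rw [xo, if_neg hg, if_neg hg2, if_neg hg3]
  have hk : 0 < k := by linarith
  have ht : th k = 93 / 100 * k / (4085 / 1000 * k + 10673 / 1000) := by
    rw [th, if_neg hg, hc, hc', he, he']
    congr 1
    push_cast
    ring
  have hd : 0 < 4085 / 1000 * k + 10673 / 1000 := by positivity
  have hv := vo_le_of (k := k) (c := 0) le_rfl (by rw [hx]; norm_num)
  have hvp := vo_pos k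
  have hv8 : vo k ≤ 1 := by linarith
  refine ⟨?_, ?_, ?_, ?_, ?_, ?_, ?_, ?_, ?_, ?_, ?_, ?_, ?_, ?_, ?_⟩
  · rw [ht]; positivity
  · rw [ht, div_le_div_iff₀ (by positivity) (by norm_num)]
    linarith
  · rw [hx]; norm_num
  · rw [hc]
  · rw [hc']
  · rw [he]; norm_num
  · rw [he']; norm_num
  · rw [ht, hc, hc', div_mul_eq_mul_div, div_le_iff₀ hd]
    push_cast
    linarith
  · rw [ht, hc, hc', he, he', div_mul_eq_mul_div, div_le_iff₀ hd]
    push_cast
    have : 93 / 100 * k * (1582 / 1000 * (1 + 1 + 5 / k) + 921 / 1000 * (1 + 3 / k)) =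
        93 / 100 * (4085 / 1000 * k + 10673 / 1000) := by
      field_simp
      ring
    rw [this]
  · rw [ht, he, he', div_mul_eq_mul_div, div_le_iff₀ hd]
    push_cast
    linarith
  · rw [hc]
    push_cast
    have h2 : (1 - k) ^ 2 ≤ 1 / 16 := by nlinarith
    have h3 : (1 - k) ^ 2 * vo k ≤ 1 / 16 * 1 :=
      mul_le_mul h2 hv8 hvp.le (by norm_num)
    linarith
  · rw [he]
    push_cast
    have h3 : k * vo k ≤ 1 * 1 := mul_le_mul h1.le hv8 hvp.le (by norm_num)
    linarith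
  · rw [hc, hc']
    push_cast
    have h2 : (1 - k) ^ 2 ≤ 1 / 16 := by nlinarith
    linarith
  · rw [he, he']
    push_cast
    linarith
  · rw [he]
    push_cast
    linarith

theorem facts {k : ℝ} (h0 : 0 < k) (h1 : k < 1) : Facts k := by
  rcases le_or_gt k (1 / 4) with h | h
  · exact factsA h0 h
  rcases le_or_gt k (1 / 2) with h2 | h2
  · exact factsB h h2
  rcases le_or_gt k (3 / 4) with h3 | h3
  · exact factsC h2 h3
  · exact factsD h3 h1

theorem tk_nonneg {k : ℝ} (h0 : 0 < k) (E : ℕ) : 0 ≤ tk k E := by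
  have h : (⌊(E : ℝ) / k⌋₊ : ℝ) ≤ (E : ℝ) / k := Nat.floor_le (by positivity)
  unfold tk mk
  linarith

theorem tk_le {k : ℝ} (E : ℕ) : tk k E ≤ 1 := by
  have h := Nat.lt_floor_add_one ((E : ℝ) / k)
  unfold tk mk
  linarith

theorem maj {k : ℝ} (h0 : 0 < k) (D E : ℕ) (V : ℝ) (z : ℂ) :
    ‖Polynomial.aeval z (pA k D V ^ D)‖ ^ 2 * (‖Polynomial.aeval z (pB k E V ^ E)‖ ^ 2) ^ (1 / k) ≤
      ‖Polynomial.aeval z (w0 k D E V)‖ ^ 2 + ‖Polynomial.aeval z (w1 k D E V)‖ ^ 2 := by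
  have ht0 := tk_nonneg h0 E
  have ht1 := tk_le (k := k) E
  obtain ⟨t, ht⟩ : ∃ t, t = tk k E := ⟨_, rfl⟩
  obtain ⟨m, hm⟩ : ∃ m, m = mk k E := ⟨_, rfl⟩
  have hmt : (E : ℝ) * (1 / k) = (m : ℝ) + t := by
    rw [ht, hm, tk]
    ring
  rw [← ht] at ht0 ht1
  have e0 : ‖Polynomial.aeval z (w0 k D E V)‖ ^ 2 = (1 - t) *
      ((‖Polynomial.aeval z (pA k D V)‖ ^ D) ^ 2 * (‖Polynomial.aeval z (pB k E V)‖ ^ 2) ^ m) := by
    rw [w0, ← ht, ← hm, map_mul, map_mul, map_pow, map_pow, Polynomial.aeval_C, norm_mul,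
      norm_mul, norm_pow, norm_pow]
    have h2 : ‖(algebraMap ℝ ℂ) √(1 - t)‖ ^ 2 = 1 - t := by
      have h3 : ‖(algebraMap ℝ ℂ) √(1 - t)‖ = √(1 - t) := by
        rw [Complex.coe_algebraMap, Complex.norm_real, Real.norm_of_nonneg (Real.sqrt_nonneg _)]
      rw [h3, Real.sq_sqrt (by linarith)]
    rw [mul_pow, h2]
    ring
  have e1 : ‖Polynomial.aeval z (w1 k D E V)‖ ^ 2 = t *
      ((‖Polynomial.aeval z (pA k D V)‖ ^ D) ^ 2 *
        (‖Polynomial.aeval z (pB k E V)‖ ^ 2) ^ (m + 1)) := by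
    rw [w1, ← ht, ← hm, map_mul, map_mul, map_pow, map_pow, Polynomial.aeval_C, norm_mul,
      norm_mul, norm_pow, norm_pow]
    have h2 : ‖(algebraMap ℝ ℂ) √t‖ ^ 2 = t := by
      have h3 : ‖(algebraMap ℝ ℂ) √t‖ = √t := by
        rw [Complex.coe_algebraMap, Complex.norm_real, Real.norm_of_nonneg (Real.sqrt_nonneg _)]
      rw [h3, Real.sq_sqrt ht0]
    rw [mul_pow, h2]
    ring
  rw [e0, e1, map_pow, map_pow, norm_pow, norm_pow]
  obtain ⟨a, ha⟩ : ∃ a, a = (‖Polynomial.aeval z (pA k D V)‖ ^ D) ^ 2 := ⟨_, rfl⟩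
  obtain ⟨b, hb⟩ : ∃ b, b = ‖Polynomial.aeval z (pB k E V)‖ ^ 2 := ⟨_, rfl⟩
  have ha0 : 0 ≤ a := by rw [ha]; positivity
  have hb0 : 0 ≤ b := by rw [hb]; positivity
  have e2 : ((‖Polynomial.aeval z (pB k E V)‖ ^ E) ^ 2) ^ (1 / k) = b ^ m * b ^ t := by
    have h2 : (‖Polynomial.aeval z (pB k E V)‖ ^ E) ^ 2 = b ^ (E : ℝ) := by
      rw [hb, Real.rpow_natCast, ← pow_mul, ← pow_mul, mul_comm E 2]
    rw [h2, ← Real.rpow_mul hb0, hmt, Real.rpow_add_of_nonneg hb0 (Nat.cast_nonneg _) ht0,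
      Real.rpow_natCast]
  rw [e2, ← ha, ← hb]
  have h3 := Real.geom_mean_le_arith_mean2_weighted (sub_nonneg.2 ht1) ht0
    (zero_le_one' ℝ) hb0 (by ring)
  rw [Real.one_rpow, one_mul, mul_one] at h3
  have h4 : a * (b ^ m * b ^ t) ≤ a * (b ^ m * (1 - t + t * b)) :=
    mul_le_mul_of_nonneg_left (mul_le_mul_of_nonneg_left h3 (pow_nonneg hb0 m)) ha0
  refine h4.trans (le_of_eq ?_)
  ring

theorem deg_pA (k : ℝ) (D : ℕ) (V : ℝ) : (pA k D V).natDegree ≤ 1 := by
  unfold pA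
  compute_degree

theorem deg_pB (k : ℝ) (E : ℕ) (V : ℝ) : (pB k E V).natDegree ≤ 1 := by
  unfold pB
  compute_degree

theorem deg_pA_pow (k : ℝ) (D : ℕ) (V : ℝ) (n : ℕ) : (pA k D V ^ n).natDegree ≤ n := by
  have h := Polynomial.natDegree_pow_le_of_le n (deg_pA k D V)
  rwa [mul_one] at h

theorem deg_pB_pow (k : ℝ) (E : ℕ) (V : ℝ) (n : ℕ) : (pB k E V ^ n).natDegree ≤ n := by
  have h := Polynomial.natDegree_pow_le_of_le n (deg_pB k E V)
  rwa [mul_one] at h

theorem deg_w0 (k : ℝ) (D E : ℕ) (V : ℝ) : (w0 k D E V).natDegree ≤ D + mk k E := by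
  unfold w0
  refine (Polynomial.natDegree_C_mul_le _ _).trans (Polynomial.natDegree_mul_le.trans ?_)
  exact add_le_add (deg_pA_pow k D V D) (deg_pB_pow k E V _)

theorem deg_w1 (k : ℝ) (D E : ℕ) (V : ℝ) : (w1 k D E V).natDegree ≤ D + (mk k E + 1) := by
  unfold w1
  refine (Polynomial.natDegree_C_mul_le _ _).trans (Polynomial.natDegree_mul_le.trans ?_)
  exact add_le_add (deg_pA_pow k D V D) (deg_pB_pow k E V _)

theorem mk_le {k : ℝ} (h0 : 0 < k) (E : ℕ) : (mk k E : ℝ) ≤ E / k :=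
  Nat.floor_le (by positivity)

end Adm9Aux

open Adm9Aux in
/-- Our data are admissible. -/
theorem stAdm9 (h : StLoss9) : StAdm9 := by
  intro k h0 h1
  have hf := facts h0 h1
  have hth := hf.th0
  obtain ⟨M₀, hM₀⟩ := exists_nat_ge (14 - Real.log (th k))
  refine ⟨M₀, fun M hM => ?_⟩
  have hMr : (M₀ : ℝ) ≤ M := by exact_mod_cast hM
  have hx : 14 ≤ (M : ℝ) + Real.log (th k) := by linarith
  obtain ⟨N, hNdef⟩ : ∃ N, N = Nt k M := ⟨_, rfl⟩
  have hN1 : (N : ℝ) ≤ (M : ℝ) + Real.log (th k) := by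
    rw [hNdef]; exact Nat.floor_le (by linarith)
  have hN2 : (M : ℝ) + Real.log (th k) < N + 1 := by
    rw [hNdef]; exact Nat.lt_floor_add_one _
  have hN3 : (13 : ℝ) < N := by linarith
  have hN4 : 13 < N := by exact_mod_cast hN3
  -- the ends
  have hte : ∀ i, i < N → te9 k M i = th k * Real.exp (-(i : ℝ)) := by
    intro i hi
    rw [te9, if_pos (by rw [← hNdef]; exact hi)]
  have hteN : te9 k M N = Real.exp (-(M : ℝ)) := by
    rw [te9, if_neg (by rw [← hNdef]; exact lt_irrefl _)]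
  have hte0 : te9 k M 0 = th k := by
    rw [hte 0 (by omega), Nat.cast_zero, neg_zero, Real.exp_zero, mul_one]
  have htpos : ∀ i, 0 < te9 k M i := by
    intro i
    unfold te9
    split_ifs
    · positivity
    · positivity
  have hL1 : ∀ i, i + 1 < N → Real.log (te9 k M i / te9 k M (i + 1)) = 1 := by
    intro i hi
    rw [hte i (by omega), hte (i + 1) hi, mul_div_mul_left _ _ hth.ne', ← Real.exp_sub,
      Real.log_exp]
    push_cast
    ring
  have hL2 : Real.log (te9 k M (N - 1) / te9 k M (N - 1 + 1)) =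
      Real.log (th k) + M - N + 1 := by
    have h2 : N - 1 + 1 = N := by omega
    rw [h2, hte (N - 1) (by omega), hteN, Real.log_div (by positivity) (by positivity),
      Real.log_mul hth.ne' (by positivity), Real.log_exp, Real.log_exp,
      Nat.cast_sub (by omega), Nat.cast_one]
    ring
  have hLb : ∀ i, i < N → 1 ≤ Real.log (te9 k M i / te9 k M (i + 1)) ∧
      Real.log (te9 k M i / te9 k M (i + 1)) ≤ 2 := by
    intro i hi
    rcases Nat.lt_or_ge (i + 1) N with h' | h'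
    · rw [hL1 i h']
      exact ⟨le_rfl, by norm_num⟩
    · have hi' : i = N - 1 := by omega
      subst hi'
      rw [hL2]
      exact ⟨by linarith, by linarith⟩
  have hdec : ∀ i, i < N → te9 k M (i + 1) < te9 k M i := by
    intro i hi
    have h2 := (hLb i hi).1
    have h3 : 0 < te9 k M i / te9 k M (i + 1) := div_pos (htpos _) (htpos _)
    have h4 : Real.exp 1 ≤ te9 k M i / te9 k M (i + 1) := by
      rw [← Real.exp_log h3]
      exact Real.exp_le_exp.2 h2
    have h5 : 1 < te9 k M i / te9 k M (i + 1) := by linarith [exp1_gt]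
    rwa [lt_div_iff₀ (htpos _), one_mul] at h5
  -- the variances
  have hpsi : 0 < xo k / (2 * th k) := div_pos hf.xo0 (by positivity)
  have hVpos : ∀ i, i < N → 0 < V9 k M i := fun i hi =>
    Blk9.VI_pos (htpos (i + 1)) (hdec i hi)
  have hVle : ∀ i, i < N → V9 k M i ≤
      Real.exp (-(2 * (xo k / (2 * th k)) * te9 k M (i + 1))) *
        Real.log (te9 k M i / te9 k M (i + 1)) := fun i hi =>
    Blk9.VI_le hpsi.le (htpos (i + 1)) (hdec i hi).le
  have hE1 : ∀ i, Real.exp (-(2 * (xo k / (2 * th k)) * te9 k M (i + 1))) ≤ 1 := by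
    intro i
    rw [Real.exp_le_one_iff]
    have := htpos (i + 1)
    have h2 : 0 < 2 * (xo k / (2 * th k)) * te9 k M (i + 1) := by positivity
    linarith
  have hVL : ∀ i, i < N → V9 k M i ≤ Real.log (te9 k M i / te9 k M (i + 1)) := by
    intro i hi
    have h2 := hLb i hi
    have h3 : Real.exp (-(2 * (xo k / (2 * th k)) * te9 k M (i + 1))) *
        Real.log (te9 k M i / te9 k M (i + 1)) ≤ 1 * Real.log (te9 k M i / te9 k M (i + 1)) :=
      mul_le_mul_of_nonneg_right (hE1 i) (by linarith)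
    linarith [hVle i hi]
  have hV2 : ∀ i, i < N → V9 k M i ≤ 2 := fun i hi => (hVL i hi).trans (hLb i hi).2
  have hV1 : ∀ i, i + 1 < N → V9 k M i ≤ 1 := by
    intro i hi
    have h2 := hVL i (by omega)
    rwa [hL1 i hi] at h2
  have hV0 : V9 k M 0 ≤ vo k := by
    have h2 := hVle 0 (by omega)
    rw [hL1 0 (by omega), mul_one, zero_add, hte 1 (by omega)] at h2
    have h3 : 2 * (xo k / (2 * th k)) * (th k * Real.exp (-((1 : ℕ) : ℝ))) =
        xo k * Real.exp (-1) := by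
      rw [Nat.cast_one]
      field_simp
    rw [h3] at h2
    exact h2
  -- the degrees
  have hDi : ∀ i, ((Di k i : ℕ) : ℝ) = cD k + cD' k * i := by
    intro i
    unfold Di
    push_cast
    ring
  have hEi : ∀ i, ((Ei k i : ℕ) : ℝ) = cE k + cE' k * i := by
    intro i
    unfold Ei
    push_cast
    ring
  have cD0 : (1 : ℝ) ≤ cD k := by exact_mod_cast hf.D0
  have cD1 : (1 : ℝ) ≤ cD' k := by exact_mod_cast hf.D1
  have cE0 : (1 : ℝ) ≤ cE k := by exact_mod_cast hf.E0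
  have cE1 : (1 : ℝ) ≤ cE' k := by exact_mod_cast hf.E1
  have hcond : ∀ i, i < N → 5 * (1 - k) ^ 2 * V9 k M i ≤ Di k i ∧
      5 * k * V9 k M i ≤ Ei k i ∧ 4 * k ≤ Ei k i ∧ (1 : ℝ) ≤ Di k i ∧ (1 : ℝ) ≤ Ei k i := by
    intro i hi
    have hi0 : (0 : ℝ) ≤ i := Nat.cast_nonneg i
    have hkk : 0 ≤ 5 * (1 - k) ^ 2 := by positivity
    have h5k : 0 ≤ 5 * k := by positivity
    have hDp : 0 ≤ (cD' k : ℝ) * i := by positivity
    have hEp : 0 ≤ (cE' k : ℝ) * i := by positivity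
    rw [hDi, hEi]
    refine ⟨?_, ?_, by linarith [hf.v5], by linarith, by linarith⟩
    · rcases Nat.eq_zero_or_pos i with hi1 | hi1
      · subst hi1
        have h2 := mul_le_mul_of_nonneg_left hV0 hkk
        linarith [hf.v1]
      · rcases Nat.lt_or_ge (i + 1) N with h' | h'
        · have h2 := mul_le_mul_of_nonneg_left (hV1 i h') hkk
          have h3 : (1 : ℝ) ≤ i := by exact_mod_cast hi1
          have h4 : (cD' k : ℝ) * 1 ≤ cD' k * i := mul_le_mul_of_nonneg_left h3 (by linarith)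
          linarith [hf.v3]
        · have h2 := mul_le_mul_of_nonneg_left (hV2 i hi) hkk
          have h3 : (13 : ℝ) ≤ i := by
            have : 13 ≤ i := by omega
            exact_mod_cast this
          have h4 : (1 : ℝ) * i ≤ cD' k * i := mul_le_mul_of_nonneg_right cD1 hi0
          have h5 : (1 - k) ^ 2 ≤ 1 := by nlinarith
          linarith
    · rcases Nat.eq_zero_or_pos i with hi1 | hi1
      · subst hi1
        have h2 := mul_le_mul_of_nonneg_left hV0 h5k
        linarith [hf.v2]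
      · rcases Nat.lt_or_ge (i + 1) N with h' | h'
        · have h2 := mul_le_mul_of_nonneg_left (hV1 i h') h5k
          have h3 : (1 : ℝ) ≤ i := by exact_mod_cast hi1
          have h4 : (cE' k : ℝ) * 1 ≤ cE' k * i := mul_le_mul_of_nonneg_left h3 (by linarith)
          linarith [hf.v4]
        · have h2 := mul_le_mul_of_nonneg_left (hV2 i hi) h5k
          have h3 : (13 : ℝ) ≤ i := by
            have : 13 ≤ i := by omega
            exact_mod_cast this
          have h4 : (1 : ℝ) * i ≤ cE' k * i := mul_le_mul_of_nonneg_right cE1 hi0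
          linarith
  have hloss : ∀ i, i < N → 0 < bF k (Di k i) (Ei k i) (V9 k M i) ∧
      0 < bS k (Di k i) (V9 k M i) ∧ 0 < bW k (Di k i) (Ei k i) (V9 k M i) := by
    intro i hi
    obtain ⟨c1, c2, c3, c4, c5⟩ := hcond i hi
    have d1 : (0 : ℝ) < Di k i := by linarith
    have d2 : (0 : ℝ) < Ei k i := by linarith
    obtain ⟨q1, q2, q3, -⟩ := h k (V9 k M i) (Di k i) (Ei k i) h0 h1 (by exact_mod_cast c4)
      (by exact_mod_cast c5) (hVpos i hi)
      (by rw [div_le_iff₀ d1]; linarith) (by rw [div_le_iff₀ d2]; linarith)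
      (by rw [div_le_iff₀ d2]; linarith)
    exact ⟨q1, q2, q3⟩
  -- budgets
  have hS : ∀ a b : ℝ, 0 ≤ a → 0 ≤ b →
      ∑ i ∈ Finset.range N, (a + b * (i : ℝ)) * te9 k M i ≤
        th k * (1582 / 1000 * a + 921 / 1000 * b) := by
    intro a b ha hb
    have h2 : ∑ i ∈ Finset.range N, (a + b * (i : ℝ)) * te9 k M i =
        th k * (a * ∑ i ∈ Finset.range N, Real.exp (-(i : ℝ)) +
          b * ∑ i ∈ Finset.range N, (i : ℝ) * Real.exp (-(i : ℝ))) := by
      rw [Finset.mul_sum, Finset.mul_sum, ← Finset.sum_add_distrib, Finset.mul_sum]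
      refine Finset.sum_congr rfl fun i hi => ?_
      rw [hte i (Finset.mem_range.1 hi)]
      ring
    rw [h2]
    refine mul_le_mul_of_nonneg_left ?_ hth.le
    have h3 := mul_le_mul_of_nonneg_left (K8.Adm8Aux.sum0 N) ha
    have h4 := mul_le_mul_of_nonneg_left (K8.Adm8Aux.sum1 N) hb
    linarith
  refine ⟨⟨?_, ?_, ?_, ?_, ?_, ?_, ?_, ?_, ?_, ?_, ?_, ?_, ?_⟩, ?_, hte0, ?_, hV0, ?_⟩
  · change 1 ≤ Nt k M
    omega
  · exact fun i _ => htpos i
  · intro i hi
    exact hdec i (by rw [hNdef]; exact hi)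
  · change te9 k M (Nt k M) = _
    rw [← hNdef]
    exact hteN
  · change te9 k M 0 ≤ 1 / 4
    rw [hte0]
    exact hf.th1
  · exact hpsi
  · intro i _ z
    exact maj h0 (Di k i) (Ei k i) (V9 k M i) z
  · intro i hi
    exact (hloss i (by rw [hNdef]; exact hi)).1
  · intro i hi
    exact (hloss i (by rw [hNdef]; exact hi)).2.1
  · intro i hi
    exact (hloss i (by rw [hNdef]; exact hi)).2.2
  · refine le_trans ?_ ((hS (cD k) (cD' k) (by linarith) (by linarith)).trans hf.b1)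
    change ∑ i ∈ Finset.range (Nt k M), _ ≤ _
    rw [← hNdef]
    refine Finset.sum_le_sum fun i _ => mul_le_mul_of_nonneg_right ?_ (htpos i).le
    rw [← hDi]
    exact_mod_cast deg_pA_pow k (Di k i) (V9 k M i) (Di k i)
  · refine le_trans ?_ ((hS (cD k + 1 + cE k / k) (cD' k + cE' k / k) (by positivity)
      (by positivity)).trans hf.b2)
    change ∑ i ∈ Finset.range (Nt k M), _ ≤ _
    rw [← hNdef]
    refine Finset.sum_le_sum fun i _ => mul_le_mul_of_nonneg_right ?_ (htpos i).le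
    have g0 : ((w0 k (Di k i) (Ei k i) (V9 k M i)).natDegree : ℝ) ≤
        (Di k i : ℝ) + mk k (Ei k i) := by
      exact_mod_cast deg_w0 k (Di k i) (Ei k i) (V9 k M i)
    have g1 : ((w1 k (Di k i) (Ei k i) (V9 k M i)).natDegree : ℝ) ≤
        (Di k i : ℝ) + (mk k (Ei k i) + 1) := by
      exact_mod_cast deg_w1 k (Di k i) (Ei k i) (V9 k M i)
    have g2 := mk_le h0 (Ei k i)
    have g3 : (cD k : ℝ) + 1 + cE k / k + (cD' k + cE' k / k) * i =
        (Di k i : ℝ) + 1 + (Ei k i : ℝ) / k := by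
      rw [hDi, hEi]
      ring
    rw [g3]
    change max ((w0 k (Di k i) (Ei k i) (V9 k M i)).natDegree : ℝ)
      ((w1 k (Di k i) (Ei k i) (V9 k M i)).natDegree : ℝ) ≤ _
    exact max_le (by linarith) (by linarith)
  · refine le_trans ?_ ((hS (cE k) (cE' k) (by linarith) (by linarith)).trans hf.b3)
    change ∑ i ∈ Finset.range (Nt k M), _ ≤ _
    rw [← hNdef]
    refine Finset.sum_le_sum fun i _ => mul_le_mul_of_nonneg_right ?_ (htpos i).le
    rw [← hEi]
    exact_mod_cast deg_pB_pow k (Ei k i) (V9 k M i) (Ei k i)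
  · omega
  · intro i hi
    rw [← hNdef] at hi
    exact ⟨hVpos i hi, hV2 i hi⟩
  · intro i hi
    rw [← hNdef] at hi
    exact hV1 i hi

end K9
end Pool.Agent.Lib.MP_973905_nt
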