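import Pool.Agent.Lib.MP_973905_nt.K9.Base
import Pool.Agent.Lib.MP_973905_nt.K8.BQZ

/-! Module (Z5) of folder K9: `|G1|²` is a polynomial of two variables of length `T^{0.89}` with
small coefficients, `G1` and `G2` are Dirichlet polynomials of length at most `T^{0.9}`. -/

namespace Pool.Agent.Lib.MP_973905_nt
namespace K9

open MeasureTheory ProbabilityTheory Complex Filter Topology K1 K4 K5

namespace BQ9x

open K5.BQx

variable {Q : ℝ} {G : (ℕ → ℂ) → ℂ}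

/-- Multiplication by a prime sum with small coefficients. -/
lemma left_ic {A : ℕ} {N y : ℝ} (h : IC (WA A N) Q G) (S : Finset ℕ)
    (hS : ∀ p ∈ S, p.Prime) (hy : ∀ p ∈ S, (p : ℝ) ≤ y) (u : ℕ → ℂ) (hu : ∀ p ∈ S, ‖u p‖ ≤ 1) :
    IC (WA (A + 1) (y * N)) ((A + 1) * Q) (fun f => (∑ p ∈ S, u p * f p) * G f) := by
  have hQ := h.nonneg
  obtain ⟨c, h1, h2, h3⟩ := h
  have hp1 : ∀ p ∈ S, 1 ≤ p := fun p hp => (hS p hp).one_lt.le
  have hc0 : ∀ x, c x ≠ 0 → x.1 ≠ 0 ∧ x.2 ≠ 0 := fun x hx => by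
    have := h2 x hx
    exact ⟨by have := this.1; omega, by have := this.2.1; omega⟩
  have hL : ∀ p ∈ S, ∀ x, c.mapDomain (dil p 1) x ≠ 0 → WA (A + 1) (y * N) x ∧ p ∣ x.1 := by
    intro p hp x hx
    obtain ⟨z, hz, rfl⟩ := dil_supp (hp1 p hp) le_rfl hx
    obtain ⟨w1, w2, w3, w4⟩ := h2 z hz
    refine ⟨⟨Nat.mul_pos (hp1 p hp) w1, by simpa [dil] using w2, ?_, ?_⟩, ?_⟩
    · simp only [dil]
      push_cast
      calc (p : ℝ) * z.1 * (1 * z.2) = p * (z.1 * z.2) := by ring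
        _ ≤ y * N := mul_le_mul (hy p hp) w3 (by positivity) ((Nat.cast_nonneg p).trans (hy p hp))
    · simp only [dil, one_mul]
      rw [Omega_mul (hS p hp) (hc0 z hz).1]
      omega
    · simp only [dil]
      exact dvd_mul_right _ _
  set d : ℕ × ℕ →₀ ℂ := ∑ p ∈ S, u p • c.mapDomain (dil p 1) with hd
  have hdx : ∀ x, d x = ∑ p ∈ S, u p * c.mapDomain (dil p 1) x := by
    intro x
    rw [hd, Finsupp.finsetSum_apply]
    rfl
  have hsup : ∀ x, (∃ p ∈ S, c.mapDomain (dil p 1) x ≠ 0) → WA (A + 1) (y * N) x := by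
    rintro x ⟨p, hp, h⟩
    exact (hL p hp x h).1
  refine ⟨d, fun x => ?_, fun x hx => ?_, fun f hf => ?_⟩
  · by_cases hx : ∃ p ∈ S, c.mapDomain (dil p 1) x ≠ 0
    · obtain ⟨w1, w2, w3, w4⟩ := hsup x hx
      have b1 : ∑ p ∈ S, ‖c.mapDomain (dil p 1) x‖ ≤ ArithmeticFunction.cardFactors x.1 * Q := by
        refine sum_prime_le hS _ _ (by omega) hQ
          (fun p hp => dil_norm (hp1 p hp) le_rfl h1 x) fun p hp hn => ?_
        by_contra hne
        exact hn (hL p hp x (by simpa using hne)).2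
      have b4 : (ArithmeticFunction.cardFactors x.1 : ℝ) ≤ A + 1 := by
        exact_mod_cast (by omega : ArithmeticFunction.cardFactors x.1 ≤ A + 1)
      rw [hdx]
      calc ‖∑ p ∈ S, u p * c.mapDomain (dil p 1) x‖ ≤ ∑ p ∈ S, ‖u p * c.mapDomain (dil p 1) x‖ :=
            norm_sum_le _ _
        _ ≤ ∑ p ∈ S, ‖c.mapDomain (dil p 1) x‖ := by
            refine Finset.sum_le_sum fun p hp => ?_
            rw [norm_mul]
            exact mul_le_of_le_one_left (norm_nonneg _) (hu p hp)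
        _ ≤ ArithmeticFunction.cardFactors x.1 * Q := b1
        _ ≤ (A + 1) * Q := mul_le_mul_of_nonneg_right b4 hQ
    · push Not at hx
      rw [hdx, Finset.sum_eq_zero fun p hp => by rw [hx p hp, mul_zero], norm_zero]
      positivity
  · by_contra hn
    apply hx
    have hx' : ¬ ∃ p ∈ S, c.mapDomain (dil p 1) x ≠ 0 := fun h => hn (hsup x h)
    push Not at hx'
    rw [hdx, Finset.sum_eq_zero fun p hp => by rw [hx' p hp, mul_zero]]
  · beta_reduce
    rw [hd, ev_sum, h3 f hf, Finset.sum_mul]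
    refine Finset.sum_congr rfl fun p hp => ?_
    rw [ev_smul, dil_ev (hp1 p hp) le_rfl hc0 hf, hf.1, map_one, mul_one, mul_assoc]

/-- Multiplication by a power of a prime sum. -/
lemma pow_ic {A : ℕ} {N y : ℝ} (h : IC (WA A N) Q G) (S : Finset ℕ)
    (hS : ∀ p ∈ S, p.Prime) (hy : ∀ p ∈ S, (p : ℝ) ≤ y) (u : ℕ → ℂ) (hu : ∀ p ∈ S, ‖u p‖ ≤ 1)
    (j : ℕ) (D : ℝ) (hD : (A + j : ℝ) ≤ D) :
    IC (WA (A + j) (y ^ j * N)) (D ^ j * Q) (fun f => (∑ p ∈ S, u p * f p) ^ j * G f) := by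
  have hQ := h.nonneg
  have hD0 : 0 ≤ D := le_trans (by positivity) hD
  induction j with
  | zero => simpa using h
  | succ j ih =>
    have h1 := ih (by push_cast at hD; linarith)
    have h2 := left_ic h1 S hS hy u hu
    refine (h2.mono (W' := WA (A + (j + 1)) (y ^ (j + 1) * N)) (fun x hx => ?_)
      (Q' := D ^ (j + 1) * Q) ?_).congr fun f hf => ?_
    · rw [pow_succ', mul_assoc, ← add_assoc]
      exact hx
    · rw [pow_succ', mul_assoc]
      apply mul_le_mul_of_nonneg_right _ (by positivity)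
      push_cast at hD ⊢
      linarith
    · rw [pow_succ']
      ring

/-- Multiplication by a polynomial of a prime sum. -/
lemma poly_ic (P : Polynomial ℝ) (A : ℕ) : ∃ K : ℝ, 0 ≤ K ∧ ∀ {N y : ℝ}, 0 ≤ N → 1 ≤ y →
    ∀ {Q : ℝ} {G : (ℕ → ℂ) → ℂ}, IC (WA A N) Q G → ∀ S : Finset ℕ, (∀ p ∈ S, p.Prime) →
    (∀ p ∈ S, (p : ℝ) ≤ y) → ∀ u : ℕ → ℂ, (∀ p ∈ S, ‖u p‖ ≤ 1) →
    IC (WA (A + P.natDegree) (y ^ P.natDegree * N)) (K * Q)
      (fun f => Polynomial.aeval (∑ p ∈ S, u p * f p) P * G f) := by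
  set d := P.natDegree with hd
  refine ⟨(∑ j ∈ Finset.range (d + 1), |P.coeff j|) * (A + d + 1 : ℝ) ^ d, by positivity, ?_⟩
  intro N y hN hy1 Q G h S hS hy u hu
  have hQ := h.nonneg
  have h1 : ∀ j ∈ Finset.range (d + 1), IC (WA (A + d) (y ^ d * N))
      (|P.coeff j| * ((A + d + 1 : ℝ) ^ d * Q))
      (fun f => (P.coeff j : ℂ) * ((∑ p ∈ S, u p * f p) ^ j * G f)) := by
    intro j hj
    rw [Finset.mem_range] at hj
    have hjd : (j : ℝ) ≤ d := by exact_mod_cast (by omega : j ≤ d)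
    have h2 := (pow_ic h S hS hy u hu j (A + d + 1) (by linarith)).smul (P.coeff j : ℂ)
    rw [norm_real, Real.norm_eq_abs] at h2
    refine h2.mono (WA_mono (by omega) ?_) ?_
    · apply mul_le_mul_of_nonneg_right _ hN
      exact pow_le_pow_right₀ hy1 (by omega)
    · apply mul_le_mul_of_nonneg_left _ (abs_nonneg _)
      apply mul_le_mul_of_nonneg_right _ hQ
      apply pow_le_pow_right₀ _ (by omega)
      have : (0 : ℝ) ≤ A + d := by positivity
      linarith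
  have h3 := IC.sum _ h1
  rw [← Finset.sum_mul, ← mul_assoc] at h3
  refine h3.congr fun f _ => ?_
  rw [Polynomial.aeval_eq_sum_range, Finset.sum_mul]
  refine Finset.sum_congr rfl fun j _ => ?_
  rw [Complex.real_smul, mul_assoc]

/-- Multiplication by the square of the absolute value of a polynomial of a prime sum. -/
lemma sq_ic (P : Polynomial ℝ) (A : ℕ) : ∃ K : ℝ, 0 ≤ K ∧ ∀ {N y : ℝ}, 0 ≤ N → 1 ≤ y →
    ∀ {Q : ℝ} {G : (ℕ → ℂ) → ℂ}, IC (WA A N) Q G → ∀ S : Finset ℕ, (∀ p ∈ S, p.Prime) →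
    (∀ p ∈ S, (p : ℝ) ≤ y) → ∀ u : ℕ → ℂ, (∀ p ∈ S, ‖u p‖ ≤ 1) →
    IC (WA (A + 2 * P.natDegree) (y ^ (2 * P.natDegree) * N)) (K * Q)
      (fun f => ((‖Polynomial.aeval (∑ p ∈ S, u p * f p) P‖ ^ 2 : ℝ) : ℂ) * G f) := by
  obtain ⟨K, hK, h'⟩ := poly_ic P A
  obtain ⟨L, hL, h''⟩ := poly_ic P (A + P.natDegree)
  refine ⟨L * K, mul_nonneg hL hK, ?_⟩
  intro N y hN hy1 Q G h S hS hy u hu
  have h1 := h' hN hy1 h S hS hy u hu
  have h2 := K8.BQZx.conj_ic h1
  have h3 := h'' (by positivity) hy1 h2 S hS hy u hu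
  have h4 := K8.BQZx.conj_ic h3
  refine (h4.mono (WA_mono (le_of_eq (by ring)) (le_of_eq (by ring))) (le_of_eq (by ring))).congr
    fun f _ => ?_
  have e1 : ∀ z : ℂ, ((‖z‖ ^ 2 : ℝ) : ℂ) = (starRingEnd ℂ) z * z := by
    intro z
    rw [← normSq_eq_norm_sq, mul_comm, mul_conj]
  rw [e1]
  simp only [map_mul, Complex.conj_conj]
  ring

lemma P_eq (C : Cfg) (T : ℝ) (i : ℕ) (f : ℕ → ℂ) :
    C.P T i f = ∑ p ∈ C.U T i, (p : ℂ) ^ (-((C.a T : ℝ) : ℂ)) * f p := rfl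

lemma coef_le {C : Cfg} (hpsi : 0 < C.psi) {T : ℝ} (hT : 1 ≤ T) {p : ℕ} (hp : 1 ≤ p) :
    ‖(p : ℂ) ^ (-((C.a T : ℝ) : ℂ))‖ ≤ 1 := by
  refine norm_natCast_cpow_neg_le_one ?_ hp
  rw [ofReal_re]
  exact div_nonneg hpsi.le (Real.log_nonneg hT)

/-- The product over the top blocks. -/
lemma prod_ic {k : ℝ} {M : ℕ} {C : Cfg} (hC : Adm k M C) (n : ℕ) (hn : n ≤ C.N) :
    ∃ K : ℝ, 0 ≤ K ∧ ∀ T : ℝ, 1 ≤ T →
    IC (WA (∑ i ∈ Finset.range n, 2 * (C.A i).natDegree)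
      (Real.exp ((∑ i ∈ Finset.range n, (2 * ((C.A i).natDegree : ℝ)) * C.te i) * Real.log T))) K
      (fun f => ((∏ i ∈ Finset.range n, ‖Polynomial.aeval (C.P T i f) (C.A i)‖ ^ 2 : ℝ) : ℂ)) := by
  induction n with
  | zero =>
    refine ⟨1, zero_le_one, fun T _ => ?_⟩
    refine (IC.one ?_).congr fun f _ => by simp
    simp [WA]
  | succ n ih =>
    obtain ⟨K, hK, h⟩ := ih (by omega)
    obtain ⟨L, hL, h'⟩ := sq_ic (C.A n) (∑ i ∈ Finset.range n, 2 * (C.A i).natDegree)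
    refine ⟨L * K, mul_nonneg hL hK, fun T hT => ?_⟩
    have hlog : 0 ≤ Real.log T := Real.log_nonneg hT
    have h1 := h' (Real.exp_pos _).le (y := Real.exp (C.te n * Real.log T))
      (Real.one_le_exp (mul_nonneg (hC.hpos n (by omega)).le hlog)) (h T hT) (C.U T n)
      (fun p hp => (Blk9.mem_U.mp hp).1) (fun p hp => (Blk9.mem_U.mp hp).2.2)
      (fun p => (p : ℂ) ^ (-((C.a T : ℝ) : ℂ)))
      (fun p hp => coef_le hC.hpsi hT (Blk9.mem_U.mp hp).1.one_lt.le)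
    refine (h1.mono (WA_mono ?_ ?_) le_rfl).congr fun f _ => ?_
    · rw [Finset.sum_range_succ]
    · rw [Finset.sum_range_succ, ← Real.exp_nat_mul, ← Real.exp_add]
      apply le_of_eq
      congr 1
      push_cast
      ring
    · rw [Finset.prod_range_succ, mul_comm, ofReal_mul]
      rfl

/-! ### Dirichlet polynomials -/

lemma dp_P {k : ℝ} {M : ℕ} {C : Cfg} (hC : Adm k M C) {T : ℝ} (hT : 1 ≤ T) (i : ℕ) :
    DP (Real.exp (C.te i * Real.log T)) (Real.exp (C.te i * Real.log T)) (C.P T i) := by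
  set y := Real.exp (C.te i * Real.log T) with hy
  have h1 : ∀ p ∈ C.U T i, DP y 1 (fun f => (p : ℂ) ^ (-((C.a T : ℝ) : ℂ)) * f p) := by
    intro p hp
    have h2 := Blk9.mem_U.mp hp
    exact (dp_single _ p h2.1.one_lt.le h2.2.2).mono le_rfl
      (coef_le hC.hpsi hT h2.1.one_lt.le)
  have h3 := dp_sum (C.U T i) h1
  refine h3.mono le_rfl ?_
  rw [Finset.sum_const, nsmul_eq_mul, mul_one]
  have h4 : C.U T i ⊆ Finset.Icc 1 ⌊y⌋₊ := by
    intro p hp
    have h2 := Blk9.mem_U.mp hp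
    rw [Finset.mem_Icc]
    exact ⟨h2.1.one_lt.le, Nat.le_floor h2.2.2⟩
  have h5 := Finset.card_le_card h4
  rw [Nat.card_Icc, Nat.add_sub_cancel] at h5
  calc ((C.U T i).card : ℝ) ≤ (⌊y⌋₊ : ℝ) := by exact_mod_cast h5
    _ ≤ y := Nat.floor_le (Real.exp_pos _).le

lemma dp_aeval (P : Polynomial ℝ) {y : ℝ} (hy : 1 ≤ y) {X : (ℕ → ℂ) → ℂ} (h : DP y y X) :
    DP (y ^ P.natDegree) ((∑ j ∈ Finset.range (P.natDegree + 1), |P.coeff j|) * y ^ P.natDegree)
      (fun f => Polynomial.aeval (X f) P) := by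
  have h1 : ∀ j ∈ Finset.range (P.natDegree + 1), DP (y ^ P.natDegree)
      (|P.coeff j| * y ^ P.natDegree) (fun f => (P.coeff j : ℂ) * X f ^ j) := by
    intro j hj
    rw [Finset.mem_range] at hj
    have h2 := (h.pow j).const_mul (P.coeff j : ℂ)
    rw [norm_real, Real.norm_eq_abs] at h2
    have h3 : y ^ j ≤ y ^ P.natDegree := pow_le_pow_right₀ hy (by omega)
    exact h2.mono h3 (mul_le_mul_of_nonneg_left h3 (abs_nonneg _))
  have h3 := dp_sum _ h1
  rw [← Finset.sum_mul] at h3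
  refine h3.congr fun f _ => ?_
  rw [Polynomial.aeval_eq_sum_range]
  refine Finset.sum_congr rfl fun j _ => ?_
  rw [Complex.real_smul]

lemma dp_top {k : ℝ} {M : ℕ} {C : Cfg} (hC : Adm k M C) (A : ℕ → Polynomial ℝ) :
    ∃ K : ℝ, 0 ≤ K ∧ ∀ T : ℝ, 1 ≤ T → DP
      (Real.exp ((∑ i ∈ Finset.range C.N, ((A i).natDegree : ℝ) * C.te i) * Real.log T))
      (K * Real.exp ((∑ i ∈ Finset.range C.N, ((A i).natDegree : ℝ) * C.te i) * Real.log T))
      (fun f => ∏ i ∈ Finset.range C.N, Polynomial.aeval (C.P T i f) (A i)) := by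
  refine ⟨∏ i ∈ Finset.range C.N, ∑ j ∈ Finset.range ((A i).natDegree + 1), |(A i).coeff j|,
    Finset.prod_nonneg fun i _ => Finset.sum_nonneg fun j _ => abs_nonneg _, fun T hT => ?_⟩
  have hlog : 0 ≤ Real.log T := Real.log_nonneg hT
  have h1 := dp_prod (Finset.range C.N) (N := fun i => Real.exp (C.te i * Real.log T) ^
      (A i).natDegree) (M := fun i => (∑ j ∈ Finset.range ((A i).natDegree + 1),
      |(A i).coeff j|) * Real.exp (C.te i * Real.log T) ^ (A i).natDegree)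
    (G := fun i f => Polynomial.aeval (C.P T i f) (A i)) fun i hi => by
      rw [Finset.mem_range] at hi
      exact dp_aeval (A i) (Real.one_le_exp (mul_nonneg (hC.hpos i hi.le).le hlog)) (dp_P hC hT i)
  have e : ∏ i ∈ Finset.range C.N, Real.exp (C.te i * Real.log T) ^ (A i).natDegree =
      Real.exp ((∑ i ∈ Finset.range C.N, ((A i).natDegree : ℝ) * C.te i) * Real.log T) := by
    rw [Finset.sum_mul, Real.exp_sum]
    refine Finset.prod_congr rfl fun i _ => ?_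
    rw [← Real.exp_nat_mul]
    congr 1
    ring
  rw [Finset.prod_mul_distrib, e] at h1
  exact h1

/-- From the bound for the exponents to the class. -/
lemma dp_fin {T θ e K : ℝ} (hT : 1 ≤ T) (hK : K ≤ T ^ (1 / 2000 : ℝ))
    (he : e ≤ 88 / 100) (hθ : θ = 1 / 4000) {X Y : (ℕ → ℂ) → ℂ} (hX : DP (T ^ θ) (T ^ θ) X)
    (hY : DP (Real.exp (e * Real.log T)) (K * Real.exp (e * Real.log T)) Y) :
    DP (T ^ (9 / 10 : ℝ)) (T ^ 3) (fun f => X f * Y f) := by
  have hT0 : 0 < T := by linarith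
  have h1 : Real.exp (e * Real.log T) ≤ T ^ (88 / 100 : ℝ) := by
    rw [Real.rpow_def_of_pos hT0]
    apply Real.exp_le_exp.mpr
    rw [mul_comm (Real.log T)]
    exact mul_le_mul_of_nonneg_right he (Real.log_nonneg hT)
  refine (hX.mul hY).mono ?_ ?_
  · calc T ^ θ * Real.exp (e * Real.log T) ≤ T ^ θ * T ^ (88 / 100 : ℝ) :=
          mul_le_mul_of_nonneg_left h1 (by positivity)
      _ = T ^ (θ + 88 / 100 : ℝ) := (Real.rpow_add hT0 _ _).symm
      _ ≤ T ^ (9 / 10 : ℝ) := Real.rpow_le_rpow_of_exponent_le hT (by rw [hθ]; norm_num)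
  · calc T ^ θ * (K * Real.exp (e * Real.log T)) ≤
          T ^ θ * (T ^ (1 / 2000 : ℝ) * T ^ (88 / 100 : ℝ)) := by
          apply mul_le_mul_of_nonneg_left _ (by positivity)
          exact mul_le_mul hK h1 (Real.exp_pos _).le (by positivity)
      _ = T ^ (θ + (1 / 2000 + 88 / 100) : ℝ) := by
          rw [← Real.rpow_add hT0, ← Real.rpow_add hT0]
      _ ≤ T ^ (3 : ℝ) := Real.rpow_le_rpow_of_exponent_le hT (by rw [hθ]; norm_num)
      _ = T ^ 3 := by norm_cast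

end BQ9x

open BQ9x K5.BQx in
/-- (Z5) our polynomials belong to the classes -/
theorem stBQ9 (h : K1.StShort) : StBQ9 := by
  intro k hk0 hk1
  obtain ⟨M₀, hM₀⟩ := h (1 / 4000) (by norm_num)
  refine ⟨M₀, fun M hM C hC => ?_⟩
  obtain ⟨T₁, hT₁3, hT₁⟩ := hM₀ M hM
  obtain ⟨K, hK0, hK⟩ := prod_ic hC C.N le_rfl
  obtain ⟨KA, hKA0, hKA⟩ := dp_top hC C.A
  obtain ⟨KB, hKB0, hKB⟩ := dp_top hC C.B
  have hev : ∀ᶠ T : ℝ in atTop, max K (max KA KB) ≤ T ^ (1 / 2000 : ℝ) :=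
    (tendsto_rpow_atTop (by norm_num)).eventually_ge_atTop _
  obtain ⟨T₂, hT₂⟩ := eventually_atTop.mp hev
  refine ⟨max T₁ T₂, hT₁3.trans (le_max_left _ _), fun T hT => ?_⟩
  have hT1 : T₁ ≤ T := (le_max_left _ _).trans hT
  have hT2 := hT₂ T ((le_max_right _ _).trans hT)
  have hTK : K ≤ T ^ (1 / 2000 : ℝ) := (le_max_left _ _).trans hT2
  have hTA : KA ≤ T ^ (1 / 2000 : ℝ) :=
    ((le_max_left _ _).trans (le_max_right _ _)).trans hT2
  have hTB : KB ≤ T ^ (1 / 2000 : ℝ) :=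
    ((le_max_right _ _).trans (le_max_right _ _)).trans hT2
  have hT3 : 3 ≤ T := hT₁3.trans hT1
  have hT0 : 0 < T := by linarith
  have hTone : 1 ≤ T := by linarith
  have hL : 0 ≤ Real.log T := Real.log_nonneg (by linarith)
  have hG : ∀ α : ℝ, |α| ≤ 1 → DP (T ^ (1 / 4000 : ℝ)) (T ^ (1 / 4000 : ℝ)) (NN T M α) :=
    fun α hα => hT₁ T hT1 α hα _ _
  have hGa := hG (k - 1) (by rw [abs_le]; constructor <;> linarith)
  have hGb := hG k (by rw [abs_le]; constructor <;> linarith)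
  refine ⟨?_, ?_, ?_⟩
  · have h1 : IC (K5.BQx.WB (T ^ (88 / 100 : ℝ))) K
        (fun f => ((∏ i ∈ Finset.range C.N,
          ‖Polynomial.aeval (C.P T i f) (C.A i)‖ ^ 2 : ℝ) : ℂ)) := by
      refine (hK T (by linarith)).mono (fun x hx => ⟨hx.1, hx.2.1, hx.2.2.1.trans ?_⟩) le_rfl
      rw [Real.rpow_def_of_pos hT0]
      apply Real.exp_le_exp.mpr
      rw [mul_comm (Real.log T)]
      apply mul_le_mul_of_nonneg_right _ hL
      have h2 := hC.bud1
      have h3 : ∑ i ∈ Finset.range C.N, (2 * ((C.A i).natDegree : ℝ)) * C.te i =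
          2 * ∑ i ∈ Finset.range C.N, ((C.A i).natDegree : ℝ) * C.te i := by
        rw [Finset.mul_sum]
        exact Finset.sum_congr rfl fun i _ => by ring
      rw [h3]
      linarith
    have h2 := h1.dp hGa
    apply IC.bq
    refine (h2.mono (fun x hx => ⟨hx.1, hx.2.1, hx.2.2.trans ?_⟩) ?_).congr fun f _ => ?_
    · calc T ^ (1 / 4000 : ℝ) * T ^ (1 / 4000 : ℝ) * K
          ≤ T ^ (1 / 4000 : ℝ) * T ^ (1 / 4000 : ℝ) * T ^ (1 / 2000 : ℝ) := by gcongr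
        _ = T ^ (1 / 1000 : ℝ) := by
          rw [← Real.rpow_add hT0, ← Real.rpow_add hT0]
          norm_num
    · rw [G1, mul_conj, normSq_eq_norm_sq, ← ofReal_mul]
      congr 1
      rw [norm_mul, mul_pow, norm_prod, ← Finset.prod_pow]
    · rw [← Real.rpow_add hT0, ← Real.rpow_add hT0]
      apply Real.rpow_le_rpow_of_exponent_le (by linarith)
      norm_num
  · exact dp_fin hTone hTA (hC.bud1.trans (by norm_num)) rfl hGa (hKA T hTone)
  · exact dp_fin hTone hTB hC.bud3 rfl hGb (hKB T hTone)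

end K9
end Pool.Agent.Lib.MP_973905_nt
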