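import Pool.Agent.Lib.MP_973905_nt.K9.Stmts
import Pool.Agent.Lib.MP_973905_nt.K5.Back

/-! Module (A5) of K9: the main term of the long twisted second moment to the right of the
critical line. -/

namespace Pool.Agent.Lib.MP_973905_nt
namespace K9
namespace BackSAux

open MeasureTheory ProbabilityTheory Complex Filter Topology K1 K5 K5.Back

/-! ### Two simple poles in a rectangle -/

/-- Cauchy's formula with a simple pole at a real point -/
lemma one_pole (h0 : StRect) {H : ℂ → ℂ} (hH : Differentiable ℂ H) {a b V s : ℝ}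
    (ha : 0 < a + s) (hb : 0 < b - s) (hV : 0 < V) :
    ((2 * Real.pi : ℝ) : ℂ) * H s =
      (∫ y : ℝ in (-V)..V, H ((b : ℂ) + y * I) / ((b : ℂ) + y * I - s)) -
      (∫ y : ℝ in (-V)..V, H (-(a : ℂ) + y * I) / (-(a : ℂ) + y * I - s)) -
      I * ((∫ x : ℝ in (-a)..b, H ((x : ℂ) - V * I) / ((x : ℂ) - V * I - s)) -
        ∫ x : ℝ in (-a)..b, H ((x : ℂ) + V * I) / ((x : ℂ) + V * I - s)) := by
  have hd : Differentiable ℂ (fun z : ℂ => H (z + s)) := hH.comp (by fun_prop)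
  have h1 := h0 (fun z => H (z + s)) (a + s) (b - s) V ha hb hV hd.differentiableOn
  have e1 : (∫ y : ℝ in (-V)..V, H (((b - s : ℝ) : ℂ) + y * I + s) /
      (((b - s : ℝ) : ℂ) + y * I)) =
      ∫ y : ℝ in (-V)..V, H ((b : ℂ) + y * I) / ((b : ℂ) + y * I - s) := by
    congr 1
    funext y
    have e : ((b - s : ℝ) : ℂ) + y * I = (b : ℂ) + y * I - s := by push_cast; ring
    rw [e, sub_add_cancel]
  have e2 : (∫ y : ℝ in (-V)..V, H (-((a + s : ℝ) : ℂ) + y * I + s) /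
      (-((a + s : ℝ) : ℂ) + y * I)) =
      ∫ y : ℝ in (-V)..V, H (-(a : ℂ) + y * I) / (-(a : ℂ) + y * I - s) := by
    congr 1
    funext y
    have e : -((a + s : ℝ) : ℂ) + y * I = -(a : ℂ) + y * I - s := by push_cast; ring
    rw [e, sub_add_cancel]
  have e3 : (∫ x : ℝ in (-(a + s))..(b - s), H ((x : ℂ) - V * I + s) / ((x : ℂ) - V * I)) =
      ∫ x : ℝ in (-a)..b, H ((x : ℂ) - V * I) / ((x : ℂ) - V * I - s) := by
    have h2 := intervalIntegral.integral_comp_sub_right (a := -a) (b := b)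
      (fun x : ℝ => H ((x : ℂ) - V * I + s) / ((x : ℂ) - V * I)) s
    have e : -(a + s) = -a - s := by ring
    rw [e, ← h2]
    congr 1
    funext x
    have e : ((x - s : ℝ) : ℂ) - V * I = (x : ℂ) - V * I - s := by push_cast; ring
    rw [e, sub_add_cancel]
  have e4 : (∫ x : ℝ in (-(a + s))..(b - s), H ((x : ℂ) + V * I + s) / ((x : ℂ) + V * I)) =
      ∫ x : ℝ in (-a)..b, H ((x : ℂ) + V * I) / ((x : ℂ) + V * I - s) := by
    have h2 := intervalIntegral.integral_comp_sub_right (a := -a) (b := b)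
      (fun x : ℝ => H ((x : ℂ) + V * I + s) / ((x : ℂ) + V * I)) s
    have e : -(a + s) = -a - s := by ring
    rw [e, ← h2]
    congr 1
    funext x
    have e : ((x - s : ℝ) : ℂ) + V * I = (x : ℂ) + V * I - s := by push_cast; ring
    rw [e, sub_add_cancel]
  simp only [zero_add] at h1
  rw [e1, e2, e3, e4] at h1
  exact h1

lemma split2 {H : ℂ → ℂ} (hH : Continuous H) {g : ℝ → ℂ} (hg : Continuous g) {s : ℝ}
    (hs : s ≠ 0) (h1 : ∀ t, g t - s ≠ 0) (h2 : ∀ t, g t - (-s : ℝ) ≠ 0) (u v : ℝ) :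
    ∫ t : ℝ in u..v, H (g t) / ((g t) ^ 2 - (s : ℂ) ^ 2) =
      (1 / (2 * s) : ℂ) * ((∫ t : ℝ in u..v, H (g t) / (g t - s)) -
        ∫ t : ℝ in u..v, H (g t) / (g t - (-s : ℝ))) := by
  rw [← intervalIntegral.integral_sub, ← intervalIntegral.integral_const_mul]
  · apply intervalIntegral.integral_congr
    intro t _
    have n1 := h1 t
    have n2 := h2 t
    have hs' : (s : ℂ) ≠ 0 := by exact_mod_cast hs
    have n3 : g t + s ≠ 0 := by
      intro h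
      apply n2
      push_cast
      rw [sub_neg_eq_add]
      exact h
    have e : (g t) ^ 2 - (s : ℂ) ^ 2 = (g t - s) * (g t + s) := by ring
    simp only
    push_cast
    rw [sub_neg_eq_add, e]
    field_simp
    ring
  · exact ((hH.comp hg).div (by fun_prop) h1).intervalIntegrable _ _
  · exact ((hH.comp hg).div (by fun_prop) h2).intervalIntegrable _ _

/-- Cauchy's formula with poles at `s` and `-s` -/
lemma two_poles (h0 : StRect) {H : ℂ → ℂ} (hH : Differentiable ℂ H) {a b V s : ℝ} (hs : 0 < s)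
    (ha : s < a) (hb : s < b) (hV : 0 < V) :
    (∫ y : ℝ in (-V)..V, H ((b : ℂ) + y * I) / (((b : ℂ) + y * I) ^ 2 - (s : ℂ) ^ 2)) =
      ((Real.pi / s : ℝ) : ℂ) * (H s - H (-s)) +
      (∫ y : ℝ in (-V)..V, H (-(a : ℂ) + y * I) / ((-(a : ℂ) + y * I) ^ 2 - (s : ℂ) ^ 2)) +
      I * ((∫ x : ℝ in (-a)..b, H ((x : ℂ) - V * I) / (((x : ℂ) - V * I) ^ 2 - (s : ℂ) ^ 2)) -
        ∫ x : ℝ in (-a)..b, H ((x : ℂ) + V * I) / (((x : ℂ) + V * I) ^ 2 - (s : ℂ) ^ 2)) := by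
  have h1 := one_pole h0 hH (a := a) (b := b) (V := V) (s := s) (by linarith) (by linarith) hV
  have h2 := one_pole h0 hH (a := a) (b := b) (V := V) (s := -s) (by linarith) (by linarith) hV
  have n1 : ∀ (r y : ℝ), r < b → (b : ℂ) + y * I - r ≠ 0 := fun r y hr =>
    re_ne (by simp; linarith)
  have n2 : ∀ (r y : ℝ), -a < r → -(a : ℂ) + y * I - r ≠ 0 := fun r y hr =>
    re_ne (by simp; linarith)
  have n3 : ∀ (r x : ℝ), (x : ℂ) - V * I - r ≠ 0 := fun r x => im_ne (by simp; exact hV.ne')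
  have n4 : ∀ (r x : ℝ), (x : ℂ) + V * I - r ≠ 0 := fun r x => im_ne (by simp; exact hV.ne')
  have hc := hH.continuous
  rw [split2 hc (g := fun y : ℝ => (b : ℂ) + y * I) (by fun_prop) hs.ne'
      (fun y => n1 s y (by linarith)) (fun y => n1 (-s) y (by linarith)),
    split2 hc (g := fun y : ℝ => -(a : ℂ) + y * I) (by fun_prop) hs.ne'
      (fun y => n2 s y (by linarith)) (fun y => n2 (-s) y (by linarith)),
    split2 hc (g := fun x : ℝ => (x : ℂ) - V * I) (by fun_prop) hs.ne'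
      (fun y => n3 s y) (fun y => n3 (-s) y),
    split2 hc (g := fun x : ℝ => (x : ℂ) + V * I) (by fun_prop) hs.ne'
      (fun y => n4 s y) (fun y => n4 (-s) y)]
  have hs' : (s : ℂ) ≠ 0 := by exact_mod_cast hs.ne'
  have e1 : ((Real.pi / s : ℝ) : ℂ) = (1 / (2 * s) : ℂ) * ((2 * Real.pi : ℝ) : ℂ) := by
    push_cast
    field_simp
  have e2 : ((-s : ℝ) : ℂ) = -(s : ℂ) := by push_cast; ring
  rw [e1]
  rw [e2] at h2 ⊢
  linear_combination (-(1 / (2 * s) : ℂ)) * h1 + (1 / (2 * s) : ℂ) * h2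

/-! ### The kernel -/

lemma KNa_eq {X : ℝ} (hX : 0 < X) (N : ℕ) (c : ℕ → ℕ → ℂ) (a : ℝ) {w : ℂ} (hw : w ≠ 0) :
    KNa X a w * (riemannZeta (1 + 2 * w) * RB N c w) =
      ((X : ℂ) ^ (-(a : ℂ)) * cexp (-(a : ℂ) ^ 2)) * (HH X N c w / (w ^ 2 - (a : ℂ) ^ 2)) := by
  have hX0 : (X : ℂ) ≠ 0 := by exact_mod_cast hX.ne'
  have h1 : (1 : ℂ) + 2 * w ≠ 1 := by
    intro h
    apply hw
    have : 2 * w = 0 := by linear_combination h
    simpa using this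
  have h2 : riemannZeta (1 + 2 * w) = (2 * w)⁻¹ * riemannZeta₁ (1 + 2 * w) := by
    have := riemannZeta_eq_inv_sub_mul h1
    rw [this]
    congr 2
    ring
  have h3 : (X : ℂ) ^ (w - a) = (X : ℂ) ^ w * (X : ℂ) ^ (-(a : ℂ)) := by
    rw [sub_eq_add_neg, Complex.cpow_add _ _ hX0]
  have h4 : cexp (w ^ 2 - a ^ 2) = cexp (w ^ 2) * cexp (-(a : ℂ) ^ 2) := by
    rw [sub_eq_add_neg, Complex.exp_add]
  have h5 : w * (2 * w)⁻¹ = 1 / 2 := by
    field_simp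
  unfold KNa HH
  rw [h2, h3, h4]
  calc _ = (w * (2 * w)⁻¹) * ((X : ℂ) ^ w * (X : ℂ) ^ (-(a : ℂ)) * (cexp (w ^ 2) *
        cexp (-(a : ℂ) ^ 2)) * (riemannZeta₁ (1 + 2 * w) * RB N c w) / (w ^ 2 - a ^ 2)) := by ring
    _ = _ := by rw [h5]; ring

lemma main_eq {X : ℝ} (hX : 0 < X) (N : ℕ) (c : ℕ → ℕ → ℂ) {a : ℝ} (ha : 0 < a) :
    ((1 / Real.pi : ℝ) : ℂ) * (((X : ℂ) ^ (-(a : ℂ)) * cexp (-(a : ℂ) ^ 2)) *
      (((Real.pi / a : ℝ) : ℂ) * (HH X N c a - HH X N c (-a)))) =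
    riemannZeta (1 + 2 * a) * RB N c a + (X : ℂ) ^ (-(2 * a : ℂ)) *
        (riemannZeta (1 - 2 * a) * RB N c (-a)) := by
  have hX0 : (X : ℂ) ≠ 0 := by exact_mod_cast hX.ne'
  have ha' : (a : ℂ) ≠ 0 := by exact_mod_cast ha.ne'
  have hpi : (Real.pi : ℂ) ≠ 0 := by exact_mod_cast Real.pi_pos.ne'
  have h1 : (1 : ℂ) + 2 * a ≠ 1 := by
    intro h
    apply ha'
    have : 2 * (a : ℂ) = 0 := by linear_combination h
    simpa using this
  have h2 : (1 : ℂ) - 2 * a ≠ 1 := by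
    intro h
    apply ha'
    have : 2 * (a : ℂ) = 0 := by linear_combination -h
    simpa using this
  have z1 : riemannZeta (1 + 2 * a) = (2 * (a : ℂ))⁻¹ * riemannZeta₁ (1 + 2 * a) := by
    rw [riemannZeta_eq_inv_sub_mul h1]
    congr 2
    ring
  have z2 : riemannZeta (1 - 2 * a) = (-(2 * (a : ℂ)))⁻¹ * riemannZeta₁ (1 - 2 * a) := by
    rw [riemannZeta_eq_inv_sub_mul h2]
    congr 2
    ring
  have x1 : (X : ℂ) ^ (-(a : ℂ)) * (X : ℂ) ^ (a : ℂ) = 1 := by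
    rw [← Complex.cpow_add _ _ hX0, neg_add_cancel, Complex.cpow_zero]
  have x2 : (X : ℂ) ^ (-(a : ℂ)) * (X : ℂ) ^ (-(a : ℂ)) = (X : ℂ) ^ (-(2 * a : ℂ)) := by
    rw [← Complex.cpow_add _ _ hX0]
    congr 1
    ring
  have x3 : cexp (-(a : ℂ) ^ 2) * cexp ((a : ℂ) ^ 2) = 1 := by
    rw [← Complex.exp_add, neg_add_cancel, Complex.exp_zero]
  have e1 : (1 : ℂ) + 2 * -(a : ℂ) = 1 - 2 * a := by ring
  have e2 : (-(a : ℂ)) ^ 2 = (a : ℂ) ^ 2 := by ring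
  have e3 : ((1 / Real.pi : ℝ) : ℂ) * ((Real.pi / a : ℝ) : ℂ) = 1 / (a : ℂ) := by
    push_cast
    field_simp
  unfold HH
  rw [z1, z2, e1, e2, ← x2]
  calc _ = (((1 / Real.pi : ℝ) : ℂ) * ((Real.pi / a : ℝ) : ℂ)) *
        ((1 / 2 : ℂ) * (riemannZeta₁ (1 + 2 * a) * RB N c a) *
          (((X : ℂ) ^ (-(a : ℂ)) * (X : ℂ) ^ (a : ℂ)) *
            (cexp (-(a : ℂ) ^ 2) * cexp ((a : ℂ) ^ 2))) -
        (1 / 2 : ℂ) * (riemannZeta₁ (1 - 2 * a) * RB N c (-a)) *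
          (((X : ℂ) ^ (-(a : ℂ)) * (X : ℂ) ^ (-(a : ℂ))) *
            (cexp (-(a : ℂ) ^ 2) * cexp ((a : ℂ) ^ 2)))) := by ring
    _ = _ := by
      rw [e3, x1, x3]
      field_simp
      ring

lemma kap_le {X a : ℝ} (hX : 1 ≤ X) (ha : 0 ≤ a) :
    ‖(X : ℂ) ^ (-(a : ℂ)) * cexp (-(a : ℂ) ^ 2)‖ ≤ 1 := by
  rw [norm_mul, norm_cpow_eq_rpow_re_of_pos (by linarith), Complex.norm_exp]
  have e1 : (-(a : ℂ)).re = -a := by simp
  have e2 : (-(a : ℂ) ^ 2).re = -a ^ 2 := by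
    rw [← Complex.ofReal_pow, ← Complex.ofReal_neg, Complex.ofReal_re]
  rw [e1, e2]
  have h1 : X ^ (-a) ≤ 1 := Real.rpow_le_one_of_one_le_of_nonpos hX (by linarith)
  have h2 : Real.exp (-a ^ 2) ≤ 1 := Real.exp_le_one_iff.2 (by nlinarith)
  calc X ^ (-a) * Real.exp (-a ^ 2) ≤ 1 * 1 := by gcongr
    _ = 1 := one_mul 1

/-- comparison with the double pole -/
lemma cmp {a : ℝ} (ha0 : 0 ≤ a) (ha : a ≤ 1 / 400) {w h : ℂ} {B : ℝ} (hw : 1 / 4 ≤ ‖w‖)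
    (hB : ‖h / w ^ 2‖ ≤ B) : ‖h / (w ^ 2 - (a : ℂ) ^ 2)‖ ≤ 2 * B := by
  have h1 : 1 / 16 ≤ ‖w ^ 2‖ := by rw [norm_pow]; nlinarith
  have h2 : ‖(a : ℂ) ^ 2‖ ≤ 1 / 32 := by
    rw [norm_pow, Complex.norm_real, Real.norm_of_nonneg ha0]
    nlinarith
  have h3 : ‖w ^ 2‖ ≤ 2 * ‖w ^ 2 - (a : ℂ) ^ 2‖ := by
    have := norm_sub_norm_le (w ^ 2) ((a : ℂ) ^ 2)
    linarith
  rw [norm_div] at hB ⊢
  have h4 : 0 < ‖w ^ 2‖ := by linarith
  rw [div_le_iff₀ h4] at hB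
  rw [div_le_iff₀ (by linarith)]
  have hB0 : 0 ≤ B := by
    by_contra hn
    have := norm_nonneg h
    nlinarith
  nlinarith

end BackSAux

open BackSAux MeasureTheory ProbabilityTheory Complex Filter Topology K1 K5 K5.Back in
/-- (A5) the main term -/
theorem stBackS (h0 : K5.StRect) : StBackS := by
  intro A hA
  set K1 : ℝ := 2 * 1120000 with hK1
  set K2 : ℝ := 2 * (180 * (A + 1) ^ 3 * Real.exp (A ^ 2)) with hK2
  have hK2p : 0 < K2 := by positivity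
  have hlo : (fun x : ℝ => (K1 + 2 * K2) * Real.log x ^ (5 : ℝ)) =o[atTop]
      fun x => x ^ (65 / 10000 : ℝ) :=
    (isLittleO_log_rpow_rpow_atTop 5 (by norm_num)).const_mul_left _
  have ev1 : ∀ᶠ T : ℝ in atTop, (K1 + 2 * K2) * Real.log T ^ 5 ≤ T ^ (65 / 10000 : ℝ) := by
    filter_upwards [hlo.bound one_pos, eventually_ge_atTop 3] with T hT h3
    have hL : 0 ≤ Real.log T := Real.log_nonneg (by linarith)
    rw [one_mul, Real.norm_of_nonneg (by positivity), Real.norm_of_nonneg (by positivity)] at hT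
    have e : Real.log T ^ (5 : ℝ) = Real.log T ^ 5 := by
      rw [← Real.rpow_natCast]; norm_num
    rw [e] at hT
    exact hT
  have ev2 : ∀ᶠ T : ℝ in atTop, A + 4 ≤ Real.log T :=
    Real.tendsto_log_atTop.eventually_ge_atTop _
  have ev3 : ∀ᶠ T : ℝ in atTop, 2 * Real.pi * Real.log T ≤ T := by
    have h := (Real.isLittleO_log_id_atTop.const_mul_left (2 * Real.pi)).bound one_pos
    filter_upwards [h, eventually_ge_atTop 3] with T hT h3
    have hL : 0 ≤ Real.log T := Real.log_nonneg (by linarith)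
    rw [one_mul, Real.norm_of_nonneg (by positivity), id, Real.norm_of_nonneg (by linarith)] at hT
    exact hT
  obtain ⟨T₀, hT₀⟩ := eventually_atTop.1 (ev1.and (ev2.and ev3))
  refine ⟨max T₀ 3, le_max_right _ _, fun T hT τ hτ1 hτ2 N c hN hQ hY a ha1 ha2 => ?_⟩
  obtain ⟨g1, g2, g3⟩ := hT₀ T ((le_max_left _ _).trans hT)
  have hT3 : 3 ≤ T := (le_max_right _ _).trans hT
  have hT0 : 0 < T := by linarith
  set L := Real.log T with hL
  have hL1 : 1 ≤ L := by linarith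
  have hL0 : 0 < L := by linarith
  have ha0 : 0 < a := lt_of_lt_of_le (by positivity) ha1
  have hpi := Real.pi_pos
  have hpi3 := Real.pi_gt_three
  have hpi4 := Real.pi_lt_d2
  set X := |τ| / (2 * Real.pi) with hX
  have hXlow : T / (2 * Real.pi * L) ≤ X := by
    rw [hX, div_le_div_iff₀ (by positivity) (by positivity)]
    have := (div_le_iff₀ hL0).1 hτ1
    nlinarith
  have hX1 : 1 ≤ X := by
    refine le_trans ?_ hXlow
    rw [le_div_iff₀ (by positivity)]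
    linarith
  have hXT : X ≤ T := by
    rw [hX, div_le_iff₀ (by positivity)]
    nlinarith
  have hX0 : 0 < X := by linarith
  -- the contour integral
  set κ : ℂ := (X : ℂ) ^ (-(a : ℂ)) * cexp (-(a : ℂ) ^ 2) with hκ
  have hκ1 : ‖κ‖ ≤ 1 := kap_le hX1 ha0.le
  have hJ : (∫ y : ℝ in (-L)..L, KNa X a ((A : ℝ) + y * I) *
      (riemannZeta (1 + 2 * ((A : ℝ) + y * I)) * RB N c ((A : ℝ) + y * I))) =
      κ * ∫ y : ℝ in (-L)..L, HH X N c ((A : ℂ) + y * I) /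
        (((A : ℂ) + y * I) ^ 2 - (a : ℂ) ^ 2) := by
    rw [← intervalIntegral.integral_const_mul]
    apply intervalIntegral.integral_congr
    intro y _
    exact KNa_eq hX0 N c a (re_ne (by simp; linarith))
  have hD := two_poles h0 (HH_diff hX0 N c) (a := 1 / 4) (b := A) (V := L) (s := a) ha0
    (by linarith) (by linarith) hL0
  rw [hJ, hD, ← main_eq hX0 N c ha0]
  set Lf := ∫ y : ℝ in (-L)..L, HH X N c (-((1 / 4 : ℝ) : ℂ) + y * I) /
    ((-((1 / 4 : ℝ) : ℂ) + y * I) ^ 2 - (a : ℂ) ^ 2) with hLf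
  set Bt := ∫ x : ℝ in (-(1 / 4))..A, HH X N c ((x : ℂ) - L * I) /
    (((x : ℂ) - L * I) ^ 2 - (a : ℂ) ^ 2) with hBt
  set Tp := ∫ x : ℝ in (-(1 / 4))..A, HH X N c ((x : ℂ) + L * I) /
    (((x : ℂ) + L * I) ^ 2 - (a : ℂ) ^ 2) with hTp
  have hmain : ((1 / Real.pi : ℝ) : ℂ) * (κ * (((Real.pi / a : ℝ) : ℂ) *
      (HH X N c a - HH X N c (-a)) + Lf + I * (Bt - Tp))) -
      ((1 / Real.pi : ℝ) : ℂ) * (κ * (((Real.pi / a : ℝ) : ℂ) *
      (HH X N c a - HH X N c (-a)))) = ((1 / Real.pi : ℝ) : ℂ) * (κ * (Lf + I * (Bt - Tp))) := by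
    ring
  rw [hmain]
  have hpi1 : 1 / Real.pi ≤ 1 := by
    rw [div_le_one hpi]; linarith
  -- bounds
  have hlogN : Real.log N ≤ L := by
    rcases Nat.eq_zero_or_pos N with h | h
    · rw [h]; simp; exact hL0.le
    · exact Real.log_le_log (by exact_mod_cast h) hN
  have hlogN0 : 0 ≤ Real.log N := Real.log_natCast_nonneg N
  have hXm : X ^ (-(1 / 4) : ℝ) ≤ T ^ (-(1 / 4) : ℝ) * (7 * L) := by
    have e1 : X ^ (-(1 / 4) : ℝ) ≤ (T / (2 * Real.pi * L)) ^ (-(1 / 4) : ℝ) :=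
      Real.rpow_le_rpow_of_nonpos (by positivity) hXlow (by norm_num)
    have e2 : (T / (2 * Real.pi * L)) ^ (-(1 / 4) : ℝ) =
        T ^ (-(1 / 4) : ℝ) * (2 * Real.pi * L) ^ (1 / 4 : ℝ) := by
      rw [Real.div_rpow hT0.le (by positivity), div_eq_mul_inv, ← Real.rpow_neg (by positivity)]
      norm_num
    have e3 : (2 * Real.pi * L) ^ (1 / 4 : ℝ) ≤ 7 * L := by
      calc (2 * Real.pi * L) ^ (1 / 4 : ℝ) ≤ (2 * Real.pi * L) ^ (1 : ℝ) := by
            apply Real.rpow_le_rpow_of_exponent_le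
            · nlinarith
            · norm_num
        _ = 2 * Real.pi * L := Real.rpow_one _
        _ ≤ 7 * L := by nlinarith
    rw [e2] at e1
    refine e1.trans ?_
    gcongr
  have hpow : T ^ (1 / 1000 : ℝ) * (T ^ (89 / 100 : ℝ)) ^ (1 / 4 : ℝ) * T ^ (-(1 / 4) : ℝ) =
      T ^ (-(265 / 10000) : ℝ) := by
    rw [← Real.rpow_mul hT0.le, ← Real.rpow_add hT0, ← Real.rpow_add hT0]
    norm_num
  have hLb : ‖Lf‖ ≤ K1 * L ^ 5 * T ^ (-(265 / 10000) : ℝ) := by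
    have h1 : ‖Lf‖ ≤ 2 * (10000 * (T ^ (1 / 1000 : ℝ) * (T ^ (89 / 100 : ℝ)) ^ (1 / 4 : ℝ) *
        (1 + Real.log N) ^ 3) * X ^ (-(1 / 4) : ℝ)) * |L - -L| :=
      intervalIntegral.norm_integral_le_of_norm_le_const fun y _ => by
        refine cmp ha0.le ha2 ?_ (left_bd hX0 hQ (by positivity) hY y)
        have h5 := abs_re_le_norm (-((1 / 4 : ℝ) : ℂ) + y * I)
        have h6 : (-((1 / 4 : ℝ) : ℂ) + y * I).re = -(1 / 4) := by simp
        rw [h6, abs_of_nonpos (by norm_num)] at h5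
        linarith
    have h2 : |L - -L| = 2 * L := by rw [abs_of_pos (by linarith)]; ring
    rw [h2] at h1
    refine h1.trans ?_
    have h3 : (1 + Real.log N) ^ 3 ≤ (2 * L) ^ 3 := by
      gcongr
      linarith
    calc 2 * (10000 * (T ^ (1 / 1000 : ℝ) * (T ^ (89 / 100 : ℝ)) ^ (1 / 4 : ℝ) *
        (1 + Real.log N) ^ 3) * X ^ (-(1 / 4) : ℝ)) * (2 * L)
        ≤ 2 * (10000 * (T ^ (1 / 1000 : ℝ) * (T ^ (89 / 100 : ℝ)) ^ (1 / 4 : ℝ) *
        (2 * L) ^ 3) * (T ^ (-(1 / 4) : ℝ) * (7 * L))) * (2 * L) := by gcongr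
      _ = 2 * 1120000 * L ^ 5 * (T ^ (1 / 1000 : ℝ) * (T ^ (89 / 100 : ℝ)) ^ (1 / 4 : ℝ) *
          T ^ (-(1 / 4) : ℝ)) := by ring
      _ = _ := by rw [hpow]
  have hhor : ∀ w : ℂ, -(1 / 4) ≤ w.re → w.re ≤ A → |w.im| = L →
      ‖HH X N c w / (w ^ 2 - (a : ℂ) ^ 2)‖ ≤
        2 * (180 * (A + 1) ^ 2 * Real.exp (A ^ 2) * L ^ 2 * T ^ (-(1999 / 1000) : ℝ)) := by
    intro w h1 h2 h3
    refine cmp ha0.le ha2 (by have := abs_im_le_norm w; rw [h3] at this; linarith) ?_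
    refine (hor_bd hA hL1 hX1 hXT hQ hN h1 h2 h3).trans ?_
    have e1 : Real.exp (A ^ 2 - L ^ 2) ≤ Real.exp (A ^ 2) * T ^ (-(A + 4)) := by
      have e2 : T ^ (-(A + 4)) = Real.exp (-(A + 4) * L) := by
        rw [Real.rpow_def_of_pos hT0, ← hL]; congr 1; ring
      rw [e2, ← Real.exp_add]
      apply Real.exp_le_exp.2
      nlinarith
    have e3 : (1 + 2 * L) ^ 2 ≤ 9 * L ^ 2 := by nlinarith
    have e4 : T ^ (1 / 1000 : ℝ) * T ^ 2 * T ^ A * T ^ (-(A + 4)) = T ^ (-(1999 / 1000) : ℝ) := by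
      rw [← Real.rpow_natCast T 2, ← Real.rpow_add hT0, ← Real.rpow_add hT0, ← Real.rpow_add hT0]
      congr 1
      push_cast
      ring
    calc 20 * (A + 1) ^ 2 * (1 + 2 * L) ^ 2 * (T ^ (1 / 1000 : ℝ) * T ^ 2) * T ^ A *
        Real.exp (A ^ 2 - L ^ 2)
        ≤ 20 * (A + 1) ^ 2 * (9 * L ^ 2) * (T ^ (1 / 1000 : ℝ) * T ^ 2) * T ^ A *
        (Real.exp (A ^ 2) * T ^ (-(A + 4))) := by gcongr
      _ = 180 * (A + 1) ^ 2 * Real.exp (A ^ 2) * L ^ 2 *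
          (T ^ (1 / 1000 : ℝ) * T ^ 2 * T ^ A * T ^ (-(A + 4))) := by ring
      _ = _ := by rw [e4]
  have habs : |A - -(1 / 4)| ≤ A + 1 := by rw [abs_of_pos (by linarith)]; linarith
  have hC0 : 0 ≤ 2 * (180 * (A + 1) ^ 2 * Real.exp (A ^ 2) * L ^ 2 *
      T ^ (-(1999 / 1000) : ℝ)) := by
    positivity
  have hIoc : ∀ x ∈ Set.uIoc (-(1 / 4) : ℝ) A, -(1 / 4) ≤ x ∧ x ≤ A := by
    intro x hx
    rw [Set.uIoc_of_le (by linarith)] at hx
    exact ⟨hx.1.le, hx.2⟩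
  have hBb : ‖Bt‖ ≤ K2 * L ^ 2 * T ^ (-(1999 / 1000) : ℝ) := by
    have h1 : ‖Bt‖ ≤ 2 * (180 * (A + 1) ^ 2 * Real.exp (A ^ 2) * L ^ 2 *
        T ^ (-(1999 / 1000) : ℝ)) * |A - -(1 / 4)| :=
      intervalIntegral.norm_integral_le_of_norm_le_const fun x hx => by
        obtain ⟨k1, k2⟩ := hIoc x hx
        exact hhor _ (by simpa using k1) (by simpa using k2) (by simp [abs_of_pos hL0])
    refine h1.trans ((mul_le_mul_of_nonneg_left habs hC0).trans (le_of_eq ?_))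
    rw [hK2]; ring
  have hTb : ‖Tp‖ ≤ K2 * L ^ 2 * T ^ (-(1999 / 1000) : ℝ) := by
    have h1 : ‖Tp‖ ≤ 2 * (180 * (A + 1) ^ 2 * Real.exp (A ^ 2) * L ^ 2 *
        T ^ (-(1999 / 1000) : ℝ)) * |A - -(1 / 4)| :=
      intervalIntegral.norm_integral_le_of_norm_le_const fun x hx => by
        obtain ⟨k1, k2⟩ := hIoc x hx
        exact hhor _ (by simpa using k1) (by simpa using k2) (by simp [abs_of_pos hL0])
    refine h1.trans ((mul_le_mul_of_nonneg_left habs hC0).trans (le_of_eq ?_))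
    rw [hK2]; ring
  have hfin : ‖Lf + I * (Bt - Tp)‖ ≤ (K1 + 2 * K2) * L ^ 5 * T ^ (-(265 / 10000) : ℝ) := by
    have e1 : T ^ (-(1999 / 1000) : ℝ) ≤ T ^ (-(265 / 10000) : ℝ) :=
      Real.rpow_le_rpow_of_exponent_le (by linarith) (by norm_num)
    have e2 : L ^ 2 ≤ L ^ 5 := pow_le_pow_right₀ hL1 (by norm_num)
    have e3 : K2 * L ^ 2 * T ^ (-(1999 / 1000) : ℝ) ≤ K2 * L ^ 5 * T ^ (-(265 / 10000) : ℝ) := by
      gcongr
    calc ‖Lf + I * (Bt - Tp)‖ ≤ ‖Lf‖ + ‖I * (Bt - Tp)‖ := norm_add_le _ _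
      _ ≤ ‖Lf‖ + (‖Bt‖ + ‖Tp‖) := by
          rw [norm_mul, norm_I, one_mul]
          gcongr
          exact norm_sub_le _ _
      _ ≤ K1 * L ^ 5 * T ^ (-(265 / 10000) : ℝ) + (K2 * L ^ 5 * T ^ (-(265 / 10000) : ℝ) +
          K2 * L ^ 5 * T ^ (-(265 / 10000) : ℝ)) := by
          gcongr
          · exact hBb.trans e3
          · exact hTb.trans e3
      _ = _ := by ring
  rw [norm_mul, Complex.norm_real, Real.norm_of_nonneg (by positivity), norm_mul]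
  calc 1 / Real.pi * (‖κ‖ * ‖Lf + I * (Bt - Tp)‖) ≤ 1 * (1 * ‖Lf + I * (Bt - Tp)‖) := by gcongr
    _ ≤ (K1 + 2 * K2) * L ^ 5 * T ^ (-(265 / 10000) : ℝ) := by
        rw [one_mul, one_mul]; exact hfin
    _ ≤ T ^ (65 / 10000 : ℝ) * T ^ (-(265 / 10000) : ℝ) := by gcongr
    _ = T ^ (-(1 / 50) : ℝ) := by
        rw [← Real.rpow_add hT0]; norm_num

end K9
end Pool.Agent.Lib.MP_973905_nt
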