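import Pool.Agent.Lib.MP_973905_nt.K9.Stmts
import Pool.Agent.Lib.MP_973905_nt.K1.BlockShift

/-! Module (Z8) of K9: one bottom block, first moment. -/

namespace Pool.Agent.Lib.MP_973905_nt
namespace K9

open MeasureTheory ProbabilityTheory Complex Filter Topology K1 K4 K5

namespace BlkFAux

open K1.BlkShift

/-! ### the local factor -/

/-- the weight -/
noncomputable def wt (k x : ℝ) (z : ℂ) : ℝ := ‖1 - (x : ℂ) * z‖ ^ (-(2 * k))

/-- the local function -/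
noncomputable def Gl (k x : ℝ) (y z : ℂ) : ℂ :=
  (1 - y * z)⁻¹ * (1 - (x : ℂ) * z) * ((wt k x z : ℝ) : ℂ)

lemma wt_bd {k x : ℝ} (hk0 : 0 < k) (hk1 : k ≤ 1) (hx0 : 0 ≤ x) (hx : x ≤ 7072 / 10000) {z : ℂ}
    (hz : ‖z‖ = 1) : 0 ≤ wt k x z ∧ wt k x z ≤ 12 ∧ |wt k x z - 1| ≤ 24 * x := by
  have hxn : ‖(x : ℂ) * z‖ = x := by
    rw [norm_mul, norm_real, Real.norm_eq_abs, abs_of_nonneg hx0, hz, mul_one]
  have hw : wt k x z = ‖1 - (x : ℂ) * z‖ ^ (-(2 * k)) := rfl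
  rw [hw]
  have t1 := norm_sub_norm_le (1 : ℂ) ((x : ℂ) * z)
  have t2 := norm_sub_le (1 : ℂ) ((x : ℂ) * z)
  rw [norm_one, hxn] at t1 t2
  set t : ℝ := ‖1 - (x : ℂ) * z‖ with ht
  have t0 : 0 < t := by linarith
  have h0 : 0 < t ^ (-(2 * k)) := Real.rpow_pos_of_pos t0 _
  have e2 : t ^ (-(2 : ℝ)) = (t ^ 2)⁻¹ := by rw [Real.rpow_neg t0.le, Real.rpow_two]
  rcases le_or_gt 1 t with h1 | h1
  · have a1 : t ^ (-(2 * k)) ≤ 1 := Real.rpow_le_one_of_one_le_of_nonpos h1 (by linarith)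
    have a2 : t ^ (-(2 : ℝ)) ≤ t ^ (-(2 * k)) :=
      Real.rpow_le_rpow_of_exponent_le h1 (by linarith)
    rw [e2] at a2
    have a3 : 1 - 2 * x ≤ (t ^ 2)⁻¹ := by
      rw [← one_div, le_div_iff₀ (by positivity)]
      rcases le_or_gt (1 - 2 * x) 0 with h2 | h2
      · nlinarith [sq_nonneg t]
      · have h3 : t ^ 2 ≤ (1 + x) ^ 2 := by gcongr
        have h4 : (1 - 2 * x) * t ^ 2 ≤ (1 - 2 * x) * (1 + x) ^ 2 := by gcongr
        have h5 : (1 - 2 * x) * (1 + x) ^ 2 ≤ 1 := by nlinarith [mul_nonneg hx0 (sq_nonneg x), sq_nonneg x]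
        linarith
    refine ⟨h0.le, by linarith, ?_⟩
    rw [abs_le]
    constructor <;> linarith
  · have a1 : 1 ≤ t ^ (-(2 * k)) :=
      Real.one_le_rpow_of_pos_of_le_one_of_nonpos t0 h1.le (by linarith)
    have a2 : t ^ (-(2 * k)) ≤ t ^ (-(2 : ℝ)) :=
      Real.rpow_le_rpow_of_exponent_ge t0 h1.le (by linarith)
    rw [e2] at a2
    have h3 : (1 - x) ^ 2 ≤ t ^ 2 := by
      have : 0 ≤ 1 - x := by linarith
      gcongr
    have a3 : (t ^ 2)⁻¹ ≤ 1 + 24 * x := by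
      rw [inv_le_iff_one_le_mul₀ (by positivity)]
      have h4 : 1 ≤ (1 + 24 * x) * (1 - x) ^ 2 := by
        have h5 : 0 ≤ x * (22 - 47 * x + 24 * x ^ 2) := by
          refine mul_nonneg hx0 ?_
          nlinarith
        nlinarith
      have h6 : (1 + 24 * x) * (1 - x) ^ 2 ≤ (1 + 24 * x) * t ^ 2 := by gcongr
      linarith
    have a4 : (t ^ 2)⁻¹ ≤ 12 := by
      rw [inv_le_iff_one_le_mul₀ (by positivity)]
      nlinarith
    refine ⟨h0.le, by linarith, ?_⟩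
    rw [abs_le]
    constructor <;> linarith

lemma wt_cont {k x : ℝ} (hx0 : 0 ≤ x) (hx : x < 1) :
    ContinuousOn (fun z : ℂ => ((wt k x z : ℝ) : ℂ)) (Metric.sphere 0 |(1 : ℝ)|) := by
  have hz : ∀ z ∈ Metric.sphere (0 : ℂ) |(1 : ℝ)|, ‖z‖ = 1 := by
    intro z hz; simpa using hz
  refine continuous_ofReal.comp_continuousOn ?_
  refine ContinuousOn.rpow_const (by fun_prop) fun z hz' => Or.inl ?_
  rw [norm_ne_zero_iff]
  exact one_sub_ne (by rw [norm_real, Real.norm_eq_abs, abs_of_nonneg hx0]; exact hx) (hz z hz')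

lemma Gl_cont {k x : ℝ} {y : ℂ} (hx0 : 0 ≤ x) (hx : x < 1) (hy : ‖y‖ < 1) :
    ContinuousOn (Gl k x y) (Metric.sphere 0 |(1 : ℝ)|) := by
  have hz : ∀ z ∈ Metric.sphere (0 : ℂ) |(1 : ℝ)|, ‖z‖ = 1 := by
    intro z hz; simpa using hz
  unfold Gl
  refine ContinuousOn.mul (ContinuousOn.mul ?_ (by fun_prop)) (wt_cont hx0 hx)
  exact ContinuousOn.inv₀ (by fun_prop) fun z hz' => one_sub_ne hy (hz z hz')

lemma avg_wt (k x : ℝ) :
    Real.circleAverage (fun z : ℂ => ((wt k x z : ℝ) : ℂ)) 0 1 = ((Dl k x : ℝ) : ℂ) := by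
  rw [Dl, Real.circleAverage, Real.circleAverage, intervalIntegral.integral_ofReal]
  simp [wt]

lemma avg_id (c : ℂ) : Real.circleAverage (fun z : ℂ => c * z) 0 1 = 0 := by
  have h : DiffContOnCl ℂ (fun z : ℂ => c * z) (Metric.ball 0 |(1 : ℝ)|) :=
    (show Differentiable ℂ (fun z : ℂ => c * z) by fun_prop).diffContOnCl
  rw [h.circleAverage]
  simp

lemma norm_avg_le {f : ℂ → ℂ} {B : ℝ} (h : ∀ z : ℂ, ‖z‖ = 1 → ‖f z‖ ≤ B) :
    ‖Real.circleAverage f 0 1‖ ≤ B := by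
  rw [Real.circleAverage_def, norm_smul]
  have h1 := intervalIntegral.norm_integral_le_of_norm_le_const (a := 0) (b := 2 * Real.pi)
    (f := fun θ => f (circleMap 0 1 θ)) (C := B) (fun θ _ => h _ (by simp))
  have hpi := Real.pi_pos
  rw [sub_zero, abs_of_pos (by positivity)] at h1
  rw [norm_inv, Real.norm_eq_abs, abs_of_pos (by positivity)]
  calc (2 * Real.pi)⁻¹ * ‖∫ θ in (0 : ℝ)..2 * Real.pi, f (circleMap 0 1 θ)‖
      ≤ (2 * Real.pi)⁻¹ * (B * (2 * Real.pi)) := by gcongr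
    _ = B := by field_simp

/-- the local estimate -/
lemma local_bd {k x : ℝ} {y : ℂ} (hk0 : 0 < k) (hk1 : k ≤ 1) (hx0 : 0 ≤ x)
    (hx : x ≤ 7072 / 10000) (hy : ‖y - x‖ ≤ 525 / 10000 * x) :
    ‖Real.circleAverage (Gl k x y) 0 1 - ((Dl k x : ℝ) : ℂ)‖ ≤ 75 * x * ‖y - x‖ := by
  have hyx : ‖y‖ ≤ 10525 / 10000 * x := by
    have h3 : ‖y‖ ≤ ‖y - x‖ + ‖(x : ℂ)‖ := by
      have := norm_add_le (y - x) (x : ℂ); rwa [sub_add_cancel] at this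
    rw [norm_real, Real.norm_eq_abs, abs_of_nonneg hx0] at h3
    linarith
  have hy1 : ‖y‖ ≤ 7444 / 10000 := by nlinarith
  have c1 : CircleIntegrable (Gl k x y) 0 1 :=
    (Gl_cont (k := k) hx0 (by linarith) (by linarith)).circleIntegrable'
  have c2 : CircleIntegrable (fun z : ℂ => ((wt k x z : ℝ) : ℂ)) 0 1 :=
    (wt_cont (k := k) hx0 (by linarith)).circleIntegrable'
  have c3 : CircleIntegrable (fun z : ℂ => (y - x) * z) 0 1 :=
    (show ContinuousOn (fun z : ℂ => (y - x) * z) (Metric.sphere 0 |(1 : ℝ)|) by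
      fun_prop).circleIntegrable'
  have e1 : Real.circleAverage (Gl k x y) 0 1 - ((Dl k x : ℝ) : ℂ) =
      Real.circleAverage (fun z : ℂ => Gl k x y z - ((wt k x z : ℝ) : ℂ) - (y - x) * z) 0 1 := by
    have h1 := Real.circleAverage_fun_sub (f₁ := fun z : ℂ => Gl k x y z - ((wt k x z : ℝ) : ℂ))
      (f₂ := fun z : ℂ => (y - x) * z) (c1.sub c2) c3
    rw [h1, avg_id, sub_zero]
    have h2 := Real.circleAverage_fun_sub (f₁ := Gl k x y)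
      (f₂ := fun z : ℂ => ((wt k x z : ℝ) : ℂ)) c1 c2
    rw [h2, avg_wt]
  rw [e1]
  refine norm_avg_le fun z hz => ?_
  have n1 : 1 - y * z ≠ 0 := one_sub_ne (by linarith) hz
  have n2 : 2556 / 10000 ≤ ‖1 - y * z‖ := by
    have := norm_sub_norm_le (1 : ℂ) (y * z)
    rw [norm_one, norm_mul, hz, mul_one] at this
    linarith
  have n3 : ‖(1 - y * z)⁻¹‖ ≤ 4 := by
    rw [norm_inv, inv_le_comm₀ (by linarith) (by norm_num)]
    linarith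
  obtain ⟨w0, w1, w2⟩ := wt_bd hk0 hk1 hx0 hx hz
  set w : ℝ := wt k x z with hw
  have e2 : Gl k x y z - ((w : ℝ) : ℂ) - (y - x) * z =
      (y - x) * z * (y * z * (1 - y * z)⁻¹ * w + (w - 1)) := by
    have h1 : (1 - y * z)⁻¹ * (1 - y * z) = 1 := inv_mul_cancel₀ n1
    rw [Gl, ← hw]
    linear_combination ((w : ℂ) + (y - x) * z * w) * h1
  rw [e2, norm_mul, norm_mul, hz, mul_one]
  have h2 : ‖y * z * (1 - y * z)⁻¹ * w + (w - 1)‖ ≤ 75 * x := by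
    refine (norm_add_le _ _).trans ?_
    have h3 : ‖y * z * (1 - y * z)⁻¹ * (w : ℂ)‖ ≤ 10525 / 10000 * x * 4 * 12 := by
      rw [norm_mul, norm_mul, norm_mul, hz, mul_one, norm_real, Real.norm_eq_abs, abs_of_nonneg w0]
      gcongr
    have h4 : ‖(w : ℂ) - 1‖ ≤ 24 * x := by
      rw [← ofReal_one, ← ofReal_sub, norm_real, Real.norm_eq_abs]
      exact w2
    linarith
  calc ‖y - x‖ * ‖y * z * (1 - y * z)⁻¹ * w + (w - 1)‖ ≤ ‖y - x‖ * (75 * x) := by gcongr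
    _ = _ := by ring

/-! ### the product -/

/-- the function whose mean is a product of local factors -/
noncomputable def VF (k a : ℝ) (S : Finset ℕ) (f : ℕ → ℂ) : ℂ :=
  ZZ S (tw (1 / 2 + (a : ℂ)) f) * (ZZ S (tw ((1 / 2 : ℝ) : ℂ) f))⁻¹ *
    ((‖ZZ S (tw ((1 / 2 : ℝ) : ℂ) f)‖ ^ (2 * k) : ℝ) : ℂ)

lemma VF_eq (k a : ℝ) (S : Finset ℕ) (f : ℕ → ℂ) :
    VF k a S f = ∏ p ∈ S, Gl k ((p : ℝ) ^ (-(1 / 2) : ℝ)) ((p : ℂ) ^ (-(1 / 2 + (a : ℂ)))) (f p) := by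
  rw [VF, ZZ, ZZ, ← Finset.prod_inv_distrib, norm_prod,
    ← Real.finsetProd_rpow _ _ fun p _ => norm_nonneg _, ofReal_prod, ← Finset.prod_mul_distrib,
    ← Finset.prod_mul_distrib]
  refine Finset.prod_congr rfl fun p _ => ?_
  rw [inv_inv, norm_inv, Real.inv_rpow (norm_nonneg _), ← Real.rpow_neg (norm_nonneg _), tw_half,
    Gl, wt]
  rfl

lemma ES_VF (k a : ℝ) (S : Finset ℕ) :
    ES S (VF k a S) = ∏ p ∈ S, Real.circleAverage
      (Gl k ((p : ℝ) ^ (-(1 / 2) : ℝ)) ((p : ℂ) ^ (-(1 / 2 + (a : ℂ))))) 0 1 := by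
  rw [← ES_prod (𝕜 := ℂ) S (fun p => Gl k ((p : ℝ) ^ (-(1 / 2) : ℝ))
    ((p : ℂ) ^ (-(1 / 2 + (a : ℂ)))))]
  congr 1
  ext f
  exact VF_eq k a S f

lemma norm_a {a : ℝ} (ha : 0 ≤ a) : ‖(a : ℂ)‖ = a := by
  rw [norm_real, Real.norm_eq_abs, abs_of_nonneg ha]

/-- the mean -/
lemma ES_VF_bd {S : Finset ℕ} {k a : ℝ} (hS : ∀ p ∈ S, p.Prime) (hk0 : 0 < k) (hk1 : k ≤ 1)
    (ha0 : 0 ≤ a) (ha : ∀ p ∈ S, a * Real.log p ≤ 1 / 20) (hsum : a * ∑ p ∈ S, Real.log p / p ≤ 1) :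
    ‖ES S (VF k a S) - ((∏ p ∈ S, Dl k ((p : ℝ) ^ (-(1 / 2) : ℝ)) : ℝ) : ℂ)‖ ≤
      79 * Real.exp 79 * (a * ∑ p ∈ S, Real.log p / p) *
        ∏ p ∈ S, Dl k ((p : ℝ) ^ (-(1 / 2) : ℝ)) := by
  have hD : ∀ p ∈ S, 1 ≤ Dl k ((p : ℝ) ^ (-(1 / 2) : ℝ)) := by
    intro p hp
    have := DDaux.Dl_one_le hk0 (hS p hp) (le_refl (0 : ℝ))
    rwa [add_zero] at this
  have hlog : ∀ p : ℕ, 0 ≤ Real.log p / p := fun p =>
    div_nonneg (Real.log_natCast_nonneg p) (by positivity)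
  have h1 := (prod_sub_le S (fun p => Real.circleAverage
      (Gl k ((p : ℝ) ^ (-(1 / 2) : ℝ)) ((p : ℂ) ^ (-(1 / 2 + (a : ℂ))))) 0 1)
    (fun p => Dl k ((p : ℝ) ^ (-(1 / 2) : ℝ))) (fun p => 79 * (a * (Real.log p / p)))
    (fun p hp => zero_le_one.trans (hD p hp))
    (fun p _ => mul_nonneg (by norm_num) (mul_nonneg ha0 (hlog p))) (fun p hp => by
      have ha' : ‖(a : ℂ)‖ * Real.log p ≤ 1 / 20 := by rw [norm_a ha0]; exact ha p hp
      obtain ⟨b1, b2, b3⟩ := shift_bd (hS p hp) ha'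
      have h2 := local_bd hk0 hk1 (by positivity : (0 : ℝ) ≤ (p : ℝ) ^ (-(1 / 2) : ℝ)) b3 b2
      refine h2.trans ?_
      rw [norm_a ha0] at b1
      have hx0 : 0 ≤ (p : ℝ) ^ (-(1 / 2) : ℝ) := by positivity
      have h3 : 75 * (p : ℝ) ^ (-(1 / 2) : ℝ) *
          ‖(p : ℂ) ^ (-(1 / 2 + (a : ℂ))) - (((p : ℝ) ^ (-(1 / 2) : ℝ) : ℝ) : ℂ)‖ ≤
          75 * (p : ℝ) ^ (-(1 / 2) : ℝ) *
            (105 / 100 * (p : ℝ) ^ (-(1 / 2) : ℝ) * (a * Real.log p)) := by gcongr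
      have h4 : 75 * (p : ℝ) ^ (-(1 / 2) : ℝ) *
            (105 / 100 * (p : ℝ) ^ (-(1 / 2) : ℝ) * (a * Real.log p)) =
          7875 / 100 * (a * (Real.log p / p)) := by
        calc 75 * (p : ℝ) ^ (-(1 / 2) : ℝ) *
            (105 / 100 * (p : ℝ) ^ (-(1 / 2) : ℝ) * (a * Real.log p)) =
            7875 / 100 * (a * (Real.log p * ((p : ℝ) ^ (-(1 / 2) : ℝ)) ^ 2)) := by ring
          _ = _ := by rw [inv_form]; ring
      have h5 : 0 ≤ a * (Real.log p / p) := mul_nonneg ha0 (hlog p)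
      have h6 : 79 * (a * (Real.log p / p)) ≤
          Dl k ((p : ℝ) ^ (-(1 / 2) : ℝ)) * (79 * (a * (Real.log p / p))) :=
        le_mul_of_one_le_left (by positivity) (hD p hp)
      linarith)).1
  rw [ES_VF, ofReal_prod]
  refine h1.trans ?_
  have hDn : 0 ≤ ∏ p ∈ S, Dl k ((p : ℝ) ^ (-(1 / 2) : ℝ)) :=
    Finset.prod_nonneg fun p hp => zero_le_one.trans (hD p hp)
  rw [mul_comm]
  refine mul_le_mul_of_nonneg_right ?_ hDn
  set s : ℝ := a * ∑ p ∈ S, Real.log p / p with hs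
  have hs0 : 0 ≤ s := mul_nonneg ha0 (Finset.sum_nonneg fun p _ => hlog p)
  have h2 : ∏ p ∈ S, (1 + 79 * (a * (Real.log p / p))) ≤ Real.exp (79 * s) := by
    rw [hs, Finset.mul_sum, Finset.mul_sum, Real.exp_sum]
    refine Finset.prod_le_prod (fun p _ => ?_) fun p _ => ?_
    · have := mul_nonneg ha0 (hlog p)
      linarith
    · have := Real.add_one_le_exp (79 * (a * (Real.log p / p)))
      linarith
  have h3 : Real.exp (79 * s) - 1 ≤ 79 * Real.exp 79 * s := by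
    have h4 := Real.one_sub_le_exp_neg (79 * s)
    have h5 : (1 - 79 * s) * Real.exp (79 * s) ≤ 1 := by
      calc (1 - 79 * s) * Real.exp (79 * s) ≤ Real.exp (-(79 * s)) * Real.exp (79 * s) := by gcongr
        _ = 1 := by rw [← Real.exp_add]; simp
    have h6 : Real.exp (79 * s) ≤ Real.exp 79 := Real.exp_le_exp.mpr (by linarith)
    have h7 : 79 * s * Real.exp (79 * s) ≤ 79 * s * Real.exp 79 := by gcongr
    nlinarith
  linarith

/-- the lower bound for the Euler product -/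
lemma Dl_low {S : Finset ℕ} {k : ℝ} (hS : ∀ p ∈ S, p.Prime) (hk0 : 0 < k) (hk1 : k ≤ 1) :
    Real.exp (k ^ 2 * ∑ p ∈ S, 1 / (p : ℝ) - 6) ≤
      ∏ p ∈ S, Dl k ((p : ℝ) ^ (-(1 / 2) : ℝ)) := by
  have h1 : ∀ p ∈ S, Real.exp (k ^ 2 * (1 / (p : ℝ)) - 3 * ((p : ℝ) ^ 2)⁻¹) ≤
      Dl k ((p : ℝ) ^ (-(1 / 2) : ℝ)) := by
    intro p hp
    have h2 := prime_rpow_le (hS p hp) (le_refl (1 / 2 : ℝ))
    have h3 := Dl_ge (k := k) (x := (p : ℝ) ^ (-(1 / 2) : ℝ)) (by linarith) (by positivity)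
      (by linarith)
    refine le_trans ?_ h3
    have h4 : 0 ≤ k ^ 2 * ((p : ℝ) ^ (-(1 / 2) : ℝ)) ^ 2 := by positivity
    refine le_trans (Real.exp_le_exp.mpr ?_) (one_add_ge_exp (by linarith))
    have h5 : (k ^ 2 * ((p : ℝ) ^ (-(1 / 2) : ℝ)) ^ 2) ^ 2 = k ^ 4 * ((p : ℝ) ^ 2)⁻¹ := by
      rw [← inv_form4]; ring
    rw [h5, inv_form]
    have h6 : k ^ 4 ≤ 1 := pow_le_one₀ hk0.le hk1
    have h7 : k ^ 4 * ((p : ℝ) ^ 2)⁻¹ ≤ 1 * ((p : ℝ) ^ 2)⁻¹ :=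
      mul_le_mul_of_nonneg_right h6 (by positivity)
    linarith
  have h2 := Finset.prod_le_prod (fun p _ => (Real.exp_pos _).le) h1
  refine le_trans ?_ h2
  rw [← Real.exp_sum, Finset.sum_sub_distrib, ← Finset.mul_sum, ← Finset.mul_sum]
  apply Real.exp_le_exp.mpr
  have h3 := XB.sum_inv_sq hS
  linarith

/-! ### pointwise estimates -/

/-- the truncation of the exponentials -/
lemma pt1 (l : ℕ) {k : ℝ} (hk0 : 0 ≤ k) (hk1 : k ≤ 1) (Z P : ℂ) :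
    ‖Z * (Ntr l (k - 1) P * (starRingEnd ℂ) (Ntr l k P)) -
      Z * (cexp (((k - 1 : ℝ) : ℂ) * P) * (starRingEnd ℂ) (cexp ((k : ℂ) * P)))‖ ≤
    2 * Real.exp (-l) * (1 / 2 * (‖Z‖ ^ 2 * Real.exp (2 * ‖P‖) ^ 2) +
      1 / 2 * Real.exp (2 * ‖P‖) ^ 2) := by
  have a1 : |k - 1| ≤ 1 := by rw [abs_le]; constructor <;> linarith
  have a2 : |k| ≤ 1 := by rw [abs_le]; constructor <;> linarith
  have t1 := Ntr_tail l a1 P
  have t2 := Ntr_tail l a2 P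
  have n2 := norm_Ntr_le l a2 P
  set N1 := Ntr l (k - 1) P with hN1
  set N2 := Ntr l k P with hN2
  set E1 := cexp (((k - 1 : ℝ) : ℂ) * P) with hE1
  set E2 := cexp ((k : ℂ) * P) with hE2
  have n1 : ‖E1‖ ≤ Real.exp ‖P‖ := by
    rw [hE1, norm_exp]
    apply Real.exp_le_exp.mpr
    rw [re_ofReal_mul]
    have h5 : |(k - 1) * P.re| ≤ ‖P‖ := by
      rw [abs_mul]
      calc |k - 1| * |P.re| ≤ 1 * ‖P‖ := mul_le_mul a1 (abs_re_le_norm P) (abs_nonneg _) zero_le_one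
        _ = ‖P‖ := one_mul _
    exact (le_abs_self _).trans h5
  have e1 : Z * (N1 * (starRingEnd ℂ) N2) - Z * (E1 * (starRingEnd ℂ) E2) =
      Z * ((N1 - E1) * (starRingEnd ℂ) N2 + E1 * (starRingEnd ℂ) (N2 - E2)) := by
    rw [map_sub]; ring
  have h1 : ‖(N1 - E1) * (starRingEnd ℂ) N2 + E1 * (starRingEnd ℂ) (N2 - E2)‖ ≤
      2 * Real.exp (-l) * Real.exp (2 * ‖P‖) ^ 2 := by
    refine (norm_add_le _ _).trans ?_
    rw [norm_mul, norm_mul, RCLike.norm_conj, RCLike.norm_conj, norm_sub_rev N1, norm_sub_rev N2]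
    calc ‖E1 - N1‖ * ‖N2‖ + ‖E1‖ * ‖E2 - N2‖ ≤
          (Real.exp (-l) * Real.exp (3 * ‖P‖)) * Real.exp ‖P‖ +
            Real.exp ‖P‖ * (Real.exp (-l) * Real.exp (3 * ‖P‖)) := by gcongr
      _ = 2 * Real.exp (-l) * (Real.exp (3 * ‖P‖) * Real.exp ‖P‖) := by ring
      _ = _ := by
          rw [← Real.exp_add, ← Real.exp_nat_mul, Nat.cast_ofNat]
          congr 2; ring
  rw [e1, norm_mul]
  have h2 := amgm ‖Z‖ 1 (Real.exp (2 * ‖P‖) ^ 2) (by positivity)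
  rw [one_pow, one_mul, mul_one] at h2
  calc ‖Z‖ * ‖(N1 - E1) * (starRingEnd ℂ) N2 + E1 * (starRingEnd ℂ) (N2 - E2)‖ ≤
        ‖Z‖ * (2 * Real.exp (-l) * Real.exp (2 * ‖P‖) ^ 2) := by gcongr
    _ = 2 * Real.exp (-l) * (‖Z‖ * Real.exp (2 * ‖P‖) ^ 2) := by ring
    _ ≤ _ := by gcongr

/-- the comparison with the Euler products -/
lemma pt2 {A : ℕ} {S : Finset ℕ} {k : ℝ} (a : ℝ) (hS : ∀ p ∈ S, p.Prime) (hk0 : 0 ≤ k)
    (hk1 : k ≤ 1) {f : ℕ → ℂ} (hf : ∀ n, ‖f n‖ = 1) :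
    ‖ZZ S (tw (1 / 2 + (a : ℂ)) f) *
        (cexp (((k - 1 : ℝ) : ℂ) * Pj A S (tw ((1 / 2 : ℝ) : ℂ) f)) *
          (starRingEnd ℂ) (cexp ((k : ℂ) * Pj A S (tw ((1 / 2 : ℝ) : ℂ) f)))) - VF k a S f‖ ≤
      (Real.exp (3 * rho A S) - 1) *
        (1 / 2 * (‖ZZ S (tw (1 / 2 + (a : ℂ)) f)‖ ^ 2 * Wt (1 - k) S f) +
          1 / 2 * ‖ZZ S (tw ((1 / 2 : ℝ) : ℂ) f)‖ ^ (2 * k)) := by
  set Z := ZZ S (tw (1 / 2 + (a : ℂ)) f) with hZ
  set P := Pj A S (tw ((1 / 2 : ℝ) : ℂ) f) with hP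
  set R := Rm A S (tw ((1 / 2 : ℝ) : ℂ) f) with hR
  have hR1 : ‖R‖ ≤ rho A S := norm_Rm_le A hS le_rfl hf
  have hρ := rho_nonneg A S
  have hZ0 : ZZ S (tw ((1 / 2 : ℝ) : ℂ) f) = cexp (P + R) := ZZ_tw_eq A hS le_rfl hf
  have hW0 : ‖ZZ S (tw ((1 / 2 : ℝ) : ℂ) f)‖ ^ (2 * k) =
      Real.exp (2 * k * P.re + 2 * k * R.re) := norm_ZZ_rpow A hS le_rfl hf k
  set r : ℝ := ‖ZZ S (tw ((1 / 2 : ℝ) : ℂ) f)‖ with hr
  have hr0 : 0 < r := norm_pos_iff.mpr (by rw [hZ0]; exact exp_ne_zero _)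
  set W : ℝ := r ^ (2 * k) with hW
  have hWp : 0 < W := Real.rpow_pos_of_pos hr0 _
  set δ : ℂ := -R + ((2 * k * R.re : ℝ) : ℂ) with hδ
  have hV : VF k a S f = Z * (cexp (((k - 1 : ℝ) : ℂ) * P) * (starRingEnd ℂ) (cexp ((k : ℂ) * P))) *
      cexp δ := by
    have h1 : (starRingEnd ℂ) (cexp ((k : ℂ) * P)) = cexp ((k : ℂ) * (starRingEnd ℂ) P) := by
      rw [← exp_conj, map_mul, conj_ofReal]
    have h2 : (k : ℂ) * P + (k : ℂ) * (starRingEnd ℂ) P = ((2 * k * P.re : ℝ) : ℂ) := by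
      rw [← mul_add, add_conj]
      push_cast
      ring
    have h3 : VF k a S f = Z * (cexp (P + R))⁻¹ * ((W : ℝ) : ℂ) := by
      rw [VF, ← hZ, ← hr, ← hW, hZ0]
    have h4 : cexp (P + R) ≠ 0 := exp_ne_zero _
    have h5 : (cexp (P + R))⁻¹ * ((W : ℝ) : ℂ) =
        cexp (((k - 1 : ℝ) : ℂ) * P) * cexp ((k : ℂ) * (starRingEnd ℂ) P) * cexp δ := by
      rw [hW0, ofReal_exp, ← exp_neg, ← exp_add, ← exp_add, ← exp_add]
      congr 1
      rw [hδ, ofReal_add, ← h2]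
      push_cast
      ring
    rw [h3, h1, mul_assoc, h5]
    ring
  have hδn : ‖δ‖ ≤ 3 * rho A S := by
    rw [hδ]
    refine (norm_add_le _ _).trans ?_
    rw [norm_neg, norm_real, Real.norm_eq_abs, abs_mul, abs_of_nonneg (by positivity : 0 ≤ 2 * k)]
    have h1 := (abs_re_le_norm R).trans hR1
    have h2 := abs_nonneg R.re
    nlinarith
  have h1 : Z * (cexp (((k - 1 : ℝ) : ℂ) * P) * (starRingEnd ℂ) (cexp ((k : ℂ) * P))) - VF k a S f =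
      VF k a S f * (cexp (-δ) - 1) := by
    have h2 : cexp δ * cexp (-δ) = 1 := by rw [← exp_add]; simp
    rw [hV]
    linear_combination (-(Z * (cexp (((k - 1 : ℝ) : ℂ) * P) *
      (starRingEnd ℂ) (cexp ((k : ℂ) * P))))) * h2
  rw [h1, norm_mul, mul_comm]
  have h3 : ‖cexp (-δ) - 1‖ ≤ Real.exp (3 * rho A S) - 1 := by
    refine (norm_exp_sub_one_le' _).trans ?_
    rw [norm_neg]
    have := Real.exp_le_exp.mpr hδn
    linarith
  have h4 : ‖VF k a S f‖ ≤ 1 / 2 * (‖Z‖ ^ 2 * Wt (1 - k) S f) + 1 / 2 * W := by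
    rw [VF, ← hZ, norm_mul, norm_mul, norm_inv, norm_real, Real.norm_eq_abs, ← hr, ← hW,
      abs_of_pos hWp, Wt_eq, ← hr]
    have h5 : r ^ (2 * (-(1 - k))) = W * (r⁻¹) ^ 2 := by
      rw [hW, ← Real.rpow_natCast r⁻¹ 2, ← Real.rpow_neg_one,
        ← Real.rpow_mul hr0.le, ← Real.rpow_add hr0]
      congr 1
      push_cast
      ring
    rw [h5]
    have h6 := amgm (‖Z‖ * r⁻¹) 1 W hWp.le
    rw [one_pow, one_mul, mul_one] at h6
    calc ‖Z‖ * r⁻¹ * W ≤ _ := h6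
      _ = _ := by ring
  exact mul_le_mul h3 h4 (norm_nonneg _) ((norm_nonneg _).trans h3)

lemma bs_inv {S : Finset ℕ} (hS : ∀ p ∈ S, p.Prime) :
    BS S (fun f => (ZZ S (tw ((1 / 2 : ℝ) : ℂ) f))⁻¹) := by
  have e : ∀ f : ℕ → ℂ, (ZZ S (tw ((1 / 2 : ℝ) : ℂ) f))⁻¹ =
      ∏ p ∈ S, (1 - tw ((1 / 2 : ℝ) : ℂ) f p) := by
    intro f
    rw [ZZ, ← Finset.prod_inv_distrib]
    exact Finset.prod_congr rfl fun p _ => inv_inv _
  simp only [e]
  refine ⟨?_, ∏ p ∈ S, (2 : ℝ), fun ω => ?_⟩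
  · refine continuous_finsetProd _ fun p _ => ?_
    exact continuous_const.sub (continuous_const.mul (continuous_ext S p))
  · rw [norm_prod]
    refine Finset.prod_le_prod (fun p _ => norm_nonneg _) fun p hp => ?_
    refine (norm_sub_le _ _).trans ?_
    rw [norm_one, norm_tw_ext S ω _ (hS p hp).ne_zero, ofReal_re]
    have := (prime_rpow_le (hS p hp) (le_refl (1 / 2 : ℝ))).2
    linarith

end BlkFAux

open K1.BlkShift BlkFAux in
/-- (Z8) one bottom block, first moment -/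
theorem stBlkF : StBlkF := by
  obtain ⟨C3, hC3, hsq⟩ := sq_moment
  obtain ⟨C4, hC4, hexp⟩ := ES_exp_norm (q := 2) (by norm_num)
  refine ⟨Real.exp (C3 + 6) + 2 * C4 + 79 * Real.exp 79 + 2, by positivity,
    fun A l S k a hA hS hk0 hk1 ha0 ha hsum hcond => ?_⟩
  set C₁ : ℝ := Real.exp (C3 + 6) + 2 * C4 + 79 * Real.exp 79 + 2 with hC1
  set D := ∏ p ∈ S, Dl k ((p : ℝ) ^ (-(1 / 2) : ℝ)) with hD
  have hDS : DS k (1 / 2) S = D := DS_eq S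
  have hD1 : 1 ≤ D := by rw [← hDS]; exact DS_ge_one hk0 le_rfl hS
  have hρ := rho_nonneg A S
  have hr0 : 0 ≤ Real.exp (3 * rho A S) - 1 := by
    have := Real.one_le_exp (show 0 ≤ 3 * rho A S by linarith)
    linarith
  have ha' : ∀ p ∈ S, ‖(a : ℂ)‖ * Real.log p ≤ 1 / 20 := fun p hp => by
    rw [norm_a ha0]; exact ha p hp
  have hsum' : ‖(a : ℂ)‖ * ∑ p ∈ S, Real.log p / p ≤ 1 := by rw [norm_a ha0]; exact hsum
  have hre : 0 < (1 / 2 + (a : ℂ)).re := by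
    have : (1 / 2 + (a : ℂ)).re = 1 / 2 + a := by simp
    rw [this]; linarith
  have q1 := hsq S k (a : ℂ) hS hk0.le hk1 ha' hsum'
  have hT0 : 0 ≤ ∑ p ∈ S, 1 / (p : ℝ) := Finset.sum_nonneg fun p _ => by positivity
  have hCC : ∀ b : ℂ, (∀ p ∈ S, ‖b‖ * Real.log p ≤ 1 / 20) →
      16 * Real.exp (C4 * ∑ p ∈ S, (yp (1 / 2 + b).re (1 / 2) p) ^ 2) ≤ Real.exp (l / 2) := by
    intro b hb
    refine le_trans ?_ hcond
    refine mul_le_mul_of_nonneg_left (Real.exp_le_exp.mpr ?_) (by norm_num)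
    have h1 : ∑ p ∈ S, (yp (1 / 2 + b).re (1 / 2) p) ^ 2 ≤ 2 * ∑ p ∈ S, 1 / (p : ℝ) := by
      rw [Finset.mul_sum]
      refine Finset.sum_le_sum fun p hp => ?_
      have h1 := pow_le_pow_left₀ (yp_nonneg _ _ p) (yp_bd (hS p hp) (hb p hp)).1 2
      rw [mul_pow, inv_form] at h1
      have h2 : 0 ≤ 1 / (p : ℝ) := by positivity
      nlinarith
    calc C4 * ∑ p ∈ S, (yp (1 / 2 + b).re (1 / 2) p) ^ 2 ≤ C4 * (2 * ∑ p ∈ S, 1 / (p : ℝ)) := by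
          gcongr
      _ ≤ C₁ * ∑ p ∈ S, 1 / (p : ℝ) := by
          have : 2 * C4 ≤ C₁ := by
            rw [hC1]; have := Real.exp_pos (C3 + 6); have := Real.exp_pos 79; linarith
          nlinarith
  have hE1 : ES S (fun f => ‖ZZ S (tw (1 / 2 + (a : ℂ)) f)‖ ^ 2 *
      Real.exp (2 * ‖Pj A S (tw ((1 / 2 : ℝ) : ℂ) f)‖) ^ 2) ≤ Real.exp (l / 2) := by
    have h1 := hexp A 1 S (1 / 2 + (a : ℂ)) (1 / 2) hA (by norm_num) hre hS
      (fun p hp => (yp_bd (hS p hp) (ha' p hp)).2)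
    simp only [pow_one] at h1
    exact h1.trans (hCC _ ha')
  have hE2 : ES S (fun f => Real.exp (2 * ‖Pj A S (tw ((1 / 2 : ℝ) : ℂ) f)‖) ^ 2) ≤
      Real.exp (l / 2) := by
    have hz : ∀ p ∈ S, ‖(0 : ℂ)‖ * Real.log p ≤ 1 / 20 := fun p _ => by
      rw [norm_zero, zero_mul]; norm_num
    have h1 := hexp A 0 S (1 / 2 + 0) (1 / 2) hA (by norm_num) (by simp) hS
      (fun p hp => (yp_bd (hS p hp) (hz p hp)).2)
    have e1 : ∀ f : ℕ → ℂ, ‖(ZZ S (tw (1 / 2 + 0) f)) ^ 0‖ ^ 2 *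
        Real.exp (2 * ‖Pj A S (tw ((1 / 2 : ℝ) : ℂ) f)‖) ^ 2 =
        Real.exp (2 * ‖Pj A S (tw ((1 / 2 : ℝ) : ℂ) f)‖) ^ 2 := by
      intro f; rw [pow_zero, norm_one, one_pow, one_mul]
    simp only [e1] at h1
    exact h1.trans (hCC _ hz)
  -- the functions
  have bZ : BS S (fun f => ZZ S (tw (1 / 2 + (a : ℂ)) f)) := bs_ZZ hS hre
  have bP : BS S (fun f => Pj A S (tw ((1 / 2 : ℝ) : ℂ) f)) := bs_Pj A S S _
  have bN1 : BS S (fun f => Ntr l (k - 1) (Pj A S (tw ((1 / 2 : ℝ) : ℂ) f))) := bs_Ntr l _ bP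
  have bN2 : BS S (fun f => Ntr l k (Pj A S (tw ((1 / 2 : ℝ) : ℂ) f))) := bs_Ntr l _ bP
  have bWt : BS S (Wt (1 - k) S) := bs_Wt (by linarith) hS
  have bW : BS S (fun f => ‖ZZ S (tw ((1 / 2 : ℝ) : ℂ) f)‖ ^ (2 * k)) :=
    bs_ZZ_rpow hS (le_refl (1 / 2 : ℝ)) k hk0.le
  have bWc : BS S (fun f => ((‖ZZ S (tw ((1 / 2 : ℝ) : ℂ) f)‖ ^ (2 * k) : ℝ) : ℂ)) := by
    obtain ⟨h1, C, h2⟩ := bW
    exact ⟨continuous_ofReal.comp h1, C, fun ω => by rw [norm_real]; exact h2 ω⟩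
  have bV : BS S (VF k a S) := (bZ.mul (bs_inv hS)).mul bWc
  have bE : BS S (fun f => Real.exp (2 * ‖Pj A S (tw ((1 / 2 : ℝ) : ℂ) f)‖)) :=
    bP.exp_norm 2 (by norm_num)
  have bE2 : BS S (fun f => Real.exp (2 * ‖Pj A S (tw ((1 / 2 : ℝ) : ℂ) f)‖) ^ 2) := by
    simp only [sq]; exact bE.mul_real bE
  have hcast : ∀ f : ℕ → ℂ, Pj A S (tw (1 / 2) f) = Pj A S (tw ((1 / 2 : ℝ) : ℂ) f) := by
    intro f; congr 2; push_cast; rfl
  simp only [hcast]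
  set Z : (ℕ → ℂ) → ℂ := fun f => ZZ S (tw (1 / 2 + (a : ℂ)) f) with hZ
  set P : (ℕ → ℂ) → ℂ := fun f => Pj A S (tw ((1 / 2 : ℝ) : ℂ) f) with hP
  set W : (ℕ → ℂ) → ℝ := fun f => ‖ZZ S (tw ((1 / 2 : ℝ) : ℂ) f)‖ ^ (2 * k) with hW
  set X : (ℕ → ℂ) → ℝ := fun f => Real.exp (2 * ‖Pj A S (tw ((1 / 2 : ℝ) : ℂ) f)‖) ^ 2 with hX
  set r : ℝ := Real.exp (3 * rho A S) - 1 with hr
  have hF : ∀ f, ZZ S (tw (1 / 2 + (a : ℂ)) f) *
      (Ntr l (k - 1) (Pj A S (tw ((1 / 2 : ℝ) : ℂ) f)) *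
        (starRingEnd ℂ) (Ntr l k (Pj A S (tw ((1 / 2 : ℝ) : ℂ) f)))) =
      Z f * (Ntr l (k - 1) (P f) * (starRingEnd ℂ) (Ntr l k (P f))) := fun f => rfl
  simp only [hF]
  have bF : BS S (fun f => Z f * (Ntr l (k - 1) (P f) * (starRingEnd ℂ) (Ntr l k (P f)))) :=
    bZ.mul (bN1.mul bN2.conj)
  set U : (ℕ → ℂ) → ℝ := fun f => 2 * Real.exp (-l) * (1 / 2 * (‖Z f‖ ^ 2 * X f) + 1 / 2 * X f) +
      r * (1 / 2 * (‖Z f‖ ^ 2 * Wt (1 - k) S f) + 1 / 2 * W f) with hU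
  have w1 : BS S (fun f => ‖Z f‖ ^ 2 * X f) := bZ.norm_sq.mul_real bE2
  have w2 : BS S (fun f => ‖Z f‖ ^ 2 * Wt (1 - k) S f) := bZ.norm_sq.mul_real bWt
  have hpt : ∀ ω, ‖Z (ext S ω) * (Ntr l (k - 1) (P (ext S ω)) *
      (starRingEnd ℂ) (Ntr l k (P (ext S ω)))) - VF k a S (ext S ω)‖ ≤ U (ext S ω) := by
    intro ω
    have h1 := pt1 l hk0.le hk1 (Z (ext S ω)) (P (ext S ω))
    have h2 := pt2 (A := A) a hS hk0.le hk1 (norm_ext S ω)
    have h3 := norm_add_le (Z (ext S ω) * (Ntr l (k - 1) (P (ext S ω)) *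
        (starRingEnd ℂ) (Ntr l k (P (ext S ω)))) -
      Z (ext S ω) * (cexp (((k - 1 : ℝ) : ℂ) * P (ext S ω)) *
        (starRingEnd ℂ) (cexp ((k : ℂ) * P (ext S ω)))))
      (Z (ext S ω) * (cexp (((k - 1 : ℝ) : ℂ) * P (ext S ω)) *
        (starRingEnd ℂ) (cexp ((k : ℂ) * P (ext S ω)))) - VF k a S (ext S ω))
    rw [sub_add_sub_cancel] at h3
    exact h3.trans (add_le_add h1 h2)
  have i1 : Integrable (fun ω : S → ℝ => 1 / 2 * (‖Z (ext S ω)‖ ^ 2 * X (ext S ω)) +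
      1 / 2 * X (ext S ω)) (Measure.pi fun _ => mu0) :=
    (w1.integrable.const_mul (1 / 2)).add (bE2.integrable.const_mul (1 / 2))
  have i2 : Integrable (fun ω : S → ℝ => 1 / 2 * (‖Z (ext S ω)‖ ^ 2 * Wt (1 - k) S (ext S ω)) +
      1 / 2 * W (ext S ω)) (Measure.pi fun _ => mu0) :=
    (w2.integrable.const_mul (1 / 2)).add (bW.integrable.const_mul (1 / 2))
  have hUint : Integrable (fun ω : S → ℝ => U (ext S ω)) (Measure.pi fun _ => mu0) :=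
    (i1.const_mul (2 * Real.exp (-l))).add (i2.const_mul r)
  have hUval : ES S U = 2 * Real.exp (-l) * (1 / 2 * ES S (fun f => ‖Z f‖ ^ 2 * X f) +
      1 / 2 * ES S X) + r * (1 / 2 * ES S (fun f => ‖Z f‖ ^ 2 * Wt (1 - k) S f) +
      1 / 2 * ES S W) := by
    unfold ES
    simp only [hU]
    rw [integral_add (i1.const_mul (2 * Real.exp (-l))) (i2.const_mul r), integral_const_mul,
      integral_const_mul, integral_add (w1.integrable.const_mul (1 / 2))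
        (bE2.integrable.const_mul (1 / 2)), integral_add (w2.integrable.const_mul (1 / 2))
        (bW.integrable.const_mul (1 / 2)), integral_const_mul, integral_const_mul,
      integral_const_mul, integral_const_mul]
  have hdiff : ‖ES S (fun f => Z f * (Ntr l (k - 1) (P f) * (starRingEnd ℂ) (Ntr l k (P f)))) -
      ES S (VF k a S)‖ ≤ ES S U := by
    unfold ES
    rw [← integral_sub bF.integrable bV.integrable]
    refine (norm_integral_le_integral_norm _).trans ?_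
    exact integral_mono (bF.integrable.sub bV.integrable).norm hUint hpt
  have hmean := ES_VF_bd hS hk0 hk1 ha0 ha hsum
  rw [← hD] at hmean
  have hESW : ES S W = D := hDS
  have g1 : ES S (fun f => ‖Z f‖ ^ 2 * Wt (1 - k) S f) ≤ Real.exp (C3 + 6) * D := by
    refine q1.trans ?_
    calc Real.exp (C3 + k ^ 2 * ∑ p ∈ S, 1 / (p : ℝ)) =
          Real.exp (C3 + 6) * Real.exp (k ^ 2 * ∑ p ∈ S, 1 / (p : ℝ) - 6) := by
          rw [← Real.exp_add]; congr 1; ring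
      _ ≤ _ := by gcongr; exact Dl_low hS hk0 hk1
  have g2 : 2 * Real.exp (-l) * (1 / 2 * ES S (fun f => ‖Z f‖ ^ 2 * X f) + 1 / 2 * ES S X) ≤
      2 * Real.exp (-(l / 2)) * D := by
    have e1 : 1 / 2 * ES S (fun f => ‖Z f‖ ^ 2 * X f) + 1 / 2 * ES S X ≤ Real.exp (l / 2) := by
      linarith
    calc 2 * Real.exp (-l) * (1 / 2 * ES S (fun f => ‖Z f‖ ^ 2 * X f) + 1 / 2 * ES S X) ≤
          2 * Real.exp (-l) * Real.exp (l / 2) := by gcongr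
      _ = 2 * (Real.exp (-l) * Real.exp (l / 2)) := by ring
      _ = 2 * Real.exp (-(l / 2)) := by rw [← Real.exp_add]; congr 2; ring
      _ ≤ _ := le_mul_of_one_le_right (by positivity) hD1
  have g3 : r * (1 / 2 * ES S (fun f => ‖Z f‖ ^ 2 * Wt (1 - k) S f) + 1 / 2 * ES S W) ≤
      r * ((Real.exp (C3 + 6) + 1) * D) := by
    refine mul_le_mul_of_nonneg_left ?_ hr0
    rw [hESW]
    have h1 : 0 ≤ Real.exp (C3 + 6) * D := by positivity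
    have h2 : 0 ≤ D := by linarith
    linarith
  set s : ℝ := a * ∑ p ∈ S, Real.log p / p with hs
  have hs0 : 0 ≤ s := mul_nonneg ha0 (Finset.sum_nonneg fun p _ =>
    div_nonneg (Real.log_natCast_nonneg p) (by positivity))
  have hfin := norm_add_le (ES S (fun f => Z f * (Ntr l (k - 1) (P f) *
    (starRingEnd ℂ) (Ntr l k (P f)))) - ES S (VF k a S)) (ES S (VF k a S) - ((D : ℝ) : ℂ))
  rw [sub_add_sub_cancel] at hfin
  refine hfin.trans ?_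
  rw [hUval] at hdiff
  have hη := Real.exp_pos (-((l : ℝ) / 2))
  have hp1 := Real.exp_pos (C3 + 6)
  have hp2 := Real.exp_pos (79 : ℝ)
  have hD0 : 0 ≤ D := by linarith
  have k1 : r * ((Real.exp (C3 + 6) + 1) * D) ≤ C₁ * r * D := by
    have h1 : (Real.exp (C3 + 6) + 1) ≤ C₁ := by rw [hC1]; linarith
    calc r * ((Real.exp (C3 + 6) + 1) * D) ≤ r * (C₁ * D) := by gcongr
      _ = _ := by ring
  have k2 : 2 * Real.exp (-(l / 2)) * D ≤ C₁ * Real.exp (-(l / 2)) * D := by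
    have h1 : 2 ≤ C₁ := by rw [hC1]; linarith
    gcongr
  have k3 : 79 * Real.exp 79 * s * D ≤ C₁ * s * D := by
    have h1 : 79 * Real.exp 79 ≤ C₁ := by rw [hC1]; linarith
    gcongr
  calc _ ≤ (2 * Real.exp (-(l / 2)) * D + r * ((Real.exp (C3 + 6) + 1) * D)) +
        79 * Real.exp 79 * s * D := add_le_add (hdiff.trans (add_le_add g2 g3)) hmean
    _ ≤ (C₁ * Real.exp (-(l / 2)) * D + C₁ * r * D) + C₁ * s * D :=
        add_le_add (add_le_add k2 k1) k3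
    _ = _ := by ring

end K9
end Pool.Agent.Lib.MP_973905_nt
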