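import Pool.Agent.Lib.MP_973905_nt.K9.Stmts
import Pool.Agent.Lib.MP_973905_nt.K1.RAapprox
import Pool.Agent.Lib.MP_973905_nt.Sums

/-! Module (Z9): the bottom blocks, first moment. -/

namespace Pool.Agent.Lib.MP_973905_nt
namespace K9

open MeasureTheory ProbabilityTheory Complex Filter Topology K1 K4 K5

namespace BotFAux

open K1.RAx

/-- The errors of all the blocks are small for large `M`. -/
lemma small_err {C₁ Ψ δ : ℝ} (hδ : 0 < δ) : ∀ᶠ M : ℕ in atTop,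
    C₁ * (6 * (4 * (2 : ℝ) ^ (-(((M : ℝ) - 3) / 2))) +
        2 * Real.exp (-(5 * Real.exp (3 / 4 * (M : ℝ)))) + Ψ * Real.exp (-(M : ℝ))) ≤ δ ∧
    3 * (4 * (2 : ℝ) ^ (-(((M : ℝ) - 3) / 2))) ≤ 1 ∧ Ψ * Real.exp (-(M : ℝ)) ≤ 1 / 20 := by
  have t1 : Tendsto (fun M : ℕ => (2 : ℝ) ^ (-(((M : ℝ) - 3) / 2))) atTop (𝓝 0) := by
    have h1 : Tendsto (fun M : ℕ => (((M : ℝ) - 3) / 2)) atTop atTop :=
      (tendsto_atTop_add_const_right _ (-3) tendsto_natCast_atTop_atTop).atTop_div_const (by norm_num)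
    have h2 : Tendsto (fun x : ℝ => (2 : ℝ) ^ (-x)) atTop (𝓝 0) := by
      have : (fun x : ℝ => (2 : ℝ) ^ (-x)) = fun x : ℝ => Real.exp (-(Real.log 2 * x)) := by
        ext x; rw [Real.rpow_def_of_pos (by norm_num)]; congr 1; ring
      rw [this]
      exact Real.tendsto_exp_neg_atTop_nhds_zero.comp
        (tendsto_id.const_mul_atTop (Real.log_pos (by norm_num)))
    exact h2.comp h1
  have t3 : Tendsto (fun M : ℕ => Real.exp (-(5 * Real.exp (3 / 4 * (M : ℝ))))) atTop (𝓝 0) := by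
    refine Real.tendsto_exp_neg_atTop_nhds_zero.comp ?_
    refine Tendsto.const_mul_atTop (by norm_num) (Real.tendsto_exp_atTop.comp ?_)
    exact Tendsto.const_mul_atTop (by norm_num) tendsto_natCast_atTop_atTop
  have t5 : Tendsto (fun M : ℕ => Real.exp (-(M : ℝ))) atTop (𝓝 0) :=
    Real.tendsto_exp_neg_atTop_nhds_zero.comp tendsto_natCast_atTop_atTop
  have s1 := ((((t1.const_mul 4).const_mul 6).add (t3.const_mul 2)).add
    (t5.const_mul Ψ)).const_mul C₁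
  have s2 := (t1.const_mul 4).const_mul 3
  have s3 := t5.const_mul Ψ
  simp only [mul_zero, add_zero] at s1 s2 s3
  exact (s1.eventually (eventually_le_nhds hδ)).and
    ((s2.eventually (eventually_le_nhds zero_lt_one)).and
      (s3.eventually (eventually_le_nhds (by norm_num))))

lemma EBf_eq {T : ℝ} {M : ℕ} {k a : ℝ} {j : ℕ} (hj : j ∈ Finset.range (JJ T + 1)) :
    EBf T M k a j = ES (Sj T M (JJ T) j) (fun f => ZZ (Sj T M (JJ T) j) (tw (1 / 2 + (a : ℂ)) f) *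
      (Ntr (ll M (JJ T) j) (k - 1) (Pj M (Sj T M (JJ T) j) (tw (1 / 2) f)) *
        (starRingEnd ℂ) (Ntr (ll M (JJ T) j) k (Pj M (Sj T M (JJ T) j) (tw (1 / 2) f))))) := by
  rw [EBf]
  congr 1
  funext f
  rw [Fc, Fc, if_pos hj, if_pos hj, if_neg (Finset.notMem_empty _), mul_one, mul_one]

end BotFAux

open BotFAux K1.RAx in
/-- (Z9) the bottom blocks, first moment -/
theorem stBotF (h1 : StBlkF) (hA : K5.StAK) : StBotF := by
  obtain ⟨C₁, hC₁, hB⟩ := h1
  obtain ⟨M₁, hM₁⟩ := block_cond C₁ hC₁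
  obtain ⟨C₄, hC₄, hsl⟩ := sum_log_div_le
  intro k hk0 hk1 Ψ hΨ η hη
  obtain ⟨hak, hlim, -⟩ := hA k hk0 hk1.le
  have hlam : 0 < Real.log (1 + η) / 2 := by
    have := Real.log_pos (show 1 < 1 + η by linarith)
    linarith
  set lam := Real.log (1 + η) / 2 with hlamdef
  obtain ⟨M₂, hM₂⟩ := eventually_atTop.mp (small_err (C₁ := C₁) (Ψ := Ψ) (half_pos hlam))
  refine ⟨max (max M₁ M₂) 6, fun M hM => ?_⟩
  have hMM₁ : M₁ ≤ M := (le_max_left _ _).trans ((le_max_left _ _).trans hM)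
  have hMM₂ : M₂ ≤ M := (le_max_right _ _).trans ((le_max_left _ _).trans hM)
  have hM6 : 6 ≤ M := (le_max_right _ _).trans hM
  obtain ⟨hs1, hs2, hs3⟩ := hM₂ M hMM₂
  obtain ⟨T₁, hT₁3, hT₁⟩ := hM₁ M hMM₁
  have eM : 0 < Real.exp (-(M : ℝ)) := Real.exp_pos _
  -- the limit of the product of the local factors
  set δ : ℝ := Real.exp lam - 1 with hδdef
  have hδ : 0 < δ := by
    have := Real.add_one_lt_exp hlam.ne'
    linarith
  have hev := (Metric.tendsto_nhds.mp hlim) (δ * aK k) (by positivity)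
  have hyt : Tendsto (fun T : ℝ => Real.exp (Real.exp (-(M : ℝ)) * Real.log T)) atTop atTop :=
    Real.tendsto_exp_atTop.comp (Real.tendsto_log_atTop.const_mul_atTop eM)
  obtain ⟨T₂, hT₂⟩ := eventually_atTop.mp (hyt.eventually hev)
  set L₀ : ℝ := Real.exp M + 2 * C₁ * (Ψ * C₄) / lam + 4 * (Ψ * C₄) with hL₀
  refine ⟨max (max T₁ T₂) (Real.exp L₀), hT₁3.trans ((le_max_left _ _).trans (le_max_left _ _)),
    fun T hT a ha0 ha => ?_⟩
  have hTT₁ : T₁ ≤ T := (le_max_left _ _).trans ((le_max_left _ _).trans hT)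
  have hTT₂ : T₂ ≤ T := (le_max_right _ _).trans ((le_max_left _ _).trans hT)
  have hT3 : 3 ≤ T := hT₁3.trans hTT₁
  have hT1 : 1 < T := by linarith
  have hT0 : 0 < T := by linarith
  have hL : 0 < Real.log T := Real.log_pos hT1
  have hLL : L₀ ≤ Real.log T := by
    rw [Real.le_log_iff_exp_le hT0]; exact (le_max_right _ _).trans hT
  have hLa : Real.exp M ≤ Real.log T := by
    have : 0 ≤ 2 * C₁ * (Ψ * C₄) / lam + 4 * (Ψ * C₄) := by positivity
    linarith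
  have hLb : 2 * C₁ * (Ψ * C₄) / lam ≤ Real.log T := by
    have : 0 ≤ Real.exp M + 4 * (Ψ * C₄) := by positivity
    linarith
  have hLc : 4 * (Ψ * C₄) ≤ Real.log T := by
    have : 0 ≤ Real.exp M + 2 * C₁ * (Ψ * C₄) / lam := by positivity
    linarith
  set L := Real.log T with hLdef
  have haL : a * L ≤ Ψ := by rwa [← le_div_iff₀ hL]
  -- the shifts
  have hshift : ∀ j, j ≤ JJ T → ∀ p ∈ Sj T M (JJ T) j, a * Real.log p ≤ 1 / 20 := by
    intro j hj p hp
    have h1 := log_le_of_mem hT1 hj hp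
    calc a * Real.log p ≤ a * (Real.exp (-(M : ℝ)) * L) := by gcongr
      _ = (a * L) * Real.exp (-(M : ℝ)) := by ring
      _ ≤ Ψ * Real.exp (-(M : ℝ)) := by gcongr
      _ ≤ 1 / 20 := hs3
  set y : ℝ := Real.exp (Real.exp (-(M : ℝ)) * L) with hy
  have hey : 1 ≤ Real.exp (-(M : ℝ)) * L := by
    rw [Real.exp_neg, inv_mul_eq_div, le_div_iff₀ (Real.exp_pos _), one_mul]; exact hLa
  have hy2 : 2 ≤ y := by
    have := Real.add_one_le_exp (Real.exp (-(M : ℝ)) * L)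
    linarith
  have hUp : ∀ p ∈ PS 0 y, p.Prime := fun p hp => ((mem_PS le_rfl (by linarith)).mp hp).1
  have hUsub : ∀ j, j ≤ JJ T → Sj T M (JJ T) j ⊆ PS 0 y := by
    intro j hj
    rw [hy, hLdef, ← biUnion_eq hT1]
    exact Finset.subset_biUnion_of_mem (fun j => Sj T M (JJ T) j) (Finset.mem_range.mpr (by omega))
  have hlogU : ∀ p ∈ PS 0 y, 0 ≤ Real.log p / (p : ℝ) := fun p hp =>
    div_nonneg (Real.log_nonneg (by exact_mod_cast (hUp p hp).one_lt.le)) (by positivity)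
  have hsumL : a * ∑ p ∈ PS 0 y, Real.log p / p ≤ Ψ * Real.exp (-(M : ℝ)) + Ψ * C₄ / L := by
    have h1 := hsl y (by linarith)
    have h2 : Real.log y = Real.exp (-(M : ℝ)) * L := by rw [hy, Real.log_exp]
    rw [h2] at h1
    have h3 : 0 ≤ ∑ p ∈ PS 0 y, Real.log p / (p : ℝ) := Finset.sum_nonneg hlogU
    calc a * ∑ p ∈ PS 0 y, Real.log p / p
        ≤ (Ψ / L) * (Real.exp (-(M : ℝ)) * L + C₄) := by gcongr
      _ = Ψ * Real.exp (-(M : ℝ)) + Ψ * C₄ / L := by field_simp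
  have hC4L : Ψ * C₄ / L ≤ 1 / 4 := by
    rw [div_le_iff₀ hL]; linarith
  have hC4L' : C₁ * (Ψ * C₄ / L) ≤ lam / 2 := by
    rw [mul_div_assoc', div_le_iff₀ hL]
    have h5 : 2 * C₁ * (Ψ * C₄) ≤ L * lam := by
      rwa [div_le_iff₀ hlam] at hLb
    linarith
  have hsumj : ∀ j, j ≤ JJ T → a * ∑ p ∈ Sj T M (JJ T) j, Real.log p / p ≤ 1 := by
    intro j hj
    refine le_trans (mul_le_mul_of_nonneg_left
      (Finset.sum_le_sum_of_subset_of_nonneg (hUsub j hj) fun p hp _ => hlogU p hp) ha0) ?_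
    linarith
  -- the blocks
  set ε : ℕ → ℝ := fun j => C₁ * (Real.exp (3 * Pool.Agent.Lib.MP_973905_nt.rho M (Sj T M (JJ T) j)) - 1 +
    Real.exp (-((ll M (JJ T) j : ℝ) / 2)) + a * ∑ p ∈ Sj T M (JJ T) j, Real.log p / p) with hε
  have hlogj : ∀ j ∈ Finset.range (JJ T + 1), 0 ≤ ∑ p ∈ Sj T M (JJ T) j, Real.log p / (p : ℝ) := by
    intro j hj
    refine Finset.sum_nonneg fun p hp => hlogU p (hUsub j ?_ hp)
    have := Finset.mem_range.mp hj
    omega
  have hε0 : ∀ j ∈ Finset.range (JJ T + 1), 0 ≤ ε j := fun j hj => by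
    have h1 : 1 ≤ Real.exp (3 * Pool.Agent.Lib.MP_973905_nt.rho M (Sj T M (JJ T) j)) :=
      Real.one_le_exp (by have := rho_nonneg M (Sj T M (JJ T) j); positivity)
    have h2 := Real.exp_pos (-((ll M (JJ T) j : ℝ) / 2))
    have h3 := mul_nonneg ha0 (hlogj j hj)
    simp only [hε]
    apply mul_nonneg hC₁.le
    linarith
  have hrho := sum_rho hT1 (M := M) (J := JJ T) (by omega)
  have hεsum : ∑ j ∈ Finset.range (JJ T + 1), ε j ≤ lam := by
    simp only [hε]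
    rw [← Finset.mul_sum, Finset.sum_add_distrib, Finset.sum_add_distrib]
    have h2 : ∑ j ∈ Finset.range (JJ T + 1), Real.exp (-((ll M (JJ T) j : ℝ) / 2)) ≤
        2 * Real.exp (-(5 * Real.exp (3 / 4 * (M : ℝ)))) := by
      refine le_trans (Finset.sum_le_sum fun j _ => ?_) (sum_exp_KK (J := JJ T) ?_ (by norm_num))
      · apply Real.exp_le_exp.mpr
        have : 10 * KK M (JJ T) j ≤ (ll M (JJ T) j : ℝ) := Nat.le_ceil _
        linarith
      · have := Real.one_le_exp (show 0 ≤ 3 / 4 * (M : ℝ) by positivity)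
        linarith
    have h3 : ∑ j ∈ Finset.range (JJ T + 1),
        (Real.exp (3 * Pool.Agent.Lib.MP_973905_nt.rho M (Sj T M (JJ T) j)) - 1) ≤
        6 * (4 * (2 : ℝ) ^ (-(((M : ℝ) - 3) / 2))) := by
      refine le_trans (Finset.sum_le_sum
        (g := fun j => 6 * Pool.Agent.Lib.MP_973905_nt.rho M (Sj T M (JJ T) j)) fun j hj => ?_) ?_
      · have h4 := rho_nonneg M (Sj T M (JJ T) j)
        have h5 : Pool.Agent.Lib.MP_973905_nt.rho M (Sj T M (JJ T) j) ≤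
            4 * (2 : ℝ) ^ (-(((M : ℝ) - 3) / 2)) :=
          (Finset.single_le_sum
            (f := fun j => Pool.Agent.Lib.MP_973905_nt.rho M (Sj T M (JJ T) j))
            (fun i _ => rho_nonneg M _) hj).trans hrho
        have h6 : |3 * Pool.Agent.Lib.MP_973905_nt.rho M (Sj T M (JJ T) j)| ≤ 1 := by
          rw [abs_of_nonneg (by positivity)]; linarith
        have h7 := Real.abs_exp_sub_one_le h6
        rw [abs_of_nonneg (by positivity :
          0 ≤ 3 * Pool.Agent.Lib.MP_973905_nt.rho M (Sj T M (JJ T) j))] at h7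
        have h8 := le_abs_self
          (Real.exp (3 * Pool.Agent.Lib.MP_973905_nt.rho M (Sj T M (JJ T) j)) - 1)
        linarith
      · rw [← Finset.mul_sum]
        gcongr
    have h4 : ∑ j ∈ Finset.range (JJ T + 1), a * ∑ p ∈ Sj T M (JJ T) j, Real.log p / (p : ℝ) =
        a * ∑ p ∈ PS 0 y, Real.log p / p := by
      rw [← Finset.mul_sum, hy, hLdef, ← biUnion_eq hT1,
        Finset.sum_biUnion (fun i _ j _ hij => disj_Sj hT1 hij)]
    rw [h4]
    calc C₁ * (∑ j ∈ Finset.range (JJ T + 1),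
          (Real.exp (3 * Pool.Agent.Lib.MP_973905_nt.rho M (Sj T M (JJ T) j)) - 1) +
          ∑ j ∈ Finset.range (JJ T + 1), Real.exp (-((ll M (JJ T) j : ℝ) / 2)) +
          a * ∑ p ∈ PS 0 y, Real.log p / p)
        ≤ C₁ * (6 * (4 * (2 : ℝ) ^ (-(((M : ℝ) - 3) / 2))) +
          2 * Real.exp (-(5 * Real.exp (3 / 4 * (M : ℝ)))) +
          (Ψ * Real.exp (-(M : ℝ)) + Ψ * C₄ / L)) := by gcongr
      _ = C₁ * (6 * (4 * (2 : ℝ) ^ (-(((M : ℝ) - 3) / 2))) +
          2 * Real.exp (-(5 * Real.exp (3 / 4 * (M : ℝ)))) + Ψ * Real.exp (-(M : ℝ))) +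
          C₁ * (Ψ * C₄ / L) := by ring
      _ ≤ lam / 2 + lam / 2 := add_le_add hs1 hC4L'
      _ = lam := by ring
  set v : ℕ → ℂ := fun j =>
    ((∏ p ∈ Sj T M (JJ T) j, Dl k ((p : ℝ) ^ (-(1 / 2) : ℝ)) : ℝ) : ℂ) with hv
  have hD1 : ∀ p : ℕ, p.Prime → 1 ≤ Dl k ((p : ℝ) ^ (-(1 / 2) : ℝ)) := by
    intro p hp
    have hx1 := x_le hp
    have hx0 : 0 ≤ (p : ℝ) ^ (-(1 / 2) : ℝ) := by positivity
    have h5 := Dl_ge hk0 hx0 (by linarith)
    have h7 : 0 ≤ k ^ 2 * ((p : ℝ) ^ (-(1 / 2) : ℝ)) ^ 2 := by positivity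
    linarith
  have hvn : ∀ j, ‖v j‖ = ∏ p ∈ Sj T M (JJ T) j, Dl k ((p : ℝ) ^ (-(1 / 2) : ℝ)) := by
    intro j
    simp only [hv]
    rw [norm_real, Real.norm_eq_abs, abs_of_nonneg]
    exact Finset.prod_nonneg fun p hp => by linarith [hD1 p (prime_Sj hT1 hp)]
  have hzv : ∀ j ∈ Finset.range (JJ T + 1), ‖EBf T M k a j - v j‖ ≤ ε j * ‖v j‖ := by
    intro j hj
    have hj' : j ≤ JJ T := by have := Finset.mem_range.mp hj; omega
    have hcond := (hT₁ T hTT₁ j hj' (1 / 2) le_rfl).1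
    have hcond' : 16 * Real.exp (C₁ * ∑ p ∈ Sj T M (JJ T) j, 1 / (p : ℝ)) ≤
        Real.exp ((ll M (JJ T) j : ℝ) / 2) := by
      refine le_trans (le_of_eq ?_) hcond
      congr 3
      refine Finset.sum_congr rfl fun p _ => ?_
      rw [one_div, ← Real.rpow_neg_one]
      norm_num
    have h1 := hB M (ll M (JJ T) j) (Sj T M (JJ T) j) k a (by omega)
      (fun p hp => prime_Sj hT1 hp) hk0 hk1.le ha0 (hshift j hj') (hsumj j hj') hcond'
    rw [EBf_eq hj, hvn]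
    exact h1
  have hQ := prod_sub_le' (Finset.range (JJ T + 1)) (fun j => EBf T M k a j) v ε hε0 hzv
  set E : ℝ := ∏ p ∈ PS 0 y, Dl k ((p : ℝ) ^ (-(1 / 2) : ℝ)) with hEdef
  have hQeq : ∏ j ∈ Finset.range (JJ T + 1), v j = (E : ℂ) := by
    simp only [hv]
    rw [← ofReal_prod, prod_biUnion_Sj hT1]
  rw [hQeq] at hQ
  -- the value at `0`
  have hlM : Real.exp Real.eulerMascheroniConstant * Real.log y = lM T M := by
    rw [hy, Real.log_exp, lM, hLdef, ← mul_assoc, ← Real.exp_add]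
    congr 2
  have hlM0 : 0 < lM T M := by
    rw [lM]; positivity
  have hE3 : |E / lM T M ^ (k ^ 2) - aK k| < δ * aK k := by
    have h5 := hT₂ T hTT₂
    rw [Real.dist_eq] at h5
    simp only [← hLdef, ← hy] at h5
    rwa [hlM, ← hEdef] at h5
  set R := lM T M ^ (k ^ 2) with hR
  have hR0 : 0 < R := Real.rpow_pos_of_pos hlM0 _
  set X := aK k * R with hX
  have hX0 : 0 < X := by positivity
  have hE2 : |E - X| ≤ δ * X := by
    have e1 : E - X = (E / R - aK k) * R := by rw [hX]; field_simp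
    rw [e1, abs_mul, abs_of_pos hR0, hX, ← mul_assoc]
    exact mul_le_mul_of_nonneg_right hE3.le hR0.le
  have hE0 : 0 < E := by
    rw [hEdef]
    exact Finset.prod_pos fun p hp => by linarith [hD1 p (hUp p hp)]
  have hE1 : E ≤ Real.exp lam * X := by
    have := (abs_le.mp hE2).2
    rw [hδdef] at this
    linarith
  have hEn : ‖(E : ℂ)‖ = E := by rw [norm_real, Real.norm_eq_abs, abs_of_pos hE0]
  rw [hEn] at hQ
  set A := Real.exp (∑ j ∈ Finset.range (JJ T + 1), ε j) with hA'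
  have hA2 : A ≤ Real.exp lam := Real.exp_le_exp.mpr hεsum
  set B := Real.exp lam with hBB
  have hB1 : 1 ≤ B := Real.one_le_exp hlam.le
  -- conclusion
  have h2 : ‖(E : ℂ) - (X : ℂ)‖ ≤ (B - 1) * X := by
    rw [← ofReal_sub, norm_real, Real.norm_eq_abs]; exact hE2
  have h3 : (A - 1) * E ≤ (B - 1) * (B * X) :=
    mul_le_mul (by linarith) hE1 hE0.le (by linarith)
  have h5 : B * B = 1 + η := by
    rw [hBB, ← Real.exp_add]
    have h6 : lam + lam = Real.log (1 + η) := by rw [hlamdef]; ring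
    rw [h6, Real.exp_log (by linarith)]
  calc ‖(∏ j ∈ Finset.range (JJ T + 1), EBf T M k a j) - (X : ℂ)‖
      ≤ ‖(∏ j ∈ Finset.range (JJ T + 1), EBf T M k a j) - (E : ℂ)‖ + ‖(E : ℂ) - (X : ℂ)‖ :=
        norm_sub_le_norm_sub_add_norm_sub _ _ _
    _ ≤ (A - 1) * E + (B - 1) * X := add_le_add hQ h2
    _ ≤ (B - 1) * (B * X) + (B - 1) * X := by gcongr
    _ = (B * B - 1) * X := by ring
    _ = η * X := by rw [h5]; ring

end K9
end Pool.Agent.Lib.MP_973905_nt
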