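import Pool.Agent.Lib.MP_973905_nt.K9.Stmts
import Pool.Agent.Lib.MP_973905_nt.K5.BotG
import Pool.Agent.Lib.MP_973905_nt.Core3
import Pool.Agent.Lib.MP_973905_nt.Sums
import Pool.Agent.Lib.MP_973905_nt.IngDefs

/-! Module (V3): the product over the bottom blocks, side without zeta, `0 < k < 1`. -/

namespace Pool.Agent.Lib.MP_973905_nt
namespace K9

open MeasureTheory ProbabilityTheory Complex Filter Topology K1 K4 K5

namespace BotV9Aux

lemma half_cast : ((1 / 2 : ℝ) : ℂ) = 1 / 2 := by push_cast; ring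

/-- The errors of all the blocks are small for large `M`. -/
lemma small_err {δ : ℝ} (hδ : 0 < δ) : ∀ᶠ M : ℕ in atTop,
    2 * Real.exp (-(1 / 2 * Real.exp (3 / 4 * (M : ℝ)))) +
      ((3 * (4 * (2 : ℝ) ^ (-(((M : ℝ) - 3) / 2))) +
        6 * Real.exp (-(5 * Real.exp (3 / 4 * (M : ℝ))))) +
      2 * Real.exp (-(1 * Real.exp (3 / 4 * (M : ℝ))))) ≤ Real.log (1 + δ) := by
  have t1 : Tendsto (fun M : ℕ => (2 : ℝ) ^ (-(((M : ℝ) - 3) / 2))) atTop (𝓝 0) := by
    have h1 : Tendsto (fun M : ℕ => (((M : ℝ) - 3) / 2)) atTop atTop :=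
      (tendsto_atTop_add_const_right _ (-3) tendsto_natCast_atTop_atTop).atTop_div_const (by norm_num)
    have h2 : Tendsto (fun x : ℝ => (2 : ℝ) ^ (-x)) atTop (𝓝 0) := by
      have : (fun x : ℝ => (2 : ℝ) ^ (-x)) = fun x : ℝ => Real.exp (-(Real.log 2 * x)) := by
        ext x; rw [Real.rpow_def_of_pos (by norm_num)]; congr 1; ring
      rw [this]
      exact Real.tendsto_exp_neg_atTop_nhds_zero.comp
        (tendsto_id.const_mul_atTop (Real.log_pos (by norm_num)))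
    exact h2.comp h1
  have t3 : ∀ a : ℝ, 0 < a →
      Tendsto (fun M : ℕ => Real.exp (-(a * Real.exp (3 / 4 * (M : ℝ))))) atTop (𝓝 0) := by
    intro a ha
    refine Real.tendsto_exp_neg_atTop_nhds_zero.comp ?_
    refine Tendsto.const_mul_atTop ha (Real.tendsto_exp_atTop.comp ?_)
    exact Tendsto.const_mul_atTop (by norm_num) tendsto_natCast_atTop_atTop
  have t4 := ((t3 (1 / 2) (by norm_num)).const_mul 2).add
    ((((t1.const_mul 4).const_mul 3).add ((t3 5 (by norm_num)).const_mul 6)).add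
      ((t3 1 one_pos).const_mul 2))
  simp only [mul_zero, add_zero] at t4
  exact t4.eventually (eventually_le_nhds (Real.log_pos (by linarith)))

/-- The mean of the majorant of one block. -/
lemma ES_VB (k T : ℝ) (M j : ℕ) :
    ES (Sj T M (JJ T) j) (fun f => VB k T M j (tw (1 / 2) f)) =
      (1 + Real.exp (-(KK M (JJ T) j / 2))) * ES (Sj T M (JJ T) j) (fun f =>
        ‖Ntr (ll M (JJ T) j) k (Pj M (Sj T M (JJ T) j) (tw (1 / 2) f))‖ ^ 2) +
      Real.exp (2 * K8.pe k * KK M (JJ T) j) * ES (Sj T M (JJ T) j) (fun f =>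
        ‖(Pj M (Sj T M (JJ T) j) (tw (1 / 2) f) / (KK M (JJ T) j : ℂ)) ^ K8.nb k T M j‖ ^ 2) := by
  set S := Sj T M (JJ T) j with hS
  have b0 : BS S (fun f => Pj M S (tw (1 / 2) f)) := bs_Pj M S S _
  have b1 : BS S (fun f => ‖Ntr (ll M (JJ T) j) k (Pj M S (tw (1 / 2) f))‖ ^ 2) :=
    (bs_Ntr _ _ b0).norm_sq
  have b2 : BS S (fun f => ‖(Pj M S (tw (1 / 2) f) / (KK M (JJ T) j : ℂ)) ^
      K8.nb k T M j‖ ^ 2) := by
    have b3 : BS S (fun f => Pj M S (tw (1 / 2) f) * ((KK M (JJ T) j : ℂ))⁻¹) :=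
      b0.mul (bs_const S _)
    have b4 := (b3.pow (K8.nb k T M j)).norm_sq
    simpa only [div_eq_mul_inv] using b4
  have c1 : BS S (fun f => (1 + Real.exp (-(KK M (JJ T) j / 2))) *
      ‖Ntr (ll M (JJ T) j) k (Pj M S (tw (1 / 2) f))‖ ^ 2) :=
    (bs_const S _).mul_real b1
  have c2 : BS S (fun f => Real.exp (2 * K8.pe k * KK M (JJ T) j) *
      ‖(Pj M S (tw (1 / 2) f) / (KK M (JJ T) j : ℂ)) ^ K8.nb k T M j‖ ^ 2) :=
    (bs_const S _).mul_real b2
  have h1 := ES_add c1 c2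
  rw [ES_const_mul, ES_const_mul] at h1
  rw [← h1]
  rfl

/-- one block -/
lemma one_block {a b c D E : ℝ} (_ha : 0 ≤ a) (hb : 0 ≤ b) (hc : 0 ≤ c) (hD : 1 ≤ D)
    (hE : E ≤ (1 + a) * (D * Real.exp b) + c) : E ≤ D * Real.exp (a + (b + c)) := by
  have h0 := Real.add_one_le_exp (a + c)
  have hb1 := Real.one_le_exp hb
  have h1 : c ≤ D * Real.exp b * c := by
    have : 1 ≤ D * Real.exp b := one_le_mul_of_one_le_of_one_le hD hb1
    nlinarith
  have h2 : 0 ≤ D * Real.exp b := by positivity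
  calc E ≤ (1 + a) * (D * Real.exp b) + c := hE
    _ ≤ (1 + a) * (D * Real.exp b) + D * Real.exp b * c := by linarith
    _ = D * Real.exp b * (a + c + 1) := by ring
    _ ≤ D * Real.exp b * Real.exp (a + c) := mul_le_mul_of_nonneg_left h0 h2
    _ = D * Real.exp (a + (b + c)) := by
        rw [mul_assoc, ← Real.exp_add]
        congr 2
        ring

/-- The product against the normaliser. -/
lemma prod_VB (hB : K8.StBadN) {k : ℝ} (hk0 : 0 < k) (hk1 : k < 1) {δ : ℝ}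
    (hδ : 0 < δ) : ∃ M₀ : ℕ, ∀ M : ℕ, M₀ ≤ M → ∃ T₀ : ℝ, 3 ≤ T₀ ∧ ∀ T, T₀ ≤ T →
    ∏ j ∈ Finset.range (JJ T + 1), ES (Sj T M (JJ T) j) (fun f => VB k T M j (tw (1 / 2) f)) ≤
      (1 + δ) * DJ k (1 / 2) T M (JJ T) := by
  obtain ⟨C₁, hC₁, hcore⟩ := block_core
  obtain ⟨M₁, hM₁⟩ := block_cond C₁ hC₁
  obtain ⟨M₂, hM₂⟩ := eventually_atTop.mp (small_err hδ)
  obtain ⟨M₃, hM₃⟩ := hB k hk0 hk1
  refine ⟨max (max M₁ M₂) (max M₃ 4), fun M hM => ?_⟩
  have hMM₁ : M₁ ≤ M := (le_max_left _ _).trans ((le_max_left _ _).trans hM)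
  have hMM₂ : M₂ ≤ M := (le_max_right _ _).trans ((le_max_left _ _).trans hM)
  have hMM₃ : M₃ ≤ M := (le_max_left _ _).trans ((le_max_right _ _).trans hM)
  have hM4 : 4 ≤ M := (le_max_right _ _).trans ((le_max_right _ _).trans hM)
  obtain ⟨T₁, hT₁3, hT₁⟩ := hM₁ M hMM₁
  obtain ⟨T₂, hT₂3, hT₂⟩ := hM₃ M hMM₃
  have hsm := hM₂ M hMM₂
  refine ⟨max T₁ T₂, hT₁3.trans (le_max_left _ _), fun T hT => ?_⟩
  have hTT₁ : T₁ ≤ T := (le_max_left _ _).trans hT
  have hTT₂ : T₂ ≤ T := (le_max_right _ _).trans hT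
  have hT1 : 1 < T := by linarith
  set J := JJ T with hJ
  have hS : ∀ j, ∀ p ∈ Sj T M J j, p.Prime := fun j p hp => prime_Sj hT1 hp
  have hDS : ∀ j, 1 ≤ DS k (1 / 2) (Sj T M J j) := fun j => DS_ge_one hk0 le_rfl (hS j)
  set r : ℕ → ℝ := fun j => Pool.Agent.Lib.MP_973905_nt.rho M (Sj T M J j) with hr
  have hr0 : ∀ j, 0 ≤ r j := fun j => rho_nonneg M (Sj T M J j)
  have hrsum : ∑ j ∈ Finset.range (J + 1), r j ≤ 4 * (2 : ℝ) ^ (-(((M : ℝ) - 3) / 2)) :=
    sum_rho hT1 (M := M) (J := J) (by omega)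
  set b : ℕ → ℝ := fun j => 3 * r j + 3 * Real.exp (-((ll M J j : ℝ) / 2)) with hbdef
  have hb0 : ∀ j, 0 ≤ b j := fun j => by
    have := hr0 j
    simp only [hbdef]; positivity
  set ε : ℕ → ℝ := fun j => Real.exp (-(KK M J j / 2)) + (b j + Real.exp (-KK M J j)) with hε
  have hEM2 : 2 ≤ Real.exp (3 / 4 * (M : ℝ)) := by
    have h1 := Real.add_one_le_exp (3 / 4 * (M : ℝ))
    have h2 : (4 : ℝ) ≤ M := by exact_mod_cast hM4
    linarith
  have hεsum : ∑ j ∈ Finset.range (J + 1), ε j ≤ Real.log (1 + δ) := by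
    refine le_trans ?_ hsm
    simp only [hε, hbdef]
    rw [Finset.sum_add_distrib, Finset.sum_add_distrib, Finset.sum_add_distrib,
      ← Finset.mul_sum, ← Finset.mul_sum]
    have s1 : ∑ j ∈ Finset.range (J + 1), Real.exp (-(KK M J j / 2)) ≤
        2 * Real.exp (-(1 / 2 * Real.exp (3 / 4 * (M : ℝ)))) := by
      refine le_trans (le_of_eq ?_) (sum_exp_KK (M := M) (J := J) (a := 1 / 2) (by linarith)
        (by norm_num))
      refine Finset.sum_congr rfl fun j _ => ?_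
      congr 2; ring
    have s2 : ∑ j ∈ Finset.range (J + 1), Real.exp (-KK M J j) ≤
        2 * Real.exp (-(1 * Real.exp (3 / 4 * (M : ℝ)))) := by
      refine le_trans (le_of_eq ?_) (sum_exp_KK (M := M) (J := J) (a := 1) (by linarith) one_pos)
      refine Finset.sum_congr rfl fun j _ => ?_
      congr 2; ring
    have s3 : ∑ j ∈ Finset.range (J + 1), Real.exp (-((ll M J j : ℝ) / 2)) ≤
        2 * Real.exp (-(5 * Real.exp (3 / 4 * (M : ℝ)))) := by
      refine le_trans (Finset.sum_le_sum fun j _ => ?_) (sum_exp_KK (J := J) (by linarith)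
        (by norm_num))
      apply Real.exp_le_exp.mpr
      have : 10 * KK M J j ≤ (ll M J j : ℝ) := Nat.le_ceil _
      linarith
    linarith
  have hexp : Real.exp (∑ j ∈ Finset.range (J + 1), ε j) ≤ 1 + δ := by
    rw [← Real.exp_log (show 0 < 1 + δ by linarith)]
    exact Real.exp_le_exp.mpr hεsum
  have h1 : ∏ j ∈ Finset.range (J + 1), ES (Sj T M J j) (fun f => VB k T M j (tw (1 / 2) f)) ≤
      ∏ j ∈ Finset.range (J + 1), (DS k (1 / 2) (Sj T M J j) * Real.exp (ε j)) := by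
    refine Finset.prod_le_prod (fun j _ => ES_nonneg fun ω => ?_) fun j hj => ?_
    · unfold VB VBz; positivity
    have hj' : j ≤ J := by have := Finset.mem_range.mp hj; omega
    have hbad := hT₂ T hTT₂ j hj'
    have h2 := (hcore M (ll M J j) (Sj T M J j) (1 / 2) k (by omega) (hS j) le_rfl hk0.le hk1.le
      (hDS j) (hT₁ T hTT₁ j hj' (1 / 2) le_rfl).1).2.1
    rw [half_cast] at h2
    have hD := hDS j
    have h6 : ES (Sj T M J j) (fun f =>
        ‖Ntr (ll M J j) k (Pj M (Sj T M J j) (tw (1 / 2) f))‖ ^ 2) ≤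
        DS k (1 / 2) (Sj T M J j) * Real.exp (b j) := by
      refine h2.trans (mul_le_mul_of_nonneg_left (Real.exp_le_exp.mpr ?_) (by linarith))
      have := hr0 j
      simp only [hbdef, hr] at this ⊢
      linarith
    refine one_block (Real.exp_pos _).le (hb0 j) (Real.exp_pos _).le hD ?_
    rw [ES_VB k T M j]
    exact add_le_add (mul_le_mul_of_nonneg_left h6 (by positivity)) hbad
  rw [Finset.prod_mul_distrib, ← Real.exp_sum] at h1
  have hD0 : 0 ≤ DJ k (1 / 2) T M J := Finset.prod_nonneg fun j _ => by linarith [hDS j]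
  calc _ ≤ DJ k (1 / 2) T M J * Real.exp (∑ j ∈ Finset.range (J + 1), ε j) := h1
    _ ≤ DJ k (1 / 2) T M J * (1 + δ) := by gcongr
    _ = _ := mul_comm _ _

end BotV9Aux

open BotV9Aux in
theorem stBotV9 (_h1 : K5.StBotG) (h2 : K8.StBadN) (h3 : K5.StAK) : StBotV9 := by
  intro k hk0 hk1 η hη
  obtain ⟨δ, hδ, hδ1, hδ2⟩ : ∃ δ : ℝ, 0 < δ ∧ δ ≤ 1 ∧ δ ≤ η / 3 :=
    ⟨min 1 (η / 3), lt_min one_pos (by positivity), min_le_left _ _, min_le_right _ _⟩
  obtain ⟨M₀, hM₀⟩ := prod_VB h2 hk0 hk1 hδ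
  refine ⟨M₀, fun M hM => ?_⟩
  obtain ⟨T₁, hT₁3, hT₁⟩ := hM₀ M hM
  obtain ⟨T₂, hT₂3, hT₂⟩ := K5.BotG.DJ_asymp h3 hk0 hk1.le hδ M
  refine ⟨max T₁ T₂, hT₁3.trans (le_max_left _ _), fun T hT => ?_⟩
  have hT3 : 3 ≤ T := hT₁3.trans ((le_max_left _ _).trans hT)
  have hL : 0 < Real.log T := Real.log_pos (by linarith)
  have e1 := hT₁ T ((le_max_left _ _).trans hT)
  have e2 := hT₂ T ((le_max_right _ _).trans hT)
  obtain ⟨hak, -⟩ := h3 k hk0 hk1.le
  have hl : 0 < lM T M := mul_pos (Real.exp_pos _) hL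
  have hP : 0 < aK k * lM T M ^ (k ^ 2) := mul_pos hak (Real.rpow_pos_of_pos hl _)
  calc _ ≤ (1 + δ) * DJ k (1 / 2) T M (JJ T) := e1
    _ ≤ (1 + δ) * ((1 + δ) * (aK k * lM T M ^ (k ^ 2))) := by gcongr
    _ = ((1 + δ) * (1 + δ)) * (aK k * lM T M ^ (k ^ 2)) := by ring
    _ ≤ (1 + η) * (aK k * lM T M ^ (k ^ 2)) := by
        refine mul_le_mul_of_nonneg_right ?_ hP.le
        nlinarith

end K9
end Pool.Agent.Lib.MP_973905_nt
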