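import Pool.Agent.Lib.MP_973905_nt.K9.Base
import Pool.Agent.Lib.MP_973905_nt.K8.Cont8

/-! Module (Z6) of folder K9: continuity and size of our functions on the critical line. -/

namespace Pool.Agent.Lib.MP_973905_nt
namespace K9

open MeasureTheory ProbabilityTheory Complex Filter Topology K1 K4 K5

namespace Cont9

variable {k T : ℝ} {M : ℕ} {C : Cfg}

/-! ### continuity -/

lemma cont_P (C : Cfg) (T : ℝ) (i : ℕ) :
    Continuous fun t : ℝ => C.P T i (fs (1 / 2 + t * I)) := by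
  unfold Cfg.P
  refine continuous_finsetSum _ fun p hp => ?_
  unfold tw
  refine continuous_const.mul (HoldAux.fs_line ?_).1
  unfold Cfg.U at hp
  exact K8.Cont8.PS_ne hp

lemma cont_VB (k T : ℝ) (M j : ℕ) :
    Continuous fun t : ℝ => VB k T M j (fs (1 / 2 + t * I)) := by
  unfold VB VBz
  have h1 := K8.Cont8.cont_Pj M T j
  have h2 := (K8.Cont8.cont_Ntr (ll M (JJ T) j) k).comp h1
  refine Continuous.add (continuous_const.mul ?_) (continuous_const.mul ?_)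
  · exact h2.norm.pow 2
  · exact (((h1.div_const _).pow _).norm).pow 2

lemma cont_VT (C : Cfg) (T : ℝ) (i : ℕ) :
    Continuous fun t : ℝ => VT C T i (fs (1 / 2 + t * I)) := by
  unfold VT
  have h1 := cont_P C T i
  exact (((Polynomial.continuous_aeval (C.W₀ i)).comp h1).norm.pow 2).add
    (((Polynomial.continuous_aeval (C.W₁ i)).comp h1).norm.pow 2)

lemma cont_VV (k : ℝ) (C : Cfg) (T : ℝ) (M : ℕ) :
    Continuous fun t : ℝ => VV9 k C T M (fs (1 / 2 + t * I)) := by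
  unfold VV9
  exact (continuous_finsetProd _ fun j _ => cont_VB k T M j).mul
    (continuous_finsetProd _ fun i _ => cont_VT C T i)

/-! ### the prime sums -/

lemma sum_U (C : Cfg) (hT : 0 < T) (i : ℕ) :
    ∑ p ∈ C.U T i, (p : ℝ) ^ (-(1 / 2) : ℝ) ≤ 2 * T ^ (C.te i / 2) := by
  have h1 : C.U T i ⊆ Finset.Icc 1 ⌊Real.exp (C.te i * Real.log T)⌋₊ := by
    intro p hp
    have hp' := Blk9.mem_U.mp hp
    rw [Finset.mem_Icc]
    exact ⟨hp'.1.one_lt.le, Nat.le_floor hp'.2.2⟩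
  refine (Finset.sum_le_sum_of_subset_of_nonneg h1 fun _ _ _ => by positivity).trans ?_
  refine (K8.Cont8.sum_rsqrt _).trans ?_
  have h2 : Real.sqrt ((⌊Real.exp (C.te i * Real.log T)⌋₊ : ℕ) : ℝ) ≤ T ^ (C.te i / 2) := by
    rw [Real.sqrt_le_left (by positivity)]
    refine (Nat.floor_le (Real.exp_pos _).le).trans (le_of_eq ?_)
    rw [← Real.rpow_natCast, ← Real.rpow_mul hT.le, Real.rpow_def_of_pos hT]
    congr 1
    push_cast
    ring
  linarith

lemma P_le (hC : Adm k M C) (hT : 1 < T) (i : ℕ) (t : ℝ) :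
    ‖C.P T i (fs (1 / 2 + t * I))‖ ≤ 2 * T ^ (C.te i / 2) := by
  have ha := (Blk9.a_pos hC hT).le
  unfold Cfg.P
  refine (norm_sum_le _ _).trans (le_trans (Finset.sum_le_sum fun p hp => ?_)
    (sum_U C (by linarith) i))
  have hp1 := (Blk9.mem_U.mp hp).1
  unfold tw
  rw [norm_mul, K8.Cont8.norm_line hp1.pos, Complex.norm_natCast_cpow_of_pos hp1.pos]
  refine mul_le_of_le_one_left (by positivity) ?_
  refine Real.rpow_le_one_of_one_le_of_nonpos (by exact_mod_cast hp1.one_lt.le) ?_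
  simpa using ha

/-! ### polynomials -/

/-- the sum of the absolute values of the coefficients -/
noncomputable def cf (p : Polynomial ℝ) : ℝ := ∑ j ∈ Finset.range (p.natDegree + 1), |p.coeff j|

lemma cf_nonneg (p : Polynomial ℝ) : 0 ≤ cf p := Finset.sum_nonneg fun _ _ => abs_nonneg _

lemma aeval_le (p : Polynomial ℝ) {z : ℂ} {Y : ℝ} (hz : ‖z‖ ≤ Y) (hY : 1 ≤ Y) {d : ℕ}
    (hd : p.natDegree ≤ d) : ‖Polynomial.aeval z p‖ ≤ cf p * Y ^ d := by
  rw [Polynomial.aeval_eq_sum_range, cf, Finset.sum_mul]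
  refine (norm_sum_le _ _).trans (Finset.sum_le_sum fun j hj => ?_)
  rw [norm_smul, norm_pow, Real.norm_eq_abs]
  refine mul_le_mul_of_nonneg_left ?_ (abs_nonneg _)
  refine (pow_le_pow_left₀ (norm_nonneg _) hz j).trans (pow_le_pow_right₀ hY ?_)
  have := Finset.mem_range.mp hj
  omega

/-- the degree of the majorant -/
noncomputable def dg (C : Cfg) (i : ℕ) : ℕ := max (C.W₀ i).natDegree (C.W₁ i).natDegree

/-- the constant in the bound of the top factors -/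
noncomputable def ct (C : Cfg) (i : ℕ) : ℝ :=
  (cf (C.W₀ i) ^ 2 + cf (C.W₁ i) ^ 2) * 2 ^ (2 * dg C i)

lemma ct_nonneg (C : Cfg) (i : ℕ) : 0 ≤ ct C i := by
  unfold ct
  positivity

lemma VT_le (hC : Adm k M C) (hT : 1 < T) {i : ℕ} (hi : i < C.N) (t : ℝ) :
    VT C T i (fs (1 / 2 + t * I)) ≤ ct C i * T ^ ((dg C i : ℝ) * C.te i) := by
  have hT0 : 0 < T := by linarith
  have hz := P_le hC hT i t
  have h5 : 1 ≤ T ^ (C.te i / 2) :=
    Real.one_le_rpow hT.le (by have := hC.hpos i hi.le; linarith)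
  set Y := 2 * T ^ (C.te i / 2) with hYd
  have hY : 1 ≤ Y := by linarith
  have hY0 : 0 ≤ Y := by linarith
  have h1 := aeval_le (C.W₀ i) hz hY (le_max_left _ _ : _ ≤ dg C i)
  have h2 := aeval_le (C.W₁ i) hz hY (le_max_right _ _ : _ ≤ dg C i)
  have h3 := pow_le_pow_left₀ (norm_nonneg _) h1 2
  have h4 := pow_le_pow_left₀ (norm_nonneg _) h2 2
  have h6 : (Y ^ dg C i) ^ 2 = 2 ^ (2 * dg C i) * T ^ ((dg C i : ℝ) * C.te i) := by
    rw [← pow_mul, mul_comm (dg C i) 2, hYd, mul_pow, ← Real.rpow_natCast (T ^ (C.te i / 2)),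
      ← Real.rpow_mul hT0.le]
    congr 2
    push_cast
    ring
  unfold VT ct
  calc _ ≤ (cf (C.W₀ i) * Y ^ dg C i) ^ 2 + (cf (C.W₁ i) * Y ^ dg C i) ^ 2 := add_le_add h3 h4
    _ = (cf (C.W₀ i) ^ 2 + cf (C.W₁ i) ^ 2) * (Y ^ dg C i) ^ 2 := by ring
    _ = _ := by
      rw [h6]
      ring

lemma prod_VT_le (hC : Adm k M C) (hT : 1 < T) (t : ℝ) :
    ∏ i ∈ Finset.range C.N, VT C T i (fs (1 / 2 + t * I)) ≤
      (∏ i ∈ Finset.range C.N, ct C i) * T ^ (93 / 100 : ℝ) := by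
  have hT0 : 0 < T := by linarith
  calc ∏ i ∈ Finset.range C.N, VT C T i (fs (1 / 2 + t * I))
      ≤ ∏ i ∈ Finset.range C.N, (ct C i * T ^ ((dg C i : ℝ) * C.te i)) :=
        Finset.prod_le_prod (fun i _ => Blk9.VT_nonneg i _) fun i hi =>
          VT_le hC hT (Finset.mem_range.mp hi) t
    _ = (∏ i ∈ Finset.range C.N, ct C i) *
          T ^ (∑ i ∈ Finset.range C.N, (dg C i : ℝ) * C.te i) := by
        rw [Finset.prod_mul_distrib, Real.rpow_sum_of_pos hT0]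
    _ ≤ _ := by
        apply mul_le_mul_of_nonneg_left _ (Finset.prod_nonneg fun i _ => ct_nonneg C i)
        refine Real.rpow_le_rpow_of_exponent_le hT.le (le_trans (le_of_eq ?_) hC.bud2)
        refine Finset.sum_congr rfl fun i _ => ?_
        unfold dg
        rw [Nat.cast_max]

/-! ### the bottom blocks -/

lemma VBz_le (hk : 0 < k) {j : ℕ} (hj : j ≤ JJ T) (z : ℂ) {X : ℝ}
    (h1 : ‖Ntr (ll M (JJ T) j) k z‖ ≤ X)
    (h2 : ‖(z / (KK M (JJ T) j : ℂ)) ^ K8.nb k T M j‖ ≤ X) :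
    VBz k T M j z ≤ (2 * Real.exp (2 * K8.pe k * KK M (JJ T) j)) * X ^ 2 := by
  have hK := Len.KK_ge_one (M := M) hj
  have hp : 1 ≤ K8.pe k := by
    unfold K8.pe
    rw [one_le_div hk]
    linarith
  have hE : 2 ≤ Real.exp (2 * K8.pe k * KK M (JJ T) j) := by
    have h3 := Real.add_one_le_exp (2 * K8.pe k * KK M (JJ T) j)
    have h4 : 1 ≤ K8.pe k * KK M (JJ T) j := one_le_mul_of_one_le_of_one_le hp hK
    nlinarith
  have he : Real.exp (-(KK M (JJ T) j / 2)) ≤ 1 := by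
    rw [Real.exp_le_one_iff]
    linarith
  have h5 : ‖Ntr (ll M (JJ T) j) k z‖ ^ 2 ≤ X ^ 2 := pow_le_pow_left₀ (norm_nonneg _) h1 2
  have h6 : ‖(z / (KK M (JJ T) j : ℂ)) ^ K8.nb k T M j‖ ^ 2 ≤ X ^ 2 :=
    pow_le_pow_left₀ (norm_nonneg _) h2 2
  have hX : 0 ≤ X ^ 2 := sq_nonneg X
  unfold VBz
  calc (1 + Real.exp (-(KK M (JJ T) j / 2))) * ‖Ntr (ll M (JJ T) j) k z‖ ^ 2 +
        Real.exp (2 * K8.pe k * KK M (JJ T) j) * ‖(z / (KK M (JJ T) j : ℂ)) ^ K8.nb k T M j‖ ^ 2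
      ≤ 2 * X ^ 2 + Real.exp (2 * K8.pe k * KK M (JJ T) j) * X ^ 2 := by
        gcongr
        linarith
    _ ≤ Real.exp (2 * K8.pe k * KK M (JJ T) j) * X ^ 2 +
          Real.exp (2 * K8.pe k * KK M (JJ T) j) * X ^ 2 := by
        gcongr
    _ = _ := by ring

lemma prod_VB_le (hk : 0 < k) {R : ℝ} (hR : ∀ h : Finset ℕ,
    DP R R (fun f => ∏ j ∈ Finset.range (JJ T + 1),
      (if j ∈ h then (Pj M (Sj T M (JJ T) j) f / (KK M (JJ T) j : ℂ)) ^ K8.nb k T M j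
        else Ntr (ll M (JJ T) j) k (Pj M (Sj T M (JJ T) j) f))))
    (hE : ∏ j ∈ Finset.range (JJ T + 1), (2 * Real.exp (2 * K8.pe k * KK M (JJ T) j)) ≤ R)
    (hR0 : 0 ≤ R) (t : ℝ) :
    ∏ j ∈ Finset.range (JJ T + 1), VB k T M j (fs (1 / 2 + t * I)) ≤ R * R ^ 2 := by
  classical
  set f := fs (1 / 2 + t * I) with hf
  set Z : ℕ → ℂ := fun j => (Pj M (Sj T M (JJ T) j) f / (KK M (JJ T) j : ℂ)) ^ K8.nb k T M j with hZ
  set W : ℕ → ℂ := fun j => Ntr (ll M (JJ T) j) k (Pj M (Sj T M (JJ T) j) f) with hW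
  set h : Finset ℕ := (Finset.range (JJ T + 1)).filter (fun j => ‖W j‖ ≤ ‖Z j‖) with hh
  have h1 := (K8.Cont8.dp_line (hR h)).2 t
  simp only [← hf] at h1
  have h2 : ∏ j ∈ Finset.range (JJ T + 1), VB k T M j f ≤
      ∏ j ∈ Finset.range (JJ T + 1), ((2 * Real.exp (2 * K8.pe k * KK M (JJ T) j)) *
        ‖(if j ∈ h then Z j else W j)‖ ^ 2) := by
    refine Finset.prod_le_prod (fun j _ => Blk9.VB_nonneg j _) fun j hj => ?_
    have hj' := Finset.mem_range.mp hj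
    unfold VB
    apply VBz_le hk (by omega)
    · by_cases hjh : j ∈ h
      · rw [if_pos hjh]
        exact (Finset.mem_filter.mp hjh).2
      · rw [if_neg hjh]
    · by_cases hjh : j ∈ h
      · rw [if_pos hjh]
      · rw [if_neg hjh]
        have h3 : ¬ ‖W j‖ ≤ ‖Z j‖ := fun h4 => hjh (Finset.mem_filter.mpr ⟨hj, h4⟩)
        exact (not_le.mp h3).le
  refine h2.trans ?_
  rw [Finset.prod_mul_distrib, Finset.prod_pow, ← norm_prod]
  refine mul_le_mul hE (pow_le_pow_left₀ (norm_nonneg _) h1 2) (by positivity) hR0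

end Cont9

open Cont9 in
/-- (Z6) continuity and size of our functions on the critical line -/
theorem stCont9 (h1 : StBQ9) (h2 : StLen9) : StCont9 := by
  intro k hk0 hk1
  obtain ⟨M₁, hM₁⟩ := h1 k hk0 hk1
  obtain ⟨M₂, hM₂⟩ := h2 k (1 / 100) hk0 hk1 (by norm_num)
  refine ⟨max M₁ M₂, fun M hM C hC => ?_⟩
  obtain ⟨T₁, hT₁3, hT₁⟩ := hM₁ M ((le_max_left _ _).trans hM) C hC
  obtain ⟨T₂, hT₂3, hT₂⟩ := hM₂ M ((le_max_right _ _).trans hM)
  obtain ⟨T₃, hT₃3, hT₃⟩ := K8.Cont8.large (∏ i ∈ Finset.range C.N, ct C i)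
  refine ⟨max (max T₁ T₂) T₃, hT₁3.trans ((le_max_left _ _).trans (le_max_left _ _)),
    fun T hT => ?_⟩
  have hT1 : T₁ ≤ T := ((le_max_left _ _).trans (le_max_left _ _)).trans hT
  have hT2 : T₂ ≤ T := ((le_max_right _ _).trans (le_max_left _ _)).trans hT
  have hT3 : T₃ ≤ T := (le_max_right _ _).trans hT
  have hT' : 3 ≤ T := hT₁3.trans hT1
  have hT0 : 0 < T := by linarith
  have hT01 : 1 < T := by linarith
  obtain ⟨-, hG1, hG2⟩ := hT₁ T hT1
  refine ⟨(K8.Cont8.dp_line hG1).1, (K8.Cont8.dp_line hG2).1, cont_VV k C T M,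
    (K8.Cont8.dp_line hG1).2, (K8.Cont8.dp_line hG2).2, fun f => Blk9.VV9_nonneg f, fun t => ?_⟩
  unfold VV9
  have h3 := prod_VB_le (T := T) (M := M) hk0 (fun h => (hT₂ T hT2 h).1) (hT₂ T hT2 ∅).2
    (by positivity) t
  have h4 := prod_VT_le hC hT01 t
  have h5 : 0 ≤ ∏ i ∈ Finset.range C.N, VT C T i (fs (1 / 2 + t * I)) :=
    Finset.prod_nonneg fun i _ => Blk9.VT_nonneg i _
  calc (∏ j ∈ Finset.range (JJ T + 1), VB k T M j (fs (1 / 2 + t * I))) *
        ∏ i ∈ Finset.range C.N, VT C T i (fs (1 / 2 + t * I))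
      ≤ (T ^ (1 / 100 : ℝ) * (T ^ (1 / 100 : ℝ)) ^ 2) *
        ((∏ i ∈ Finset.range C.N, ct C i) * T ^ (93 / 100 : ℝ)) :=
        mul_le_mul h3 h4 h5 (by positivity)
    _ ≤ (T ^ (1 / 100 : ℝ) * (T ^ (1 / 100 : ℝ)) ^ 2) *
        (T ^ (1 / 100 : ℝ) * T ^ (93 / 100 : ℝ)) := by
        have := hT₃ T hT3
        gcongr
    _ = T ^ (97 / 100 : ℝ) := by
        rw [← Real.rpow_natCast (T ^ (1 / 100 : ℝ)) 2, ← Real.rpow_mul hT0.le,
          ← Real.rpow_add hT0, ← Real.rpow_add hT0, ← Real.rpow_add hT0]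
        norm_num
    _ ≤ T ^ (3 : ℝ) := Real.rpow_le_rpow_of_exponent_le hT01.le (by norm_num)
    _ = T ^ 3 := by
        rw [← Real.rpow_natCast T 3]
        norm_num

end K9
end Pool.Agent.Lib.MP_973905_nt
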