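import Pool.Agent.Lib.MP_973905_nt.K9.Stmts

/-! (N8) Values of the exponential integral. -/

set_option autoImplicit false

namespace Pool.Agent.Lib.MP_973905_nt
namespace K9

open MeasureTheory Filter Topology

namespace E1Aux

theorem intOn {y : ℝ} (hy : 0 < y) :
    IntegrableOn (fun t : ℝ => Real.exp (-t) / t) (Set.Ioi y) := by
  have h1 : IntegrableOn (fun t : ℝ => Real.exp (-t) * (1 / y)) (Set.Ioi y) := by
    have h := (exp_neg_integrableOn_Ioi y one_pos).mul_const (1 / y)
    simpa [IntegrableOn] using h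
  refine Integrable.mono' h1 ?_ ?_
  · exact (Measurable.div (by fun_prop) measurable_id).aestronglyMeasurable
  · refine (ae_restrict_iff' measurableSet_Ioi).2 (Eventually.of_forall fun t ht => ?_)
    have ht0 : 0 < t := hy.trans ht
    rw [Real.norm_of_nonneg (by positivity), div_eq_mul_one_div]
    exact mul_le_mul_of_nonneg_left (one_div_le_one_div_of_le hy (le_of_lt ht))
      (Real.exp_pos _).le

theorem nonneg {y : ℝ} (hy : 0 < y) : 0 ≤ E1 y :=
  setIntegral_nonneg measurableSet_Ioi fun _ ht =>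
    div_nonneg (Real.exp_pos _).le (hy.trans ht).le

theorem le_div {y : ℝ} (hy : 0 < y) : E1 y ≤ Real.exp (-y) / y := by
  have h1 : IntegrableOn (fun t : ℝ => Real.exp (-t) * (1 / y)) (Set.Ioi y) := by
    have h := (exp_neg_integrableOn_Ioi y one_pos).mul_const (1 / y)
    simpa [IntegrableOn] using h
  have h2 : E1 y ≤ ∫ t in Set.Ioi y, Real.exp (-t) * (1 / y) := by
    refine setIntegral_mono_on (intOn hy) h1 measurableSet_Ioi fun t ht => ?_
    rw [div_eq_mul_one_div]
    exact mul_le_mul_of_nonneg_left (one_div_le_one_div_of_le hy (le_of_lt ht))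
      (Real.exp_pos _).le
  rw [integral_mul_const, integral_exp_neg_Ioi] at h2
  rwa [div_eq_mul_one_div]

/-- numerator -/
noncomputable def nn (t : ℝ) : ℝ := t ^ 3 + 11 * t ^ 2 + 26 * t + 6

/-- denominator -/
noncomputable def dd (t : ℝ) : ℝ := t ^ 4 + 12 * t ^ 3 + 36 * t ^ 2 + 24 * t

theorem dd_pos {t : ℝ} (ht : 0 < t) : 0 < dd t := by
  unfold dd
  positivity

theorem nn_pos {t : ℝ} (ht : 0 < t) : 0 < nn t := by
  unfold nn
  positivity

/-- the derivative of the majorant -/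
noncomputable def bb' (t : ℝ) : ℝ :=
  -Real.exp (-t) * (nn t / dd t) + Real.exp (-t) *
    (((3 * t ^ 2 + 22 * t + 26) * dd t - nn t * (4 * t ^ 3 + 36 * t ^ 2 + 72 * t + 24)) /
      dd t ^ 2)

theorem hasDeriv {t : ℝ} (ht : 0 < t) :
    HasDerivAt (fun t => Real.exp (-t) * (nn t / dd t)) (bb' t) t := by
  have h1 : HasDerivAt (fun t : ℝ => Real.exp (-t)) (-Real.exp (-t)) t := by
    have h := (hasDerivAt_neg t).exp
    simpa using h
  have h2 : HasDerivAt nn (3 * t ^ 2 + 22 * t + 26) t := by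
    have h := ((((hasDerivAt_pow 3 t).add ((hasDerivAt_pow 2 t).const_mul 11)).add
      ((hasDerivAt_id t).const_mul 26)).add_const 6)
    refine h.congr_deriv ?_
    push_cast
    ring
  have h3 : HasDerivAt dd (4 * t ^ 3 + 36 * t ^ 2 + 72 * t + 24) t := by
    have h := ((((hasDerivAt_pow 4 t).add ((hasDerivAt_pow 3 t).const_mul 12)).add
      ((hasDerivAt_pow 2 t).const_mul 36)).add ((hasDerivAt_id t).const_mul 24))
    refine h.congr_deriv ?_
    push_cast
    ring
  exact h1.mul (h2.div h3 (dd_pos ht).ne')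

theorem bb'_eq {t : ℝ} (ht : 0 < t) :
    -bb' t = Real.exp (-t) / t + Real.exp (-t) * (144 / dd t ^ 2) := by
  have h1 := (dd_pos ht).ne'
  have h2 : nn t / dd t - ((3 * t ^ 2 + 22 * t + 26) * dd t -
      nn t * (4 * t ^ 3 + 36 * t ^ 2 + 72 * t + 24)) / dd t ^ 2 = 1 / t + 144 / dd t ^ 2 := by
    field_simp
    unfold nn dd
    ring
  unfold bb'
  rw [div_eq_mul_one_div (Real.exp (-t)) t, ← mul_add, ← h2]
  ring

theorem tendsto_bb : Tendsto (fun t => Real.exp (-t) * (nn t / dd t)) atTop (𝓝 0) := by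
  have h1 : Tendsto (fun t : ℝ => Real.exp (-t)) atTop (𝓝 0) :=
    Real.tendsto_exp_neg_atTop_nhds_zero
  refine squeeze_zero' ?_ ?_ h1
  · filter_upwards [eventually_gt_atTop 0] with t ht
    have := nn_pos ht
    have := dd_pos ht
    positivity
  · filter_upwards [eventually_ge_atTop 1] with t ht
    have h0 : 0 < t := by linarith
    have h2 : nn t / dd t ≤ 1 := by
      rw [div_le_one (dd_pos h0)]
      unfold nn dd
      nlinarith [pow_pos h0 2, pow_pos h0 3, pow_pos h0 4, mul_self_nonneg (t - 1)]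
    exact mul_le_of_le_one_right (Real.exp_pos _).le h2

/-- the majorant -/
theorem le_bb {y : ℝ} (hy : 0 < y) : E1 y ≤ Real.exp (-y) * (nn y / dd y) := by
  have hd : ∀ t ∈ Set.Ici y, HasDerivAt (fun t => Real.exp (-t) * (nn t / dd t)) (bb' t) t :=
    fun t ht => hasDeriv (hy.trans_le ht)
  have hneg : ∀ t ∈ Set.Ioi y, bb' t ≤ 0 := by
    intro t ht
    have ht0 : 0 < t := hy.trans ht
    have h1 := bb'_eq ht0
    have h2 : 0 ≤ Real.exp (-t) / t + Real.exp (-t) * (144 / dd t ^ 2) := by positivity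
    linarith
  have h1 := integral_Ioi_of_hasDerivAt_of_nonpos' hd hneg tendsto_bb
  have h2 := integrableOn_Ioi_deriv_of_nonpos' hd hneg tendsto_bb
  have h3 : E1 y ≤ ∫ t in Set.Ioi y, -bb' t := by
    refine setIntegral_mono_on (intOn hy) h2.neg measurableSet_Ioi fun t ht => ?_
    have ht0 : 0 < t := hy.trans ht
    rw [bb'_eq ht0]
    have : 0 ≤ Real.exp (-t) * (144 / dd t ^ 2) := by positivity
    linarith
  rw [integral_neg, h1] at h3
  linarith

theorem exp_neg_le {x S : ℝ} (hx : 0 ≤ x) (hS : 0 < S) (n : ℕ)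
    (h : S ≤ ∑ i ∈ Finset.range n, x ^ i / (i.factorial : ℝ)) : Real.exp (-x) ≤ 1 / S := by
  rw [Real.exp_neg, ← one_div]
  exact one_div_le_one_div_of_le hS (h.trans (Real.sum_le_exp_of_nonneg hx n))

theorem E1_18 : E1 (9 / 5) ≤ 7 / 100 := by
  have h1 := le_bb (y := 9 / 5) (by norm_num)
  have h2 : Real.exp (-(9 / 5)) ≤ 1 / 5.9 :=
    exp_neg_le (by norm_num) (by norm_num) 6 (by
      norm_num [Finset.sum_range_succ, Nat.factorial])
  have h3 : nn (9 / 5) / dd (9 / 5) ≤ 0.3923 := by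
    unfold nn dd
    norm_num
  have h4 : 0 ≤ nn (9 / 5) / dd (9 / 5) := by
    unfold nn dd
    norm_num
  calc E1 (9 / 5) ≤ Real.exp (-(9 / 5)) * (nn (9 / 5) / dd (9 / 5)) := h1
    _ ≤ (1 / 5.9) * 0.3923 := mul_le_mul h2 h3 h4 (by norm_num)
    _ ≤ 7 / 100 := by norm_num

theorem E1_08 : E1 (4 / 5) ≤ 0.3165 := by
  have h1 := le_bb (y := 4 / 5) (by norm_num)
  have h2 : Real.exp (-(4 / 5)) ≤ 1 / 2.2254 :=
    exp_neg_le (by norm_num) (by norm_num) 7 (by
      norm_num [Finset.sum_range_succ, Nat.factorial])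
  have h3 : nn (4 / 5) / dd (4 / 5) ≤ 0.70404 := by
    unfold nn dd
    norm_num
  have h4 : 0 ≤ nn (4 / 5) / dd (4 / 5) := by
    unfold nn dd
    norm_num
  calc E1 (4 / 5) ≤ Real.exp (-(4 / 5)) * (nn (4 / 5) / dd (4 / 5)) := h1
    _ ≤ (1 / 2.2254) * 0.70404 := mul_le_mul h2 h3 h4 (by norm_num)
    _ ≤ 0.3165 := by norm_num

/-- the Taylor polynomial -/
noncomputable def T4 (t : ℝ) : ℝ := 1 - t + t ^ 2 / 2 - t ^ 3 / 6 + t ^ 4 / 24

theorem exp_le_T4 {t : ℝ} (ht : 0 ≤ t) : Real.exp (-t) ≤ T4 t := by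
  have hd : ∀ x : ℝ, HasDerivAt (fun x => T4 x * Real.exp x) (x ^ 4 / 24 * Real.exp x) x := by
    intro x
    have h1 : HasDerivAt T4 (-1 + x - x ^ 2 / 2 + x ^ 3 / 6) x := by
      have h := (((((hasDerivAt_id x).const_sub 1).add ((hasDerivAt_pow 2 x).div_const 2)).sub
        ((hasDerivAt_pow 3 x).div_const 6)).add ((hasDerivAt_pow 4 x).div_const 24))
      refine h.congr_deriv ?_
      push_cast
      ring
    refine (h1.mul (Real.hasDerivAt_exp x)).congr_deriv ?_
    unfold T4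
    ring
  have hmono : MonotoneOn (fun x => T4 x * Real.exp x) (Set.Ici 0) := by
    refine monotoneOn_of_deriv_nonneg (convex_Ici 0)
      (fun x _ => (hd x).continuousAt.continuousWithinAt)
      (fun x _ => (hd x).differentiableAt.differentiableWithinAt) fun x _ => ?_
    rw [(hd x).deriv]
    positivity
  have h1 := hmono (Set.mem_Ici.2 le_rfl) (Set.mem_Ici.2 ht) ht
  have h2 : T4 0 * Real.exp 0 = 1 := by
    rw [Real.exp_zero, mul_one]
    unfold T4
    norm_num
  simp only [h2] at h1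
  rw [Real.exp_neg, inv_le_iff_one_le_mul₀ (Real.exp_pos t)]
  exact h1

/-- the antiderivative -/
noncomputable def AA (t : ℝ) : ℝ := Real.log t - t + t ^ 2 / 4 - t ^ 3 / 18 + t ^ 4 / 96

theorem AA_deriv {t : ℝ} (ht : 0 < t) : HasDerivAt AA (T4 t / t) t := by
  have h := (((((Real.hasDerivAt_log ht.ne').sub (hasDerivAt_id t)).add
    ((hasDerivAt_pow 2 t).div_const 4)).sub ((hasDerivAt_pow 3 t).div_const 18)).add
      ((hasDerivAt_pow 4 t).div_const 96))
  refine h.congr_deriv ?_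
  unfold T4
  push_cast
  field_simp
  ring

theorem E1_split {a b : ℝ} (ha : 0 < a) (hab : a ≤ b) : E1 a ≤ AA b - AA a + E1 b := by
  have hb : 0 < b := ha.trans_le hab
  have h1 : E1 a = (∫ t in Set.Ioc a b, Real.exp (-t) / t) + E1 b := by
    unfold E1
    rw [← Set.Ioc_union_Ioi_eq_Ioi hab]
    exact setIntegral_union (Set.Ioc_disjoint_Ioi le_rfl) measurableSet_Ioi
      ((intOn ha).mono_set Set.Ioc_subset_Ioi_self) (intOn hb)
  have hcont : ContinuousOn (fun t : ℝ => T4 t / t) (Set.uIcc a b) := by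
    rw [Set.uIcc_of_le hab]
    intro t ht
    have ht0 : 0 < t := ha.trans_le ht.1
    refine ContinuousAt.continuousWithinAt ?_
    refine ContinuousAt.div ?_ continuousAt_id ht0.ne'
    unfold T4
    fun_prop
  have hint : IntervalIntegrable (fun t : ℝ => T4 t / t) volume a b :=
    hcont.intervalIntegrable
  have h2 : ∫ t in a..b, T4 t / t = AA b - AA a := by
    refine intervalIntegral.integral_eq_sub_of_hasDerivAt (fun t ht => ?_) hint
    rw [Set.uIcc_of_le hab] at ht
    exact AA_deriv (ha.trans_le ht.1)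
  have h3 : (∫ t in Set.Ioc a b, Real.exp (-t) / t) ≤ ∫ t in Set.Ioc a b, T4 t / t := by
    refine setIntegral_mono_on ((intOn ha).mono_set Set.Ioc_subset_Ioi_self)
      ((intervalIntegrable_iff_integrableOn_Ioc_of_le hab).1 hint) measurableSet_Ioc
      fun t ht => ?_
    have ht0 : 0 < t := ha.trans ht.1
    exact div_le_div_of_nonneg_right (exp_le_T4 ht0.le) ht0.le
  rw [← intervalIntegral.integral_of_le hab, ← intervalIntegral.integral_of_le hab, h2] at h3
  rw [h1, ← intervalIntegral.integral_of_le hab]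
  linarith

theorem log_le : Real.log (4 / 5) - Real.log (3 / 10) ≤ 0.988 := by
  rw [← Real.log_div (by norm_num) (by norm_num), Real.log_le_iff_le_exp (by norm_num)]
  refine le_trans ?_ (Real.sum_le_exp_of_nonneg (by norm_num) 6)
  norm_num [Finset.sum_range_succ, Nat.factorial]

theorem E1_03 : E1 (3 / 10) ≤ 23 / 25 := by
  have h1 := E1_split (a := 3 / 10) (b := 4 / 5) (by norm_num) (by norm_num)
  have h2 := E1_08
  have h3 := log_le
  unfold AA at h1
  norm_num at h1 h2 h3 ⊢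
  linarith

end E1Aux

/-- (N8) -/
theorem stE1 : StE1 :=
  ⟨E1Aux.E1_18, E1Aux.E1_08.trans (by norm_num), E1Aux.E1_03, fun _ hy =>
    ⟨E1Aux.nonneg hy, E1Aux.le_div hy⟩⟩

end K9
end Pool.Agent.Lib.MP_973905_nt
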