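import Pool.Agent.Lib.MP_973905_nt.K9.Stmts
import Pool.Agent.Lib.MP_973905_nt.K5.FE

/-! Module (A2): the functional equation of the shifted moment, `0 ≤ Re w ≤ 1/200`. -/

namespace Pool.Agent.Lib.MP_973905_nt
namespace K9

open K5 K5.FEq K1.Left TSM MeasureTheory ProbabilityTheory Complex Filter Topology K1 in
/-- (A2) the functional equation of the shifted moment -/
theorem stFE9 (h1 : K1.StFFpair) (h2 : K5.StM4) : StFE9 := by
  obtain ⟨C, hC1, hFF⟩ := h1
  obtain ⟨T₁, hT₁, hmean⟩ := h2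
  obtain ⟨Cz, hCz1, hCz⟩ := zeta_quarter
  set K : ℝ := 8 * (2 * C + 8) with hK
  have hK0 : 0 < K := by positivity
  have hx : Tendsto (fun T : ℝ => T ^ (1 / 10000 : ℝ)) atTop atTop :=
    tendsto_rpow_atTop (by norm_num)
  have hlog : ∀ᶠ T : ℝ in atTop, Real.log T ≤ T ^ (1 / 10000 : ℝ) := by
    have := (isLittleO_log_rpow_atTop (r := 1 / 10000) (by norm_num)).def (c := 1) one_pos
    filter_upwards [this, eventually_ge_atTop 1] with T h hT
    rw [one_mul, Real.norm_eq_abs, Real.norm_eq_abs, abs_of_nonneg (Real.log_nonneg hT),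
      abs_of_nonneg (by positivity)] at h
    exact h
  have hev : ∀ᶠ T : ℝ in atTop, Real.log T ≤ T ^ (1 / 10000 : ℝ) ∧
      max (18 * C + 9) (K + 1) ≤ T ^ (1 / 10000 : ℝ) ∧
      (2592 * Cz ^ 2) * T ^ 13 *
        ∫ x, Set.indicator {x : ℝ | T ^ (951 / 1000 : ℝ) < |x|} (fun x => (1 + |x|) ^ 4) x
      ∂(gaussianReal 0 (VV T)) ≤ 1 := by
    filter_upwards [hlog, hx.eventually_ge_atTop _, FEq.tail_ev (2592 * Cz ^ 2) 13] with T a b c
    exact ⟨a, b, c⟩
  obtain ⟨T₂, hT₂⟩ := eventually_atTop.1 hev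
  refine ⟨max T₁ T₂, hT₁.trans (le_max_left _ _),
    fun T hT τ hτ1 hτ2 H hHc hHb hH2 b hbp hb hay => ?_⟩
  have hTT₁ : T₁ ≤ T := (le_max_left _ _).trans hT
  obtain ⟨hlogy, hyy, htail⟩ := hT₂ T ((le_max_right _ _).trans hT)
  have hT3 : 3 ≤ T := hT₁.trans hTT₁
  have hT1 : 1 < T := by linarith
  have hT0 : 0 < T := by linarith
  have hL1 : 1 ≤ Real.log T := by
    rw [Real.le_log_iff_exp_le hT0]
    have := Real.exp_one_lt_d9
    linarith
  have hL0 : 0 < Real.log T := by linarith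
  set y : ℝ := T ^ (1 / 10000 : ℝ) with hydef
  have hy0 : 0 < y := by positivity
  have hy1 : 1 ≤ y := Real.one_le_rpow hT1.le (by norm_num)
  have hyC : 18 * C + 9 ≤ y := (le_max_left _ _).trans hyy
  have hyK : K + 1 ≤ y := (le_max_right _ _).trans hyy
  set x : ℝ := T ^ (1 / 1000 : ℝ) with hxdef
  have hxy : x = y ^ 10 := by
    rw [hxdef, hydef, ← Real.rpow_natCast, ← Real.rpow_mul hT0.le]; norm_num
  have hyx : y ≤ x := by
    rw [hxy]
    exact le_self_pow₀ hy1 (by norm_num)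
  have hx0 : 0 < x := by positivity
  have hx1 : 1 ≤ x := hy1.trans hyx
  have hxC : 18 * C + 9 ≤ x := hyC.trans hyx
  have hxK : K + 1 ≤ x := hyK.trans hyx
  have hlogx : Real.log T ≤ x := hlogy.trans hyx
  have hTx : T = x ^ 1000 := by
    rw [hxdef, ← Real.rpow_natCast, ← Real.rpow_mul hT0.le]; norm_num
  have hpw : ∀ k : ℕ, T ^ ((k : ℝ) / 1000) = x ^ k := by
    intro k
    rw [hxdef, ← Real.rpow_natCast, ← Real.rpow_mul hT0.le]
    congr 1
    ring
  have p951 : T ^ (951 / 1000 : ℝ) = x ^ 951 := by have := hpw 951; exact_mod_cast this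
  have p10 : T ^ (1 / 100 : ℝ) = x ^ 10 := by
    have := hpw 10
    rw [← this]; norm_num
  have p52 : T ^ (52 / 1000 : ℝ) = x ^ 52 := by have := hpw 52; exact_mod_cast this
  have p7 : T ^ (-(7 / 1000) : ℝ) = (x ^ 7)⁻¹ := by
    have := hpw 7
    rw [← this, ← Real.rpow_neg hT0.le]
    norm_num
  rw [p10] at hH2
  rw [p7]
  -- the shift
  have hbn : ‖b‖ ≤ 1 / 200 + |b.im| := by
    have := Complex.norm_le_abs_re_add_abs_im b
    rw [abs_of_nonneg hbp] at this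
    linarith
  have hbn0 := norm_nonneg b
  have hb0 := abs_nonneg b.im
  set a : ℂ := -b with ha
  have hare' : a.re = -b.re := by rw [ha, neg_re]
  have haim : |a.im| = |b.im| := by rw [ha, neg_im, abs_neg]
  have hare : |a.re| ≤ 1 / 4 := by rw [hare', abs_neg, abs_of_nonneg hbp]; linarith
  have hbre4 : |b.re| ≤ 1 / 4 := by rw [abs_of_nonneg hbp]; linarith
  have hbn1 : 1 + ‖b‖ ≤ 3 * Real.log T := by linarith
  have hbn2 : 1 + ‖b‖ ≤ 3 * x := by linarith
  have hTL : T / Real.log T ≤ |τ| := hτ1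
  have hτ0 : 0 < |τ| := lt_of_lt_of_le (by positivity) hτ1
  -- numeric facts
  have hx2 : 2 ≤ x := by linarith
  have hTL2 : x ^ 999 ≤ T / Real.log T := by
    rw [le_div_iff₀ hL0]
    calc x ^ 999 * Real.log T ≤ x ^ 999 * x := by gcongr
      _ = T := by rw [hTx]; ring
  have hτx : x ^ 999 ≤ |τ| := hTL2.trans hTL
  have hΔ2 : x ^ 951 ≤ |τ| / 2 := by
    have : 2 * x ^ 951 ≤ x ^ 999 := by
      have h2 : (2 : ℝ) ≤ x ^ 48 := le_trans hx2 (le_self_pow₀ hx1 (by norm_num))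
      calc 2 * x ^ 951 ≤ x ^ 48 * x ^ 951 := by gcongr
        _ = x ^ 999 := by ring
    linarith
  have hCb : C * (1 + ‖b‖) ^ 2 ≤ |τ| / 2 := by
    have h2 : C * (1 + ‖b‖) ^ 2 ≤ C * (3 * x) ^ 2 := by gcongr
    have h3 : 2 * (C * (3 * x) ^ 2) ≤ x ^ 999 := by
      calc 2 * (C * (3 * x) ^ 2) = (18 * C) * x ^ 2 := by ring
        _ ≤ x * x ^ 2 := by gcongr; linarith
        _ = x ^ 3 := by ring
        _ ≤ x ^ 999 := pow_le_pow_right₀ hx1 (by norm_num)
    linarith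
  -- the functions
  have pgH : IngM.PG H := ⟨hHc, T ^ 2, 0, by positivity, fun t => by
    rw [pow_zero, mul_one]; exact hHb t⟩
  have plus : ∀ (c : ℂ) (t : ℝ), (1 / 2 + c + ((1 : ℝ) * t : ℝ) * I : ℂ) = 1 / 2 + c + t * I := by
    intro c t; push_cast; ring
  have minus : ∀ (c : ℂ) (t : ℝ), (1 / 2 + c + ((-1 : ℝ) * t : ℝ) * I : ℂ) = 1 / 2 + c - t * I := by
    intro c t; push_cast; ring
  have pgP : ∀ c : ℂ, |c.re| ≤ 1 / 4 → IngM.PG (fun t : ℝ => riemannZeta (1 / 2 + c + t * I)) := by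
    intro c hc
    have := pg_line hc 1 (by simp)
    simpa only [plus] using this
  have pgM : ∀ c : ℂ, |c.re| ≤ 1 / 4 → IngM.PG (fun t : ℝ => riemannZeta (1 / 2 + c - t * I)) := by
    intro c hc
    have := pg_line hc (-1) (by simp)
    simpa only [minus] using this
  have grP : ∀ c : ℂ, |c.re| ≤ 1 / 4 → ∀ t : ℝ, ‖riemannZeta (1 / 2 + c + t * I)‖ ≤
      Cz * (1 + |c.im|) ^ 2 * (1 + |t|) ^ 2 := by
    intro c hc t
    have := zeta_line hCz hCz1 hc 1 (by simp) t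
    rwa [plus] at this
  have grM : ∀ c : ℂ, |c.re| ≤ 1 / 4 → ∀ t : ℝ, ‖riemannZeta (1 / 2 + c - t * I)‖ ≤
      Cz * (1 + |c.im|) ^ 2 * (1 + |t|) ^ 2 := by
    intro c hc t
    have := zeta_line hCz hCz1 hc (-1) (by simp) t
    rwa [minus] at this
  set Fa : ℝ → ℂ := fun t => riemannZeta (1 / 2 + a + t * I) * riemannZeta (1 / 2 + a - t * I) * H t
    with hFa
  set Fb : ℝ → ℂ := fun t => riemannZeta (1 / 2 + b + t * I) * riemannZeta (1 / 2 + b - t * I) * H t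
    with hFb
  have pgFa : IngM.PG Fa := ((pgP a hare).mul (pgM a hare)).mul pgH
  have pgFb : IngM.PG Fb := ((pgP b hbre4).mul (pgM b hbre4)).mul pgH
  set X : ℂ := ((|τ| / (2 * Real.pi) : ℝ) : ℂ) ^ (2 * b) with hX
  have eFG : FH T τ H a - X * FH T τ H b = ∫ t : ℝ, (Fa t - X * Fb t) ∂(gaussianReal τ (VV T)) := by
    rw [integral_sub (pgFa.integrable _ _) ((pgFb.integrable _ _).const_mul X), integral_const_mul]
    rfl
  rw [eFG]
  -- functional equation
  have hfe : ∀ t : ℝ, Fa t = FF (1 / 2 + b + t * I) * FF (1 / 2 + b - t * I) * Fb t := by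
    intro t
    have key : ∀ s : ℂ, 0 < s.re → s.re < 1 → riemannZeta (1 - s) = FF s * riemannZeta s := by
      intro s h1 h2
      have := riemannZeta_one_sub (s := s) (fun n hn => by
        rw [hn] at h1
        simp only [neg_re, natCast_re, Left.neg_pos_iff] at h1
        exact absurd h1 (not_lt.2 (Nat.cast_nonneg n))) (fun hn => by
        rw [hn] at h2; simp at h2)
      rw [this]
      rfl
    have e1 : (1 / 2 + a + t * I : ℂ) = 1 - (1 / 2 + b - t * I) := by rw [ha]; ring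
    have e2 : (1 / 2 + a - t * I : ℂ) = 1 - (1 / 2 + b + t * I) := by rw [ha]; ring
    have r1 : (1 / 2 + b - t * I : ℂ).re = 1 / 2 + b.re := by simp
    have r2 : (1 / 2 + b + t * I : ℂ).re = 1 / 2 + b.re := by simp
    simp only [hFa, hFb]
    rw [e1, e2, key _ (by rw [r1]; linarith) (by rw [r1]; linarith),
      key _ (by rw [r2]; linarith) (by rw [r2]; linarith)]
    ring
  -- near part
  set W : ℝ := (1 + ‖b‖) ^ 2 * (2 * C + 8) * (x ^ 39)⁻¹ * Real.log T with hW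
  have hW0 : 0 ≤ W := by positivity
  have hnear : ∀ t : ℝ, |t - τ| ≤ x ^ 951 →
      ‖FF (1 / 2 + b + t * I) * FF (1 / 2 + b - t * I) - X‖ ≤ W := by
    intro t ht
    have ht2 : |t - τ| ≤ |τ| / 2 := ht.trans hΔ2
    obtain ⟨l1, l2, _⟩ := log_ratio hτ0 ht2
    have ht0 : 0 < |t| := by linarith
    have q1 := hFF b t hbre4 (hCb.trans l1)
    have hratio : |t - τ| / |τ| ≤ x ^ 951 / x ^ 999 := by gcongr
    have hratio2 : x ^ 951 / x ^ 999 = 1 / x ^ 48 := by
      rw [div_eq_div_iff (by positivity) (by positivity)]; ring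
    rw [hratio2] at hratio
    have hratio3 : |t - τ| / |τ| ≤ x ^ 951 * Real.log T / T := by
      have h2 : (0 : ℝ) < T / Real.log T := by positivity
      calc |t - τ| / |τ| ≤ x ^ 951 / (T / Real.log T) := by gcongr
        _ = _ := by field_simp
    have q2 := cpow_diff (b := b) hτ0 ht2 (by
      calc 4 * ‖b‖ * (|t - τ| / |τ|) ≤ 4 * (3 * x) * (1 / x ^ 48) := by
            gcongr
            linarith
        _ = 12 * x / x ^ 48 := by ring
        _ ≤ 1 := by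
            rw [div_le_one (by positivity)]
            calc 12 * x ≤ x * x := by gcongr; linarith
              _ = x ^ 2 := by ring
              _ ≤ x ^ 48 := pow_le_pow_right₀ hx1 (by norm_num))
    have hpow : ∀ r : ℝ, 0 ≤ r → r ≤ 9 / 4 * T → (r / (2 * Real.pi)) ^ (2 * b.re) ≤ x ^ 10 := by
      intro r hr0 hr
      rw [← p10]
      refine le_trans (Real.rpow_le_rpow (by positivity) (?_ : r / (2 * Real.pi) ≤ T)
        (by linarith)) (Real.rpow_le_rpow_of_exponent_le hT1.le (by linarith))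
      rw [div_le_iff₀ (by positivity)]
      have := Real.pi_gt_three
      nlinarith only [this, hr, hT0, mul_pos hT0 (sub_pos.2 this)]
    have w1 : (|t| / (2 * Real.pi)) ^ (2 * b.re) ≤ x ^ 10 := hpow _ (abs_nonneg _) (by linarith)
    have w2 : (|τ| / (2 * Real.pi)) ^ (2 * b.re) ≤ x ^ 10 := hpow _ (abs_nonneg _) (by linarith)
    have hb1 : ‖b‖ ≤ (1 + ‖b‖) ^ 2 := by nlinarith only [norm_nonneg b, sq_nonneg ‖b‖]
    have q1' : ‖FF (1 / 2 + b + t * I) * FF (1 / 2 + b - t * I) -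
        ((|t| / (2 * Real.pi) : ℝ) : ℂ) ^ (2 * b)‖ ≤
        (1 + ‖b‖) ^ 2 * (2 * C) * (x ^ 39)⁻¹ * Real.log T := by
      refine q1.trans ?_
      have h3 : 1 / |t| ≤ 2 * Real.log T / T := by
        have h4 : T / (2 * Real.log T) ≤ |t| := by
          have : T / (2 * Real.log T) = T / Real.log T / 2 := by field_simp
          rw [this]; linarith
        calc 1 / |t| ≤ 1 / (T / (2 * Real.log T)) := by gcongr
          _ = _ := by field_simp
      calc C * (1 + ‖b‖) ^ 2 / |t| * (|t| / (2 * Real.pi)) ^ (2 * b.re)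
          = C * (1 + ‖b‖) ^ 2 * (1 / |t|) * (|t| / (2 * Real.pi)) ^ (2 * b.re) := by ring
        _ ≤ C * (1 + ‖b‖) ^ 2 * (2 * Real.log T / T) * x ^ 10 := by gcongr
        _ = (1 + ‖b‖) ^ 2 * (2 * C) * (x ^ 10 / T) * Real.log T := by ring
        _ ≤ (1 + ‖b‖) ^ 2 * (2 * C) * (x ^ 39)⁻¹ * Real.log T := by
            gcongr
            rw [div_le_iff₀ hT0]
            have e : (x ^ 39)⁻¹ * T = x ^ 961 := by
              rw [inv_mul_eq_iff_eq_mul₀ (by positivity), hTx]; ring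
            rw [e]
            exact pow_le_pow_right₀ hx1 (by norm_num)
    have q2' : ‖((|t| / (2 * Real.pi) : ℝ) : ℂ) ^ (2 * b) - X‖ ≤
        (1 + ‖b‖) ^ 2 * 8 * (x ^ 39)⁻¹ * Real.log T := by
      rw [hX]
      refine q2.trans ?_
      calc (|τ| / (2 * Real.pi)) ^ (2 * b.re) * (8 * ‖b‖ * (|t - τ| / |τ|))
          ≤ x ^ 10 * (8 * (1 + ‖b‖) ^ 2 * (x ^ 951 * Real.log T / T)) := by gcongr
        _ = (1 + ‖b‖) ^ 2 * 8 * (x ^ 961 / T) * Real.log T := by ring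
        _ = (1 + ‖b‖) ^ 2 * 8 * (x ^ 39)⁻¹ * Real.log T := by
            have : x ^ 961 / T = (x ^ 39)⁻¹ := by
              rw [div_eq_iff hT0.ne', eq_inv_mul_iff_mul_eq₀ (by positivity), hTx]; ring
            rw [this]
    calc ‖FF (1 / 2 + b + t * I) * FF (1 / 2 + b - t * I) - X‖
        ≤ ‖FF (1 / 2 + b + t * I) * FF (1 / 2 + b - t * I) -
          ((|t| / (2 * Real.pi) : ℝ) : ℂ) ^ (2 * b)‖ +
          ‖((|t| / (2 * Real.pi) : ℝ) : ℂ) ^ (2 * b) - X‖ := norm_sub_le_norm_sub_add_norm_sub _ _ _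
      _ ≤ (1 + ‖b‖) ^ 2 * (2 * C) * (x ^ 39)⁻¹ * Real.log T +
          (1 + ‖b‖) ^ 2 * 8 * (x ^ 39)⁻¹ * Real.log T := add_le_add q1' q2'
      _ = W := by rw [hW]; ring
  -- far part
  have hXn : ‖X‖ ≤ T := by
    rw [hX, norm_cpow_eq_rpow_re_of_pos (by positivity)]
    have e : (2 * b).re = 2 * b.re := by simp
    rw [e]
    have h2 : |τ| / (2 * Real.pi) ≤ T := by
      rw [div_le_iff₀ (by positivity)]
      have := Real.pi_gt_three
      nlinarith only [this, hT0, hτ2, mul_pos hT0 (sub_pos.2 this)]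
    calc (|τ| / (2 * Real.pi)) ^ (2 * b.re) ≤ T ^ (2 * b.re) :=
          Real.rpow_le_rpow (by positivity) h2 (by linarith)
      _ ≤ T ^ (1 : ℝ) := Real.rpow_le_rpow_of_exponent_le hT1.le (by linarith)
      _ = T := Real.rpow_one T
  have hxT : x ≤ T := by rw [hTx]; exact le_self_pow₀ hx1 (by norm_num)
  have hyT : 1 + |b.im| ≤ 2 * T := by linarith
  have hfar : ∀ t : ℝ, ‖Fa t - X * Fb t‖ ≤ 2592 * Cz ^ 2 * T ^ 11 * (1 + |t - τ|) ^ 4 := by
    intro t
    have f1 : ‖Fa t‖ ≤ (Cz * (2 * T) ^ 2 * (1 + |t|) ^ 2) * (Cz * (2 * T) ^ 2 * (1 + |t|) ^ 2) *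
        T ^ 2 := by
      simp only [hFa]
      rw [norm_mul, norm_mul]
      have g1 := grP a hare t
      have g2 := grM a hare t
      rw [haim] at g1 g2
      have g1' : ‖riemannZeta (1 / 2 + a + t * I)‖ ≤ Cz * (2 * T) ^ 2 * (1 + |t|) ^ 2 :=
        g1.trans (by gcongr)
      have g2' : ‖riemannZeta (1 / 2 + a - t * I)‖ ≤ Cz * (2 * T) ^ 2 * (1 + |t|) ^ 2 :=
        g2.trans (by gcongr)
      have g3 := hHb t
      gcongr
    have f2 : ‖Fb t‖ ≤ (Cz * (2 * T) ^ 2 * (1 + |t|) ^ 2) * (Cz * (2 * T) ^ 2 * (1 + |t|) ^ 2) *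
        T ^ 2 := by
      simp only [hFb]
      rw [norm_mul, norm_mul]
      have g1 := grP b hbre4 t
      have g2 := grM b hbre4 t
      have g1' : ‖riemannZeta (1 / 2 + b + t * I)‖ ≤ Cz * (2 * T) ^ 2 * (1 + |t|) ^ 2 :=
        g1.trans (by gcongr)
      have g2' : ‖riemannZeta (1 / 2 + b - t * I)‖ ≤ Cz * (2 * T) ^ 2 * (1 + |t|) ^ 2 :=
        g2.trans (by gcongr)
      have g3 := hHb t
      gcongr
    have f3 : 1 + |t| ≤ (3 * T) * (1 + |t - τ|) := by
      have h2 : |t| ≤ |t - τ| + |τ| := by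
        have := abs_add_le (t - τ) τ
        rwa [sub_add_cancel] at this
      have h3 := abs_nonneg (t - τ)
      nlinarith only [h2, h3, hτ2, hT1, mul_nonneg (sub_pos.2 hT1).le h3]
    calc ‖Fa t - X * Fb t‖ ≤ ‖Fa t‖ + ‖X‖ * ‖Fb t‖ := by
          refine (norm_sub_le _ _).trans ?_
          rw [norm_mul X (Fb t)]
      _ ≤ (Cz * (2 * T) ^ 2 * (1 + |t|) ^ 2) * (Cz * (2 * T) ^ 2 * (1 + |t|) ^ 2) * T ^ 2 +
          T * ((Cz * (2 * T) ^ 2 * (1 + |t|) ^ 2) * (Cz * (2 * T) ^ 2 * (1 + |t|) ^ 2) * T ^ 2) := by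
          gcongr
      _ = 16 * Cz ^ 2 * T ^ 6 * (1 + T) * (1 + |t|) ^ 4 := by ring
      _ ≤ 16 * Cz ^ 2 * T ^ 6 * (2 * T) * ((3 * T) * (1 + |t - τ|)) ^ 4 := by
          gcongr
          linarith
      _ = _ := by ring
  -- pointwise bound
  set l : ℝ := (x ^ 21)⁻¹ with hl
  have hl0 : 0 < l := by positivity
  have hpt : ∀ t : ℝ, ‖Fa t - X * Fb t‖ ≤
      (W * (l / 4) * (‖riemannZeta (1 / 2 + b + t * I)‖ ^ 4 +
        ‖riemannZeta (1 / 2 + b - t * I)‖ ^ 4) + W * (1 / (2 * l)) * ‖H t‖ ^ 2) +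
      2592 * Cz ^ 2 * T ^ 11 * Set.indicator {x : ℝ | T ^ (951 / 1000 : ℝ) < |x|}
        (fun x => (1 + |x|) ^ 4) (t - τ) := by
    intro t
    by_cases ht : T ^ (951 / 1000 : ℝ) < |t - τ|
    · rw [Set.indicator_of_mem (show t - τ ∈ {x : ℝ | T ^ (951 / 1000 : ℝ) < |x|} from ht)]
      refine (hfar t).trans ?_
      have : 0 ≤ W * (l / 4) * (‖riemannZeta (1 / 2 + b + t * I)‖ ^ 4 +
        ‖riemannZeta (1 / 2 + b - t * I)‖ ^ 4) + W * (1 / (2 * l)) * ‖H t‖ ^ 2 := by positivity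
      linarith
    · rw [Set.indicator_of_notMem (show t - τ ∉ {x : ℝ | T ^ (951 / 1000 : ℝ) < |x|} from ht),
        mul_zero, add_zero]
      rw [p951, not_lt] at ht
      have h2 := hnear t ht
      have h3 : Fa t - X * Fb t = (FF (1 / 2 + b + t * I) * FF (1 / 2 + b - t * I) - X) *
          (riemannZeta (1 / 2 + b + t * I) * riemannZeta (1 / 2 + b - t * I) * H t) := by
        rw [hfe t]
        simp only [hFb]
        ring
      rw [h3, norm_mul, norm_mul, norm_mul]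
      set z₁ := ‖riemannZeta (1 / 2 + b + t * I)‖
      set z₂ := ‖riemannZeta (1 / 2 + b - t * I)‖
      have h5 : 0 ≤ z₁ := norm_nonneg _
      have h6 : 0 ≤ z₂ := norm_nonneg _
      have h7 := amgm (z₁ := z₁) (z₂ := z₂) (h := ‖H t‖) hl0
      calc ‖FF (1 / 2 + b + t * I) * FF (1 / 2 + b - t * I) - X‖ * (z₁ * z₂ * ‖H t‖)
          ≤ W * (l / 4 * (z₁ ^ 4 + z₂ ^ 4) + 1 / (2 * l) * ‖H t‖ ^ 2) := by gcongr
        _ = _ := by ring
  -- fourth moments
  have hbT : |τ| + |b.im| ≤ 2 * T := by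
    have h3 : 2 * x ≤ T := by
      calc 2 * x ≤ x * x := by gcongr
        _ = x ^ 2 := by ring
        _ ≤ x ^ 1000 := pow_le_pow_right₀ hx1 (by norm_num)
        _ = T := hTx.symm
    linarith
  have hline : ∀ t : ℝ, (1 / 2 + b + t * I : ℂ) = ((1 / 2 + b.re : ℝ) : ℂ) +
      ((t + b.im : ℝ) : ℂ) * I := by
    intro t
    apply Complex.ext
    · have : (1 / 2 + b + t * I : ℂ).re = 1 / 2 + b.re := by simp
      rw [this, line_re]
    · have : (1 / 2 + b + t * I : ℂ).im = b.im + t := by simp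
      rw [this, line_im]
      ring
  have m1 : EG T τ (fun t => ‖riemannZeta (1 / 2 + b + t * I)‖ ^ 4) ≤ x ^ 52 := by
    have e := EG_add T τ b.im (fun t => ‖riemannZeta (((1 / 2 + b.re : ℝ) : ℂ) + t * I)‖ ^ 4)
    have h2 := hmean T hTT₁ (τ + b.im) ((abs_add_le _ _).trans hbT) b.re hbp
      (by linarith)
    rw [← e, p52] at h2
    refine le_trans (le_of_eq ?_) h2
    congr 1
    funext t
    rw [hline t]
  have m2 : EG T τ (fun t => ‖riemannZeta (1 / 2 + b - t * I)‖ ^ 4) ≤ x ^ 52 := by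
    have e := EG_neg T τ (fun t => ‖riemannZeta (1 / 2 + b + t * I)‖ ^ 4)
    have e2 := EG_add T (-τ) b.im (fun t => ‖riemannZeta (((1 / 2 + b.re : ℝ) : ℂ) + t * I)‖ ^ 4)
    have h2 := hmean T hTT₁ (-τ + b.im) ((abs_add_le _ _).trans (by rwa [abs_neg])) b.re
      hbp (by linarith)
    rw [← e2, p52] at h2
    refine le_trans (le_of_eq ?_) h2
    have e3 : (fun t : ℝ => ‖riemannZeta (1 / 2 + b - t * I)‖ ^ 4) =
        fun t : ℝ => (fun t : ℝ => ‖riemannZeta (1 / 2 + b + t * I)‖ ^ 4) (-t) := by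
      funext t
      simp only
      congr 3
      push_cast
      ring
    rw [e3, e]
    congr 1
    funext t
    rw [hline t]
  have hfour : ∀ z : ℂ, ‖z * z‖ ^ 2 = ‖z‖ ^ 4 := by
    intro z
    rw [norm_mul]; ring
  have i1 : Integrable (fun t : ℝ => ‖riemannZeta (1 / 2 + b + t * I)‖ ^ 4)
      (gaussianReal τ (VV T)) := by
    have := ((pgP b hbre4).mul (pgP b hbre4)).integrable_sq τ (VV T)
    simpa only [hfour] using this
  have i2 : Integrable (fun t : ℝ => ‖riemannZeta (1 / 2 + b - t * I)‖ ^ 4)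
      (gaussianReal τ (VV T)) := by
    have := ((pgM b hbre4).mul (pgM b hbre4)).integrable_sq τ (VV T)
    simpa only [hfour] using this
  have i4 := pgH.integrable_sq τ (VV T)
  have hmeas : MeasurableSet {x : ℝ | T ^ (951 / 1000 : ℝ) < |x|} :=
    measurableSet_lt measurable_const measurable_id.abs
  have i3 : Integrable (fun t : ℝ => Set.indicator {x : ℝ | T ^ (951 / 1000 : ℝ) < |x|}
        (fun x => (1 + |x|) ^ 4) (t - τ)) (gaussianReal τ (VV T)) := by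
    refine integrable_of_poly τ (VV T) (C := (1 + |τ|) ^ 4) (m := 4) ?_ fun t => ?_
    · refine Measurable.aestronglyMeasurable ?_
      have : Measurable (Set.indicator {x : ℝ | T ^ (951 / 1000 : ℝ) < |x|}
        (fun x : ℝ => (1 + |x|) ^ 4)) := Measurable.indicator (by fun_prop) hmeas
      exact this.comp (measurable_id.sub_const τ)
    · rw [Real.norm_eq_abs, abs_of_nonneg (Set.indicator_nonneg (fun t _ => by positivity) _)]
      refine (Set.indicator_le_self' (fun _ _ => by positivity) _).trans ?_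
      rw [← mul_pow]
      have h2 : |t - τ| ≤ |t| + |τ| := abs_sub _ _
      have h3 := abs_nonneg t
      have h4 := abs_nonneg τ
      have : 1 + |t - τ| ≤ (1 + |τ|) * (1 + |t|) := by nlinarith only [h2, h3, h4, mul_nonneg h3 h4]
      gcongr
  have i12 : Integrable (fun t : ℝ => W * (l / 4) * (‖riemannZeta (1 / 2 + b + t * I)‖ ^ 4 +
          ‖riemannZeta (1 / 2 + b - t * I)‖ ^ 4)) (gaussianReal τ (VV T)) :=
    (i1.add i2).const_mul _
  have i44 : Integrable (fun t : ℝ => W * (1 / (2 * l)) * ‖H t‖ ^ 2) (gaussianReal τ (VV T)) :=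
    i4.const_mul _
  have i33 : Integrable (fun t : ℝ => 2592 * Cz ^ 2 * T ^ 11 *
      Set.indicator {x : ℝ | T ^ (951 / 1000 : ℝ) < |x|}
        (fun x => (1 + |x|) ^ 4) (t - τ)) (gaussianReal τ (VV T)) := i3.const_mul _
  have hfin1 : ‖∫ t : ℝ, (Fa t - X * Fb t) ∂(gaussianReal τ (VV T))‖
      ≤ ∫ t : ℝ, ((W * (l / 4) * (‖riemannZeta (1 / 2 + b + t * I)‖ ^ 4 +
        ‖riemannZeta (1 / 2 + b - t * I)‖ ^ 4) + W * (1 / (2 * l)) * ‖H t‖ ^ 2) +
        2592 * Cz ^ 2 * T ^ 11 * Set.indicator {x : ℝ | T ^ (951 / 1000 : ℝ) < |x|}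
        (fun x => (1 + |x|) ^ 4) (t - τ)) ∂(gaussianReal τ (VV T)) :=
        norm_integral_le_of_norm_le ((i12.add i44).add i33) (Filter.Eventually.of_forall hpt)
  have hfin : ‖∫ t : ℝ, (Fa t - X * Fb t) ∂(gaussianReal τ (VV T))‖ ≤
      W * (l / 4) * (EG T τ (fun t => ‖riemannZeta (1 / 2 + b + t * I)‖ ^ 4) +
          EG T τ (fun t => ‖riemannZeta (1 / 2 + b - t * I)‖ ^ 4)) +
        W * (1 / (2 * l)) * EG T τ (fun t => ‖H t‖ ^ 2) +
        2592 * Cz ^ 2 * T ^ 11 * ∫ t : ℝ, Set.indicator {x : ℝ | T ^ (951 / 1000 : ℝ) < |x|}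
        (fun x => (1 + |x|) ^ 4) (t - τ) ∂(gaussianReal τ (VV T)) := by
    refine hfin1.trans (le_of_eq ?_)
    have i124 : Integrable (fun t : ℝ => W * (l / 4) * (‖riemannZeta (1 / 2 + b + t * I)‖ ^ 4 +
        ‖riemannZeta (1 / 2 + b - t * I)‖ ^ 4) + W * (1 / (2 * l)) * ‖H t‖ ^ 2)
        (gaussianReal τ (VV T)) := i12.add i44
    rw [integral_add i124 i33, integral_add i12 i44, integral_const_mul,
      integral_const_mul, integral_const_mul, integral_add i1 i2]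
    rfl
  have htail2 : ∫ t : ℝ, Set.indicator {x : ℝ | T ^ (951 / 1000 : ℝ) < |x|}
        (fun x => (1 + |x|) ^ 4) (t - τ) ∂(gaussianReal τ (VV T)) =
      ∫ x, Set.indicator {x : ℝ | T ^ (951 / 1000 : ℝ) < |x|} (fun x => (1 + |x|) ^ 4) x
      ∂(gaussianReal 0 (VV T)) := by
    have := Sharp.EG_shift T τ (F := fun t => Set.indicator {x : ℝ | T ^ (951 / 1000 : ℝ) < |x|}
        (fun x => (1 + |x|) ^ 4) (t - τ))
    unfold EG at this
    rw [this]
    simp only [add_sub_cancel_right]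
  rw [htail2] at hfin
  refine hfin.trans ?_
  set tl : ℝ := ∫ x, Set.indicator {x : ℝ | T ^ (951 / 1000 : ℝ) < |x|}
    (fun x => (1 + |x|) ^ 4) x ∂(gaussianReal 0 (VV T)) with htl
  -- the logarithms
  have hW1 : W * x ^ 31 ≤ (x ^ 7)⁻¹ / 2 := by
    have h3 : (1 + ‖b‖) ^ 2 * Real.log T ≤ 9 * y ^ 3 := by
      calc (1 + ‖b‖) ^ 2 * Real.log T ≤ (3 * Real.log T) ^ 2 * Real.log T := by gcongr
        _ = 9 * Real.log T ^ 3 := by ring
        _ ≤ 9 * y ^ 3 := by gcongr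
    have h4 : 2 * (2 * C + 8) * (9 * y ^ 3) ≤ x := by
      have h5 : 2 * (2 * C + 8) * 9 ≤ y * 18 := by
        rw [hK] at hyK
        linarith
      have h60 : (9 : ℝ) ≤ y := by linarith
      have h6 : (18 : ℝ) ≤ y ^ 2 := by nlinarith only [h60]
      calc 2 * (2 * C + 8) * (9 * y ^ 3) = (2 * (2 * C + 8) * 9) * y ^ 3 := by ring
        _ ≤ (y * 18) * y ^ 3 := by gcongr
        _ = 18 * y ^ 4 := by ring
        _ ≤ y ^ 2 * y ^ 4 := by gcongr
        _ = y ^ 6 := by ring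
        _ ≤ y ^ 10 := pow_le_pow_right₀ hy1 (by norm_num)
        _ = x := hxy.symm
    have e1 : W * x ^ 31 = ((1 + ‖b‖) ^ 2 * Real.log T) * (2 * C + 8) * (x ^ 8)⁻¹ := by
      rw [hW]
      have : (x ^ 39)⁻¹ * x ^ 31 = (x ^ 8)⁻¹ := by
        rw [inv_mul_eq_iff_eq_mul₀ (by positivity), eq_mul_inv_iff_mul_eq₀ (by positivity)]
        ring
      linear_combination (1 + ‖b‖) ^ 2 * (2 * C + 8) * Real.log T * this
    have e2 : (x ^ 7)⁻¹ / 2 = x / 2 * (x ^ 8)⁻¹ := by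
      field_simp
    rw [e1, e2]
    refine mul_le_mul_of_nonneg_right ?_ (by positivity)
    calc ((1 + ‖b‖) ^ 2 * Real.log T) * (2 * C + 8) ≤ (9 * y ^ 3) * (2 * C + 8) := by gcongr
      _ ≤ x / 2 := by linarith
  have hmain : W * (l / 4) * (EG T τ (fun t => ‖riemannZeta (1 / 2 + b + t * I)‖ ^ 4) +
          EG T τ (fun t => ‖riemannZeta (1 / 2 + b - t * I)‖ ^ 4)) +
        W * (1 / (2 * l)) * EG T τ (fun t => ‖H t‖ ^ 2) ≤ W * x ^ 31 := by
    calc W * (l / 4) * (EG T τ (fun t => ‖riemannZeta (1 / 2 + b + t * I)‖ ^ 4) +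
          EG T τ (fun t => ‖riemannZeta (1 / 2 + b - t * I)‖ ^ 4)) +
        W * (1 / (2 * l)) * EG T τ (fun t => ‖H t‖ ^ 2)
        ≤ W * (l / 4) * (x ^ 52 + x ^ 52) + W * (1 / (2 * l)) * x ^ 10 := by gcongr
      _ = W * x ^ 31 := by
          rw [hl]
          field_simp
          ring
  have htl0 : 0 ≤ tl := integral_nonneg fun x => Set.indicator_nonneg (fun t _ => by positivity) x
  have hfar2 : 2592 * Cz ^ 2 * T ^ 11 * tl ≤ (x ^ 7)⁻¹ / 2 := by
    have h3 : 2592 * Cz ^ 2 * T ^ 11 * tl * T ^ 2 ≤ 1 := by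
      refine le_trans (le_of_eq ?_) htail
      ring
    have h4 : 2592 * Cz ^ 2 * T ^ 11 * tl ≤ 1 / T ^ 2 := by
      rw [le_div_iff₀ (by positivity)]
      exact h3
    refine h4.trans ?_
    rw [div_le_iff₀ (by positivity)]
    have h5 : 2 * x ^ 7 ≤ T ^ 2 := by
      calc 2 * x ^ 7 ≤ x * x ^ 7 := by gcongr
        _ = x ^ 8 := by ring
        _ ≤ x ^ 2000 := pow_le_pow_right₀ hx1 (by norm_num)
        _ = T ^ 2 := by rw [hTx]; ring
    calc (1 : ℝ) = (x ^ 7)⁻¹ / 2 * (2 * x ^ 7) := by field_simp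
      _ ≤ (x ^ 7)⁻¹ / 2 * T ^ 2 := by gcongr
  linarith

end K9
end Pool.Agent.Lib.MP_973905_nt
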