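import Pool.Agent.Lib.MP_973905_nt.K9.Base

/-! Module (Z4) of folder K9: the first moment is a product over the blocks. -/

namespace Pool.Agent.Lib.MP_973905_nt
namespace K9

open MeasureTheory ProbabilityTheory Complex Filter Topology K1 K4 K5

/-- (Z4) the first moment is a product over the blocks -/
theorem stFactF : StFactF := by
  intro k hk0 hk1 M C hC
  refine ⟨3, le_rfl, fun T hT => ?_⟩
  have hT1 : 1 < T := by linarith
  have ha : 0 < C.a T := Blk9.a_pos hC hT1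
  set A : ℕ → (ℕ → ℂ) → ℂ := fun j f =>
    ZZ (Sj T M (JJ T) j) (tw (1 / 2 + ((C.a T : ℝ) : ℂ)) f) *
      (Fc T M (JJ T) (k - 1) (Finset.range (JJ T + 1)) ∅ j (tw (1 / 2) f) *
        (starRingEnd ℂ) (Fc T M (JJ T) k (Finset.range (JJ T + 1)) ∅ j (tw (1 / 2) f))) with hA
  set B : ℕ → (ℕ → ℂ) → ℂ := fun i f =>
    ZZ (C.U T i) (tw (1 / 2 + ((C.a T : ℝ) : ℂ)) f) *
      (Polynomial.aeval (C.P T i (tw (1 / 2) f)) (C.A i) *
        (starRingEnd ℂ) (Polynomial.aeval (C.P T i (tw (1 / 2) f)) (C.B i))) with hB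
  set S := PS (Real.exp (C.te 0 * Real.log T)) T with hS
  set E : (ℕ → ℂ) → ℂ := fun f => ZZ S (tw (1 / 2 + ((C.a T : ℝ) : ℂ)) f) with hE
  have e1 : ER (SB9 C T M) (fun f => ZZ (PS 0 T) (tw (1 / 2 + ((C.a T : ℝ) : ℂ)) f) *
        (G1 k C T M (tw (1 / 2) f) * (starRingEnd ℂ) (G2 k C T M (tw (1 / 2) f)))) =
      ER (SB9 C T M) (fun f =>
      (∏ j ∈ Finset.range (JJ T + 1), A j f) * (∏ i ∈ Finset.range C.N, B i f) * E f) := by
    congr 1
    funext f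
    rw [← Blk9.UU_SB9 hC hT1]
    unfold ZZ G1 G2 NN AA
    rw [Blk9.prod_UU_SB9 hC hT1]
    simp only [hA, hB, hE, ZZ, Finset.prod_mul_distrib, map_mul, map_prod, ← hS]
    ring
  rw [e1, Blk9.fact_gen hC hT1 A B E (by
    intro j f g' hfg
    simp only [hA]
    rw [ZZ_dep (w := 1 / 2 + ((C.a T : ℝ) : ℂ)) hfg, Fc_dep (α := k - 1) hfg,
      Fc_dep (α := k) hfg]) (by
    intro i f g' hfg
    simp only [hB]
    rw [ZZ_dep (w := 1 / 2 + ((C.a T : ℝ) : ℂ)) hfg, Blk9.P_dep hfg]) (by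
    intro f g' hfg
    simp only [hE]
    rw [ZZ_dep (w := 1 / 2 + ((C.a T : ℝ) : ℂ)) hfg])]
  have e2 : ES S E = 1 := by
    have h := ES_ZZ_eq_one (S := S) (fun p hp => ((Blk9.mem_top hT1).mp hp).1)
      (σ := 1 / 2 + C.a T) (by linarith)
    push_cast at h
    exact h
  rw [e2, mul_one]
  rfl

end K9
end Pool.Agent.Lib.MP_973905_nt
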