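import Pool.Agent.Lib.MP_973905_nt.K9.Base
import Pool.Agent.Lib.MP_973905_nt.K1.LF

/-! Module (Z3) of folder K9: the arithmetic factor on the side of zeta is a product over the
blocks, and its sign at the dual point. -/

namespace Pool.Agent.Lib.MP_973905_nt
namespace K9

open MeasureTheory ProbabilityTheory Complex Filter Topology K1 K4 K5

namespace FactSAx

/-- the square of the weight as a product over the blocks -/
lemma norm_G1_sq (k : ℝ) (C : Cfg) (T : ℝ) (M : ℕ) (f : ℕ → ℂ) : ‖G1 k C T M f‖ ^ 2 =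
    (∏ j ∈ Finset.range (JJ T + 1),
      ‖Fc T M (JJ T) (k - 1) (Finset.range (JJ T + 1)) ∅ j f‖ ^ 2) *
        ∏ i ∈ Finset.range C.N, ‖Polynomial.aeval (C.P T i f) (C.A i)‖ ^ 2 := by
  unfold G1 NN
  rw [norm_mul, mul_pow, FactM.norm_AA_sq, norm_prod, ← Finset.prod_pow]

/-- the first part, for a small complex shift -/
lemma main {k : ℝ} {M : ℕ} {C : Cfg} (hC : Adm k M C) {T : ℝ} (hT3 : 3 ≤ T)
    (hL4 : 2 * (C.psi + 1) ≤ C.te 0 * Real.log T) {N : ℕ} {c : ℕ → ℕ → ℂ} (hN : (N : ℝ) ≤ T)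
    (hG : ∀ f, CMul f → ((‖G1 k C T M f‖ ^ 2 : ℝ) : ℂ) = GB N c f) {w : ℂ}
    (hw : ‖w‖ ≤ C.psi / Real.log T) :
    RB N c w = (∏ j ∈ Finset.range (JJ T + 1), EBo T M k (Finset.range (JJ T + 1)) ∅ w j) *
        ∏ i ∈ Finset.range C.N, ETs C T w i := by
  have h : StLF := K1.stLF
  have htb := Blk9.te_zero_pos hC
  have hT1 : 1 < T := by linarith
  have hT0 : 0 < T := by linarith
  have hL : 0 < Real.log T := Real.log_pos hT1
  have hL4' : 8 * (C.psi + 1) ≤ Real.log T := by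
    nlinarith [hC.htop]
  have hmem : ∀ n ∈ Finset.Icc 1 N, n ∈ Nat.factoredNumbers (UU (SB9 C T M)) := by
    intro n hn
    rw [Finset.mem_Icc] at hn
    refine Blk9.mem_factored_SB9 hC hT1 hn.1 ?_
    have : (n : ℝ) ≤ N := by exact_mod_cast hn.2
    exact this.trans hN
  have hwn : ‖w‖ ≤ 1 / 4 := hw.trans (by
    rw [div_le_div_iff₀ hL (by norm_num)]; linarith [hC.hpsi])
  have hwre : -(1 / 2) < w.re := by
    have h1 := Complex.abs_re_le_norm w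
    have h2 := neg_abs_le w.re
    linarith
  rw [← FactM.RB_eq (Blk9.blk_SB9 hC hT1) hmem c hwre]
  set A : ℕ → (ℕ → ℂ) → ℂ := fun j f => ZZ (Sj T M (JJ T) j) (tw (1 / 2 + w) f) *
    (starRingEnd ℂ) (ZZ (Sj T M (JJ T) j) (tw (1 / 2 + (starRingEnd ℂ) w) f)) *
    ((‖Fc T M (JJ T) (k - 1) (Finset.range (JJ T + 1)) ∅ j (tw (1 / 2) f)‖ ^ 2 : ℝ) : ℂ)
    with hA
  set B : ℕ → (ℕ → ℂ) → ℂ := fun i f => ZZ (C.U T i) (tw (1 / 2 + w) f) *
    (starRingEnd ℂ) (ZZ (C.U T i) (tw (1 / 2 + (starRingEnd ℂ) w) f)) *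
    ((‖Polynomial.aeval (C.P T i (tw (1 / 2) f)) (C.A i)‖ ^ 2 : ℝ) : ℂ) with hB
  set S := PS (Real.exp (C.te 0 * Real.log T)) T with hS
  set E : (ℕ → ℂ) → ℂ := fun f => ZZ S (tw (1 / 2 + w) f) *
    (starRingEnd ℂ) (ZZ S (tw (1 / 2 + (starRingEnd ℂ) w) f)) with hE
  have e1 : ER (SB9 C T M) (fun f => ZZ (UU (SB9 C T M)) (tw (1 / 2 + w) f) *
    (starRingEnd ℂ) (ZZ (UU (SB9 C T M)) (tw (1 / 2 + (starRingEnd ℂ) w) f)) *
      GB N c (tw (1 / 2) f)) = ER (SB9 C T M) (fun f =>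
      (∏ j ∈ Finset.range (JJ T + 1), A j f) * (∏ i ∈ Finset.range C.N, B i f) * E f) := by
    refine FinM.ER_congr fun ω => ?_
    rw [← hG _ (cmul_tw (cmul_XX _ ω) _), norm_G1_sq]
    unfold ZZ
    rw [Blk9.prod_UU_SB9 hC hT1, Blk9.prod_UU_SB9 hC hT1]
    simp only [hA, hB, hE, ZZ, Finset.prod_mul_distrib, map_mul, map_prod, ofReal_mul,
      ofReal_prod, ← hS]
    ring
  rw [e1, Blk9.fact_gen hC hT1 A B E (by
    intro j f g' hfg
    simp only [hA]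
    rw [ZZ_dep (w := 1 / 2 + w) hfg, ZZ_dep (w := 1 / 2 + (starRingEnd ℂ) w) hfg,
      Fc_dep hfg]) (by
    intro i f g' hfg
    simp only [hB]
    rw [ZZ_dep (w := 1 / 2 + w) hfg, ZZ_dep (w := 1 / 2 + (starRingEnd ℂ) w) hfg,
      Blk9.P_dep hfg]) (by
    intro f g' hfg
    simp only [hE]
    rw [ZZ_dep (w := 1 / 2 + w) hfg, ZZ_dep (w := 1 / 2 + (starRingEnd ℂ) w) hfg]),
    Blk9.prod_UU_SB9 hC hT1]
  have hbd : ∀ p ∈ S, ‖(p : ℂ) ^ (-(1 / 2 + w))‖ ≤ 3 / 4 := by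
    intro p hp
    obtain ⟨hpp, h1, h2⟩ := (Blk9.mem_top hT1).mp hp
    have hp0 : (0 : ℝ) < p := by exact_mod_cast hpp.pos
    have h3 : C.te 0 * Real.log T ≤ Real.log p := by
      have := Real.log_le_log (Real.exp_pos _) h1.le
      rwa [Real.log_exp] at this
    have h4 : Real.log p ≤ Real.log T := Real.log_le_log hp0 h2
    refine (RAx.norm_x hpp w).trans ?_
    rw [Real.rpow_def_of_pos hp0, ← Real.exp_add]
    have h5 : ‖w‖ * Real.log p ≤ C.psi := by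
      calc ‖w‖ * Real.log p ≤ (C.psi / Real.log T) * Real.log T := by
            have h6 : 0 ≤ Real.log p := by linarith [hC.hpsi]
            have h7 : 0 ≤ C.psi / Real.log T := div_nonneg hC.hpsi.le hL.le
            gcongr
        _ = C.psi := by field_simp
    calc Real.exp (Real.log p * (-(1 / 2)) + ‖w‖ * Real.log p) ≤ Real.exp (-1) :=
          Real.exp_le_exp.mpr (by linarith)
      _ ≤ 3 / 4 := by
          rw [Real.exp_neg]
          have : (2 : ℝ) ≤ Real.exp 1 := by linarith [Real.exp_one_gt_d9]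
          calc (Real.exp 1)⁻¹ ≤ (2 : ℝ)⁻¹ := by gcongr
            _ ≤ 3 / 4 := by norm_num
  have htop := RAx.top_eq h (fun p hp => ((Blk9.mem_top hT1).mp hp).1) hbd hbd
  have e2 : ∏ j ∈ Finset.range (JJ T + 1), EBo T M k (Finset.range (JJ T + 1)) ∅ w j =
      (∏ j ∈ Finset.range (JJ T + 1), ES (Sj T M (JJ T) j) (A j)) *
        ∏ j ∈ Finset.range (JJ T + 1), ∏ p ∈ Sj T M (JJ T) j, (1 - (p : ℂ) ^ (-(1 + w + w))) := by
    rw [← Finset.prod_mul_distrib]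
    rfl
  have e3 : ∏ i ∈ Finset.range C.N, ETs C T w i =
      (∏ i ∈ Finset.range C.N, ES (C.U T i) (B i)) *
        ∏ i ∈ Finset.range C.N, ∏ p ∈ C.U T i, (1 - (p : ℂ) ^ (-(1 + w + w))) := by
    rw [← Finset.prod_mul_distrib]
    rfl
  have e4 : ES S E * ∏ p ∈ S, (1 - (p : ℂ) ^ (-(1 + w + w))) = 1 := htop
  rw [e2, e3]
  linear_combination (∏ j ∈ Finset.range (JJ T + 1), ES (Sj T M (JJ T) j) (A j)) *
        (∏ j ∈ Finset.range (JJ T + 1), ∏ p ∈ Sj T M (JJ T) j, (1 - (p : ℂ) ^ (-(1 + w + w)))) *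
        (∏ i ∈ Finset.range C.N, ES (C.U T i) (B i)) *
        (∏ i ∈ Finset.range C.N, ∏ p ∈ C.U T i, (1 - (p : ℂ) ^ (-(1 + w + w)))) * e4

/-- the second part: sign of the arithmetic factor at a real point -/
lemma sign {k : ℝ} {M : ℕ} {C : Cfg} (hC : Adm k M C) {T : ℝ} (hT3 : 3 ≤ T)
    {N : ℕ} {c : ℕ → ℕ → ℂ} (hN : (N : ℝ) ≤ T)
    (hG : ∀ f, CMul f → ((‖G1 k C T M f‖ ^ 2 : ℝ) : ℂ) = GB N c f) {x : ℝ}
    (hx : -(1 / 2) < x) : ∃ y : ℝ, 0 ≤ y ∧ RB N c (x : ℂ) = y := by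
  have hT1 : 1 < T := by linarith
  have hmem : ∀ n ∈ Finset.Icc 1 N, n ∈ Nat.factoredNumbers (UU (SB9 C T M)) := by
    intro n hn
    rw [Finset.mem_Icc] at hn
    refine Blk9.mem_factored_SB9 hC hT1 hn.1 ?_
    have : (n : ℝ) ≤ N := by exact_mod_cast hn.2
    exact this.trans hN
  rw [← FactM.RB_eq (Blk9.blk_SB9 hC hT1) hmem c (w := (x : ℂ)) (by simpa using hx)]
  have e1 : ER (SB9 C T M) (fun f => ZZ (UU (SB9 C T M)) (tw (1 / 2 + (x : ℂ)) f) *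
    (starRingEnd ℂ) (ZZ (UU (SB9 C T M)) (tw (1 / 2 + (starRingEnd ℂ) (x : ℂ)) f)) *
      GB N c (tw (1 / 2) f)) = ((ER (SB9 C T M) (fun f =>
        ‖ZZ (UU (SB9 C T M)) (tw (1 / 2 + (x : ℂ)) f)‖ ^ 2 *
          ‖G1 k C T M (tw (1 / 2) f)‖ ^ 2) : ℝ) : ℂ) := by
    have e0 : ((ER (SB9 C T M) (fun f =>
        ‖ZZ (UU (SB9 C T M)) (tw (1 / 2 + (x : ℂ)) f)‖ ^ 2 *
          ‖G1 k C T M (tw (1 / 2) f)‖ ^ 2) : ℝ) : ℂ) = ER (SB9 C T M) (fun f =>
        ((‖ZZ (UU (SB9 C T M)) (tw (1 / 2 + (x : ℂ)) f)‖ ^ 2 *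
          ‖G1 k C T M (tw (1 / 2) f)‖ ^ 2 : ℝ) : ℂ)) := by
      unfold ER
      rw [← integral_complex_ofReal]
    rw [e0]
    refine FinM.ER_congr fun ω => ?_
    rw [← hG _ (cmul_tw (cmul_XX _ ω) _), Complex.conj_ofReal, Complex.mul_conj,
      Complex.normSq_eq_norm_sq]
    push_cast
    ring
  have e2 : ∏ p ∈ UU (SB9 C T M), (1 - (p : ℂ) ^ (-(1 + (x : ℂ) + x))) =
      ((∏ p ∈ UU (SB9 C T M), (1 - (p : ℝ) ^ (-(1 + x + x))) : ℝ) : ℂ) := by
    rw [ofReal_prod]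
    refine Finset.prod_congr rfl fun p _ => ?_
    rw [ofReal_sub, ofReal_one, ofReal_cpow (Nat.cast_nonneg p)]
    push_cast
    ring
  rw [e1, e2, ← ofReal_mul]
  refine ⟨_, mul_nonneg ?_ (Finset.prod_nonneg fun p hp => ?_), rfl⟩
  · unfold ER
    exact integral_nonneg fun ω => by positivity
  · have hp1 : (1 : ℝ) ≤ p := by
      have := (prime_of_mem_UU (Blk9.blk_SB9 hC hT1) hp).one_lt.le
      exact_mod_cast this
    have := Real.rpow_le_one_of_one_le_of_nonpos hp1 (show -(1 + x + x) ≤ 0 by linarith)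
    linarith

end FactSAx

/-- (Z3) the arithmetic factor is a product over the blocks -/
theorem stFactS : StFactS := by
  intro k hk0 hk1 M C hC
  have htb := Blk9.te_zero_pos hC
  refine ⟨max 3 (Real.exp (2 * (C.psi + 1) / C.te 0)), le_max_left _ _,
    fun T hT N c hN hG => ?_⟩
  have hT3 : 3 ≤ T := (le_max_left _ _).trans hT
  have hT1 : 1 < T := by linarith
  have hT0 : 0 < T := by linarith
  have hL : 0 < Real.log T := Real.log_pos hT1
  have hLL : 2 * (C.psi + 1) / C.te 0 ≤ Real.log T := by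
    rw [Real.le_log_iff_exp_le hT0]; exact (le_max_right _ _).trans hT
  have hL4 : 2 * (C.psi + 1) ≤ C.te 0 * Real.log T := by
    rw [div_le_iff₀ htb] at hLL; linarith
  have hL4' : 8 * (C.psi + 1) ≤ Real.log T := by
    nlinarith [hC.htop]
  have ha := Blk9.a_pos hC hT1
  constructor
  · refine FactSAx.main hC hT3 hL4 hN hG ?_
    rw [Complex.norm_real, Real.norm_of_nonneg ha.le]
    exact le_rfl
  · have h1 : C.a T < 1 / 2 := by
      unfold Cfg.a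
      rw [div_lt_iff₀ hL]
      linarith [hC.hpsi]
    have h2 := FactSAx.sign hC hT3 hN hG (x := -(C.a T)) (by linarith)
    rw [ofReal_neg] at h2
    exact h2

end K9
end Pool.Agent.Lib.MP_973905_nt
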