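import Pool.Agent.Lib.MP_973905_nt.K9.Base
import Pool.Agent.Lib.MP_973905_nt.K1.FinalK1

/-! Module (F) of folder K9: the lower bound for every fixed order between 0 and 1. -/

namespace Pool.Agent.Lib.MP_973905_nt
namespace K9

open MeasureTheory ProbabilityTheory Complex Filter Topology K1 K4 K5
open Pool.Agent.Lib.MP_973905_nt.CK

namespace Fin9

lemma xo_pos {k : ℝ} (h0 : 0 < k) (h1 : k < 1) : 0 < xo k := by
  unfold xo
  split_ifs with h
  · have : 1 < 1 / k := by rw [lt_div_iff₀ h0]; linarith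
    linarith
  · norm_num
  · norm_num
  · norm_num

lemma cD_pos {k : ℝ} (h0 : 0 < k) : 1 ≤ cD k := by
  unfold cD
  split_ifs
  · exact Nat.one_le_iff_ne_zero.2 (Nat.pos_iff_ne_zero.1 (Nat.ceil_pos.2 (by positivity)))
  · norm_num
  · norm_num

lemma th_pos {k : ℝ} (h0 : 0 < k) : 0 < th k := by
  have h1 : (1 : ℝ) ≤ cD k := by exact_mod_cast cD_pos h0
  have h2 : (1 : ℝ) ≤ cE k := by
    unfold cE
    split_ifs <;> norm_num
  unfold th
  split_ifs
  · positivity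
  · have h3 : (0 : ℝ) ≤ cD' k := Nat.cast_nonneg _
    have h4 : (0 : ℝ) ≤ cE' k := Nat.cast_nonneg _
    positivity

/-- the exponents -/
lemma main_log {k : ℝ} {C : Cfg} {M : ℕ} (hC : Adm k M C) :
    Real.exp ((Real.eulerMascheroniConstant - M) * (k ^ 2 + 1 - k)) * (2 * C.psi) ^ (1 - k) *
        ((∏ i ∈ Finset.range C.N, lF C i) ^ 2 /
          ((∏ i ∈ Finset.range C.N, lS C i) ^ (1 - k) *
            (∏ i ∈ Finset.range C.N, lW C i) ^ k)) =
      Real.exp ((Real.eulerMascheroniConstant - M + VI C.psi (Real.exp (-(M : ℝ))) (C.te 0)) *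
        (k ^ 2 + 1 - k) + (1 - k) * Real.log (2 * C.psi) -
          ∑ i ∈ Finset.range C.N, ls9 k C i) := by
  have hF' : 0 < ∏ i ∈ Finset.range C.N, lF C i :=
    Finset.prod_pos fun i hi => hC.hF i (Finset.mem_range.1 hi)
  have hS' : 0 < ∏ i ∈ Finset.range C.N, lS C i :=
    Finset.prod_pos fun i hi => hC.hS i (Finset.mem_range.1 hi)
  have hW' : 0 < ∏ i ∈ Finset.range C.N, lW C i :=
    Finset.prod_pos fun i hi => hC.hW i (Finset.mem_range.1 hi)
  have hψ : 0 < 2 * C.psi := by linarith [hC.hpsi]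
  have e1 : (∏ i ∈ Finset.range C.N, lF C i) ^ 2 =
      Real.exp (2 * Real.log (∏ i ∈ Finset.range C.N, lF C i)) := by
    rw [two_mul, Real.exp_add, Real.exp_log hF']
    ring
  rw [e1, Real.rpow_def_of_pos hψ, Real.rpow_def_of_pos hS', Real.rpow_def_of_pos hW',
    ← Real.exp_add, ← Real.exp_add, ← Real.exp_sub, ← Real.exp_add]
  congr 1
  rw [Real.log_prod fun i hi => (hC.hF i (Finset.mem_range.1 hi)).ne',
    Real.log_prod fun i hi => (hC.hS i (Finset.mem_range.1 hi)).ne',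
    Real.log_prod fun i hi => (hC.hW i (Finset.mem_range.1 hi)).ne']
  have h2 : ∑ i ∈ Finset.range C.N, ls9 k C i =
      (k ^ 2 + 1 - k) * ∑ i ∈ Finset.range C.N, C.V i -
        (2 * ∑ i ∈ Finset.range C.N, Real.log (lF C i) -
          (1 - k) * ∑ i ∈ Finset.range C.N, Real.log (lS C i) -
          k * ∑ i ∈ Finset.range C.N, Real.log (lW C i)) := by
    rw [Finset.mul_sum, Finset.mul_sum, Finset.mul_sum, Finset.mul_sum, ← Finset.sum_sub_distrib,
      ← Finset.sum_sub_distrib, ← Finset.sum_sub_distrib]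
    rfl
  rw [h2, Blk9.sum_V hC]
  ring

end Fin9

open Fin9

/-- (F) the lower bound for every fixed order between 0 and 1 -/
theorem stFinal9 (h : StHold9) (hadm : StAdm9) (hlam : StLam9) (hV : StSumV) (hA : StNumA)
    (hB : StNumB) (hCc : StNumC) (hD : StNumD) (hAK : StAK) : StFinal9 := by
  intro k hk0 hk1 ε hε
  have hfin : FinI k := by
    by_cases h1 : k ≤ 1 / 4
    · exact hA k hk0 h1
    · by_cases h2 : k ≤ 1 / 2
      · exact hB k (not_le.1 h1) h2
      · by_cases h3 : k ≤ 3 / 4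
        · exact hCc k (not_le.1 h2) h3
        · exact hD k (not_le.1 h3) hk1
  have haK : 0 < aK k := (hAK k hk0 hk1.le).1
  have hG1 : 0 < barnesG (k + 1) := barnesG_pos (by linarith)
  have hG2 : 0 < barnesG (2 * k + 1) := barnesG_pos (by linarith)
  set G : ℝ := barnesG (k + 1) ^ 2 / barnesG (2 * k + 1) with hG
  have hG0 : 0 < G := by positivity
  have hcK : cK k = aK k * G := by rw [cK, hG, mul_div_assoc]
  have hc0 : 0 < cK k := by rw [hcK]; positivity
  have hx0 : 0 < xo k := xo_pos hk0 hk1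
  have ht0 : 0 < th k := th_pos hk0
  have hlogk : Real.log k ≤ 0 := Real.log_nonpos hk0.le hk1.le
  have hLL : LL9 k = Real.exp (-(3 * k ^ 2 * (1 - Real.log k))) := by
    rw [LL9, Real.rpow_def_of_pos (by positivity), Real.log_div hk0.ne' (Real.exp_pos 1).ne',
      Real.log_exp]
    congr 1
    ring
  have hLL0 : 0 < LL9 k := by rw [hLL]; exact Real.exp_pos _
  have hLL1 : LL9 k ≤ 1 := by
    rw [hLL, Real.exp_le_one_iff]
    have : 0 ≤ 3 * k ^ 2 * (1 - Real.log k) := by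
      have : 0 ≤ 1 - Real.log k := by linarith
      positivity
    linarith
  set ψ : ℝ := xo k / (2 * th k) with hψ
  have hψ0 : 0 < ψ := by positivity
  have h2ψ : 2 * ψ = xo k / th k := by rw [hψ]; field_simp
  have h2ψt : 2 * ψ * th k = xo k := by rw [h2ψ]; field_simp
  set δ : ℝ := min (ε / 6) (1 / 6) with hδ
  have hδ0 : 0 < δ := lt_min (by positivity) (by norm_num)
  have hδ1 : δ ≤ 1 / 6 := min_le_right _ _
  have hδε : δ ≤ ε / 6 := min_le_left _ _
  obtain ⟨M₀, hM₀⟩ := h k hk0 hk1 ψ hψ0 δ hδ0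
  obtain ⟨M₁, hM₁⟩ := hadm k hk0 hk1
  obtain ⟨M₂, hM₂⟩ := hlam k hk0 hk1 δ hδ0
  obtain ⟨M₃, hM₃⟩ := hV ψ (th k) hψ0 ht0 δ hδ0
  set M : ℕ := max (max M₀ M₁) (max M₂ M₃) with hM
  have hm0 : M₀ ≤ M := (le_max_left _ _).trans (le_max_left _ _)
  have hm1 : M₁ ≤ M := (le_max_right _ _).trans (le_max_left _ _)
  have hm2 : M₂ ≤ M := (le_max_left _ _).trans (le_max_right _ _)
  have hm3 : M₃ ≤ M := (le_max_right _ _).trans (le_max_right _ _)
  obtain ⟨hC, -, hte, -, -, -⟩ := hM₁ M hm1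
  have hL := hM₂ M hm2
  have hVV := hM₃ M hm3
  rw [h2ψt, h2ψ] at hVV
  obtain ⟨T₀, hT₀, hT⟩ := hM₀ M hm0 _ hC le_rfl
  rw [main_log hC] at hT
  have hpsi : (cfg9 k M).psi = ψ := rfl
  have hte' : (cfg9 k M).te 0 = th k := hte
  rw [hpsi, hte', h2ψ] at hT
  refine ⟨T₀, hT₀, fun T hTT => ?_⟩
  have hT3 : 3 ≤ T := hT₀.trans hTT
  have hL0 : 0 < Real.log T := Real.log_pos (by linarith)
  set Λ : ℝ := (Real.log T) ^ (k ^ 2) with hΛ
  have hΛ0 : 0 < Λ := Real.rpow_pos_of_pos hL0 _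
  rw [le_div_iff₀ (mul_pos hc0 hΛ0)]
  refine le_trans ?_ (hT T hTT)
  set E : ℝ := (Real.eulerMascheroniConstant - M + VI ψ (Real.exp (-(M : ℝ))) (th k)) *
        (k ^ 2 + 1 - k) + (1 - k) * Real.log (xo k / th k) -
          ∑ i ∈ Finset.range (cfg9 k M).N, ls9 k (cfg9 k M) i with hE
  have hL' : ∑ i ∈ Finset.range (cfg9 k M).N, ls9 k (cfg9 k M) i ≤ LamB k + δ := hL
  have hk2 : 0 < k ^ 2 + 1 - k := by nlinarith [sq_nonneg k]
  have hk3 : k ^ 2 + 1 - k ≤ 1 := by nlinarith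
  have hE1 : -(3 * k ^ 2 * (1 - Real.log k)) + Real.log G - 2 * δ ≤ E := by
    have h3 : (-Real.log (xo k / th k) - E1 (xo k) - δ) * (k ^ 2 + 1 - k) ≤
        (Real.eulerMascheroniConstant - M + VI ψ (Real.exp (-(M : ℝ))) (th k)) *
          (k ^ 2 + 1 - k) := by
      apply mul_le_mul_of_nonneg_right _ hk2.le
      linarith
    have h4 : δ * (k ^ 2 + 1 - k) ≤ δ * 1 := mul_le_mul_of_nonneg_left hk3 hδ0.le
    have h5 : k ^ 2 * Real.log (xo k / th k) + (k ^ 2 + 1 - k) * E1 (xo k) + LamB k +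
      Real.log G ≤ 3 * k ^ 2 * (1 - Real.log k) := hfin
    rw [hE]
    nlinarith
  have hE2 : LL9 k * (1 - 2 * δ) * G ≤ Real.exp E := by
    have h3 : LL9 k * G * Real.exp (-(2 * δ)) ≤ Real.exp E := by
      calc LL9 k * G * Real.exp (-(2 * δ)) =
          Real.exp (-(3 * k ^ 2 * (1 - Real.log k)) + Real.log G - 2 * δ) := by
            rw [hLL, show -(3 * k ^ 2 * (1 - Real.log k)) + Real.log G - 2 * δ =
              -(3 * k ^ 2 * (1 - Real.log k)) + Real.log G + -(2 * δ) by ring, Real.exp_add,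
              Real.exp_add, Real.exp_log hG0]
        _ ≤ Real.exp E := Real.exp_le_exp.2 hE1
    refine le_trans ?_ h3
    have h4 : 1 - 2 * δ ≤ Real.exp (-(2 * δ)) := by linarith [Real.add_one_le_exp (-(2 * δ))]
    calc LL9 k * (1 - 2 * δ) * G = LL9 k * G * (1 - 2 * δ) := by ring
      _ ≤ LL9 k * G * Real.exp (-(2 * δ)) := mul_le_mul_of_nonneg_left h4 (by positivity)
  have h5 : 0 ≤ aK k * Λ := by positivity
  have h6 : 0 ≤ 1 - δ := by linarith
  have h7 : (1 - δ) * (aK k * Λ * (LL9 k * (1 - 2 * δ) * G)) ≤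
      (1 - δ) * (aK k * Λ * Real.exp E) :=
    mul_le_mul_of_nonneg_left (mul_le_mul_of_nonneg_left hE2 h5) h6
  refine le_trans ?_ h7
  have h8 : LL9 k - ε ≤ (1 - δ) * (LL9 k * (1 - 2 * δ)) := by
    nlinarith [mul_nonneg hδ0.le (sub_nonneg.2 hLL1), mul_nonneg hLL0.le (sq_nonneg δ)]
  rw [hcK]
  calc (LL9 k - ε) * (aK k * G * Λ) ≤ (1 - δ) * (LL9 k * (1 - 2 * δ)) *
      (aK k * G * Λ) := mul_le_mul_of_nonneg_right h8 (by positivity)
    _ = (1 - δ) * (aK k * Λ * (LL9 k * (1 - 2 * δ) * G)) := by ring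

end K9
end Pool.Agent.Lib.MP_973905_nt
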