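import Pool.Agent.Lib.MP_973905_nt.K9.Stmts
import Pool.Agent.Lib.MP_973905_nt.K8.CrudeF

/-! (N2) Cauchy–Schwarz for the Gaussian mean square of a product (Parseval on circles). -/

namespace Pool.Agent.Lib.MP_973905_nt
namespace K9

open MeasureTheory ProbabilityTheory Complex Filter Topology K1 K4 K5

namespace FCS

/-- the function `p(z) e^{-uz}` -/
noncomputable def fu (p : Polynomial ℝ) (u : ℝ) (z : ℂ) : ℂ :=
  Polynomial.aeval z p * Complex.exp (-(u * z))

lemma hasSum_aeval (p : Polynomial ℝ) (z : ℂ) :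
    HasSum (fun j : ℕ => (p.coeff j : ℂ) * z ^ j) (Polynomial.aeval z p) := by
  have h : HasSum (fun j : ℕ => (p.coeff j : ℂ) * z ^ j)
      (∑ j ∈ Finset.range (p.natDegree + 1), (p.coeff j : ℂ) * z ^ j) := by
    apply hasSum_sum_of_ne_finset_zero
    intro j hj
    have h1 : p.natDegree < j := by
      rw [Finset.mem_range] at hj
      omega
    rw [Polynomial.coeff_eq_zero_of_natDegree_lt h1, Complex.ofReal_zero, zero_mul]
  have h2 : Polynomial.aeval z p =
      ∑ j ∈ Finset.range (p.natDegree + 1), (p.coeff j : ℂ) * z ^ j := by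
    rw [Polynomial.aeval_eq_sum_range]
    exact Finset.sum_congr rfl fun j _ => Complex.real_smul
  rw [h2]
  exact h

lemma hasSum_fu (p : Polynomial ℝ) (u : ℝ) (z : ℂ) :
    HasSum (fun j : ℕ => (cfe p u j : ℂ) * z ^ j) (fu p u z) := by
  have h1 := hasSum_aeval p z
  have h2 := K8.CrF.hasSum_cexp (-(u * z))
  have h3 := hasSum_sum_range_mul_of_summable_norm h1.summable.norm h2.summable.norm
  rw [h1.tsum_eq, h2.tsum_eq] at h3
  have h4 : (fun j : ℕ => (cfe p u j : ℂ) * z ^ j) = fun n : ℕ =>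
      ∑ i ∈ Finset.range (n + 1), (p.coeff i : ℂ) * z ^ i *
        ((-(u * z)) ^ (n - i) / ((n - i).factorial : ℂ)) := by
    funext j
    rw [cfe]
    push_cast
    rw [Finset.sum_mul]
    refine Finset.sum_congr rfl fun i hi => ?_
    have h5 : z ^ j = z ^ i * z ^ (j - i) := by
      rw [← pow_add, Nat.add_sub_cancel' (Nat.lt_succ_iff.1 (Finset.mem_range.1 hi))]
    rw [h5, show -((u : ℂ) * z) = (-(u : ℂ)) * z by ring, mul_pow]
    ring
  rw [h4]
  exact h3

lemma fu_mul (p q : Polynomial ℝ) (u w : ℝ) (z : ℂ) :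
    fu (p * q) (u + w) z = fu p u z * fu q w z := by
  unfold fu
  rw [map_mul, show -(((u + w : ℝ) : ℂ) * z) = -(u * z) + -(w * z) by push_cast; ring,
    Complex.exp_add]
  ring

lemma fu_cont (p : Polynomial ℝ) (u : ℝ) : Continuous (fu p u) := by
  unfold fu
  exact (Polynomial.continuous_aeval p).mul (by fun_prop)

/-- the inequality on a circle -/
lemma circ (p q : Polynomial ℝ) (u w c r : ℝ) :
    ∑' j : ℕ, 2 * c * (cfe (p * q) (u + w) j ^ 2 * r ^ (2 * j)) ≤
      ∑' j : ℕ, (c ^ 2 * (cfe (p * p) (2 * u) j ^ 2 * r ^ (2 * j)) +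
        cfe (q * q) (2 * w) j ^ 2 * r ^ (2 * j)) := by
  have hA := K8.CrF.pars (cfe (p * q) (u + w)) r (fu (p * q) (u + w)) (hasSum_fu _ _)
  have hB := K8.CrF.pars (cfe (p * p) (2 * u)) r (fu (p * p) (2 * u)) (hasSum_fu _ _)
  have hC := K8.CrF.pars (cfe (q * q) (2 * w)) r (fu (q * q) (2 * w)) (hasSum_fu _ _)
  rw [(hA.mul_left (2 * c)).tsum_eq, ((hB.mul_left (c ^ 2)).add hC).tsum_eq]
  have hc : Continuous fun θ : ℝ => (r : ℂ) * Complex.exp (θ * I) := by fun_prop
  have h1 : 2 * c * ((2 * Real.pi)⁻¹ * ∫ θ in (0 : ℝ)..(2 * Real.pi),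
      ‖fu (p * q) (u + w) (r * Complex.exp (θ * I))‖ ^ 2) =
      (2 * Real.pi)⁻¹ * ∫ θ in (0 : ℝ)..(2 * Real.pi),
        2 * c * ‖fu (p * q) (u + w) (r * Complex.exp (θ * I))‖ ^ 2 := by
    rw [intervalIntegral.integral_const_mul]
    ring
  have h2 : c ^ 2 * ((2 * Real.pi)⁻¹ * ∫ θ in (0 : ℝ)..(2 * Real.pi),
      ‖fu (p * p) (2 * u) (r * Complex.exp (θ * I))‖ ^ 2) +
      (2 * Real.pi)⁻¹ * (∫ θ in (0 : ℝ)..(2 * Real.pi),
      ‖fu (q * q) (2 * w) (r * Complex.exp (θ * I))‖ ^ 2) =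
      (2 * Real.pi)⁻¹ * ∫ θ in (0 : ℝ)..(2 * Real.pi),
        (c ^ 2 * ‖fu (p * p) (2 * u) (r * Complex.exp (θ * I))‖ ^ 2 +
          ‖fu (q * q) (2 * w) (r * Complex.exp (θ * I))‖ ^ 2) := by
    rw [intervalIntegral.integral_add, intervalIntegral.integral_const_mul]
    · ring
    · exact (((((fu_cont _ _).comp hc).norm.pow 2).const_mul _)).intervalIntegrable _ _
    · exact (((fu_cont _ _).comp hc).norm.pow 2).intervalIntegrable _ _
  rw [h1, h2]
  refine mul_le_mul_of_nonneg_left ?_ (by positivity)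
  apply intervalIntegral.integral_mono_on (by positivity)
  · exact (((((fu_cont _ _).comp hc).norm.pow 2).const_mul _)).intervalIntegrable _ _
  · exact ((((((fu_cont _ _).comp hc).norm.pow 2).const_mul _)).add
      (((fu_cont _ _).comp hc).norm.pow 2)).intervalIntegrable _ _
  · intro θ _
    generalize (r : ℂ) * Complex.exp (θ * I) = z
    rw [fu_mul, two_mul u, two_mul w, fu_mul, fu_mul, norm_mul, norm_mul, norm_mul]
    nlinarith [sq_nonneg (c * ‖fu p u z‖ ^ 2 - ‖fu q w z‖ ^ 2)]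

/-- the integral of a series against `e^{-s}` -/
lemma ser_int (a : ℕ → ℝ) (ha : ∀ j, 0 ≤ a j) (V : ℝ) (hV : 0 ≤ V)
    (hs : ∀ x : ℝ, 0 ≤ x → Summable fun j => a j * x ^ j)
    (hA : Summable fun j => a j * (j.factorial : ℝ) * V ^ j) :
    ∫⁻ s in Set.Ioi (0 : ℝ), ENNReal.ofReal (Real.exp (-s) * ∑' j, a j * (V * s) ^ j) =
      ENNReal.ofReal (∑' j, a j * (j.factorial : ℝ) * V ^ j) := by
  set g : ℕ → ℝ → ℝ := fun j s => a j * V ^ j * (s ^ j * Real.exp (-(1 * s))) with hg
  have g0 : ∀ j, ∀ s : ℝ, 0 < s → 0 ≤ g j s := by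
    intro j s hs
    have := ha j
    simp only [hg]
    positivity
  have gi : ∀ j, IntegrableOn (g j) (Set.Ioi 0) := fun j =>
    ((K8.CrF.mom 1 one_pos j).1).const_mul _
  have gv : ∀ j, ∫ s in Set.Ioi (0 : ℝ), g j s = a j * (j.factorial : ℝ) * V ^ j := by
    intro j
    simp only [hg]
    rw [integral_const_mul, (K8.CrF.mom 1 one_pos j).2, one_pow, div_one]
    ring
  calc ∫⁻ s in Set.Ioi (0 : ℝ), ENNReal.ofReal (Real.exp (-s) * ∑' j, a j * (V * s) ^ j)
      = ∫⁻ s in Set.Ioi (0 : ℝ), ∑' j, ENNReal.ofReal (g j s) := by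
        refine setLIntegral_congr_fun measurableSet_Ioi fun s hs' => ?_
        have h1 : ∀ j, g j s = Real.exp (-s) * (a j * (V * s) ^ j) := by
          intro j
          simp only [hg, one_mul]
          rw [mul_pow]
          ring
        have h2 : Summable fun j => g j s := by
          simp only [h1]
          exact (hs (V * s) (mul_nonneg hV (le_of_lt hs'))).mul_left _
        change ENNReal.ofReal (Real.exp (-s) * ∑' j, a j * (V * s) ^ j) =
          ∑' j, ENNReal.ofReal (g j s)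
        rw [← ENNReal.ofReal_tsum_of_nonneg (fun j => g0 j s hs') h2, ← tsum_mul_left]
        simp only [h1]
    _ = ∑' j, ∫⁻ s in Set.Ioi (0 : ℝ), ENNReal.ofReal (g j s) :=
        lintegral_tsum fun j => ((gi j).aestronglyMeasurable.aemeasurable).ennreal_ofReal
    _ = ∑' j, ENNReal.ofReal (∫ s in Set.Ioi (0 : ℝ), g j s) := by
        congr 1
        funext j
        rw [ofReal_integral_eq_lintegral_ofReal (gi j)
          ((ae_restrict_iff' measurableSet_Ioi).mpr (ae_of_all _ fun s hs => g0 j s hs))]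
    _ = ENNReal.ofReal (∑' j, a j * (j.factorial : ℝ) * V ^ j) := by
        simp only [gv]
        rw [ENNReal.ofReal_tsum_of_nonneg (fun j => by have := ha j; positivity) hA]

/-- an inequality between power series implies one for the series with factorials -/
lemma ser_le (a d : ℕ → ℝ) (ha : ∀ j, 0 ≤ a j) (hd : ∀ j, 0 ≤ d j) (V : ℝ) (hV : 0 ≤ V)
    (hsa : ∀ x : ℝ, 0 ≤ x → Summable fun j => a j * x ^ j)
    (hsd : ∀ x : ℝ, 0 ≤ x → Summable fun j => d j * x ^ j)
    (hle : ∀ x : ℝ, 0 ≤ x → ∑' j, a j * x ^ j ≤ ∑' j, d j * x ^ j)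
    (hA : Summable fun j => a j * (j.factorial : ℝ) * V ^ j)
    (hD : Summable fun j => d j * (j.factorial : ℝ) * V ^ j) :
    ∑' j, a j * (j.factorial : ℝ) * V ^ j ≤ ∑' j, d j * (j.factorial : ℝ) * V ^ j := by
  have h0 : 0 ≤ ∑' j, d j * (j.factorial : ℝ) * V ^ j :=
    tsum_nonneg fun j => by have := hd j; positivity
  rw [← ENNReal.ofReal_le_ofReal_iff h0, ← ser_int a ha V hV hsa hA, ← ser_int d hd V hV hsd hD]
  refine setLIntegral_mono' measurableSet_Ioi fun s hs => ENNReal.ofReal_le_ofReal ?_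
  exact mul_le_mul_of_nonneg_left (hle _ (mul_nonneg hV (le_of_lt hs))) (Real.exp_pos _).le

lemma summ_sq (p : Polynomial ℝ) (u x : ℝ) (hx : 0 ≤ x) :
    Summable fun j : ℕ => cfe p u j ^ 2 * x ^ j := by
  have h := (K8.CrF.pars (cfe p u) (Real.sqrt x) (fu p u) (hasSum_fu _ _)).summable
  refine h.congr fun j => ?_
  rw [pow_mul, Real.sq_sqrt hx]

end FCS

open FCS in
theorem stFockCS (h : StTilt) : StFockCS := by
  intro p q u w V hV
  have hsum : ∀ (p : Polynomial ℝ) (u : ℝ),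
      Summable fun j : ℕ => cfe p u j ^ 2 * (j.factorial : ℝ) * V ^ j := by
    intro p u
    refine (h p p u u V hV).summable.congr fun j => ?_
    ring
  set A := ∑' j : ℕ, cfe (p * q) (u + w) j ^ 2 * (j.factorial : ℝ) * V ^ j with hA
  set B := ∑' j : ℕ, cfe (p * p) (2 * u) j ^ 2 * (j.factorial : ℝ) * V ^ j with hB
  set C := ∑' j : ℕ, cfe (q * q) (2 * w) j ^ 2 * (j.factorial : ℝ) * V ^ j with hC
  have hA0 : 0 ≤ A := tsum_nonneg fun j => by positivity
  have hB0 : 0 ≤ B := tsum_nonneg fun j => by positivity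
  have hC0 : 0 ≤ C := tsum_nonneg fun j => by positivity
  have key : ∀ c : ℝ, 0 ≤ c → 2 * c * A ≤ c ^ 2 * B + C := by
    intro c hc
    have h1 := ser_le (fun j => 2 * c * cfe (p * q) (u + w) j ^ 2)
      (fun j => c ^ 2 * cfe (p * p) (2 * u) j ^ 2 + cfe (q * q) (2 * w) j ^ 2)
      (fun j => by positivity) (fun j => by positivity) V hV
      (fun x hx => ((summ_sq (p * q) (u + w) x hx).mul_left (2 * c)).congr fun j => by ring)
      (fun x hx => (((summ_sq (p * p) (2 * u) x hx).mul_left (c ^ 2)).add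
        (summ_sq (q * q) (2 * w) x hx)).congr fun j => by ring)
      (fun x hx => by
        have h2 := circ p q u w c (Real.sqrt x)
        have hr : ∀ j : ℕ, Real.sqrt x ^ (2 * j) = x ^ j := fun j => by
          rw [pow_mul, Real.sq_sqrt hx]
        simp only [hr] at h2
        calc _ = ∑' j : ℕ, 2 * c * (cfe (p * q) (u + w) j ^ 2 * x ^ j) :=
              tsum_congr fun j => by ring
          _ ≤ _ := h2
          _ = _ := tsum_congr fun j => by ring)
      (((hsum (p * q) (u + w)).mul_left (2 * c)).congr fun j => by ring)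
      ((((hsum (p * p) (2 * u)).mul_left (c ^ 2)).add (hsum (q * q) (2 * w))).congr
        fun j => by ring)
    have e1 : 2 * c * A = ∑' j : ℕ, 2 * c * cfe (p * q) (u + w) j ^ 2 * (j.factorial : ℝ) *
        V ^ j := by
      rw [hA, ← tsum_mul_left]
      exact tsum_congr fun j => by ring
    have e2 : c ^ 2 * B + C = ∑' j : ℕ, (c ^ 2 * cfe (p * p) (2 * u) j ^ 2 +
        cfe (q * q) (2 * w) j ^ 2) * (j.factorial : ℝ) * V ^ j := by
      rw [hB, hC, ← tsum_mul_left, ← ((hsum (p * p) (2 * u)).mul_left (c ^ 2)).tsum_add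
        (hsum (q * q) (2 * w))]
      exact tsum_congr fun j => by ring
    rw [e1, e2]
    exact h1
  have hd := discrim_le_zero (a := B) (b := -(2 * A)) (c := C) fun c => by
    rcases le_total 0 c with hc | hc
    · have := key c hc
      nlinarith
    · have h1 : 0 ≤ -c * A := mul_nonneg (neg_nonneg.2 hc) hA0
      have h2 : 0 ≤ B * (c * c) := mul_nonneg hB0 (mul_self_nonneg c)
      nlinarith
  unfold discrim at hd
  nlinarith

end K9
end Pool.Agent.Lib.MP_973905_nt
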