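import Pool.Agent.Lib.MP_973905_nt.K9.Base

/-! Module (Z10) of folder K9: the first moment. -/

namespace Pool.Agent.Lib.MP_973905_nt
namespace K9

open MeasureTheory ProbabilityTheory Complex Filter Topology K1 K4 K5

namespace Fst9aux

/-- the limit of the product over the top blocks -/
lemma prod_lim (ht : StTop9) {k : ℝ} {M : ℕ} {C : Cfg} (hC : Adm k M C) :
    Tendsto (fun T : ℝ => ‖∏ i ∈ Finset.range C.N, ETf C T i‖) atTop
      (𝓝 (∏ i ∈ Finset.range C.N, lF C i)) := by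
  have h1 : Tendsto (fun T : ℝ => ∏ i ∈ Finset.range C.N, ETf C T i) atTop
      (𝓝 (∏ i ∈ Finset.range C.N, ((lF C i : ℝ) : ℂ))) := by
    refine tendsto_finsetProd _ fun i hi => ?_
    have hi' := Finset.mem_range.mp hi
    rw [Metric.tendsto_atTop]
    intro ε hε
    obtain ⟨T₀, -, h⟩ := ht k M C hC i hi' (ε / 2) (by positivity)
    refine ⟨T₀, fun T hT => ?_⟩
    rw [dist_eq_norm]
    exact ((h T hT).1).trans_lt (by linarith)
  have h2 := h1.norm
  have h3 : ‖∏ i ∈ Finset.range C.N, ((lF C i : ℝ) : ℂ)‖ = ∏ i ∈ Finset.range C.N, lF C i := by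
    rw [← Complex.ofReal_prod, Complex.norm_real, Real.norm_eq_abs, abs_of_nonneg]
    exact Finset.prod_nonneg fun i hi => (hC.hF i (Finset.mem_range.mp hi)).le
  rwa [h3] at h2

/-- the main term tends to infinity -/
lemma main_top {a k : ℝ} (ha : 0 < a) (hk : 0 < k) (M : ℕ) :
    Tendsto (fun T : ℝ => a * lM T M ^ k) atTop atTop := by
  refine Tendsto.const_mul_atTop ha ?_
  refine (tendsto_rpow_atTop hk).comp ?_
  unfold lM
  exact Tendsto.const_mul_atTop (Real.exp_pos _) Real.tendsto_log_atTop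

/-- the numbers at the end -/
lemma num {x X D η : ℝ} (hx0 : 0 < x) (hxη : 8 * x ≤ η) (hX : 0 ≤ X)
    (hD : (1 - x) * (1 - x) * X - x * X ≤ D) : (1 - η) * X ≤ D := by
  have e1 : 0 ≤ x * X := mul_nonneg hx0.le hX
  have e2 : 0 ≤ x * x * X := mul_nonneg (mul_nonneg hx0.le hx0.le) hX
  have e3 : 8 * x * X ≤ η * X := mul_le_mul_of_nonneg_right hxη hX
  have e4 : (1 - x) * (1 - x) * X - x * X = X - 3 * (x * X) + x * x * X := by ring
  have e5 : (1 - η) * X = X - η * X := by ring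
  have e6 : 8 * x * X = 8 * (x * X) := by ring
  rw [e4] at hD
  rw [e5]
  rw [e6] at e3
  linarith

/-- lower bound for a complex number near a positive real number -/
lemma low {z : ℂ} {b x : ℝ} (hb : 0 ≤ b) (h : ‖z - ((b : ℝ) : ℂ)‖ ≤ x * b) :
    (1 - x) * b ≤ ‖z‖ := by
  have h1 : ‖((b : ℝ) : ℂ)‖ = b := by
    rw [Complex.norm_real, Real.norm_eq_abs, abs_of_nonneg hb]
  have h2 : ‖((b : ℝ) : ℂ)‖ ≤ ‖z‖ + ‖z - ((b : ℝ) : ℂ)‖ := by
    calc ‖((b : ℝ) : ℂ)‖ = ‖z - (z - ((b : ℝ) : ℂ))‖ := by congr 1; ring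
      _ ≤ _ := norm_sub_le _ _
  rw [h1] at h2
  have h3 : (1 - x) * b = b - x * b := by ring
  rw [h3]
  linarith

end Fst9aux

open Fst9aux in
/-- (Z10) the first moment -/
theorem stFst9 (h1 : StTransS) (h2 : StBQ9) (h3 : StFactF) (h4 : StBotF) (h5 : StTop9)
    (h6 : K5.StAK) : StFst9 := by
  intro k hk0 hk1 Ψ hΨ η hη
  set x : ℝ := min η 1 / 8 with hxdef
  have hmin : 0 < min η 1 := lt_min hη one_pos
  have hx0 : 0 < x := by positivity
  have hx8 : x ≤ 1 / 8 := by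
    have := min_le_right η 1
    rw [hxdef]
    linarith
  have hxη : 8 * x ≤ η := by
    have := min_le_left η 1
    rw [hxdef]
    linarith
  obtain ⟨T₁, hT₁, ht⟩ := h1
  obtain ⟨M₁, hq⟩ := h2 k hk0 hk1
  obtain ⟨M₂, hb⟩ := h4 k hk0 hk1 Ψ hΨ x hx0
  have hak : 0 < aK k := (h6 k hk0 hk1.le).1
  refine ⟨max M₁ M₂, fun M hM C hC hCΨ => ?_⟩
  obtain ⟨T₂, hT₂, hq⟩ := hq M ((le_max_left _ _).trans hM) C hC
  obtain ⟨T₃, hT₃, hb⟩ := hb M ((le_max_right _ _).trans hM)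
  obtain ⟨T₄, hT₄, hf⟩ := h3 k hk0 hk1 M C hC
  set PF : ℝ := ∏ i ∈ Finset.range C.N, lF C i with hPF
  have hPF0 : 0 < PF := Finset.prod_pos fun i hi => hC.hF i (Finset.mem_range.mp hi)
  have hk2 : 0 < k ^ 2 := by positivity
  have hev : ∀ᶠ T : ℝ in atTop,
      (1 - x) * PF ≤ ‖∏ i ∈ Finset.range C.N, ETf C T i‖ ∧
      1 ≤ Real.log T ∧ 4 * C.psi ≤ Real.log T ∧
      x⁻¹ ≤ aK k * PF * lM T M ^ (k ^ 2) := by
    have e0 : ∀ᶠ T : ℝ in atTop,
        (1 - x) * PF < ‖∏ i ∈ Finset.range C.N, ETf C T i‖ := by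
      refine (prod_lim h5 hC).eventually_const_lt ?_
      have := mul_pos hx0 hPF0
      calc (1 - x) * PF = PF - x * PF := by ring
        _ < PF := by linarith
    have e2 := Real.tendsto_log_atTop.eventually_ge_atTop 1
    have e3 := Real.tendsto_log_atTop.eventually_ge_atTop (4 * C.psi)
    have e4 := (main_top (mul_pos hak hPF0) hk2 M).eventually_ge_atTop x⁻¹
    filter_upwards [e0, e2, e3, e4] with T a b c d
    exact ⟨a.le, b, c, d⟩
  obtain ⟨T₅, hT₅⟩ := hev.exists_forall_of_atTop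
  refine ⟨max T₁ (max (max T₂ T₃) (max T₄ T₅)), hT₁.trans (le_max_left _ _),
    fun T hT τ hτ1 hτ2 => ?_⟩
  have hTT₁ : T₁ ≤ T := (le_max_left _ _).trans hT
  have hT' := (le_max_right _ _).trans hT
  have hTT₂ : T₂ ≤ T := ((le_max_left _ _).trans (le_max_left _ _)).trans hT'
  have hTT₃ : T₃ ≤ T := ((le_max_right _ _).trans (le_max_left _ _)).trans hT'
  have hTT₄ : T₄ ≤ T := ((le_max_left _ _).trans (le_max_right _ _)).trans hT'
  have hTT₅ : T₅ ≤ T := ((le_max_right _ _).trans (le_max_right _ _)).trans hT'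
  have hT3 : 3 ≤ T := hT₁.trans hTT₁
  have hTone : 1 < T := by linarith
  obtain ⟨hP, hL1, hL2, hXx⟩ := hT₅ T hTT₅
  have hL0 : 0 < Real.log T := by linarith
  have hlM0 : 0 < lM T M := by
    unfold lM
    exact mul_pos (Real.exp_pos _) hL0
  have hlk : 0 < lM T M ^ (k ^ 2) := Real.rpow_pos_of_pos hlM0 _
  set b : ℝ := aK k * lM T M ^ (k ^ 2) with hbdef
  have hb0 : 0 < b := mul_pos hak hlk
  set X : ℝ := b * PF with hXdef
  have hX0 : 0 < X := mul_pos hb0 hPF0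
  have hX1 : x⁻¹ ≤ X := by
    rw [hXdef, hbdef]
    calc x⁻¹ ≤ aK k * PF * lM T M ^ (k ^ 2) := hXx
      _ = _ := by ring
  have hxX : 1 ≤ x * X := by
    rw [inv_le_iff_one_le_mul₀ hx0] at hX1
    linarith
  -- the shift
  have ha0 : 0 < C.a T := Blk9.a_pos hC hTone
  have ha1 : C.a T ≤ 1 / 4 := by
    unfold Cfg.a
    rw [div_le_iff₀ hL0]
    linarith
  have ha2 : C.a T ≤ Ψ / Real.log T := by
    unfold Cfg.a
    exact div_le_div_of_nonneg_right hCΨ hL0.le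
  -- the pieces
  obtain ⟨-, hd1, hd2⟩ := hq T hTT₂
  have key := ht T hTT₁ τ hτ1 hτ2 _ (SB9 C T M) (Blk9.blk_SB9 hC hTone) (Blk9.UU_SB9 hC hTone)
    (G1 k C T M) (G2 k C T M) hd1 hd2 (C.a T) ha0.le ha1
  rw [hf T hTT₄] at key
  have hB := low hb0.le (hb T hTT₃ (C.a T) ha0.le ha2)
  have hprod : (1 - x) * (1 - x) * X ≤
      ‖(∏ j ∈ Finset.range (JJ T + 1), EBf T M k (C.a T) j) *
        ∏ i ∈ Finset.range C.N, ETf C T i‖ := by
    rw [norm_mul]
    have hx1 : 0 ≤ 1 - x := by linarith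
    have := mul_le_mul hB hP (mul_nonneg hx1 hPF0.le) (norm_nonneg _)
    refine le_trans (le_of_eq ?_) this
    rw [hXdef]
    ring
  have herr : T ^ (-2 : ℝ) ≤ x * X := by
    refine le_trans ?_ hxX
    exact Real.rpow_le_one_of_one_le_of_nonpos hTone.le (by norm_num)
  refine num hx0 hxη hX0.le ?_
  have htri := norm_sub_norm_le
    ((∏ j ∈ Finset.range (JJ T + 1), EBf T M k (C.a T) j) * ∏ i ∈ Finset.range C.N, ETf C T i)
    (EG T τ (fun t => riemannZeta (1 / 2 + ((C.a T : ℝ) : ℂ) + t * I) *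
      (G1 k C T M (fs (1 / 2 + t * I)) * (starRingEnd ℂ) (G2 k C T M (fs (1 / 2 + t * I))))))
  rw [norm_sub_rev] at htri
  linarith

end K9
end Pool.Agent.Lib.MP_973905_nt
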