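import Pool.Agent.Lib.MP_973905_nt.K9.Base
import Pool.Agent.Lib.MP_973905_nt.K5.GaussBlock

/-! Module Z1: the complex Gaussian limit of one top block, for general polynomials. -/

namespace Pool.Agent.Lib.MP_973905_nt
namespace K9

open MeasureTheory ProbabilityTheory Complex Filter Topology K1 K4 K5

namespace GaussMx

open K5.GaussB

/-! ### The tower of derivatives of the limit -/

/-- The derivatives of `(b + z V)^m e^{z a}`. -/
noncomputable def Ht (a b V : ℂ) (m k : ℕ) (z : ℂ) : ℂ :=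
  ∑ j ∈ Finset.range (k + 1), ((k.choose j : ℕ) : ℂ) *
    ((((m.descFactorial j : ℕ) : ℂ) * V ^ j * (b + z * V) ^ (m - j)) * a ^ (k - j)) * cexp (z * a)

lemma Ht_zero (a b V : ℂ) (m : ℕ) (z : ℂ) : Ht a b V m 0 z = (b + z * V) ^ m * cexp (z * a) := by
  simp [Ht]

lemma hasDerivAt_Ht (a b V : ℂ) (m k : ℕ) (z : ℂ) :
    HasDerivAt (Ht a b V m k) (Ht a b V m (k + 1) z) z := by
  have hlin : HasDerivAt (fun z : ℂ => b + z * V) V z := by
    simpa using ((hasDerivAt_id z).mul_const V).const_add b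
  have hexp : HasDerivAt (fun z : ℂ => cexp (z * a)) (cexp (z * a) * a) z := by
    have h1 : HasDerivAt (fun z : ℂ => z * a) a z := by
      simpa using (hasDerivAt_id z).mul_const a
    exact h1.cexp
  have hterm : ∀ j ∈ Finset.range (k + 1), HasDerivAt (fun z : ℂ => ((k.choose j : ℕ) : ℂ) *
      ((((m.descFactorial j : ℕ) : ℂ) * V ^ j * (b + z * V) ^ (m - j)) * a ^ (k - j)) *
        cexp (z * a))
      (((k.choose j : ℕ) : ℂ) *
        ((((m.descFactorial j : ℕ) : ℂ) * V ^ j * (((m - j : ℕ) : ℂ) *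
          (b + z * V) ^ (m - j - 1) * V)) * a ^ (k - j)) * cexp (z * a) +
        ((k.choose j : ℕ) : ℂ) *
      ((((m.descFactorial j : ℕ) : ℂ) * V ^ j * (b + z * V) ^ (m - j)) * a ^ (k - j)) *
        (cexp (z * a) * a)) z := by
    intro j _
    have h1 := (((hlin.pow (m - j)).const_mul (((m.descFactorial j : ℕ) : ℂ) * V ^ j)).mul_const
      (a ^ (k - j))).const_mul ((k.choose j : ℕ) : ℂ)
    exact h1.mul hexp
  have h := HasDerivAt.fun_sum hterm
  refine h.congr_deriv ?_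
  have e := Finset.sum_choose_succ_mul (R := ℂ) (fun i j => (((m.descFactorial i : ℕ) : ℂ) *
    V ^ i * (b + z * V) ^ (m - i)) * a ^ j * cexp (z * a)) k
  have e2 : Ht a b V m (k + 1) z = ∑ i ∈ Finset.range (k + 2), (((k + 1).choose i : ℕ) : ℂ) *
      ((((m.descFactorial i : ℕ) : ℂ) * V ^ i * (b + z * V) ^ (m - i)) * a ^ (k + 1 - i) *
        cexp (z * a)) := by
    rw [Ht]
    refine Finset.sum_congr rfl fun j _ => ?_
    ring
  rw [e2, e, ← Finset.sum_add_distrib]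
  refine Finset.sum_congr rfl fun j hj => ?_
  have hj' : j ≤ k := Nat.lt_succ_iff.mp (Finset.mem_range.mp hj)
  have e3 : k + 1 - j = (k - j) + 1 := by omega
  have e4 : m - (j + 1) = m - j - 1 := by omega
  rw [e3, e4, Nat.descFactorial_succ]
  push_cast
  ring

/-- The derivatives of `exp (z₁ (b + z₂ V) + z₂ a)` in `z₁`. -/
noncomputable def Gt (a b V z₂ : ℂ) (k : ℕ) (z : ℂ) : ℂ :=
  (b + z₂ * V) ^ k * cexp (z * (b + z₂ * V) + z₂ * a)

lemma hasDerivAt_Gt (a b V z₂ : ℂ) (k : ℕ) (z : ℂ) :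
    HasDerivAt (Gt a b V z₂ k) (Gt a b V z₂ (k + 1) z) z := by
  have h1 : HasDerivAt (fun z : ℂ => z * (b + z₂ * V) + z₂ * a) (b + z₂ * V) z := by
    simpa using ((hasDerivAt_id z).mul_const (b + z₂ * V)).add_const (z₂ * a)
  have h2 := h1.cexp.const_mul ((b + z₂ * V) ^ k)
  refine h2.congr_deriv ?_
  rw [Gt]
  ring

/-! ### The local factor -/

/-- The average of the local factor. -/
noncomputable def Aq (x α β : ℝ) (z₁ z₂ : ℂ) : ℂ :=
  Real.circleAverage (fun f : ℂ => (1 - α * x * f)⁻¹ * (1 - β * x * (starRingEnd ℂ) f)⁻¹ *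
    (1 - α * β * x ^ 2) * cexp (z₁ * (x * f) + z₂ * (x * (starRingEnd ℂ) f))) 0 1

lemma Aq_bound {x α β : ℝ} {z₁ z₂ : ℂ} (hx0 : 0 ≤ x) (hx : x ≤ 1 / 6) (hα : |α| ≤ 1)
    (hβ : |β| ≤ 1) (hz1 : ‖z₁‖ ≤ 1) (hz2 : ‖z₂‖ ≤ 1) :
    ‖Aq x α β z₁ z₂ - (1 + (z₁ * β + z₂ * α + z₁ * z₂) * (x : ℂ) ^ 2)‖ ≤ 144 * x ^ 3 := by
  have e1 : (1 + (z₁ * β + z₂ * α + z₁ * z₂) * (x : ℂ) ^ 2) =
      Real.circleAverage (fun f : ℂ => 1 + (α * x + z₁ * x) * f +
        (β * x + z₂ * x) * (starRingEnd ℂ) f +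
        (α ^ 2 * x ^ 2 + z₁ * α * x ^ 2 + z₁ ^ 2 * x ^ 2 / 2) * f ^ 2 +
        (β ^ 2 * x ^ 2 + z₂ * β * x ^ 2 + z₂ ^ 2 * x ^ 2 / 2) * (starRingEnd ℂ) f ^ 2 +
        ((z₁ * β + z₂ * α + z₁ * z₂) * (x : ℂ) ^ 2) * (f * (starRingEnd ℂ) f)) 0 1 := by
    rw [avg_poly]
  have hx6 : 2 * x ≤ 1 / 2 := by linarith
  have hax : ∀ γ : ℝ, |γ| ≤ 1 → ∀ c : ℂ, ‖c‖ = 1 → ‖(γ : ℂ) * x * c‖ ≤ x := by
    intro γ hγ c hc
    rw [norm_mul, norm_mul, hc, mul_one, norm_real, norm_real, Real.norm_eq_abs,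
      Real.norm_of_nonneg hx0]
    calc |γ| * x ≤ 1 * x := by gcongr
      _ = x := one_mul x
  rw [e1, Aq, ← integral_mu0, ← integral_mu0, ← integral_sub]
  · have h := norm_integral_le_of_norm_le_const (μ := mu0) (C := 18 * (2 * x) ^ 3)
      (f := fun θ : ℝ => (1 - α * x * circleMap 0 1 θ)⁻¹ *
        (1 - β * x * (starRingEnd ℂ) (circleMap 0 1 θ))⁻¹ * (1 - α * β * x ^ 2) *
          cexp (z₁ * (x * circleMap 0 1 θ) + z₂ * (x * (starRingEnd ℂ) (circleMap 0 1 θ))) -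
        (1 + (α * x + z₁ * x) * circleMap 0 1 θ +
        (β * x + z₂ * x) * (starRingEnd ℂ) (circleMap 0 1 θ) +
        (α ^ 2 * x ^ 2 + z₁ * α * x ^ 2 + z₁ ^ 2 * x ^ 2 / 2) * circleMap 0 1 θ ^ 2 +
        (β ^ 2 * x ^ 2 + z₂ * β * x ^ 2 + z₂ ^ 2 * x ^ 2 / 2) *
          (starRingEnd ℂ) (circleMap 0 1 θ) ^ 2 +
        ((z₁ * β + z₂ * α + z₁ * z₂) * (x : ℂ) ^ 2) *
          (circleMap 0 1 θ * (starRingEnd ℂ) (circleMap 0 1 θ)))) ?_
    · refine h.trans ?_
      rw [probReal_univ, mul_one]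
      nlinarith [pow_nonneg hx0 3]
    · refine Filter.Eventually.of_forall fun θ => ?_
      set f := circleMap 0 1 θ with hf
      have hfn : ‖f‖ = 1 := by simp [hf]
      have hff : f * (starRingEnd ℂ) f = 1 := by
        rw [mul_conj, normSq_eq_norm_sq, hfn]; simp
      have ha : ‖α * x * f‖ ≤ 2 * x := (hax α hα f hfn).trans (by linarith)
      have hb : ‖β * x * (starRingEnd ℂ) f‖ ≤ 2 * x :=
        (hax β hβ _ (by rw [RCLike.norm_conj, hfn])).trans (by linarith)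
      have hy : ‖z₁ * (x * f) + z₂ * (x * (starRingEnd ℂ) f)‖ ≤ 2 * x := by
        refine (norm_add_le _ _).trans ?_
        rw [norm_mul, norm_mul, norm_mul, norm_mul, RCLike.norm_conj, hfn, norm_real,
          Real.norm_of_nonneg hx0, mul_one]
        calc ‖z₁‖ * x + ‖z₂‖ * x ≤ 1 * x + 1 * x := by gcongr
          _ = 2 * x := by ring
      have hp := pt_aux (r := 2 * x) (by positivity) hx6 ha hb hy
      have e2 : α * x * f * (β * x * (starRingEnd ℂ) f) = α * β * x ^ 2 := by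
        calc α * x * f * (β * x * (starRingEnd ℂ) f) =
              α * β * x ^ 2 * (f * (starRingEnd ℂ) f) := by ring
          _ = α * β * x ^ 2 := by rw [hff, mul_one]
      rw [e2] at hp
      refine le_of_eq_of_le ?_ hp
      congr 2
      ring
  · apply int_mu0
    have h1 : ∀ γ : ℝ, |γ| ≤ 1 → ∀ c : ℂ, ‖c‖ = 1 → 1 - γ * x * c ≠ 0 := by
      intro γ hγ c hc h
      have h2 : γ * x * c = 1 := (sub_eq_zero.mp h).symm
      have h3 : ‖(γ : ℂ) * x * c‖ = 1 := by rw [h2, norm_one]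
      have := hax γ hγ c hc
      linarith
    have hm : Continuous fun θ : ℝ => circleMap 0 1 θ := continuous_circleMap (0 : ℂ) 1
    have hc : Continuous fun θ : ℝ => (starRingEnd ℂ) (circleMap 0 1 θ) :=
      continuous_conj.comp (continuous_circleMap 0 1)
    refine Continuous.mul (Continuous.mul (Continuous.mul (Continuous.inv₀ ?_ fun θ => ?_)
      (Continuous.inv₀ ?_ fun θ => ?_)) continuous_const) (continuous_exp.comp ?_)
    · exact continuous_const.sub (continuous_const.mul hm)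
    · exact h1 α hα _ (by simp)
    · exact continuous_const.sub (continuous_const.mul hc)
    · exact h1 β hβ _ (by rw [RCLike.norm_conj]; simp)
    · exact (continuous_const.mul (continuous_const.mul hm)).add
        (continuous_const.mul (continuous_const.mul hc))
  · apply int_mu0
    have hm := continuous_circleMap (0 : ℂ) 1
    have hc : Continuous fun θ : ℝ => (starRingEnd ℂ) (circleMap 0 1 θ) :=
      continuous_conj.comp hm
    exact ((((continuous_const.add (continuous_const.mul hm)).add (continuous_const.mul hc)).add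
      (continuous_const.mul (hm.pow 2))).add (continuous_const.mul (hc.pow 2))).add
      (continuous_const.mul (hm.mul hc))

/-! ### Products -/

lemma block_diff3 {S : Finset ℕ} {x : ℕ → ℝ} {α β : ℝ} {z₁ z₂ : ℂ} {δ Q : ℝ}
    (hδ0 : 0 ≤ δ) (hδ : δ ≤ 1 / 6) (hx : ∀ p ∈ S, 0 ≤ x p ∧ x p ≤ δ)
    (hα : |α| ≤ 1) (hβ : |β| ≤ 1)
    (hz1 : ‖z₁‖ ≤ 1) (hz2 : ‖z₂‖ ≤ 1) (hQ : ∑ p ∈ S, x p ^ 2 ≤ Q) :
    ‖∏ p ∈ S, Aq (x p) α β z₁ z₂ -
      cexp ((z₁ * β + z₂ * α + z₁ * z₂) * (∑ p ∈ S, (x p : ℂ) ^ 2))‖ ≤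
      (200 * δ * Q) * Real.exp (37 * Q) := by
  set c : ℂ := z₁ * β + z₂ * α + z₁ * z₂ with hc
  have hc3 : ‖c‖ ≤ 3 := by
    rw [hc]
    refine (norm_add_le _ _).trans ?_
    have t1 : ‖z₁ * β + z₂ * α‖ ≤ 2 := by
      refine (norm_add_le _ _).trans ?_
      rw [norm_mul, norm_mul, norm_real, norm_real, Real.norm_eq_abs, Real.norm_eq_abs]
      calc ‖z₁‖ * |β| + ‖z₂‖ * |α| ≤ 1 * 1 + 1 * 1 := by gcongr
        _ = 2 := by norm_num
    have t2 : ‖z₁ * z₂‖ ≤ 1 := by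
      rw [norm_mul]
      calc ‖z₁‖ * ‖z₂‖ ≤ 1 * 1 := by gcongr
        _ = 1 := by norm_num
    linarith
  have e1 : cexp (c * (∑ p ∈ S, (x p : ℂ) ^ 2)) = ∏ p ∈ S, cexp (c * (x p : ℂ) ^ 2) := by
    rw [← exp_sum, Finset.mul_sum]
  rw [e1]
  have hB : ∀ p ∈ S, ‖c * (x p : ℂ) ^ 2‖ ≤ 3 * x p ^ 2 := by
    intro p hp
    obtain ⟨h0, h1⟩ := hx p hp
    rw [norm_mul, norm_pow, norm_real, Real.norm_of_nonneg h0]
    gcongr
  have hD : ∀ p ∈ S, ‖Aq (x p) α β z₁ z₂ - cexp (c * (x p : ℂ) ^ 2)‖ ≤ 200 * x p ^ 3 := by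
    intro p hp
    obtain ⟨h0, h1⟩ := hx p hp
    have h2 := Aq_bound h0 (h1.trans hδ) hα hβ hz1 hz2
    rw [← hc] at h2
    have hB1 := hB p hp
    have hx6 : x p ≤ 1 / 6 := h1.trans hδ
    have h3 : ‖c * (x p : ℂ) ^ 2‖ ≤ 1 := hB1.trans (by nlinarith)
    have h4 := Complex.norm_exp_sub_one_sub_id_le h3
    have h5 : ‖c * (x p : ℂ) ^ 2‖ ^ 2 ≤ (3 * x p ^ 2) ^ 2 :=
      pow_le_pow_left₀ (norm_nonneg _) hB1 2
    have e : Aq (x p) α β z₁ z₂ - cexp (c * (x p : ℂ) ^ 2) =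
        (Aq (x p) α β z₁ z₂ - (1 + c * (x p : ℂ) ^ 2)) -
        (cexp (c * (x p : ℂ) ^ 2) - 1 - c * (x p : ℂ) ^ 2) := by ring
    rw [e]
    refine (norm_sub_le _ _).trans ?_
    have h6 : x p ^ 4 ≤ 1 / 6 * x p ^ 3 := by
      have : 0 ≤ x p ^ 3 := by positivity
      nlinarith
    have h7 : 0 ≤ x p ^ 3 := by positivity
    calc _ ≤ 144 * x p ^ 3 + (3 * x p ^ 2) ^ 2 := add_le_add h2 (h4.trans h5)
      _ = 144 * x p ^ 3 + 9 * x p ^ 4 := by ring
      _ ≤ 200 * x p ^ 3 := by linarith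
  have hE : ∀ p ∈ S, ‖cexp (c * (x p : ℂ) ^ 2)‖ ≤ Real.exp (3 * x p ^ 2) := by
    intro p hp
    rw [norm_exp]
    exact Real.exp_le_exp.mpr ((re_le_norm _).trans (hB p hp))
  have hM1 : ∀ p ∈ S, Real.exp (3 * x p ^ 2) + 200 * x p ^ 3 ≤ Real.exp (37 * x p ^ 2) := by
    intro p hp
    obtain ⟨h0, h1⟩ := hx p hp
    have hx6 : x p ≤ 1 / 6 := h1.trans hδ
    have h2 : 200 * x p ^ 3 ≤ 34 * x p ^ 2 := by
      have : 0 ≤ x p ^ 2 := by positivity
      nlinarith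
    have h3 : 1 ≤ Real.exp (3 * x p ^ 2) := Real.one_le_exp (by positivity)
    have h4 : 1 + 34 * x p ^ 2 ≤ Real.exp (34 * x p ^ 2) := by
      have := Real.add_one_le_exp (34 * x p ^ 2)
      linarith
    have h5 : 0 ≤ x p ^ 2 := by positivity
    calc Real.exp (3 * x p ^ 2) + 200 * x p ^ 3 ≤
        Real.exp (3 * x p ^ 2) * (1 + 34 * x p ^ 2) := by nlinarith
      _ ≤ Real.exp (3 * x p ^ 2) * Real.exp (34 * x p ^ 2) := by gcongr
      _ = Real.exp (37 * x p ^ 2) := by rw [← Real.exp_add]; ring_nf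
  have h := prod_diff S (fun p => Aq (x p) α β z₁ z₂)
    (fun p => cexp (c * (x p : ℂ) ^ 2))
    (fun p => Real.exp (37 * x p ^ 2)) (fun p _ => Real.one_le_exp (by positivity))
    (fun p hp => by
      have h1 := hD p hp
      have h2 := hE p hp
      have h3 := hM1 p hp
      have h4 := norm_sub_norm_le (Aq (x p) α β z₁ z₂) (cexp (c * (x p : ℂ) ^ 2))
      linarith)
    (fun p hp => by
      have h2 := hE p hp
      have h3 := hM1 p hp
      have h0 : 0 ≤ x p ^ 3 := pow_nonneg (hx p hp).1 3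
      linarith)
  refine h.trans ?_
  have hQ0 : 0 ≤ ∑ p ∈ S, x p ^ 2 := Finset.sum_nonneg fun _ _ => by positivity
  have s1 : ∑ p ∈ S, ‖Aq (x p) α β z₁ z₂ - cexp (c * (x p : ℂ) ^ 2)‖ ≤ 200 * δ * Q := by
    calc _ ≤ ∑ p ∈ S, 200 * x p ^ 3 := Finset.sum_le_sum hD
      _ ≤ ∑ p ∈ S, 200 * δ * x p ^ 2 := by
          refine Finset.sum_le_sum fun p hp => ?_
          obtain ⟨h0, h1⟩ := hx p hp
          have : 0 ≤ x p ^ 2 := by positivity
          nlinarith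
      _ = 200 * δ * ∑ p ∈ S, x p ^ 2 := by rw [Finset.mul_sum]
      _ ≤ 200 * δ * Q := by gcongr
  have s2 : ∏ p ∈ S, Real.exp (37 * x p ^ 2) ≤ Real.exp (37 * Q) := by
    rw [← Real.exp_sum, ← Finset.mul_sum]
    apply Real.exp_le_exp.mpr
    linarith
  have hQ1 : 0 ≤ Q := hQ0.trans hQ
  exact mul_le_mul s1 s2 (Finset.prod_nonneg fun _ _ => (Real.exp_pos _).le) (by positivity)

/-- The weight of a block. -/
noncomputable def Wt (S : Finset ℕ) (x : ℕ → ℝ) (α β : ℝ) (f : ℕ → ℂ) : ℂ :=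
  ∏ p ∈ S, ((1 - α * x p * f p)⁻¹ * (1 - β * x p * (starRingEnd ℂ) (f p))⁻¹ *
    (1 - α * β * x p ^ 2))

/-- The prime sum. -/
noncomputable def Y1 (S : Finset ℕ) (x : ℕ → ℝ) (f : ℕ → ℂ) : ℂ := ∑ p ∈ S, (x p : ℂ) * f p

/-- The conjugate of the prime sum. -/
noncomputable def Y2 (S : Finset ℕ) (x : ℕ → ℝ) (f : ℕ → ℂ) : ℂ :=
  ∑ p ∈ S, (x p : ℂ) * (starRingEnd ℂ) (f p)

lemma bs_Y1 (S : Finset ℕ) (x : ℕ → ℝ) : BS S (Y1 S x) := by
  refine ⟨?_, (∑ p ∈ S, |x p|), fun ω => ?_⟩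
  · refine continuous_finsetSum _ fun p _ => ?_
    exact continuous_const.mul (continuous_ext S p)
  · rw [Y1]
    refine (norm_sum_le _ _).trans (Finset.sum_le_sum fun p _ => ?_)
    rw [norm_mul, norm_ext, norm_real, Real.norm_eq_abs, mul_one]

lemma bs_Y2 (S : Finset ℕ) (x : ℕ → ℝ) : BS S (Y2 S x) := by
  refine ⟨?_, (∑ p ∈ S, |x p|), fun ω => ?_⟩
  · refine continuous_finsetSum _ fun p _ => ?_
    exact continuous_const.mul (continuous_conj.comp (continuous_ext S p))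
  · rw [Y2]
    refine (norm_sum_le _ _).trans (Finset.sum_le_sum fun p _ => ?_)
    rw [norm_mul, RCLike.norm_conj, norm_ext, norm_real, Real.norm_eq_abs, mul_one]

lemma bs_Wt {S : Finset ℕ} {x : ℕ → ℝ} {α β : ℝ} (hα : |α| ≤ 1) (hβ : |β| ≤ 1)
    (hx : ∀ p ∈ S, 0 ≤ x p ∧ x p ≤ 1 / 2) : BS S (Wt S x α β) := by
  have hax : ∀ p ∈ S, ∀ γ : ℝ, |γ| ≤ 1 → ∀ c : ℂ, ‖c‖ = 1 → ‖(γ : ℂ) * x p * c‖ ≤ 1 / 2 := by
    intro p hp γ hγ c hc
    obtain ⟨h0, h1⟩ := hx p hp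
    rw [norm_mul, norm_mul, hc, mul_one, norm_real, norm_real, Real.norm_eq_abs,
      Real.norm_of_nonneg h0]
    calc |γ| * x p ≤ 1 * x p := by gcongr
      _ ≤ 1 / 2 := by linarith
  have hne : ∀ p ∈ S, ∀ γ : ℝ, |γ| ≤ 1 → ∀ c : ℂ, ‖c‖ = 1 →
      (1 / 2 : ℝ) ≤ ‖1 - γ * x p * c‖ := by
    intro p hp γ hγ c hc
    have h1 := norm_sub_norm_le 1 ((γ : ℂ) * x p * c)
    rw [norm_one] at h1
    have := hax p hp γ hγ c hc
    linarith
  have hne0 : ∀ p ∈ S, ∀ γ : ℝ, |γ| ≤ 1 → ∀ c : ℂ, ‖c‖ = 1 → 1 - γ * x p * c ≠ 0 := by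
    intro p hp γ hγ c hc h
    have h1 := hne p hp γ hγ c hc
    rw [h, norm_zero] at h1
    norm_num at h1
  have hinv : ∀ p ∈ S, ∀ γ : ℝ, |γ| ≤ 1 → ∀ c : ℂ, ‖c‖ = 1 → ‖(1 - γ * x p * c)⁻¹‖ ≤ 2 := by
    intro p hp γ hγ c hc
    rw [norm_inv]
    calc ‖1 - γ * x p * c‖⁻¹ ≤ (1 / 2 : ℝ)⁻¹ := inv_anti₀ (by norm_num) (hne p hp γ hγ c hc)
      _ = 2 := by norm_num
  refine ⟨?_, ∏ p ∈ S, (2 * 2 * 2 : ℝ), fun ω => ?_⟩
  · refine continuous_finsetProd _ fun p hp => ?_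
    have h1 := continuous_ext S p
    have h2 : Continuous fun ω : S → ℝ => (starRingEnd ℂ) (ext S ω p) := continuous_conj.comp h1
    refine Continuous.mul (Continuous.mul (Continuous.inv₀ ?_ fun ω => ?_)
      (Continuous.inv₀ ?_ fun ω => ?_)) continuous_const
    · exact continuous_const.sub (continuous_const.mul h1)
    · exact hne0 p hp α hα _ (norm_ext S ω p)
    · exact continuous_const.sub (continuous_const.mul h2)
    · exact hne0 p hp β hβ _ (by rw [RCLike.norm_conj]; exact norm_ext S ω p)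
  · rw [Wt, norm_prod]
    refine Finset.prod_le_prod (fun p _ => norm_nonneg _) fun p hp => ?_
    rw [norm_mul, norm_mul]
    obtain ⟨h0, h4⟩ := hx p hp
    have h1 := hinv p hp α hα _ (norm_ext S ω p)
    have h2 := hinv p hp β hβ ((starRingEnd ℂ) (ext S ω p))
      (by rw [RCLike.norm_conj]; exact norm_ext S ω p)
    have h3 : ‖(1 : ℂ) - α * β * x p ^ 2‖ ≤ 2 := by
      refine (norm_sub_le _ _).trans ?_
      rw [norm_one, norm_mul, norm_mul, norm_pow, norm_real, norm_real, norm_real,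
        Real.norm_eq_abs, Real.norm_eq_abs, Real.norm_of_nonneg h0]
      have h5 : |α| * |β| * x p ^ 2 ≤ 1 * 1 * 1 ^ 2 := by
        gcongr
        linarith
      linarith
    gcongr

/-- The moments. -/
noncomputable def Mm (S : Finset ℕ) (x : ℕ → ℝ) (α β : ℝ) (m n : ℕ) : ℂ :=
  ES S (fun f => Wt S x α β f * (Y1 S x f ^ m * Y2 S x f ^ n))

lemma Es_zero3 (S : Finset ℕ) (x : ℕ → ℝ) (α β : ℝ) (z₁ z₂ : ℂ) :
    Es S (fun f => Wt S x α β f * cexp (z₂ * Y2 S x f)) (Y1 S x) 0 z₁ =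
      ∏ p ∈ S, Aq (x p) α β z₁ z₂ := by
  have e1 : ∀ f : ℕ → ℂ, (Wt S x α β f * cexp (z₂ * Y2 S x f)) *
      (Y1 S x f ^ 0 * cexp (z₁ * Y1 S x f)) =
      ∏ p ∈ S, ((1 - α * x p * f p)⁻¹ * (1 - β * x p * (starRingEnd ℂ) (f p))⁻¹ *
        (1 - α * β * x p ^ 2) *
        cexp (z₁ * (x p * f p) + z₂ * (x p * (starRingEnd ℂ) (f p)))) := by
    intro f
    have h1 : cexp (z₂ * Y2 S x f) * cexp (z₁ * Y1 S x f) =
        ∏ p ∈ S, cexp (z₁ * (x p * f p) + z₂ * (x p * (starRingEnd ℂ) (f p))) := by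
      rw [← exp_sum, ← Complex.exp_add, Y1, Y2]
      congr 1
      rw [Finset.sum_add_distrib, ← Finset.mul_sum, ← Finset.mul_sum]
      ring
    rw [pow_zero, one_mul, mul_assoc, h1, Finset.prod_mul_distrib, Wt]
  rw [Es]
  simp only [e1]
  exact ES_prod S (fun p f => (1 - α * x p * f)⁻¹ * (1 - β * x p * (starRingEnd ℂ) f)⁻¹ *
    (1 - α * β * x p ^ 2) * cexp (z₁ * (x p * f) + z₂ * (x p * (starRingEnd ℂ) f)))

/-- `x` is small on `S` and the sum of the squares is close to `V`. -/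
def Cl (S : Finset ℕ) (x : ℕ → ℝ) (V δ : ℝ) : Prop :=
  (∀ p ∈ S, 0 ≤ x p ∧ x p ≤ δ) ∧ |∑ p ∈ S, x p ^ 2 - V| ≤ δ

lemma Cl.mono {S : Finset ℕ} {x : ℕ → ℝ} {V δ δ' : ℝ} (h : Cl S x V δ) (hd : δ ≤ δ') :
    Cl S x V δ' :=
  ⟨fun p hp => ⟨(h.1 p hp).1, (h.1 p hp).2.trans hd⟩, h.2.trans hd⟩

theorem core {V α β : ℝ} (hV : 0 ≤ V) (hα : |α| ≤ 1) (hβ : |β| ≤ 1) (m n : ℕ) {ε : ℝ}
    (hε : 0 < ε) : ∃ δ : ℝ, 0 < δ ∧ ∀ (S : Finset ℕ) (x : ℕ → ℝ), Cl S x V δ →
    ‖Mm S x α β m n - Ht (α * V) (β * V) V m n 0‖ ≤ ε := by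
  set A : ℝ := 200 * (V + 1) * Real.exp (37 * (V + 1)) + 6 * Real.exp (3 * V) with hA
  have hA0 : 0 < A := by positivity
  set C : ℝ := n.factorial * (m.factorial * A) with hC
  have hC0 : 0 < C := by positivity
  refine ⟨min (1 / 6) (ε / C), by positivity, ?_⟩
  set δ := min (1 / 6) (ε / C) with hδd
  have hδ0 : 0 < δ := by positivity
  have hδ6 : δ ≤ 1 / 6 := min_le_left _ _
  have hδC : C * δ ≤ ε := by
    calc C * δ ≤ C * (ε / C) := by gcongr; exact min_le_right _ _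
      _ = ε := by field_simp
  intro S x hcl
  obtain ⟨hx, hx2⟩ := hcl
  have hW : BS S (Wt S x α β) := bs_Wt hα hβ fun p hp => by
    obtain ⟨h1, h2⟩ := hx p hp
    exact ⟨h1, by linarith⟩
  have hY1 := bs_Y1 S x
  have hY2 := bs_Y2 S x
  set a : ℂ := (α : ℂ) * V with ha
  set b : ℂ := (β : ℂ) * V with hb
  -- first tower
  have first : ∀ z₂ : ℂ, ‖z₂‖ ≤ 1 →
      ‖Es S (fun f => Wt S x α β f * cexp (z₂ * Y2 S x f)) (Y1 S x) m 0 - Gt a b V z₂ m 0‖ ≤
        m.factorial * (A * δ) := by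
    intro z₂ hz2
    have hW2 : BS S (fun f => Wt S x α β f * cexp (z₂ * Y2 S x f)) :=
      hW.mul ((bs_const S z₂).mul hY2).cexp
    have hD : ∀ k z, HasDerivAt
        ((fun k z => Es S (fun f => Wt S x α β f * cexp (z₂ * Y2 S x f)) (Y1 S x) k z -
          Gt a b V z₂ k z) k)
        ((fun k z => Es S (fun f => Wt S x α β f * cexp (z₂ * Y2 S x f)) (Y1 S x) k z -
          Gt a b V z₂ k z) (k + 1) z) z :=
      fun k z => (hasDerivAt_Es hW2 hY1 k z).sub (hasDerivAt_Gt _ _ _ _ k z)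
    have hbd : ∀ z : ℂ, ‖z‖ ≤ 1 →
        ‖(fun k z => Es S (fun f => Wt S x α β f * cexp (z₂ * Y2 S x f)) (Y1 S x) k z -
          Gt a b V z₂ k z) 0 z‖ ≤ A * δ := by
      intro z hz
      simp only
      rw [Es_zero3]
      have hQ : ∑ p ∈ S, x p ^ 2 ≤ V + 1 := by
        have := (abs_le.mp hx2).2
        linarith
      have h1 := block_diff3 hδ0.le hδ6 hx hα hβ hz hz2 hQ
      set P := ∏ p ∈ S, Aq (x p) α β z z₂ with hP
      set c : ℂ := z * β + z₂ * α + z * z₂ with hc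
      have hc3 : ‖c‖ ≤ 3 := by
        rw [hc]
        refine (norm_add_le _ _).trans ?_
        have t1 : ‖z * β + z₂ * α‖ ≤ 2 := by
          refine (norm_add_le _ _).trans ?_
          rw [norm_mul, norm_mul, norm_real, norm_real, Real.norm_eq_abs, Real.norm_eq_abs]
          calc ‖z‖ * |β| + ‖z₂‖ * |α| ≤ 1 * 1 + 1 * 1 := by gcongr
            _ = 2 := by norm_num
        have t2 : ‖z * z₂‖ ≤ 1 := by
          rw [norm_mul]
          calc ‖z‖ * ‖z₂‖ ≤ 1 * 1 := by gcongr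
            _ = 1 := by norm_num
        linarith
      have hab : ‖c * (∑ p ∈ S, (x p : ℂ) ^ 2) - c * V‖ ≤ 3 * δ := by
        have e : c * (∑ p ∈ S, (x p : ℂ) ^ 2) - c * V =
            c * ((((∑ p ∈ S, x p ^ 2 - V : ℝ)) : ℂ)) := by
          push_cast
          ring
        rw [e, norm_mul, norm_real, Real.norm_eq_abs]
        gcongr
      have hbn : ‖c * (V : ℂ)‖ ≤ 3 * V := by
        rw [norm_mul, norm_real, Real.norm_of_nonneg hV]
        gcongr
      have h2 := exp_diff (η := 3 * δ) (by linarith) hab hbn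
      have e2 : Gt a b V z₂ 0 z = cexp (c * V) := by
        rw [Gt, pow_zero, one_mul, hc, ha, hb]
        congr 1
        ring
      rw [e2]
      have e3 : P - cexp (c * V) = (P - cexp (c * (∑ p ∈ S, (x p : ℂ) ^ 2))) +
          (cexp (c * (∑ p ∈ S, (x p : ℂ) ^ 2)) - cexp (c * V)) := by ring
      rw [e3]
      refine (norm_add_le _ _).trans ?_
      calc _ ≤ 200 * δ * (V + 1) * Real.exp (37 * (V + 1)) +
            2 * (3 * δ) * Real.exp (3 * V) := add_le_add h1 h2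
        _ = A * δ := by rw [hA]; ring
    exact cauchy_tower _ hD hbd m
  -- second tower
  have hW3 : BS S (fun f => Wt S x α β f * Y1 S x f ^ m) := hW.mul (hY1.pow m)
  have hD : ∀ k z, HasDerivAt
      ((fun k z => Es S (fun f => Wt S x α β f * Y1 S x f ^ m) (Y2 S x) k z -
        Ht a b V m k z) k)
      ((fun k z => Es S (fun f => Wt S x α β f * Y1 S x f ^ m) (Y2 S x) k z -
        Ht a b V m k z) (k + 1) z) z :=
    fun k z => (hasDerivAt_Es hW3 hY2 k z).sub (hasDerivAt_Ht _ _ _ _ k z)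
  have hbd : ∀ z : ℂ, ‖z‖ ≤ 1 →
      ‖(fun k z => Es S (fun f => Wt S x α β f * Y1 S x f ^ m) (Y2 S x) k z -
        Ht a b V m k z) 0 z‖ ≤ m.factorial * (A * δ) := by
    intro z hz
    have h1 := first z hz
    simp only
    have e1 : Es S (fun f => Wt S x α β f * Y1 S x f ^ m) (Y2 S x) 0 z =
        Es S (fun f => Wt S x α β f * cexp (z * Y2 S x f)) (Y1 S x) m 0 := by
      rw [Es, Es]
      congr 1
      funext f
      rw [zero_mul, Complex.exp_zero]
      ring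
    have e2 : Ht a b V m 0 z = Gt a b V z m 0 := by
      rw [Ht_zero, Gt, zero_mul, zero_add]
    rw [e1, e2]
    exact h1
  have h := cauchy_tower _ hD hbd n
  have e1 : Es S (fun f => Wt S x α β f * Y1 S x f ^ m) (Y2 S x) n 0 = Mm S x α β m n := by
    rw [Es, Mm]
    congr 1
    funext f
    rw [zero_mul, Complex.exp_zero]
    ring
  rw [e1] at h
  refine h.trans ?_
  calc _ = C * δ := by rw [hC]; ring
    _ ≤ ε := hδC

/-! ### The pairing of polynomials -/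

lemma FK_eq (p q : Polynomial ℝ) (V : ℝ) {N : ℕ} (h : p.natDegree ≤ N) :
    FK p q V = ∑ j ∈ Finset.range (N + 1), p.coeff j * q.coeff j * (j.factorial : ℝ) * V ^ j := by
  rw [FK]
  refine Finset.sum_subset (Finset.range_mono (by omega)) fun j _ hj => ?_
  have h1 : p.natDegree < j := by
    rw [Finset.mem_range] at hj
    omega
  rw [Polynomial.coeff_eq_zero_of_natDegree_lt h1]
  ring

lemma FK_add_left (p p' q : Polynomial ℝ) (V : ℝ) : FK (p + p') q V = FK p q V + FK p' q V := by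
  set N := max (p + p').natDegree (max p.natDegree p'.natDegree) with hN
  rw [FK_eq (p + p') q V (N := N) (le_max_left _ _),
    FK_eq p q V (N := N) ((le_max_left _ _).trans (le_max_right _ _)),
    FK_eq p' q V (N := N) ((le_max_right _ _).trans (le_max_right _ _)),
    ← Finset.sum_add_distrib]
  refine Finset.sum_congr rfl fun j _ => ?_
  rw [Polynomial.coeff_add]
  ring

lemma FK_add_right (p q q' : Polynomial ℝ) (V : ℝ) : FK p (q + q') V = FK p q V + FK p q' V := by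
  rw [FK, FK, FK, ← Finset.sum_add_distrib]
  refine Finset.sum_congr rfl fun j _ => ?_
  rw [Polynomial.coeff_add]
  ring

lemma sh_add (p q : Polynomial ℝ) (c : ℝ) : sh (p + q) c = sh p c + sh q c := by
  rw [sh, sh, sh, Polynomial.add_comp]

lemma sh_monomial (n : ℕ) (r c : ℝ) : sh (Polynomial.monomial n r) c =
    Polynomial.C r * (Polynomial.X + Polynomial.C c) ^ n := by
  rw [sh, Polynomial.monomial_comp]

lemma sh_zero (p : Polynomial ℝ) : sh p 0 = p := by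
  rw [sh, map_zero, add_zero, Polynomial.comp_X]

lemma FK_monomial (m n : ℕ) (r s a b V : ℝ) :
    ((FK (sh (Polynomial.monomial m r) b) (sh (Polynomial.monomial n s) a) V : ℝ) : ℂ) =
      r * s * Ht (a : ℂ) (b : ℂ) (V : ℂ) m n 0 := by
  rw [FK_eq _ _ V (N := m + n)]
  · have e : Ht (a : ℂ) (b : ℂ) (V : ℂ) m n 0 = ∑ j ∈ Finset.range (m + n + 1),
        ((n.choose j : ℕ) : ℂ) * (((m.descFactorial j : ℕ) : ℂ) * (V : ℂ) ^ j *
          (b : ℂ) ^ (m - j)) * (a : ℂ) ^ (n - j) := by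
      rw [Ht]
      rw [← Finset.sum_subset (Finset.range_mono (show n + 1 ≤ m + n + 1 by omega))]
      · refine Finset.sum_congr rfl fun j _ => ?_
        rw [zero_mul, zero_mul, add_zero, Complex.exp_zero]
        ring
      · intro j _ hj
        have h1 : n < j := by
          rw [Finset.mem_range] at hj
          omega
        rw [Nat.choose_eq_zero_of_lt h1]
        push_cast
        ring
    rw [e, Finset.mul_sum, ofReal_sum]
    refine Finset.sum_congr rfl fun j _ => ?_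
    rw [sh_monomial, sh_monomial, Polynomial.coeff_C_mul, Polynomial.coeff_C_mul,
      Polynomial.coeff_X_add_C_pow, Polynomial.coeff_X_add_C_pow,
      Nat.descFactorial_eq_factorial_mul_choose]
    push_cast
    ring
  · rw [sh_monomial]
    refine (Polynomial.natDegree_C_mul_le _ _).trans ?_
    rw [Polynomial.natDegree_pow_X_add_C]
    omega

lemma bs_aeval {S : Finset ℕ} {F : (ℕ → ℂ) → ℂ} (hF : BS S F) (p : Polynomial ℝ) :
    BS S (fun f => Polynomial.aeval (F f) p) := by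
  induction p using Polynomial.induction_on' with
  | add p q hp hq =>
    have h := hp.add hq
    simp only [map_add]
    exact h
  | monomial n r =>
    have h := (bs_const S (r : ℂ)).mul (hF.pow n)
    simp only [Polynomial.aeval_monomial]
    exact h

/-- The means of polynomials. -/
noncomputable def MP (S : Finset ℕ) (x : ℕ → ℝ) (α β : ℝ) (p q : Polynomial ℝ) : ℂ :=
  ES S (fun f => Wt S x α β f *
    (Polynomial.aeval (Y1 S x f) p * Polynomial.aeval (Y2 S x f) q))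

/-- The limit statement. -/
def Lm (V α β : ℝ) (p q : Polynomial ℝ) : Prop := ∀ ε : ℝ, 0 < ε → ∃ δ : ℝ, 0 < δ ∧ δ ≤ 1 / 2 ∧
  ∀ (S : Finset ℕ) (x : ℕ → ℝ), Cl S x V δ →
    ‖MP S x α β p q - ((FK (sh p (β * V)) (sh q (α * V)) V : ℝ) : ℂ)‖ ≤ ε

lemma bs_all {S : Finset ℕ} {x : ℕ → ℝ} {α β : ℝ} (hα : |α| ≤ 1) (hβ : |β| ≤ 1)
    (hx : ∀ p ∈ S, 0 ≤ x p ∧ x p ≤ 1 / 2) (p q : Polynomial ℝ) : BS S (fun f => Wt S x α β f *
    (Polynomial.aeval (Y1 S x f) p * Polynomial.aeval (Y2 S x f) q)) :=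
  (bs_Wt hα hβ hx).mul ((bs_aeval (bs_Y1 S x) p).mul (bs_aeval (bs_Y2 S x) q))

lemma Lm_add_left {V α β : ℝ} (hα : |α| ≤ 1) (hβ : |β| ≤ 1) {p p' q : Polynomial ℝ}
    (h1 : Lm V α β p q) (h2 : Lm V α β p' q) : Lm V α β (p + p') q := by
  intro ε hε
  obtain ⟨δ₁, hδ₁, hd1, H₁⟩ := h1 (ε / 2) (by positivity)
  obtain ⟨δ₂, hδ₂, hd2, H₂⟩ := h2 (ε / 2) (by positivity)
  refine ⟨min δ₁ δ₂, lt_min hδ₁ hδ₂, (min_le_left _ _).trans hd1, fun S x hcl => ?_⟩
  have hx : ∀ p ∈ S, 0 ≤ x p ∧ x p ≤ 1 / 2 := fun p hp =>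
    ⟨(hcl.1 p hp).1, (hcl.1 p hp).2.trans ((min_le_left _ _).trans hd1)⟩
  have k1 := H₁ S x (hcl.mono (min_le_left _ _))
  have k2 := H₂ S x (hcl.mono (min_le_right _ _))
  have e : MP S x α β (p + p') q = MP S x α β p q + MP S x α β p' q := by
    rw [MP, MP, MP, ES, ES, ES, ← integral_add (bs_all hα hβ hx p q).integrable
      (bs_all hα hβ hx p' q).integrable]
    refine integral_congr_ae (Filter.Eventually.of_forall fun ω => ?_)
    simp only [map_add]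
    ring
  rw [e, sh_add, FK_add_left]
  push_cast
  have e2 : MP S x α β p q + MP S x α β p' q -
      (((FK (sh p (β * V)) (sh q (α * V)) V : ℝ) : ℂ) +
        ((FK (sh p' (β * V)) (sh q (α * V)) V : ℝ) : ℂ)) =
      (MP S x α β p q - ((FK (sh p (β * V)) (sh q (α * V)) V : ℝ) : ℂ)) +
      (MP S x α β p' q - ((FK (sh p' (β * V)) (sh q (α * V)) V : ℝ) : ℂ)) := by ring
  rw [e2]
  refine (norm_add_le _ _).trans ?_
  linarith

lemma Lm_add_right {V α β : ℝ} (hα : |α| ≤ 1) (hβ : |β| ≤ 1) {p q q' : Polynomial ℝ}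
    (h1 : Lm V α β p q) (h2 : Lm V α β p q') : Lm V α β p (q + q') := by
  intro ε hε
  obtain ⟨δ₁, hδ₁, hd1, H₁⟩ := h1 (ε / 2) (by positivity)
  obtain ⟨δ₂, hδ₂, hd2, H₂⟩ := h2 (ε / 2) (by positivity)
  refine ⟨min δ₁ δ₂, lt_min hδ₁ hδ₂, (min_le_left _ _).trans hd1, fun S x hcl => ?_⟩
  have hx : ∀ p ∈ S, 0 ≤ x p ∧ x p ≤ 1 / 2 := fun p hp =>
    ⟨(hcl.1 p hp).1, (hcl.1 p hp).2.trans ((min_le_left _ _).trans hd1)⟩
  have k1 := H₁ S x (hcl.mono (min_le_left _ _))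
  have k2 := H₂ S x (hcl.mono (min_le_right _ _))
  have e : MP S x α β p (q + q') = MP S x α β p q + MP S x α β p q' := by
    rw [MP, MP, MP, ES, ES, ES, ← integral_add (bs_all hα hβ hx p q).integrable
      (bs_all hα hβ hx p q').integrable]
    refine integral_congr_ae (Filter.Eventually.of_forall fun ω => ?_)
    simp only [map_add]
    ring
  rw [e, sh_add, FK_add_right]
  push_cast
  have e2 : MP S x α β p q + MP S x α β p q' -
      (((FK (sh p (β * V)) (sh q (α * V)) V : ℝ) : ℂ) +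
        ((FK (sh p (β * V)) (sh q' (α * V)) V : ℝ) : ℂ)) =
      (MP S x α β p q - ((FK (sh p (β * V)) (sh q (α * V)) V : ℝ) : ℂ)) +
      (MP S x α β p q' - ((FK (sh p (β * V)) (sh q' (α * V)) V : ℝ) : ℂ)) := by ring
  rw [e2]
  refine (norm_add_le _ _).trans ?_
  linarith

lemma Lm_monomial {V α β : ℝ} (hV : 0 ≤ V) (hα : |α| ≤ 1) (hβ : |β| ≤ 1) (m n : ℕ) (r s : ℝ) :
    Lm V α β (Polynomial.monomial m r) (Polynomial.monomial n s) := by
  intro ε hε
  obtain ⟨δ, hδ, H⟩ := core hV hα hβ m n (ε := ε / (|r| * |s| + 1)) (by positivity)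
  refine ⟨min δ (1 / 2), by positivity, min_le_right _ _, fun S x hcl => ?_⟩
  have k := H S x (hcl.mono (min_le_left _ _))
  have e : MP S x α β (Polynomial.monomial m r) (Polynomial.monomial n s) =
      r * s * Mm S x α β m n := by
    rw [MP, Mm, ES, ES, ← integral_const_mul]
    refine integral_congr_ae (Filter.Eventually.of_forall fun ω => ?_)
    simp only [Polynomial.aeval_monomial, Complex.coe_algebraMap]
    ring
  rw [e, FK_monomial]
  push_cast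
  rw [← mul_sub, norm_mul, norm_mul, norm_real, norm_real, Real.norm_eq_abs, Real.norm_eq_abs]
  calc |r| * |s| * ‖Mm S x α β m n - Ht (α * V) (β * V) V m n 0‖
      ≤ |r| * |s| * (ε / (|r| * |s| + 1)) := by gcongr
    _ ≤ (|r| * |s| + 1) * (ε / (|r| * |s| + 1)) := by
        gcongr
        linarith
    _ = ε := by field_simp

theorem Lm_all {V α β : ℝ} (hV : 0 ≤ V) (hα : |α| ≤ 1) (hβ : |β| ≤ 1) (p q : Polynomial ℝ) :
    Lm V α β p q := by
  induction p using Polynomial.induction_on' with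
  | add p p' h1 h2 => exact Lm_add_left hα hβ h1 h2
  | monomial m r =>
    induction q using Polynomial.induction_on' with
    | add q q' h1 h2 => exact Lm_add_right hα hβ h1 h2
    | monomial n s => exact Lm_monomial hV hα hβ m n r s

lemma aeval_conj' (z : ℂ) (q : Polynomial ℝ) :
    (starRingEnd ℂ) (Polynomial.aeval z q) = Polynomial.aeval ((starRingEnd ℂ) z) q := by
  rw [Polynomial.aeval_conj]

end GaussMx

open GaussMx in
theorem stGaussM (h : StPrimeV) : StGaussM := by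
  intro lo hi ψ hlo hlh hhi hψ p q ε hε
  set V := VI ψ lo hi with hV
  have hV0 : 0 ≤ V := (Blk9.VI_pos hlo hlh).le
  have a0 : |(0 : ℝ)| ≤ 1 := by simp
  have a1 : |(1 : ℝ)| ≤ 1 := by simp
  obtain ⟨δ₁, hδ₁, _, H₁⟩ := Lm_all hV0 a0 a0 p q ε hε
  obtain ⟨δ₂, hδ₂, _, H₂⟩ := Lm_all hV0 a1 a0 p q ε hε
  obtain ⟨δ₃, hδ₃, _, H₃⟩ := Lm_all hV0 a1 a1 p q ε hε
  set δ := min δ₁ (min δ₂ δ₃) with hδ
  have hδ0 : 0 < δ := lt_min hδ₁ (lt_min hδ₂ hδ₃)
  obtain ⟨T₁, hT₁, H⟩ := h lo hi ψ hlo hlh hhi hψ δ hδ0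
  refine ⟨max T₁ (Real.exp (2 * |Real.log δ| / lo)), hT₁.trans (le_max_left _ _), ?_⟩
  intro T hT S hS a ha
  have hT1 : T₁ ≤ T := (le_max_left _ _).trans hT
  have hT3 : 3 ≤ T := hT₁.trans hT1
  have hT0 : 0 < T := by linarith
  have hL : 0 < Real.log T := Real.log_pos (by linarith)
  have hL2 : 2 * |Real.log δ| / lo ≤ Real.log T := by
    rw [← Real.log_exp (2 * |Real.log δ| / lo)]
    exact Real.log_le_log (Real.exp_pos _) ((le_max_right _ _).trans hT)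
  have hmem : ∀ l ∈ S, l.Prime ∧ Real.exp (lo * Real.log T) ≤ l ∧
      (l : ℝ) ≤ Real.exp (hi * Real.log T) := by
    intro l hl
    rw [hS] at hl
    exact GaussB.mem_PS (Real.exp_pos _).le hl
  set w : ℝ := 1 / 2 + ψ / Real.log T with hw
  set x : ℕ → ℝ := fun l => (l : ℝ) ^ (-w) with hxd
  have hψL : 0 < ψ / Real.log T := by positivity
  -- the size of a prime
  have hx : ∀ l ∈ S, 0 ≤ x l ∧ x l ≤ δ := by
    intro l hl
    obtain ⟨h1, h2, h3⟩ := hmem l hl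
    have hp0 : (0 : ℝ) < l := by exact_mod_cast h1.pos
    refine ⟨by positivity, ?_⟩
    have h4 : lo * Real.log T ≤ Real.log l := by
      rw [← Real.log_exp (lo * Real.log T)]
      exact Real.log_le_log (Real.exp_pos _) h2
    have h5 : 2 * |Real.log δ| ≤ lo * Real.log T := by
      rw [div_le_iff₀ hlo] at hL2
      linarith
    have h7 : 0 ≤ Real.log l := (by positivity : 0 ≤ lo * Real.log T).trans h4
    show (l : ℝ) ^ (-w) ≤ δ
    rw [Real.rpow_def_of_pos hp0, ← Real.exp_log hδ0]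
    apply Real.exp_le_exp.mpr
    have h6 := neg_abs_le (Real.log δ)
    have h8 : Real.log l * (-w) ≤ Real.log l * (-(1 / 2)) := by
      apply mul_le_mul_of_nonneg_left _ h7
      rw [hw]
      linarith
    nlinarith
  have hsq : ∀ l : ℕ, x l ^ 2 = (l : ℝ) ^ (-(1 + 2 * (ψ / Real.log T))) := by
    intro l
    show ((l : ℝ) ^ (-w)) ^ 2 = _
    rw [← Real.rpow_natCast, ← Real.rpow_mul (by positivity)]
    congr 1
    rw [hw]
    push_cast
    ring
  have hcl : Cl S x V δ := by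
    refine ⟨hx, ?_⟩
    have h1 := H T hT1
    rw [← hS] at h1
    rw [Finset.sum_congr rfl (fun l _ => hsq l)]
    exact h1
  have haw : (1 / 2 + a : ℂ) = ((w : ℝ) : ℂ) := by
    rw [ha, hw]
    push_cast
    ring
  have hY1 : ∀ f : ℕ → ℂ, ∑ l ∈ S, tw (1 / 2 + a) f l = Y1 S x f := by
    intro f
    rw [Y1]
    refine Finset.sum_congr rfl fun l _ => ?_
    rw [haw, tw_real]
  have hY2 : ∀ f : ℕ → ℂ, (starRingEnd ℂ) (Y1 S x f) = Y2 S x f := by
    intro f
    rw [Y1, Y2, map_sum]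
    refine Finset.sum_congr rfl fun l _ => ?_
    rw [map_mul, conj_ofReal]
  have hZ : ∀ f : ℕ → ℂ, ZZ S (tw (1 / 2 + a) f) = ∏ l ∈ S, (1 - (x l : ℂ) * f l)⁻¹ := by
    intro f
    rw [ZZ]
    refine Finset.prod_congr rfl fun l _ => ?_
    rw [haw, tw_real]
  have hZc : ∀ f : ℕ → ℂ, (starRingEnd ℂ) (ZZ S (tw (1 / 2 + a) f)) =
      ∏ l ∈ S, (1 - (x l : ℂ) * (starRingEnd ℂ) (f l))⁻¹ := by
    intro f
    rw [hZ, map_prod]
    refine Finset.prod_congr rfl fun l _ => ?_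
    rw [map_inv₀, map_sub, map_one, map_mul, conj_ofReal]
  have hC : ∀ f : ℕ → ℂ, Polynomial.aeval (∑ l ∈ S, tw (1 / 2 + a) f l) p *
      (starRingEnd ℂ) (Polynomial.aeval (∑ l ∈ S, tw (1 / 2 + a) f l) q) =
      Polynomial.aeval (Y1 S x f) p * Polynomial.aeval (Y2 S x f) q := by
    intro f
    rw [hY1, aeval_conj', hY2]
  refine ⟨?_, ?_, ?_⟩
  · have k := H₁ S x (hcl.mono (min_le_left _ _))
    rw [zero_mul, sh_zero, sh_zero] at k
    have e : ES S (fun f => Polynomial.aeval (∑ l ∈ S, tw (1 / 2 + a) f l) p *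
        (starRingEnd ℂ) (Polynomial.aeval (∑ l ∈ S, tw (1 / 2 + a) f l) q)) =
        MP S x 0 0 p q := by
      rw [MP]
      congr 1
      funext f
      rw [hC, Wt]
      simp
    rw [e]
    exact k
  · have k := H₂ S x (hcl.mono ((min_le_right _ _).trans (min_le_left _ _)))
    rw [zero_mul, sh_zero, one_mul] at k
    have e : ES S (fun f => ZZ S (tw (1 / 2 + a) f) *
        (Polynomial.aeval (∑ l ∈ S, tw (1 / 2 + a) f l) p *
          (starRingEnd ℂ) (Polynomial.aeval (∑ l ∈ S, tw (1 / 2 + a) f l) q))) =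
        MP S x 1 0 p q := by
      rw [MP]
      congr 1
      funext f
      rw [hC, hZ, Wt]
      simp
    rw [e]
    exact k
  · have k := H₃ S x (hcl.mono ((min_le_right _ _).trans (min_le_right _ _)))
    rw [one_mul] at k
    have e : ES S (fun f => ZZ S (tw (1 / 2 + a) f) * (starRingEnd ℂ) (ZZ S (tw (1 / 2 + a) f)) *
        (Polynomial.aeval (∑ l ∈ S, tw (1 / 2 + a) f l) p *
          (starRingEnd ℂ) (Polynomial.aeval (∑ l ∈ S, tw (1 / 2 + a) f l) q))) *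
        ∏ l ∈ S, (1 - (l : ℂ) ^ (-(1 + a + a))) = MP S x 1 1 p q := by
      rw [MP, ES, ES, ← integral_mul_const]
      refine integral_congr_ae (Filter.Eventually.of_forall fun ω => ?_)
      simp only
      rw [hC, hZc, hZ, Wt]
      have e1 : ∏ l ∈ S, (1 - (l : ℂ) ^ (-(1 + a + a))) = ∏ l ∈ S, (1 - (x l : ℂ) ^ 2) := by
        refine Finset.prod_congr rfl fun l hl => ?_
        congr 1
        rw [← ofReal_pow, hsq, ofReal_cpow (by positivity), ofReal_natCast]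
        congr 1
        rw [ha]
        push_cast
        ring
      rw [e1]
      simp only [ofReal_one, one_mul]
      rw [Finset.prod_mul_distrib, Finset.prod_mul_distrib]
      ring
    rw [e]
    exact k

end K9
end Pool.Agent.Lib.MP_973905_nt
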