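import Pool.Agent.Lib.MP_973905_nt.K9.Stmts
import Pool.Agent.Lib.MP_973905_nt.K5.Half

/-! K9 module A3: the moment on a line as an integral to the right of it. -/

namespace Pool.Agent.Lib.MP_973905_nt
namespace K9
namespace HalfS

open MeasureTheory ProbabilityTheory Complex Filter Topology K1 K5

lemma norm_exp_sq_sub (w : ℂ) (a : ℝ) :
    ‖cexp (w ^ 2 - (a : ℂ) ^ 2)‖ = Real.exp (w.re ^ 2 - w.im ^ 2 - a ^ 2) := by
  rw [Complex.norm_exp]
  congr 1
  simp [sq]

/-- the function in the contour integral -/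
noncomputable def gg (F : ℂ → ℂ) (X a : ℝ) (w : ℂ) : ℂ :=
  F w * ((X : ℂ) ^ (w - a) * cexp (w ^ 2 - (a : ℂ) ^ 2))

lemma gg_KNa (F : ℂ → ℂ) (X a : ℝ) (w : ℂ) :
    gg F X a w * (w / (w ^ 2 - (a : ℂ) ^ 2)) = KNa X a w * F w := by
  simp only [gg, KNa]
  ring

/-- the contour argument for a general function -/
lemma core (h0 : StRect) (F : ℂ → ℂ) (X L E D a : ℝ) (hX : 1 ≤ X) (hL : 1 ≤ L) (hE : 0 ≤ E)
    (ha : 0 < a) (ha' : a ≤ 1 / 400)
    (hF : DifferentiableOn ℂ F {a : ℂ | |a.re| < 1 / 4})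
    (hfe : ∀ w : ℂ, 0 ≤ w.re → w.re ≤ 1 / 200 → |w.im| ≤ L →
      ‖F (-w) - (X : ℂ) ^ (2 * w) * F w‖ ≤ E)
    (hD : ∀ w : ℂ, |w.re| ≤ 1 / 200 → |w.im| = L → ‖F w‖ ≤ D) :
    ‖F a - ((1 / Real.pi : ℝ) : ℂ) * ∫ y : ℝ in (-L)..L,
      KNa X a ((1 / 200 : ℝ) + y * I) * F ((1 / 200 : ℝ) + y * I)‖ ≤
      200 * L * E + D * X * Real.exp (-L ^ 2) := by
  have hX0 : 0 < X := by linarith
  have hXc : (X : ℂ) ≠ 0 := by exact_mod_cast hX0.ne'
  have hD0 : 0 ≤ D := (norm_nonneg _).trans (hD (L * I) (by simp) (by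
    simp only [mul_im, ofReal_re, I_im, mul_one, ofReal_im, I_re, mul_zero, add_zero]
    exact abs_of_nonneg (by linarith)))
  set g : ℂ → ℂ := gg F X a with hg
  set b : ℂ := ((1 / 200 : ℝ) : ℂ) with hb
  have hbre : b.re = 1 / 200 := ofReal_re _
  have hbim : b.im = 0 := ofReal_im _
  have hgd : DifferentiableOn ℂ g {a : ℂ | |a.re| < 1 / 4} := by
    rw [hg]
    unfold gg
    refine hF.mul (DifferentiableOn.mul ?_ ?_)
    · intro w _
      exact ((differentiableAt_id.sub_const _).const_cpow (Or.inl hXc)).differentiableWithinAt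
    · intro w _
      exact (((differentiableAt_id.pow 2).sub_const _).cexp).differentiableWithinAt
  have hopen : IsOpen {a : ℂ | |a.re| < 1 / 4} :=
    isOpen_lt (continuous_abs.comp continuous_re) continuous_const
  have hgc : ∀ w : ℂ, |w.re| < 1 / 4 → ContinuousAt g w := fun w hw =>
    (hgd.differentiableAt (hopen.mem_nhds hw)).continuousAt
  -- the two rectangles
  have hrect : ∀ c : ℝ, |c| ≤ 1 / 400 →
      ((2 * Real.pi : ℝ) : ℂ) * g c =
      (∫ y : ℝ in (-L)..L, g (b + y * I) / (b + y * I - c)) -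
      (∫ y : ℝ in (-L)..L, g (-b + y * I) / (-b + y * I - c)) -
      I * ((∫ x : ℝ in (-(1 / 200 + c))..(1 / 200 - c),
          g ((x : ℂ) - L * I + c) / ((x : ℂ) - L * I)) -
        ∫ x : ℝ in (-(1 / 200 + c))..(1 / 200 - c),
          g ((x : ℂ) + L * I + c) / ((x : ℂ) + L * I)) := by
    intro c hc
    have hc1 := (abs_le.mp hc).1
    have hc2 := (abs_le.mp hc).2
    have h := h0 (fun z => g (z + c)) (1 / 200 + c) (1 / 200 - c) L (by linarith) (by linarith)
      (by linarith) (by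
        refine hgd.comp (differentiableOn_id.add_const _) ?_
        intro z hz
        have h1 : -(1 / 200 + c) ≤ z.re := hz.1
        have h2 : z.re ≤ 1 / 200 - c := hz.2.1
        show |(z + (c : ℂ)).re| < 1 / 4
        rw [add_re, ofReal_re, abs_lt]
        constructor <;> linarith)
    simp only [zero_add] at h
    rw [h]
    congr 2
    · refine intervalIntegral.integral_congr fun y _ => ?_
      show g (((1 / 200 - c : ℝ) : ℂ) + y * I + c) / (((1 / 200 - c : ℝ) : ℂ) + y * I) =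
        g (b + y * I) / (b + y * I - c)
      have e1 : ((1 / 200 - c : ℝ) : ℂ) + y * I + c = b + y * I := by
        rw [hb]
        push_cast
        ring
      have e2 : ((1 / 200 - c : ℝ) : ℂ) + y * I = b + y * I - c := by
        rw [hb]
        push_cast
        ring
      rw [e1, e2]
    · refine intervalIntegral.integral_congr fun y _ => ?_
      show g (-((1 / 200 + c : ℝ) : ℂ) + y * I + c) / (-((1 / 200 + c : ℝ) : ℂ) + y * I) =
        g (-b + y * I) / (-b + y * I - c)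
      have e1 : -((1 / 200 + c : ℝ) : ℂ) + y * I + c = -b + y * I := by
        rw [hb]
        push_cast
        ring
      have e2 : -((1 / 200 + c : ℝ) : ℂ) + y * I = -b + y * I - c := by
        rw [hb]
        push_cast
        ring
      rw [e1, e2]
  have hre : ∀ y : ℝ, (b + y * I).re = 1 / 200 := by
    intro y
    simp [hbre]
  have him : ∀ y : ℝ, (b + y * I).im = y := by
    intro y
    simp [hbim]
  have hwn : ∀ y : ℝ, (1 / 200 : ℝ) ≤ ‖b + y * I‖ := by
    intro y
    have h1 := abs_re_le_norm (b + y * I)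
    rw [hre, abs_of_pos (by norm_num)] at h1
    exact h1
  have hne : ∀ (y : ℝ) (c : ℝ), |c| ≤ 1 / 400 → b + y * I - c ≠ 0 := by
    intro y c hc h
    have := congrArg Complex.re h
    rw [sub_re, hre, ofReal_re, zero_re] at this
    have := (abs_le.mp hc).2
    linarith
  have hne' : ∀ (y : ℝ) (c : ℝ), |c| ≤ 1 / 400 → -b + y * I - c ≠ 0 := by
    intro y c hc h
    have h2 := congrArg Complex.re h
    have e : (-b + y * I - (c : ℂ)).re = -(1 / 200) - c := by simp [hbre]
    rw [e, zero_re] at h2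
    have := (abs_le.mp hc).1
    linarith
  have hca : |a| ≤ 1 / 400 := by rwa [abs_of_pos ha]
  have hcna : |-a| ≤ 1 / 400 := by rwa [abs_neg, abs_of_pos ha]
  have hline : Continuous fun y : ℝ => b + y * I := by fun_prop
  have hline' : Continuous fun y : ℝ => -b + y * I := by fun_prop
  have cg : Continuous fun y : ℝ => g (b + y * I) := by
    refine continuous_iff_continuousAt.mpr fun y => ?_
    exact ContinuousAt.comp (f := fun y : ℝ => b + y * I) (g := g)
      (hgc _ (by rw [hre]; norm_num [abs_lt])) hline.continuousAt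
  have cg' : Continuous fun y : ℝ => g (-b + y * I) := by
    refine continuous_iff_continuousAt.mpr fun y => ?_
    refine ContinuousAt.comp (f := fun y : ℝ => -b + y * I) (g := g)
      (hgc _ ?_) hline'.continuousAt
    have e : (-b + y * I).re = -(1 / 200) := by simp [hbre]
    rw [e]
    norm_num [abs_lt]
  have cgn : Continuous fun y : ℝ => g (-(b + y * I)) := by
    refine continuous_iff_continuousAt.mpr fun y => ?_
    exact ContinuousAt.comp (f := fun y : ℝ => -(b + y * I)) (g := g)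
      (hgc _ (by rw [neg_re, hre]; norm_num [abs_lt])) hline.neg.continuousAt
  have hsq : ∀ w : ℂ, w - a ≠ 0 → w + a ≠ 0 → w ^ 2 - (a : ℂ) ^ 2 ≠ 0 := by
    intro w h1 h2
    rw [sq_sub_sq]
    exact mul_ne_zero h2 h1
  have hsum : ∀ (u w : ℂ), w - a ≠ 0 → w + a ≠ 0 →
      u / (w - a) + u / (w - (-a : ℝ)) = 2 * (u * (w / (w ^ 2 - (a : ℂ) ^ 2))) := by
    intro u w h1 h2
    have h3 := hsq w h1 h2
    have e : w - ((-a : ℝ) : ℂ) = w + a := by
      push_cast
      ring
    rw [e]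
    field_simp
    ring
  have hpm : ∀ w : ℂ, w - ((-a : ℝ) : ℂ) ≠ 0 → w + a ≠ 0 := by
    intro w h
    have e : w - ((-a : ℝ) : ℂ) = w + a := by
      push_cast
      ring
    rwa [e] at h
  have i1 : (∫ y : ℝ in (-L)..L, g (b + y * I) / (b + y * I - a)) +
      (∫ y : ℝ in (-L)..L, g (b + y * I) / (b + y * I - (-a : ℝ))) =
      2 * ∫ y : ℝ in (-L)..L, KNa X a (b + y * I) * F (b + y * I) := by
    rw [← intervalIntegral.integral_add, ← intervalIntegral.integral_const_mul]
    · refine intervalIntegral.integral_congr fun y _ => ?_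
      show g (b + y * I) / (b + y * I - a) + g (b + y * I) / (b + y * I - (-a : ℝ)) =
        2 * (KNa X a (b + y * I) * F (b + y * I))
      rw [hsum _ _ (hne y a hca) (hpm _ (hne y (-a) hcna)), hg, gg_KNa]
    · exact (cg.div (hline.sub continuous_const) (fun y => hne y a hca)).intervalIntegrable _ _
    · exact (cg.div (hline.sub continuous_const) (fun y => hne y (-a) hcna)).intervalIntegrable _ _
  have i2 : (∫ y : ℝ in (-L)..L, g (-b + y * I) / (-b + y * I - a)) +
      (∫ y : ℝ in (-L)..L, g (-b + y * I) / (-b + y * I - (-a : ℝ))) =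
      -(2 * ∫ y : ℝ in (-L)..L, g (-(b + y * I)) *
        ((b + y * I) / ((b + y * I) ^ 2 - (a : ℂ) ^ 2))) := by
    rw [← intervalIntegral.integral_add, ← intervalIntegral.integral_const_mul,
      ← intervalIntegral.integral_neg]
    · have e := intervalIntegral.integral_comp_neg (a := -L) (b := L)
        (fun y : ℝ => g (-b + y * I) / (-b + y * I - a) +
          g (-b + y * I) / (-b + y * I - (-a : ℝ)))
      rw [neg_neg] at e
      rw [← e]
      refine intervalIntegral.integral_congr fun y _ => ?_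
      show g (-b + ((-y : ℝ) : ℂ) * I) / (-b + ((-y : ℝ) : ℂ) * I - a) +
          g (-b + ((-y : ℝ) : ℂ) * I) / (-b + ((-y : ℝ) : ℂ) * I - (-a : ℝ)) =
        -(2 * (g (-(b + y * I)) * ((b + y * I) / ((b + y * I) ^ 2 - (a : ℂ) ^ 2))))
      rw [hsum _ _ (hne' (-y) a hca) (hpm _ (hne' (-y) (-a) hcna))]
      have e2 : -b + ((-y : ℝ) : ℂ) * I = -(b + y * I) := by
        push_cast
        ring
      rw [e2, neg_sq, neg_div]
      ring
    · exact (cg'.div (hline'.sub continuous_const) (fun y => hne' y a hca)).intervalIntegrable _ _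
    · exact (cg'.div (hline'.sub continuous_const)
        (fun y => hne' y (-a) hcna)).intervalIntegrable _ _
  have c1 : Continuous fun y : ℝ => KNa X a (b + y * I) * F (b + y * I) := by
    have e : (fun y : ℝ => KNa X a (b + y * I) * F (b + y * I)) =
        fun y : ℝ => g (b + y * I) * ((b + y * I) / ((b + y * I) ^ 2 - (a : ℂ) ^ 2)) := by
      funext y
      rw [hg, gg_KNa]
    rw [e]
    exact cg.mul (hline.div ((hline.pow 2).sub continuous_const)
      (fun y => hsq _ (hne y a hca) (hpm _ (hne y (-a) hcna))))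
  have c2 : Continuous fun y : ℝ => g (-(b + y * I)) *
      ((b + y * I) / ((b + y * I) ^ 2 - (a : ℂ) ^ 2)) :=
    cgn.mul (hline.div ((hline.pow 2).sub continuous_const)
      (fun y => hsq _ (hne y a hca) (hpm _ (hne y (-a) hcna))))
  set J1 : ℂ := ∫ y : ℝ in (-L)..L, KNa X a (b + y * I) * F (b + y * I) with hJ1
  set J2 : ℂ := ∫ y : ℝ in (-L)..L, g (-(b + y * I)) *
      ((b + y * I) / ((b + y * I) ^ 2 - (a : ℂ) ^ 2)) with hJ2
  have e1 : ‖J2 - J1‖ ≤ 2 * E * (800 / 3) * |L - -L| := by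
    rw [hJ2, hJ1, ← intervalIntegral.integral_sub (c2.intervalIntegrable _ _)
      (c1.intervalIntegrable _ _)]
    refine intervalIntegral.norm_integral_le_of_norm_le_const fun y hy => ?_
    rw [Set.uIoc_of_le (by linarith)] at hy
    have hy' : |y| ≤ L := abs_le.mpr ⟨hy.1.le, hy.2⟩
    have hgk : KNa X a (b + y * I) * F (b + y * I) =
        g (b + y * I) * ((b + y * I) / ((b + y * I) ^ 2 - (a : ℂ) ^ 2)) := by
      rw [hg, gg_KNa]
    rw [hgk]
    have hwre := hre y
    have hwim := him y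
    have hwnorm := hwn y
    set w : ℂ := b + y * I with hwdef
    have h1 : g (-w) - g w =
        (F (-w) - (X : ℂ) ^ (2 * w) * F w) *
          ((X : ℂ) ^ (-w - a) * cexp (w ^ 2 - (a : ℂ) ^ 2)) := by
      have e3 : (X : ℂ) ^ (w - a) = (X : ℂ) ^ (2 * w) * (X : ℂ) ^ (-w - a) := by
        rw [← cpow_add _ _ hXc]
        congr 1
        ring
      simp only [hg, gg, neg_sq, e3]
      ring
    have h2 : ‖g (-w) - g w‖ ≤ E * 2 := by
      rw [h1, norm_mul, norm_mul]
      refine mul_le_mul (hfe w (by rw [hwre]; norm_num) (by rw [hwre]) (by rw [hwim]; exact hy'))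
        ?_ (by positivity) hE
      rw [Complex.norm_cpow_eq_rpow_re_of_pos hX0, norm_exp_sq_sub, sub_re, neg_re, ofReal_re,
        hwre, hwim]
      have h3 : X ^ (-(1 / 200) - a : ℝ) ≤ 1 :=
        Real.rpow_le_one_of_one_le_of_nonpos hX (by linarith)
      have h4 : Real.exp ((1 / 200) ^ 2 - y ^ 2 - a ^ 2) ≤ 2 := by
        refine le_trans (Real.exp_le_exp.mpr ?_)
          (Half.exp_small (x := 1 / 200) (by norm_num [abs_le]))
        nlinarith [sq_nonneg y, sq_nonneg a]
      calc X ^ (-(1 / 200) - a : ℝ) * Real.exp ((1 / 200) ^ 2 - y ^ 2 - a ^ 2) ≤ 1 * 2 := by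
            refine mul_le_mul h3 h4 (Real.exp_pos _).le zero_le_one
        _ = 2 := one_mul _
    have h5 : ‖w / (w ^ 2 - (a : ℂ) ^ 2)‖ ≤ 800 / 3 := by
      have h6 : ‖w‖ ^ 2 - a ^ 2 ≤ ‖w ^ 2 - (a : ℂ) ^ 2‖ := by
        have := norm_sub_norm_le (w ^ 2) ((a : ℂ) ^ 2)
        rwa [norm_pow, norm_pow, norm_real, Real.norm_eq_abs, sq_abs] at this
      have h7 : a ^ 2 ≤ (1 / 400) ^ 2 := pow_le_pow_left₀ ha.le ha' 2
      have h8 : 0 < ‖w‖ ^ 2 - a ^ 2 := by nlinarith
      rw [norm_div, div_le_iff₀ (lt_of_lt_of_le h8 h6)]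
      nlinarith
    rw [← sub_mul, norm_mul]
    calc ‖g (-w) - g w‖ * ‖w / (w ^ 2 - (a : ℂ) ^ 2)‖ ≤ (E * 2) * (800 / 3) :=
          mul_le_mul h2 h5 (norm_nonneg _) (by positivity)
      _ = 2 * E * (800 / 3) := by ring
  have hor : ∀ (c x s : ℝ), |x + c| ≤ 1 / 200 → |s| = L →
      ‖g ((x : ℂ) + s * I + c) / ((x : ℂ) + s * I)‖ ≤ D * X * (2 * Real.exp (-L ^ 2)) := by
    intro c x s hx hs
    have hr : ((x : ℂ) + s * I + c).re = x + c := by simp
    have hi : ((x : ℂ) + s * I + c).im = s := by simp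
    have hi' : ((x : ℂ) + s * I).im = s := by simp
    have h1 : (1 : ℝ) ≤ ‖(x : ℂ) + s * I‖ := by
      have h2 := abs_im_le_norm ((x : ℂ) + s * I)
      rw [hi', hs] at h2
      linarith
    set w : ℂ := (x : ℂ) + s * I + c with hwdef
    have h2 : ‖g w‖ ≤ D * X * (2 * Real.exp (-L ^ 2)) := by
      simp only [hg, gg]
      rw [norm_mul, norm_mul, mul_assoc D]
      refine mul_le_mul (hD w (by rw [hr]; exact hx) (by rw [hi]; exact hs)) ?_ (by positivity) hD0
      rw [Complex.norm_cpow_eq_rpow_re_of_pos hX0, norm_exp_sq_sub, sub_re, ofReal_re, hr, hi]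
      have h3 : X ^ (x + c - a) ≤ X := by
        calc X ^ (x + c - a) ≤ X ^ (1 : ℝ) :=
              Real.rpow_le_rpow_of_exponent_le hX (by linarith [(abs_le.mp hx).2])
          _ = X := Real.rpow_one X
      have h4 : Real.exp ((x + c) ^ 2 - s ^ 2 - a ^ 2) ≤ 2 * Real.exp (-L ^ 2) := by
        have h5 : s ^ 2 = L ^ 2 := by rw [← sq_abs, hs]
        calc Real.exp ((x + c) ^ 2 - s ^ 2 - a ^ 2) ≤ Real.exp ((x + c) ^ 2 + -L ^ 2) := by
              apply Real.exp_le_exp.mpr
              rw [h5]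
              nlinarith [sq_nonneg a]
          _ ≤ _ := by
              rw [Real.exp_add]
              exact mul_le_mul_of_nonneg_right (Half.exp_small hx) (Real.exp_pos _).le
      exact mul_le_mul h3 h4 (Real.exp_pos _).le hX0.le
    rw [norm_div, div_le_iff₀ (by linarith)]
    refine h2.trans ?_
    exact le_mul_of_one_le_right (by positivity) h1
  have e2 : ∀ c : ℝ, |c| ≤ 1 / 400 →
      ‖(∫ x : ℝ in (-(1 / 200 + c))..(1 / 200 - c),
          g ((x : ℂ) - L * I + c) / ((x : ℂ) - L * I)) -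
        ∫ x : ℝ in (-(1 / 200 + c))..(1 / 200 - c),
          g ((x : ℂ) + L * I + c) / ((x : ℂ) + L * I)‖ ≤
      D * X * Real.exp (-L ^ 2) := by
    intro c hc
    have hc1 := (abs_le.mp hc).1
    have hc2 := (abs_le.mp hc).2
    have k1 : ‖∫ x : ℝ in (-(1 / 200 + c))..(1 / 200 - c),
          g ((x : ℂ) - L * I + c) / ((x : ℂ) - L * I)‖ ≤
        D * X * (2 * Real.exp (-L ^ 2)) * |1 / 200 - c - -(1 / 200 + c)| := by
      refine intervalIntegral.norm_integral_le_of_norm_le_const fun x hx => ?_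
      rw [Set.uIoc_of_le (by linarith)] at hx
      have h1 := hor c x (-L) (abs_le.mpr ⟨by linarith [hx.1], by linarith [hx.2]⟩) (by
        rw [abs_neg]
        exact abs_of_nonneg (by linarith))
      have e3 : (x : ℂ) + ((-L : ℝ) : ℂ) * I = (x : ℂ) - L * I := by
        push_cast
        ring
      rwa [e3] at h1
    have k2 : ‖∫ x : ℝ in (-(1 / 200 + c))..(1 / 200 - c),
          g ((x : ℂ) + L * I + c) / ((x : ℂ) + L * I)‖ ≤
        D * X * (2 * Real.exp (-L ^ 2)) * |1 / 200 - c - -(1 / 200 + c)| := by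
      refine intervalIntegral.norm_integral_le_of_norm_le_const fun x hx => ?_
      rw [Set.uIoc_of_le (by linarith)] at hx
      exact hor c x L (abs_le.mpr ⟨by linarith [hx.1], by linarith [hx.2]⟩)
        (abs_of_nonneg (by linarith))
    have k3 : |(1 / 200 : ℝ) - c - -(1 / 200 + c)| = 1 / 100 := by
      have : (1 / 200 : ℝ) - c - -(1 / 200 + c) = 1 / 100 := by ring
      rw [this]
      exact abs_of_pos (by norm_num)
    rw [k3] at k1 k2
    refine (norm_sub_le _ _).trans ((add_le_add k1 k2).trans ?_)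
    have k4 : 0 ≤ D * X * Real.exp (-L ^ 2) := by positivity
    nlinarith
  have r1 := hrect a hca
  have r2 := hrect (-a) hcna
  set K1 : ℂ := (∫ x : ℝ in (-(1 / 200 + a))..(1 / 200 - a),
          g ((x : ℂ) - L * I + a) / ((x : ℂ) - L * I)) -
        ∫ x : ℝ in (-(1 / 200 + a))..(1 / 200 - a),
          g ((x : ℂ) + L * I + a) / ((x : ℂ) + L * I) with hK1
  set K2 : ℂ := (∫ x : ℝ in (-(1 / 200 + -a))..(1 / 200 - -a),
          g ((x : ℂ) - L * I + (-a : ℝ)) / ((x : ℂ) - L * I)) -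
        ∫ x : ℝ in (-(1 / 200 + -a))..(1 / 200 - -a),
          g ((x : ℂ) + L * I + (-a : ℝ)) / ((x : ℂ) + L * I) with hK2
  have ek1 : ‖K1‖ ≤ D * X * Real.exp (-L ^ 2) := e2 a hca
  have ek2 : ‖K2‖ ≤ D * X * Real.exp (-L ^ 2) := e2 (-a) hcna
  have ga : g a = F a := by simp [hg, gg]
  have gna : ‖g ((-a : ℝ) : ℂ) - F a‖ ≤ E := by
    have h1 := hfe (a : ℂ) (by rw [ofReal_re]; exact ha.le) (by rw [ofReal_re]; linarith)
      (by rw [ofReal_im, abs_zero]; linarith)
    have e3 : g ((-a : ℝ) : ℂ) - F a = (F (-(a : ℂ)) - (X : ℂ) ^ (2 * (a : ℂ)) * F a) *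
        (X : ℂ) ^ (-(2 * (a : ℂ))) := by
      have e4 : (X : ℂ) ^ (2 * (a : ℂ)) * (X : ℂ) ^ (-(2 * (a : ℂ))) = 1 := by
        rw [← cpow_add _ _ hXc, add_neg_cancel, cpow_zero]
      have e5 : g ((-a : ℝ) : ℂ) = F (-(a : ℂ)) * (X : ℂ) ^ (-(2 * (a : ℂ))) := by
        simp only [hg, gg]
        push_cast
        rw [neg_sq, sub_self, Complex.exp_zero, mul_one]
        congr 2
        ring
      rw [e5]
      linear_combination (F a) * e4
    rw [e3, norm_mul, Complex.norm_cpow_eq_rpow_re_of_pos hX0]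
    have h2 : X ^ ((-(2 * (a : ℂ))).re) ≤ 1 := by
      have : (-(2 * (a : ℂ))).re = -(2 * a) := by simp
      rw [this]
      exact Real.rpow_le_one_of_one_le_of_nonpos hX (by linarith)
    calc _ ≤ E * 1 := mul_le_mul h1 h2 (by positivity) hE
      _ = E := mul_one _
  have hpi : (0 : ℝ) < 4 * Real.pi := by positivity
  have hpi3 : (3 : ℝ) ≤ Real.pi := Real.pi_gt_three.le
  have hpc : ((4 * Real.pi : ℝ) : ℂ) ≠ 0 := by exact_mod_cast hpi.ne'
  have hpc' : ((Real.pi : ℝ) : ℂ) ≠ 0 := by exact_mod_cast Real.pi_ne_zero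
  have e5 : F a - ((1 / Real.pi : ℝ) : ℂ) * J1 =
      (2 * (J2 - J1) - I * (K1 + K2)) / ((4 * Real.pi : ℝ) : ℂ) -
        (g ((-a : ℝ) : ℂ) - F a) / 2 := by
    have e6 : 2 * (Real.pi : ℂ) * (F a + g ((-a : ℝ) : ℂ)) = 2 * J1 + 2 * J2 - I * (K1 + K2) := by
      rw [ga] at r1
      push_cast at r1 r2 i1 i2 ⊢
      linear_combination r1 + r2 + i1 - i2
    push_cast at e6 ⊢
    field_simp
    linear_combination 2 * e6
  rw [e5]
  have n1 : ‖(2 * (J2 - J1) - I * (K1 + K2)) / ((4 * Real.pi : ℝ) : ℂ)‖ ≤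
      (2 * (2 * E * (800 / 3) * |L - -L|) + (D * X * Real.exp (-L ^ 2) +
        D * X * Real.exp (-L ^ 2))) / 12 := by
    rw [norm_div, norm_real, Real.norm_eq_abs, abs_of_pos hpi]
    have k0 : 0 ≤ D * X * Real.exp (-L ^ 2) := by positivity
    refine div_le_div₀ (by positivity) ?_ (by norm_num) (by linarith)
    refine (norm_sub_le _ _).trans (add_le_add ?_ ?_)
    · rw [norm_mul]
      simp only [Complex.norm_ofNat]
      exact mul_le_mul_of_nonneg_left e1 (by norm_num)
    · rw [norm_mul, norm_I, one_mul]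
      exact (norm_add_le _ _).trans (add_le_add ek1 ek2)
  have n2 : ‖(g ((-a : ℝ) : ℂ) - F a) / 2‖ ≤ E / 2 := by
    rw [norm_div]
    simp only [Complex.norm_ofNat]
    linarith
  refine (norm_sub_le _ _).trans ((add_le_add n1 n2).trans ?_)
  have e7 : |L - -L| = 2 * L := by
    rw [abs_of_nonneg (by linarith)]
    ring
  rw [e7]
  have k4 : 0 ≤ D * X * Real.exp (-L ^ 2) := by positivity
  have k5 : E ≤ L * E := le_mul_of_one_le_left hE hL
  nlinarith

end HalfS

open HalfS K5 in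
theorem stHalfS (h1 : K5.StRect) (h2 : K5.StStripH) (h3 : StFE9) : StHalfS := by
  obtain ⟨h1a, C, hC, h1b⟩ := h2
  obtain ⟨T₁, hT₁, h3⟩ := h3
  obtain ⟨T₀, hT₀, hT⟩ := K5.Half.thresholds C T₁
  refine ⟨T₀, hT₀, fun T hTT τ hτ1 hτ2 H hH hHb hHm a ha ha' => ?_⟩
  obtain ⟨a1, a2, a3, a4, a5, a6⟩ := hT T hTT
  have hT3 : 3 ≤ T := hT₀.trans hTT
  have hT0 : 0 < T := by linarith
  have hL0 : 0 < Real.log T := by linarith
  have hpi : (0 : ℝ) < 2 * Real.pi := by positivity
  have hX1 : 1 ≤ |τ| / (2 * Real.pi) := by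
    rw [one_le_div hpi]
    refine le_trans ?_ hτ1
    rw [le_div_iff₀ hL0]
    exact a6
  have hX2 : |τ| / (2 * Real.pi) ≤ T := by
    rw [div_le_iff₀ hpi]
    have := Real.pi_gt_three
    nlinarith
  have key := HalfS.core h1 (K5.FH T τ H) (|τ| / (2 * Real.pi)) (Real.log T)
    (T ^ (-(7 / 1000) : ℝ))
    (C * T ^ 2 * T ^ 4 * (1 + Real.log T) ^ 4) a hX1 (by linarith) (by positivity) ha ha'
    (h1a T τ (T ^ 2) H (by linarith) hH hHb)
    (fun w hw1 hw2 hw3 => h3 T a1 τ hτ1 hτ2 H hH hHb hHm w hw1 hw2 hw3)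
    (fun w hw1 hw2 => by
      have := h1b T hT3 τ (by linarith) (T ^ 2) H hH hHb w (hw1.trans (by norm_num))
      rwa [hw2] at this)
  refine key.trans ?_
  have e1 := K5.Half.err1 hT3 a4
  have e2 := K5.Half.err2 hT3 hC.le a2 a3 a5 (by linarith) hX2
  linarith

end K9
end Pool.Agent.Lib.MP_973905_nt
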