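import Pool.Agent.Lib.MP_973905_nt.K9.Base
import Pool.Agent.Lib.MP_973905_nt.K1.Lower

/-! Module (H) of folder K9: Hölder's inequality. -/

namespace Pool.Agent.Lib.MP_973905_nt
namespace K9

open MeasureTheory ProbabilityTheory Complex Filter Topology K1 K4 K5

namespace Hold9

/-- the algebra of the exponents -/
lemma alg {k z x y : ℝ} (hk : 0 < k) (hk1 : k < 1) (hz : 0 ≤ z) (hx : 0 ≤ x) (hy : 0 ≤ y) :
    (z ^ (2 * k)) ^ (1 / 2 : ℝ) * (z ^ 2 * x ^ 2) ^ ((1 - k) / 2) *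
      (x ^ 2 * (y ^ 2) ^ (1 / k)) ^ (k / 2) = z * (x * y) := by
  have e1 : (z ^ (2 * k)) ^ (1 / 2 : ℝ) = z ^ k := by
    rw [← Real.rpow_mul hz]
    congr 1
    ring
  have e2 : (z ^ 2 * x ^ 2) ^ ((1 - k) / 2) = z ^ (1 - k) * x ^ (1 - k) := by
    rw [Real.mul_rpow (sq_nonneg z) (sq_nonneg x), ← Real.rpow_natCast z 2,
      ← Real.rpow_natCast x 2, ← Real.rpow_mul hz, ← Real.rpow_mul hx]
    have h : ((2 : ℕ) : ℝ) * ((1 - k) / 2) = 1 - k := by push_cast; ring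
    rw [h]
  have e3 : (x ^ 2 * (y ^ 2) ^ (1 / k)) ^ (k / 2) = x ^ k * y := by
    rw [Real.mul_rpow (sq_nonneg x) (Real.rpow_nonneg (sq_nonneg y) _),
      ← Real.rpow_mul (sq_nonneg y), ← Real.rpow_natCast x 2, ← Real.rpow_natCast y 2,
      ← Real.rpow_mul hx, ← Real.rpow_mul hy]
    have h : ((2 : ℕ) : ℝ) * (1 / k * (k / 2)) = 1 := by
      push_cast
      field_simp
    have h' : ((2 : ℕ) : ℝ) * (k / 2) = k := by push_cast; ring
    rw [h, h', Real.rpow_one]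
  rw [e1, e2, e3]
  have e4 : z ^ k * z ^ (1 - k) = z := by
    rw [← Real.rpow_add_of_nonneg hz hk.le (by linarith), show k + (1 - k) = 1 by ring,
      Real.rpow_one]
  have e5 : x ^ (1 - k) * x ^ k = x := by
    rw [← Real.rpow_add_of_nonneg hx (by linarith) hk.le, show 1 - k + k = 1 by ring,
      Real.rpow_one]
  calc _ = (z ^ k * z ^ (1 - k)) * ((x ^ (1 - k) * x ^ k) * y) := by ring
    _ = _ := by rw [e4, e5]

/-- Hölder's inequality, solved for the moment -/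
lemma hold {μ : Measure ℝ} {k f1 s1 w1 : ℝ} {Z x y : ℝ → ℝ} (hk : 0 < k) (hk1 : k < 1)
    (hZ : ∀ t, 0 ≤ Z t) (hx : ∀ t, 0 ≤ x t) (hy : ∀ t, 0 ≤ y t)
    (iZ : Integrable (fun t => Z t ^ (2 * k)) μ) (iS : Integrable (fun t => Z t ^ 2 * x t ^ 2) μ)
    (iW : Integrable (fun t => x t ^ 2 * (y t ^ 2) ^ (1 / k)) μ)
    (hf : 0 < f1) (hs : 0 < s1) (hw : 0 < w1)
    (h1 : f1 ≤ ∫ t, Z t * (x t * y t) ∂μ) (h2 : ∫ t, Z t ^ 2 * x t ^ 2 ∂μ ≤ s1)
    (h3 : ∫ t, x t ^ 2 * (y t ^ 2) ^ (1 / k) ∂μ ≤ w1) :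
    f1 ^ 2 / (s1 ^ (1 - k) * w1 ^ k) ≤ ∫ t, Z t ^ (2 * k) ∂μ := by
  by_contra hcon
  push Not at hcon
  have hX0 : 0 ≤ ∫ t, Z t ^ (2 * k) ∂μ := integral_nonneg fun t => Real.rpow_nonneg (hZ t) _
  have hq : 0 < s1 ^ (1 - k) * w1 ^ k :=
    mul_pos (Real.rpow_pos_of_pos hs _) (Real.rpow_pos_of_pos hw _)
  have hD0 : 0 < f1 ^ 2 / (s1 ^ (1 - k) * w1 ^ k) := div_pos (pow_pos hf 2) hq
  obtain ⟨A, hA1, hA2⟩ := exists_between hcon
  have hA0 : 0 < A := lt_of_le_of_lt hX0 hA1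
  have h4 := Lower.holder3 iZ iS iW (fun t => Real.rpow_nonneg (hZ t) _)
    (fun t => by positivity)
    (fun t => mul_nonneg (sq_nonneg _) (Real.rpow_nonneg (sq_nonneg _) _))
    (a := 1 / 2) (b := (1 - k) / 2) (c := k / 2) (by norm_num) (by linarith) (by linarith)
    (by ring) hA0 hs hw hA1.le h2 h3
  have e0 : (fun t => (Z t ^ (2 * k)) ^ (1 / 2 : ℝ) * (Z t ^ 2 * x t ^ 2) ^ ((1 - k) / 2) *
      (x t ^ 2 * (y t ^ 2) ^ (1 / k)) ^ (k / 2)) = fun t => Z t * (x t * y t) :=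
    funext fun t => alg hk hk1 (hZ t) (hx t) (hy t)
  rw [e0] at h4
  have h5 := h1.trans h4
  have h6 : (A ^ (1 / 2 : ℝ) * s1 ^ ((1 - k) / 2) * w1 ^ (k / 2)) ^ 2 =
      A * (s1 ^ (1 - k) * w1 ^ k) := by
    have a1 : (A ^ (1 / 2 : ℝ)) ^ 2 = A := by
      rw [← Real.rpow_natCast, ← Real.rpow_mul hA0.le]
      norm_num
    have a2 : (s1 ^ ((1 - k) / 2)) ^ 2 = s1 ^ (1 - k) := by
      rw [← Real.rpow_natCast, ← Real.rpow_mul hs.le]
      congr 1
      push_cast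
      ring
    have a3 : (w1 ^ (k / 2)) ^ 2 = w1 ^ k := by
      rw [← Real.rpow_natCast, ← Real.rpow_mul hw.le]
      congr 1
      push_cast
      ring
    rw [mul_pow, mul_pow, a1, a2, a3, mul_assoc]
  have h7 : f1 ^ 2 ≤ A * (s1 ^ (1 - k) * w1 ^ k) := by
    rw [← h6]
    exact pow_le_pow_left₀ hf.le h5 2
  rw [lt_div_iff₀ hq] at hA2
  linarith

/-- the powers of `log T` and of the constants -/
lemma powers {k A e L F S W q r η : ℝ} (hA : 0 < A) (hL : 0 < L) (hF : 0 < F)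
    (hS : 0 < S) (hW : 0 < W) (hq : 0 < q) (hr : 0 < r) (hη : 0 < 1 + η) :
    (r * (A * (Real.exp e * L) ^ (k ^ 2) * F)) ^ 2 /
      (((1 + η) * (A * (Real.exp e * L) ^ (k ^ 2 - 1) * (L / q) * S)) ^ (1 - k) *
        ((1 + η) * (A * (Real.exp e * L) ^ (k ^ 2) * W)) ^ k) =
    r ^ 2 / (1 + η) * (A * L ^ (k ^ 2) * (Real.exp (e * (k ^ 2 + 1 - k)) * q ^ (1 - k) *
      (F ^ 2 / (S ^ (1 - k) * W ^ k)))) := by
  obtain ⟨a, rfl⟩ : ∃ a, Real.exp a = A := ⟨Real.log A, Real.exp_log hA⟩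
  obtain ⟨l, rfl⟩ : ∃ a, Real.exp a = L := ⟨Real.log L, Real.exp_log hL⟩
  obtain ⟨f, rfl⟩ : ∃ a, Real.exp a = F := ⟨Real.log F, Real.exp_log hF⟩
  obtain ⟨s, rfl⟩ : ∃ a, Real.exp a = S := ⟨Real.log S, Real.exp_log hS⟩
  obtain ⟨w, rfl⟩ : ∃ a, Real.exp a = W := ⟨Real.log W, Real.exp_log hW⟩
  obtain ⟨p, rfl⟩ : ∃ a, Real.exp a = q := ⟨Real.log q, Real.exp_log hq⟩
  obtain ⟨u, rfl⟩ : ∃ a, Real.exp a = r := ⟨Real.log r, Real.exp_log hr⟩
  obtain ⟨v, hv⟩ : ∃ a, Real.exp a = 1 + η := ⟨Real.log (1 + η), Real.exp_log hη⟩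
  rw [← hv, pow_two (Real.exp u * _), pow_two (Real.exp u), pow_two (Real.exp f)]
  simp only [← Real.exp_add, ← Real.exp_mul, ← Real.exp_sub]
  congr 1
  ring

lemma small {η η' : ℝ} (h0 : 0 < η') (h1 : η' ≤ 1 / 10) (h2 : 10 * η' ≤ η) :
    1 - η ≤ (1 - η') * ((1 - η') * ((1 - η') ^ 2 / (1 + η'))) - η' := by
  have h3 : 0 < 1 + η' := by linarith
  have h4 : (1 - 3 * η') ≤ (1 - η') ^ 2 / (1 + η') := by
    rw [le_div_iff₀ h3]
    nlinarith
  have h5 : 0 ≤ (1 - η') * (1 - η') := by nlinarith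
  have h6 : η' ^ 3 ≤ η' ^ 2 := pow_le_pow_of_le_one h0.le (by linarith) (by norm_num)
  have h7 : (1 - η') * (1 - η') * (1 - 3 * η') - η' = 1 - 6 * η' + 7 * η' ^ 2 - 3 * η' ^ 3 := by
    ring
  calc 1 - η ≤ (1 - η') * (1 - η') * (1 - 3 * η') - η' := by
        rw [h7]
        nlinarith [sq_nonneg η']
    _ ≤ (1 - η') * (1 - η') * ((1 - η') ^ 2 / (1 + η')) - η' := by gcongr
    _ = _ := by ring

/-- a power of a function with a polynomial bound -/
lemma rpow_bd {k z B u : ℝ} (hk : 0 < k) (hk1 : k < 1) (hz : 0 ≤ z) (hu : 1 ≤ u) (hB : 1 ≤ B)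
    (h : z ≤ B * u ^ 2) : z ^ (2 * k) ≤ B ^ 2 * u ^ 4 := by
  have h2 : (1 : ℝ) ≤ u ^ 2 := one_le_pow₀ hu
  have h1 : 1 ≤ B * u ^ 2 := by nlinarith
  calc z ^ (2 * k) ≤ (B * u ^ 2) ^ (2 * k) := Real.rpow_le_rpow hz h (by linarith)
    _ ≤ (B * u ^ 2) ^ (2 : ℝ) := Real.rpow_le_rpow_of_exponent_le h1 (by linarith)
    _ = _ := by rw [Real.rpow_two]; ring

end Hold9

theorem stHold9 (h1 : StFst9) (h2 : StSec9) (h3 : StSideV9) (h4 : StPt9) (h5 : StCont9)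
    (h6 : StOff) (h7 : K8.StAvL) (h8 : K5.StAK) : StHold9 := by
  intro k hk hk1 Ψ hΨ η hη
  set η' := min η 1 / 10 with hη'
  have hη0 : 0 < η' := by rw [hη']; positivity
  have hη1 : η' ≤ 1 / 10 := by rw [hη']; have := min_le_right η 1; linarith
  have hη2 : 10 * η' ≤ η := by
    have := min_le_left η 1
    rw [hη']; linarith
  obtain ⟨M₁, k1⟩ := h1 k hk hk1 Ψ hΨ η' hη0
  obtain ⟨M₂, k2⟩ := h2 k hk hk1 Ψ hΨ η' hη0
  obtain ⟨M₃, k3⟩ := h3 k hk hk1 η' hη0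
  obtain ⟨M₄, k4⟩ := h4 k hk hk1
  obtain ⟨M₅, k5⟩ := h5 k hk hk1
  refine ⟨max (max M₁ M₂) (max M₃ (max M₄ M₅)), fun M hM C hC hψ => ?_⟩
  simp only [max_le_iff] at hM
  obtain ⟨⟨m1, m2⟩, m3, m4, m5⟩ := hM
  obtain ⟨T₁, t1, q1⟩ := k1 M m1 C hC hψ
  obtain ⟨T₂, t2, q2⟩ := k2 M m2 C hC hψ
  obtain ⟨T₃, t3, q3⟩ := k3 M m3 C hC
  obtain ⟨T₅, t5, q5⟩ := k5 M m5 C hC
  obtain ⟨T₆, t6, q6⟩ := h6 k hk hk1.le C.psi hC.hpsi η' hη0 (by linarith)
  obtain ⟨C₀, T₇, hC₀, t7, q7⟩ := h7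
  obtain ⟨Cz, hCz, hz⟩ := zeta_poly
  -- the constants
  have hAp : 0 < aK k := (h8 k hk hk1.le).1
  set PF := ∏ i ∈ Finset.range C.N, lF C i with hPF
  set PS' := ∏ i ∈ Finset.range C.N, lS C i with hPS
  set PW := ∏ i ∈ Finset.range C.N, lW C i with hPW
  have hF0 : 0 < PF := Finset.prod_pos fun i hi => hC.hF i (Finset.mem_range.mp hi)
  have hS0 : 0 < PS' := Finset.prod_pos fun i hi => hC.hS i (Finset.mem_range.mp hi)
  have hW0 : 0 < PW := Finset.prod_pos fun i hi => hC.hW i (Finset.mem_range.mp hi)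
  have hψ0 : 0 < C.psi := hC.hpsi
  set c₀ := Real.exp ((Real.eulerMascheroniConstant - M) * (k ^ 2 + 1 - k)) *
        (2 * C.psi) ^ (1 - k) * (PF ^ 2 / (PS' ^ (1 - k) * PW ^ k)) with hc₀
  have hc0 : 0 < c₀ := by rw [hc₀]; positivity
  set ρ := (1 - η') ^ 2 / (1 + η') with hρ
  have hρ0 : 0 < ρ := by
    rw [hρ]
    have : 0 < 1 - η' := by linarith
    positivity
  -- large T
  have l1 : Tendsto (fun T : ℝ => Real.log T ^ (k ^ 2)) atTop atTop :=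
    (tendsto_rpow_atTop (by positivity)).comp Real.tendsto_log_atTop
  obtain ⟨T₈, hT₈⟩ := eventually_atTop.mp ((l1.eventually_ge_atTop (1 / (ρ * (aK k * c₀)))).and
    (Real.tendsto_log_atTop.eventually_ge_atTop (max (4 * C.psi) (C₀ / η'))))
  refine ⟨max (max (max T₁ T₂) (max T₃ T₅)) (max (max T₆ T₇) (max T₈ (max (max Cz 1) (1 / η')))),
    t1.trans (by simp), fun T hT => ?_⟩
  simp only [max_le_iff] at hT
  obtain ⟨⟨⟨u1, u2⟩, u3, u5⟩, ⟨u6, u7⟩, u8, ⟨u9, u10⟩, u11⟩ := hT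
  obtain ⟨v1, v2⟩ := hT₈ T u8
  rw [max_le_iff] at v2
  obtain ⟨v2, v3⟩ := v2
  have hT3 : 3 ≤ T := t1.trans u1
  have hT0 : 0 < T := by linarith
  have hL : 0 < Real.log T := Real.log_pos (by linarith)
  have ha0 : 0 < C.a T := Blk9.a_pos hC (by linarith)
  have ha1 : C.a T ≤ 1 / 4 := by
    unfold Cfg.a
    rw [div_le_iff₀ hL]
    linarith
  obtain ⟨c1, c2, cV, b1, b2, hV0, bV⟩ := q5 T u5
  -- zeta on the line
  set Z : ℝ → ℝ := fun t => ‖riemannZeta (1 / 2 + ((C.a T : ℝ) : ℂ) + t * I)‖ with hZ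
  have hcast : ∀ t : ℝ, (((1 / 2 + C.a T : ℝ) : ℂ)) + t * I =
      1 / 2 + ((C.a T : ℝ) : ℂ) + t * I := fun t => by push_cast; ring
  have hZ0 : ∀ t, 0 ≤ Z t := fun t => norm_nonneg _
  have cZc : Continuous fun t : ℝ => riemannZeta (1 / 2 + ((C.a T : ℝ) : ℂ) + t * I) := by
    have h := continuous_zeta_line (σ := 1 / 2 + C.a T) (by linarith)
    simpa only [hcast] using h
  have cZ : Continuous Z := cZc.norm
  have bZ : ∀ t, Z t ≤ (max Cz 1) * (1 + |t|) ^ 2 := fun t => by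
    have h := hz (1 / 2 + C.a T) t (by linarith) (by linarith)
    rw [hcast] at h
    refine h.trans ?_
    gcongr
    exact le_max_left _ _
  have hB1 : 1 ≤ max Cz 1 := le_max_right _ _
  set x : ℝ → ℝ := fun t => ‖G1 k C T M (fs (1 / 2 + t * I))‖ with hx
  set y : ℝ → ℝ := fun t => ‖G2 k C T M (fs (1 / 2 + t * I))‖ with hy
  have hx0 : ∀ t, 0 ≤ x t := fun t => norm_nonneg _
  have hy0 : ∀ t, 0 ≤ y t := fun t => norm_nonneg _
  have cx : Continuous x := c1.norm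
  have cy : Continuous y := c2.norm
  have hlM : 0 < lM T M := by unfold lM; positivity
  set G := aK k * Real.log T ^ (k ^ 2) * c₀ with hG
  have hG0 : 0 < G := by rw [hG]; positivity
  have hG1 : 1 ≤ ρ * G := by
    have h9 : 0 < ρ * (aK k * c₀) := by positivity
    rw [div_le_iff₀ h9] at v1
    calc 1 ≤ Real.log T ^ (k ^ 2) * (ρ * (aK k * c₀)) := v1
      _ = _ := by rw [hG]; ring
  -- the mean to the right of the critical line
  have key : ∀ τ : ℝ, T / Real.log T ≤ |τ| → |τ| ≤ 3 / 2 * T →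
      ρ * G ≤ EG T τ (fun t => ‖riemannZeta (1 / 2 + ((C.a T : ℝ) : ℂ) + t * I)‖ ^ (2 * k)) := by
    intro τ g1 g2
    have w1 := q1 T u1 τ g1 g2
    have w2 := q2 T u2 τ g1 g2
    have w3 := q3 T u3 τ
    have iZ : Integrable (fun t => Z t ^ (2 * k)) (gaussianReal τ (VV T)) := by
      refine integrable_of_poly τ (VV T)
        (cZ.rpow_const fun _ => Or.inr (by linarith)).aestronglyMeasurable
        (C := (max Cz 1) ^ 2) (m := 4) fun t => ?_
      rw [Real.norm_eq_abs, abs_of_nonneg (Real.rpow_nonneg (hZ0 t) _)]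
      exact Hold9.rpow_bd hk hk1 (hZ0 t) (by linarith [abs_nonneg t]) hB1 (bZ t)
    have iS : Integrable (fun t => Z t ^ 2 * x t ^ 2) (gaussianReal τ (VV T)) := by
      refine integrable_of_poly τ (VV T)
        ((cZ.pow 2).mul (cx.pow 2)).aestronglyMeasurable
        (C := (max Cz 1) ^ 2 * (T ^ 3) ^ 2) (m := 4) fun t => ?_
      rw [Real.norm_eq_abs, abs_of_nonneg (by positivity)]
      calc Z t ^ 2 * x t ^ 2 ≤ ((max Cz 1) * (1 + |t|) ^ 2) ^ 2 * (T ^ 3) ^ 2 := by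
            have i1 := bZ t
            have i2 := b1 t
            have i3 := hZ0 t
            have i4 := hx0 t
            gcongr
        _ = _ := by ring
    have hp := fun t : ℝ => k4 M m4 C hC T (fs (1 / 2 + t * I))
    have iV : Integrable (fun t : ℝ => VV9 k C T M (fs (1 / 2 + t * I)))
        (gaussianReal τ (VV T)) := by
      refine Integrable.of_bound cV.aestronglyMeasurable (T ^ 3)
        (Filter.Eventually.of_forall fun t => ?_)
      rw [Real.norm_eq_abs, abs_of_nonneg (hV0 _)]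
      exact bV t
    have iW : Integrable (fun t => x t ^ 2 * (y t ^ 2) ^ (1 / k)) (gaussianReal τ (VV T)) := by
      refine iV.mono' ((cx.pow 2).mul ((cy.pow 2).rpow_const fun _ =>
        Or.inr (by positivity))).aestronglyMeasurable (Filter.Eventually.of_forall fun t => ?_)
      rw [Real.norm_eq_abs, abs_of_nonneg (mul_nonneg (sq_nonneg _)
        (Real.rpow_nonneg (sq_nonneg _) _))]
      exact hp t
    have r1 : (1 - η') * (aK k * lM T M ^ (k ^ 2) * PF) ≤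
        ∫ t, Z t * (x t * y t) ∂(gaussianReal τ (VV T)) := by
      refine w1.trans ?_
      unfold EG
      refine (norm_integral_le_integral_norm _).trans (le_of_eq ?_)
      refine integral_congr_ae (Filter.Eventually.of_forall fun t => ?_)
      simp only [norm_mul, RCLike.norm_conj]
      rfl
    have r3 : ∫ t, x t ^ 2 * (y t ^ 2) ^ (1 / k) ∂(gaussianReal τ (VV T)) ≤
        (1 + η') * (aK k * lM T M ^ (k ^ 2) * PW) :=
      (integral_mono iW iV hp).trans w3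
    have r4 := Hold9.hold hk hk1 hZ0 hx0 hy0 iZ iS iW
      (mul_pos (by linarith) (by positivity)) (by positivity) (by positivity) r1 w2 r3
    refine le_trans (le_of_eq ?_) r4
    unfold lM
    rw [Hold9.powers hAp hL hF0 hS0 hW0 (by positivity) (by linarith) (by linarith)]
  -- the critical line
  have key2 : ∀ τ : ℝ, T / Real.log T ≤ |τ| → |τ| ≤ 3 / 2 * T →
      (1 - η') * (ρ * G) ≤ EG T τ (fun t => ‖riemannZeta (1 / 2 + t * I)‖ ^ (2 * k)) :=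
    fun τ g1 g2 => q6 T u6 τ g1 g2 (ρ * G) hG1 (key τ g1 g2)
  -- the average
  have cz : Continuous fun t : ℝ => ‖riemannZeta (1 / 2 + t * I)‖ ^ (2 * k) :=
    K1.Lower.continuous_zeta_half.norm.rpow_const fun _ => Or.inr (by linarith)
  have bz : ∀ t : ℝ, ‖riemannZeta (1 / 2 + t * I)‖ ^ (2 * k) ≤ T ^ 6 * (1 + |t|) ^ 6 := by
    intro t
    have h := hz (1 / 2) t le_rfl (by norm_num)
    push_cast at h
    have hu : (1 : ℝ) ≤ 1 + |t| := by linarith [abs_nonneg t]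
    have h9 : ‖riemannZeta (1 / 2 + t * I)‖ ≤ T * (1 + |t|) ^ 2 := by
      refine h.trans ?_
      gcongr
    have h10 := Hold9.rpow_bd hk hk1 (norm_nonneg _) hu (by linarith) h9
    refine h10.trans ?_
    have e1 : T ^ 2 ≤ T ^ 6 := pow_le_pow_right₀ (by linarith) (by norm_num)
    have e2 : (1 + |t|) ^ 4 ≤ (1 + |t|) ^ 6 := pow_le_pow_right₀ hu (by norm_num)
    gcongr
  have fin := q7 T u7 _ cz (fun t => Real.rpow_nonneg (norm_nonneg _) _) bz
    ((1 - η') * (ρ * G)) (mul_nonneg (by linarith) (by positivity)) key2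
  have f1 : 1 - η' ≤ 1 - C₀ / Real.log T := by
    have : C₀ / Real.log T ≤ η' := by
      rw [div_le_iff₀ hL]
      rw [div_le_iff₀ hη0] at v3
      linarith
    linarith
  have f2 : 1 / T ≤ η' * G := by
    have e1 : 1 / T ≤ η' := by
      rw [div_le_iff₀ hT0]
      rw [div_le_iff₀ hη0] at u11
      linarith
    have e2 : ρ ≤ 1 := by
      rw [hρ, div_le_one (by linarith)]
      nlinarith
    have e3 : 1 ≤ G := by nlinarith
    nlinarith
  have f3 := Hold9.small hη0 hη1 hη2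
  have f4 : (1 - η') * ((1 - η') * (ρ * G)) ≤ (1 - C₀ / Real.log T) * ((1 - η') * (ρ * G)) := by
    refine mul_le_mul_of_nonneg_right f1 (mul_nonneg (by linarith) (by positivity))
  have f5 : (1 - η) * G ≤ ((1 - η') * ((1 - η') * ρ) - η') * G :=
    mul_le_mul_of_nonneg_right f3 hG0.le
  show (1 - η) * G ≤ _
  nlinarith

end K9
end Pool.Agent.Lib.MP_973905_nt
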