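import Pool.Agent.Lib.MP_973905_nt.K8.Len8
import Pool.Agent.Lib.MP_973905_nt.K9.Stmts

/-! Module V4 of K9: the bottom polynomials are short. -/

namespace Pool.Agent.Lib.MP_973905_nt
namespace K9

open MeasureTheory ProbabilityTheory Complex Filter Topology K1 K4 K5

namespace L9
open Len K8.L8

lemma dp_F9 {κ T : ℝ} (h0 : 0 < κ) (h1 : κ < 1) (hT : 1 < T) {M j : ℕ} (hM : 1 ≤ M)
    (hj : j ≤ JJ T) (h : Finset ℕ) :
    DP ((Real.exp (bet M (JJ T) j * Real.log T) ^ M) ^ ex κ T M h j)
      (21 * (M * Real.exp (bet M (JJ T) j * Real.log T)) ^ ex κ T M h j)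
      (fun f => if j ∈ h then (Pj M (Sj T M (JJ T) j) f / (KK M (JJ T) j : ℂ)) ^ K8.nb κ T M j
        else Ntr (ll M (JJ T) j) κ (Pj M (Sj T M (JJ T) j) f)) := by
  set y := Real.exp (bet M (JJ T) j * Real.log T) with hy
  have hL : 0 < Real.log T := Real.log_pos hT
  have hy1 : 1 ≤ y := Real.one_le_exp (mul_nonneg (bet_pos _ _ _).le hL.le)
  have hM1 : (1 : ℝ) ≤ M := by exact_mod_cast hM
  have hN1 : 1 ≤ y ^ M := one_le_pow₀ hy1
  have hB1 : 1 ≤ M * y := by nlinarith
  have hP := dp_Pj (A := M) (M := M) hT hj
  rw [← hy] at hP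
  have hK := KK_ge_one (M := M) hj
  unfold ex
  by_cases hjh : j ∈ h
  · simp only [if_pos hjh]
    refine (DP.pow (DP.scale hP (c := ((KK M (JJ T) j : ℝ) : ℂ)⁻¹) ?_) _).mono le_rfl ?_ |>.congr
      fun f _ => by rw [div_eq_mul_inv]; ring
    · rw [norm_inv, norm_real, Real.norm_eq_abs, abs_of_nonneg (by linarith)]
      exact inv_le_one_of_one_le₀ hK
    · have : 0 ≤ (M * y) ^ K8.nb κ T M j := by positivity
      linarith
  · simp only [if_neg hjh]
    have h2 := K3.LQ.dp_Ntr3 hN1 hB1 hP (α := κ) (by
      rw [abs_of_nonneg (by linarith)]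
      linarith) (ll M (JJ T) j)
    simpa using h2

end L9

open Len K8.L8 L9 in
/-- (V4) the bottom polynomials are short. -/
theorem stLen9 : StLen9 := by
  intro κ ε h0 h1 hε
  have hp := pe_ge h0 h1
  set c : ℝ := 12 * K8.pe κ with hc
  have hc24 : 24 ≤ c := by rw [hc]; linarith
  have hcpos : 0 < c := by linarith
  obtain ⟨M₀, hM₀, hM₀'⟩ := M_bound8 hcpos hε
  refine ⟨M₀, fun M hM => ?_⟩
  have hMb := hM₀' M hM
  have hM1 : (100 : ℝ) ≤ M := by exact_mod_cast hM₀.trans hM
  set D : ℝ := (2 / ε) * (4 + c * Real.log M * Real.exp (3 / 4 * M)) with hD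
  have hev : ∀ᶠ T : ℝ in atTop, 3 ≤ T ∧ 1 ≤ Real.log T ∧ 1 ≤ Real.log (Real.log T) ∧
      D * ((4 * Real.log (Real.log (Real.log T)) + 1) *
      Real.exp (3 / 4 * (4 * Real.log (Real.log (Real.log T))))) ≤ Real.log T := by
    have h1 : Tendsto (fun T : ℝ => Real.log (Real.log T)) atTop atTop :=
      Real.tendsto_log_atTop.comp Real.tendsto_log_atTop
    filter_upwards [eventually_ge_atTop 3, Real.tendsto_log_atTop.eventually_ge_atTop 1,
      h1.eventually_ge_atTop 1, eventually_small D] with T a b c d
    exact ⟨a, b, c, d⟩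
  obtain ⟨T₀, hT₀⟩ := eventually_atTop.1 hev
  refine ⟨max T₀ 3, le_max_right _ _, fun T hT h => ?_⟩
  obtain ⟨hT3, hL1, hb1, hsm⟩ := hT₀ T ((le_max_left _ _).trans hT)
  have hT0 : 0 < T := by linarith
  have hT1 : 1 < T := by linarith
  set L := Real.log T with hL
  set b := Real.log (Real.log T) with hb
  set J := JJ T with hJ
  have hJle : (J : ℝ) ≤ 4 * Real.log b := by
    rw [hJ, JJ]
    exact Nat.floor_le (mul_nonneg (by norm_num) (Real.log_nonneg hb1))
  have hlogM1 : 1 ≤ Real.log M := by
    rw [Real.le_log_iff_exp_le (by linarith)]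
    linarith [Real.exp_one_lt_d9]
  have hlogM : 0 ≤ Real.log M := by linarith
  have hM1' : 1 ≤ M := by
    have : (1 : ℝ) ≤ M := by linarith
    exact_mod_cast this
  have hexpM : 0 < Real.exp (-(M : ℝ) / 4) := Real.exp_pos _
  -- the common bound
  have hcommon : (J + 1) * 4 + (c * Real.log M) * ∑ j ∈ Finset.range (J + 1), KK M J j ≤
      L * (ε / 2) := by
    have h9 : 0 ≤ 4 * Real.log b + 1 := by
      have := Real.log_nonneg hb1; linarith
    have h8 : 0 ≤ c * Real.log M := by positivity
    calc (J + 1) * 4 + (c * Real.log M) * ∑ j ∈ Finset.range (J + 1), KK M J j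
        ≤ (J + 1) * 4 + (c * Real.log M) * ((J + 1) * Real.exp (3 / 4 * ((M : ℝ) + J))) := by
          have h1 := sum_KK M J
          gcongr
      _ ≤ (4 * Real.log b + 1) * 4 + (c * Real.log M) * ((4 * Real.log b + 1) *
          (Real.exp (3 / 4 * M) * Real.exp (3 / 4 * (4 * Real.log b)))) := by
          have h3 : Real.exp (3 / 4 * ((M : ℝ) + J)) ≤
              Real.exp (3 / 4 * M) * Real.exp (3 / 4 * (4 * Real.log b)) := by
            rw [← Real.exp_add]
            apply Real.exp_le_exp.2
            linarith
          gcongr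
      _ ≤ (ε / 2) * (D * ((4 * Real.log b + 1) * Real.exp (3 / 4 * (4 * Real.log b)))) := by
          have h10 : 1 ≤ Real.exp (3 / 4 * (4 * Real.log b)) := by
            apply Real.one_le_exp
            have := Real.log_nonneg hb1
            positivity
          have h11 : (4 * Real.log b + 1) * 4 ≤
              (4 * Real.log b + 1) * (4 * Real.exp (3 / 4 * (4 * Real.log b))) := by
            gcongr; linarith
          calc _ ≤ (4 * Real.log b + 1) * (4 * Real.exp (3 / 4 * (4 * Real.log b))) +
              (c * Real.log M) * ((4 * Real.log b + 1) *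
            (Real.exp (3 / 4 * M) * Real.exp (3 / 4 * (4 * Real.log b)))) := by linarith
            _ = _ := by
              rw [hD]
              field_simp
      _ ≤ (ε / 2) * L := by gcongr
      _ = L * (ε / 2) := by ring
  have hKK0 : 0 ≤ ∑ j ∈ Finset.range (J + 1), KK M J j :=
    Finset.sum_nonneg fun j _ => (Real.exp_pos _).le
  constructor
  · have key := dp_prod (Finset.range (J + 1)) (fun j hj => dp_F9 (κ := κ) (T := T) (M := M)
      h0 h1 hT1 hM1' (show j ≤ JJ T by rw [Finset.mem_range] at hj; omega) h)
    refine key.mono ?_ ?_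
    · -- length
      have e1 : ∏ j ∈ Finset.range (J + 1),
          (Real.exp (bet M J j * L) ^ M) ^ (ex κ T M h j) =
          Real.exp (∑ j ∈ Finset.range (J + 1),
            bet M J j * L * M * ((ex κ T M h j : ℕ) : ℝ)) := by
        rw [Real.exp_sum]
        refine Finset.prod_congr rfl fun j _ => ?_
        rw [← pow_mul, ← Real.exp_nat_mul]
        congr 1
        push_cast
        ring
      rw [e1, Real.rpow_def_of_pos hT0]
      apply Real.exp_le_exp.2
      calc ∑ j ∈ Finset.range (J + 1), bet M J j * L * M * ((ex κ T M h j : ℕ) : ℝ)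
          ≤ ∑ j ∈ Finset.range (J + 1), (c * L * M) * (bet M J j * KK M J j) := by
            refine Finset.sum_le_sum fun j hj => ?_
            have h1 := ex_le (M := M) h0 h1
              (show j ≤ JJ T by rw [Finset.mem_range] at hj; omega) h
            have h2 : 0 ≤ bet M J j * L * M := by
              have := (bet_pos M J j).le
              positivity
            calc bet M J j * L * M * ((ex κ T M h j : ℕ) : ℝ)
                ≤ bet M J j * L * M * (c * KK M J j) := mul_le_mul_of_nonneg_left h1 h2
              _ = _ := by ring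
        _ = (c * L * M) * ∑ j ∈ Finset.range (J + 1), bet M J j * KK M J j := by
            rw [Finset.mul_sum]
        _ ≤ (c * L * M) * (5 * Real.exp (-(M : ℝ) / 4)) := by
            gcongr
            exact sum_bet_KK M J
        _ = L * (5 * c * M * Real.exp (-(M : ℝ) / 4)) := by ring
        _ ≤ L * ε := by
            gcongr
            linarith
    · -- norm
      have hM0 : (0 : ℝ) < M := by linarith
      have e1 : ∏ j ∈ Finset.range (J + 1),
          (21 * (M * Real.exp (bet M J j * L)) ^ (ex κ T M h j)) =
          Real.exp (∑ j ∈ Finset.range (J + 1),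
            (Real.log 21 + (Real.log M + bet M J j * L) * ((ex κ T M h j : ℕ) : ℝ))) := by
        rw [Real.exp_sum]
        refine Finset.prod_congr rfl fun j _ => ?_
        rw [Real.exp_add, Real.exp_log (by norm_num)]
        congr 1
        rw [mul_comm (Real.log M + bet M J j * L), Real.exp_nat_mul, Real.exp_add,
          Real.exp_log hM0]
      rw [e1, Real.rpow_def_of_pos hT0]
      apply Real.exp_le_exp.2
      have hlog8 : Real.log 21 ≤ 4 := by
        have h2 : Real.log 32 = 5 * Real.log 2 := by
          rw [show (32 : ℝ) = 2 ^ 5 by norm_num, Real.log_pow]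
          norm_num
        have h3 : Real.log 21 ≤ Real.log 32 := Real.log_le_log (by norm_num) (by norm_num)
        have := Real.log_two_lt_d9
        linarith
      calc ∑ j ∈ Finset.range (J + 1),
            (Real.log 21 + (Real.log M + bet M J j * L) * ((ex κ T M h j : ℕ) : ℝ))
          ≤ ∑ j ∈ Finset.range (J + 1),
            (4 + (c * Real.log M) * KK M J j + (c * L) * (bet M J j * KK M J j)) := by
            refine Finset.sum_le_sum fun j hj => ?_
            have h1 := ex_le (M := M) h0 h1
              (show j ≤ JJ T by rw [Finset.mem_range] at hj; omega) h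
            have h2 : 0 ≤ Real.log M + bet M J j * L := by
              have := (bet_pos M J j).le
              positivity
            have h3 := mul_le_mul_of_nonneg_left h1 h2
            calc _ ≤ 4 + (Real.log M + bet M J j * L) * (c * KK M J j) := by
                  rw [hJ, hc]
                  rw [hJ] at h3
                  linarith
              _ = _ := by ring
        _ = (J + 1) * 4 + (c * Real.log M) * ∑ j ∈ Finset.range (J + 1), KK M J j +
            (c * L) * ∑ j ∈ Finset.range (J + 1), bet M J j * KK M J j := by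
            rw [Finset.sum_add_distrib, Finset.sum_add_distrib, ← Finset.mul_sum,
              ← Finset.mul_sum]
            simp
        _ ≤ L * (ε / 2) + (c * L) * (5 * Real.exp (-(M : ℝ) / 4)) := by
            have h2 := sum_bet_KK M J
            gcongr
        _ ≤ L * (ε / 2) + L * (ε / 2) := by
            have h5 : Real.exp (-(M : ℝ) / 4) ≤ M * Real.exp (-(M : ℝ) / 4) := by
              nlinarith
            have h6 : 5 * c * Real.exp (-(M : ℝ) / 4) ≤ ε / 2 := by
              calc 5 * c * Real.exp (-(M : ℝ) / 4) ≤ 5 * c * (M * Real.exp (-(M : ℝ) / 4)) := by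
                    gcongr
                _ = 5 * c * M * Real.exp (-(M : ℝ) / 4) := by ring
                _ ≤ ε / 2 := hMb
            have h7 : 0 ≤ L := by linarith
            have h8 : (c * L) * (5 * Real.exp (-(M : ℝ) / 4)) =
                L * (5 * c * Real.exp (-(M : ℝ) / 4)) := by ring
            rw [h8]
            gcongr
        _ = L * ε := by ring
  · have e1 : ∏ j ∈ Finset.range (J + 1), (2 * Real.exp (2 * K8.pe κ * KK M J j)) =
        Real.exp (∑ j ∈ Finset.range (J + 1), (Real.log 2 + 2 * K8.pe κ * KK M J j)) := by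
      rw [Real.exp_sum]
      refine Finset.prod_congr rfl fun j _ => ?_
      rw [Real.exp_add, Real.exp_log (by norm_num)]
    rw [e1, Real.rpow_def_of_pos hT0]
    apply Real.exp_le_exp.2
    have hl2 := Real.log_two_lt_d9
    calc ∑ j ∈ Finset.range (J + 1), (Real.log 2 + 2 * K8.pe κ * KK M J j)
        = (J + 1) * Real.log 2 + 2 * K8.pe κ * ∑ j ∈ Finset.range (J + 1), KK M J j := by
          rw [Finset.sum_add_distrib, ← Finset.mul_sum]
          simp
      _ ≤ (J + 1) * 4 + (c * Real.log M) * ∑ j ∈ Finset.range (J + 1), KK M J j := by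
          have h2 : 2 * K8.pe κ ≤ c * Real.log M := by
            rw [hc]
            nlinarith
          gcongr
          linarith
      _ ≤ L * (ε / 2) := hcommon
      _ ≤ L * ε := by
          have : 0 ≤ L := by linarith
          nlinarith

end K9
end Pool.Agent.Lib.MP_973905_nt
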