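import Pool.Agent.Lib.MP_973905_nt.K9.Stmts
import Pool.Agent.Lib.MP_973905_nt.K5.Long

/-! (A6) the long twisted second moment to the right of the critical line. -/

set_option autoImplicit false

namespace Pool.Agent.Lib.MP_973905_nt
namespace K9

open MeasureTheory ProbabilityTheory Complex Filter Topology K1 K4 K5 TSM

namespace LongS

/-! ### The kernel -/

lemma norm_sub_ge {a A : ℝ} (ha : 0 ≤ a) (ha' : a ≤ 1 / 400) (hA : 2 ≤ A) (y : ℝ) :
    ‖((A : ℝ) + y * I : ℂ)‖ ≤ ‖(((A : ℝ) + y * I : ℂ) ^ 2 - (a : ℂ) ^ 2)‖ ∧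
      0 < ‖((A : ℝ) + y * I : ℂ)‖ := by
  have h1 : A ≤ ‖((A : ℝ) + y * I : ℂ)‖ := by
    have := abs_re_le_norm ((A : ℝ) + y * I : ℂ)
    have hre : ((A : ℝ) + y * I : ℂ).re = A := by simp
    rw [hre, abs_of_nonneg (by linarith)] at this
    exact this
  have h2 : ‖((A : ℝ) + y * I : ℂ)‖ ^ 2 - a ^ 2 ≤
      ‖(((A : ℝ) + y * I : ℂ) ^ 2 - (a : ℂ) ^ 2)‖ := by
    have h3 := norm_sub_norm_le (((A : ℝ) + y * I : ℂ) ^ 2) ((a : ℂ) ^ 2)
    rw [norm_pow, norm_pow, norm_real, Real.norm_eq_abs, sq_abs] at h3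
    exact h3
  constructor
  · nlinarith
  · linarith

lemma KNa_cont {X a A : ℝ} (hX : 0 < X) (ha : 0 ≤ a) (ha' : a ≤ 1 / 400) (hA : 2 ≤ A) :
    Continuous fun y : ℝ => KNa X a ((A : ℝ) + y * I) := by
  unfold KNa
  have hne : ∀ y : ℝ, ((A : ℝ) + y * I : ℂ) ^ 2 - (a : ℂ) ^ 2 ≠ 0 := by
    intro y h
    obtain ⟨h1, h2⟩ := norm_sub_ge ha ha' hA y
    rw [h, norm_zero] at h1
    linarith
  refine Continuous.mul ?_ (Continuous.div (by fun_prop) (by fun_prop) hne)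
  refine Continuous.mul ?_ (by fun_prop)
  exact Continuous.const_cpow (by fun_prop) (Or.inl (by exact_mod_cast hX.ne'))

lemma KNa_norm {X a A T : ℝ} (hX : 0 < X) (hXT : X ≤ T) (hT : 1 ≤ T) (ha : 0 ≤ a)
    (ha' : a ≤ 1 / 400) (hA : 2 ≤ A) (y : ℝ) :
    ‖KNa X a ((A : ℝ) + y * I)‖ ≤ T ^ A * Real.exp (A ^ 2) := by
  obtain ⟨k1, k2⟩ := norm_sub_ge ha ha' hA y
  rw [KNa, norm_mul, norm_mul, norm_div, norm_cpow_eq_rpow_re_of_pos hX, norm_exp]
  have hre : (((A : ℝ) + y * I : ℂ) - a).re = A - a := by simp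
  have hsq : (((A : ℝ) + y * I : ℂ) ^ 2 - (a : ℂ) ^ 2).re = A ^ 2 - y ^ 2 - a ^ 2 := by
    rw [sq, sq]; simp; ring
  rw [hre, hsq]
  have h1 : ‖((A : ℝ) + y * I : ℂ)‖ / ‖(((A : ℝ) + y * I : ℂ) ^ 2 - (a : ℂ) ^ 2)‖ ≤ 1 :=
    div_le_one_of_le₀ k1 (norm_nonneg _)
  have h2 : X ^ (A - a) ≤ T ^ A :=
    (Real.rpow_le_rpow hX.le hXT (by linarith)).trans
      (Real.rpow_le_rpow_of_exponent_le hT (by linarith))
  have h3 : Real.exp (A ^ 2 - y ^ 2 - a ^ 2) ≤ Real.exp (A ^ 2) := by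
    apply Real.exp_le_exp.mpr
    nlinarith [sq_nonneg y, sq_nonneg a]
  have h4 : 0 ≤ X ^ (A - a) := Real.rpow_nonneg hX.le _
  have h5 : X ^ (A - a) * Real.exp (A ^ 2 - y ^ 2 - a ^ 2) ≤ T ^ A * Real.exp (A ^ 2) := by
    apply mul_le_mul h2 h3 (Real.exp_pos _).le (h4.trans h2)
  have h6 : 0 ≤ X ^ (A - a) * Real.exp (A ^ 2 - y ^ 2 - a ^ 2) := by positivity
  exact (mul_le_of_le_one_right h6 h1).trans h5

end LongS

open K5.Long LongS in
theorem stLongS (h4 : StHalfS) (h5 : StMoveS) (h6 : K5.StPairA) (h7 : StBackS) (h8 : K5.StMS) :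
    StLongS := by
  obtain ⟨T₄, hT₄, h4⟩ := h4
  obtain ⟨T₅, hT₅, h5⟩ := h5 1000 (by norm_num)
  obtain ⟨T₆, hT₆, h6⟩ := h6 1000 (by norm_num)
  obtain ⟨T₇, hT₇, h7⟩ := h7 1000 (by norm_num)
  obtain ⟨T₈, hT₈, h8⟩ := h8
  -- the final inequality
  have hfin : ∀ᶠ T : ℝ in atTop, T ^ (-(6 / 1000) : ℝ) + T ^ (-1 : ℝ) +
      2 * Real.exp (1000 ^ 2) * Real.log T * T ^ (-1 : ℝ) + T ^ (-(1 / 50) : ℝ) ≤
      T ^ (-(5 / 1000) : ℝ) := by
    have l1 : Tendsto (fun T : ℝ => T ^ (-(1 / 1000) : ℝ)) atTop (𝓝 0) :=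
      tendsto_rpow_neg_atTop (by norm_num)
    have l2 : Tendsto (fun T : ℝ => T ^ (-(995 / 1000) : ℝ)) atTop (𝓝 0) :=
      tendsto_rpow_neg_atTop (by norm_num)
    have l3 : Tendsto (fun T : ℝ => Real.log T * T ^ (-(995 / 1000) : ℝ)) atTop (𝓝 0) := by
      have := (isLittleO_log_rpow_atTop (r := 995 / 1000) (by norm_num)).tendsto_div_nhds_zero
      refine this.congr' ?_
      filter_upwards [eventually_ge_atTop 0] with T hT
      rw [Real.rpow_neg hT, div_eq_mul_inv]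
    have l4 : Tendsto (fun T : ℝ => T ^ (-(15 / 1000) : ℝ)) atTop (𝓝 0) :=
      tendsto_rpow_neg_atTop (by norm_num)
    have l5 := ((l1.add l2).add (l3.const_mul (2 * Real.exp (1000 ^ 2)))).add l4
    rw [mul_zero, add_zero, add_zero, add_zero] at l5
    filter_upwards [l5.eventually_le_const (zero_lt_one), eventually_gt_atTop 0] with T hT hT0
    have p0 : 0 < T ^ (-(5 / 1000) : ℝ) := Real.rpow_pos_of_pos hT0 _
    have e1 : T ^ (-(6 / 1000) : ℝ) = T ^ (-(5 / 1000) : ℝ) * T ^ (-(1 / 1000) : ℝ) := by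
      rw [← Real.rpow_add hT0]; norm_num
    have e2 : T ^ (-1 : ℝ) = T ^ (-(5 / 1000) : ℝ) * T ^ (-(995 / 1000) : ℝ) := by
      rw [← Real.rpow_add hT0]; norm_num
    have e3 : T ^ (-(1 / 50) : ℝ) = T ^ (-(5 / 1000) : ℝ) * T ^ (-(15 / 1000) : ℝ) := by
      rw [← Real.rpow_add hT0]; norm_num
    rw [e1, e2, e3]
    have := mul_le_mul_of_nonneg_left hT p0.le
    rw [mul_one] at this
    refine le_trans (le_of_eq ?_) this
    ring
  obtain ⟨T₉, hT₉⟩ := eventually_atTop.mp hfin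
  refine ⟨max (max (max T₄ T₅) (max T₆ T₇)) (max T₈ T₉), ?_, ?_⟩
  · exact hT₄.trans (((le_max_left _ _).trans (le_max_left _ _)).trans (le_max_left _ _))
  intro T hT τ hτ1 hτ2 N c hN hc hc0 a ha1 ha2
  have g4 : T₄ ≤ T := (((le_max_left _ _).trans (le_max_left _ _)).trans (le_max_left _ _)).trans hT
  have g5 : T₅ ≤ T := (((le_max_right _ _).trans (le_max_left _ _)).trans (le_max_left _ _)).trans hT
  have g6 : T₆ ≤ T := (((le_max_left _ _).trans (le_max_right _ _)).trans (le_max_left _ _)).trans hT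
  have g7 : T₇ ≤ T := (((le_max_right _ _).trans (le_max_right _ _)).trans (le_max_left _ _)).trans hT
  have g8 : T₈ ≤ T := ((le_max_left _ _).trans (le_max_right _ _)).trans hT
  have g9 : T₉ ≤ T := ((le_max_right _ _).trans (le_max_right _ _)).trans hT
  have hT3 : 3 ≤ T := hT₄.trans g4
  have hT0 : 0 < T := by linarith
  have hT1 : 1 ≤ T := by linarith
  have hL : 0 < Real.log T := Real.log_pos (by linarith)
  obtain ⟨m1, m2, m3⟩ := h8 T g8 τ N c hN hc hc0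
  set H : ℝ → ℂ := fun t => GB N c (fs (1 / 2 + t * I)) with hH
  have hHT : ∀ t, ‖H t‖ ≤ T ^ 2 := by
    intro t
    refine (m2 t).trans ?_
    nlinarith
  have ha0 : 0 < a := lt_of_lt_of_le (by positivity) ha1
  have a4 := h4 T g4 τ hτ1 hτ2 H m3 hHT m1 a ha0 ha2
  have a5 := h5 T g5 τ hτ1 hτ2 H m3 hHT a ha0 ha2
  have a7 := h7 T g7 τ hτ1 hτ2 N c hN hc hc0 a ha1 ha2
  set X : ℝ := |τ| / (2 * Real.pi) with hX
  have hτ0 : 0 < |τ| := lt_of_lt_of_le (div_pos hT0 hL) hτ1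
  have hX0 : 0 < X := by positivity
  have hXT : X ≤ T := by
    rw [hX, div_le_iff₀ (by positivity)]
    have := Real.pi_gt_three
    nlinarith
  -- the error far to the right
  set P : ℝ := T ^ (-(201 / 200) * (1000 - 1) + 1 / 100 : ℝ) with hP
  have hP0 : 0 < P := Real.rpow_pos_of_pos hT0 _
  have hre : ∀ y : ℝ, (((1000 : ℝ) : ℂ) + y * I).re = 1000 := fun y => by simp
  have herr : ∀ y : ℝ, ‖KNa X a (((1000 : ℝ) : ℂ) + y * I) * FH T τ H (((1000 : ℝ) : ℂ) + y * I) -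
      KNa X a (((1000 : ℝ) : ℂ) + y * I) * (riemannZeta (1 + 2 * (((1000 : ℝ) : ℂ) + y * I)) *
        RB N c (((1000 : ℝ) : ℂ) + y * I))‖ ≤ Real.exp (1000 ^ 2) * T ^ (-1 : ℝ) := by
    intro y
    rw [← mul_sub, norm_mul]
    have h1 := KNa_norm hX0 hXT hT1 ha0.le ha2 (by norm_num : (2 : ℝ) ≤ 1000) y
    have h2 := FH_main (by norm_num : (2 : ℝ) ≤ 1000) hT3 (τ := τ) hP0.le hN hc hc0 (hre y)
      (fun m n hm hn hmn => h6 T g6 τ m n hm hn hmn _ (hre y))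
    have h3 : 0 ≤ T ^ (1000 : ℝ) * Real.exp (1000 ^ 2) := by positivity
    refine (mul_le_mul h1 h2 (norm_nonneg _) h3).trans ?_
    have e1 : T ^ (1000 : ℝ) * Real.exp (1000 ^ 2) * (T ^ 2 * (T ^ (1 / 1000 : ℝ) * P)) =
        Real.exp (1000 ^ 2) * T ^ (1000 + (2 + (1 / 1000 +
          (-(201 / 200) * (1000 - 1) + 1 / 100))) : ℝ) := by
      rw [Real.rpow_add hT0, Real.rpow_add hT0, Real.rpow_add hT0, hP]
      rw [show T ^ (2 : ℝ) = T ^ 2 by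
        rw [show (2 : ℝ) = ((2 : ℕ) : ℝ) by norm_num, Real.rpow_natCast]]
      ring
    rw [e1]
    refine mul_le_mul_of_nonneg_left ?_ (Real.exp_pos _).le
    exact Real.rpow_le_rpow_of_exponent_le hT1 (by norm_num)
  -- integrability
  have i1 : IntervalIntegrable (fun y : ℝ => KNa X a (((1000 : ℝ) : ℂ) + y * I) *
      FH T τ H (((1000 : ℝ) : ℂ) + y * I)) volume (-Real.log T) (Real.log T) :=
    ((KNa_cont hX0 ha0.le ha2 (by norm_num : (2 : ℝ) ≤ 1000)).mul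
      (FH_cont (by norm_num : (1 : ℝ) ≤ 1000) T τ m3 hHT)).intervalIntegrable _ _
  have hzc : Continuous fun y : ℝ => riemannZeta (1 + 2 * (((1000 : ℝ) : ℂ) + y * I)) := by
    refine continuous_iff_continuousAt.mpr fun y => ?_
    exact ContinuousAt.comp (f := fun y : ℝ => (1 + 2 * (((1000 : ℝ) : ℂ) + y * I) : ℂ))
      (g := riemannZeta) (zeta_contAt (by simp)) (by fun_prop)
  have i2 : IntervalIntegrable (fun y : ℝ => KNa X a (((1000 : ℝ) : ℂ) + y * I) *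
      (riemannZeta (1 + 2 * (((1000 : ℝ) : ℂ) + y * I)) * RB N c (((1000 : ℝ) : ℂ) + y * I)))
      volume (-Real.log T) (Real.log T) :=
    ((KNa_cont hX0 ha0.le ha2 (by norm_num : (2 : ℝ) ≤ 1000)).mul
      (hzc.mul (RB_cont N c 1000))).intervalIntegrable _ _
  have hdiff : ‖(∫ y : ℝ in (-Real.log T)..(Real.log T), KNa X a (((1000 : ℝ) : ℂ) + y * I) *
      FH T τ H (((1000 : ℝ) : ℂ) + y * I)) - ∫ y : ℝ in (-Real.log T)..(Real.log T),
        KNa X a (((1000 : ℝ) : ℂ) + y * I) * (riemannZeta (1 + 2 * (((1000 : ℝ) : ℂ) + y * I)) *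
        RB N c (((1000 : ℝ) : ℂ) + y * I))‖ ≤
        2 * Real.exp (1000 ^ 2) * Real.log T * T ^ (-1 : ℝ) := by
    rw [← intervalIntegral.integral_sub i1 i2]
    have h1 := intervalIntegral.norm_integral_le_of_norm_le_const
      (a := -Real.log T) (b := Real.log T) (C := Real.exp (1000 ^ 2) * T ^ (-1 : ℝ))
      (f := fun y : ℝ => KNa X a (((1000 : ℝ) : ℂ) + y * I) *
      FH T τ H (((1000 : ℝ) : ℂ) + y * I) - KNa X a (((1000 : ℝ) : ℂ) + y * I) *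
      (riemannZeta (1 + 2 * (((1000 : ℝ) : ℂ) + y * I)) *
        RB N c (((1000 : ℝ) : ℂ) + y * I))) (fun y _ => herr y)
    refine h1.trans (le_of_eq ?_)
    rw [abs_of_pos (by linarith)]
    ring
  -- assembling
  set i₁ := ∫ y : ℝ in (-Real.log T)..(Real.log T),
      KNa X a ((1 / 200 : ℝ) + y * I) * FH T τ H ((1 / 200 : ℝ) + y * I) with hi₁
  set i₂ := ∫ y : ℝ in (-Real.log T)..(Real.log T), KNa X a (((1000 : ℝ) : ℂ) + y * I) *
      FH T τ H (((1000 : ℝ) : ℂ) + y * I) with hi₂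
  set i₃ := ∫ y : ℝ in (-Real.log T)..(Real.log T),
        KNa X a (((1000 : ℝ) : ℂ) + y * I) * (riemannZeta (1 + 2 * (((1000 : ℝ) : ℂ) + y * I)) *
        RB N c (((1000 : ℝ) : ℂ) + y * I)) with hi₃
  set κ : ℂ := ((1 / Real.pi : ℝ) : ℂ) with hκ
  have hκ1 : ‖κ‖ ≤ 1 := by
    rw [hκ, norm_real, Real.norm_eq_abs, abs_of_pos (by positivity), div_le_one Real.pi_pos]
    linarith [Real.pi_gt_three]
  set m₀ := riemannZeta (1 + 2 * a) * RB N c a + (X : ℂ) ^ (-(2 * a : ℂ)) *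
        (riemannZeta (1 - 2 * a) * RB N c (-a)) with hm₀
  have e5 : FH T τ H a - m₀ = (FH T τ H a - κ * i₁) + κ * (i₁ - i₂) + κ * (i₂ - i₃) +
      (κ * i₃ - m₀) := by ring
  rw [e5]
  have n1 : ‖κ * (i₁ - i₂)‖ ≤ T ^ (-1 : ℝ) := by
    rw [norm_mul]
    have := norm_nonneg (i₁ - i₂)
    nlinarith
  have n2 : ‖κ * (i₂ - i₃)‖ ≤ 2 * Real.exp (1000 ^ 2) * Real.log T * T ^ (-1 : ℝ) := by
    rw [norm_mul]
    have := norm_nonneg (i₂ - i₃)
    nlinarith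
  refine le_trans ?_ (hT₉ T g9)
  refine (norm_add_le _ _).trans (add_le_add ?_ a7)
  refine (norm_add_le _ _).trans (add_le_add ?_ n2)
  refine (norm_add_le _ _).trans (add_le_add a4 n1)

end K9
end Pool.Agent.Lib.MP_973905_nt
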