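import Pool.Agent.Lib.MP_973905_nt.K9.Stmts
import Pool.Agent.Lib.MP_973905_nt.K8.CrudeF

/-! (N6) The loss of a block: `bF ≥ e^{k(1-k)V}`, `bS ≤ e^{-(1-k)²V} (1 + x_A²)` and
`bW ≤ e^{-k²V} √(M_A M_B)`. -/

namespace Pool.Agent.Lib.MP_973905_nt
namespace K9

open MeasureTheory ProbabilityTheory Complex Filter Topology K1 K4 K5

namespace Ls9

/-! ### the Taylor coefficients -/

lemma cfe_zero (p : Polynomial ℝ) (u : ℝ) : cfe p u 0 = p.coeff 0 := by
  simp [cfe]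

lemma cfe_C_mul (c : ℝ) (p : Polynomial ℝ) (u : ℝ) (j : ℕ) :
    cfe (Polynomial.C c * p) u j = c * cfe p u j := by
  unfold cfe
  rw [Finset.mul_sum]
  refine Finset.sum_congr rfl fun i _ => ?_
  rw [Polynomial.coeff_C_mul]
  ring

lemma coeff_lin_zero (a : ℝ) (p : Polynomial ℝ) :
    (p * (1 + Polynomial.C a * Polynomial.X)).coeff 0 = p.coeff 0 := by
  simp [Polynomial.mul_coeff_zero]

lemma coeff_lin_succ (a : ℝ) (p : Polynomial ℝ) (i : ℕ) :
    (p * (1 + Polynomial.C a * Polynomial.X)).coeff (i + 1) = p.coeff (i + 1) + a * p.coeff i := by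
  have h : p * (1 + Polynomial.C a * Polynomial.X) =
      p + Polynomial.C a * (p * Polynomial.X) := by ring
  rw [h, Polynomial.coeff_add, Polynomial.coeff_C_mul, Polynomial.coeff_mul_X]

lemma cfe_lin (a : ℝ) (p : Polynomial ℝ) (u : ℝ) (j : ℕ) :
    cfe (p * (1 + Polynomial.C a * Polynomial.X)) u (j + 1) =
      cfe p u (j + 1) + a * cfe p u j := by
  unfold cfe
  rw [Finset.sum_range_succ' _ (j + 1), Finset.sum_range_succ' _ (j + 1), coeff_lin_zero,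
    Finset.mul_sum]
  have h : ∑ i ∈ Finset.range (j + 1), (p * (1 + Polynomial.C a * Polynomial.X)).coeff (i + 1) *
      ((-u) ^ (j + 1 - (i + 1)) / ((j + 1 - (i + 1)).factorial : ℝ)) =
      ∑ i ∈ Finset.range (j + 1), p.coeff (i + 1) *
        ((-u) ^ (j + 1 - (i + 1)) / ((j + 1 - (i + 1)).factorial : ℝ)) +
      ∑ i ∈ Finset.range (j + 1), a * (p.coeff i * ((-u) ^ (j - i) / ((j - i).factorial : ℝ))) := by
    rw [← Finset.sum_add_distrib]
    refine Finset.sum_congr rfl fun i _ => ?_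
    rw [coeff_lin_succ, Nat.add_sub_add_right]
    ring
  rw [h]
  ring

lemma cfe_pow (a u : ℝ) (n j : ℕ) :
    cfe ((1 + Polynomial.C a * Polynomial.X) ^ n) u j = K8.dcf a u n j := by
  rw [K8.CrF.dcf_eq]
  induction n generalizing j with
  | zero =>
    unfold cfe
    rw [Finset.sum_eq_single 0]
    · simp [K8.CrF.cf]
    · intro i _ hi
      rw [pow_zero, Polynomial.coeff_one, if_neg hi, zero_mul]
    · intro h
      simp at h
  | succ n ih =>
    match j with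
    | 0 =>
      rw [K8.CrF.cf_zero, cfe_zero, Polynomial.coeff_zero_eq_eval_zero]
      simp
    | j + 1 =>
      rw [pow_succ, cfe_lin, ih, ih]
      rfl

lemma dcf_neg (a l : ℝ) (n j : ℕ) : K8.dcf (-a) (-l) n j = (-1) ^ j * K8.dcf a l n j := by
  induction j using Nat.strong_induction_on with
  | _ j ih =>
    match j with
    | 0 => simp [K8.dcf]
    | 1 => simp only [K8.dcf]; ring
    | j + 2 =>
      rw [K8.dcf, K8.dcf, ih (j + 1) (by omega), ih j (by omega)]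
      rw [pow_succ, pow_succ]
      ring

lemma dcf_neg_sq (a l : ℝ) (n j : ℕ) : K8.dcf (-a) (-l) n j ^ 2 = K8.dcf a l n j ^ 2 := by
  rw [dcf_neg, mul_pow, ← pow_mul, mul_comm j 2, pow_mul]
  simp

/-! ### shifts -/

/-- `1 + a X` -/
noncomputable def ln (a : ℝ) : Polynomial ℝ := 1 + Polynomial.C a * Polynomial.X

lemma sh_ln (a c : ℝ) (n : ℕ) :
    sh (ln a ^ n) c = (1 + Polynomial.C a * (Polynomial.X + Polynomial.C c)) ^ n := by
  simp [sh, ln]

lemma pA_eq (k : ℝ) (D : ℕ) (V : ℝ) :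
    pA k D V ^ D = sh (ln (-((1 - k) / D)) ^ D) (-(k * V)) := by
  rw [sh_ln, pA]
  congr 1
  rw [map_neg, map_neg]
  ring

lemma pB_eq (k : ℝ) (E n : ℕ) (V : ℝ) :
    pB k E V ^ n = sh (ln (k / E) ^ n) (-(k * V)) := by
  rw [sh_ln, pB]
  congr 1
  rw [map_neg]
  ring

lemma sh_sh (p : Polynomial ℝ) (c d : ℝ) : sh (sh p c) d = sh p (c + d) := by
  unfold sh
  rw [Polynomial.comp_assoc]
  congr 1
  simp
  ring

lemma sh_mul (p q : Polynomial ℝ) (c : ℝ) : sh (p * q) c = sh p c * sh q c := by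
  simp [sh]

lemma sh_C (a c : ℝ) : sh (Polynomial.C a) c = Polynomial.C a := by
  simp [sh]

lemma dcf_two (a : ℝ) (n : ℕ) :
    K8.dcf a (n * a) n 0 = 1 ∧ K8.dcf a (n * a) n 1 = 0 ∧
      K8.dcf a (n * a) n 2 = -(n * a ^ 2 / 2) := by
  refine ⟨rfl, ?_, ?_⟩
  · have : K8.dcf a (n * a) n 1 = n * a - n * a := rfl
    rw [this, sub_self]
  · have h1 : K8.dcf a (n * a) n 1 = n * a - n * a := rfl
    have : K8.dcf a (n * a) n 2 = ((n * a - n * a - a * ((0 + 1 : ℕ) : ℝ)) *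
      K8.dcf a (n * a) n (0 + 1) - n * a * a * K8.dcf a (n * a) n 0) / ((0 + 2 : ℕ) : ℝ) := rfl
    rw [this, show (0 + 1 : ℕ) = 1 from rfl, h1, show K8.dcf a (n * a) n 0 = 1 from rfl]
    push_cast
    ring

/-! ### the first moment -/

/-- A lower bound for the sum of the products. -/
lemma prod_low {a b w : ℕ → ℝ} {S NA NB x y : ℝ} (hw : ∀ j, 0 ≤ w j)
    (h : HasSum (fun j => a j * b j * w j) S) (hA : HasSum (fun j => a j ^ 2 * w j) NA)
    (hB : HasSum (fun j => b j ^ 2 * w j) NB) (hx : 0 < x) (hy : 0 < y)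
    (a0 : a 0 ^ 2 * w 0 = 1) (b0 : b 0 ^ 2 * w 0 = 1) (c0 : a 0 * b 0 * w 0 = 1)
    (a1 : a 1 = 0) (b1 : b 1 = 0) (a2 : a 2 ^ 2 * w 2 = x ^ 2 / 2)
    (b2 : b 2 ^ 2 * w 2 = y ^ 2 / 2) (c2 : a 2 * b 2 * w 2 = x * y / 2)
    (hNA : NA ≤ 1 + x ^ 2) (hNB : NB ≤ 1 + y ^ 2) : 1 ≤ S := by
  have h1 := h.add ((hA.mul_left (y / x / 2)).add (hB.mul_left (x / y / 2)))
  have h2 : ∑ j ∈ Finset.range 3, (a j * b j * w j + (y / x / 2 * (a j ^ 2 * w j) +
      x / y / 2 * (b j ^ 2 * w j))) ≤ S + (y / x / 2 * NA + x / y / 2 * NB) := by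
    refine sum_le_hasSum _ (fun j _ => ?_) h1
    have h3 : a j * b j * w j + (y / x / 2 * (a j ^ 2 * w j) + x / y / 2 * (b j ^ 2 * w j)) =
        w j / (2 * x * y) * (y * a j + x * b j) ^ 2 := by
      field_simp
      ring
    rw [h3]
    have := hw j
    positivity
  rw [Finset.sum_range_succ, Finset.sum_range_succ, Finset.sum_range_succ, Finset.sum_range_zero,
    a0, b0, c0, a1, b1, a2, b2, c2] at h2
  have h4 : y / x / 2 * NA ≤ y / x / 2 * (1 + x ^ 2) :=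
    mul_le_mul_of_nonneg_left hNA (by positivity)
  have h5 : x / y / 2 * NB ≤ x / y / 2 * (1 + y ^ 2) :=
    mul_le_mul_of_nonneg_left hNB (by positivity)
  have h6 : y / x / 2 * (x ^ 2 / 2) = x * y / 4 := by
    field_simp
    ring
  have h7 : x / y / 2 * (y ^ 2 / 2) = x * y / 4 := by
    field_simp
    ring
  have h8 : y / x / 2 * (1 + x ^ 2) = y / x / 2 + x * y / 2 := by
    field_simp
  have h9 : x / y / 2 * (1 + y ^ 2) = x / y / 2 + x * y / 2 := by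
    field_simp
  rw [h8] at h4
  rw [h9] at h5
  simp only [h6, h7, zero_mul, mul_zero, mul_one, ne_eq, OfNat.ofNat_ne_zero, not_false_eq_true,
    zero_pow, add_zero, zero_add] at h2
  linarith

lemma cfe_ln (a u : ℝ) (n j : ℕ) : cfe (ln a ^ n) u j = K8.dcf a u n j := cfe_pow a u n j

lemma first (h1 : StTilt) (h3 : StNA) {k V : ℝ} {D E : ℕ} (hk0 : 0 < k) (hk1 : k < 1)
    (hD : 1 ≤ D) (hE : 1 ≤ E) (hV : 0 < V) (hA : 2 * (1 - k) ^ 2 * V / D ≤ 2 / 5)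
    (hB : 2 * k * V / E ≤ 2 / 5) : 1 ≤ Real.exp (-(1 - k) * k * V) * bF k D E V := by
  have hD0 : (0 : ℝ) < D := by exact_mod_cast hD
  have hE0 : (0 : ℝ) < E := by exact_mod_cast hE
  set α : ℝ := (1 - k) / D with hα
  set β : ℝ := k / E with hβ
  have hα0 : 0 < α := div_pos (by linarith) hD0
  have hβ0 : 0 < β := div_pos hk0 hE0
  have eA : 1 - k = D * α := by rw [hα]; field_simp
  have eB : k = E * β := by rw [hβ]; field_simp
  have T := h1 (ln (-α) ^ D) (ln β ^ E) (-(1 - k)) k V hV.le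
  rw [← pA_eq, show -(-(1 - k) * V) = -(k * V) + V by ring, ← sh_sh, ← pB_eq] at T
  have NA := h3 α V D hα0 hD hV.le (by
    have : (D : ℝ) * α ^ 2 * V = (2 * (1 - k) ^ 2 * V / D) / 2 := by
      rw [hα]; field_simp
    rw [this]; linarith)
  have NB := h3 β V E hβ0 hE hV.le (by
    have h : (E : ℝ) * β ^ 2 * V = k * (2 * k * V / E) / 2 := by
      rw [hβ]; field_simp
    have h0 : 0 ≤ 2 * k * V / E := by positivity
    rw [h]; nlinarith)
  have hdA : ∀ j, cfe (ln (-α) ^ D) (-(1 - k)) j = (-1) ^ j * K8.dcf α (D * α) D j := by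
    intro j
    rw [cfe_ln, eA, dcf_neg]
  have hdB : ∀ j, cfe (ln β ^ E) k j = K8.dcf β (E * β) E j := by
    intro j
    rw [cfe_ln, ← eB]
  obtain ⟨p0, p1, p2⟩ := dcf_two α D
  obtain ⟨q0, q1, q2⟩ := dcf_two β E
  refine prod_low (a := fun j => (-1) ^ j * K8.dcf α (D * α) D j)
    (b := fun j => K8.dcf β (E * β) E j) (w := fun j => (j.factorial : ℝ) * V ^ j)
    (x := D * α ^ 2 * V) (y := E * β ^ 2 * V)
    (NA := ∑' j : ℕ, K8.dcf α (D * α) D j ^ 2 * (j.factorial : ℝ) * V ^ j)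
    (NB := ∑' j : ℕ, K8.dcf β (E * β) E j ^ 2 * (j.factorial : ℝ) * V ^ j)
    (fun j => by positivity) ?_ ?_ ?_ (by positivity) (by positivity) ?_ ?_ ?_ ?_ ?_ ?_ ?_ ?_
    NA.2 NB.2
  · refine T.congr_fun fun j => ?_
    rw [hdA, hdB]
    ring
  · refine NA.1.hasSum.congr_fun fun j => ?_
    rw [mul_pow, ← pow_mul, mul_comm j 2, pow_mul]
    simp [mul_assoc]
  · refine NB.1.hasSum.congr_fun fun j => ?_
    ring
  · simp [p0]
  · simp [q0]
  · simp [p0, q0]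
  · simp [p1]
  · simp [q1]
  · simp only [p2]
    simp [Nat.factorial]
    ring
  · simp only [q2]
    simp [Nat.factorial]
    ring
  · simp only [p2, q2]
    simp [Nat.factorial]
    ring

/-! ### the second moment -/

lemma second (h1 : StTilt) (h3 : StNA) {k V : ℝ} {D : ℕ} (hk0 : 0 < k) (hk1 : k < 1)
    (hD : 1 ≤ D) (hV : 0 < V) (hA : 2 * (1 - k) ^ 2 * V / D ≤ 2 / 5) :
    1 ≤ Real.exp ((1 - k) ^ 2 * V) * bS k D V ∧
      Real.exp ((1 - k) ^ 2 * V) * bS k D V ≤ 1 + ((1 - k) ^ 2 * V / D) ^ 2 := by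
  have hD0 : (0 : ℝ) < D := by exact_mod_cast hD
  set α : ℝ := (1 - k) / D with hα
  have hα0 : 0 < α := div_pos (by linarith) hD0
  have eA : 1 - k = D * α := by rw [hα]; field_simp
  have T := h1 (ln (-α) ^ D) (ln (-α) ^ D) (-(1 - k)) (-(1 - k)) V hV.le
  rw [show -(-(1 - k) * V) = -(k * V) + V by ring, ← sh_sh, ← pA_eq,
    show -(1 - k) * -(1 - k) * V = (1 - k) ^ 2 * V by ring] at T
  have hx : (D : ℝ) * α ^ 2 * V = (1 - k) ^ 2 * V / D := by
    rw [hα]; field_simp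
  have NA := h3 α V D hα0 hD hV.le (by
    have : (1 - k) ^ 2 * V / D = (2 * (1 - k) ^ 2 * V / D) / 2 := by
      field_simp
    rw [hx, this]; linarith)
  have hdA : ∀ j, cfe (ln (-α) ^ D) (-(1 - k)) j = (-1) ^ j * K8.dcf α (D * α) D j := by
    intro j
    rw [cfe_ln, eA, dcf_neg]
  have hT : HasSum (fun j : ℕ => K8.dcf α (D * α) D j ^ 2 * (j.factorial : ℝ) * V ^ j)
      (Real.exp ((1 - k) ^ 2 * V) * bS k D V) := by
    refine T.congr_fun fun j => ?_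
    rw [hdA]
    have : ((-1 : ℝ) ^ j) * (-1) ^ j = 1 := by
      rw [← mul_pow]; simp
    linear_combination (-(K8.dcf α (D * α) D j ^ 2 * (j.factorial : ℝ) * V ^ j)) * this
  refine ⟨?_, ?_⟩
  · have h := sum_le_hasSum {0} (fun j _ => by positivity) hT
    simpa [K8.dcf] using h
  · rw [← hT.tsum_eq, ← hx]
    exact NA.2

/-! ### the side without zeta -/

/-- the weighted sum of squares -/
noncomputable def RR (p : Polynomial ℝ) (k V : ℝ) : ℝ :=
  ∑' j : ℕ, cfe p k j ^ 2 * (j.factorial : ℝ) * V ^ j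

lemma sum_RR (h1 : StTilt) (p : Polynomial ℝ) {k V : ℝ} (hV : 0 ≤ V) :
    Summable (fun j : ℕ => cfe p k j ^ 2 * (j.factorial : ℝ) * V ^ j) := by
  have T := h1 p p k k V hV
  refine T.summable.congr fun j => ?_
  ring

lemma RR_ge (h1 : StTilt) (p : Polynomial ℝ) {k V : ℝ} (hV : 0 ≤ V) (hp : p.coeff 0 = 1) :
    1 ≤ RR p k V := by
  have h := (sum_RR h1 p (k := k) hV).sum_le_tsum {0} (fun j _ => by positivity)
  unfold RR
  simpa [cfe_zero, hp] using h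

lemma FK_RR (h1 : StTilt) (c : ℝ) (p : Polynomial ℝ) {k V : ℝ} (hV : 0 ≤ V) :
    Real.exp (k ^ 2 * V) * FK (Polynomial.C c * sh p (-(k * V))) (Polynomial.C c * sh p (-(k * V)))
      V = c ^ 2 * RR p k V := by
  have T := h1 (Polynomial.C c * p) (Polynomial.C c * p) k k V hV
  rw [sh_mul, sh_C, show k * k * V = k ^ 2 * V by ring] at T
  rw [← T.tsum_eq, RR, ← tsum_mul_left]
  refine tsum_congr fun j => ?_
  rw [cfe_C_mul]
  ring

lemma coeff_ln (a b : ℝ) (n m : ℕ) : (ln a ^ n * ln b ^ m).coeff 0 = 1 := by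
  rw [Polynomial.coeff_zero_eq_eval_zero]
  simp [ln]

lemma RR_sq (h2 : StFockCS) {k V α β : ℝ} {D m : ℕ} (eA : 1 - k = D * α) (hV : 0 ≤ V) :
    RR (ln (-α) ^ D * ln β ^ m) k V ^ 2 ≤
      (∑' j : ℕ, K8.dcf α ((2 * D : ℕ) * α) (2 * D) j ^ 2 * (j.factorial : ℝ) * V ^ j) *
        ∑' j : ℕ, K8.dcf β 2 (2 * m) j ^ 2 * (j.factorial : ℝ) * V ^ j := by
  have h := h2 (ln (-α) ^ D) (ln β ^ m) (-(1 - k)) 1 V hV
  rw [show -(1 - k) + 1 = k by ring, ← pow_add, ← pow_add, ← two_mul, ← two_mul] at h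
  simp only [cfe_ln] at h
  have e1 : ∀ j, K8.dcf (-α) (2 * -(1 - k)) (2 * D) j ^ 2 =
      K8.dcf α ((2 * D : ℕ) * α) (2 * D) j ^ 2 := by
    intro j
    have e2 : -(((2 * D : ℕ) : ℝ) * α) = 2 * -(1 - k) := by
      rw [eA]
      push_cast
      ring
    rw [← e2, dcf_neg_sq]
  simp only [e1, mul_one] at h
  exact h

lemma third (h1 : StTilt) (h2 : StFockCS) (h3 : StNA) (h4 : StNB) {k V : ℝ} {D E : ℕ}
    (hk0 : 0 < k) (hk1 : k < 1) (hD : 1 ≤ D) (hE : 1 ≤ E) (hV : 0 < V)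
    (hA : 2 * (1 - k) ^ 2 * V / D ≤ 2 / 5) (hB : 2 * k * V / E ≤ 2 / 5) (hb : k / E ≤ 1 / 4) :
    1 ≤ Real.exp (k ^ 2 * V) * bW k D E V ∧
      (Real.exp (k ^ 2 * V) * bW k D E V) ^ 2 ≤ (1 + (2 * (1 - k) ^ 2 * V / D) ^ 2) *
        (1 + ((2 * k * V / E) ^ 2 + 3 / 2 * (k ^ 2 * V / E ^ 2))) := by
  have hD0 : (0 : ℝ) < D := by exact_mod_cast hD
  have hE0 : (0 : ℝ) < E := by exact_mod_cast hE
  have ht0 : 0 ≤ tk k E := by
    unfold tk mk
    have := Nat.floor_le (show 0 ≤ (E : ℝ) / k by positivity)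
    linarith
  have ht1 : tk k E ≤ 1 := by
    unfold tk mk
    have := Nat.lt_floor_add_one ((E : ℝ) / k)
    linarith
  have hmt : ((mk k E : ℝ) + tk k E) * (k / E) = 1 := by
    unfold tk
    field_simp
    ring
  set t := tk k E with htd
  set m := mk k E with hmd
  set α : ℝ := (1 - k) / D with hα
  set β : ℝ := k / E with hβ
  have hα0 : 0 < α := div_pos (by linarith) hD0
  have hβ0 : 0 < β := div_pos hk0 hE0
  have eA : 1 - k = D * α := by rw [hα]; field_simp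
  set R₀ := RR (ln (-α) ^ D * ln β ^ m) k V with hR0
  set R₁ := RR (ln (-α) ^ D * ln β ^ (m + 1)) k V with hR1
  have key : Real.exp (k ^ 2 * V) * bW k D E V = (1 - t) * R₀ + t * R₁ := by
    unfold bW
    rw [mul_add]
    have w0e : w0 k D E V = Polynomial.C (√(1 - t)) * sh (ln (-α) ^ D * ln β ^ m) (-(k * V)) := by
      rw [w0, pA_eq, pB_eq, sh_mul]
    have w1e : w1 k D E V =
        Polynomial.C (√t) * sh (ln (-α) ^ D * ln β ^ (m + 1)) (-(k * V)) := by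
      rw [w1, pA_eq, pB_eq, sh_mul]
    rw [w0e, w1e, FK_RR h1 _ _ hV.le, FK_RR h1 _ _ hV.le, Real.sq_sqrt (by linarith),
      Real.sq_sqrt ht0]
  have g0 : 1 ≤ R₀ := RR_ge h1 _ hV.le (coeff_ln _ _ _ _)
  have g1 : 1 ≤ R₁ := RR_ge h1 _ hV.le (coeff_ln _ _ _ _)
  rw [key]
  refine ⟨by nlinarith, ?_⟩
  have c0 := RR_sq h2 (k := k) (V := V) (α := α) (β := β) (D := D) (m := m) eA hV.le
  have c1 := RR_sq h2 (k := k) (V := V) (α := α) (β := β) (D := D) (m := m + 1) eA hV.le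
  rw [← hR0] at c0
  rw [← hR1, show 2 * (m + 1) = 2 * m + 2 by ring] at c1
  obtain ⟨_, mA⟩ := h3 α V (2 * D) hα0 (by omega) hV.le (by
    have : ((2 * D : ℕ) : ℝ) * α ^ 2 * V = 2 * (1 - k) ^ 2 * V / D := by
      rw [hα]; push_cast; field_simp
    rw [this]; exact hA)
  obtain ⟨_, _, mB⟩ := h4 β t V m hβ0 hb ht0 ht1 hmt hV.le (by
    have : 2 * β * V = 2 * k * V / E := by rw [hβ]; field_simp
    rw [this]; exact hB)
  set MA := ∑' j : ℕ, K8.dcf α ((2 * D : ℕ) * α) (2 * D) j ^ 2 * (j.factorial : ℝ) * V ^ j with hMA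
  set S₀ := ∑' j : ℕ, K8.dcf β 2 (2 * m) j ^ 2 * (j.factorial : ℝ) * V ^ j with hS0
  set S₁ := ∑' j : ℕ, K8.dcf β 2 (2 * m + 2) j ^ 2 * (j.factorial : ℝ) * V ^ j with hS1
  have hMA0 : 0 ≤ MA := tsum_nonneg fun j => by positivity
  have i1 : ((1 - t) * R₀ + t * R₁) ^ 2 ≤ (1 - t) * R₀ ^ 2 + t * R₁ ^ 2 := by
    have : (1 - t) * R₀ ^ 2 + t * R₁ ^ 2 - ((1 - t) * R₀ + t * R₁) ^ 2 =
        t * (1 - t) * (R₀ - R₁) ^ 2 := by ring
    have h' : 0 ≤ t * (1 - t) * (R₀ - R₁) ^ 2 :=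
      mul_nonneg (mul_nonneg ht0 (by linarith)) (sq_nonneg _)
    linarith
  have i2 : (1 - t) * R₀ ^ 2 + t * R₁ ^ 2 ≤ MA * ((1 - t) * S₀ + t * S₁) := by
    have j0 := mul_le_mul_of_nonneg_left c0 (show 0 ≤ 1 - t by linarith)
    have j1 := mul_le_mul_of_nonneg_left c1 ht0
    nlinarith
  have i3 : MA * ((1 - t) * S₀ + t * S₁) ≤
      MA * (1 + (2 * β * V) ^ 2 + 3 / 2 * (β ^ 2 * V)) := mul_le_mul_of_nonneg_left mB hMA0
  have i4 : MA * (1 + (2 * β * V) ^ 2 + 3 / 2 * (β ^ 2 * V)) ≤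
      (1 + ((2 * D : ℕ) * α ^ 2 * V) ^ 2) * (1 + (2 * β * V) ^ 2 + 3 / 2 * (β ^ 2 * V)) :=
    mul_le_mul_of_nonneg_right mA (by positivity)
  have e5 : (1 + (((2 * D : ℕ) : ℝ) * α ^ 2 * V) ^ 2) *
      (1 + (2 * β * V) ^ 2 + 3 / 2 * (β ^ 2 * V)) = (1 + (2 * (1 - k) ^ 2 * V / D) ^ 2) *
        (1 + ((2 * k * V / E) ^ 2 + 3 / 2 * (k ^ 2 * V / E ^ 2))) := by
    rw [hα, hβ]
    push_cast
    field_simp
    ring
  rw [← e5]
  linarith

end Ls9

open Ls9 in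
/-- (N6) the loss of a block -/
theorem stLoss9 (h1 : StTilt) (h2 : StFockCS) (h3 : StNA) (h4 : StNB) : StLoss9 := by
  intro k V D E hk0 hk1 hD hE hV hA hB hb
  have hD0 : (0 : ℝ) < D := by exact_mod_cast hD
  have hE0 : (0 : ℝ) < E := by exact_mod_cast hE
  have f1 := first h1 h3 hk0 hk1 hD hE hV hA hB
  obtain ⟨s1, s2⟩ := second h1 h3 hk0 hk1 hD hV hA
  obtain ⟨t1, t2⟩ := third h1 h2 h3 h4 hk0 hk1 hD hE hV hA hB hb
  have pF : 0 < bF k D E V := by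
    by_contra h
    push Not at h
    have := mul_nonpos_of_nonneg_of_nonpos (Real.exp_pos (-(1 - k) * k * V)).le h
    linarith
  have pS : 0 < bS k D V := by
    by_contra h
    push Not at h
    have := mul_nonpos_of_nonneg_of_nonpos (Real.exp_pos ((1 - k) ^ 2 * V)).le h
    linarith
  have pW : 0 < bW k D E V := by
    by_contra h
    push Not at h
    have := mul_nonpos_of_nonneg_of_nonpos (Real.exp_pos (k ^ 2 * V)).le h
    linarith
  refine ⟨pF, pS, pW, ?_⟩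
  have l1 : 0 ≤ -(1 - k) * k * V + Real.log (bF k D E V) := by
    have := Real.log_nonneg f1
    rwa [Real.log_mul (Real.exp_pos _).ne' pF.ne', Real.log_exp] at this
  have l2 : (1 - k) ^ 2 * V + Real.log (bS k D V) ≤ ((1 - k) ^ 2 * V / D) ^ 2 := by
    have h5 := Real.log_le_log (by linarith) s2
    rw [Real.log_mul (Real.exp_pos _).ne' pS.ne', Real.log_exp] at h5
    have h6 := Real.log_le_sub_one_of_pos (show 0 < 1 + ((1 - k) ^ 2 * V / D) ^ 2 by positivity)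
    linarith
  have l3 : 2 * (k ^ 2 * V + Real.log (bW k D E V)) ≤ (2 * (1 - k) ^ 2 * V / D) ^ 2 +
      ((2 * k * V / E) ^ 2 + 3 / 2 * (k ^ 2 * V / E ^ 2)) := by
    have h5 := Real.log_le_log (by positivity) t2
    rw [Real.log_pow, Real.log_mul (Real.exp_pos _).ne' pW.ne', Real.log_exp,
      Real.log_mul (by positivity) (by positivity)] at h5
    have h6 := Real.log_le_sub_one_of_pos
      (show 0 < 1 + (2 * (1 - k) ^ 2 * V / D) ^ 2 by positivity)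
    have h7 := Real.log_le_sub_one_of_pos
      (show 0 < 1 + ((2 * k * V / E) ^ 2 + 3 / 2 * (k ^ 2 * V / E ^ 2)) by positivity)
    push_cast at h5
    linarith
  have m2 := mul_le_mul_of_nonneg_left l2 (show 0 ≤ 1 - k by linarith)
  have m3 := mul_le_mul_of_nonneg_left l3 hk0.le
  have e : (1 - k) ^ 4 * (1 + k) * V ^ 2 / D ^ 2 + 2 * k ^ 3 * V ^ 2 / E ^ 2 +
        3 / 4 * k ^ 3 * V / E ^ 2 = (1 - k) * ((1 - k) ^ 2 * V / D) ^ 2 +
        k * ((2 * (1 - k) ^ 2 * V / D) ^ 2 +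
      ((2 * k * V / E) ^ 2 + 3 / 2 * (k ^ 2 * V / E ^ 2))) / 2 := by
    field_simp
    ring
  rw [e]
  linarith

end K9
end Pool.Agent.Lib.MP_973905_nt
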