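import Pool.Agent.Lib.MP_973905_nt.K9.Stmts
import Pool.Agent.Lib.MP_973905_nt.K5.Fact

/-! The blocks `SB9 C T M` (compare `K8.Base`) and simple facts on our functions. -/

namespace Pool.Agent.Lib.MP_973905_nt
namespace K9

open MeasureTheory ProbabilityTheory Complex Filter Topology K1 K4 K5

namespace Blk9

variable {k T : ℝ} {M : ℕ} {C : Cfg}

/-! ### the boundaries of the blocks -/

lemma te_anti (hC : Adm k M C) {i j : ℕ} (h : i ≤ j) (hj : j ≤ C.N) : C.te j ≤ C.te i := by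
  induction j, h using Nat.le_induction with
  | base => exact le_rfl
  | succ n hn ih => exact (hC.hdec n (by omega)).le.trans (ih (by omega))

lemma te_zero_le (hC : Adm k M C) : C.te 0 ≤ 1 := hC.htop.trans (by norm_num)

lemma te_zero_pos (hC : Adm k M C) : 0 < C.te 0 := hC.hpos 0 (Nat.zero_le _)

/-! ### the variances -/

lemma cont_VI {ψ lo hi : ℝ} (h1 : 0 < lo) (h2 : 0 < hi) :
    ContinuousOn (fun x : ℝ => Real.exp (-(2 * ψ * x)) / x) (Set.uIcc lo hi) := by
  refine ContinuousOn.div (by fun_prop) continuousOn_id fun x hx => ?_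
  have := (Set.mem_uIcc.mp hx)
  rcases this with h | h
  · exact (lt_of_lt_of_le h1 h.1).ne'
  · exact (lt_of_lt_of_le h2 h.1).ne'

lemma int_VI {ψ lo hi : ℝ} (h1 : 0 < lo) (h2 : 0 < hi) :
    IntervalIntegrable (fun x : ℝ => Real.exp (-(2 * ψ * x)) / x) volume lo hi :=
  (cont_VI h1 h2).intervalIntegrable

lemma VI_add {ψ x y z : ℝ} (h1 : 0 < x) (h2 : 0 < y) (h3 : 0 < z) :
    VI ψ x y + VI ψ y z = VI ψ x z :=
  intervalIntegral.integral_add_adjacent_intervals (int_VI h1 h2) (int_VI h2 h3)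

lemma VI_pos {ψ lo hi : ℝ} (h1 : 0 < lo) (h2 : lo < hi) : 0 < VI ψ lo hi := by
  refine intervalIntegral.intervalIntegral_pos_of_pos_on (int_VI h1 (h1.trans h2)) (fun x hx => ?_) h2
  have : 0 < x := h1.trans hx.1
  positivity

lemma VI_le {ψ lo hi : ℝ} (hψ : 0 ≤ ψ) (h1 : 0 < lo) (h2 : lo ≤ hi) :
    VI ψ lo hi ≤ Real.exp (-(2 * ψ * lo)) * Real.log (hi / lo) := by
  have h3 : 0 < hi := h1.trans_le h2
  have h4 : ∫ x in lo..hi, Real.exp (-(2 * ψ * lo)) * x⁻¹ =
      Real.exp (-(2 * ψ * lo)) * Real.log (hi / lo) := by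
    rw [intervalIntegral.integral_const_mul, integral_inv_of_pos h1 h3]
  rw [← h4]
  refine intervalIntegral.integral_mono_on h2 (int_VI h1 h3) ?_ fun x hx => ?_
  · refine (ContinuousOn.mul continuousOn_const ?_).intervalIntegrable
    refine continuousOn_id.inv₀ fun x hx => ?_
    rw [Set.uIcc_of_le h2] at hx
    exact (lt_of_lt_of_le h1 hx.1).ne'
  · have hx0 : 0 < x := lt_of_lt_of_le h1 hx.1
    rw [div_eq_mul_inv]
    refine mul_le_mul_of_nonneg_right (Real.exp_le_exp.mpr ?_) (by positivity)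
    have := mul_le_mul_of_nonneg_left hx.1 hψ
    linarith

lemma V_pos (hC : Adm k M C) {i : ℕ} (hi : i < C.N) : 0 < C.V i :=
  VI_pos (hC.hpos (i + 1) (by omega)) (hC.hdec i hi)

/-- the sum of all variances -/
lemma sum_V (hC : Adm k M C) :
    ∑ i ∈ Finset.range C.N, C.V i = VI C.psi (Real.exp (-(M : ℝ))) (C.te 0) := by
  have h : ∀ n, n ≤ C.N → ∑ i ∈ Finset.range n, C.V i = VI C.psi (C.te n) (C.te 0) := by
    intro n
    induction n with
    | zero => intro _; simp [VI]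
    | succ n ih =>
      intro hn
      rw [Finset.sum_range_succ, ih (by omega), Cfg.V, add_comm]
      exact VI_add (hC.hpos (n + 1) hn) (hC.hpos n (by omega)) (hC.hpos 0 (by omega))
  rw [h C.N le_rfl, hC.hlast]

/-! ### the boundaries of the blocks, continued -/

lemma bd_mono (hC : Adm k M C) (hT : 1 < T) {i j : ℕ} (h : i ≤ j) (hj : j ≤ C.N) :
    Real.exp (C.te j * Real.log T) ≤ Real.exp (C.te i * Real.log T) := by
  apply Real.exp_le_exp.mpr
  exact mul_le_mul_of_nonneg_right (te_anti hC h hj) (Real.log_pos hT).le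

lemma bd_le (hC : Adm k M C) (hT : 1 < T) : Real.exp (C.te 0 * Real.log T) ≤ T := by
  calc Real.exp (C.te 0 * Real.log T) ≤ Real.exp (1 * Real.log T) := by
        apply Real.exp_le_exp.mpr
        exact mul_le_mul_of_nonneg_right (te_zero_le hC) (Real.log_pos hT).le
    _ = T := by rw [one_mul, Real.exp_log (by linarith)]

lemma mem_U {i p : ℕ} : p ∈ C.U T i ↔ p.Prime ∧ Real.exp (C.te (i + 1) * Real.log T) < p ∧
    (p : ℝ) ≤ Real.exp (C.te i * Real.log T) :=
  mem_PS (Real.exp_pos _).le (Real.exp_pos _).le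

lemma mem_top (hT : 1 < T) {p : ℕ} : p ∈ PS (Real.exp (C.te 0 * Real.log T)) T ↔
    p.Prime ∧ Real.exp (C.te 0 * Real.log T) < p ∧ (p : ℝ) ≤ T :=
  mem_PS (Real.exp_pos _).le (by linarith)

lemma mem_bot (hT : 1 < T) {j p : ℕ} (hj : j ≤ JJ T) (hp : p ∈ Sj T M (JJ T) j) :
    p.Prime ∧ (p : ℝ) ≤ Real.exp (Real.exp (-(M : ℝ)) * Real.log T) := by
  have h1 : p ∈ (Finset.range (JJ T + 1)).biUnion (fun j => Sj T M (JJ T) j) :=
    Finset.mem_biUnion.mpr ⟨j, Finset.mem_range.mpr (by omega), hp⟩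
  rw [RAx.biUnion_eq hT, mem_PS le_rfl (Real.exp_pos _).le] at h1
  exact ⟨h1.1, h1.2.2⟩

lemma BB9_bot {j : ℕ} (hj : j ≤ JJ T) : BB9 C T M j = Sj T M (JJ T) j := if_pos hj

lemma BB9_mid {j : ℕ} (h1 : ¬ j ≤ JJ T) (h2 : j ≤ JJ T + C.N) :
    BB9 C T M j = C.U T (j - (JJ T + 1)) := by
  rw [BB9, if_neg h1, if_pos h2]

lemma BB9_top {j : ℕ} (h1 : ¬ j ≤ JJ T) (h2 : ¬ j ≤ JJ T + C.N) :
    BB9 C T M j = PS (Real.exp (C.te 0 * Real.log T)) T := by
  rw [BB9, if_neg h1, if_neg h2]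

lemma BB9_prime (hT : 1 < T) {j p : ℕ} (hp : p ∈ BB9 C T M j) : p.Prime := by
  by_cases h1 : j ≤ JJ T
  · rw [BB9_bot h1] at hp
    exact (mem_bot hT h1 hp).1
  · by_cases h2 : j ≤ JJ T + C.N
    · rw [BB9_mid h1 h2] at hp
      exact (mem_U.mp hp).1
    · rw [BB9_top h1 h2] at hp
      exact ((mem_top hT).mp hp).1

lemma BB9_disj (hC : Adm k M C) (hT : 1 < T) {i j : ℕ} (hi : i ≤ JJ T + 1 + C.N)
    (hj : j ≤ JJ T + 1 + C.N) (h : i ≠ j) : Disjoint (BB9 C T M i) (BB9 C T M j) := by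
  wlog hlt : i < j generalizing i j
  · exact (this hj hi h.symm (by omega)).symm
  rw [Finset.disjoint_left]
  intro p hp hp'
  by_cases i1 : i ≤ JJ T
  · rw [BB9_bot i1] at hp
    by_cases j1 : j ≤ JJ T
    · rw [BB9_bot j1] at hp'
      exact Finset.disjoint_left.mp (disj_Sj hT h) hp hp'
    · have h1 := (mem_bot hT i1 hp).2
      by_cases j2 : j ≤ JJ T + C.N
      · rw [BB9_mid j1 j2] at hp'
        have h2 := (mem_U.mp hp').2.1
        have h3 := bd_mono hC hT (show j - (JJ T + 1) + 1 ≤ C.N by omega) le_rfl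
        rw [hC.hlast] at h3
        linarith
      · rw [BB9_top j1 j2] at hp'
        have h2 := ((mem_top hT).mp hp').2.1
        have h3 := bd_mono hC hT (show 0 ≤ C.N by omega) le_rfl
        rw [hC.hlast] at h3
        linarith
  · have j1 : ¬ j ≤ JJ T := by omega
    have i2 : i ≤ JJ T + C.N := by omega
    rw [BB9_mid i1 i2] at hp
    have h1 := (mem_U.mp hp).2
    by_cases j2 : j ≤ JJ T + C.N
    · rw [BB9_mid j1 j2] at hp'
      have h2 := (mem_U.mp hp').2.2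
      have h3 := bd_mono hC hT (show i - (JJ T + 1) + 1 ≤ j - (JJ T + 1) by omega) (by omega)
      linarith [h1.1]
    · rw [BB9_top j1 j2] at hp'
      have h2 := ((mem_top hT).mp hp').2.1
      have h3 := bd_mono hC hT (show 0 ≤ i - (JJ T + 1) by omega) (by omega)
      linarith [h1.2]

lemma blk_SB9 (hC : Adm k M C) (hT : 1 < T) : Blk (SB9 C T M) :=
  ⟨fun _ _ hp => BB9_prime hT hp, fun i j hij => BB9_disj hC hT (by omega) (by omega)
    (fun h => hij (Fin.ext h))⟩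

lemma exists_U {p : ℕ} (hp : p.Prime) (h0 : (p : ℝ) ≤ Real.exp (C.te 0 * Real.log T)) (n : ℕ)
    (h : Real.exp (C.te n * Real.log T) < p) : ∃ i, i < n ∧ p ∈ C.U T i := by
  induction n with
  | zero => linarith
  | succ n ih =>
    by_cases h1 : Real.exp (C.te n * Real.log T) < p
    · obtain ⟨i, hi, hpi⟩ := ih h1
      exact ⟨i, by omega, hpi⟩
    · exact ⟨n, by omega, mem_U.mpr ⟨hp, h, not_lt.mp h1⟩⟩

lemma exists_BB9 (hC : Adm k M C) (hT : 1 < T) {p : ℕ} (hp : p.Prime) (hpT : (p : ℝ) ≤ T) :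
    ∃ j, j < JJ T + 1 + C.N + 1 ∧ p ∈ BB9 C T M j := by
  by_cases h1 : (p : ℝ) ≤ Real.exp (C.te 0 * Real.log T)
  · by_cases h2 : Real.exp (C.te C.N * Real.log T) < p
    · obtain ⟨i, hi, hpi⟩ := exists_U hp h1 _ h2
      refine ⟨JJ T + 1 + i, by omega, ?_⟩
      rw [BB9_mid (by omega) (by omega), show JJ T + 1 + i - (JJ T + 1) = i by omega]
      exact hpi
    · rw [hC.hlast] at h2
      have h3 : p ∈ PS 0 (Real.exp (Real.exp (-(M : ℝ)) * Real.log T)) :=
        (mem_PS le_rfl (Real.exp_pos _).le).mpr ⟨hp, by exact_mod_cast hp.pos, not_lt.mp h2⟩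
      rw [← RAx.biUnion_eq hT, Finset.mem_biUnion] at h3
      obtain ⟨j, hj, hpj⟩ := h3
      have hj' := Finset.mem_range.mp hj
      exact ⟨j, by omega, by rw [BB9_bot (by omega)]; exact hpj⟩
  · refine ⟨JJ T + 1 + C.N, by omega, ?_⟩
    rw [BB9_top (by omega) (by omega)]
    exact (mem_top hT).mpr ⟨hp, not_le.mp h1, hpT⟩

lemma mem_factored_SB9 (hC : Adm k M C) (hT : 1 < T) {n : ℕ} (h1 : 1 ≤ n) (h2 : (n : ℝ) ≤ T) :
    n ∈ Nat.factoredNumbers (UU (SB9 C T M)) := by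
  rw [Nat.mem_factoredNumbers_iff_primeFactors_subset]
  refine ⟨by omega, fun p hp => ?_⟩
  have hp' := Nat.prime_of_mem_primeFactors hp
  have h3 : p ≤ n := Nat.le_of_mem_primeFactors hp
  have h4 : (p : ℝ) ≤ n := by exact_mod_cast h3
  obtain ⟨j, hj, hpj⟩ := exists_BB9 hC hT hp' (h4.trans h2)
  exact mem_UU.mpr ⟨⟨j, hj⟩, hpj⟩

/-! ### products over the blocks -/

lemma split {β : Type*} [CommMonoid β] (n m : ℕ) (H : ℕ → β) :
    ∏ j : Fin (n + m + 1), H j =
      (∏ j ∈ Finset.range n, H j) * (∏ i ∈ Finset.range m, H (n + i)) * H (n + m) := by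
  rw [← Finset.prod_range, Finset.prod_range_succ, Finset.prod_range_add]

lemma prod_UU_SB9 {β : Type*} [CommMonoid β] (hC : Adm k M C) (hT : 1 < T) (u : ℕ → β) :
    ∏ p ∈ UU (SB9 C T M), u p = (∏ j ∈ Finset.range (JJ T + 1), ∏ p ∈ Sj T M (JJ T) j, u p) *
      (∏ i ∈ Finset.range C.N, ∏ p ∈ C.U T i, u p) *
        ∏ p ∈ PS (Real.exp (C.te 0 * Real.log T)) T, u p := by
  unfold UU
  rw [Finset.prod_biUnion (fun i _ j _ hij => (blk_SB9 hC hT).2 i j hij)]
  have h1 := split (JJ T + 1) C.N (fun j => ∏ p ∈ BB9 C T M j, u p)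
  refine h1.trans ?_
  have e1 : ∏ j ∈ Finset.range (JJ T + 1), ∏ p ∈ BB9 C T M j, u p =
      ∏ j ∈ Finset.range (JJ T + 1), ∏ p ∈ Sj T M (JJ T) j, u p := by
    refine Finset.prod_congr rfl fun j hj => ?_
    have hj' := Finset.mem_range.mp hj
    rw [BB9_bot (by omega)]
  have e2 : ∏ i ∈ Finset.range C.N, ∏ p ∈ BB9 C T M (JJ T + 1 + i), u p =
      ∏ i ∈ Finset.range C.N, ∏ p ∈ C.U T i, u p := by
    refine Finset.prod_congr rfl fun i hi => ?_
    have hi' := Finset.mem_range.mp hi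
    rw [BB9_mid (by omega) (by omega), show JJ T + 1 + i - (JJ T + 1) = i by omega]
  rw [e1, e2, BB9_top (by omega) (by omega)]

/-- factorisation of an expectation over the blocks -/
lemma fact_gen {𝕜 : Type*} [RCLike 𝕜] (hC : Adm k M C) (hT : 1 < T) (A B : ℕ → (ℕ → ℂ) → 𝕜)
    (E : (ℕ → ℂ) → 𝕜)
    (hA : ∀ j f g, (∀ p ∈ Sj T M (JJ T) j, f p = g p) → A j f = A j g)
    (hB : ∀ i f g, (∀ p ∈ C.U T i, f p = g p) → B i f = B i g)
    (hE : ∀ f g, (∀ p ∈ PS (Real.exp (C.te 0 * Real.log T)) T, f p = g p) → E f = E g) :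
    ER (SB9 C T M) (fun f => (∏ j ∈ Finset.range (JJ T + 1), A j f) *
      (∏ i ∈ Finset.range C.N, B i f) * E f) =
    (∏ j ∈ Finset.range (JJ T + 1), ES (Sj T M (JJ T) j) (A j)) *
      (∏ i ∈ Finset.range C.N, ES (C.U T i) (B i)) *
        ES (PS (Real.exp (C.te 0 * Real.log T)) T) E := by
  set H : ℕ → (ℕ → ℂ) → 𝕜 := fun j f => if j ≤ JJ T then A j f else
    if j ≤ JJ T + C.N then B (j - (JJ T + 1)) f else E f with hH
  have e0 : ∀ f, (∏ j ∈ Finset.range (JJ T + 1), A j f) * (∏ i ∈ Finset.range C.N, B i f) * E f =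
      ∏ j : Fin (JJ T + 1 + C.N + 1), H j f := by
    intro f
    rw [split (JJ T + 1) C.N (fun j => H j f)]
    congr 1
    · congr 1
      · refine Finset.prod_congr rfl fun j hj => ?_
        have hj' := Finset.mem_range.mp hj
        simp only [hH]
        rw [if_pos (by omega)]
      · refine Finset.prod_congr rfl fun i hi => ?_
        have hi' := Finset.mem_range.mp hi
        simp only [hH]
        rw [if_neg (by omega), if_pos (by omega), show JJ T + 1 + i - (JJ T + 1) = i by omega]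
    · simp only [hH]
      rw [if_neg (by omega), if_neg (by omega)]
  simp only [e0]
  rw [ER_prod (blk_SB9 hC hT) (fun j : Fin (JJ T + 1 + C.N + 1) => H j) (by
    intro j f g hfg
    change ∀ p ∈ BB9 C T M j, f p = g p at hfg
    simp only [hH]
    split_ifs with h1 h2
    · rw [BB9_bot h1] at hfg
      exact hA _ _ _ hfg
    · rw [BB9_mid h1 h2] at hfg
      exact hB _ _ _ hfg
    · rw [BB9_top h1 h2] at hfg
      exact hE _ _ hfg)]
  refine (split (JJ T + 1) C.N (fun j => ES (BB9 C T M j) (H j))).trans ?_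
  congr 1
  · congr 1
    · refine Finset.prod_congr rfl fun j hj => ?_
      have hj' := Finset.mem_range.mp hj
      have e1 : H j = A j := by
        funext f; simp only [hH]; rw [if_pos (by omega)]
      rw [e1, BB9_bot (by omega)]
    · refine Finset.prod_congr rfl fun i hi => ?_
      have hi' := Finset.mem_range.mp hi
      have e1 : H (JJ T + 1 + i) = B i := by
        funext f; simp only [hH]
        rw [if_neg (by omega), if_pos (by omega), show JJ T + 1 + i - (JJ T + 1) = i by omega]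
      rw [e1, BB9_mid (by omega) (by omega), show JJ T + 1 + i - (JJ T + 1) = i by omega]
  · have e1 : H (JJ T + 1 + C.N) = E := by
      funext f; simp only [hH]
      rw [if_neg (by omega), if_neg (by omega)]
    rw [e1, BB9_top (by omega) (by omega)]

/-- all blocks together -/
lemma UU_SB9 (hC : Adm k M C) (hT : 1 < T) : UU (SB9 C T M) = PS 0 T := by
  have hT0 : (0 : ℝ) ≤ T := by linarith
  ext p
  rw [mem_UU, mem_PS le_rfl hT0]
  constructor
  · rintro ⟨j, hj⟩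
    have hp := BB9_prime hT hj
    refine ⟨hp, by exact_mod_cast hp.pos, ?_⟩
    change p ∈ BB9 C T M j at hj
    by_cases h1 : (j : ℕ) ≤ JJ T
    · rw [BB9_bot h1] at hj
      have h2 := (mem_bot hT h1 hj).2
      have h3 := bd_mono hC hT (Nat.zero_le C.N) le_rfl
      rw [hC.hlast] at h3
      exact h2.trans (h3.trans (bd_le hC hT))
    · by_cases h2 : (j : ℕ) ≤ JJ T + C.N
      · rw [BB9_mid h1 h2] at hj
        have h3 := (mem_U.mp hj).2.2
        exact h3.trans ((bd_mono hC hT (Nat.zero_le _) (by omega)).trans (bd_le hC hT))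
      · rw [BB9_top h1 h2] at hj
        exact ((mem_top hT).mp hj).2.2
  · rintro ⟨hp, -, hpT⟩
    obtain ⟨j, hj, hpj⟩ := exists_BB9 hC hT hp hpT
    exact ⟨⟨j, hj⟩, hpj⟩

/-! ### the prime sums -/

lemma P_dep {i : ℕ} {f g : ℕ → ℂ} (h : ∀ p ∈ C.U T i, f p = g p) (w : ℂ) :
    C.P T i (tw w f) = C.P T i (tw w g) := by
  unfold Cfg.P
  refine Finset.sum_congr rfl fun p hp => ?_
  simp only [tw, h p hp]

lemma P_dep' {i : ℕ} {f g : ℕ → ℂ} (h : ∀ p ∈ C.U T i, f p = g p) :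
    C.P T i f = C.P T i g := by
  unfold Cfg.P
  refine Finset.sum_congr rfl fun p hp => ?_
  simp only [tw, h p hp]

/-- the twist of the prime sum -/
lemma P_tw (i : ℕ) (f : ℕ → ℂ) :
    C.P T i (tw (1 / 2) f) = ∑ p ∈ C.U T i, tw (1 / 2 + ((C.a T : ℝ) : ℂ)) f p := by
  unfold Cfg.P
  refine Finset.sum_congr rfl fun p hp => ?_
  have hp0 : (p : ℂ) ≠ 0 := by exact_mod_cast (mem_U.mp hp).1.ne_zero
  simp only [tw]
  rw [← mul_assoc, ← cpow_add _ _ hp0]
  congr 2
  ring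

/-! ### signs -/

lemma pe_pos (hk : 0 < k) : 0 < K8.pe k := by
  unfold K8.pe; positivity

lemma VT_nonneg (i : ℕ) (f : ℕ → ℂ) : 0 ≤ VT C T i f := by
  unfold VT; positivity

lemma VBz_nonneg (j : ℕ) (z : ℂ) : 0 ≤ VBz k T M j z := by
  unfold VBz; positivity

lemma VB_nonneg (j : ℕ) (f : ℕ → ℂ) : 0 ≤ VB k T M j f := VBz_nonneg _ _

lemma VV9_nonneg (f : ℕ → ℂ) : 0 ≤ VV9 k C T M f := by
  unfold VV9
  exact mul_nonneg (Finset.prod_nonneg fun j _ => VB_nonneg j f)
    (Finset.prod_nonneg fun i _ => VT_nonneg i f)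

lemma a_pos (hC : Adm k M C) (hT : 1 < T) : 0 < C.a T := div_pos hC.hpsi (Real.log_pos hT)

end Blk9

end K9
end Pool.Agent.Lib.MP_973905_nt
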