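import Pool.Agent.Lib.MP_973905_nt.K8.MeanV
import Pool.Agent.Lib.MP_973905_nt.K9.Base

/-! Module V5 of K9: the Gaussian means of the weight on the side without zeta
(compare `K8.MeanV`). -/

namespace Pool.Agent.Lib.MP_973905_nt
namespace K9

open MeasureTheory ProbabilityTheory Complex Filter Topology K1 K4 K5

namespace MV9

variable {k T : ℝ} {M : ℕ} {C : Cfg}

/-! ### expansion of the weight -/

/-- the coefficients of the bottom blocks -/
noncomputable def ab (k T : ℝ) (M : ℕ) (h : Finset ℕ) (j : ℕ) : ℝ :=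
  if j ∈ h then Real.exp (2 * K8.pe k * KK M (JJ T) j) else 1 + Real.exp (-(KK M (JJ T) j / 2))

/-- the coefficients -/
noncomputable def ac (k T : ℝ) (M : ℕ) (h : Finset ℕ) : ℝ :=
  ∏ j ∈ Finset.range (JJ T + 1), ab k T M h j

/-- the bottom polynomials -/
noncomputable def Gb (k T : ℝ) (M : ℕ) (h : Finset ℕ) (f : ℕ → ℂ) : ℂ :=
  ∏ j ∈ Finset.range (JJ T + 1),
      (if j ∈ h then (Pj M (Sj T M (JJ T) j) f / (KK M (JJ T) j : ℂ)) ^ K8.nb k T M j
        else Ntr (ll M (JJ T) j) k (Pj M (Sj T M (JJ T) j) f))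

/-- the polynomials of the top factors -/
noncomputable def wt (C : Cfg) (g : Finset ℕ) (i : ℕ) : Polynomial ℝ :=
  if i ∈ g then C.W₁ i else C.W₀ i

/-- the top polynomials -/
noncomputable def Gt (C : Cfg) (T : ℝ) (g : Finset ℕ) (f : ℕ → ℂ) : ℂ :=
  ∏ i ∈ Finset.range C.N, Polynomial.aeval (C.P T i f) (wt C g i)

/-- our polynomials -/
noncomputable def GG (k : ℝ) (C : Cfg) (T : ℝ) (M : ℕ) (h g : Finset ℕ) (f : ℕ → ℂ) : ℂ :=
  Gb k T M h f * Gt C T g f

lemma VB_prod (f : ℕ → ℂ) :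
    ∏ j ∈ Finset.range (JJ T + 1), VB k T M j f =
      ∑ h ∈ (Finset.range (JJ T + 1)).powerset, ac k T M h * ‖Gb k T M h f‖ ^ 2 := by
  have e : ∀ j, VB k T M j f =
      Real.exp (2 * K8.pe k * KK M (JJ T) j) *
        ‖(Pj M (Sj T M (JJ T) j) f / (KK M (JJ T) j : ℂ)) ^ K8.nb k T M j‖ ^ 2 +
      (1 + Real.exp (-(KK M (JJ T) j / 2))) *
        ‖Ntr (ll M (JJ T) j) k (Pj M (Sj T M (JJ T) j) f)‖ ^ 2 := by
    intro j
    unfold VB VBz
    ring
  simp only [e]
  rw [K8.MV8.prod_add_ite]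
  refine Finset.sum_congr rfl fun h _ => ?_
  unfold Gb ac
  rw [norm_prod, ← Finset.prod_pow, ← Finset.prod_mul_distrib]
  refine Finset.prod_congr rfl fun j _ => ?_
  unfold ab
  split_ifs <;> rfl

lemma VT_prod (f : ℕ → ℂ) :
    ∏ i ∈ Finset.range C.N, VT C T i f =
      ∑ g ∈ (Finset.range C.N).powerset, ‖Gt C T g f‖ ^ 2 := by
  have e : ∀ i, VT C T i f = ‖Polynomial.aeval (C.P T i f) (C.W₁ i)‖ ^ 2 +
      ‖Polynomial.aeval (C.P T i f) (C.W₀ i)‖ ^ 2 := by
    intro i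
    unfold VT
    ring
  simp only [e]
  rw [K8.MV8.prod_add_ite]
  refine Finset.sum_congr rfl fun g _ => ?_
  unfold Gt
  rw [norm_prod, ← Finset.prod_pow]
  refine Finset.prod_congr rfl fun i _ => ?_
  unfold wt
  split_ifs <;> rfl

/-- the pairs of sets -/
noncomputable def PR (C : Cfg) (T : ℝ) : Finset (Finset ℕ × Finset ℕ) :=
  (Finset.range (JJ T + 1)).powerset ×ˢ (Finset.range C.N).powerset

lemma VV9_eq (f : ℕ → ℂ) :
    VV9 k C T M f = ∑ x ∈ PR C T, ac k T M x.1 * ‖GG k C T M x.1 x.2 f‖ ^ 2 := by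
  unfold VV9 PR
  rw [VB_prod, VT_prod, Finset.sum_mul_sum, ← Finset.sum_product']
  refine Finset.sum_congr rfl fun x _ => ?_
  unfold GG
  rw [norm_mul, mul_pow]
  ring

lemma ac_nonneg (h : Finset ℕ) : 0 ≤ ac k T M h := by
  unfold ac
  refine Finset.prod_nonneg fun j _ => ?_
  unfold ab
  split_ifs <;> positivity

lemma sum_ac (hk : 0 < k) :
    ∑ x ∈ PR C T, ac k T M x.1 ≤
      (∏ j ∈ Finset.range (JJ T + 1), (2 * Real.exp (2 * K8.pe k * KK M (JJ T) j))) *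
        2 ^ C.N := by
  unfold PR
  rw [Finset.sum_product]
  simp only [Finset.sum_const, Finset.card_powerset, Finset.card_range, nsmul_eq_mul]
  rw [← Finset.mul_sum, mul_comm]
  push_cast
  have e2 : ∑ h ∈ (Finset.range (JJ T + 1)).powerset, ac k T M h =
      ∏ j ∈ Finset.range (JJ T + 1), (Real.exp (2 * K8.pe k * KK M (JJ T) j) +
        (1 + Real.exp (-(KK M (JJ T) j / 2)))) := by
    unfold ac ab
    rw [← K8.MV8.prod_add_ite]
  rw [e2]
  refine mul_le_mul_of_nonneg_right ?_ (by positivity)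
  refine Finset.prod_le_prod (fun j _ => by positivity) fun j hj => ?_
  have hjJ : j ≤ JJ T := by
    have := Finset.mem_range.mp hj
    omega
  have hK := Len.KK_ge_one (M := M) hjJ
  have hp := K8.MV8.pe_ge_one hk
  have h1 : Real.exp (-(KK M (JJ T) j / 2)) ≤ 1 := Real.exp_le_one_iff.mpr (by linarith)
  have h2 : 1 ≤ K8.pe k * KK M (JJ T) j := by nlinarith
  have h3 := Real.add_one_le_exp (2 * K8.pe k * KK M (JJ T) j)
  nlinarith

/-! ### the length of the top polynomials -/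

lemma dp_P (hC : Adm k M C) {i : ℕ} (hi : 0 ≤ C.te i) (hT : 1 < T) :
    DP (Real.exp (C.te i * Real.log T)) (Real.exp (C.te i * Real.log T)) (C.P T i) := by
  set y := Real.exp (C.te i * Real.log T) with hy
  have hL : 0 < Real.log T := Real.log_pos hT
  have hy1 : 1 ≤ y := Real.one_le_exp (mul_nonneg hi hL.le)
  have h1 : DP y (∑ p ∈ C.U T i, ‖(1 : ℂ)‖) (fun f => ∑ p ∈ C.U T i, (1 : ℂ) * f p) :=
    dp_sum (C.U T i) (M := fun _ => ‖(1 : ℂ)‖) (G := fun p f => (1 : ℂ) * f p) fun p hp => by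
      have := Blk9.mem_U.mp hp
      exact dp_single 1 p this.1.one_le this.2.2
  have hcard : ((C.U T i).card : ℝ) ≤ y := by
    have h2 : (C.U T i).card ≤ ⌊y⌋₊ := by
      unfold Cfg.U PS
      refine (Finset.card_filter_le _ _).trans ?_
      rw [Nat.card_Ioc]
      exact Nat.sub_le _ _
    calc ((C.U T i).card : ℝ) ≤ (⌊y⌋₊ : ℝ) := by exact_mod_cast h2
      _ ≤ y := Nat.floor_le (by linarith)
  have h2 : DP y y (fun f => ∑ p ∈ C.U T i, (1 : ℂ) * f p) := by
    refine h1.mono le_rfl ?_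
    simpa using hcard
  have h3 := h2.twist (w := ((C.a T : ℝ) : ℂ)) (by
    rw [ofReal_re]
    exact (Blk9.a_pos hC hT).le)
  refine h3.congr fun f _ => ?_
  unfold Cfg.P
  simp only [one_mul]

/-- the constant in the coefficients -/
noncomputable def pc (p : Polynomial ℝ) : ℝ :=
  ∑ j ∈ Finset.range (p.natDegree + 1), |p.coeff j|

lemma pc_nonneg (p : Polynomial ℝ) : 0 ≤ pc p :=
  Finset.sum_nonneg fun _ _ => abs_nonneg _

lemma dp_aeval {y : ℝ} {G : (ℕ → ℂ) → ℂ} (hy : 1 ≤ y) (h : DP y y G) (p : Polynomial ℝ) {d : ℕ}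
    (hd : p.natDegree ≤ d) : DP (y ^ d) (y ^ d * pc p) (fun f => Polynomial.aeval (G f) p) := by
  have h1 : DP (y ^ d) (∑ j ∈ Finset.range (p.natDegree + 1), y ^ d * |p.coeff j|)
      (fun f => ∑ j ∈ Finset.range (p.natDegree + 1), (p.coeff j : ℂ) * G f ^ j) := by
    refine dp_sum _ fun j hj => ?_
    have hj' : j ≤ d := by
      have := Finset.mem_range.mp hj
      omega
    have h2 := (h.pow j).const_mul (p.coeff j : ℂ)
    have h3 : y ^ j ≤ y ^ d := pow_le_pow_right₀ hy hj'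
    refine h2.mono h3 ?_
    rw [norm_real, Real.norm_eq_abs, mul_comm]
    exact mul_le_mul_of_nonneg_right h3 (abs_nonneg _)
  rw [← Finset.mul_sum] at h1
  refine h1.congr fun f _ => ?_
  rw [Polynomial.aeval_eq_sum_range]
  refine Finset.sum_congr rfl fun j _ => ?_
  rw [Complex.real_smul]

/-- the constant in the coefficients -/
noncomputable def bc (C : Cfg) (i : ℕ) : ℝ := 1 + pc (C.W₀ i) + pc (C.W₁ i)

/-- the constant in the coefficients -/
noncomputable def cc (C : Cfg) : ℝ := ∏ i ∈ Finset.range C.N, bc C i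

lemma bc_ge (C : Cfg) (i : ℕ) : 1 ≤ bc C i := by
  have h1 := pc_nonneg (C.W₀ i)
  have h2 := pc_nonneg (C.W₁ i)
  unfold bc
  linarith

lemma pc_wt (C : Cfg) (g : Finset ℕ) (i : ℕ) : pc (wt C g i) ≤ bc C i := by
  have h1 := pc_nonneg (C.W₀ i)
  have h2 := pc_nonneg (C.W₁ i)
  unfold bc wt
  split_ifs <;> linarith

/-- the degrees of the top polynomials -/
noncomputable def dm (C : Cfg) (i : ℕ) : ℕ := max (C.W₀ i).natDegree (C.W₁ i).natDegree

lemma deg_wt (C : Cfg) (g : Finset ℕ) (i : ℕ) : (wt C g i).natDegree ≤ dm C i := by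
  unfold dm wt
  split_ifs
  · exact le_max_right _ _
  · exact le_max_left _ _

lemma dp_Gt (hC : Adm k M C) (hT : 1 < T) (g : Finset ℕ) :
    DP (T ^ (93 / 100 : ℝ)) (T ^ (93 / 100 : ℝ) * cc C) (Gt C T g) := by
  have hL : 0 < Real.log T := Real.log_pos hT
  have hT0 : 0 < T := by linarith
  have hy1 : ∀ i, i < C.N → 1 ≤ Real.exp (C.te i * Real.log T) := fun i hi =>
    Real.one_le_exp (mul_nonneg (hC.hpos i hi.le).le hL.le)
  have h1 := dp_prod (Finset.range C.N)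
    (N := fun i => Real.exp (C.te i * Real.log T) ^ dm C i)
    (M := fun i => Real.exp (C.te i * Real.log T) ^ dm C i * pc (wt C g i))
    (G := fun i f => Polynomial.aeval (C.P T i f) (wt C g i)) (fun i hi => by
      have hi' := Finset.mem_range.mp hi
      exact dp_aeval (hy1 i hi') (dp_P hC (hC.hpos i hi'.le).le hT) _ (deg_wt C g i))
  have e1 : ∏ i ∈ Finset.range C.N, Real.exp (C.te i * Real.log T) ^ dm C i ≤
      T ^ (93 / 100 : ℝ) := by
    have e2 : ∀ i, Real.exp (C.te i * Real.log T) ^ dm C i =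
        Real.exp ((dm C i : ℝ) * C.te i * Real.log T) := by
      intro i
      rw [← Real.exp_nat_mul]
      congr 1
      ring
    simp only [e2]
    rw [← Real.exp_sum, ← Finset.sum_mul, Real.rpow_def_of_pos hT0]
    apply Real.exp_le_exp.mpr
    rw [mul_comm (Real.log T)]
    refine mul_le_mul_of_nonneg_right ?_ hL.le
    have h := hC.bud2
    unfold dm
    simp only [Nat.cast_max]
    exact h
  refine h1.mono e1 ?_
  calc ∏ i ∈ Finset.range C.N, (Real.exp (C.te i * Real.log T) ^ dm C i * pc (wt C g i))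
      ≤ ∏ i ∈ Finset.range C.N, (Real.exp (C.te i * Real.log T) ^ dm C i * bc C i) := by
        refine Finset.prod_le_prod (fun i _ => ?_) fun i _ => ?_
        · exact mul_nonneg (by positivity) (pc_nonneg _)
        · exact mul_le_mul_of_nonneg_left (pc_wt C g i) (by positivity)
    _ = (∏ i ∈ Finset.range C.N, Real.exp (C.te i * Real.log T) ^ dm C i) * cc C := by
        rw [Finset.prod_mul_distrib]
        rfl
    _ ≤ _ := by
        have : 0 ≤ cc C := Finset.prod_nonneg fun i _ => by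
          have := bc_ge C i
          linarith
        gcongr

lemma dp_GG (hC : Adm k M C) (hT : 1 < T) (h g : Finset ℕ)
    (hb : DP (T ^ (1 / 100 : ℝ)) (T ^ (1 / 100 : ℝ)) (Gb k T M h)) (hcc : cc C ≤ T) :
    DP (T ^ (94 / 100 : ℝ)) (T ^ 2) (GG k C T M h g) := by
  have hT0 : 0 < T := by linarith
  have h1 := hb.mul (dp_Gt hC hT g)
  have e1 : T ^ (1 / 100 : ℝ) * T ^ (93 / 100 : ℝ) = T ^ (94 / 100 : ℝ) := by
    rw [← Real.rpow_add hT0]
    norm_num
  refine h1.mono e1.le ?_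
  rw [← mul_assoc, e1]
  have h2 : T ^ (94 / 100 : ℝ) ≤ T := by
    calc T ^ (94 / 100 : ℝ) ≤ T ^ (1 : ℝ) := Real.rpow_le_rpow_of_exponent_le hT.le (by norm_num)
      _ = T := Real.rpow_one T
  have h3 : 0 ≤ T ^ (94 / 100 : ℝ) := Real.rpow_nonneg hT0.le _
  calc T ^ (94 / 100 : ℝ) * cc C ≤ T ^ (94 / 100 : ℝ) * T := by gcongr
    _ ≤ T * T := by gcongr
    _ = T ^ 2 := by ring

/-! ### the Gaussian means -/

lemma ER_VV9 (hC : Adm k M C) (hT : 1 < T) :
    ER (SB9 C T M) (fun f => VV9 k C T M (tw (1 / 2) f)) =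
      (∏ j ∈ Finset.range (JJ T + 1), ES (Sj T M (JJ T) j) (fun f => VB k T M j (tw (1 / 2) f))) *
        (∏ i ∈ Finset.range C.N, ES (C.U T i) (fun f => VT C T i (tw (1 / 2) f))) := by
  have h := Blk9.fact_gen (𝕜 := ℝ) hC hT (fun j f => VB k T M j (tw (1 / 2) f))
    (fun i f => VT C T i (tw (1 / 2) f)) (fun _ => 1) (by
      intro j f g hfg
      unfold VB Pj
      congr 1
      refine Finset.sum_congr rfl fun p hp => ?_
      simp only [tw, hfg p hp]) (by
      intro i f g hfg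
      unfold VT
      simp only [Blk9.P_dep hfg]) (by
      intro f g _
      rfl)
  rw [K8.MV8.ES_one, mul_one] at h
  rw [← h]
  unfold VV9
  simp only [mul_one]

lemma mem_blk (hC : Adm k M C) (hT : 1 < T) (n : ℕ) (h1 : 1 ≤ n)
    (h2 : (n : ℝ) ≤ T ^ (94 / 100 : ℝ)) : n ∈ Nat.factoredNumbers (UU (SB9 C T M)) := by
  refine Blk9.mem_factored_SB9 hC hT h1 (h2.trans ?_)
  calc T ^ (94 / 100 : ℝ) ≤ T ^ (1 : ℝ) := Real.rpow_le_rpow_of_exponent_le hT.le (by norm_num)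
    _ = T := Real.rpow_one T

lemma eg_one (hC : Adm k M C) (hT : 1 < T) (h g : Finset ℕ)
    (hd : DP (T ^ (94 / 100 : ℝ)) (T ^ 2) (GG k C T M h g)) (τ : ℝ) :
    EG T τ (fun t => ‖GG k C T M h g (fs (1 / 2 + t * I))‖ ^ 2) ≤
      ER (SB9 C T M) (fun f => ‖GG k C T M h g (tw (1 / 2) f)‖ ^ 2) +
        T ^ 4 * Real.exp (-(T ^ (1 / 50 : ℝ) / 2)) := by
  have hT0 : 0 < T := by linarith
  have h1 := transfer_sq (mem_blk hC hT) (hd.twist (w := 1 / 2) (by norm_num)) le_rfl T τ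
  have e1 : ∀ t : ℝ, GG k C T M h g (tw (1 / 2) (fs (t * I))) =
      GG k C T M h g (fs (1 / 2 + t * I)) := fun t => (hd.fs_add _ _).symm
  simp only [e1] at h1
  rw [K8.MV8.VV_ratio hT0] at h1
  have h2 := (abs_le.1 h1).2
  have e2 : (T ^ 2) ^ 2 = T ^ 4 := by ring
  rw [e2] at h2
  linarith

lemma eg_sum (hC : Adm k M C) (hT : 1 < T)
    (hd : ∀ h g, DP (T ^ (94 / 100 : ℝ)) (T ^ 2) (GG k C T M h g)) (τ : ℝ) :
    EG T τ (fun t => VV9 k C T M (fs (1 / 2 + t * I))) ≤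
      ER (SB9 C T M) (fun f => VV9 k C T M (tw (1 / 2) f)) +
        (∑ x ∈ PR C T, ac k T M x.1) * (T ^ 4 * Real.exp (-(T ^ (1 / 50 : ℝ) / 2))) := by
  have hint : ∀ x ∈ PR C T, Integrable (fun t : ℝ => ac k T M x.1 *
      ‖GG k C T M x.1 x.2 (fs (1 / 2 + t * I))‖ ^ 2) (gaussianReal τ (VV T)) := by
    intro x _
    obtain ⟨h1, h2⟩ := Lower.dp_half (hd x.1 x.2)
    apply Integrable.const_mul
    refine Integrable.of_bound (C := (T ^ 2) ^ 2) ((h1.norm.pow 2).aestronglyMeasurable) ?_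
    refine Filter.Eventually.of_forall fun t => ?_
    rw [Real.norm_eq_abs, abs_of_nonneg (by positivity)]
    exact pow_le_pow_left₀ (norm_nonneg _) (h2 t) 2
  have e1 : EG T τ (fun t => VV9 k C T M (fs (1 / 2 + t * I))) =
      ∑ x ∈ PR C T, ac k T M x.1 *
        EG T τ (fun t => ‖GG k C T M x.1 x.2 (fs (1 / 2 + t * I))‖ ^ 2) := by
    simp only [EG, VV9_eq]
    rw [integral_finsetSum _ hint]
    refine Finset.sum_congr rfl fun x _ => ?_
    exact integral_const_mul _ _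
  have e2 : ER (SB9 C T M) (fun f => VV9 k C T M (tw (1 / 2) f)) =
      ∑ x ∈ PR C T, ac k T M x.1 *
        ER (SB9 C T M) (fun f => ‖GG k C T M x.1 x.2 (tw (1 / 2) f)‖ ^ 2) := by
    simp only [ER_eq, VV9_eq]
    rw [integral_finsetSum]
    · refine Finset.sum_congr rfl fun x _ => ?_
      exact integral_const_mul _ _
    · intro x _
      have h1 : BC (SB9 C T M) (fun f => GG k C T M x.1 x.2 (tw (1 / 2) f)) :=
        ((hd x.1 x.2).twist (w := 1 / 2) (by norm_num)).eval_XX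
      exact h1.norm_sq.integrable.const_mul _
  rw [e1, e2, Finset.sum_mul, ← Finset.sum_add_distrib]
  refine Finset.sum_le_sum fun x _ => ?_
  rw [← mul_add]
  exact mul_le_mul_of_nonneg_left (eg_one hC hT x.1 x.2 (hd x.1 x.2) τ) (ac_nonneg _)

end MV9

open MV9 in
/-- (V5) the Gaussian means of the weight -/
theorem stMeanV9 (hl : StLen9) : StMeanV9 := by
  intro k h0 h1
  obtain ⟨M₀, hM₀⟩ := hl k (1 / 100) h0 h1 (by norm_num)
  refine ⟨M₀, fun M hM C hC => ?_⟩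
  obtain ⟨T₁, hT₁3, hT₁⟩ := hM₀ M hM
  obtain ⟨T₂, hT₂⟩ := Filter.eventually_atTop.mp K8.MV8.ev_err
  refine ⟨max T₁ (max T₂ (max (cc C) (4 ^ C.N))), hT₁3.trans (le_max_left _ _),
    fun T hT τ => ?_⟩
  have hTa : T₁ ≤ T := (le_max_left _ _).trans hT
  have hTb : T₂ ≤ T := ((le_max_left _ _).trans (le_max_right _ _)).trans hT
  have hTc : cc C ≤ T :=
    (((le_max_left _ _).trans (le_max_right _ _)).trans (le_max_right _ _)).trans hT
  have hTd : (4 : ℝ) ^ C.N ≤ T :=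
    (((le_max_right _ _).trans (le_max_right _ _)).trans (le_max_right _ _)).trans hT
  have hT3 : 3 ≤ T := hT₁3.trans hTa
  have hT1 : 1 < T := by linarith
  have hT0 : 0 < T := by linarith
  have hd : ∀ h g, DP (T ^ (94 / 100 : ℝ)) (T ^ 2) (MV9.GG k C T M h g) := fun h g =>
    dp_GG hC hT1 h g (hT₁ T hTa h).1 hTc
  have h2 := eg_sum hC hT1 hd τ
  rw [ER_VV9 hC hT1] at h2
  refine h2.trans ?_
  have h3 : ∑ x ∈ PR C T, ac k T M x.1 ≤ T := by
    have e1 : (2 : ℝ) ^ C.N ≤ T ^ (1 / 2 : ℝ) := by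
      rw [← Real.sqrt_eq_rpow]
      refine Real.le_sqrt_of_sq_le ?_
      rw [← pow_mul, mul_comm, pow_mul]
      norm_num
      exact hTd
    have e2 : ∏ j ∈ Finset.range (JJ T + 1), (2 * Real.exp (2 * K8.pe k * KK M (JJ T) j)) ≤
        T ^ (1 / 2 : ℝ) :=
      (hT₁ T hTa ∅).2.trans (Real.rpow_le_rpow_of_exponent_le hT1.le (by norm_num))
    calc ∑ x ∈ PR C T, ac k T M x.1 ≤ _ := sum_ac h0
      _ ≤ T ^ (1 / 2 : ℝ) * T ^ (1 / 2 : ℝ) := by
          refine mul_le_mul e2 e1 (by positivity) (Real.rpow_nonneg hT0.le _)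
      _ = T := by
          rw [← Real.rpow_add hT0]
          norm_num
  have h4 := hT₂ T hTb
  have h5 : (∑ x ∈ PR C T, ac k T M x.1) * (T ^ 4 * Real.exp (-(T ^ (1 / 50 : ℝ) / 2))) ≤
      T ^ (-10 : ℝ) := by
    have h6 : T ^ (-10 : ℝ) = (T ^ 10)⁻¹ := by
      rw [Real.rpow_neg hT0.le]
      congr 1
      exact_mod_cast Real.rpow_natCast T 10
    rw [h6]
    have h7 : 0 < T ^ 10 := by positivity
    rw [← one_div, le_div_iff₀ h7]
    have h8 : 0 ≤ T ^ 4 * Real.exp (-(T ^ (1 / 50 : ℝ) / 2)) := by positivity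
    calc (∑ x ∈ PR C T, ac k T M x.1) * (T ^ 4 * Real.exp (-(T ^ (1 / 50 : ℝ) / 2))) * T ^ 10
        ≤ T * (T ^ 4 * Real.exp (-(T ^ (1 / 50 : ℝ) / 2))) * T ^ 10 := by gcongr
      _ = T ^ 15 * Real.exp (-(T ^ (1 / 50 : ℝ) / 2)) := by ring
      _ ≤ 1 := h4
  linarith

end K9
end Pool.Agent.Lib.MP_973905_nt
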