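import Pool.Agent.Lib.MP_973905_nt.K9.Stmts
import Pool.Agent.Lib.MP_973905_nt.K5.Move

set_option autoImplicit false

/-! K9 module (A4): moving the line of integration to the right. -/

namespace Pool.Agent.Lib.MP_973905_nt
namespace K9
namespace MoveS

open MeasureTheory ProbabilityTheory Complex Filter Topology K1 K1.Strip K4 K5 K5.Move

/-- the integrand -/
noncomputable def PS (X b t : ℝ) (w : ℂ) : ℂ :=
  KNa X b w * (riemannZeta (1 / 2 + w + t * I) * riemannZeta (1 / 2 + w - t * I))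

lemma norm_sq_sub {b : ℝ} (hb : 0 < b) (hb2 : b ≤ 1 / 400) {w : ℂ} (h0 : 1 / 200 ≤ w.re) :
    ‖w‖ ^ 2 ≤ 2 * ‖w ^ 2 - (b : ℂ) ^ 2‖ := by
  have h1 : 1 / 200 ≤ ‖w‖ := h0.trans ((le_abs_self _).trans (abs_re_le_norm w))
  have h2 := norm_sub_norm_le (w ^ 2) ((b : ℂ) ^ 2)
  rw [norm_pow, norm_pow, norm_real, Real.norm_eq_abs, abs_of_pos hb] at h2
  nlinarith

lemma sub_ne {b : ℝ} (hb : 0 < b) (hb2 : b ≤ 1 / 400) {w : ℂ} (h0 : 1 / 200 ≤ w.re) :
    w ^ 2 - (b : ℂ) ^ 2 ≠ 0 := by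
  intro h
  have h1 := norm_sq_sub hb hb2 h0
  have h2 : 1 / 200 ≤ ‖w‖ := h0.trans ((le_abs_self _).trans (abs_re_le_norm w))
  rw [h, norm_zero] at h1
  nlinarith

lemma norm_KNa {X A b : ℝ} (hX : 1 ≤ X) (hb : 0 < b) (hb2 : b ≤ 1 / 400) {w : ℂ}
    (h0 : 1 / 200 ≤ w.re) (h1 : w.re ≤ A) :
    ‖KNa X b w‖ ≤ 2 * (X ^ A * (Real.exp (A ^ 2) * Real.exp (-w.im ^ 2)) / ‖w‖) := by
  have hw : 1 / 200 ≤ ‖w‖ := h0.trans ((le_abs_self _).trans (abs_re_le_norm w))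
  have hw0 : 0 < ‖w‖ := by linarith
  have hn := norm_sq_sub hb hb2 h0
  have hn0 : 0 < ‖w ^ 2 - (b : ℂ) ^ 2‖ := norm_pos_iff.2 (sub_ne hb hb2 h0)
  unfold KNa
  rw [norm_mul, norm_mul, norm_cpow_eq_rpow_re_of_pos (by linarith), norm_exp, norm_div]
  have h2 : (w ^ 2 - (b : ℂ) ^ 2).re = w.re ^ 2 - w.im ^ 2 - b ^ 2 := by
    rw [sub_re, sq, mul_re, sq, mul_re, ofReal_re, ofReal_im]; ring
  have h3 : (w - (b : ℂ)).re = w.re - b := by rw [sub_re, ofReal_re]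
  rw [h2, h3, ← Real.exp_add]
  have h4 : ‖w‖ / ‖w ^ 2 - (b : ℂ) ^ 2‖ ≤ 2 / ‖w‖ := by
    rw [div_le_div_iff₀ hn0 hw0]
    nlinarith
  have hX0 : 0 < X := by linarith
  calc X ^ (w.re - b) * Real.exp (w.re ^ 2 - w.im ^ 2 - b ^ 2) * (‖w‖ / ‖w ^ 2 - (b : ℂ) ^ 2‖)
      ≤ X ^ A * Real.exp (A ^ 2 + -w.im ^ 2) * (2 / ‖w‖) := by
        gcongr
        · linarith
        · nlinarith
    _ = _ := by ring

/-- bound of the integrand on a vertical line -/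
lemma norm_PS_line {C : ℝ} (hC : 1 ≤ C) (hz : ∀ s : ℂ, 1 / 2 ≤ s.re → 1 / 4 ≤ ‖s - 1‖ →
    ‖riemannZeta s‖ ≤ C * (1 + |s.im|) ^ 2) {X A a b : ℝ} (hX : 1 ≤ X) (hb : 0 < b)
    (hb2 : b ≤ 1 / 400) (ha : 1 / 200 ≤ a)
    (haA : a ≤ A) (ha2 : 1 / 4 ≤ |a - 1 / 2|) (y t : ℝ) :
    ‖PS X b t ((a : ℂ) + y * I)‖ ≤
      400 * (X ^ A * Real.exp (A ^ 2)) * (C ^ 2 * (1 + |y|) ^ 4 * (1 + |t|) ^ 4) := by
  unfold PS
  rw [norm_mul]
  have h1 := norm_KNa hX hb hb2 (w := (a : ℂ) + y * I) (A := A) (by rw [line_re]; linarith)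
    (by rw [line_re]; exact haA)
  have h2 := far_of_re (w := (a : ℂ) + y * I) (by rw [line_re]; exact ha2) t
  have h3 := norm_pair hC hz (w := (a : ℂ) + y * I) (by rw [line_re]; linarith) h2.1 h2.2
  rw [line_im] at h1 h3
  have h4 : 1 / 200 ≤ ‖(a : ℂ) + y * I‖ := by
    have := abs_re_le_norm ((a : ℂ) + y * I)
    rw [line_re] at this
    exact (ha.trans (le_abs_self a)).trans this
  have h5 : Real.exp (-y ^ 2) ≤ 1 := Real.exp_le_one_iff.2 (by nlinarith [sq_nonneg y])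
  have hX0 : 0 < X := by linarith
  have h6' : X ^ A * (Real.exp (A ^ 2) * Real.exp (-y ^ 2)) / ‖(a : ℂ) + y * I‖ ≤
      200 * (X ^ A * Real.exp (A ^ 2)) := by
    rw [div_le_iff₀ (by linarith)]
    calc X ^ A * (Real.exp (A ^ 2) * Real.exp (-y ^ 2)) ≤ X ^ A * (Real.exp (A ^ 2) * 1) := by
          gcongr
      _ = 200 * (X ^ A * Real.exp (A ^ 2)) * (1 / 200) := by ring
      _ ≤ _ := by gcongr
  have h6 : ‖KNa X b ((a : ℂ) + y * I)‖ ≤ 400 * (X ^ A * Real.exp (A ^ 2)) := by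
    refine h1.trans ?_
    linarith
  gcongr

lemma cont_PS {X a b : ℝ} (hX : 0 < X) (hb : 0 < b) (hb2 : b ≤ 1 / 400) (ha : 1 / 200 ≤ a)
    (ha2 : 1 / 4 ≤ |a - 1 / 2|) :
    Continuous fun z : ℝ × ℝ => PS X b z.2 ((a : ℂ) + z.1 * I) := by
  unfold PS KNa
  have h0 : ∀ z : ℝ × ℝ, ((a : ℂ) + z.1 * I) ^ 2 - (b : ℂ) ^ 2 ≠ 0 := fun z =>
    sub_ne hb hb2 (by rw [line_re]; exact ha)
  have hX' : (X : ℂ) ≠ 0 := ofReal_ne_zero.2 hX.ne'
  refine Continuous.mul (Continuous.mul (Continuous.mul ?_ ?_) (Continuous.div ?_ ?_ h0))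
    (Continuous.mul ?_ ?_)
  · exact Continuous.const_cpow (by fun_prop) (Or.inl hX')
  · fun_prop
  · fun_prop
  · fun_prop
  · exact cont_zeta (by fun_prop) fun z => ne_one_of_far
      (far_of_re (w := (a : ℂ) + z.1 * I) (by rw [line_re]; exact ha2) z.2).1
  · exact cont_zeta (by fun_prop) fun z => ne_one_of_far
      (far_of_re (w := (a : ℂ) + z.1 * I) (by rw [line_re]; exact ha2) z.2).2

/-- Fubini on a vertical line -/
lemma fubini {C : ℝ} (hC : 1 ≤ C) (hz : ∀ s : ℂ, 1 / 2 ≤ s.re → 1 / 4 ≤ ‖s - 1‖ →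
    ‖riemannZeta s‖ ≤ C * (1 + |s.im|) ^ 2) {X a b L B T τ : ℝ} (hX : 1 ≤ X) (hb : 0 < b)
    (hb2 : b ≤ 1 / 400) (ha : 1 / 200 ≤ a)
    (ha2 : 1 / 4 ≤ |a - 1 / 2|) (hL : 0 ≤ L) {H : ℝ → ℂ} (hH : Continuous H)
    (hB : ∀ t, ‖H t‖ ≤ B) :
    (∫ y : ℝ in (-L)..L, KNa X b ((a : ℂ) + y * I) * FH T τ H ((a : ℂ) + y * I)) =
      (∫ t, (∫ y : ℝ in (-L)..L, PS X b t ((a : ℂ) + y * I)) * H t ∂(gaussianReal τ (VV T))) ∧
    Integrable (fun t => (∫ y : ℝ in (-L)..L, PS X b t ((a : ℂ) + y * I)) * H t)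
      (gaussianReal τ (VV T)) := by
  have hX0 : 0 < X := by linarith
  have hB0 : 0 ≤ B := (norm_nonneg _).trans (hB 0)
  have hLL : -L ≤ L := by linarith
  have hc := (cont_PS hX0 hb hb2 ha ha2).mul (hH.comp continuous_snd)
  have hint : Integrable (fun z : ℝ × ℝ => PS X b z.2 ((a : ℂ) + z.1 * I) * H z.2)
      ((volume.restrict (Set.Ioc (-L) L)).prod (gaussianReal τ (VV T))) := by
    have h1 : Integrable (fun y : ℝ => (400 * (X ^ a * Real.exp (a ^ 2)) * C ^ 2 * B) *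
        (1 + |y|) ^ 4) (volume.restrict (Set.Ioc (-L) L)) :=
      ((by fun_prop : Continuous fun y : ℝ => (400 * (X ^ a * Real.exp (a ^ 2)) * C ^ 2 * B) *
        (1 + |y|) ^ 4).integrableOn_Icc).mono_set Set.Ioc_subset_Icc_self
    have h2 := h1.mul_prod (integrable_one_add_abs_pow τ (VV T) 4)
    refine h2.mono' hc.aestronglyMeasurable (Filter.Eventually.of_forall fun z => ?_)
    rw [norm_mul]
    calc ‖PS X b z.2 ((a : ℂ) + z.1 * I)‖ * ‖H z.2‖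
        ≤ (400 * (X ^ a * Real.exp (a ^ 2)) * (C ^ 2 * (1 + |z.1|) ^ 4 * (1 + |z.2|) ^ 4)) * B := by
          gcongr
          · exact norm_PS_line hC hz hX hb hb2 ha le_rfl ha2 z.1 z.2
          · exact hB _
      _ = _ := by ring
  have e : ∀ t : ℝ, (∫ y : ℝ in (-L)..L, PS X b t ((a : ℂ) + y * I)) * H t =
      ∫ y in Set.Ioc (-L) L, PS X b t ((a : ℂ) + y * I) * H t := by
    intro t
    rw [← intervalIntegral.integral_mul_const, intervalIntegral.integral_of_le hLL]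
  simp only [e]
  refine ⟨?_, hint.integral_prod_right⟩
  rw [← integral_integral_swap hint, intervalIntegral.integral_of_le hLL]
  congr 1
  funext y
  unfold FH EG
  rw [← integral_const_mul]
  congr 1
  funext t
  unfold PS
  ring

/-- bound of the integrand on a horizontal line -/
lemma norm_PS_hor {C : ℝ} (hC : 1 ≤ C) (hz : ∀ s : ℂ, 1 / 2 ≤ s.re → 1 / 4 ≤ ‖s - 1‖ →
    ‖riemannZeta s‖ ≤ C * (1 + |s.im|) ^ 2) {X A b L : ℝ} (hX : 1 ≤ X) (hb : 0 < b)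
    (hb2 : b ≤ 1 / 400) (hL : 1 ≤ L) {t : ℝ}
    (ht : L + 1 ≤ |t|) {w : ℂ} (h0 : 1 / 200 ≤ w.re) (h1 : w.re ≤ A) (h2 : |w.im| = L) :
    ‖PS X b t w‖ ≤ 2 * (X ^ A * Real.exp (A ^ 2) * Real.exp (-L ^ 2)) *
      (C ^ 2 * (1 + L) ^ 4 * (1 + |t|) ^ 4) := by
  unfold PS
  rw [norm_mul]
  have h3 := norm_KNa hX hb hb2 h0 h1
  have h4 := far_of_im (w := w) (t := t) (by rw [h2]; exact ht)
  have h5 := norm_pair hC hz (by linarith : 0 < w.re) h4.1 h4.2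
  have hX0 : 0 < X := by linarith
  rw [h2] at h5
  have h6 : w.im ^ 2 = L ^ 2 := by rw [← sq_abs, h2]
  have h7 : 1 ≤ ‖w‖ := by
    have := abs_im_le_norm w
    rw [h2] at this
    linarith
  rw [h6] at h3
  have h8 : ‖KNa X b w‖ ≤ 2 * (X ^ A * Real.exp (A ^ 2) * Real.exp (-L ^ 2)) := by
    refine h3.trans ?_
    rw [← mul_assoc (X ^ A)]
    gcongr
    exact div_le_self (by positivity) h7
  gcongr

lemma diff_PS {X b : ℝ} (hX : 0 < X) (hb : 0 < b) (hb2 : b ≤ 1 / 400) {t : ℝ} {w : ℂ}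
    (h0 : 1 / 200 ≤ w.re) (h : |w.im| + 1 ≤ |t|) :
    DifferentiableAt ℂ (PS X b t) w := by
  have hw := sub_ne hb hb2 h0
  have hX' : (X : ℂ) ≠ 0 := ofReal_ne_zero.2 hX.ne'
  have h4 := far_of_im (w := w) (t := t) h
  have d1 : DifferentiableAt ℂ riemannZeta (1 / 2 + w + t * I) :=
    differentiableAt_riemannZeta (ne_one_of_far h4.1)
  have d2 : DifferentiableAt ℂ riemannZeta (1 / 2 + w - t * I) :=
    differentiableAt_riemannZeta (ne_one_of_far h4.2)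
  have e1 : DifferentiableAt ℂ (fun w : ℂ => riemannZeta (1 / 2 + w + t * I)) w :=
    DifferentiableAt.comp w d1 (by fun_prop)
  have e2 : DifferentiableAt ℂ (fun w : ℂ => riemannZeta (1 / 2 + w - t * I)) w :=
    DifferentiableAt.comp w d2 (by fun_prop)
  have e3 : DifferentiableAt ℂ (fun w : ℂ => (X : ℂ) ^ (w - b) * cexp (w ^ 2 - (b : ℂ) ^ 2) *
      (w / (w ^ 2 - (b : ℂ) ^ 2))) w := by
    refine DifferentiableAt.mul (DifferentiableAt.mul ?_ ?_)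
      (DifferentiableAt.div differentiableAt_id ?_ hw)
    · exact (differentiableAt_id.sub_const _).const_cpow (Or.inl hX')
    · fun_prop
    · fun_prop
  exact e3.mul (e1.mul e2)

/-- the difference of the two lines, `t` large -/
lemma shift_large {C : ℝ} (hC : 1 ≤ C) (hz : ∀ s : ℂ, 1 / 2 ≤ s.re → 1 / 4 ≤ ‖s - 1‖ →
    ‖riemannZeta s‖ ≤ C * (1 + |s.im|) ^ 2) {X A b L : ℝ} (hX : 1 ≤ X) (hb : 0 < b)
    (hb2 : b ≤ 1 / 400) (hA : 1 ≤ A) (hL : 1 ≤ L) {t : ℝ} (ht : L + 1 ≤ |t|) :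
    ‖(∫ y : ℝ in (-L)..L, PS X b t (((1 / 200 : ℝ) : ℂ) + y * I)) -
      ∫ y : ℝ in (-L)..L, PS X b t ((A : ℂ) + y * I)‖ ≤
      2 * A * (2 * (X ^ A * Real.exp (A ^ 2) * Real.exp (-L ^ 2)) *
      (C ^ 2 * (1 + L) ^ 4 * (1 + |t|) ^ 4)) := by
  have hX0 : 0 < X := by linarith
  set f : ℂ → ℂ := PS X b t with hf
  have hd : DifferentiableOn ℂ f (Set.uIcc (1 / 200 : ℝ) A ×ℂ Set.uIcc (-L) L) := by
    intro w hw
    rw [Complex.mem_reProdIm, Set.uIcc_of_le (by linarith), Set.uIcc_of_le (by linarith)] at hw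
    obtain ⟨⟨h1, h2⟩, h3, h4⟩ := hw
    refine (diff_PS hX0 hb hb2 (by linarith) ?_).differentiableWithinAt
    have : |w.im| ≤ L := abs_le.2 ⟨h3, h4⟩
    linarith
  have key := integral_boundary_rect_eq_zero_of_differentiableOn f ⟨(1 / 200 : ℝ), -L⟩ ⟨A, L⟩ hd
  simp only [smul_eq_mul] at key
  set S : ℝ := 2 * (X ^ A * Real.exp (A ^ 2) * Real.exp (-L ^ 2)) *
      (C ^ 2 * (1 + L) ^ 4 * (1 + |t|) ^ 4) with hS
  have hS0 : 0 ≤ S := by positivity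
  have hor : ∀ v : ℝ, |v| = L → ‖∫ x : ℝ in (1 / 200 : ℝ)..A, f (x + v * I)‖ ≤ A * S := by
    intro v hv
    have h1 := intervalIntegral.norm_integral_le_of_norm_le_const (a := (1 / 200 : ℝ)) (b := A)
      (f := fun x : ℝ => f (x + v * I)) (C := S) (fun x hx => by
        rw [Set.uIoc_of_le (by linarith)] at hx
        exact norm_PS_hor hC hz hX hb hb2 hL ht (w := (x : ℂ) + v * I)
          (by rw [line_re]; linarith [hx.1]) (by rw [line_re]; exact hx.2)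
          (by rw [line_im]; exact hv))
    refine h1.trans ?_
    rw [abs_of_nonneg (by linarith : (0 : ℝ) ≤ A - 1 / 200), mul_comm]
    gcongr
    linarith
  have h1 := hor (-L) (by rw [abs_neg]; exact abs_of_nonneg (by linarith))
  have h2 := hor L (abs_of_nonneg (by linarith))
  have h3 : I * ((∫ y : ℝ in (-L)..L, f (((1 / 200 : ℝ) : ℂ) + y * I)) -
      ∫ y : ℝ in (-L)..L, f ((A : ℂ) + y * I)) =
      (∫ x : ℝ in (1 / 200 : ℝ)..A, f (x + (-L : ℝ) * I)) -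
        ∫ x : ℝ in (1 / 200 : ℝ)..A, f (x + L * I) := by
    linear_combination -key
  have h4 : ‖I * ((∫ y : ℝ in (-L)..L, f (((1 / 200 : ℝ) : ℂ) + y * I)) -
      ∫ y : ℝ in (-L)..L, f ((A : ℂ) + y * I))‖ ≤ A * S + A * S := by
    rw [h3]
    exact (norm_sub_le _ _).trans (add_le_add h1 h2)
  rw [norm_mul, norm_I, one_mul] at h4
  linarith

/-- the difference of the two lines, trivial bound -/
lemma shift_triv {C : ℝ} (hC : 1 ≤ C) (hz : ∀ s : ℂ, 1 / 2 ≤ s.re → 1 / 4 ≤ ‖s - 1‖ →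
    ‖riemannZeta s‖ ≤ C * (1 + |s.im|) ^ 2) {X A b L : ℝ} (hX : 1 ≤ X) (hb : 0 < b)
    (hb2 : b ≤ 1 / 400) (hA : 1 ≤ A) (hL : 0 ≤ L) (t : ℝ) :
    ‖(∫ y : ℝ in (-L)..L, PS X b t (((1 / 200 : ℝ) : ℂ) + y * I)) -
      ∫ y : ℝ in (-L)..L, PS X b t ((A : ℂ) + y * I)‖ ≤
      1600 * L * (X ^ A * Real.exp (A ^ 2)) * (C ^ 2 * (1 + L) ^ 4 * (1 + |t|) ^ 4) := by
  have hX0 : 0 < X := by linarith
  have h : ∀ a : ℝ, 1 / 200 ≤ a → a ≤ A → 1 / 4 ≤ |a - 1 / 2| →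
      ‖∫ y : ℝ in (-L)..L, PS X b t ((a : ℂ) + y * I)‖ ≤
        (400 * (X ^ A * Real.exp (A ^ 2)) * (C ^ 2 * (1 + L) ^ 4 * (1 + |t|) ^ 4)) * (2 * L) := by
    intro a ha haA ha2
    have h1 := intervalIntegral.norm_integral_le_of_norm_le_const (a := -L) (b := L)
      (f := fun y : ℝ => PS X b t ((a : ℂ) + y * I))
      (C := 400 * (X ^ A * Real.exp (A ^ 2)) * (C ^ 2 * (1 + L) ^ 4 * (1 + |t|) ^ 4))
      (fun y hy => by
        rw [Set.uIoc_of_le (by linarith)] at hy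
        have hy' : |y| ≤ L := abs_le.2 ⟨hy.1.le, hy.2⟩
        refine (norm_PS_line hC hz hX hb hb2 ha haA ha2 y t).trans ?_
        gcongr)
    have e : |L - -L| = 2 * L := by
      rw [sub_neg_eq_add, abs_of_nonneg (by linarith : (0 : ℝ) ≤ L + L)]
      ring
    rw [e] at h1
    exact h1
  have h1 := h (1 / 200) le_rfl (by linarith) (by norm_num [abs_of_neg])
  have h2 := h A (by linarith) le_rfl (by rw [abs_of_nonneg (by linarith)]; linarith)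
  refine (norm_sub_le _ _).trans ((add_le_add h1 h2).trans (le_of_eq ?_))
  ring

/-- all together, for one `T` -/
lemma core {C : ℝ} (hC : 1 ≤ C) (hz : ∀ s : ℂ, 1 / 2 ≤ s.re → 1 / 4 ≤ ‖s - 1‖ →
    ‖riemannZeta s‖ ≤ C * (1 + |s.im|) ^ 2) {X A b L T τ B l : ℝ} (hX : 1 ≤ X) (hb : 0 < b)
    (hb2 : b ≤ 1 / 400) (hA : 1 ≤ A)
    (hL : 1 ≤ L) (hl : 0 ≤ l) {H : ℝ → ℂ} (hH : Continuous H) (hB : ∀ t, ‖H t‖ ≤ B) :
    ‖(∫ y : ℝ in (-L)..L, KNa X b (((1 / 200 : ℝ) : ℂ) + y * I) *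
        FH T τ H (((1 / 200 : ℝ) : ℂ) + y * I)) -
      ∫ y : ℝ in (-L)..L, KNa X b ((A : ℂ) + y * I) * FH T τ H ((A : ℂ) + y * I)‖ ≤
      2 * A * (2 * (X ^ A * Real.exp (A ^ 2) * Real.exp (-L ^ 2)) * (C ^ 2 * (1 + L) ^ 4)) * B *
        (∫ t : ℝ, (1 + |t|) ^ 4 ∂(gaussianReal τ (VV T))) +
      1600 * L * (X ^ A * Real.exp (A ^ 2)) * (C ^ 2 * (1 + L) ^ 4 * (2 + L) ^ 4) * B *
        Real.exp (l * (L + 1) - l * |τ| + VV T * l ^ 2 / 2) := by
  have hX0 : 0 < X := by linarith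
  have hB0 : 0 ≤ B := (norm_nonneg _).trans (hB 0)
  obtain ⟨f1, i1⟩ := fubini (T := T) (τ := τ) hC hz hX hb hb2 (a := 1 / 200) (L := L) le_rfl
    (by norm_num [abs_of_neg]) (by linarith) hH hB
  obtain ⟨f2, i2⟩ := fubini (T := T) (τ := τ) hC hz hX hb hb2 (a := A) (L := L) (by linarith)
    (by rw [abs_of_nonneg (by linarith)]; linarith) (by linarith) hH hB
  rw [f1, f2, ← integral_sub i1 i2]
  obtain ⟨x, hx, hxi⟩ := exp_side τ (VV T) hl
  set K1 : ℝ := 2 * A * (2 * (X ^ A * Real.exp (A ^ 2) * Real.exp (-L ^ 2)) *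
    (C ^ 2 * (1 + L) ^ 4)) * B with hK1
  set K2 : ℝ := 1600 * L * (X ^ A * Real.exp (A ^ 2)) * (C ^ 2 * (1 + L) ^ 4 * (2 + L) ^ 4) * B
    with hK2
  have hK10 : 0 ≤ K1 := by positivity
  have hK20 : 0 ≤ K2 := by positivity
  have g1 := (integrable_one_add_abs_pow τ (VV T) 4).const_mul K1
  have g2 := (integrable_exp_mul_gaussianReal (μ := τ) (v := VV T) x).const_mul
    (K2 * Real.exp (l * (L + 1)))
  have hpt : ∀ t : ℝ, ‖(∫ y : ℝ in (-L)..L, PS X b t (((1 / 200 : ℝ) : ℂ) + y * I)) * H t -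
      (∫ y : ℝ in (-L)..L, PS X b t ((A : ℂ) + y * I)) * H t‖ ≤
      K1 * (1 + |t|) ^ 4 + K2 * Real.exp (l * (L + 1)) * Real.exp (x * t) := by
    intro t
    rw [← sub_mul, norm_mul]
    by_cases ht : L + 1 ≤ |t|
    · have h1 := shift_large hC hz hX hb hb2 hA hL ht
      have h2 : 0 ≤ K2 * Real.exp (l * (L + 1)) * Real.exp (x * t) := by positivity
      calc _ ≤ (2 * A * (2 * (X ^ A * Real.exp (A ^ 2) * Real.exp (-L ^ 2)) *
            (C ^ 2 * (1 + L) ^ 4 * (1 + |t|) ^ 4))) * B := by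
            gcongr
            exact hB t
        _ = K1 * (1 + |t|) ^ 4 := by rw [hK1]; ring
        _ ≤ _ := by linarith
    · push Not at ht
      have h1 := shift_triv hC hz hX hb hb2 hA (by linarith : 0 ≤ L) t
      have h3 : 1 ≤ Real.exp (l * (L + 1)) * Real.exp (x * t) := by
        rw [← Real.exp_add]
        apply Real.one_le_exp
        have h4 : -(x * t) ≤ l * (L + 1) := by
          calc -(x * t) ≤ |x * t| := neg_le_abs _
            _ = l * |t| := by rw [abs_mul, hx]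
            _ ≤ _ := by gcongr
        linarith
      have h5 : 0 ≤ K1 * (1 + |t|) ^ 4 := by positivity
      calc _ ≤ (1600 * L * (X ^ A * Real.exp (A ^ 2)) * (C ^ 2 * (1 + L) ^ 4 * (1 + |t|) ^ 4)) *
            B := by
            gcongr
            exact hB t
        _ ≤ (1600 * L * (X ^ A * Real.exp (A ^ 2)) * (C ^ 2 * (1 + L) ^ 4 * (2 + L) ^ 4)) * B := by
            have h6 : (1 + |t|) ^ 4 ≤ (2 + L) ^ 4 :=
              pow_le_pow_left₀ (by positivity) (by linarith) 4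
            gcongr 1600 * L * (X ^ A * Real.exp (A ^ 2)) * (C ^ 2 * (1 + L) ^ 4 * ?_) * B
        _ = K2 * 1 := by rw [hK2]; ring
        _ ≤ K2 * (Real.exp (l * (L + 1)) * Real.exp (x * t)) := by gcongr
        _ ≤ _ := by linarith
  refine (norm_integral_le_of_norm_le (g1.add g2) (Filter.Eventually.of_forall hpt)).trans
    (le_of_eq ?_)
  simp only [Pi.add_apply]
  rw [integral_add g1 g2, integral_const_mul, integral_const_mul, hxi, mul_assoc K2,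
    ← Real.exp_add]
  congr 3
  ring

end MoveS

open MeasureTheory ProbabilityTheory in
theorem stMoveS : StMoveS := by
  intro A hA
  obtain ⟨C, hC, hz⟩ := K5.Move.zeta_far
  obtain ⟨T₁, hT₁⟩ := K5.Move.mom4
  set E₀ : ℝ := Real.exp (A ^ 2) with hE
  have hE0 : 0 < E₀ := Real.exp_pos _
  set K₁ : ℝ := 40000 * A * E₀ * C ^ 2 with hK₁
  set K₂ : ℝ := 1600 * E₀ * C ^ 2 with hK₂
  have hK₁0 : 0 < K₁ := by positivity
  have hK₂0 : 0 < K₂ := by positivity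
  obtain ⟨T₂, hT₂3, hT₂⟩ := K5.Move.eventual A (Real.log (2 * K₁ + 2 * K₂)) hA
  refine ⟨max T₁ T₂, hT₂3.trans (le_max_right _ _), fun T hT τ hτ1 hτ2 H hH hHb b hb hb2 => ?_⟩
  obtain ⟨e1, e2, e3, e4, e5, e6, e7⟩ := hT₂ T ((le_max_right _ _).trans hT)
  have hT3 : 3 ≤ T := hT₂3.trans ((le_max_right _ _).trans hT)
  have hm := hT₁ T ((le_max_left _ _).trans hT) τ hτ2
  have hT0 : 0 < T := by linarith
  set L : ℝ := Real.log T with hLdef
  have hL0 : 0 < L := by linarith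
  have hpi := Real.pi_gt_three
  have hX1 : 1 ≤ |τ| / (2 * Real.pi) := by
    rw [le_div_iff₀ (by positivity), one_mul]
    refine le_trans ?_ hτ1
    rwa [le_div_iff₀ hL0]
  have hXT : |τ| / (2 * Real.pi) ≤ T := by
    rw [div_le_iff₀ (by positivity)]
    nlinarith
  have hXA : (|τ| / (2 * Real.pi)) ^ A ≤ T ^ A :=
    Real.rpow_le_rpow (by linarith) hXT (by linarith)
  set l : ℝ := T ^ (-(19 / 20) : ℝ) with hl
  have hl0 : 0 < l := Real.rpow_pos_of_pos hT0 _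
  have key := MoveS.core (T := T) (τ := τ) hC hz hX1 hb hb2 hA e1 hl0.le hH hHb
  refine key.trans ?_
  have hVl : (VV T : ℝ) * l ^ 2 = 1 := by
    rw [VV_coe hT0.le, hl, ← Real.rpow_natCast, ← Real.rpow_mul hT0.le, ← Real.rpow_add hT0]
    norm_num
  have hlT : l * T = T ^ (1 / 20 : ℝ) := by
    rw [hl]; nth_rewrite 2 [← Real.rpow_one T]
    rw [← Real.rpow_add hT0]; norm_num
  have hexp : l * (L + 1) - l * |τ| + VV T * l ^ 2 / 2 ≤
      -((A + 12) * L) - Real.log (2 * K₁ + 2 * K₂) := by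
    have f1 : l * (L + 1) ≤ T ^ (1 / 20 : ℝ) / (2 * L) := by
      rw [le_div_iff₀ (by positivity), ← hlT]
      calc l * (L + 1) * (2 * L) = l * (2 * L * (L + 1)) := by ring
        _ ≤ l * T := by gcongr
    have f2 : T ^ (1 / 20 : ℝ) / (2 * L) + T ^ (1 / 20 : ℝ) / (2 * L) ≤ l * |τ| := by
      calc _ = l * (T / L) := by rw [← hlT]; field_simp; ring
        _ ≤ l * |τ| := by gcongr
    rw [hVl]
    linarith
  have hTA : ∀ b : ℝ, T ^ b = Real.exp (b * L) := by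
    intro b
    rw [Real.rpow_def_of_pos hT0, mul_comm]
  have h1L : 1 + L ≤ T := by linarith
  have h2L : 2 + L ≤ T := by linarith
  have hLT : L ≤ T := by linarith
  have hEK : Real.exp (-Real.log (2 * K₁ + 2 * K₂)) = (2 * K₁ + 2 * K₂)⁻¹ := by
    rw [Real.exp_neg, Real.exp_log (by positivity)]
  have t1 : 2 * A * (2 * ((|τ| / (2 * Real.pi)) ^ A * E₀ * Real.exp (-L ^ 2)) *
      (C ^ 2 * (1 + L) ^ 4)) * T ^ 2 * (∫ t : ℝ, (1 + |t|) ^ 4 ∂(gaussianReal τ (VV T))) ≤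
      T ^ (-1 : ℝ) / 2 := by
    calc _ ≤ 2 * A * (2 * (T ^ A * E₀ * Real.exp (-L ^ 2)) * (C ^ 2 * T ^ 4)) * T ^ 2 *
          (10000 * T ^ 4) := by gcongr
      _ = K₁ * (T ^ A * T ^ 10 * Real.exp (-L ^ 2)) := by rw [hK₁]; ring
      _ = K₁ * Real.exp ((A + 10) * L - L ^ 2) := by
          rw [← Real.rpow_natCast T 10, hTA, hTA, ← Real.exp_add, ← Real.exp_add]
          congr 2
          push_cast
          ring
      _ ≤ K₁ * Real.exp (-1 * L + -Real.log (2 * K₁ + 2 * K₂)) := by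
          gcongr
          nlinarith
      _ = T ^ (-1 : ℝ) * (K₁ * (2 * K₁ + 2 * K₂)⁻¹) := by
          rw [Real.exp_add, hEK, hTA]; ring
      _ ≤ T ^ (-1 : ℝ) * (1 / 2) := by
          gcongr
          rw [← div_eq_mul_inv, div_le_iff₀ (by positivity)]
          linarith
      _ = _ := by ring
  have t2 : 1600 * L * ((|τ| / (2 * Real.pi)) ^ A * E₀) * (C ^ 2 * (1 + L) ^ 4 * (2 + L) ^ 4) *
      T ^ 2 * Real.exp (l * (L + 1) - l * |τ| + VV T * l ^ 2 / 2) ≤ T ^ (-1 : ℝ) / 2 := by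
    calc _ ≤ 1600 * T * (T ^ A * E₀) * (C ^ 2 * T ^ 4 * T ^ 4) * T ^ 2 *
          Real.exp (-((A + 12) * L) - Real.log (2 * K₁ + 2 * K₂)) := by gcongr
      _ = K₂ * (T ^ A * T ^ 11 * Real.exp (-((A + 12) * L) - Real.log (2 * K₁ + 2 * K₂))) := by
          rw [hK₂]; ring
      _ = K₂ * Real.exp (-1 * L + -Real.log (2 * K₁ + 2 * K₂)) := by
          rw [← Real.rpow_natCast T 11, hTA, hTA, ← Real.exp_add, ← Real.exp_add]
          congr 2
          push_cast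
          ring
      _ = T ^ (-1 : ℝ) * (K₂ * (2 * K₁ + 2 * K₂)⁻¹) := by
          rw [Real.exp_add, hEK, hTA]; ring
      _ ≤ T ^ (-1 : ℝ) * (1 / 2) := by
          gcongr
          rw [← div_eq_mul_inv, div_le_iff₀ (by positivity)]
          linarith
      _ = _ := by ring
  linarith

end K9
end Pool.Agent.Lib.MP_973905_nt
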