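import Pool.Agent.Lib.MP_973905_nt.K9.Stmts

/-! (N4) The mean square without mismatch. -/

namespace Pool.Agent.Lib.MP_973905_nt
namespace K9

open MeasureTheory ProbabilityTheory Complex Filter Topology K1 K4 K5

namespace NAAux

/-- the bound of `StCrudeD` for `l = n a` -/
lemma core (a v : ℝ) (n : ℕ) (ha : 0 < a) (hn : 1 ≤ n) (hv : 0 ≤ v)
    (hx : n * a ^ 2 * v ≤ 2 / 5) :
    a ^ 2 * (1 / (1 - ((n : ℝ) - 1) * a ^ 2 * v)) *
        Real.exp ((n * a - ((n : ℝ) - 1) * a) ^ 2 * v / (1 - ((n : ℝ) - 1) * a ^ 2 * v)) *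
        (((n : ℝ) - n * a / a + n * a * (n * a - ((n : ℝ) - 1) * a) * v /
          (1 - ((n : ℝ) - 1) * a ^ 2 * v)) ^ 2 +
          (n * a) ^ 2 * v / (1 - ((n : ℝ) - 1) * a ^ 2 * v)) ≤
      n * a ^ 2 * ((n * a ^ 2 * v) / (1 - n * a ^ 2 * v) ^ 2) := by
  have hav : 0 ≤ a ^ 2 * v := by positivity
  set D : ℝ := 1 - ((n : ℝ) - 1) * a ^ 2 * v with hD
  set w : ℝ := 1 - n * a ^ 2 * v with hw
  have hDw : D = w + a ^ 2 * v := by rw [hD, hw]; ring
  have hw0 : 0 < w := by rw [hw]; linarith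
  have hD0 : 0 < D := by rw [hDw]; linarith
  set u : ℝ := a ^ 2 * v / D with hu
  have hu0 : 0 ≤ u := div_nonneg hav hD0.le
  have huD : u * D = a ^ 2 * v := div_mul_cancel₀ _ hD0.ne'
  have hu1 : u < 1 := by
    rw [hu, div_lt_one hD0]; linarith
  have e1 : (n * a - ((n : ℝ) - 1) * a) ^ 2 * v / D = u := by
    rw [hu]; congr 1; ring
  have e2 : (n : ℝ) - n * a / a = 0 := by
    rw [mul_div_assoc, div_self ha.ne']; ring
  have e3 : n * a * (n * a - ((n : ℝ) - 1) * a) * v / D = n * u := by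
    rw [hu]; ring
  have e4 : (n * a) ^ 2 * v / D = n ^ 2 * u := by
    rw [hu]; ring
  rw [e1, e2, e3, e4]
  have h1 : (1 - u) * Real.exp u ≤ 1 := by
    have h2 := Real.add_one_le_exp (-u)
    have h3 : Real.exp (-u) * Real.exp u = 1 := by rw [← Real.exp_add]; simp
    have h4 := mul_le_mul_of_nonneg_right h2 (Real.exp_pos u).le
    rw [h3] at h4
    linarith
  have hwD : w = D * (1 - u) := by
    have : D * (1 - u) = D - u * D := by ring
    rw [this, huD, hDw]; ring
  have h5 : (1 + u) * Real.exp u * w ^ 2 ≤ D ^ 2 := by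
    rw [hwD]
    have h6 : (1 + u) * Real.exp u * (D * (1 - u)) ^ 2 =
        D ^ 2 * ((1 - u ^ 2) * ((1 - u) * Real.exp u)) := by ring
    rw [h6]
    have h7 : (1 - u ^ 2) * ((1 - u) * Real.exp u) ≤ 1 * 1 := by
      refine mul_le_mul (by nlinarith) h1 ?_ zero_le_one
      exact mul_nonneg (by linarith) (Real.exp_pos u).le
    nlinarith [sq_nonneg D]
  have h8 : a ^ 2 * (1 / D) * Real.exp u * ((0 + n * u) ^ 2 + n ^ 2 * u) =
      n * a ^ 2 * (n * a ^ 2 * v) * (((1 + u) * Real.exp u) / D ^ 2) := by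
    have h9 : a ^ 2 * v = u * D := huD.symm
    have h10 : n * a ^ 2 * (n * a ^ 2 * v) * (((1 + u) * Real.exp u) / D ^ 2) =
        (n : ℝ) ^ 2 * a ^ 2 * (a ^ 2 * v) * (((1 + u) * Real.exp u) / D ^ 2) := by ring
    rw [h10, h9]
    field_simp
    ring
  rw [h8]
  have h11 : (1 + u) * Real.exp u / D ^ 2 ≤ 1 / w ^ 2 := by
    rw [div_le_div_iff₀ (by positivity) (by positivity)]
    linarith
  calc n * a ^ 2 * (n * a ^ 2 * v) * (((1 + u) * Real.exp u) / D ^ 2)
      ≤ n * a ^ 2 * (n * a ^ 2 * v) * (1 / w ^ 2) :=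
        mul_le_mul_of_nonneg_left h11 (by positivity)
    _ = n * a ^ 2 * ((n * a ^ 2 * v) / w ^ 2) := by ring

/-- the primitive -/
noncomputable def prim (x : ℝ) : ℝ := x / (1 - x) + Real.log (1 - x)

lemma prim_zero : prim 0 = 0 := by simp [prim]

lemma hasDerivAt_prim (κ v : ℝ) (h : κ * v < 1) :
    HasDerivAt (fun v : ℝ => prim (κ * v)) (κ * ((κ * v) / (1 - κ * v) ^ 2)) v := by
  have h0 : (1 - κ * v) ≠ 0 := by linarith
  have h1 : HasDerivAt (fun v : ℝ => κ * v) κ v := by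
    simpa using (hasDerivAt_id v).const_mul κ
  have h2 : HasDerivAt (fun v : ℝ => 1 - κ * v) (-κ) v := by
    simpa using h1.const_sub 1
  have h3 := (h1.div h2 h0).add (h2.log h0)
  refine h3.congr_deriv ?_
  field_simp
  ring

/-- the primitive is at most `x²` -/
lemma prim_le (x : ℝ) (h0 : 0 ≤ x) (h1 : x ≤ 2 / 5) : prim x ≤ x ^ 2 := by
  have h2 : HasSum (fun i : ℕ => x ^ (i + 1) / ((i : ℝ) + 1)) (-Real.log (1 - x)) :=
    Real.hasSum_pow_div_log_of_abs_lt_one (by rw [abs_of_nonneg h0]; linarith)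
  have h3 := sum_le_hasSum (Finset.range 5) (fun i _ => by positivity) h2
  simp only [Finset.sum_range_succ, Finset.sum_range_zero] at h3
  norm_num at h3
  have h4 : x / (1 - x) ≤ x ^ 2 + (x + x ^ 2 / 2 + x ^ 3 / 3 + x ^ 4 / 4 + x ^ 5 / 5) := by
    rw [div_le_iff₀ (by linarith)]
    have h5 : (x ^ 2 + (x + x ^ 2 / 2 + x ^ 3 / 3 + x ^ 4 / 4 + x ^ 5 / 5)) * (1 - x) - x =
        x ^ 2 * (1 / 2 - (7 / 6 * x + x ^ 2 / 12 + x ^ 3 / 20 + x ^ 4 / 5)) := by ring
    have h6 : x ^ 2 ≤ (2 / 5) ^ 2 := pow_le_pow_left₀ h0 h1 2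
    have h7 : x ^ 3 ≤ (2 / 5) ^ 3 := pow_le_pow_left₀ h0 h1 3
    have h8 : x ^ 4 ≤ (2 / 5) ^ 4 := pow_le_pow_left₀ h0 h1 4
    have h9 : 0 ≤ 1 / 2 - (7 / 6 * x + x ^ 2 / 12 + x ^ 3 / 20 + x ^ 4 / 5) := by
      norm_num at h6 h7 h8
      linarith
    have h10 := mul_nonneg (sq_nonneg x) h9
    linarith
  unfold prim
  linarith

end NAAux

open NAAux in
theorem stNA (h : StCrudeD) : StNA := by
  intro a V n ha hn hV hx
  have hn1 : (1 : ℝ) ≤ n := by exact_mod_cast hn
  set κ : ℝ := n * a ^ 2 with hκ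
  have hκ0 : 0 ≤ κ := by positivity
  have hle : ∀ v, v ≤ V → κ * v ≤ 2 / 5 := fun v hv =>
    (mul_le_mul_of_nonneg_left hv hκ0).trans hx
  have hd : ∀ v, 0 ≤ v → v ≤ V → ((n : ℝ) - 1) * a ^ 2 * v < 1 := by
    intro v hv0 hv
    have h1 := hle v hv
    have h2 : 0 ≤ a ^ 2 * v := by positivity
    have h3 : ((n : ℝ) - 1) * a ^ 2 * v = κ * v - a ^ 2 * v := by rw [hκ]; ring
    rw [h3]; linarith
  have hs := (h a (n * a) V n ha hn hV (hd V hV le_rfl)).1
  refine ⟨hs, ?_⟩
  -- the bound for the partial sums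
  have key : ∀ J : ℕ, ∑ j ∈ Finset.range J, K8.dcf a (n * a) n j ^ 2 * (j.factorial : ℝ) * V ^ j ≤
      1 + prim (κ * V) := by
    intro J
    rcases Nat.eq_zero_or_pos J with rfl | hJ
    · rw [Finset.sum_range_zero]
      have hm : MonotoneOn (fun v : ℝ => prim (κ * v)) (Set.Icc 0 V) := by
        refine monotoneOn_of_deriv_nonneg (convex_Icc 0 V) ?_ ?_ ?_
        · exact fun v hv => (hasDerivAt_prim κ v (by linarith [hle v hv.2])).continuousAt.continuousWithinAt
        · rw [interior_Icc]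
          exact fun v hv =>
            (hasDerivAt_prim κ v (by linarith [hle v hv.2.le])).differentiableAt.differentiableWithinAt
        · rw [interior_Icc]
          intro v hv
          rw [(hasDerivAt_prim κ v (by linarith [hle v hv.2.le])).deriv]
          have := hv.1.le
          positivity
      have h1 := hm (Set.left_mem_Icc.mpr hV) (Set.right_mem_Icc.mpr hV) hV
      simp only [mul_zero, prim_zero] at h1
      linarith
    · obtain ⟨K, rfl⟩ : ∃ K, J = K + 1 := ⟨J - 1, by omega⟩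
      set c : ℕ → ℝ := fun j => K8.dcf a (n * a) n j with hc
      have hderiv : ∀ v : ℝ, HasDerivAt
          (fun v : ℝ => ∑ j ∈ Finset.range (K + 1), c j ^ 2 * (j.factorial : ℝ) * v ^ j)
          (∑ j ∈ Finset.range K, ((j + 1 : ℕ) : ℝ) ^ 2 * c (j + 1) ^ 2 * (j.factorial : ℝ) * v ^ j)
          v := by
        intro v
        have h1 : HasDerivAt
            (fun v : ℝ => ∑ j ∈ Finset.range (K + 1), c j ^ 2 * (j.factorial : ℝ) * v ^ j)
            (∑ j ∈ Finset.range (K + 1), c j ^ 2 * (j.factorial : ℝ) * (j * v ^ (j - 1))) v := by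
          apply HasDerivAt.fun_sum
          intro j _
          exact (hasDerivAt_pow j v).const_mul _
        refine h1.congr_deriv ?_
        rw [Finset.sum_range_succ']
        simp only [CharP.cast_eq_zero, zero_mul, mul_zero, add_zero]
        refine Finset.sum_congr rfl fun j _ => ?_
        rw [Nat.factorial_succ, Nat.add_sub_cancel]
        push_cast
        ring
      have hm : MonotoneOn (fun v : ℝ => prim (κ * v) -
          ∑ j ∈ Finset.range (K + 1), c j ^ 2 * (j.factorial : ℝ) * v ^ j) (Set.Icc 0 V) := by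
        have hda : ∀ v, v ≤ V → HasDerivAt (fun v : ℝ => prim (κ * v) -
            ∑ j ∈ Finset.range (K + 1), c j ^ 2 * (j.factorial : ℝ) * v ^ j)
            (κ * ((κ * v) / (1 - κ * v) ^ 2) - ∑ j ∈ Finset.range K,
              ((j + 1 : ℕ) : ℝ) ^ 2 * c (j + 1) ^ 2 * (j.factorial : ℝ) * v ^ j) v := fun v hv =>
          (hasDerivAt_prim κ v (by linarith [hle v hv])).sub (hderiv v)
        refine monotoneOn_of_deriv_nonneg (convex_Icc 0 V) ?_ ?_ ?_
        · exact fun v hv => (hda v hv.2).continuousAt.continuousWithinAt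
        · rw [interior_Icc]
          exact fun v hv => (hda v hv.2.le).differentiableAt.differentiableWithinAt
        · rw [interior_Icc]
          intro v hv
          rw [(hda v hv.2.le).deriv]
          obtain ⟨-, h2, h3⟩ := h a (n * a) v n ha hn hv.1.le (hd v hv.1.le hv.2.le)
          have h4 := h2.sum_le_tsum (Finset.range K) (fun j _ => by
            have := hv.1.le
            positivity)
          have h5 := core a v n ha hn hv.1.le (hle v hv.2.le)
          have h6 := h4.trans (h3.trans h5)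
          rw [sub_nonneg]
          exact h6
      have h1 := hm (Set.left_mem_Icc.mpr hV) (Set.right_mem_Icc.mpr hV) hV
      simp only [mul_zero, prim_zero] at h1
      have h2 : ∑ j ∈ Finset.range (K + 1), c j ^ 2 * (j.factorial : ℝ) * (0 : ℝ) ^ j = 1 := by
        rw [Finset.sum_range_succ']
        simp [hc, K8.dcf]
      rw [h2] at h1
      change ∑ j ∈ Finset.range (K + 1), c j ^ 2 * (j.factorial : ℝ) * V ^ j ≤ _
      linarith
  have h1 := hs.tsum_le_of_sum_range_le key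
  have h2 := prim_le (κ * V) (by positivity) hx
  linarith

end K9
end Pool.Agent.Lib.MP_973905_nt
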