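import Pool.Agent.Lib.MP_973905_nt.K9.Stmts

/-! The final numerical inequality, `k ≤ 1/4` (K9, module N12). -/

namespace Pool.Agent.Lib.MP_973905_nt
namespace K9

open MeasureTheory ProbabilityTheory Complex Filter Topology K1 K4 K5

namespace NumA

/-- `e⁻³ ≤ 1/20` -/
lemma exp3 : (20 : ℝ) ≤ Real.exp 3 := by
  have h := Real.exp_one_gt_d9
  have h1 : Real.exp 3 = Real.exp 1 ^ 3 := by
    rw [← Real.exp_nat_mul]; norm_num
  rw [h1]
  have h2 : (2.718 : ℝ) ^ 3 ≤ Real.exp 1 ^ 3 := by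
    apply pow_le_pow_left₀ (by norm_num)
    linarith
  norm_num at h2 ⊢
  linarith

/-- `(y + 1) e^{-y} ≤ 1/5` for `3 ≤ y` -/
lemma yexp {y : ℝ} (hy : 3 ≤ y) : (y + 1) * Real.exp (-y) ≤ 1 / 5 := by
  have h1 : Real.exp y = Real.exp 3 * Real.exp (y - 3) := by
    rw [← Real.exp_add]; congr 1; ring
  have h2 : y - 2 ≤ Real.exp (y - 3) := by
    have := Real.add_one_le_exp (y - 3)
    linarith
  have h3 : 5 * (y + 1) ≤ Real.exp y := by
    rw [h1]
    have := mul_le_mul exp3 h2 (by linarith) (by linarith [exp3])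
    linarith
  rw [Real.exp_neg, ← div_eq_mul_inv, div_le_iff₀ (Real.exp_pos y)]
  linarith

/-- `vo ≤ 1/3` -/
lemma vo_le {x : ℝ} (hx : 3 ≤ x) : Real.exp (-(x * Real.exp (-1))) ≤ 1 / 3 := by
  have h := Real.exp_one_lt_d9
  have h0 := Real.exp_one_gt_d9
  have h1 : (11 / 10 : ℝ) ≤ x * Real.exp (-1) := by
    rw [Real.exp_neg, ← div_eq_mul_inv, le_div_iff₀ (by linarith)]
    linarith
  have h2 : (3 : ℝ) ≤ Real.exp (11 / 10) := by
    have := Real.sum_le_exp_of_nonneg (show (0 : ℝ) ≤ 11 / 10 by norm_num) 6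
    simp [Finset.sum_range_succ, Nat.factorial] at this
    norm_num at this
    linarith
  have h3 : (3 : ℝ) ≤ Real.exp (x * Real.exp (-1)) := h2.trans (Real.exp_le_exp.2 h1)
  rw [Real.exp_neg, ← one_div]
  exact one_div_le_one_div_of_le (by norm_num) h3

lemma log6 : Real.log 6 ≤ Real.log 4 + 1 / 2 := by
  have h1 : Real.log 6 = Real.log 4 + Real.log (3 / 2) := by
    rw [← Real.log_mul (by norm_num) (by norm_num)]; norm_num
  have h2 := Real.log_le_sub_one_of_pos (show (0 : ℝ) < 3 / 2 by norm_num)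
  linarith

end NumA

open NumA in
theorem stNumA (h1 : StE1) (h2 : StGu9) : StNumA := by
  intro k hk hk4
  obtain ⟨-, -, -, hE⟩ := h1
  have hk1 : k < 1 := by linarith
  have hG := (h2 k hk hk1).1 (by linarith)
  have hq : 0 < barnesG (k + 1) ^ 2 / barnesG (2 * k + 1) :=
    div_pos (pow_pos (barnesG_pos (by linarith)) 2) (barnesG_pos (by linarith))
  have hG' : Real.log (barnesG (k + 1) ^ 2 / barnesG (2 * k + 1)) ≤ k ^ 2 * (79 / 50 - 2 * k) :=
    (Real.log_le_iff_le_exp hq).2 hG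
  -- the values
  obtain ⟨n, hn⟩ : ∃ n : ℕ, ⌈1 / k⌉₊ = n := ⟨_, rfl⟩
  have hn1 : 1 / k ≤ n := by rw [← hn]; exact Nat.le_ceil _
  have hn2 : (n : ℝ) < 1 / k + 1 := by rw [← hn]; exact Nat.ceil_lt_add_one (by positivity)
  have hk4' : 4 ≤ 1 / k := by
    rw [le_div_iff₀ hk]; linarith
  have hn0 : (0 : ℝ) < n := by linarith
  have hni : (1 : ℝ) / n ≤ k := by
    rw [div_le_iff₀ hn0]
    rw [div_le_iff₀ hk] at hn1
    linarith
  have hxo : xo k = 1 / k - 1 := by simp only [xo, if_pos hk4]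
  have hcD : cD k = n := by simp only [cD, if_pos hk4, hn]
  have hcD' : cD' k = n := by simp only [cD', if_pos hk4, hn]
  have hcE : cE k = 1 := by simp only [cE, if_pos hk4]
  have hcE' : cE' k = 1 := by simp only [cE', if_pos hk4]
  have hth : th k = 1 / (6 * n) := by simp only [th, if_pos hk4, hcD]
  have hx3 : 3 ≤ xo k := by rw [hxo]; linarith
  -- first term
  have hT1 : Real.log (xo k / th k) ≤ 1 / 2 + (4 * k - 1) - 3 * Real.log k := by
    have ha : xo k / th k ≤ 6 / k ^ 2 := by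
      rw [hth, hxo]
      have : (1 / k - 1) / (1 / (6 * (n : ℝ))) = (1 / k - 1) * (6 * n) := by
        field_simp
      rw [this]
      have hb : (1 / k - 1) * (6 * (n : ℝ)) ≤ (1 / k - 1) * (6 * (1 / k + 1)) := by
        apply mul_le_mul_of_nonneg_left _ (by linarith)
        linarith
      refine hb.trans ?_
      have hc : (6 : ℝ) / k ^ 2 = (1 / k - 1) * (6 * (1 / k + 1)) + 6 := by
        field_simp
        ring
      rw [hc]
      linarith
    have hth0 : 0 < th k := by rw [hth]; positivity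
    have hb := Real.log_le_log (div_pos (by linarith) hth0) ha
    rw [Real.log_div (x := 6) (by norm_num) (pow_ne_zero 2 hk.ne'), Real.log_pow] at hb
    have hc := Real.log_le_sub_one_of_pos (show (0 : ℝ) < 4 * k by linarith)
    rw [Real.log_mul (by norm_num) hk.ne'] at hc
    have hd := log6
    push_cast at hb
    linarith
  -- second term
  have hT2 : (k ^ 2 + 1 - k) * E1 (xo k) ≤ k ^ 2 * (13 / 60) := by
    have ha := (hE (xo k) (by linarith)).2
    have hb := yexp hx3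
    have hc : Real.exp (-xo k) / xo k ≤ k ^ 2 / (5 * (1 - k)) := by
      have h5 : xo k + 1 = 1 / k := by rw [hxo]; ring
      rw [h5] at hb
      have h6 : Real.exp (-xo k) ≤ k / 5 := by
        have : Real.exp (-xo k) = k * (1 / k * Real.exp (-xo k)) := by
          field_simp
        rw [this]
        have := mul_le_mul_of_nonneg_left hb hk.le
        linarith
      have h7 : xo k = (1 - k) / k := by rw [hxo]; field_simp
      rw [div_le_iff₀ (by linarith)]
      have h8 : k ^ 2 / (5 * (1 - k)) * xo k = k / 5 := by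
        rw [h7]
        have : (1 - k) ≠ 0 := by linarith
        field_simp
      rw [h8]
      exact h6
    have hd : (k ^ 2 + 1 - k) * E1 (xo k) ≤ (k ^ 2 + 1 - k) * (k ^ 2 / (5 * (1 - k))) :=
      mul_le_mul_of_nonneg_left (ha.trans hc) (by nlinarith)
    refine hd.trans ?_
    have he : (k ^ 2 + 1 - k) * (k ^ 2 / (5 * (1 - k))) =
        k ^ 2 * ((k ^ 2 + 1 - k) / (5 * (1 - k))) := by ring
    rw [he]
    apply mul_le_mul_of_nonneg_left _ (by positivity)
    rw [div_le_iff₀ (by linarith)]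
    nlinarith
  -- third term
  have hv := vo_le hx3
  have hv0 := Real.exp_pos (-(xo k * Real.exp (-1)))
  have hT3 : LamB k ≤ k ^ 2 * (7 / 9 + 3 / 4 * k) := by
    have hLam : LamB k = (1 - k) ^ 4 * (1 + k) * (vo k ^ 2 / n ^ 2 + 1 / (n * (n + n / 2))) +
        2 * k ^ 3 * (vo k ^ 2 + 2 / 3) + 3 / 4 * k ^ 3 * (vo k + 2 / 3) := by
      unfold LamB
      rw [hcD, hcD', hcE, hcE']
      norm_num
    change vo k ≤ 1 / 3 at hv
    change 0 < vo k at hv0
    have hv2 : vo k ^ 2 ≤ 1 / 9 := by nlinarith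
    have ha : vo k ^ 2 / (n : ℝ) ^ 2 + 1 / ((n : ℝ) * (n + n / 2)) ≤ k ^ 2 * (7 / 9) := by
      have : vo k ^ 2 / (n : ℝ) ^ 2 + 1 / ((n : ℝ) * (n + n / 2)) =
          (1 / n) ^ 2 * (vo k ^ 2 + 2 / 3) := by
        field_simp
        ring
      rw [this]
      have h5 : ((1 : ℝ) / n) ^ 2 ≤ k ^ 2 := pow_le_pow_left₀ (by positivity) hni 2
      exact mul_le_mul h5 (by linarith) (by positivity) (by positivity)
    have hp : (1 - k) ^ 4 * (1 + k) ≤ 1 - 2 * k := by
      have h5 : (1 - k) ^ 4 * (1 + k) = (1 - k) ^ 3 * (1 - k ^ 2) := by ring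
      have h6 : (1 - k) ^ 3 * (1 - k ^ 2) ≤ (1 - k) ^ 3 := by
        have : 0 ≤ (1 - k) ^ 3 := by
          apply pow_nonneg; linarith
        nlinarith
      have h7 : (1 - k) ^ 3 ≤ 1 - 2 * k := by nlinarith [mul_pos hk hk]
      linarith
    have hp0 : 0 ≤ (1 - k) ^ 4 * (1 + k) := by
      apply mul_nonneg (pow_nonneg (by linarith) 4) (by linarith)
    have hb : (1 - k) ^ 4 * (1 + k) * (vo k ^ 2 / (n : ℝ) ^ 2 + 1 / ((n : ℝ) * (n + n / 2))) ≤
        (1 - 2 * k) * (k ^ 2 * (7 / 9)) :=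
      mul_le_mul hp ha (by positivity) (by linarith)
    have hc : 2 * k ^ 3 * (vo k ^ 2 + 2 / 3) ≤ 2 * k ^ 3 * (7 / 9) := by
      apply mul_le_mul_of_nonneg_left _ (by positivity)
      linarith
    have hd : 3 / 4 * k ^ 3 * (vo k + 2 / 3) ≤ 3 / 4 * k ^ 3 * 1 := by
      apply mul_le_mul_of_nonneg_left _ (by positivity)
      linarith
    rw [hLam]
    linarith
  -- conclusion
  unfold FinI
  have hT1' := mul_le_mul_of_nonneg_left hT1 (sq_nonneg k)
  have hfin : k ^ 2 * (1 / 2 + (4 * k - 1) - 3 * Real.log k) + k ^ 2 * (13 / 60) +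
      k ^ 2 * (7 / 9 + 3 / 4 * k) + k ^ 2 * (79 / 50 - 2 * k) ≤
      3 * k ^ 2 * (1 - Real.log k) := by
    have h5 : 3 * k ^ 2 * (1 - Real.log k) - (k ^ 2 * (1 / 2 + (4 * k - 1) - 3 * Real.log k) +
        k ^ 2 * (13 / 60) + k ^ 2 * (7 / 9 + 3 / 4 * k) + k ^ 2 * (79 / 50 - 2 * k)) =
        k ^ 2 * (3 + 1 / 2 - 13 / 60 - 7 / 9 - 79 / 50 - (11 / 4) * k) := by ring
    have h6 : 0 ≤ k ^ 2 * (3 + 1 / 2 - 13 / 60 - 7 / 9 - 79 / 50 - (11 / 4) * k) := by
      apply mul_nonneg (sq_nonneg k)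
      linarith
    linarith
  linarith

end K9
end Pool.Agent.Lib.MP_973905_nt
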