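import Pool.Agent.Lib.MP_973905_nt.K9.Stmts

/-! Module (N13): the final numerical inequality on the second interval `1/4 < k ≤ 1/2`. -/

namespace Pool.Agent.Lib.MP_973905_nt
namespace K9

open MeasureTheory ProbabilityTheory Complex Filter Topology K1 K4 K5

namespace NumBAux

/-- the bound for the first variance -/
lemma vo_le {k : ℝ} (h : xo k = 9 / 5) : 0 < vo k ∧ vo k ≤ 5158 / 10000 := by
  refine ⟨Real.exp_pos _, ?_⟩
  unfold vo
  rw [h]
  have h1 := Real.exp_neg_one_gt_d9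
  have h2 : -(9 / 5 * Real.exp (-1)) ≤ -(66218 / 100000 : ℝ) := by linarith
  have h3 : (19388 / 10000 : ℝ) ≤ Real.exp (66218 / 100000) := by
    refine le_trans ?_ (Real.sum_le_exp_of_nonneg (by norm_num) 6)
    norm_num [Finset.sum_range_succ, Nat.factorial]
  calc Real.exp (-(9 / 5 * Real.exp (-1))) ≤ Real.exp (-(66218 / 100000 : ℝ)) :=
        Real.exp_le_exp.2 h2
    _ = (Real.exp (66218 / 100000))⁻¹ := Real.exp_neg _
    _ ≤ (19388 / 10000 : ℝ)⁻¹ := inv_anti₀ (by norm_num) h3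
    _ ≤ 5158 / 10000 := by norm_num

/-- the polynomial inequality -/
lemma poly {k : ℝ} (h1 : 1 / 4 ≤ k) (h2 : k ≤ 1 / 2) :
    (1 - k) ^ 4 * (1 + k) * (10364 / 100000) + 68808 / 100000 * k ^ 3 +
      4757 / 1000 * k ^ 3 + 7 / 100 - 7 / 100 * k ≤ 3051 / 1000 * k ^ 2 := by
  have hc : (1 - k) ^ 4 * (1 + k) ≤ 6973 / 10000 - 12070 / 10000 * k := by
    have h3 : 0 ≤ (k - 1 / 4) * (1 / 2 - k) := mul_nonneg (by linarith) (by linarith)
    have h4 : 0 ≤ (k - 1 / 4) * (1 / 2 - k) * (k - 1 / 4) := mul_nonneg h3 (by linarith)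
    have h5 : 0 ≤ (k - 1 / 4) * (1 / 2 - k) * (k - 1 / 4) ^ 2 := mul_nonneg h3 (sq_nonneg _)
    have h6 : 0 ≤ (k - 1 / 4) * (1 / 2 - k) * (1 / 2 - k) := mul_nonneg h3 (by linarith)
    have h7 : 0 ≤ (k - 1 / 4) * (1 / 2 - k) * (k - 1 / 4) ^ 2 * (1 / 2 - k) :=
      mul_nonneg h5 (by linarith)
    have h8 : 0 ≤ (k - 1 / 4) * (1 / 2 - k) * (1 / 2 - k) ^ 2 := mul_nonneg h3 (sq_nonneg _)
    nlinarith
  have h3 : 0 ≤ (k - 1 / 4) * (1 / 2 - k) := mul_nonneg (by linarith) (by linarith)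
  have h4 : 0 ≤ (k - 1 / 4) * (1 / 2 - k) * (k - 1 / 4) := mul_nonneg h3 (by linarith)
  nlinarith

end NumBAux

open NumBAux in
theorem stNumB (h1 : StE1) (h2 : StGu9) : StNumB := by
  intro k hk1 hk2
  have hk0 : 0 < k := by linarith
  have n1 : ¬ k ≤ 1 / 4 := not_le.2 hk1
  have hxo : xo k = 9 / 5 := by unfold xo; rw [if_neg n1, if_pos hk2]
  have hcD : cD k = 3 := by unfold cD; rw [if_neg n1, if_pos hk2]
  have hcD' : cD' k = 3 := by unfold cD'; rw [if_neg n1, if_pos hk2]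
  have hcE : cE k = 2 := by unfold cE; rw [if_neg n1, if_pos hk2]
  have hcE' : cE' k = 2 := by unfold cE'; rw [if_neg n1, if_pos hk2]
  have hth : th k = 93 / 100 * k / (9091 / 1000 * k + 5006 / 1000) := by
    unfold th
    rw [if_neg n1, hcD, hcD', hcE, hcE']
    push_cast
    congr 1
    ring
  obtain ⟨v0, v1⟩ := vo_le hxo
  have v2 : vo k ^ 2 ≤ 26605 / 100000 := by nlinarith
  have hLam : LamB k = (1 - k) ^ 4 * (1 + k) * (vo k ^ 2 / 9 + 2 / 27) +
      2 * k ^ 3 * (vo k ^ 2 / 4 + 1 / 6) + 3 / 4 * k ^ 3 * (vo k / 4 + 1 / 6) := by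
    unfold LamB
    rw [hcD, hcD', hcE, hcE']
    push_cast
    norm_num
  have hk3 : 0 < k ^ 3 := pow_pos hk0 3
  have hA0 : 0 ≤ (1 - k) ^ 4 * (1 + k) := by positivity
  have hLam2 : LamB k ≤ (1 - k) ^ 4 * (1 + k) * (10364 / 100000) + 68808 / 100000 * k ^ 3 := by
    rw [hLam]
    have a1 : (1 - k) ^ 4 * (1 + k) * (vo k ^ 2 / 9 + 2 / 27) ≤
        (1 - k) ^ 4 * (1 + k) * (10364 / 100000) :=
      mul_le_mul_of_nonneg_left (by linarith) hA0
    have a2 : 2 * k ^ 3 * (vo k ^ 2 / 4 + 1 / 6) ≤ 2 * k ^ 3 * (23318 / 100000) :=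
      mul_le_mul_of_nonneg_left (by linarith) (by positivity)
    have a3 : 3 / 4 * k ^ 3 * (vo k / 4 + 1 / 6) ≤ 3 / 4 * k ^ 3 * (29562 / 100000) :=
      mul_le_mul_of_nonneg_left (by linarith) (by positivity)
    linarith
  -- the logarithm of the ratio
  set U : ℝ := 9 / 5 * (9091 / 1000 * k + 5006 / 1000) / (93 / 100) with hU
  have hU0 : 0 < U := by positivity
  have hratio : xo k / th k = U / k := by
    rw [hxo, hth, hU]
    field_simp
  have hlog1 : Real.log (xo k / th k) = Real.log U - Real.log k := by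
    rw [hratio, Real.log_div hU0.ne' hk0.ne']
  have hlogU : Real.log U ≤ 4 * Real.log 2 + (U / 16 - 1) := by
    have b1 := Real.log_le_sub_one_of_pos (show 0 < U / 16 by positivity)
    rw [Real.log_div hU0.ne' (by norm_num)] at b1
    have b2 : Real.log 16 = 4 * Real.log 2 := by
      rw [show (16 : ℝ) = 2 ^ 4 by norm_num, Real.log_pow]
      norm_num
    rw [b2] at b1
    linarith
  have hlogk : 2 * Real.log k ≤ 2 * (28285 / 10000 * k - 1) - 3 * Real.log 2 := by
    have r0 : (0 : ℝ) < √8 := Real.sqrt_pos.2 (by norm_num)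
    have r1 : √8 ≤ 28285 / 10000 := by
      rw [Real.sqrt_le_left (by norm_num)]
      norm_num
    have b1 := Real.log_le_sub_one_of_pos (show 0 < √8 * k by positivity)
    rw [Real.log_mul r0.ne' hk0.ne'] at b1
    have b2 : Real.log (√8) = 3 / 2 * Real.log 2 := by
      rw [Real.log_sqrt (by norm_num), show (8 : ℝ) = 2 ^ 3 by norm_num, Real.log_pow]
      push_cast
      ring
    rw [b2] at b1
    have b3 : √8 * k ≤ 28285 / 10000 * k := mul_le_mul_of_nonneg_right r1 hk0.le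
    linarith
  have hl2 := Real.log_two_lt_d9
  have hS : Real.log U + 2 * Real.log k ≤ -(17012 / 10000) + 6757 / 1000 * k := by
    have : U / 16 = (9 / 5 * 9091 / 1000 / (93 / 100) / 16) * k +
        9 / 5 * 5006 / 1000 / (93 / 100) / 16 := by
      rw [hU]; ring
    rw [this] at hlogU
    norm_num at hlogU
    linarith
  -- the Barnes quotient
  have g1 : 0 < barnesG (k + 1) := barnesG_pos (by linarith)
  have g2 : 0 < barnesG (2 * k + 1) := barnesG_pos (by linarith)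
  have hG : Real.log (barnesG (k + 1) ^ 2 / barnesG (2 * k + 1)) ≤ k ^ 2 * (79 / 50 - 2 * k) := by
    rw [Real.log_le_iff_le_exp (by positivity)]
    exact (h2 k hk0 (by linarith)).1 hk2
  -- the exponential integral
  have hE : (k ^ 2 + 1 - k) * E1 (xo k) ≤ (k ^ 2 + 1 - k) * (7 / 100) := by
    rw [hxo]
    exact mul_le_mul_of_nonneg_left h1.1 (by nlinarith)
  have hp := poly hk1.le hk2
  have hkk : 0 < k ^ 2 := pow_pos hk0 2
  have hS2 := mul_le_mul_of_nonneg_left hS hkk.le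
  unfold FinI
  rw [hlog1]
  nlinarith

end K9
end Pool.Agent.Lib.MP_973905_nt
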