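import Pool.Agent.Lib.MP_973905_nt.K9.Stmts

/-! (N14) The final inequality for `1/2 < k ≤ 3/4`. -/

namespace Pool.Agent.Lib.MP_973905_nt
namespace K9

open MeasureTheory ProbabilityTheory Complex Filter Topology K1 K4 K5
open Pool.Agent.Lib.MP_973905_nt.CK

namespace NumCAux

/-- the polynomial inequality -/
lemma poly (k : ℝ) (h1 : 1 / 2 ≤ k) (h2 : k ≤ 3 / 4) :
    k ^ 2 * (54 / 25 + (2 * k - 1) / 4 + 2 * (-(1 / 2) + (k - 3 / 5) * (5 / 3)) + 27 / 25 - k - 3) +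
      8 / 25 * (k ^ 2 + 1 - k) +
      ((1 - k) ^ 4 * (1 + k) * (9 / 16 + 1 / 4) +
        2 * k ^ 3 * (1 / 16 + 2 / 27) + 3 / 4 * k ^ 3 * (1 / 12 + 2 / 27)) ≤ 0 := by
  have h3 : (1 - k) ^ 4 ≤ 1 / 4 * (1 - k) ^ 2 := by
    have h4 : (1 - k) ^ 2 ≤ 1 / 4 := by nlinarith
    nlinarith [sq_nonneg (1 - k)]
  have h5 : (1 - k) ^ 4 * (1 + k) ≤ 1 / 4 * (1 - k) ^ 2 * (1 + k) :=
    mul_le_mul_of_nonneg_right h3 (by linarith)
  have h6 : 0 ≤ (k - 1 / 2) * (3 / 4 - k) := mul_nonneg (by linarith) (by linarith)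
  have h7 : 0 ≤ (k - 1 / 2) * (3 / 4 - k) * (k - 1 / 2) := mul_nonneg h6 (by linarith)
  nlinarith

/-- `exp (-0.8/e) ≤ 3/4` -/
lemma vo_le : Real.exp (-(4 / 5 * Real.exp (-1))) ≤ 3 / 4 := by
  have h0 : (2942 : ℝ) / 10000 ≤ 4 / 5 * Real.exp (-1) := by
    have h1 : (36788 : ℝ) / 100000 - 1 / 100000 ≤ Real.exp (-1) := by
      rw [Real.exp_neg, le_inv_comm₀ (by norm_num) (Real.exp_pos _)]
      have := Real.exp_one_lt_d9
      norm_num
      linarith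
    linarith
  have h1 : Real.exp (-(4 / 5 * Real.exp (-1))) ≤ Real.exp (-(2942 / 10000)) :=
    Real.exp_le_exp.mpr (by linarith)
  refine h1.trans ?_
  rw [Real.exp_neg, inv_le_comm₀ (Real.exp_pos _) (by norm_num)]
  have h2 := Real.quadratic_le_exp_of_nonneg (show (0 : ℝ) ≤ 2942 / 10000 by norm_num)
  norm_num at h2 ⊢
  linarith

/-- `log (3/5) ≤ -1/2` -/
lemma log_c : Real.log (3 / 5) ≤ -(1 / 2) := by
  rw [Real.log_le_iff_le_exp (by norm_num), Real.exp_neg, le_inv_comm₀ (by norm_num)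
    (Real.exp_pos _)]
  have h1 : Real.exp (1 / 2) ^ 2 = Real.exp 1 := by
    rw [← Real.exp_nat_mul]; norm_num
  have h2 := Real.exp_one_lt_d9
  have h3 := Real.exp_pos (1 / 2 : ℝ)
  norm_num
  nlinarith

/-- `log (4 A) ≤ 2.16` -/
lemma log_A : Real.log (4 / 5 * (2503 / 1000) / (93 / 100) * 4) ≤ 54 / 25 := by
  rw [Real.log_le_iff_le_exp (by norm_num)]
  have h1 : Real.exp (54 / 25) = Real.exp 1 * Real.exp 1 * Real.exp (4 / 25) := by
    rw [← Real.exp_add, ← Real.exp_add]; norm_num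
  rw [h1]
  have h2 := Real.exp_one_gt_d9
  have h3 := Real.quadratic_le_exp_of_nonneg (show (0 : ℝ) ≤ 4 / 25 by norm_num)
  have h4 : (27182 / 10000 : ℝ) * (27182 / 10000) ≤ Real.exp 1 * Real.exp 1 :=
    mul_le_mul (by linarith) (by linarith) (by norm_num) (Real.exp_pos _).le
  have h5 : (27182 / 10000 : ℝ) * (27182 / 10000) * (1 + 4 / 25 + (4 / 25) ^ 2 / 2) ≤
      Real.exp 1 * Real.exp 1 * Real.exp (4 / 25) :=
    mul_le_mul h4 h3 (by norm_num) (by positivity)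
  refine le_trans ?_ h5
  norm_num

/-- the logarithm of `xo / th` -/
lemma log_xt (k : ℝ) (h1 : 1 / 2 < k) (h2 : k ≤ 3 / 4) (hx : xo k = 4 / 5)
    (ht : th k = 93 / 100 * k / (2503 / 1000 * (2 * k + 3))) :
    Real.log (xo k / th k) ≤ 54 / 25 + (2 * k - 1) / 4 - Real.log k := by
  have hk : 0 < k := by linarith
  have e1 : xo k / th k = 4 / 5 * (2503 / 1000) / (93 / 100) * 4 * ((2 * k + 3) / 4) / k := by
    rw [hx, ht]
    field_simp
  rw [e1, Real.log_div (by positivity) hk.ne', Real.log_mul (by norm_num) (by positivity)]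
  have h3 : Real.log ((2 * k + 3) / 4) ≤ (2 * k + 3) / 4 - 1 :=
    Real.log_le_sub_one_of_pos (by positivity)
  have h4 := log_A
  linarith

end NumCAux

open NumCAux in
theorem stNumC (h1 : StE1) (h2 : StGu9) : StNumC := by
  intro k hk1 hk2
  have hk : 0 < k := by linarith
  have n1 : ¬ k ≤ 1 / 4 := by linarith
  have n2 : ¬ k ≤ 1 / 2 := by linarith
  have hx : xo k = 4 / 5 := by rw [xo, if_neg n1, if_neg n2, if_pos hk2]
  have hD : cD k = 1 := by rw [cD, if_neg n1, if_neg n2]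
  have hD' : cD' k = 2 := by rw [cD', if_neg n1, if_neg n2, if_pos hk2]
  have hE : cE k = 3 := by rw [cE, if_neg n1, if_neg n2, if_pos hk2]
  have hE' : cE' k = 3 := by rw [cE', if_neg n1, if_neg n2]
  have ht : th k = 93 / 100 * k / (2503 / 1000 * (2 * k + 3)) := by
    rw [th, if_neg n1, hD, hD', hE, hE']
    congr 1
    push_cast
    ring
  have a1 := log_xt k hk1 hk2 hx ht
  have a2 : E1 (xo k) ≤ 8 / 25 := by rw [hx]; exact h1.2.1
  -- the constant `vo`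
  have v0 : 0 ≤ vo k := (Real.exp_pos _).le
  have v1 : vo k ≤ 3 / 4 := by
    rw [vo, hx]; exact vo_le
  have v2 : vo k ^ 2 ≤ 9 / 16 := by nlinarith
  have a3 : LamB k ≤ (1 - k) ^ 4 * (1 + k) * (9 / 16 + 1 / 4) +
      2 * k ^ 3 * (1 / 16 + 2 / 27) + 3 / 4 * k ^ 3 * (1 / 12 + 2 / 27) := by
    rw [LamB, hD, hD', hE, hE']
    have p1 : 0 ≤ (1 - k) ^ 4 * (1 + k) := by positivity
    have p2 : 0 ≤ 2 * k ^ 3 := by positivity
    have p3 : 0 ≤ 3 / 4 * k ^ 3 := by positivity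
    have q1 : vo k ^ 2 / ((1 : ℕ) : ℝ) ^ 2 + 1 / (((2 : ℕ) : ℝ) * (((1 : ℕ) : ℝ) + ((2 : ℕ) : ℝ) / 2)) ≤
        9 / 16 + 1 / 4 := by
      push_cast; linarith
    have q2 : vo k ^ 2 / ((3 : ℕ) : ℝ) ^ 2 + 1 / (((3 : ℕ) : ℝ) * (((3 : ℕ) : ℝ) + ((3 : ℕ) : ℝ) / 2)) ≤
        1 / 16 + 2 / 27 := by
      push_cast; linarith
    have q3 : vo k / ((3 : ℕ) : ℝ) ^ 2 + 1 / (((3 : ℕ) : ℝ) * (((3 : ℕ) : ℝ) + ((3 : ℕ) : ℝ) / 2)) ≤
        1 / 12 + 2 / 27 := by
      push_cast; linarith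
    exact add_le_add (add_le_add (mul_le_mul_of_nonneg_left q1 p1)
      (mul_le_mul_of_nonneg_left q2 p2)) (mul_le_mul_of_nonneg_left q3 p3)
  -- the Barnes quotient
  have a4 : Real.log (barnesG (k + 1) ^ 2 / barnesG (2 * k + 1)) ≤ k ^ 2 * (27 / 25 - k) := by
    have b1 : 0 < barnesG (k + 1) := barnesG_pos (by linarith)
    have b2 : 0 < barnesG (2 * k + 1) := barnesG_pos (by linarith)
    rw [Real.log_le_iff_le_exp (by positivity)]
    exact (h2 k hk (by linarith)).2 hk1.le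
  -- the logarithm of `k`
  have a5 : Real.log k ≤ -(1 / 2) + (k - 3 / 5) * (5 / 3) := by
    have e1 : k = 3 / 5 * (k / (3 / 5)) := by field_simp
    have e2 : Real.log k = Real.log (3 / 5) + Real.log (k / (3 / 5)) := by
      conv_lhs => rw [e1]
      exact Real.log_mul (by norm_num) (by positivity)
    have e3 := Real.log_le_sub_one_of_pos (show 0 < k / (3 / 5) by positivity)
    have e4 := log_c
    rw [e2]
    have e5 : k / (3 / 5) - 1 = (k - 3 / 5) * (5 / 3) := by ring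
    linarith
  have a6 := poly k hk1.le hk2
  rw [FinI]
  have c1 : k ^ 2 * Real.log (xo k / th k) ≤ k ^ 2 * (54 / 25 + (2 * k - 1) / 4 - Real.log k) :=
    mul_le_mul_of_nonneg_left a1 (by positivity)
  have c2 : (k ^ 2 + 1 - k) * E1 (xo k) ≤ (k ^ 2 + 1 - k) * (8 / 25) :=
    mul_le_mul_of_nonneg_left a2 (by nlinarith)
  have c3 : k ^ 2 * (2 * Real.log k) ≤ k ^ 2 * (2 * (-(1 / 2) + (k - 3 / 5) * (5 / 3))) :=
    mul_le_mul_of_nonneg_left (by linarith) (by positivity)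
  nlinarith

end K9
end Pool.Agent.Lib.MP_973905_nt
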