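import Pool.Agent.Lib.MP_973905_nt.K9.Stmts
import Pool.Agent.Lib.MP_973905_nt.K5.FE
import Pool.Agent.Lib.MP_973905_nt.ThmA

/-! Module (A1) of folder K9: from the line `Re s = 1/2 + ψ / log T` to the critical line. -/

namespace Pool.Agent.Lib.MP_973905_nt
namespace K9

open MeasureTheory ProbabilityTheory Complex Filter Topology

namespace Off9

/-- The factor `(s-1)/(s+1)` is near `1` high up. -/
lemma kp_high {σ t ε : ℝ} (h0 : 1 / 2 ≤ σ) (h1 : σ ≤ 3 / 4) (hε : 0 < ε) (ht : 4 ≤ ε * t ^ 2) :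
    1 - ε ≤ ‖kp (σ + t * I)‖ ^ 2 := by
  have e1 : ‖(σ : ℂ) + t * I - 1‖ ^ 2 = (σ - 1) ^ 2 + t ^ 2 := by
    rw [← normSq_eq_norm_sq, normSq_apply]; simp; ring
  have e2 : ‖(σ : ℂ) + t * I + 1‖ ^ 2 = (σ + 1) ^ 2 + t ^ 2 := by
    rw [← normSq_eq_norm_sq, normSq_apply]; simp; ring
  rw [kp, norm_div, div_pow, e1, e2, le_div_iff₀ (by positivity)]
  nlinarith [sq_nonneg t, sq_nonneg (σ - 1), mul_nonneg hε.le (sq_nonneg (σ + 1))]

lemma kp_rpow {σ t ε p : ℝ} (h0 : 1 / 2 ≤ σ) (h1 : σ ≤ 3 / 4) (hε : 0 < ε) (ht : 4 ≤ ε * t ^ 2)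
    (hp2 : p ≤ 2) : 1 - ε ≤ ‖kp (σ + t * I)‖ ^ p := by
  have h2 := kp_high h0 h1 hε ht
  have h3 : ‖kp ((σ : ℂ) + t * I)‖ ≤ 1 := TSM.norm_kp_le (by rw [TSM.line_re]; linarith)
  have h4 := kp_lower (s := (σ : ℂ) + t * I) (by rw [TSM.line_re]; exact h0)
    (by rw [TSM.line_re]; exact h1)
  refine h2.trans ?_
  rw [← Real.rpow_two]
  exact Real.rpow_le_rpow_of_exponent_ge (by linarith) h3 hp2

/-- The pointwise inequality. -/
lemma pt {C T τ p σ ε : ℝ} (hC : 0 < C) (hT : 1 ≤ T) (h0 : 1 / 2 ≤ σ) (h1 : σ ≤ 3 / 4)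
    (hε : 0 < ε) (hp0 : 0 ≤ p) (hp2 : p ≤ 2)
    (hz : ∀ σ t p : ℝ, 1 / 2 ≤ σ → σ ≤ 3 / 4 → 0 ≤ p → p ≤ 2 →
      ‖riemannZeta ((σ : ℂ) + t * I)‖ ^ p ≤ C * (1 + |t|) ^ 4)
    (hlow : ∀ t : ℝ, ε * t ^ 2 < 4 → 1 + |t| ≤ T ∧ T ^ (951 / 1000 : ℝ) < |t - τ|) (t : ℝ) :
    (1 - ε) * ‖riemannZeta (σ + t * I)‖ ^ p ≤ ‖zt (σ + t * I)‖ ^ p +
      C * T ^ 4 * Set.indicator {x : ℝ | T ^ (951 / 1000 : ℝ) < |x|}
        (fun x => (1 + |x|) ^ 4) (t - τ) := by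
  have hz0 : 0 ≤ ‖riemannZeta ((σ : ℂ) + t * I)‖ ^ p := by positivity
  have hi0 : 0 ≤ Set.indicator {x : ℝ | T ^ (951 / 1000 : ℝ) < |x|}
        (fun x => (1 + |x|) ^ 4) (t - τ) :=
    Set.indicator_nonneg (fun x _ => by positivity) _
  by_cases ht : 4 ≤ ε * t ^ 2
  · have h2 := kp_rpow h0 h1 hε ht hp2
    have h3 : ‖zt ((σ : ℂ) + t * I)‖ ^ p =
        ‖kp ((σ : ℂ) + t * I)‖ ^ p * ‖riemannZeta ((σ : ℂ) + t * I)‖ ^ p := by
      rw [ThmA.zt_eq_line h0 h1, norm_mul, Real.mul_rpow (norm_nonneg _) (norm_nonneg _)]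
    rw [h3]
    have h4 := mul_le_mul_of_nonneg_right h2 hz0
    have h5 : 0 ≤ C * T ^ 4 * Set.indicator {x : ℝ | T ^ (951 / 1000 : ℝ) < |x|}
        (fun x => (1 + |x|) ^ 4) (t - τ) := by positivity
    linarith
  · obtain ⟨h2, h3⟩ := hlow t (not_le.1 ht)
    rw [Set.indicator_of_mem (show t - τ ∈ {x : ℝ | T ^ (951 / 1000 : ℝ) < |x|} from h3)]
    have h4 := hz σ t p h0 h1 hp0 hp2
    have h5 : (1 + |t|) ^ 4 ≤ T ^ 4 := by gcongr
    have h6 : 1 ≤ (1 + |t - τ|) ^ 4 := one_le_pow₀ (by linarith [abs_nonneg (t - τ)])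
    have h7 : 0 ≤ ‖zt ((σ : ℂ) + t * I)‖ ^ p := by positivity
    have h8 : C * (1 + |t|) ^ 4 ≤ C * T ^ 4 := by gcongr
    have h9 : C * T ^ 4 ≤ C * T ^ 4 * (1 + |t - τ|) ^ 4 := le_mul_of_one_le_right (by positivity) h6
    have h10 : (1 - ε) * ‖riemannZeta ((σ : ℂ) + t * I)‖ ^ p ≤
        ‖riemannZeta ((σ : ℂ) + t * I)‖ ^ p := by nlinarith
    linarith

/-- The mean of `zt` from below. -/
lemma mean {C T τ p σ ε : ℝ} (hC : 0 < C) (hT : 1 ≤ T) (h0 : 1 / 2 ≤ σ) (h1 : σ ≤ 3 / 4)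
    (hε : 0 < ε) (hp0 : 0 ≤ p) (hp2 : p ≤ 2)
    (hz : ∀ σ t p : ℝ, 1 / 2 ≤ σ → σ ≤ 3 / 4 → 0 ≤ p → p ≤ 2 →
      ‖riemannZeta ((σ : ℂ) + t * I)‖ ^ p ≤ C * (1 + |t|) ^ 4)
    (hlow : ∀ t : ℝ, ε * t ^ 2 < 4 → 1 + |t| ≤ T ∧ T ^ (951 / 1000 : ℝ) < |t - τ|) :
    (1 - ε) * ThmA.ZZ T τ p σ ≤ ThmA.JJ T τ p σ +
      C * T ^ 4 * ∫ x, Set.indicator {x : ℝ | T ^ (951 / 1000 : ℝ) < |x|}
        (fun x => (1 + |x|) ^ 4) x ∂(gaussianReal 0 (VV T)) := by
  have hms : MeasurableSet {x : ℝ | T ^ (951 / 1000 : ℝ) < |x|} :=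
    measurableSet_lt measurable_const measurable_id.abs
  have e : ∫ x, Set.indicator {x : ℝ | T ^ (951 / 1000 : ℝ) < |x|}
        (fun x => (1 + |x|) ^ 4) x ∂(gaussianReal 0 (VV T)) =
      EG T τ (fun t => Set.indicator {x : ℝ | T ^ (951 / 1000 : ℝ) < |x|}
        (fun x => (1 + |x|) ^ 4) (t - τ)) := by
    rw [Sharp.EG_shift]
    simp only [add_sub_cancel_right]
  rw [e]
  unfold ThmA.ZZ ThmA.JJ EG
  have i1 := ThmA.int_zeta τ (VV T) (p := p) (σ := σ) h0 h1 hp0 hp2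
  have i2 := ThmA.int_zt τ (VV T) (p := p) (σ := σ) (by linarith) (by linarith) hp0 hp2
  have i3 : Integrable (fun t => Set.indicator {x : ℝ | T ^ (951 / 1000 : ℝ) < |x|}
      (fun x => (1 + |x|) ^ 4) (t - τ)) (gaussianReal τ (VV T)) := by
    have h2 : Integrable (Set.indicator {x : ℝ | T ^ (951 / 1000 : ℝ) < |x|}
      (fun x => (1 + |x|) ^ 4)) (gaussianReal 0 (VV T)) :=
      (integrable_one_add_abs_pow 0 _ 4).indicator hms
    have h3 := gaussianReal_map_add_const (μ := 0) (v := VV T) τ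
    rw [zero_add] at h3
    rw [← h3]
    have h4 : MeasurableEmbedding (fun x : ℝ => x + τ) :=
      (Homeomorph.addRight τ).measurableEmbedding
    rw [h4.integrable_map_iff]
    simpa [Function.comp_def] using h2
  rw [← integral_const_mul, ← integral_const_mul, ← integral_add i2 (i3.const_mul _)]
  exact integral_mono (i1.const_mul _) (i2.add (i3.const_mul _))
    fun t => pt hC hT h0 h1 hε hp0 hp2 hz hlow t

end Off9

open Off9 in
/-- (A1) from the line `1/2 + ψ/log T` to the critical line. -/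
theorem stOff : StOff := by
  intro k hk0 hk1 ψ hψ η' hη'0 hη'1
  set η : ℝ := min η' (1 / 2) with hη
  have hη0 : 0 < η := lt_min hη'0 (by norm_num)
  have hη1 : η ≤ 1 / 2 := min_le_right _ _
  set ε : ℝ := η / 20 with hε
  have hε0 : 0 < ε := by positivity
  have hε1 : ε ≤ 1 / 40 := by rw [hε]; linarith
  obtain ⟨C, hC, hz⟩ := ThmA.zeta_rpow_poly
  -- eventual conditions
  have evc : Tendsto (fun T : ℝ => ψ / Real.log T) atTop (𝓝 0) :=
    Real.tendsto_log_atTop.const_div_atTop ψ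
  have ev8 : ∀ᶠ T : ℝ in atTop, (8:ℝ) ^ (ψ / Real.log T) ≤ 1 + ε := by
    have h1 : Tendsto (fun T : ℝ => (8:ℝ) ^ (ψ / Real.log T)) atTop (𝓝 ((8:ℝ) ^ (0:ℝ))) :=
      ((Real.continuous_const_rpow (by norm_num)).tendsto 0).comp evc
    rw [Real.rpow_zero] at h1
    exact (h1.eventually_lt_const (by linarith)).mono fun T hT => hT.le
  have hlog : ∀ᶠ T : ℝ in atTop, Real.log T ≤ T ^ (1 / 1000 : ℝ) := by
    have := (isLittleO_log_rpow_atTop (r := 1 / 1000) (by norm_num)).def (c := 1) one_pos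
    filter_upwards [this, eventually_ge_atTop 1] with T h hT
    rw [one_mul, Real.norm_eq_abs, Real.norm_eq_abs, abs_of_nonneg (Real.log_nonneg hT),
      abs_of_nonneg (by positivity)] at h
    exact h
  have hx : Tendsto (fun T : ℝ => T ^ (1 / 1000 : ℝ)) atTop atTop :=
    tendsto_rpow_atTop (by norm_num)
  obtain ⟨T₀, hT₀⟩ := eventually_atTop.mp (ev8.and ((ThmA.VV_large ε hε0).and
    ((Real.tendsto_log_atTop.eventually_ge_atTop (4 * ψ)).and (hlog.and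
    ((hx.eventually_ge_atTop (4 + 4 / ε)).and (K5.FEq.tail_ev (C / ε) 4))))))
  refine ⟨max T₀ 3, le_max_right _ _, fun T hT τ hτ1 hτ2 D hD1 hD => ?_⟩
  obtain ⟨h8, hg, hL4, hlogT, hxT, htail⟩ := hT₀ T ((le_max_left _ _).trans hT)
  have hT3 : 3 ≤ T := (le_max_right _ _).trans hT
  have hT0 : 0 < T := by linarith
  have hT1 : 1 ≤ T := by linarith
  have hL0 : 0 < Real.log T := Real.log_pos (by linarith)
  set δ : ℝ := ψ / Real.log T with hδ
  have hδ0 : 0 < δ := div_pos hψ hL0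
  have hδ1 : δ ≤ 1 / 4 := by rw [hδ, div_le_iff₀ hL0]; linarith
  set p : ℝ := 2 * k with hp
  have hp0 : 0 < p := by positivity
  have hp2 : p ≤ 2 := by linarith
  -- the bottom part
  have hlow : ∀ t : ℝ, ε * t ^ 2 < 4 → 1 + |t| ≤ T ∧ T ^ (951 / 1000 : ℝ) < |t - τ| := by
    intro t ht
    set x : ℝ := T ^ (1 / 1000 : ℝ) with hxdef
    have hx4 : 4 ≤ x := by
      have : 0 < 4 / ε := by positivity
      linarith
    have hx1 : 1 ≤ x := by linarith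
    have hTx : T = x ^ 1000 := by
      rw [hxdef, ← Real.rpow_natCast, ← Real.rpow_mul hT0.le]; norm_num
    have p951 : T ^ (951 / 1000 : ℝ) = x ^ 951 := by
      rw [hxdef, ← Real.rpow_natCast, ← Real.rpow_mul hT0.le]; norm_num
    have htx : |t| ≤ x := by
      have h1 : t ^ 2 < 4 / ε := by rw [lt_div_iff₀ hε0]; linarith
      have h2 : t ^ 2 ≤ x ^ 2 := by nlinarith
      exact abs_le_of_sq_le_sq h2 (by linarith)
    have hx2 : 1 + x ≤ x ^ 2 := by nlinarith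
    have hxT : x ^ 2 ≤ T := by
      rw [hTx]
      exact pow_le_pow_right₀ hx1 (by norm_num)
    refine ⟨by linarith, ?_⟩
    rw [p951]
    have hTL2 : x ^ 999 ≤ T / Real.log T := by
      rw [le_div_iff₀ hL0]
      calc x ^ 999 * Real.log T ≤ x ^ 999 * x := by gcongr
        _ = T := by rw [hTx]; ring
    have h3 : x ^ 951 + x < x ^ 999 := by
      have h4 : x ≤ x ^ 951 := le_self_pow₀ hx1 (by norm_num)
      have h5 : x ^ 999 = x ^ 48 * x ^ 951 := by ring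
      have h6 : 4 ≤ x ^ 48 := hx4.trans (le_self_pow₀ hx1 (by norm_num))
      have h7 : 0 < x ^ 951 := by positivity
      rw [h5]
      nlinarith
    have h8 : |τ| ≤ |t| + |t - τ| := by
      have : τ = t - (t - τ) := by ring
      calc |τ| = |t - (t - τ)| := by rw [← this]
        _ ≤ |t| + |t - τ| := abs_sub _ _
    linarith
  have hm := mean (C := C) (T := T) (τ := τ) (p := p) (σ := 1 / 2 + δ) (ε := ε) hC hT1
    (by linarith) (by linarith) hε0 hp0.le hp2 hz hlow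
  have htail' : C * T ^ 4 * ∫ x, Set.indicator {x : ℝ | T ^ (951 / 1000 : ℝ) < |x|}
        (fun x => (1 + |x|) ^ 4) x ∂(gaussianReal 0 (VV T)) ≤ ε := by
    have h1 := mul_le_mul_of_nonneg_left htail hε0.le
    rw [mul_one] at h1
    refine le_trans (le_of_eq ?_) h1
    field_simp
  -- the statement in terms of `ZZ`
  have eD : EG T τ (fun t => ‖riemannZeta (1 / 2 + ((δ : ℝ) : ℂ) + t * I)‖ ^ p) =
      ThmA.ZZ T τ p (1 / 2 + δ) := by
    unfold ThmA.ZZ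
    push_cast
    rfl
  have e0 : EG T τ (fun t => ‖riemannZeta (1 / 2 + t * I)‖ ^ p) = ThmA.ZZ T τ p (1 / 2) := by
    unfold ThmA.ZZ
    push_cast
    rfl
  rw [eD] at hD
  rw [e0]
  have hmono : (1 - η') * D ≤ (1 - η) * D := by
    apply mul_le_mul_of_nonneg_right _ (by linarith)
    have := min_le_left η' (1 / 2)
    linarith
  refine hmono.trans ?_
  by_contra hcon
  push Not at hcon
  have hJ := ThmA.JJ_le_ZZ T τ (p := p) (σ := 1 / 2) le_rfl (by norm_num) hp0.le hp2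
  have h1 := ThmA.lower (T := T) (τ := τ) (p := p) (δ := δ) (ε₁ := ε) (θ := 1 - η) (Λ := D) hT0 hp0
    hp2 hδ0 hδ1 hε0 (by linarith) hD1 h8 hg (hJ.trans hcon.le)
  have h2 : (1 - ε) * D ≤ (1 - ε) * ThmA.ZZ T τ p (1 / 2 + δ) :=
    mul_le_mul_of_nonneg_left hD (by linarith)
  have h3 : (1 - ε) * D ≤ (1 - η) * D * (1 + ε) ^ 2 + ε * D := by
    have : ε ≤ ε * D := by nlinarith
    linarith
  have h4 : (1 - ε) * D ≤ ((1 - η) * (1 + ε) ^ 2 + ε) * D := by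
    refine h3.trans (le_of_eq ?_)
    ring
  have h5 := le_of_mul_le_mul_right h4 (by linarith)
  have h6 : η = 20 * ε := by rw [hε]; ring
  rw [h6] at h5
  nlinarith [mul_pos hε0 hε0, mul_pos (mul_pos hε0 hε0) hε0]

end K9
end Pool.Agent.Lib.MP_973905_nt
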