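import Pool.Agent.Lib.MP_973905_nt.K9.Stmts
import Pool.Agent.Lib.MP_973905_nt.K9.BernBox

set_option autoImplicit false

/-!
# MP_973905_nt, project K9: an elementary inequality in three variables

The inequality reduces to the positivity of a polynomial on a box, which is checked with the
coefficients in the Bernstein basis (`BernBox`).
-/

namespace Pool.Agent.Lib.MP_973905_nt.K9

namespace Part9Aux

open BernBox

/-- The coefficients for nonnegative `τ = 2 x`, `r = 2 y / 3`, `u = z / 8`. -/
def dP : List (List (List ℤ)) := [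
   [[100776960, 0, 268738560], [0, 0, 895795200], [], [0, 0, -796262400]],
   [[], [41990400, -83980800, 111974400, 0, -447897600],
    [0, 74649600, 223948800, -895795200, 298598400],
    [17169408, -87588864, 163233792, -151289856, 75644928],
    [11446272, -91570176, -156598272, 695402496, -214990848]],
   [[], [], [6998400, -27993600, 50201856, -9704448, -250822656, 409079808, -92565504],
    [0, 27247104, -58599936, -135862272, 390168576, -234897408, 61710336],
    [4935168, -38195712, 123171840, -222289920, 248832000, -161243136, 41140224],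
    [3290112, -37573632, 81561600, 42024960, -214548480, 118112256, -27426816]],
   [[], [], [],
    [583200, -3499200, 9922176, -13685760, -19906560, 102021120, -114462720, 30855168],
    [0, 3825792, -22187520, 41057280, -19906560, -9123840, 1990656],
    [432000, -4361472, 19160064, -48798720, 79902720, -84602880, 52199424, -13713408],
    [288000, -4608000, 20736000, -36864000, 23040000]],
   [[], [], [], [],
    [24300, -194400, 802224, -2239488, 3162240, 1244160, -9642240, 9787392, -2571264],
    [0, 216000, -1841184, 6283008, -11283840, 12579840, -10575360, 6524928, -1714176],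
    [7200, -72000, 288000, -576000, 576000, -230400],
    [4800, -144000, 960000, -2688000, 3456000, -1689600]],
   [[], [], [], [], [], [405, -4050, 22680, -97200, 291600, -531360, 518400, -207360],
    [0, 3600, -36000, 144000, -288000, 288000, -115200], [],
    [0, -1600, 16000, -64000, 128000, -128000, 51200]]]

/-- The coefficients for nonpositive `τ = -2 x`. -/
def dN : List (List (List ℤ)) := [
   [[100776960, 0, 268738560], [0, 0, 895795200], [], [0, 0, -796262400]],
   [[], [41990400, 83980800, 111974400, 0, -447897600],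
    [0, -74649600, 223948800, 895795200, 298598400],
    [17169408, 87588864, 163233792, 151289856, 75644928],
    [11446272, 91570176, -156598272, -695402496, -214990848]],
   [[], [], [6998400, 27993600, 50201856, 9704448, -250822656, -409079808, -92565504],
    [0, -27247104, -58599936, 135862272, 390168576, 234897408, 61710336],
    [4935168, 38195712, 123171840, 222289920, 248832000, 161243136, 41140224],
    [3290112, 37573632, 81561600, -42024960, -214548480, -118112256, -27426816]],
   [[], [], [],
    [583200, 3499200, 9922176, 13685760, -19906560, -102021120, -114462720, -30855168],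
    [0, -3825792, -22187520, -41057280, -19906560, 9123840, 1990656],
    [432000, 4361472, 19160064, 48798720, 79902720, 84602880, 52199424, 13713408],
    [288000, 4608000, 20736000, 36864000, 23040000]],
   [[], [], [], [],
    [24300, 194400, 802224, 2239488, 3162240, -1244160, -9642240, -9787392, -2571264],
    [0, -216000, -1841184, -6283008, -11283840, -12579840, -10575360, -6524928, -1714176],
    [7200, 72000, 288000, 576000, 576000, 230400],
    [4800, 144000, 960000, 2688000, 3456000, 1689600]],
   [[], [], [], [], [], [405, 4050, 22680, 97200, 291600, 531360, 518400, 207360],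
    [0, -3600, -36000, -144000, -288000, -288000, -115200], [],
    [0, 1600, 16000, 64000, 128000, 128000, 51200]]]

theorem ok_dP : ok3 dP = true := by decide +kernel

theorem ok_dN : ok3 dN = true := by decide +kernel

/-- The polynomial inequality. -/
theorem poly_ineq {τ r u s : ℝ} (h1 : -2 ≤ τ) (h2 : τ ≤ 2) (h3 : 0 ≤ r) (h4 : r ≤ 2 / 3)
    (h5 : 0 ≤ u) (h6 : u ≤ 1 / 8) (hs : s = 1 + (1 - τ) * u * r) :
    (1 + r) * (s ^ 2 + (1 - τ) ^ 2 * u * r * s + 31 / 50 * (1 - τ) ^ 4 * u ^ 2 * r ^ 2) *
        (u * (τ * s + (1 - τ) * r) ^ 2 + r * s) ≤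
      s ^ 5 * (r * (1 + r) + u * (3 / 10 + 2 * r * (1 - r) * (1 + r) * τ + 6 / 5 * τ ^ 2)) := by
  subst hs
  rcases le_total 0 τ with h | h
  · have e := mul_nonneg h5 (ev3_nonneg ok_dP (x := τ / 2) (y := 3 / 2 * r) (z := 8 * u)
      (by linarith) (by linarith) (by linarith) (by linarith) (by linarith) (by linarith))
    simp only [ev3, ev2, ev1, ev, dP, Int.cast_ofNat, Int.cast_neg, Int.cast_zero, mul_zero,
      add_zero, zero_add] at e
    linear_combination (1 / 335923200) * e
  · have e := mul_nonneg h5 (ev3_nonneg ok_dN (x := -τ / 2) (y := 3 / 2 * r) (z := 8 * u)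
      (by linarith) (by linarith) (by linarith) (by linarith) (by linarith) (by linarith))
    simp only [ev3, ev2, ev1, ev, dN, Int.cast_ofNat, Int.cast_neg, Int.cast_zero, mul_zero,
      add_zero, zero_add] at e
    linear_combination (1 / 335923200) * e

theorem exp_le {w : ℝ} (h0 : 0 ≤ w) (h1 : w ≤ 3 / 5) :
    Real.exp w ≤ 1 + w + 31 / 50 * w ^ 2 := by
  have h := Real.exp_bound' h0 (by linarith) (n := 4) (by norm_num)
  simp only [Finset.sum_range_succ, Finset.sum_range_zero, Nat.factorial] at h
  norm_num at h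
  have h2 : w ^ 3 ≤ w ^ 2 * (3 / 5) := by
    have := mul_le_mul_of_nonneg_left h1 (pow_nonneg h0 2)
    linarith [this, pow_succ w 2]
  have h3 : w ^ 4 ≤ w ^ 2 * (9 / 25) := by
    have e1 : w * w ≤ 9 / 25 := by nlinarith
    have := mul_le_mul_of_nonneg_left e1 (pow_nonneg h0 2)
    linarith [this, (by ring : w ^ 4 = w ^ 2 * (w * w))]
  nlinarith [pow_nonneg h0 2]

end Part9Aux

open Part9Aux in
theorem stPart9 : StPart9 := by
  intro τ r u h1 h2 h3 h4 h5 h6
  obtain ⟨s, hs⟩ : ∃ s, s = 1 + (1 - τ) * u * r := ⟨_, rfl⟩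
  have hur0 : 0 ≤ u * r := mul_nonneg h5 h3
  have hur : u * r ≤ 1 / 12 := by nlinarith
  have hs1 : 11 / 12 ≤ s := by rw [hs]; nlinarith
  have hs0 : 0 < s := by linarith
  have hkey := poly_ineq h1 h2 h3 h4 h5 h6 hs
  rw [← hs]
  have hw0 : 0 ≤ (1 - τ) ^ 2 * u * r / s := by positivity
  have hw1 : (1 - τ) ^ 2 * u * r / s ≤ 3 / 5 := by
    rw [div_le_iff₀ hs0, hs]
    nlinarith [mul_nonneg hur0 (by linarith : (0:ℝ) ≤ τ + 2), sq_nonneg (1 - τ),
      mul_nonneg (mul_nonneg hur0 (by linarith : (0:ℝ) ≤ τ + 2)) (by linarith : (0:ℝ) ≤ 2 - τ)]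
  have hexp := exp_le hw0 hw1
  have e1 : 1 + (1 - τ) ^ 2 * u * r / s + 31 / 50 * ((1 - τ) ^ 2 * u * r / s) ^ 2 =
      (s ^ 2 + (1 - τ) ^ 2 * u * r * s + 31 / 50 * (1 - τ) ^ 4 * u ^ 2 * r ^ 2) / s ^ 2 := by
    field_simp
    try ring
  have e2 : u * (τ + (1 - τ) * r / s) ^ 2 + r / s =
      (u * (τ * s + (1 - τ) * r) ^ 2 + r * s) / s ^ 2 := by
    field_simp
  have hB : 0 ≤ (u * (τ * s + (1 - τ) * r) ^ 2 + r * s) / s ^ 2 := by positivity
  rw [e1] at hexp
  rw [e2]
  have hr : 0 ≤ (1 + r) / s := by positivity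
  calc (1 + r) / s * Real.exp ((1 - τ) ^ 2 * u * r / s) *
        ((u * (τ * s + (1 - τ) * r) ^ 2 + r * s) / s ^ 2) ≤
      (1 + r) / s * ((s ^ 2 + (1 - τ) ^ 2 * u * r * s + 31 / 50 * (1 - τ) ^ 4 * u ^ 2 * r ^ 2) /
        s ^ 2) * ((u * (τ * s + (1 - τ) * r) ^ 2 + r * s) / s ^ 2) :=
        mul_le_mul_of_nonneg_right (mul_le_mul_of_nonneg_left hexp hr) hB
    _ = (1 + r) * (s ^ 2 + (1 - τ) ^ 2 * u * r * s + 31 / 50 * (1 - τ) ^ 4 * u ^ 2 * r ^ 2) *
        (u * (τ * s + (1 - τ) * r) ^ 2 + r * s) / s ^ 5 := by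
        field_simp
    _ ≤ r * (1 + r) + u * (3 / 10 + 2 * r * (1 - r) * (1 + r) * τ + 6 / 5 * τ ^ 2) := by
        rw [div_le_iff₀ (by positivity)]
        linarith

end Pool.Agent.Lib.MP_973905_nt.K9
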