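import Pool.Agent.Lib.MP_973905_nt.K9.Base
import Pool.Agent.Lib.MP_973905_nt.PrimeSum

/-! Module (Z0): the variance of the prime sum over a block, by Riemann sums. -/

namespace Pool.Agent.Lib.MP_973905_nt
namespace K9
namespace PrimeVAux

open MeasureTheory Filter Topology

/-- the weight of a prime -/
noncomputable def g (ψ x : ℝ) : ℝ := Real.exp (-(2 * ψ * x))

theorem g_le {ψ x : ℝ} (hψ : 0 < ψ) (h0 : 0 ≤ x) : g ψ x ≤ 1 := by
  unfold g
  rw [Real.exp_le_one_iff]
  have : 0 ≤ 2 * ψ * x := by positivity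
  linarith

theorem g_pos {ψ x : ℝ} : 0 < g ψ x := Real.exp_pos _

theorem g_lip {ψ x y : ℝ} (hψ : 0 < ψ) (h0 : 0 ≤ y) (h : y ≤ x) :
    |g ψ x - g ψ y| ≤ 2 * ψ * (x - y) := by
  have h1 : g ψ x ≤ g ψ y := by
    unfold g
    apply Real.exp_le_exp.mpr
    have := mul_le_mul_of_nonneg_left h (show 0 ≤ 2 * ψ by positivity)
    linarith
  have h2 : g ψ x = g ψ y * Real.exp (-(2 * ψ * (x - y))) := by
    unfold g
    rw [← Real.exp_add]
    congr 1
    ring
  rw [abs_sub_comm, abs_of_nonneg (by linarith)]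
  have h3 := Real.add_one_le_exp (-(2 * ψ * (x - y)))
  have h4 := g_le hψ h0
  have h5 : 0 ≤ 2 * ψ * (x - y) := mul_nonneg (by positivity) (by linarith)
  have h6 : g ψ y * (1 - Real.exp (-(2 * ψ * (x - y)))) ≤ 1 * (2 * ψ * (x - y)) := by
    have h7 : 1 - Real.exp (-(2 * ψ * (x - y))) ≤ 2 * ψ * (x - y) := by linarith
    calc g ψ y * (1 - Real.exp (-(2 * ψ * (x - y)))) ≤ g ψ y * (2 * ψ * (x - y)) :=
          mul_le_mul_of_nonneg_left h7 g_pos.le
      _ ≤ 1 * (2 * ψ * (x - y)) := mul_le_mul_of_nonneg_right h4 h5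
  rw [h2]
  linarith

/-- the prime sum of a block -/
noncomputable def S (L ψ a b : ℝ) : ℝ :=
  ∑ p ∈ PS (Real.exp (a * L)) (Real.exp (b * L)), (p : ℝ) ^ (-(1 + 2 * (ψ / L)))

theorem term (L : ℝ) (hL : 0 < L) (ψ : ℝ) (p : ℕ) (hp : 0 < p) :
    (p : ℝ) ^ (-(1 + 2 * (ψ / L))) = 1 / (p : ℝ) * g ψ (Real.log p / L) := by
  have hp0 : (0 : ℝ) < p := by exact_mod_cast hp
  rw [neg_add, Real.rpow_add hp0, Real.rpow_neg_one, one_div, Real.rpow_def_of_pos hp0]
  unfold g
  congr 2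
  field_simp

theorem mem_block (L a b : ℝ) (hL : 0 < L) (p : ℕ)
    (hp : p ∈ PS (Real.exp (a * L)) (Real.exp (b * L))) :
    0 < p ∧ a ≤ Real.log p / L ∧ Real.log p / L ≤ b := by
  unfold PS at hp
  rw [Finset.mem_filter, Finset.mem_Ioc] at hp
  obtain ⟨⟨h1, h2⟩, h3⟩ := hp
  have hp0 : 0 < p := h3.pos
  have hp1 : (0 : ℝ) < p := by exact_mod_cast hp0
  refine ⟨hp0, ?_, ?_⟩
  · rw [le_div_iff₀ hL]
    have h4 : Real.exp (a * L) < p := (Nat.floor_lt (Real.exp_pos _).le).1 h1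
    exact ((Real.lt_log_iff_exp_lt hp1).2 h4).le
  · rw [div_le_iff₀ hL]
    have h4 : (p : ℝ) ≤ Real.exp (b * L) := (Nat.le_floor_iff (Real.exp_pos _).le).1 h2
    exact (Real.log_le_iff_le_exp hp1).2 h4

theorem S_block (L : ℝ) (hL : 0 < L) (ψ : ℝ) (hψ : 0 < ψ) (a b : ℝ) (ha : 0 < a) :
    |S L ψ a b - (∑ p ∈ PS (Real.exp (a * L)) (Real.exp (b * L)), 1 / (p : ℝ)) * g ψ a| ≤
      2 * ψ * (b - a) * ∑ p ∈ PS (Real.exp (a * L)) (Real.exp (b * L)), 1 / (p : ℝ) := by
  unfold S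
  rw [Finset.sum_mul, ← Finset.sum_sub_distrib, Finset.mul_sum]
  refine (Finset.abs_sum_le_sum_abs _ _).trans (Finset.sum_le_sum fun p hp => ?_)
  obtain ⟨hp0, h1, h2⟩ := mem_block L a b hL p hp
  rw [term L hL ψ p hp0, ← mul_sub, abs_mul, abs_of_nonneg (by positivity : (0 : ℝ) ≤ 1 / p)]
  have h3 := g_lip (ψ := ψ) (x := Real.log p / L) hψ ha.le h1
  have h5 : (0 : ℝ) ≤ 1 / (p : ℝ) := by positivity
  have h6 : 2 * ψ * (Real.log p / L - a) ≤ 2 * ψ * (b - a) :=
    mul_le_mul_of_nonneg_left (by linarith) (by positivity)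
  calc 1 / (p : ℝ) * |g ψ (Real.log p / L) - g ψ a| ≤ 1 / (p : ℝ) * (2 * ψ * (b - a)) :=
        mul_le_mul_of_nonneg_left (h3.trans h6) h5
    _ = 2 * ψ * (b - a) * (1 / (p : ℝ)) := by ring

theorem I_block (ψ : ℝ) (hψ : 0 < ψ) (a b : ℝ) (ha : 0 < a) (hab : a ≤ b) :
    |VI ψ a b - Real.log (b / a) * g ψ a| ≤ 2 * ψ * (b - a) * Real.log (b / a) := by
  have hb0 : 0 < b := by linarith
  have hpos : ∀ x ∈ Set.uIcc a b, 0 < x := fun x hx => by
    rcases Set.mem_uIcc.1 hx with h | h <;> linarith [h.1]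
  have i2 : ∀ c : ℝ, IntervalIntegrable (fun x : ℝ => c * (1 / x)) volume a b := by
    intro c
    apply ContinuousOn.intervalIntegrable
    apply ContinuousOn.mul continuousOn_const
    apply ContinuousOn.div continuousOn_const continuousOn_id
    intro x hx
    exact (hpos x hx).ne'
  have e1 : ∀ c : ℝ, c * Real.log (b / a) = ∫ x in a..b, c * (1 / x) := by
    intro c
    rw [intervalIntegral.integral_const_mul, integral_one_div_of_pos ha hb0]
  have e2 : VI ψ a b - Real.log (b / a) * g ψ a =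
      ∫ x in a..b, (Real.exp (-(2 * ψ * x)) / x - g ψ a * (1 / x)) := by
    rw [mul_comm, e1, intervalIntegral.integral_sub (Blk9.int_VI ha hb0) (i2 _)]
    rfl
  rw [e2, e1, ← Real.norm_eq_abs]
  apply intervalIntegral.norm_integral_le_of_norm_le hab
  · apply Filter.Eventually.of_forall
    intro x hx
    have hx0 : 0 < x := by linarith [hx.1]
    have e3 : Real.exp (-(2 * ψ * x)) / x - g ψ a * (1 / x) = (g ψ x - g ψ a) * (1 / x) := by
      unfold g
      ring
    rw [e3, norm_mul, Real.norm_eq_abs, Real.norm_eq_abs, abs_of_pos (by positivity : 0 < 1 / x)]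
    apply mul_le_mul_of_nonneg_right _ (by positivity)
    have h4 := g_lip (ψ := ψ) (x := x) hψ ha.le hx.1.le
    have h5 : 2 * ψ * (x - a) ≤ 2 * ψ * (b - a) :=
      mul_le_mul_of_nonneg_left (by linarith [hx.2]) (by positivity)
    linarith
  · exact i2 _

theorem block (L : ℝ) (hL : 0 < L) (ψ : ℝ) (hψ : 0 < ψ) (a b : ℝ) (ha : 0 < a) (hab : a ≤ b)
    (hb : b ≤ 1) (h2 : 1 ≤ a * L) :
    |S L ψ a b - VI ψ a b| ≤ 4 * ψ * (b - a) * Real.log (b / a) + (20 * ψ + 10) / (a * L) := by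
  have h0 : (2 : ℝ) ≤ Real.exp (a * L) := by
    have := Real.add_one_le_exp (a * L)
    linarith
  have h1 := S_block L hL ψ hψ a b ha
  have h3 := I_block ψ hψ a b ha hab
  have h4 := PrimeSum.range_bound (Real.exp (a * L)) (Real.exp (b * L)) h0
    (Real.exp_le_exp.2 (mul_le_mul_of_nonneg_right hab hL.le))
  rw [Real.log_exp, Real.log_exp, mul_div_mul_right _ _ hL.ne'] at h4
  set P : ℝ := ∑ p ∈ PS (Real.exp (a * L)) (Real.exp (b * L)), 1 / (p : ℝ) with hP
  set l : ℝ := Real.log (b / a) with hl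
  have hg := g_le hψ ha.le
  have h5 : |P * g ψ a - l * g ψ a| ≤ 10 / (a * L) := by
    rw [← sub_mul, abs_mul, abs_of_pos (g_pos (ψ := ψ) (x := a))]
    calc |P - l| * g ψ a ≤ |P - l| * 1 := mul_le_mul_of_nonneg_left hg (abs_nonneg _)
      _ ≤ 10 / (a * L) := by rw [mul_one]; exact h4
  have h7 : P ≤ l + 10 / (a * L) := by
    have := (abs_le.1 h4).2
    linarith
  have h8 : 0 ≤ 10 / (a * L) := by positivity
  have h9 : 2 * ψ * (b - a) * P ≤ 2 * ψ * (b - a) * l + 2 * ψ * (10 / (a * L)) := by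
    have h10 : 0 ≤ 2 * ψ * (b - a) := mul_nonneg (by positivity) (by linarith)
    have h11 : 2 * ψ * (b - a) * P ≤ 2 * ψ * (b - a) * (l + 10 / (a * L)) :=
      mul_le_mul_of_nonneg_left h7 h10
    have h12 : 2 * ψ * (b - a) * (10 / (a * L)) ≤ 2 * ψ * (10 / (a * L)) := by
      refine mul_le_mul_of_nonneg_right ?_ h8
      have : 2 * ψ * (b - a) ≤ 2 * ψ * 1 := mul_le_mul_of_nonneg_left (by linarith) (by positivity)
      linarith
    linarith
  have e9 : (20 * ψ + 10) / (a * L) = 2 * ψ * (10 / (a * L)) + 10 / (a * L) := by ring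
  have h13 := abs_sub_le (S L ψ a b) (P * g ψ a) (VI ψ a b)
  have h14 := abs_sub_le (P * g ψ a) (l * g ψ a) (VI ψ a b)
  rw [abs_sub_comm (l * g ψ a)] at h14
  rw [e9]
  linarith

theorem S_add (L : ℝ) (hL : 0 < L) (ψ : ℝ) (a b c : ℝ) (hab : a ≤ b) (hbc : b ≤ c) :
    S L ψ a c = S L ψ a b + S L ψ b c := by
  unfold S PS
  rw [Finset.sum_filter, Finset.sum_filter, Finset.sum_filter]
  rw [Finset.sum_Ioc_consecutive]
  · exact Nat.floor_mono (Real.exp_le_exp.2 (mul_le_mul_of_nonneg_right hab hL.le))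
  · exact Nat.floor_mono (Real.exp_le_exp.2 (mul_le_mul_of_nonneg_right hbc hL.le))

theorem steps (L : ℝ) (hL : 0 < L) (ψ : ℝ) (hψ : 0 < ψ) (lo h : ℝ) (hlo : 0 < lo) (hh : 0 < h)
    (h2 : 1 ≤ lo * L) (n : ℕ) (hn : lo + n * h ≤ 1) :
    |S L ψ lo (lo + n * h) - VI ψ lo (lo + n * h)| ≤
      4 * ψ * h * Real.log ((lo + n * h) / lo) + n * ((20 * ψ + 10) / (lo * L)) := by
  induction n with
  | zero =>
    have e : S L ψ lo (lo + (0 : ℕ) * h) = 0 := by
      unfold S PS
      simp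
    have e2 : VI ψ lo (lo + (0 : ℕ) * h) = 0 := by
      unfold VI
      simp
    rw [e, e2]
    simp
  | succ n ih =>
    have hnh : 0 ≤ (n : ℝ) * h := by positivity
    have ecast : ((n + 1 : ℕ) : ℝ) = (n : ℝ) + 1 := by push_cast; ring
    rw [ecast] at hn ⊢
    have hstep : (lo + ((n : ℝ) + 1) * h) = (lo + n * h) + h := by ring
    rw [hstep] at hn ⊢
    have ih' := ih (by linarith)
    have ha : 0 < lo + n * h := by linarith
    have h3 : 1 ≤ (lo + n * h) * L := by nlinarith [mul_nonneg hnh hL.le]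
    have hb := block L hL ψ hψ (lo + n * h) (lo + n * h + h) ha (by linarith) hn h3
    rw [S_add L hL ψ lo (lo + n * h) (lo + n * h + h) (by linarith) (by linarith),
      ← Blk9.VI_add (ψ := ψ) hlo ha (show 0 < lo + n * h + h by linarith)]
    have e3 : S L ψ lo (lo + n * h) + S L ψ (lo + n * h) (lo + n * h + h) -
        (VI ψ lo (lo + n * h) + VI ψ (lo + n * h) (lo + n * h + h)) =
        (S L ψ lo (lo + n * h) - VI ψ lo (lo + n * h)) +
        (S L ψ (lo + n * h) (lo + n * h + h) - VI ψ (lo + n * h) (lo + n * h + h)) := by ring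
    rw [e3]
    have h4 : (20 * ψ + 10) / ((lo + n * h) * L) ≤ (20 * ψ + 10) / (lo * L) := by
      apply div_le_div_of_nonneg_left (by positivity) (by positivity)
      exact mul_le_mul_of_nonneg_right (by linarith) hL.le
    have h5 : Real.log ((lo + n * h + h) / lo) = Real.log ((lo + n * h) / lo) +
        Real.log ((lo + n * h + h) / (lo + n * h)) := by
      rw [← Real.log_mul (by positivity) (by positivity)]
      congr 1
      field_simp
    have h6 : lo + n * h + h - (lo + n * h) = h := by ring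
    rw [h6] at hb
    rw [h5]
    calc _ ≤ |S L ψ lo (lo + n * h) - VI ψ lo (lo + n * h)| +
        |S L ψ (lo + n * h) (lo + n * h + h) - VI ψ (lo + n * h) (lo + n * h + h)| :=
          abs_add_le _ _
      _ ≤ (4 * ψ * h * Real.log ((lo + n * h) / lo) + n * ((20 * ψ + 10) / (lo * L))) +
          (4 * ψ * h * Real.log ((lo + n * h + h) / (lo + n * h)) +
            (20 * ψ + 10) / (lo * L)) := by
          gcongr
          linarith
      _ = _ := by ring

end PrimeVAux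

open PrimeVAux in
/-- (Z0) the variance of the prime sum over a block -/
theorem stPrimeV (_h : K5.StPrimeInt) : StPrimeV := by
  intro lo hi ψ hlo hlohi hhi hψ ε hε
  have hl : 0 ≤ Real.log (hi / lo) := Real.log_nonneg (by rw [le_div_iff₀ hlo]; linarith)
  obtain ⟨n, hn⟩ := exists_nat_gt (8 * ψ * (hi - lo) * Real.log (hi / lo) / ε)
  have hn0 : (0 : ℝ) < n := lt_of_le_of_lt (by
    have : 0 ≤ hi - lo := by linarith
    positivity) hn
  set D : ℝ := 20 * ψ + 10 with hD
  have hD0 : 0 < D := by positivity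
  refine ⟨max 3 (Real.exp (1 / lo + 2 * D * n / (lo * ε))), le_max_left _ _, fun T hT => ?_⟩
  have hT3 : 3 ≤ T := (le_max_left _ _).trans hT
  have hT2 : Real.exp (1 / lo + 2 * D * n / (lo * ε)) ≤ T := (le_max_right _ _).trans hT
  have hL2 : 1 / lo + 2 * D * n / (lo * ε) ≤ Real.log T :=
    (Real.le_log_iff_exp_le (by linarith)).2 hT2
  have hp1 : 0 < 1 / lo := by positivity
  have hp2 : 0 < 2 * D * n / (lo * ε) := by positivity
  have hL : 0 < Real.log T := by linarith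
  set L := Real.log T with hLdef
  have h1 : 1 ≤ lo * L := by
    have : 1 / lo ≤ L := by linarith
    rw [div_le_iff₀ hlo] at this
    linarith
  have hh : 0 < (hi - lo) / n := div_pos (by linarith) hn0
  have e : lo + n * ((hi - lo) / n) = hi := by field_simp; ring
  have h2 := steps L hL ψ hψ lo ((hi - lo) / n) hlo hh h1 n (by rw [e]; exact hhi)
  rw [e] at h2
  refine h2.trans ?_
  have h3 : 4 * ψ * ((hi - lo) / n) * Real.log (hi / lo) ≤ ε / 2 := by
    rw [div_lt_iff₀ hε] at hn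
    have : 4 * ψ * ((hi - lo) / n) * Real.log (hi / lo) =
      (4 * ψ * (hi - lo) * Real.log (hi / lo)) / n := by ring
    rw [this, div_le_iff₀ hn0]
    linarith
  have h4 : (n : ℝ) * (D / (lo * L)) ≤ ε / 2 := by
    have h5 : 2 * D * n / (lo * ε) ≤ L := by linarith
    rw [div_le_iff₀ (by positivity)] at h5
    have : (n : ℝ) * (D / (lo * L)) = (D * n) / (lo * L) := by ring
    rw [this, div_le_iff₀ (by positivity)]
    linarith
  linarith

end K9
end Pool.Agent.Lib.MP_973905_nt
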