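import Pool.Agent.Lib.MP_973905_nt.K9.Base

/-! K9, module V2: the pointwise inequality. -/

namespace Pool.Agent.Lib.MP_973905_nt
namespace K9

open MeasureTheory ProbabilityTheory Complex Filter Topology K1 K4 K5

namespace Pt9

lemma NN_eq (T : ℝ) (M : ℕ) (α : ℝ) (f : ℕ → ℂ) : NN T M α f =
    ∏ j ∈ Finset.range (JJ T + 1), Ntr (ll M (JJ T) j) α (Pj M (Sj T M (JJ T) j) f) := by
  unfold NN AA
  refine Finset.prod_congr rfl fun j hj => ?_
  unfold Fc
  rw [if_pos hj, if_neg (Finset.notMem_empty j), mul_one]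

lemma sq_prod (s t : Finset ℕ) (u v : ℕ → ℂ) :
    ‖(∏ j ∈ s, u j) * ∏ i ∈ t, v i‖ ^ 2 = (∏ j ∈ s, ‖u j‖ ^ 2) * ∏ i ∈ t, ‖v i‖ ^ 2 := by
  rw [norm_mul, norm_prod, norm_prod, mul_pow, Finset.prod_pow, Finset.prod_pow]

end Pt9

open Pt9

/-- module V2 -/
theorem stPt9 (h : StPtB9) : StPt9 := by
  intro k hk hk1
  obtain ⟨M₀, hM₀⟩ := h k hk hk1
  refine ⟨M₀, fun M hM C hC T f => ?_⟩
  unfold G1 G2
  rw [NN_eq, NN_eq, sq_prod, sq_prod,
    Real.mul_rpow (Finset.prod_nonneg fun _ _ => by positivity)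
      (Finset.prod_nonneg fun _ _ => by positivity),
    ← Real.finsetProd_rpow _ _ (fun _ _ => by positivity),
    ← Real.finsetProd_rpow _ _ (fun _ _ => by positivity), mul_mul_mul_comm,
    ← Finset.prod_mul_distrib, ← Finset.prod_mul_distrib]
  unfold VV9
  refine mul_le_mul ?_ ?_ (Finset.prod_nonneg fun _ _ => by positivity)
    (Finset.prod_nonneg fun j _ => Blk9.VBz_nonneg j _)
  · refine Finset.prod_le_prod (fun _ _ => by positivity) fun j hj => ?_
    have hj' := Finset.mem_range.mp hj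
    exact hM₀ M hM T j (by omega) _
  · refine Finset.prod_le_prod (fun _ _ => by positivity) fun i hi => ?_
    exact hC.hmaj i (Finset.mem_range.mp hi) _

end K9
end Pool.Agent.Lib.MP_973905_nt
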