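import Pool.Agent.Lib.MP_973905_nt.K9.Stmts
import Pool.Agent.Lib.MP_973905_nt.K8.Pt8

/-! K9, module V1: the pointwise inequality in a bottom block. -/

namespace Pool.Agent.Lib.MP_973905_nt
namespace K9

open MeasureTheory ProbabilityTheory Complex Filter Topology K1 K4 K5

namespace PtB9

lemma pe_eq {k : ℝ} (hk : 0 < k) : K8.pe k = 1 + 1 / k := by
  unfold K8.pe; field_simp; ring

/-- the good set -/
lemma good {k K : ℝ} {l : ℕ} (hk : 0 < k) (hk1 : k < 1) (hK : 1 ≤ K) (hl : 10 * K ≤ l)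
    (hs : (4 * K8.pe k + 8) * Real.exp (-(K / 2)) ≤ 1) {z : ℂ} (hz : ‖z‖ ≤ K) :
    ‖Ntr l (k - 1) z‖ ^ 2 * (‖Ntr l k z‖ ^ 2) ^ (1 / k) ≤
      (1 + Real.exp (-(K / 2))) * ‖Ntr l k z‖ ^ 2 := by
  have hp : 0 < K8.pe k := by unfold K8.pe; positivity
  have hq : 0 < 1 / k := by positivity
  have ha : |k - 1| ≤ 1 := by rw [abs_le]; constructor <;> linarith
  have hb : |k| ≤ 1 := by rw [abs_of_pos hk]; exact hk1.le
  obtain ⟨-, a2⟩ := Ntr_ratio l ha hK hl hz
  obtain ⟨b1, b2⟩ := Ntr_ratio l hb hK hl hz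
  obtain ⟨s, hse⟩ : ∃ s, s = Real.exp (-(K / 2)) := ⟨_, rfl⟩
  have hs0 : 0 < s := hse ▸ Real.exp_pos _
  have he : Real.exp (-K) = s ^ 2 := by
    rw [hse, ← Real.exp_nat_mul]; congr 1; push_cast; ring
  rw [← hse] at hs ⊢
  rw [he] at a2 b1 b2
  have h1 := K8.Pt8.const_good hp hs0 hs
  have hs8 : s ≤ 1 / 8 := by nlinarith
  have hs2 : s ^ 2 ≤ 1 / 64 := by nlinarith
  have hkk : k * (1 / k) = 1 := by field_simp
  have e1 : ‖Ntr l (k - 1) z‖ ^ 2 ≤ (1 + s ^ 2) ^ 2 * Real.exp (2 * ((k - 1) * z.re)) := by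
    calc ‖Ntr l (k - 1) z‖ ^ 2 ≤ ((1 + s ^ 2) * Real.exp ((k - 1) * z.re)) ^ 2 :=
          pow_le_pow_left₀ (norm_nonneg _) a2 2
      _ = _ := by
          rw [mul_pow, ← Real.exp_nat_mul]
          norm_num
  have e2 : (‖Ntr l k z‖ ^ 2) ^ (1 / k) ≤ ((1 + s ^ 2) ^ 2) ^ (1 / k) * Real.exp (2 * z.re) := by
    calc (‖Ntr l k z‖ ^ 2) ^ (1 / k) ≤ (((1 + s ^ 2) * Real.exp (k * z.re)) ^ 2) ^ (1 / k) :=
          Real.rpow_le_rpow (by positivity) (pow_le_pow_left₀ (norm_nonneg _) b2 2) hq.le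
      _ = ((1 + s ^ 2) ^ 2) ^ (1 / k) * Real.exp (2 * z.re) := by
          rw [mul_pow, Real.mul_rpow (by positivity) (by positivity)]
          congr 1
          rw [← Real.exp_nat_mul, ← Real.exp_mul]
          congr 1
          calc ((2 : ℕ) : ℝ) * (k * z.re) * (1 / k) = 2 * (k * (1 / k)) * z.re := by
                push_cast; ring
            _ = 2 * z.re := by rw [hkk, mul_one]
  calc ‖Ntr l (k - 1) z‖ ^ 2 * (‖Ntr l k z‖ ^ 2) ^ (1 / k)
      ≤ ((1 + s ^ 2) ^ 2 * Real.exp (2 * ((k - 1) * z.re))) *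
          (((1 + s ^ 2) ^ 2) ^ (1 / k) * Real.exp (2 * z.re)) :=
        mul_le_mul e1 e2 (by positivity) (by positivity)
    _ = ((1 + s ^ 2) ^ 2) ^ K8.pe k * (Real.exp (k * z.re)) ^ 2 := by
        have e3 : ((1 + s ^ 2) ^ 2) ^ K8.pe k = (1 + s ^ 2) ^ 2 * ((1 + s ^ 2) ^ 2) ^ (1 / k) := by
          rw [pe_eq hk, Real.rpow_add (by positivity), Real.rpow_one]
        have e4 : (Real.exp (k * z.re)) ^ 2 =
            Real.exp (2 * ((k - 1) * z.re)) * Real.exp (2 * z.re) := by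
          rw [← Real.exp_nat_mul, ← Real.exp_add]
          congr 1
          push_cast
          ring
        rw [e3, e4]
        ring
    _ ≤ (1 + s) * (1 - s ^ 2) ^ 2 * (Real.exp (k * z.re)) ^ 2 :=
        mul_le_mul_of_nonneg_right h1 (by positivity)
    _ = (1 + s) * ((1 - s ^ 2) * Real.exp (k * z.re)) ^ 2 := by ring
    _ ≤ (1 + s) * ‖Ntr l k z‖ ^ 2 := by
        refine mul_le_mul_of_nonneg_left ?_ (by linarith)
        exact pow_le_pow_left₀ (mul_nonneg (by linarith) (Real.exp_pos _).le) b1 2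

/-- the truncated exponential far away -/
lemma far {α K t : ℝ} {l : ℕ} (hα : |α| ≤ 1) (hK : 0 < K) (ht : 1 ≤ t) {z : ℂ}
    (hz : ‖z‖ = t * K) : ‖Ntr l α z‖ ≤ t ^ l * Real.exp K := by
  calc ‖Ntr l α z‖ ≤ ∑ i ∈ Finset.range (l + 1), t ^ l * (K ^ i / i.factorial) := by
        refine (norm_sum_le _ _).trans (Finset.sum_le_sum fun i hi => ?_)
        rw [norm_div, norm_pow, norm_natCast, norm_mul, norm_real, Real.norm_eq_abs, hz]
        have hi' : i ≤ l := by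
          have := Finset.mem_range.mp hi
          omega
        have h2 : (|α| * (t * K)) ^ i ≤ t ^ l * K ^ i := by
          calc (|α| * (t * K)) ^ i = |α| ^ i * (t ^ i * K ^ i) := by rw [mul_pow, mul_pow]
            _ ≤ 1 * (t ^ l * K ^ i) := by
                refine mul_le_mul (pow_le_one₀ (abs_nonneg _) hα) ?_ (by positivity) zero_le_one
                exact mul_le_mul_of_nonneg_right (pow_le_pow_right₀ ht hi') (by positivity)
            _ = _ := one_mul _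
        rw [← mul_div_assoc]
        exact div_le_div_of_nonneg_right h2 (by positivity)
    _ = t ^ l * ∑ i ∈ Finset.range (l + 1), K ^ i / i.factorial := by rw [Finset.mul_sum]
    _ ≤ t ^ l * Real.exp K :=
        mul_le_mul_of_nonneg_left (Real.sum_le_exp_of_nonneg hK.le _) (by positivity)

/-- the bad set -/
lemma bad {k K : ℝ} {l n : ℕ} (hk : 0 < k) (hk1 : k < 1) (hK : 1 ≤ K) (hn : K8.pe k * l ≤ n)
    {z : ℂ} (hz : K ≤ ‖z‖) :
    ‖Ntr l (k - 1) z‖ ^ 2 * (‖Ntr l k z‖ ^ 2) ^ (1 / k) ≤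
      Real.exp (2 * K8.pe k * K) * ‖(z / (K : ℂ)) ^ n‖ ^ 2 := by
  have hp : 0 < K8.pe k := by unfold K8.pe; positivity
  have hq : 0 < 1 / k := by positivity
  have hK0 : 0 < K := by linarith
  obtain ⟨t, ht⟩ : ∃ t, t = ‖z‖ / K := ⟨_, rfl⟩
  have ht1 : 1 ≤ t := by rw [ht, le_div_iff₀ hK0, one_mul]; exact hz
  have hzt : ‖z‖ = t * K := by rw [ht]; field_simp
  have ha : |k - 1| ≤ 1 := by rw [abs_le]; constructor <;> linarith
  have hb : |k| ≤ 1 := by rw [abs_of_pos hk]; exact hk1.le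
  have h1 := far (l := l) ha hK0 ht1 hzt
  have h2 := far (l := l) hb hK0 ht1 hzt
  have h3 : ‖(z / (K : ℂ)) ^ n‖ = t ^ n := by
    rw [norm_pow, norm_div, norm_real, Real.norm_eq_abs, abs_of_pos hK0, ← ht]
  have h4 : ((t ^ l) ^ 2) ^ K8.pe k ≤ (t ^ n) ^ 2 := by
    have h5 : ((t ^ l) ^ 2) ^ K8.pe k = t ^ (2 * (K8.pe k * l)) := by
      rw [← pow_mul, ← Real.rpow_natCast, ← Real.rpow_mul (by linarith)]
      congr 1
      push_cast
      ring
    have h6 : (t ^ n) ^ 2 = t ^ (2 * (n : ℝ)) := by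
      rw [← pow_mul, ← Real.rpow_natCast]
      congr 1
      push_cast
      ring
    rw [h5, h6]
    exact Real.rpow_le_rpow_of_exponent_le ht1 (by linarith)
  have hE : 0 < (t ^ l * Real.exp K) ^ 2 := by positivity
  calc ‖Ntr l (k - 1) z‖ ^ 2 * (‖Ntr l k z‖ ^ 2) ^ (1 / k)
      ≤ (t ^ l * Real.exp K) ^ 2 * ((t ^ l * Real.exp K) ^ 2) ^ (1 / k) :=
        mul_le_mul (pow_le_pow_left₀ (norm_nonneg _) h1 2)
          (Real.rpow_le_rpow (by positivity) (pow_le_pow_left₀ (norm_nonneg _) h2 2) hq.le)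
          (by positivity) (by positivity)
    _ = ((t ^ l * Real.exp K) ^ 2) ^ K8.pe k := by
        rw [pe_eq hk, Real.rpow_add hE, Real.rpow_one]
    _ = Real.exp (2 * K8.pe k * K) * ((t ^ l) ^ 2) ^ K8.pe k := by
        rw [mul_pow, Real.mul_rpow (by positivity) (by positivity), mul_comm]
        congr 1
        rw [← Real.exp_nat_mul, ← Real.exp_mul]
        congr 1
        push_cast
        ring
    _ ≤ Real.exp (2 * K8.pe k * K) * ‖(z / (K : ℂ)) ^ n‖ ^ 2 := by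
        rw [h3]
        exact mul_le_mul_of_nonneg_left h4 (Real.exp_pos _).le

end PtB9

open PtB9

/-- module V1 -/
theorem stPtB9 : StPtB9 := by
  intro k hk hk1
  obtain ⟨M₀, hM₀⟩ := exists_nat_ge (max 2 (4 * K8.pe k + 8) * 4)
  refine ⟨M₀, fun M hM T j hj z => ?_⟩
  have hM' : max 2 (4 * K8.pe k + 8) * 4 ≤ M := hM₀.trans (by exact_mod_cast hM)
  have hp : 0 < K8.pe k := by unfold K8.pe; positivity
  have hK := K8.Pt8.KK_ge (M := M) hj
  have h1 : 8 ≤ (M : ℝ) := by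
    have := le_max_left 2 (4 * K8.pe k + 8)
    linarith
  have h2 : (4 * K8.pe k + 8) * 4 ≤ (M : ℝ) := by
    have := le_max_right 2 (4 * K8.pe k + 8)
    linarith
  obtain ⟨K, hKe⟩ : ∃ K, K = KK M (JJ T) j := ⟨_, rfl⟩
  have hl : 10 * K ≤ ll M (JJ T) j := by
    rw [hKe]
    exact Nat.le_ceil _
  unfold VBz
  rw [← hKe] at hK ⊢
  have hK1 : 1 ≤ K := by linarith
  rcases le_total ‖z‖ K with hz | hz
  · have hs : (4 * K8.pe k + 8) * Real.exp (-(K / 2)) ≤ 1 := by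
      have h3 : 4 * K8.pe k + 8 ≤ Real.exp (K / 2) := by
        have := Real.add_one_le_exp (K / 2)
        linarith
      calc (4 * K8.pe k + 8) * Real.exp (-(K / 2)) ≤ Real.exp (K / 2) * Real.exp (-(K / 2)) :=
            mul_le_mul_of_nonneg_right h3 (Real.exp_pos _).le
        _ = 1 := by rw [← Real.exp_add]; simp
    have h4 := good hk hk1 hK1 hl hs hz
    have h5 : 0 ≤ Real.exp (2 * K8.pe k * K) * ‖(z / (K : ℂ)) ^ K8.nb k T M j‖ ^ 2 := by
      positivity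
    linarith
  · have h4 := bad (n := K8.nb k T M j) hk hk1 hK1 (Nat.le_ceil _) hz
    have h5 : 0 ≤ (1 + Real.exp (-(K / 2))) * ‖Ntr (ll M (JJ T) j) k z‖ ^ 2 := by
      positivity
    linarith

end K9
end Pool.Agent.Lib.MP_973905_nt
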