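import Pool.Agent.Lib.MP_973905_nt.K9.Base
import Pool.Agent.Lib.MP_973905_nt.K5.SecF

/-! (Z11) upper bound for the second moment to the right of the critical line: `stSec9`. -/

namespace Pool.Agent.Lib.MP_973905_nt
namespace K9

open MeasureTheory ProbabilityTheory Complex Filter Topology K1 K4 K5

namespace Sec9Aux

/-- zeta near the pole -/
lemma zeta_near {ε : ℝ} (hε : 0 < ε) : ∃ δ : ℝ, 0 < δ ∧ ∀ a : ℝ, 0 < a → a ≤ δ →
    ‖riemannZeta (1 + 2 * a)‖ ≤ (1 + ε) / (2 * a) ∧ (riemannZeta (1 - 2 * a)).re ≤ 0 := by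
  have h := riemannZeta_residue_one
  rw [Metric.tendsto_nhdsWithin_nhds] at h
  obtain ⟨δ, hδ, h⟩ := h (min ε 1) (lt_min hε one_pos)
  refine ⟨δ / 4, by positivity, fun a ha haδ => ⟨?_, ?_⟩⟩
  · have h2a : (2 * (a : ℂ)) ≠ 0 := by
      simp only [ne_eq, mul_eq_zero, OfNat.ofNat_ne_zero, ofReal_eq_zero, false_or]
      exact ha.ne'
    have hn : ‖(2 * (a : ℂ))‖ = 2 * a := by
      rw [norm_mul, Complex.norm_real, Real.norm_of_nonneg ha.le]
      norm_num
    have h1 := h (x := 1 + 2 * (a : ℂ)) (by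
        intro he
        apply h2a
        have he' : (1 : ℂ) + 2 * (a : ℂ) = 1 := he
        linear_combination he') (by
        rw [dist_eq_norm, add_sub_cancel_left, hn]
        linarith)
    rw [add_sub_cancel_left, dist_eq_norm] at h1
    have h2 : ‖2 * (a : ℂ) * riemannZeta (1 + 2 * a)‖ ≤ 1 + ε := by
      have e1 : 2 * (a : ℂ) * riemannZeta (1 + 2 * a) =
          (2 * (a : ℂ) * riemannZeta (1 + 2 * a) - 1) + 1 := by ring
      rw [e1]
      refine (norm_add_le _ _).trans ?_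
      rw [norm_one]
      have := h1.le.trans (min_le_left _ _)
      linarith
    rw [norm_mul, hn] at h2
    rw [le_div_iff₀ (by positivity)]
    linarith
  · have h2a : (2 * (a : ℂ)) ≠ 0 := by
      simp only [ne_eq, mul_eq_zero, OfNat.ofNat_ne_zero, ofReal_eq_zero, false_or]
      exact ha.ne'
    have hn : ‖(2 * (a : ℂ))‖ = 2 * a := by
      rw [norm_mul, Complex.norm_real, Real.norm_of_nonneg ha.le]
      norm_num
    have h1 := h (x := 1 - 2 * (a : ℂ)) (by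
        intro he
        apply h2a
        have he' : (1 : ℂ) - 2 * (a : ℂ) = 1 := he
        linear_combination -he') (by
        rw [dist_eq_norm, sub_sub_cancel_left, norm_neg, hn]
        linarith)
    rw [sub_sub_cancel_left, dist_eq_norm] at h1
    have h2 := (Complex.abs_re_le_norm _).trans_lt (h1.trans_le (min_le_right _ _))
    have h3 : (-(2 * (a : ℂ)) * riemannZeta (1 - 2 * a) - 1).re =
        -(2 * a) * (riemannZeta (1 - 2 * a)).re - 1 := by
      have e1 : -(2 * (a : ℂ)) = ((-(2 * a) : ℝ) : ℂ) := by push_cast; ring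
      rw [Complex.sub_re, e1, Complex.re_ofReal_mul, Complex.one_re]
    rw [h3] at h2
    have h4 := (abs_lt.1 h2).1
    nlinarith

/-- the exact evaluation -/
lemma long_apply (hL : StLongS) (hq : StBQ9) (hf : StFactS) {k : ℝ} (hk0 : 0 < k)
    (hk1 : k < 1) :
    ∃ M₀ : ℕ, ∀ M : ℕ, M₀ ≤ M → ∀ C : Cfg, Adm k M C → ∃ T₀ : ℝ, 3 ≤ T₀ ∧ ∀ T, T₀ ≤ T →
      ∀ τ : ℝ, T / Real.log T ≤ |τ| → |τ| ≤ 3 / 2 * T →
        EG T τ (fun t => ‖riemannZeta (1 / 2 + ((C.a T : ℝ) : ℂ) + t * I)‖ ^ 2 *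
          ‖G1 k C T M (fs (1 / 2 + t * I))‖ ^ 2) ≤
        ‖riemannZeta (1 + 2 * ((C.a T : ℝ) : ℂ))‖ *
          (‖∏ j ∈ Finset.range (JJ T + 1),
            EBo T M k (Finset.range (JJ T + 1)) ∅ ((C.a T : ℝ) : ℂ) j‖ *
          ‖∏ i ∈ Finset.range C.N, ETs C T ((C.a T : ℝ) : ℂ) i‖) + T ^ (-(5 / 1000) : ℝ) := by
  obtain ⟨M₁, h1⟩ := hq k hk0 hk1
  obtain ⟨T₂, hT₂, h2⟩ := hL
  obtain ⟨δ, hδ, hz⟩ := zeta_near one_pos
  refine ⟨M₁, fun M hM C hC => ?_⟩
  obtain ⟨T₁, hT₁, h1⟩ := h1 M hM C hC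
  obtain ⟨T₃, hT₃, h3⟩ := hf k hk0 hk1 M C hC
  have hψ := hC.hpsi
  have hev : ∀ᶠ T : ℝ in atTop, 1 / C.psi ≤ Real.log T ∧ 400 * C.psi ≤ Real.log T ∧
      C.psi / δ ≤ Real.log T :=
    (Real.tendsto_log_atTop.eventually_ge_atTop _).and
      ((Real.tendsto_log_atTop.eventually_ge_atTop _).and
        (Real.tendsto_log_atTop.eventually_ge_atTop _))
  obtain ⟨T₄, h4⟩ := hev.exists_forall_of_atTop
  refine ⟨max (max T₁ T₂) (max T₃ T₄), (hT₁.trans (le_max_left _ _)).trans (le_max_left _ _),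
    fun T hT τ hτ1 hτ2 => ?_⟩
  have hTT₁ : T₁ ≤ T := ((le_max_left _ _).trans (le_max_left _ _)).trans hT
  have hTT₂ : T₂ ≤ T := ((le_max_right _ _).trans (le_max_left _ _)).trans hT
  have hTT₃ : T₃ ≤ T := ((le_max_left _ _).trans (le_max_right _ _)).trans hT
  have hTT₄ : T₄ ≤ T := ((le_max_right _ _).trans (le_max_right _ _)).trans hT
  have hT3 : 3 ≤ T := hT₁.trans hTT₁
  have hT0 : 0 < T := by linarith
  have hlog : 0 < Real.log T := Real.log_pos (by linarith)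
  obtain ⟨ha1, ha2, ha3⟩ := h4 T hTT₄
  have ha0 : 0 < C.a T := Blk9.a_pos hC (by linarith)
  have haT : C.a T = C.psi / Real.log T := rfl
  have hb1 : 1 / Real.log T ^ 2 ≤ C.a T := by
    rw [haT, div_le_div_iff₀ (by positivity) hlog]
    rw [div_le_iff₀ hψ] at ha1
    nlinarith
  have hb2 : C.a T ≤ 1 / 400 := by
    rw [haT, div_le_div_iff₀ hlog (by norm_num)]
    linarith
  have hb3 : C.a T ≤ δ := by
    rw [haT, div_le_iff₀ hlog]
    rw [div_le_iff₀ hδ] at ha3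
    linarith
  obtain ⟨c, hc1, hc2, hc3⟩ := (h1 T hTT₁).1
  set N := ⌊T ^ (89 / 100 : ℝ)⌋₊ with hN
  have hNT : (N : ℝ) ≤ T := by
    refine (Nat.floor_le (Real.rpow_nonneg hT0.le _)).trans ?_
    calc T ^ (89 / 100 : ℝ) ≤ T ^ (1 : ℝ) :=
          Real.rpow_le_rpow_of_exponent_le (by linarith) (by norm_num)
      _ = T := Real.rpow_one T
  obtain ⟨hR1, x, hx0, hR2⟩ := h3 T hTT₃ N c hNT (fun f hf' => hc3 f hf')
  have h5 := h2 T hTT₂ τ hτ1 hτ2 N c hNT hc1 hc2 (C.a T) hb1 hb2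
  set a : ℝ := C.a T with ha
  have h6 : FH T τ (fun t => GB N c (fs (1 / 2 + t * I))) a =
      ((EG T τ (fun t => ‖riemannZeta (1 / 2 + (a : ℂ) + t * I)‖ ^ 2 *
          ‖G1 k C T M (fs (1 / 2 + t * I))‖ ^ 2) : ℝ) : ℂ) := by
    unfold FH EG
    refine Eq.trans (integral_congr_ae (Filter.Eventually.of_forall fun t => ?_))
      integral_complex_ofReal
    show riemannZeta (1 / 2 + (a : ℂ) + t * I) * riemannZeta (1 / 2 + (a : ℂ) - t * I) *
      GB N c (fs (1 / 2 + t * I)) = _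
    have e2 : (1 / 2 + (a : ℂ) - t * I : ℂ) = (starRingEnd ℂ) (1 / 2 + (a : ℂ) + t * I) := by
      rw [map_add, map_add, map_mul, conj_ofReal, conj_ofReal, conj_I, map_div₀, map_one,
        map_ofNat]
      ring
    rw [← hc3 _ (cmul_fs _), e2, riemannZeta_conj, Complex.mul_conj']
    push_cast
    rfl
  have hX : 0 < |τ| / (2 * Real.pi) := by
    have hτ0 : 0 < |τ| := lt_of_lt_of_le (div_pos hT0 hlog) hτ1
    have := Real.pi_pos
    positivity
  have h7 : (((|τ| / (2 * Real.pi) : ℝ) : ℂ) ^ (-(2 * a : ℂ)) *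
      (riemannZeta (1 - 2 * a) * RB N c (-a))).re ≤ 0 := by
    have e1 : ((|τ| / (2 * Real.pi) : ℝ) : ℂ) ^ (-(2 * a : ℂ)) =
        (((|τ| / (2 * Real.pi)) ^ (-(2 * a)) : ℝ) : ℂ) := by
      rw [Complex.ofReal_cpow hX.le]
      push_cast
      rfl
    have e2 : riemannZeta (1 - 2 * a) * (x : ℂ) = (x : ℂ) * riemannZeta (1 - 2 * a) :=
      mul_comm _ _
    rw [hR2, e1, e2, Complex.re_ofReal_mul, Complex.re_ofReal_mul]
    refine mul_nonpos_of_nonneg_of_nonpos (Real.rpow_nonneg hX.le _) ?_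
    exact mul_nonpos_of_nonneg_of_nonpos hx0 (hz a ha0 hb3).2
  rw [h6, hR1] at h5
  have h8 := (Complex.abs_re_le_norm _).trans h5
  rw [Complex.sub_re, Complex.ofReal_re, Complex.add_re] at h8
  have h9 := (abs_le.1 h8).2
  have h10 := Complex.re_le_norm (riemannZeta (1 + 2 * (a : ℂ)) *
    ((∏ j ∈ Finset.range (JJ T + 1), EBo T M k (Finset.range (JJ T + 1)) ∅ (a : ℂ) j) *
        ∏ i ∈ Finset.range C.N, ETs C T (a : ℂ) i))
  rw [norm_mul, norm_mul] at h10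
  linarith

end Sec9Aux

open K5.SecFAux Sec9Aux in
/-- (Z11) the second moment -/
theorem stSec9 (h1 : StLongS) (h2 : StBQ9) (h3 : StFactS) (h4 : StBotS) (h5 : StTop9)
    (h6 : K5.StAK) : StSec9 := by
  intro k hk0 hk1 Ψ hΨ η hη
  obtain ⟨Ml, hl⟩ := Sec9Aux.long_apply h1 h2 h3 hk0 hk1
  set η3 : ℝ := min η 1 / 8 with hη3
  have hmin : 0 < min η 1 := lt_min hη one_pos
  have hη30 : 0 < η3 := by positivity
  have hη3a : 8 * η3 ≤ η := by
    have := min_le_left η 1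
    rw [hη3]
    linarith
  have hη3b : η3 ≤ 1 / 8 := by
    have := min_le_right η 1
    rw [hη3]
    linarith
  obtain ⟨Mm, hm⟩ := h4 k hk0 hk1 Ψ hΨ η3 hη30
  obtain ⟨δ, hδ, hz⟩ := zeta_near hη30
  refine ⟨max (max Ml Mm) 1, fun M hM C hC hCΨ => ?_⟩
  have hM1 : 1 ≤ M := (le_max_right _ _).trans hM
  obtain ⟨T₁, hT₁, h1⟩ := hl M ((le_max_left _ _).trans ((le_max_left _ _).trans hM)) C hC
  obtain ⟨T₂, hT₂, h2⟩ := hm M ((le_max_right _ _).trans ((le_max_left _ _).trans hM))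
  have hψ := hC.hpsi
  set n := C.N with hn
  set PS : ℝ := ∏ i ∈ Finset.range n, lS C i with hPS
  have hPS0 : 0 < PS := Finset.prod_pos fun i hi => hC.hS i (Finset.mem_range.1 hi)
  set Cb : ℝ := ∑ i ∈ Finset.range n, |lS C i| with hCb
  have hCb0 : 0 ≤ Cb := Finset.sum_nonneg fun i _ => abs_nonneg _
  have hCb1 : ∀ i, i < n → ‖((lS C i : ℝ) : ℂ)‖ ≤ Cb := by
    intro i hi
    rw [Complex.norm_real, Real.norm_eq_abs]
    exact Finset.single_le_sum (f := fun i => |lS C i|) (fun j _ => abs_nonneg _)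
      (Finset.mem_range.2 hi)
  -- the precision for the top blocks
  set ε : ℝ := min 1 (η3 * PS / ((n + 1) * (Cb + 1) ^ n)) with hε
  have hε0 : 0 < ε := lt_min one_pos (by positivity)
  have hε1 : ε ≤ 1 := min_le_left _ _
  have hεn : n * (Cb + 1) ^ n * ε ≤ η3 * PS := by
    have e1 : ε ≤ η3 * PS / ((n + 1) * (Cb + 1) ^ n) := min_le_right _ _
    rw [le_div_iff₀ (by positivity)] at e1
    have e2 : 0 ≤ (Cb + 1) ^ n * ε := by positivity
    nlinarith
  obtain ⟨T₃, hT₃, h3⟩ := unif (P := fun i T => i < n →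
    ‖ETs C T ((C.a T : ℝ) : ℂ) i - ((lS C i : ℝ) : ℂ)‖ ≤ ε) (by
      intro i
      by_cases hi : i < n
      · obtain ⟨S, hS, hS'⟩ := h5 k M C hC i hi ε hε0
        exact ⟨S, hS, fun T hT _ => (hS' T hT).2.1⟩
      · exact ⟨3, le_rfl, fun T _ h => absurd h hi⟩) n
  have haK : 0 < aK k := (h6 k hk0 hk1.le).1
  -- the size of `T`
  have hev : ∀ᶠ T : ℝ in atTop, 1 ≤ Real.log T ∧ C.psi / δ ≤ Real.log T ∧
      T ^ (-(5 / 1000) : ℝ) ≤ η3 * (aK k * (1 / (2 * C.psi)) * PS) := by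
    have e2 := Real.tendsto_log_atTop.eventually_ge_atTop 1
    have e3 : ∀ᶠ T : ℝ in atTop, T ^ (-(5 / 1000) : ℝ) <
        η3 * (aK k * (1 / (2 * C.psi)) * PS) :=
      (tendsto_rpow_neg_atTop (show (0 : ℝ) < 5 / 1000 by norm_num)).eventually_lt_const
        (by positivity)
    have e4 := Real.tendsto_log_atTop.eventually_ge_atTop (C.psi / δ)
    filter_upwards [e2, e3, e4] with T b c d
    exact ⟨b, d, c.le⟩
  obtain ⟨T₄, h4⟩ := hev.exists_forall_of_atTop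
  refine ⟨max (max T₁ T₂) (max T₃ T₄), (hT₁.trans (le_max_left _ _)).trans (le_max_left _ _),
    fun T hT τ hτ1 hτ2 => ?_⟩
  have hTT₁ : T₁ ≤ T := ((le_max_left _ _).trans (le_max_left _ _)).trans hT
  have hTT₂ : T₂ ≤ T := ((le_max_right _ _).trans (le_max_left _ _)).trans hT
  have hTT₃ : T₃ ≤ T := ((le_max_left _ _).trans (le_max_right _ _)).trans hT
  have hTT₄ : T₄ ≤ T := ((le_max_right _ _).trans (le_max_right _ _)).trans hT
  have hT3 : 3 ≤ T := hT₁.trans hTT₁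
  obtain ⟨hTc, hTb, hTd⟩ := h4 T hTT₄
  set L := Real.log T with hLdef
  have hL0 : 0 < L := by linarith
  have hEG := h1 T hTT₁ τ hτ1 hτ2
  have ha0 : 0 < C.a T := Blk9.a_pos hC (by linarith)
  have haT : C.a T = C.psi / L := rfl
  have haδ : C.a T ≤ δ := by
    rw [haT, div_le_iff₀ hL0]
    rw [div_le_iff₀ hδ] at hTb
    linarith
  set D0 : ℝ := aK k * lM T M ^ (k ^ 2 - 1) with hD0
  have hlM : 0 < lM T M := by
    unfold lM
    positivity
  have hD00 : 0 < D0 := mul_pos haK (Real.rpow_pos_of_pos hlM _)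
  have hE : ‖∏ j ∈ Finset.range (JJ T + 1),
      EBo T M k (Finset.range (JJ T + 1)) ∅ ((C.a T : ℝ) : ℂ) j‖ ≤ (1 + η3) * D0 := by
    have e1 := h2 T hTT₂ ((C.a T : ℝ) : ℂ) (by
      rw [Complex.norm_real, Real.norm_of_nonneg ha0.le, haT]
      exact div_le_div_of_nonneg_right hCΨ hL0.le)
    have e2 := norm_sub_norm_le (∏ j ∈ Finset.range (JJ T + 1),
      EBo T M k (Finset.range (JJ T + 1)) ∅ ((C.a T : ℝ) : ℂ) j) ((D0 : ℝ) : ℂ)
    rw [Complex.norm_real, Real.norm_of_nonneg hD00.le] at e2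
    linarith
  have hB : ‖∏ i ∈ Finset.range n, ETs C T ((C.a T : ℝ) : ℂ) i‖ ≤ (1 + η3) * PS := by
    obtain ⟨-, -, e1⟩ := prod_close (a := fun i => ETs C T ((C.a T : ℝ) : ℂ) i)
      (b := fun i => ((lS C i : ℝ) : ℂ)) hCb0 hε0.le hε1 n
      (fun i hi => hCb1 i hi) (fun i hi => h3 T hTT₃ i hi hi)
    have e2 := norm_sub_norm_le (∏ i ∈ Finset.range n, ETs C T ((C.a T : ℝ) : ℂ) i)
      (∏ i ∈ Finset.range n, ((lS C i : ℝ) : ℂ))
    have e3 : ‖∏ i ∈ Finset.range n, ((lS C i : ℝ) : ℂ)‖ = PS := by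
      rw [← Complex.ofReal_prod, Complex.norm_real, Real.norm_of_nonneg hPS0.le]
    rw [e3] at e2
    have e4 := e1.trans hεn
    linarith
  have hZ : ‖riemannZeta (1 + 2 * ((C.a T : ℝ) : ℂ))‖ ≤ (1 + η3) * (L / (2 * C.psi)) := by
    refine (hz (C.a T) ha0 haδ).1.trans (le_of_eq ?_)
    rw [haT]
    field_simp
  have hDL : aK k ≤ D0 * L := by
    have e1 : 1 ≤ lM T M ^ (k ^ 2 - 1) * L := by
      have hk2 : k ^ 2 ≤ 1 := by nlinarith
      have hM1' : (1 : ℝ) ≤ M := by exact_mod_cast hM1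
      have hg := Real.eulerMascheroniConstant_lt_two_thirds
      rw [lM, Real.mul_rpow (Real.exp_nonneg _) hL0.le, ← Real.exp_mul, mul_assoc]
      have e2 : 1 ≤ Real.exp ((Real.eulerMascheroniConstant - M) * (k ^ 2 - 1)) := by
        apply Real.one_le_exp
        nlinarith
      have e3 : 1 ≤ L ^ (k ^ 2 - 1) * L := by
        have : L ^ (k ^ 2 - 1) * L = L ^ (k ^ 2) := by
          rw [← Real.rpow_add_one hL0.ne']
          congr 1
          ring
        rw [this]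
        exact Real.one_le_rpow hTc (by positivity)
      calc (1 : ℝ) = 1 * 1 := by ring
        _ ≤ _ := mul_le_mul e2 e3 zero_le_one (by linarith)
    calc aK k = aK k * 1 := by ring
      _ ≤ aK k * (lM T M ^ (k ^ 2 - 1) * L) := mul_le_mul_of_nonneg_left e1 haK.le
      _ = D0 * L := by rw [hD0]; ring
  have hsmall : T ^ (-(5 / 1000) : ℝ) ≤ η3 * (D0 * (L / (2 * C.psi)) * PS) := by
    refine hTd.trans (mul_le_mul_of_nonneg_left ?_ hη30.le)
    refine mul_le_mul_of_nonneg_right ?_ hPS0.le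
    have e1 := mul_le_mul_of_nonneg_right hDL (show 0 ≤ 1 / (2 * C.psi) by positivity)
    refine e1.trans (le_of_eq ?_)
    field_simp
  have hY : 0 < L / (2 * C.psi) := by positivity
  have hmain : ‖riemannZeta (1 + 2 * ((C.a T : ℝ) : ℂ))‖ *
      (‖∏ j ∈ Finset.range (JJ T + 1),
        EBo T M k (Finset.range (JJ T + 1)) ∅ ((C.a T : ℝ) : ℂ) j‖ *
      ‖∏ i ∈ Finset.range n, ETs C T ((C.a T : ℝ) : ℂ) i‖) ≤
      ((1 + η3) * (L / (2 * C.psi))) * (((1 + η3) * D0) * ((1 + η3) * PS)) := by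
    refine mul_le_mul hZ ?_ (by positivity) (by positivity)
    exact mul_le_mul hE hB (norm_nonneg _) (by positivity)
  have hX : 0 < D0 * (L / (2 * C.psi)) * PS := by positivity
  have h8 : (1 + η3) ^ 3 + η3 ≤ 1 + η := by nlinarith [mul_pos hη30 hη30]
  have h9 := mul_le_mul_of_nonneg_right h8 hX.le
  calc _ ≤ _ := hEG
    _ ≤ ((1 + η3) * (L / (2 * C.psi))) * (((1 + η3) * D0) * ((1 + η3) * PS)) +
        η3 * (D0 * (L / (2 * C.psi)) * PS) := add_le_add hmain hsmall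
    _ = ((1 + η3) ^ 3 + η3) * (D0 * (L / (2 * C.psi)) * PS) := by ring
    _ ≤ _ := h9

end K9
end Pool.Agent.Lib.MP_973905_nt
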