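import Pool.Agent.Lib.MP_973905_nt.K9.Stmts

/-! Module (V6) of folder K9: the side without zeta. -/

namespace Pool.Agent.Lib.MP_973905_nt
namespace K9

open MeasureTheory ProbabilityTheory Complex Filter Topology K1 K4 K5

namespace SideV9Aux

/-- the limit of the product over the top blocks -/
lemma prod_lim (ht : StTop9) {k : ℝ} {M : ℕ} {C : Cfg} (hC : Adm k M C) :
    Tendsto (fun T : ℝ => ∏ i ∈ Finset.range C.N,
      ES (C.U T i) (fun f => VT C T i (tw (1 / 2) f))) atTop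
      (𝓝 (∏ i ∈ Finset.range C.N, lW C i)) := by
  refine tendsto_finsetProd _ fun i hi => ?_
  have hi' := Finset.mem_range.mp hi
  rw [Metric.tendsto_atTop]
  intro ε hε
  obtain ⟨T₀, -, h⟩ := ht k M C hC i hi' (ε / 2) (by positivity)
  refine ⟨T₀, fun T hT => ?_⟩
  rw [Real.dist_eq]
  exact ((h T hT).2.2).trans_lt (by linarith)

/-- the main term tends to infinity -/
lemma main_top {a k : ℝ} (ha : 0 < a) (hk : 0 < k) (M : ℕ) :
    Tendsto (fun T : ℝ => a * lM T M ^ k) atTop atTop := by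
  refine Tendsto.const_mul_atTop ha ?_
  refine (tendsto_rpow_atTop hk).comp ?_
  unfold lM
  exact Tendsto.const_mul_atTop (Real.exp_pos _) Real.tendsto_log_atTop

/-- the numbers at the end -/
lemma num {x X D η : ℝ} (hx0 : 0 < x) (hx : x ≤ 1 / 8) (hxη : 8 * x ≤ η) (hX : 0 ≤ X)
    (hD : D ≤ (1 + x) * (1 + x) * X + x * X) : D ≤ (1 + η) * X := by
  have e2 : (1 + x) * (1 + x) + x ≤ 1 + η := by nlinarith
  calc D ≤ ((1 + x) * (1 + x) + x) * X := by linarith
    _ ≤ _ := mul_le_mul_of_nonneg_right e2 hX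

end SideV9Aux

open SideV9Aux in
/-- (V6) the side without zeta -/
theorem stSideV9 (hm : StMeanV9) (hb : StBotV9) (ht : StTop9) (hA : K5.StAK) : StSideV9 := by
  intro k h0 h1 η hη
  set x : ℝ := min η 1 / 8 with hxdef
  have hmin : 0 < min η 1 := lt_min hη one_pos
  have hx0 : 0 < x := by positivity
  have hx8 : x ≤ 1 / 8 := by
    have := min_le_right η 1
    rw [hxdef]
    linarith
  have hxη : 8 * x ≤ η := by
    have := min_le_left η 1
    rw [hxdef]
    linarith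
  obtain ⟨M₁, hm⟩ := hm k h0 h1
  obtain ⟨M₂, hb⟩ := hb k h0 h1 x hx0
  have hak : 0 < aK k := (hA k h0 h1.le).1
  refine ⟨max M₁ M₂, fun M hM C hC => ?_⟩
  obtain ⟨T₂, hT₂, hm⟩ := hm M ((le_max_left _ _).trans hM) C hC
  obtain ⟨T₃, hT₃, hb⟩ := hb M ((le_max_right _ _).trans hM)
  set PV : ℝ := ∏ i ∈ Finset.range C.N, lW C i with hPV
  have hPV0 : 0 < PV := Finset.prod_pos fun i hi => hC.hW i (Finset.mem_range.mp hi)
  have hk2 : 0 < k ^ 2 := by positivity
  have hev : ∀ᶠ T : ℝ in atTop,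
      (∏ i ∈ Finset.range C.N, ES (C.U T i) (fun f => VT C T i (tw (1 / 2) f))) ≤
        (1 + x) * PV ∧
      0 ≤ (∏ i ∈ Finset.range C.N, ES (C.U T i) (fun f => VT C T i (tw (1 / 2) f))) ∧
      1 ≤ Real.log T ∧
      x⁻¹ ≤ aK k * PV * lM T M ^ (k ^ 2) := by
    have e1 : ∀ᶠ T : ℝ in atTop,
        (∏ i ∈ Finset.range C.N, ES (C.U T i) (fun f => VT C T i (tw (1 / 2) f))) <
          (1 + x) * PV :=
      (prod_lim ht hC).eventually_lt_const (by nlinarith)
    have e0 : ∀ᶠ T : ℝ in atTop,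
        0 < (∏ i ∈ Finset.range C.N, ES (C.U T i) (fun f => VT C T i (tw (1 / 2) f))) :=
      (prod_lim ht hC).eventually_const_lt hPV0
    have e2 := Real.tendsto_log_atTop.eventually_ge_atTop 1
    have e4 := (main_top (mul_pos hak hPV0) hk2 M).eventually_ge_atTop x⁻¹
    filter_upwards [e1, e0, e2, e4] with T a a0 b d
    exact ⟨a.le, a0.le, b, d⟩
  obtain ⟨T₅, hT₅⟩ := hev.exists_forall_of_atTop
  refine ⟨max (max T₂ T₃) T₅, hT₂.trans ((le_max_left _ _).trans (le_max_left _ _)),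
    fun T hT τ => ?_⟩
  have hTT₂ : T₂ ≤ T := ((le_max_left _ _).trans (le_max_left _ _)).trans hT
  have hTT₃ : T₃ ≤ T := ((le_max_right _ _).trans (le_max_left _ _)).trans hT
  have hTT₅ : T₅ ≤ T := (le_max_right _ _).trans hT
  have hT3 : 3 ≤ T := hT₂.trans hTT₂
  have hTone : 1 ≤ T := by linarith
  obtain ⟨hP, hP0, hL1, hXx⟩ := hT₅ T hTT₅
  have hL0 : 0 < Real.log T := by linarith
  have hlM0 : 0 < lM T M := by
    unfold lM
    exact mul_pos (Real.exp_pos _) hL0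
  have hlk : 0 < lM T M ^ (k ^ 2) := Real.rpow_pos_of_pos hlM0 _
  set X : ℝ := aK k * lM T M ^ (k ^ 2) * PV with hXdef
  have hX0 : 0 < X := by positivity
  have hX1 : x⁻¹ ≤ X := by
    rw [hXdef]
    calc x⁻¹ ≤ aK k * PV * lM T M ^ (k ^ 2) := hXx
      _ = _ := by ring
  have hxX : 1 ≤ x * X := by
    rw [inv_le_iff_one_le_mul₀ hx0] at hX1
    linarith
  refine num hx0 hx8 hxη hX0.le ((hm T hTT₂ τ).trans ?_)
  have e1 := hb T hTT₃
  have e2 : T ^ (-10 : ℝ) ≤ x * X := by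
    refine le_trans ?_ hxX
    exact Real.rpow_le_one_of_one_le_of_nonpos hTone (by norm_num)
  have e4 : 0 ≤ (1 + x) * (aK k * lM T M ^ (k ^ 2)) := by positivity
  have e5 := mul_le_mul e1 hP hP0 e4
  calc _ ≤ (1 + x) * (aK k * lM T M ^ (k ^ 2)) * ((1 + x) * PV) + x * X := add_le_add e5 e2
    _ = _ := by rw [hXdef]; ring

end K9
end Pool.Agent.Lib.MP_973905_nt
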