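import Pool.Agent.Lib.MP_973905_nt.K5.Mertens
import Pool.Agent.Lib.MP_973905_nt.K9.Stmts

/-! The sum of the variances: `E₁(y) + log y ≥ -γ`. -/

namespace Pool.Agent.Lib.MP_973905_nt
namespace K9
namespace SumVAux

open MeasureTheory Filter Topology Set

lemma integrableOn_e1 {y : ℝ} (hy : 0 < y) :
    IntegrableOn (fun t : ℝ => Real.exp (-t) / t) (Ioi y) := by
  have h1 : IntegrableOn (fun t : ℝ => Real.exp (-t) * y⁻¹) (Ioi y) :=
    (integrableOn_exp_neg_Ioi y).mul_const _
  refine Integrable.mono' h1 ?_ ?_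
  · exact ((Real.measurable_exp.comp measurable_neg).div measurable_id).aestronglyMeasurable
  · refine (ae_restrict_mem measurableSet_Ioi).mono fun t ht => ?_
    have ht' : y < t := ht
    have h2 : 0 < t := hy.trans ht'
    rw [Real.norm_of_nonneg (by positivity), div_eq_mul_inv]
    refine mul_le_mul_of_nonneg_left ?_ (Real.exp_pos _).le
    exact inv_anti₀ hy ht'.le

lemma hder (x : ℝ) : HasDerivAt (fun t : ℝ => -Real.exp (-t)) (Real.exp (-x)) x := by
  have h := ((hasDerivAt_neg x).exp).fun_neg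
  have h2 : -(Real.exp (-x) * -1) = Real.exp (-x) := by ring
  rw [h2] at h
  exact h

lemma e1_eq {y : ℝ} (hy : 0 < y) : E1 y =
    -(Real.exp (-y) * Real.log y) + ∫ t in Ioi y, Real.exp (-t) * Real.log t := by
  have h1 : ∀ x ∈ Ioi y, HasDerivAt (fun t : ℝ => Real.log t) (x⁻¹) x := fun x hx =>
    Real.hasDerivAt_log (hy.trans hx).ne'
  have h2 : ∀ x ∈ Ioi y, HasDerivAt (fun t : ℝ => -Real.exp (-t)) (Real.exp (-x)) x :=
    fun x _ => hder x
  have hsub : Ioi y ⊆ Ioi (0 : ℝ) := Ioi_subset_Ioi hy.le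
  have h3 : IntegrableOn ((fun t : ℝ => Real.log t) * fun x : ℝ => Real.exp (-x)) (Ioi y) := by
    refine (K5.MertensAux.integrable_exp_log.mono_set hsub).congr ?_
    exact Eventually.of_forall fun x => mul_comm _ _
  have h4 : IntegrableOn ((fun t : ℝ => t⁻¹) * fun x : ℝ => -Real.exp (-x)) (Ioi y) := by
    refine (integrableOn_e1 hy).neg.congr ?_
    refine Eventually.of_forall fun x => ?_
    simp only [Pi.neg_apply, Pi.mul_apply]
    ring
  have h5 : Tendsto ((fun t : ℝ => Real.log t) * fun t : ℝ => -Real.exp (-t)) (𝓝[>] y)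
      (𝓝 (-(Real.exp (-y) * Real.log y))) := by
    have hc : ContinuousAt ((fun t : ℝ => Real.log t) * fun t : ℝ => -Real.exp (-t)) y := by
      refine ContinuousAt.mul (Real.continuousAt_log hy.ne') ?_
      fun_prop
    have := hc.tendsto.mono_left (nhdsWithin_le_nhds (s := Ioi y))
    convert this using 2
    simp only [Pi.mul_apply]
    ring
  have h6 : Tendsto ((fun t : ℝ => Real.log t) * fun t : ℝ => -Real.exp (-t)) atTop (𝓝 0) := by
    have h7 : Tendsto (fun t : ℝ => Real.exp (-t) * (t + 1)) atTop (𝓝 0) := by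
      have h8 := (Real.tendsto_pow_mul_exp_neg_atTop_nhds_zero 1).add
        (Real.tendsto_pow_mul_exp_neg_atTop_nhds_zero 0)
      rw [add_zero] at h8
      refine h8.congr fun t => ?_
      ring
    refine squeeze_zero_norm' ?_ h7
    filter_upwards [eventually_ge_atTop (1 : ℝ)] with t ht
    simp only [Pi.mul_apply]
    rw [norm_mul, norm_neg, Real.norm_of_nonneg (Real.exp_pos _).le,
      Real.norm_of_nonneg (Real.log_nonneg ht), mul_comm]
    refine mul_le_mul_of_nonneg_left ?_ (Real.exp_pos _).le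
    have := Real.log_le_sub_one_of_pos (show 0 < t by linarith)
    linarith
  have h8 := integral_Ioi_mul_deriv_eq_deriv_mul h1 h2 h3 h4 h5 h6
  have h9 : (∫ x in Ioi y, x⁻¹ * -Real.exp (-x)) = -E1 y := by
    unfold E1
    rw [← integral_neg]
    refine integral_congr_ae (Eventually.of_forall fun x => ?_)
    simp only
    ring
  have h10 : (∫ x in Ioi y, Real.log x * Real.exp (-x)) =
      ∫ t in Ioi y, Real.exp (-t) * Real.log t := by
    refine integral_congr_ae (Eventually.of_forall fun x => ?_)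
    exact mul_comm _ _
  rw [h9, h10] at h8
  linarith

lemma log_le_int {y : ℝ} (hy : 0 < y) :
    ∫ t in Ioc 0 y, Real.exp (-t) * Real.log t ≤ (1 - Real.exp (-y)) * Real.log y := by
  have h1 : (1 - Real.exp (-y)) * Real.log y = ∫ t in Ioc 0 y, Real.exp (-t) * Real.log y := by
    rw [integral_mul_const, ← intervalIntegral.integral_of_le hy.le]
    congr 1
    have : ∀ x ∈ Set.uIcc 0 y, HasDerivAt (fun t : ℝ => -Real.exp (-t)) (Real.exp (-x)) x :=
      fun x _ => hder x
    rw [intervalIntegral.integral_eq_sub_of_hasDerivAt this]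
    · simp; ring
    · exact (by fun_prop : Continuous fun t : ℝ => Real.exp (-t)).intervalIntegrable _ _
  rw [h1]
  refine setIntegral_mono_on ?_ ?_ measurableSet_Ioc ?_
  · exact K5.MertensAux.integrable_exp_log.mono_set Ioc_subset_Ioi_self
  · refine IntegrableOn.mono_set (t := Icc 0 y) ?_ Ioc_subset_Icc_self
    exact (by fun_prop : Continuous fun t : ℝ => Real.exp (-t) * Real.log y).continuousOn.integrableOn_Icc
  · intro x hx
    refine mul_le_mul_of_nonneg_left ?_ (Real.exp_pos _).le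
    exact Real.log_le_log hx.1 hx.2

lemma e1_ge {y : ℝ} (hy : 0 < y) : -Real.eulerMascheroniConstant ≤ E1 y + Real.log y := by
  have h1 := K5.MertensAux.integral_exp_log
  have h2 : ∫ t in Ioi (0 : ℝ), Real.exp (-t) * Real.log t =
      (∫ t in Ioc 0 y, Real.exp (-t) * Real.log t) + ∫ t in Ioi y, Real.exp (-t) * Real.log t := by
    rw [← Ioc_union_Ioi_eq_Ioi hy.le, setIntegral_union Ioc_disjoint_Ioi_same measurableSet_Ioi
      (K5.MertensAux.integrable_exp_log.mono_set Ioc_subset_Ioi_self)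
      (K5.MertensAux.integrable_exp_log.mono_set (Ioi_subset_Ioi hy.le))]
  have h3 := log_le_int hy
  rw [e1_eq hy]
  rw [h2] at h1
  linarith

lemma VI_eq {ψ lo hi : ℝ} (hψ : 0 < ψ) (hlo : 0 < lo) (hhi : 0 < hi) :
    VI ψ lo hi = E1 (2 * ψ * lo) - E1 (2 * ψ * hi) := by
  have h1 : 0 < 2 * ψ * lo := by positivity
  have h2 : 0 < 2 * ψ * hi := by positivity
  have h3 : VI ψ lo hi = ∫ y in (2 * ψ * lo)..(2 * ψ * hi), Real.exp (-y) / y := by
    unfold VI
    have h4 := intervalIntegral.integral_comp_mul_left (a := lo) (b := hi)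
      (fun y : ℝ => Real.exp (-y) / y) (show (2 * ψ) ≠ 0 by positivity)
    rw [smul_eq_mul] at h4
    have h5 : (∫ y in (2 * ψ * lo)..(2 * ψ * hi), Real.exp (-y) / y) =
        2 * ψ * ∫ x in lo..hi, Real.exp (-(2 * ψ * x)) / (2 * ψ * x) := by
      rw [h4]
      field_simp
    rw [h5, ← intervalIntegral.integral_const_mul]
    refine intervalIntegral.integral_congr_ae (Eventually.of_forall fun x _ => ?_)
    by_cases hx : x = 0
    · simp [hx]
    · field_simp
  rw [h3]
  unfold E1
  rw [← intervalIntegral.integral_Ioi_sub_Ioi' (integrableOn_e1 h1) (integrableOn_e1 h2)]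

end SumVAux

open SumVAux in
theorem stSumV : StSumV := by
  intro ψ te₀ hψ hte ε hε
  refine ⟨0, fun M _ => ?_⟩
  rw [VI_eq hψ (Real.exp_pos _) hte]
  have h1 := e1_ge (show 0 < 2 * ψ * Real.exp (-(M : ℝ)) by positivity)
  rw [Real.log_mul (by positivity) (Real.exp_pos _).ne', Real.log_exp] at h1
  linarith

end K9
end Pool.Agent.Lib.MP_973905_nt
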