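import Pool.Agent.Lib.MP_973905_nt.K9.Stmts

/-!
# K9, module N1 (Tilt): the Gaussian shift for two polynomials
-/

set_option autoImplicit false

namespace Pool.Agent.Lib.MP_973905_nt.K9

namespace TiltAux

open Polynomial

theorem FK_eq (p q : Polynomial ℝ) (V : ℝ) {N : ℕ} (h : p.natDegree < N) :
    FK p q V = ∑ j ∈ Finset.range N, p.coeff j * q.coeff j * (j.factorial : ℝ) * V ^ j := by
  unfold FK
  refine Finset.sum_subset (fun j hj => ?_) (fun j _ hj => ?_)
  · rw [Finset.mem_range] at hj ⊢; omega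
  · rw [Finset.mem_range, not_lt] at hj
    rw [coeff_eq_zero_of_natDegree_lt (by omega)]
    simp

theorem FK_add (p₁ p₂ q : Polynomial ℝ) (V : ℝ) : FK (p₁ + p₂) q V = FK p₁ q V + FK p₂ q V := by
  have h1 : p₁.natDegree < p₁.natDegree + p₂.natDegree + 1 := by omega
  have h2 : p₂.natDegree < p₁.natDegree + p₂.natDegree + 1 := by omega
  have h3 : (p₁ + p₂).natDegree < p₁.natDegree + p₂.natDegree + 1 := by
    have := natDegree_add_le p₁ p₂
    omega
  rw [FK_eq _ _ _ h1, FK_eq _ _ _ h2, FK_eq _ _ _ h3, ← Finset.sum_add_distrib]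
  refine Finset.sum_congr rfl fun j _ => ?_
  rw [coeff_add]; ring

theorem FK_C_mul (a : ℝ) (p q : Polynomial ℝ) (V : ℝ) : FK (C a * p) q V = a * FK p q V := by
  have h3 : (C a * p).natDegree < p.natDegree + 1 := by
    have := natDegree_C_mul_le a p
    omega
  rw [FK_eq _ _ _ h3, FK_eq p _ _ (Nat.lt_succ_self _), Finset.mul_sum]
  refine Finset.sum_congr rfl fun j _ => ?_
  rw [coeff_C_mul]; ring

theorem FK_add_right (p q₁ q₂ : Polynomial ℝ) (V : ℝ) :
    FK p (q₁ + q₂) V = FK p q₁ V + FK p q₂ V := by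
  unfold FK
  rw [← Finset.sum_add_distrib]
  refine Finset.sum_congr rfl fun j _ => ?_
  rw [coeff_add]; ring

theorem FK_C_mul_right (a : ℝ) (p q : Polynomial ℝ) (V : ℝ) :
    FK p (C a * q) V = a * FK p q V := by
  unfold FK
  rw [Finset.mul_sum]
  refine Finset.sum_congr rfl fun j _ => ?_
  rw [coeff_C_mul]; ring

theorem FK_X_mul (p q : Polynomial ℝ) (V : ℝ) :
    FK (X * p) q V = V * FK p (derivative q) V := by
  have h3 : (X * p).natDegree < p.natDegree + 2 := by
    have := natDegree_mul_le (p := (X : Polynomial ℝ)) (q := p)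
    rw [natDegree_X] at this
    omega
  rw [FK_eq _ _ _ h3, FK_eq p _ _ (Nat.lt_succ_self _), Finset.sum_range_succ', Finset.mul_sum,
    mul_coeff_zero, coeff_X_zero]
  simp only [zero_mul, add_zero]
  refine Finset.sum_congr rfl fun j _ => ?_
  rw [coeff_X_mul, coeff_derivative, Nat.factorial_succ]
  push_cast
  ring

theorem sh_add (p₁ p₂ : Polynomial ℝ) (c : ℝ) : sh (p₁ + p₂) c = sh p₁ c + sh p₂ c := by
  simp [sh]

theorem sh_C_mul (a : ℝ) (p : Polynomial ℝ) (c : ℝ) : sh (C a * p) c = C a * sh p c := by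
  simp [sh]

theorem sh_C (a : ℝ) (c : ℝ) : sh (C a) c = C a := by
  simp [sh]

theorem sh_X_mul (p : Polynomial ℝ) (c : ℝ) : sh (X * p) c = X * sh p c + C c * sh p c := by
  simp [sh, add_mul]

theorem derivative_sh (p : Polynomial ℝ) (c : ℝ) : derivative (sh p c) = sh (derivative p) c := by
  simp [sh, derivative_comp]

theorem cfe_add (p₁ p₂ : Polynomial ℝ) (u : ℝ) (j : ℕ) :
    cfe (p₁ + p₂) u j = cfe p₁ u j + cfe p₂ u j := by
  unfold cfe
  rw [← Finset.sum_add_distrib]
  refine Finset.sum_congr rfl fun i _ => ?_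
  rw [coeff_add]; ring

theorem cfe_C_mul (a : ℝ) (p : Polynomial ℝ) (u : ℝ) (j : ℕ) :
    cfe (C a * p) u j = a * cfe p u j := by
  unfold cfe
  rw [Finset.mul_sum]
  refine Finset.sum_congr rfl fun i _ => ?_
  rw [coeff_C_mul]; ring

theorem cfe_X_mul_zero (p : Polynomial ℝ) (u : ℝ) : cfe (X * p) u 0 = 0 := by
  simp [cfe]

theorem cfe_X_mul_succ (p : Polynomial ℝ) (u : ℝ) (j : ℕ) :
    cfe (X * p) u (j + 1) = cfe p u j := by
  unfold cfe
  rw [Finset.sum_range_succ']
  simp only [coeff_X_mul, mul_coeff_zero, coeff_X_zero, zero_mul, add_zero, Nat.add_sub_add_right]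

theorem cfe_C (a u : ℝ) (j : ℕ) : cfe (C a) u j = a * ((-u) ^ j / (j.factorial : ℝ)) := by
  unfold cfe
  rw [Finset.sum_range_succ']
  simp [coeff_C]

/-- the Taylor coefficients of the derivative -/
theorem cfe_deriv (q : Polynomial ℝ) (w : ℝ) (j : ℕ) :
    cfe (derivative q + C (-w) * q) w j = ((j : ℝ) + 1) * cfe q w (j + 1) := by
  rw [cfe_add, cfe_C_mul]
  unfold cfe
  rw [Finset.sum_range_succ' (fun i => q.coeff i * ((-w) ^ (j + 1 - i) / ((j + 1 - i).factorial : ℝ)))]
  have h1 : ∀ i ∈ Finset.range (j + 1), (derivative q).coeff i * ((-w) ^ (j - i) /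
      ((j - i).factorial : ℝ)) = ((i : ℝ) + 1) * (q.coeff (i + 1) * ((-w) ^ (j + 1 - (i + 1)) /
      ((j + 1 - (i + 1)).factorial : ℝ))) := by
    intro i _
    rw [coeff_derivative, Nat.add_sub_add_right]
    ring
  rw [Finset.sum_congr rfl h1]
  have h2 : ∀ i ∈ Finset.range (j + 1), -w * (q.coeff i * ((-w) ^ (j - i) /
      ((j - i).factorial : ℝ))) = ((j : ℝ) + 1 - i) * (q.coeff i * ((-w) ^ (j + 1 - i) /
      ((j + 1 - i).factorial : ℝ))) := by
    intro i hi
    rw [Finset.mem_range] at hi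
    have e : j + 1 - i = (j - i) + 1 := by omega
    have e2 : ((j - i : ℕ) : ℝ) = (j : ℝ) - i := by
      rw [Nat.cast_sub (by omega)]
    have h3 : ((j - i : ℕ) : ℝ) + 1 ≠ 0 := by positivity
    have h4 : ((j - i).factorial : ℝ) ≠ 0 := by positivity
    have h5 : (j : ℝ) + 1 - i = ((j - i : ℕ) : ℝ) + 1 := by rw [e2]; ring
    rw [e, pow_succ, Nat.factorial_succ, h5]
    push_cast
    rw [e2] at h3 ⊢
    field_simp
  rw [Finset.mul_sum, Finset.sum_congr rfl h2,
    Finset.sum_range_succ' (fun i : ℕ => ((j : ℝ) + 1 - i) * (q.coeff i * ((-w) ^ (j + 1 - i) /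
      ((j + 1 - i).factorial : ℝ))))]
  have h6 : ∑ i ∈ Finset.range j, ((j : ℝ) + 1 - ((i + 1 : ℕ) : ℝ)) * (q.coeff (i + 1) *
      ((-w) ^ (j + 1 - (i + 1)) / ((j + 1 - (i + 1)).factorial : ℝ))) =
      ∑ i ∈ Finset.range (j + 1), ((j : ℝ) - i) * (q.coeff (i + 1) *
      ((-w) ^ (j + 1 - (i + 1)) / ((j + 1 - (i + 1)).factorial : ℝ))) := by
    rw [Finset.sum_range_succ (fun i : ℕ => ((j : ℝ) - i) * (q.coeff (i + 1) *
      ((-w) ^ (j + 1 - (i + 1)) / ((j + 1 - (i + 1)).factorial : ℝ))))]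
    rw [sub_self, zero_mul, add_zero]
    refine Finset.sum_congr rfl fun i _ => ?_
    push_cast
    ring
  rw [h6, ← add_assoc, ← Finset.sum_add_distrib, mul_add, Finset.mul_sum]
  congr 1
  · refine Finset.sum_congr rfl fun i _ => ?_
    ring
  · simp

/-- the term of the series -/
noncomputable def tm (p q : Polynomial ℝ) (u w V : ℝ) (j : ℕ) : ℝ :=
  cfe p u j * cfe q w j * (j.factorial : ℝ) * V ^ j

/-- the value -/
noncomputable def vl (p q : Polynomial ℝ) (u w V : ℝ) : ℝ :=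
  Real.exp (u * w * V) * FK (sh p (-(w * V))) (sh q (-(u * V))) V

theorem tm_X (p q : Polynomial ℝ) (u w V : ℝ) (j : ℕ) :
    tm (X * p) q u w V (j + 1) = V * tm p (derivative q + C (-w) * q) u w V j := by
  unfold tm
  rw [cfe_X_mul_succ, cfe_deriv, Nat.factorial_succ]
  push_cast
  ring

theorem vl_X (p q : Polynomial ℝ) (u w V : ℝ) :
    vl (X * p) q u w V = V * vl p (derivative q + C (-w) * q) u w V := by
  unfold vl
  rw [sh_X_mul, FK_add, FK_X_mul, FK_C_mul, sh_add, sh_C_mul, FK_add_right, FK_C_mul_right,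
    derivative_sh]
  ring

theorem hasSum_X {p q : Polynomial ℝ} {u w V : ℝ}
    (h : HasSum (tm p (derivative q + C (-w) * q) u w V)
      (vl p (derivative q + C (-w) * q) u w V)) :
    HasSum (tm (X * p) q u w V) (vl (X * p) q u w V) := by
  rw [vl_X]
  have h1 : HasSum (fun j => tm (X * p) q u w V (j + 1))
      (V * vl p (derivative q + C (-w) * q) u w V) := by
    simp_rw [tm_X]
    exact h.mul_left V
  have h2 := (hasSum_nat_add_iff (f := tm (X * p) q u w V) 1).1 h1
  rw [Finset.sum_range_one] at h2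
  have h3 : tm (X * p) q u w V 0 = 0 := by
    unfold tm
    rw [cfe_X_mul_zero]
    ring
  rw [h3, add_zero] at h2
  exact h2

theorem hasSum_add {p₁ p₂ q : Polynomial ℝ} {u w V : ℝ}
    (h₁ : HasSum (tm p₁ q u w V) (vl p₁ q u w V)) (h₂ : HasSum (tm p₂ q u w V) (vl p₂ q u w V)) :
    HasSum (tm (p₁ + p₂) q u w V) (vl (p₁ + p₂) q u w V) := by
  have e : vl (p₁ + p₂) q u w V = vl p₁ q u w V + vl p₂ q u w V := by
    unfold vl
    rw [sh_add, FK_add]; ring
  rw [e]
  refine (h₁.add h₂).congr_fun ?_ |> id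
  intro j
  unfold tm
  rw [cfe_add]; ring

theorem hasSum_C_mul {p q : Polynomial ℝ} {u w V : ℝ} (a : ℝ)
    (h : HasSum (tm p q u w V) (vl p q u w V)) :
    HasSum (tm (C a * p) q u w V) (vl (C a * p) q u w V) := by
  have e : vl (C a * p) q u w V = a * vl p q u w V := by
    unfold vl
    rw [sh_C_mul, FK_C_mul]; ring
  have e2 : tm (C a * p) q u w V = fun j => a * tm p q u w V j := by
    funext j
    unfold tm
    rw [cfe_C_mul]; ring
  rw [e, e2]
  exact h.mul_left a

theorem tm_comm (p q : Polynomial ℝ) (u w V : ℝ) (j : ℕ) : tm p q u w V j = tm q p w u V j := by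
  unfold tm; ring

theorem FK_comm (p q : Polynomial ℝ) (V : ℝ) : FK p q V = FK q p V := by
  have h1 : p.natDegree < p.natDegree + q.natDegree + 1 := by omega
  have h2 : q.natDegree < p.natDegree + q.natDegree + 1 := by omega
  rw [FK_eq _ _ _ h1, FK_eq _ _ _ h2]
  refine Finset.sum_congr rfl fun j _ => ?_
  ring

theorem vl_comm (p q : Polynomial ℝ) (u w V : ℝ) : vl p q u w V = vl q p w u V := by
  unfold vl
  rw [FK_comm, mul_comm u w]

theorem hasSum_comm {p q : Polynomial ℝ} {u w V : ℝ}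
    (h : HasSum (tm p q u w V) (vl p q u w V)) : HasSum (tm q p w u V) (vl q p w u V) := by
  rw [← vl_comm]
  have e : tm q p w u V = tm p q u w V := by
    funext j
    rw [tm_comm]
  rw [e]
  exact h

/-- Induction on the first polynomial. -/
theorem hasSum_of_one {u w V : ℝ} (h : ∀ q : Polynomial ℝ, HasSum (tm 1 q u w V) (vl 1 q u w V))
    (p : Polynomial ℝ) : ∀ q : Polynomial ℝ, HasSum (tm p q u w V) (vl p q u w V) := by
  induction p using Polynomial.induction_on with
  | C a =>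
    intro q
    have := hasSum_C_mul a (h q)
    rwa [mul_one] at this
  | add p₁ p₂ h₁ h₂ => exact fun q => hasSum_add (h₁ q) (h₂ q)
  | monomial n a ih =>
    intro q
    have e : (C a : Polynomial ℝ) * X ^ (n + 1) = X * (C a * X ^ n) := by ring
    rw [e]
    exact hasSum_X (ih _)

theorem hasSum_one_one (u w V : ℝ) : HasSum (tm 1 1 u w V) (vl 1 1 u w V) := by
  have h := NormedSpace.expSeries_div_hasSum_exp (𝔸 := ℝ) (u * w * V)
  rw [← Real.exp_eq_exp_ℝ] at h
  have e : vl 1 1 u w V = Real.exp (u * w * V) := by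
    unfold vl
    have e1 : ∀ c : ℝ, sh 1 c = 1 := fun c => by simp [sh]
    rw [e1, e1]
    simp [FK]
  rw [e]
  have e2 : tm 1 1 u w V = fun j => (u * w * V) ^ j / (j.factorial : ℝ) := ?_
  · rw [e2]; exact h
  funext j
  unfold tm
  rw [← C_1, cfe_C, cfe_C]
  have h1 : (j.factorial : ℝ) ≠ 0 := by positivity
  field_simp
  rw [mul_pow, mul_pow, neg_pow u, neg_pow w]
  have h2 : ((-1 : ℝ) ^ j) * (-1) ^ j = 1 := by
    rw [← mul_pow]; simp
  linear_combination (u ^ j * w ^ j * V ^ j) * h2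

theorem hasSum_one_right (u w V : ℝ) (q : Polynomial ℝ) :
    HasSum (tm q 1 u w V) (vl q 1 u w V) := by
  induction q using Polynomial.induction_on with
  | C a =>
    have := hasSum_C_mul a (hasSum_one_one u w V)
    rwa [mul_one] at this
  | add p₁ p₂ h₁ h₂ => exact hasSum_add h₁ h₂
  | monomial n a ih =>
    have e : (C a : Polynomial ℝ) * X ^ (n + 1) = X * (C a * X ^ n) := by ring
    rw [e]
    refine hasSum_X ?_
    rw [derivative_one, zero_add]
    exact hasSum_comm (hasSum_C_mul (-w) (hasSum_comm ih))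

end TiltAux

open TiltAux in
/-- Module N1. -/
theorem stTilt : StTilt := fun p q u w V _ =>
  hasSum_of_one (fun q' => hasSum_comm (hasSum_one_right w u V q')) p q

end Pool.Agent.Lib.MP_973905_nt.K9
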