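import Pool.Agent.Lib.MP_973905_nt.K9.Base
import Pool.Agent.Lib.MP_973905_nt.K5.TopLim

set_option autoImplicit false

/-! Module (Z2) of K9: the limits of the factors of the top blocks. -/

namespace Pool.Agent.Lib.MP_973905_nt
namespace K9

open MeasureTheory ProbabilityTheory Complex Filter Topology K1 K4 K5

namespace Top9Aux

/-- polynomials of bounded continuous functionals -/
lemma bs_aeval {S : Finset ℕ} {F : (ℕ → ℂ) → ℂ} (hF : BS S F) (p : Polynomial ℝ) :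
    BS S (fun f => Polynomial.aeval (F f) p) := by
  have h : (fun f => Polynomial.aeval (F f) p) =
      fun f => ∑ i ∈ Finset.range (p.natDegree + 1), ((p.coeff i : ℝ) : ℂ) * F f ^ i := by
    funext f
    rw [Polynomial.aeval_eq_sum_range]
    exact Finset.sum_congr rfl fun i _ => by rw [Complex.real_smul]
  rw [h]
  exact bs_sum _ fun i _ => (bs_const S _).mul (hF.pow i)

/-- the square of the norm of a polynomial of the prime sum -/
noncomputable def Q (S : Finset ℕ) (a : ℂ) (p : Polynomial ℝ) (f : ℕ → ℂ) : ℝ :=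
  ‖Polynomial.aeval (∑ l ∈ S, tw (1 / 2 + a) f l) p‖ ^ 2

lemma bs_Q (S : Finset ℕ) (a : ℂ) (p : Polynomial ℝ) : BS S (Q S a p) :=
  (bs_aeval (bs_sum S (F := fun l f => tw (1 / 2 + a) f l) fun l _ => bs_tw S _ l) p).norm_sq

lemma ES_Q (S : Finset ℕ) (a : ℂ) (p : Polynomial ℝ) :
    ES S (fun f => Polynomial.aeval (∑ l ∈ S, tw (1 / 2 + a) f l) p *
        (starRingEnd ℂ) (Polynomial.aeval (∑ l ∈ S, tw (1 / 2 + a) f l) p)) =
      ((ES S (Q S a p) : ℝ) : ℂ) := by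
  unfold ES
  refine Eq.trans ?_ (integral_ofReal (𝕜 := ℂ) (f := fun ω : S → ℝ => Q S a p (ext S ω)))
  refine integral_congr_ae (Eventually.of_forall fun ω => ?_)
  simp only [Q, Complex.mul_conj']
  exact (Complex.ofReal_pow _ _).symm

end Top9Aux

open Top9Aux

/-- (Z2) the limits of the top factors (compare `K8.StTop8`) -/
theorem stTop9 (h : StGaussM) : StTop9 := by
  intro k M C hC i hi ε hε
  have hlo : 0 < C.te (i + 1) := hC.hpos (i + 1) (by omega)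
  have hlh : C.te (i + 1) < C.te i := hC.hdec i hi
  have hhi : C.te i ≤ 1 := (Blk9.te_anti hC (Nat.zero_le i) hi.le).trans (Blk9.te_zero_le hC)
  obtain ⟨T₁, hT₁, h1⟩ := h _ _ _ hlo hlh hhi hC.hpsi (C.A i) (C.B i) ε hε
  obtain ⟨T₂, hT₂, h2⟩ := h _ _ _ hlo hlh hhi hC.hpsi (C.A i) (C.A i) ε hε
  obtain ⟨T₃, hT₃, h3⟩ := h _ _ _ hlo hlh hhi hC.hpsi (C.W₀ i) (C.W₀ i) (ε / 2) (by positivity)
  obtain ⟨T₄, hT₄, h4⟩ := h _ _ _ hlo hlh hhi hC.hpsi (C.W₁ i) (C.W₁ i) (ε / 2) (by positivity)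
  refine ⟨max (max T₁ T₂) (max T₃ T₄), le_trans hT₁ ((le_max_left _ _).trans (le_max_left _ _)),
    fun T hT => ?_⟩
  have hTa : T₁ ≤ T := ((le_max_left _ _).trans (le_max_left _ _)).trans hT
  have hTb : T₂ ≤ T := ((le_max_right _ _).trans (le_max_left _ _)).trans hT
  have hTc : T₃ ≤ T := ((le_max_left _ _).trans (le_max_right _ _)).trans hT
  have hTd : T₄ ≤ T := ((le_max_right _ _).trans (le_max_right _ _)).trans hT
  have g1 := (h1 T hTa (C.U T i) rfl ((C.a T : ℝ) : ℂ) rfl).2.1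
  have g2 := (h2 T hTb (C.U T i) rfl ((C.a T : ℝ) : ℂ) rfl).2.2
  have g3 := (h3 T hTc (C.U T i) rfl ((C.a T : ℝ) : ℂ) rfl).1
  have g4 := (h4 T hTd (C.U T i) rfl ((C.a T : ℝ) : ℂ) rfl).1
  refine ⟨?_, ?_, ?_⟩
  · have e1 : ETf C T i = ES (C.U T i) (fun f => ZZ (C.U T i) (tw (1 / 2 + ((C.a T : ℝ) : ℂ)) f) *
        (Polynomial.aeval (∑ l ∈ C.U T i, tw (1 / 2 + ((C.a T : ℝ) : ℂ)) f l) (C.A i) *
          (starRingEnd ℂ) (Polynomial.aeval
            (∑ l ∈ C.U T i, tw (1 / 2 + ((C.a T : ℝ) : ℂ)) f l) (C.B i)))) := by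
      unfold ETf
      simp only [Blk9.P_tw]
    rw [e1]
    exact g1
  · have e1 : ETs C T ((C.a T : ℝ) : ℂ) i =
        ES (C.U T i) (fun f => ZZ (C.U T i) (tw (1 / 2 + ((C.a T : ℝ) : ℂ)) f) *
        (starRingEnd ℂ) (ZZ (C.U T i) (tw (1 / 2 + ((C.a T : ℝ) : ℂ)) f)) *
        (Polynomial.aeval (∑ l ∈ C.U T i, tw (1 / 2 + ((C.a T : ℝ) : ℂ)) f l) (C.A i) *
          (starRingEnd ℂ) (Polynomial.aeval
            (∑ l ∈ C.U T i, tw (1 / 2 + ((C.a T : ℝ) : ℂ)) f l) (C.A i)))) *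
        ∏ l ∈ C.U T i, (1 - (l : ℂ) ^ (-(1 + ((C.a T : ℝ) : ℂ) + ((C.a T : ℝ) : ℂ)))) := by
      unfold ETs
      simp only [Blk9.P_tw, Complex.conj_ofReal, Complex.mul_conj']
      push_cast
      rfl
    rw [e1]
    exact g2
  · rw [ES_Q, ← Complex.ofReal_sub, Complex.norm_real, Real.norm_eq_abs] at g3 g4
    have e1 : ES (C.U T i) (fun f => VT C T i (tw (1 / 2) f)) =
        ES (C.U T i) (Q (C.U T i) ((C.a T : ℝ) : ℂ) (C.W₀ i)) +
          ES (C.U T i) (Q (C.U T i) ((C.a T : ℝ) : ℂ) (C.W₁ i)) := by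
      have e2 : (fun f => VT C T i (tw (1 / 2) f)) = fun f =>
          Q (C.U T i) ((C.a T : ℝ) : ℂ) (C.W₀ i) f + Q (C.U T i) ((C.a T : ℝ) : ℂ) (C.W₁ i) f := by
        funext f
        simp only [VT, Blk9.P_tw, Q]
      rw [e2]
      exact integral_add (bs_Q _ _ _).integrable (bs_Q _ _ _).integrable
    have e3 : ES (C.U T i) (fun f => VT C T i (tw (1 / 2) f)) - lW C i =
        (ES (C.U T i) (Q (C.U T i) ((C.a T : ℝ) : ℂ) (C.W₀ i)) -
          FK (C.W₀ i) (C.W₀ i) (VI C.psi (C.te (i + 1)) (C.te i))) +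
        (ES (C.U T i) (Q (C.U T i) ((C.a T : ℝ) : ℂ) (C.W₁ i)) -
          FK (C.W₁ i) (C.W₁ i) (VI C.psi (C.te (i + 1)) (C.te i))) := by
      rw [e1, lW, Cfg.V]
      ring
    rw [e3]
    refine (abs_add_le _ _).trans ?_
    linarith

end K9
end Pool.Agent.Lib.MP_973905_nt
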