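import Pool.Agent.Lib.MP_973905_nt.K5.AllK5
import Pool.Agent.Lib.MP_973905_nt.K8.AllK8
import Pool.Agent.Lib.MP_973905_nt.K9.Adm9
import Pool.Agent.Lib.MP_973905_nt.K9.BQ9
import Pool.Agent.Lib.MP_973905_nt.K9.BackS
import Pool.Agent.Lib.MP_973905_nt.K9.BlkF
import Pool.Agent.Lib.MP_973905_nt.K9.BotF
import Pool.Agent.Lib.MP_973905_nt.K9.BotS
import Pool.Agent.Lib.MP_973905_nt.K9.BotV9
import Pool.Agent.Lib.MP_973905_nt.K9.Cont9
import Pool.Agent.Lib.MP_973905_nt.K9.CrudeD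
import Pool.Agent.Lib.MP_973905_nt.K9.E1
import Pool.Agent.Lib.MP_973905_nt.K9.FE9
import Pool.Agent.Lib.MP_973905_nt.K9.FactF
import Pool.Agent.Lib.MP_973905_nt.K9.FactS
import Pool.Agent.Lib.MP_973905_nt.K9.FockCS
import Pool.Agent.Lib.MP_973905_nt.K9.Fst9
import Pool.Agent.Lib.MP_973905_nt.K9.GaussM
import Pool.Agent.Lib.MP_973905_nt.K9.Gu9
import Pool.Agent.Lib.MP_973905_nt.K9.HalfS
import Pool.Agent.Lib.MP_973905_nt.K9.Hold9
import Pool.Agent.Lib.MP_973905_nt.K9.Lam9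
import Pool.Agent.Lib.MP_973905_nt.K9.Len9
import Pool.Agent.Lib.MP_973905_nt.K9.LongS
import Pool.Agent.Lib.MP_973905_nt.K9.Loss9
import Pool.Agent.Lib.MP_973905_nt.K9.MeanV9
import Pool.Agent.Lib.MP_973905_nt.K9.MoveS
import Pool.Agent.Lib.MP_973905_nt.K9.NA
import Pool.Agent.Lib.MP_973905_nt.K9.NB
import Pool.Agent.Lib.MP_973905_nt.K9.NumA
import Pool.Agent.Lib.MP_973905_nt.K9.NumB
import Pool.Agent.Lib.MP_973905_nt.K9.NumC
import Pool.Agent.Lib.MP_973905_nt.K9.NumD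
import Pool.Agent.Lib.MP_973905_nt.K9.Off
import Pool.Agent.Lib.MP_973905_nt.K9.Part9
import Pool.Agent.Lib.MP_973905_nt.K9.PrimeV
import Pool.Agent.Lib.MP_973905_nt.K9.Pt9
import Pool.Agent.Lib.MP_973905_nt.K9.PtB9
import Pool.Agent.Lib.MP_973905_nt.K9.Sec9
import Pool.Agent.Lib.MP_973905_nt.K9.SideV9
import Pool.Agent.Lib.MP_973905_nt.K9.SumV
import Pool.Agent.Lib.MP_973905_nt.K9.Tilt
import Pool.Agent.Lib.MP_973905_nt.K9.Top9
import Pool.Agent.Lib.MP_973905_nt.K9.TransS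
import Pool.Agent.Lib.MP_973905_nt.K9.Final9

/-! Assembly of the lower bound with explicit constants for all orders `0 < k < 1`. -/

namespace Pool.Agent.Lib.MP_973905_nt.K9

/-- The lower bound for every fixed order `0 < k < 1`. -/
theorem final9 : StFinal9 := by
  have b2 : K5.StAK := K5.stAK K5.stMertens
  have b7 : K5.StLFLip := K5.stLFLip K1.stLF
  have s1 : StHalfS := stHalfS K5.stRect K5.stStripH (stFE9 K1.stFFpair (K5.stM4 F4.stCr4_all))
  have s2 : StLongS := stLongS s1 stMoveS K5.stPairA (stBackS K5.stRect) K5.stMS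
  have s3 : StTransS := stTransS (K1.stZetaPair K1.stShift)
  have t : StTop9 := stTop9 (stGaussM (stPrimeV K5.stPrimeInt))
  have q : StBQ9 := stBQ9 K1.stShort
  have s4 : StFst9 := stFst9 s3 q stFactF (stBotF stBlkF b2) t b2
  have s5 : StSec9 := stSec9 s2 q stFactS (stBotS (K1.stBlockShift K1.stLF) b7 b2) t b2
  have s6 : StSideV9 := stSideV9 (stMeanV9 stLen9) (stBotV9 (K5.stBotG b2) K8.stBadN b2) t b2
  have hh : StHold9 := stHold9 s4 s5 s6 (stPt9 stPtB9) (stCont9 q stLen9) stOff K8.stAvL b2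
  have m6 : StLoss9 := stLoss9 stTilt (stFockCS stTilt) (stNA stCrudeD) (stNB stCrudeD stPart9)
  exact stFinal9 hh (stAdm9 m6) (stLam9 m6 (stAdm9 m6)) stSumV (stNumA stE1 stGu9)
    (stNumB stE1 stGu9) (stNumC stE1 stGu9) (stNumD stE1 stGu9) b2

end Pool.Agent.Lib.MP_973905_nt.K9
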