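import Pool.Agent.Lib.MP_973905_nt.K8.Stmts

/-! Definitions for the lower bounds with explicit constants for all orders `0 < k < 1`
(folder K9). -/

namespace Pool.Agent.Lib.MP_973905_nt
namespace K9

open MeasureTheory ProbabilityTheory Complex Filter Topology K1 K4 K5

/-! ### Polynomials and their limits -/

/-- The pairing `∑ j! V^j p_j q_j` of two polynomials, `= E p(P) conj q(P)` for a complex Gaussian
`P` with `E |P|² = V`. -/
noncomputable def FK (p q : Polynomial ℝ) (V : ℝ) : ℝ :=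
  ∑ j ∈ Finset.range (p.natDegree + 1), p.coeff j * q.coeff j * (j.factorial : ℝ) * V ^ j

/-- The translate `p(X + c)`. -/
noncomputable def sh (p : Polynomial ℝ) (c : ℝ) : Polynomial ℝ :=
  p.comp (Polynomial.X + Polynomial.C c)

/-- The variance of the prime sum over the primes between `T^lo` and `T^hi`, shift `ψ / log T`. -/
noncomputable def VI (ψ lo hi : ℝ) : ℝ := ∫ x in lo..hi, Real.exp (-(2 * ψ * x)) / x

/-! ### The top blocks -/

/-- The data of the top blocks: their number, their ends (exponents of `T`), the shift (times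
`log T`) and the polynomials. -/
structure Cfg where
  /-- number of top blocks -/
  N : ℕ
  /-- ends of the blocks -/
  te : ℕ → ℝ
  /-- the shift times `log T` -/
  psi : ℝ
  /-- polynomials, side of zeta -/
  A : ℕ → Polynomial ℝ
  /-- polynomials, other side -/
  B : ℕ → Polynomial ℝ
  /-- majorant -/
  W₀ : ℕ → Polynomial ℝ
  /-- majorant -/
  W₁ : ℕ → Polynomial ℝ

/-- The variance of the prime sum over a top block. -/
noncomputable def Cfg.V (C : Cfg) (i : ℕ) : ℝ := VI C.psi (C.te (i + 1)) (C.te i)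

/-- The top blocks of primes. -/
noncomputable def Cfg.U (C : Cfg) (T : ℝ) (i : ℕ) : Finset ℕ :=
  PS (Real.exp (C.te (i + 1) * Real.log T)) (Real.exp (C.te i * Real.log T))

/-- The shift. -/
noncomputable def Cfg.a (C : Cfg) (T : ℝ) : ℝ := C.psi / Real.log T

/-- The prime sum over a top block. -/
noncomputable def Cfg.P (C : Cfg) (T : ℝ) (i : ℕ) (f : ℕ → ℂ) : ℂ :=
  ∑ p ∈ C.U T i, tw ((C.a T : ℝ) : ℂ) f p

/-- All blocks: the bottom blocks, the top blocks, the rest up to `T`. -/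
noncomputable def BB9 (C : Cfg) (T : ℝ) (M j : ℕ) : Finset ℕ :=
  if j ≤ JJ T then Sj T M (JJ T) j else
    if j ≤ JJ T + C.N then C.U T (j - (JJ T + 1)) else PS (Real.exp (C.te 0 * Real.log T)) T

/-- The family of all blocks. -/
noncomputable def SB9 (C : Cfg) (T : ℝ) (M : ℕ) : Fin (JJ T + 1 + C.N + 1) → Finset ℕ :=
  fun j => BB9 C T M j

/-! ### The weights -/

/-- The Dirichlet polynomial `≈ ζ^{k-1}`. -/
noncomputable def G1 (k : ℝ) (C : Cfg) (T : ℝ) (M : ℕ) (f : ℕ → ℂ) : ℂ :=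
  NN T M (k - 1) f * ∏ i ∈ Finset.range C.N, Polynomial.aeval (C.P T i f) (C.A i)

/-- The Dirichlet polynomial `≈ ζ^k`. -/
noncomputable def G2 (k : ℝ) (C : Cfg) (T : ℝ) (M : ℕ) (f : ℕ → ℂ) : ℂ :=
  NN T M k f * ∏ i ∈ Finset.range C.N, Polynomial.aeval (C.P T i f) (C.B i)

/-- The majorant of a top factor. -/
noncomputable def VT (C : Cfg) (T : ℝ) (i : ℕ) (f : ℕ → ℂ) : ℝ :=
  ‖Polynomial.aeval (C.P T i f) (C.W₀ i)‖ ^ 2 + ‖Polynomial.aeval (C.P T i f) (C.W₁ i)‖ ^ 2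

/-- The majorant of a bottom factor, as a function of the prime sum. -/
noncomputable def VBz (k T : ℝ) (M j : ℕ) (z : ℂ) : ℝ :=
  (1 + Real.exp (-(KK M (JJ T) j / 2))) * ‖Ntr (ll M (JJ T) j) k z‖ ^ 2 +
    Real.exp (2 * K8.pe k * KK M (JJ T) j) * ‖(z / (KK M (JJ T) j : ℂ)) ^ K8.nb k T M j‖ ^ 2

/-- The majorant of a bottom factor. -/
noncomputable def VB (k T : ℝ) (M j : ℕ) (f : ℕ → ℂ) : ℝ :=
  VBz k T M j (Pj M (Sj T M (JJ T) j) f)

/-- The weight on the side without zeta, a majorant of `|G1|² |G2|^{2/k}`. -/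
noncomputable def VV9 (k : ℝ) (C : Cfg) (T : ℝ) (M : ℕ) (f : ℕ → ℂ) : ℝ :=
  (∏ j ∈ Finset.range (JJ T + 1), VB k T M j f) * ∏ i ∈ Finset.range C.N, VT C T i f

/-! ### The limits -/

/-- The limit of a top factor, first moment. -/
noncomputable def lF (C : Cfg) (i : ℕ) : ℝ := FK (C.A i) (sh (C.B i) (C.V i)) (C.V i)

/-- The limit of a top factor, second moment. -/
noncomputable def lS (C : Cfg) (i : ℕ) : ℝ :=
  FK (sh (C.A i) (C.V i)) (sh (C.A i) (C.V i)) (C.V i)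

/-- The limit of a top factor, side without zeta. -/
noncomputable def lW (C : Cfg) (i : ℕ) : ℝ :=
  FK (C.W₀ i) (C.W₀ i) (C.V i) + FK (C.W₁ i) (C.W₁ i) (C.V i)

/-- The factor of a bottom block, first moment. -/
noncomputable def EBf (T : ℝ) (M : ℕ) (k a : ℝ) (j : ℕ) : ℂ :=
  ES (Sj T M (JJ T) j) (fun f => ZZ (Sj T M (JJ T) j) (tw (1 / 2 + (a : ℂ)) f) *
    (Fc T M (JJ T) (k - 1) (Finset.range (JJ T + 1)) ∅ j (tw (1 / 2) f) *
      (starRingEnd ℂ) (Fc T M (JJ T) k (Finset.range (JJ T + 1)) ∅ j (tw (1 / 2) f))))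

/-- The factor of a top block, first moment. -/
noncomputable def ETf (C : Cfg) (T : ℝ) (i : ℕ) : ℂ :=
  ES (C.U T i) (fun f => ZZ (C.U T i) (tw (1 / 2 + ((C.a T : ℝ) : ℂ)) f) *
    (Polynomial.aeval (C.P T i (tw (1 / 2) f)) (C.A i) *
      (starRingEnd ℂ) (Polynomial.aeval (C.P T i (tw (1 / 2) f)) (C.B i))))

/-- The factor of a top block, second moment. -/
noncomputable def ETs (C : Cfg) (T : ℝ) (w : ℂ) (i : ℕ) : ℂ :=
  ES (C.U T i) (fun f => ZZ (C.U T i) (tw (1 / 2 + w) f) *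
    (starRingEnd ℂ) (ZZ (C.U T i) (tw (1 / 2 + (starRingEnd ℂ) w) f)) *
    ((‖Polynomial.aeval (C.P T i (tw (1 / 2) f)) (C.A i)‖ ^ 2 : ℝ) : ℂ)) *
    ∏ p ∈ C.U T i, (1 - (p : ℂ) ^ (-(1 + w + w)))

/-- Admissible data. -/
structure Adm (k : ℝ) (M : ℕ) (C : Cfg) : Prop where
  hN : 1 ≤ C.N
  hpos : ∀ i, i ≤ C.N → 0 < C.te i
  hdec : ∀ i, i < C.N → C.te (i + 1) < C.te i
  hlast : C.te C.N = Real.exp (-(M : ℝ))
  htop : C.te 0 ≤ 1 / 4
  hpsi : 0 < C.psi
  hmaj : ∀ i, i < C.N → ∀ z : ℂ,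
    ‖Polynomial.aeval z (C.A i)‖ ^ 2 * (‖Polynomial.aeval z (C.B i)‖ ^ 2) ^ (1 / k) ≤
      ‖Polynomial.aeval z (C.W₀ i)‖ ^ 2 + ‖Polynomial.aeval z (C.W₁ i)‖ ^ 2
  hF : ∀ i, i < C.N → 0 < lF C i
  hS : ∀ i, i < C.N → 0 < lS C i
  hW : ∀ i, i < C.N → 0 < lW C i
  bud1 : ∑ i ∈ Finset.range C.N, ((C.A i).natDegree : ℝ) * C.te i ≤ 44 / 100
  bud2 : ∑ i ∈ Finset.range C.N, (max (C.W₀ i).natDegree (C.W₁ i).natDegree : ℝ) * C.te i ≤
    93 / 100
  bud3 : ∑ i ∈ Finset.range C.N, ((C.B i).natDegree : ℝ) * C.te i ≤ 88 / 100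

/-- The kernel of the contour integrals: `X^{w-a} e^{w²-a²} w / (w²-a²)`. -/
noncomputable def KNa (X a : ℝ) (w : ℂ) : ℂ :=
  (X : ℂ) ^ (w - a) * cexp (w ^ 2 - a ^ 2) * (w / (w ^ 2 - a ^ 2))

/-! ### Our choice -/

/-- `≈ exp (-((1-k)/D) (X - kV))` -/
noncomputable def pA (k : ℝ) (D : ℕ) (V : ℝ) : Polynomial ℝ :=
  1 - Polynomial.C ((1 - k) / D) * (Polynomial.X - Polynomial.C (k * V))

/-- `≈ exp ((k/E) (X - kV))` -/
noncomputable def pB (k : ℝ) (E : ℕ) (V : ℝ) : Polynomial ℝ :=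
  1 + Polynomial.C (k / E) * (Polynomial.X - Polynomial.C (k * V))

/-- The integer part of `E / k`. -/
noncomputable def mk (k : ℝ) (E : ℕ) : ℕ := ⌊(E : ℝ) / k⌋₊

/-- The fractional part of `E / k`. -/
noncomputable def tk (k : ℝ) (E : ℕ) : ℝ := (E : ℝ) / k - mk k E

/-- The first majorant. -/
noncomputable def w0 (k : ℝ) (D E : ℕ) (V : ℝ) : Polynomial ℝ :=
  Polynomial.C (√(1 - tk k E)) * (pA k D V ^ D * pB k E V ^ mk k E)

/-- The second majorant. -/
noncomputable def w1 (k : ℝ) (D E : ℕ) (V : ℝ) : Polynomial ℝ :=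
  Polynomial.C (√(tk k E)) * (pA k D V ^ D * pB k E V ^ (mk k E + 1))

/-- The limit of a top factor, first moment. -/
noncomputable def bF (k : ℝ) (D E : ℕ) (V : ℝ) : ℝ := FK (pA k D V ^ D) (sh (pB k E V ^ E) V) V

/-- The limit of a top factor, second moment. -/
noncomputable def bS (k : ℝ) (D : ℕ) (V : ℝ) : ℝ := FK (sh (pA k D V ^ D) V) (sh (pA k D V ^ D) V) V

/-- The limit of a top factor, side without zeta. -/
noncomputable def bW (k : ℝ) (D E : ℕ) (V : ℝ) : ℝ :=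
  FK (w0 k D E V) (w0 k D E V) V + FK (w1 k D E V) (w1 k D E V) V

/-- The first degree, side of zeta. -/
noncomputable def cD (k : ℝ) : ℕ := if k ≤ 1 / 4 then ⌈1 / k⌉₊ else if k ≤ 1 / 2 then 3 else 1

/-- The slope of the degrees, side of zeta. -/
noncomputable def cD' (k : ℝ) : ℕ :=
  if k ≤ 1 / 4 then ⌈1 / k⌉₊ else if k ≤ 1 / 2 then 3 else if k ≤ 3 / 4 then 2 else 1

/-- The first degree, other side. -/
noncomputable def cE (k : ℝ) : ℕ :=
  if k ≤ 1 / 4 then 1 else if k ≤ 1 / 2 then 2 else if k ≤ 3 / 4 then 3 else 5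

/-- The slope of the degrees, other side. -/
noncomputable def cE' (k : ℝ) : ℕ := if k ≤ 1 / 4 then 1 else if k ≤ 1 / 2 then 2 else 3

/-- `2 ψ` times the upper end of the first top block. -/
noncomputable def xo (k : ℝ) : ℝ :=
  if k ≤ 1 / 4 then 1 / k - 1 else if k ≤ 1 / 2 then 9 / 5 else if k ≤ 3 / 4 then 4 / 5 else 3 / 10

/-- The upper end of the first top block. -/
noncomputable def th (k : ℝ) : ℝ :=
  if k ≤ 1 / 4 then 1 / (6 * cD k) else
    93 / 100 * k / (1582 / 1000 * (k * (cD k + 1) + cE k) + 921 / 1000 * (k * cD' k + cE' k))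

/-- The number of top blocks. -/
noncomputable def Nt (k : ℝ) (M : ℕ) : ℕ := ⌊(M : ℝ) + Real.log (th k)⌋₊

/-- The ends of the top blocks. -/
noncomputable def te9 (k : ℝ) (M i : ℕ) : ℝ :=
  if i < Nt k M then th k * Real.exp (-(i : ℝ)) else Real.exp (-(M : ℝ))

/-- The variances. -/
noncomputable def V9 (k : ℝ) (M i : ℕ) : ℝ :=
  VI (xo k / (2 * th k)) (te9 k M (i + 1)) (te9 k M i)

/-- The degrees, side of zeta. -/
noncomputable def Di (k : ℝ) (i : ℕ) : ℕ := cD k + cD' k * i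

/-- The degrees, other side. -/
noncomputable def Ei (k : ℝ) (i : ℕ) : ℕ := cE k + cE' k * i

/-- Our choice of the top blocks. -/
noncomputable def cfg9 (k : ℝ) (M : ℕ) : Cfg where
  N := Nt k M
  te := te9 k M
  psi := xo k / (2 * th k)
  A := fun i => pA k (Di k i) (V9 k M i) ^ Di k i
  B := fun i => pB k (Ei k i) (V9 k M i) ^ Ei k i
  W₀ := fun i => w0 k (Di k i) (Ei k i) (V9 k M i)
  W₁ := fun i => w1 k (Di k i) (Ei k i) (V9 k M i)

/-- The loss of a block. -/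
noncomputable def ls9 (k : ℝ) (C : Cfg) (i : ℕ) : ℝ :=
  (k ^ 2 + 1 - k) * C.V i -
    (2 * Real.log (lF C i) - (1 - k) * Real.log (lS C i) - k * Real.log (lW C i))

/-- Bound for the variance of the first top block. -/
noncomputable def vo (k : ℝ) : ℝ := Real.exp (-(xo k * Real.exp (-1)))

/-- The bound for the total loss. -/
noncomputable def LamB (k : ℝ) : ℝ :=
  (1 - k) ^ 4 * (1 + k) * (vo k ^ 2 / cD k ^ 2 + 1 / (cD' k * (cD k + cD' k / 2))) +
    2 * k ^ 3 * (vo k ^ 2 / cE k ^ 2 + 1 / (cE' k * (cE k + cE' k / 2))) +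
    3 / 4 * k ^ 3 * (vo k / cE k ^ 2 + 1 / (cE' k * (cE k + cE' k / 2)))

/-- The exponential integral. -/
noncomputable def E1 (y : ℝ) : ℝ := ∫ t in Set.Ioi y, Real.exp (-t) / t

/-- The Taylor coefficients of `p(z) e^{-uz}`. -/
noncomputable def cfe (p : Polynomial ℝ) (u : ℝ) (j : ℕ) : ℝ :=
  ∑ i ∈ Finset.range (j + 1), p.coeff i * ((-u) ^ (j - i) / ((j - i).factorial : ℝ))

/-- The explicit constant of the theorem: `(k/e)^{3k²}`. -/
noncomputable def LL9 (k : ℝ) : ℝ := (k / Real.exp 1) ^ (3 * k ^ 2)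

end K9
end Pool.Agent.Lib.MP_973905_nt
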