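import Pool.Agent.Lib.MP_973905_nt.K9.Stmts

/-! (N10) the total loss. -/

namespace Pool.Agent.Lib.MP_973905_nt
namespace K9

open MeasureTheory ProbabilityTheory Complex Filter Topology K1 K4 K5

namespace Lam9Aux

/-- The bound for the loss of one block. -/
noncomputable def lb (k V : ℝ) (D E : ℕ) : ℝ :=
  (1 - k) ^ 4 * (1 + k) * V ^ 2 / D ^ 2 + 2 * k ^ 3 * V ^ 2 / E ^ 2 + 3 / 4 * k ^ 3 * V / E ^ 2

theorem ls_le (hL : StLoss9) {k : ℝ} (h0 : 0 < k) (h1 : k < 1) (M i : ℕ)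
    (hD : 1 ≤ Di k i) (hE : 1 ≤ Ei k i) (hV : 0 < V9 k M i)
    (c1 : 2 * (1 - k) ^ 2 * V9 k M i / (Di k i : ℝ) ≤ 2 / 5)
    (c2 : 2 * k * V9 k M i / (Ei k i : ℝ) ≤ 2 / 5) (c3 : k / (Ei k i : ℝ) ≤ 1 / 4) :
    ls9 k (cfg9 k M) i ≤ lb k (V9 k M i) (Di k i) (Ei k i) := by
  obtain ⟨-, -, -, h⟩ := hL k (V9 k M i) (Di k i) (Ei k i) h0 h1 hD hE hV c1 c2 c3
  have e : ls9 k (cfg9 k M) i = (k ^ 2 + 1 - k) * V9 k M i -
      (2 * Real.log (bF k (Di k i) (Ei k i) (V9 k M i)) -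
        (1 - k) * Real.log (bS k (Di k i) (V9 k M i)) -
        k * Real.log (bW k (Di k i) (Ei k i) (V9 k M i))) := rfl
  rw [e]
  unfold lb
  linarith

theorem lb_mono {k V W : ℝ} (h0 : 0 < k) (h1 : k < 1) (hV : 0 ≤ V) (hVW : V ≤ W) (D E : ℕ) :
    lb k V D E ≤ lb k W D E := by
  have hk : 0 < 1 - k := by linarith
  have h2 : V ^ 2 ≤ W ^ 2 := pow_le_pow_left₀ hV hVW 2
  unfold lb
  gcongr

theorem lb_one (k : ℝ) (D E : ℕ) : lb k 1 D E = (1 - k) ^ 4 * (1 + k) * (1 / (D : ℝ) ^ 2) +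
    (2 * k ^ 3 + 3 / 4 * k ^ 3) * (1 / (E : ℝ) ^ 2) := by
  unfold lb
  ring

theorem last_le {k ε B : ℝ} {D E : ℕ} (hk0 : 0 < k) (hk1 : k < 1) (hε : 0 < ε) (hB1 : 10 ≤ B)
    (hB2 : 14 / ε ≤ B) (hDB : B ≤ (D : ℝ)) (hEB : B ≤ (E : ℝ)) : lb k 2 D E ≤ ε := by
  have hk : 0 < 1 - k := by linarith
  have hkk : (1 - k) ^ 2 ≤ 1 := by nlinarith
  have hBp : 0 < B := by linarith
  have q1 : 1 / (D : ℝ) ^ 2 ≤ 1 / B ^ 2 :=
    one_div_le_one_div_of_le (by positivity) (pow_le_pow_left₀ hBp.le hDB 2)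
  have q2 : 1 / (E : ℝ) ^ 2 ≤ 1 / B ^ 2 :=
    one_div_le_one_div_of_le (by positivity) (pow_le_pow_left₀ hBp.le hEB 2)
  have s1 : (1 - k) ^ 4 * (1 + k) ≤ 1 := by
    have e1 : (1 - k) ^ 4 * (1 + k) = (1 - k) ^ 2 * ((1 - k) * ((1 - k) * (1 + k))) := by ring
    have e2 : (1 - k) * (1 + k) ≤ 1 := by nlinarith
    have e3 : (1 - k) * ((1 - k) * (1 + k)) ≤ 1 * 1 :=
      mul_le_mul (by linarith) e2 (by positivity) (by norm_num)
    have e4 : (1 - k) ^ 2 * ((1 - k) * ((1 - k) * (1 + k))) ≤ 1 * (1 * 1) :=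
      mul_le_mul hkk e3 (by positivity) (by norm_num)
    linarith
  have s2 : k ^ 3 ≤ 1 := pow_le_one₀ hk0.le hk1.le
  have s0 : 0 ≤ (1 - k) ^ 4 * (1 + k) := by positivity
  have s3 : 0 ≤ k ^ 3 := by positivity
  have e : lb k 2 D E =
      4 * ((1 - k) ^ 4 * (1 + k)) * (1 / (D : ℝ) ^ 2) + 19 / 2 * k ^ 3 * (1 / (E : ℝ) ^ 2) := by
    unfold lb
    ring
  rw [e]
  have t0 : (0 : ℝ) ≤ 1 / B ^ 2 := by positivity
  have t1 : 4 * ((1 - k) ^ 4 * (1 + k)) * (1 / (D : ℝ) ^ 2) ≤ 4 * (1 / B ^ 2) :=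
    mul_le_mul (by linarith) q1 (by positivity) (by norm_num)
  have t2 : 19 / 2 * k ^ 3 * (1 / (E : ℝ) ^ 2) ≤ 19 / 2 * (1 / B ^ 2) :=
    mul_le_mul (by linarith) q2 (by positivity) (by norm_num)
  have t3 : 14 * (1 / B ^ 2) ≤ ε := by
    rw [mul_one_div, div_le_iff₀ (by positivity)]
    rw [div_le_iff₀ hε] at hB2
    have h1 : B ≤ B ^ 2 := by nlinarith
    have h2 : B * ε ≤ B ^ 2 * ε := mul_le_mul_of_nonneg_right h1 hε.le
    linarith
  linarith

/-- telescoping bound -/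
theorem sum_sq (d d' : ℝ) (hd : 0 < d) (hd' : 0 < d') (n : ℕ) :
    ∑ i ∈ Finset.range n, 1 / (d + d' * ((i : ℝ) + 1)) ^ 2 ≤
      1 / (d' * (d + d' / 2)) - 1 / (d' * (d + d' * (n + 1 / 2))) := by
  induction n with
  | zero =>
    simp only [Finset.range_zero, Finset.sum_empty, Nat.cast_zero, zero_add]
    apply le_of_eq
    rw [show d' * (1 / 2) = d' / 2 by ring, sub_self]
  | succ n ih =>
    rw [Finset.sum_range_succ]
    have hn : (0 : ℝ) ≤ n := Nat.cast_nonneg n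
    have p1 : 0 < d + d' * ((n : ℝ) + 1 / 2) := by positivity
    have p2 : 0 < d + d' * (((n + 1 : ℕ) : ℝ) + 1 / 2) := by positivity
    have p3 : 0 < d + d' * ((n : ℝ) + 1) := by positivity
    have key : 1 / (d + d' * ((n : ℝ) + 1)) ^ 2 ≤
        1 / (d' * (d + d' * (n + 1 / 2))) - 1 / (d' * (d + d' * (((n + 1 : ℕ) : ℝ) + 1 / 2))) := by
      have e : 1 / (d' * (d + d' * ((n : ℝ) + 1 / 2))) -
          1 / (d' * (d + d' * (((n + 1 : ℕ) : ℝ) + 1 / 2))) =
          1 / ((d + d' * ((n : ℝ) + 1 / 2)) * (d + d' * (((n + 1 : ℕ) : ℝ) + 1 / 2))) := by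
        rw [div_sub_div _ _ (by positivity) (by positivity), div_eq_div_iff (by positivity)
          (by positivity)]
        push_cast
        ring
      rw [e]
      apply one_div_le_one_div_of_le (by positivity)
      push_cast
      nlinarith [sq_nonneg d']
    linarith

theorem sum_sq' (d d' : ℝ) (hd : 0 < d) (hd' : 0 < d') (n : ℕ) :
    ∑ i ∈ Finset.range n, 1 / (d + d' * ((i : ℝ) + 1)) ^ 2 ≤ 1 / (d' * (d + d' / 2)) := by
  have h := sum_sq d d' hd hd' n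
  have : 0 ≤ 1 / (d' * (d + d' * ((n : ℝ) + 1 / 2))) := by positivity
  linarith

theorem vo_pos (k : ℝ) : 0 < vo k := Real.exp_pos _

theorem vo_le_one {k : ℝ} (h : 0 ≤ xo k) : vo k ≤ 1 := by
  unfold vo
  rw [Real.exp_le_one_iff]
  have := mul_nonneg h (Real.exp_pos (-1)).le
  linarith

theorem vo_le {k : ℝ} (h : 4 / 5 ≤ xo k) : vo k ≤ 4 / 5 := by
  unfold vo
  have h1 := Real.exp_neg_one_gt_d9
  have h2 : (1 : ℝ) / 4 ≤ xo k * Real.exp (-1) := by nlinarith
  have h3 := Real.add_one_le_exp (xo k * Real.exp (-1))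
  rw [Real.exp_neg]
  rw [inv_le_comm₀ (Real.exp_pos _) (by norm_num)]
  norm_num
  linarith

theorem cst {k : ℝ} (h0 : 0 < k) (h1 : k < 1) :
    1 ≤ cD k ∧ 1 ≤ cD' k ∧ 1 ≤ cE k ∧ 1 ≤ cE' k ∧
    2 * (1 - k) ^ 2 * vo k ≤ 2 / 5 * (cD k : ℝ) ∧ 2 * k * vo k ≤ 2 / 5 * (cE k : ℝ) ∧
    k ≤ 1 / 4 * (cE k : ℝ) ∧ 2 * (1 - k) ^ 2 ≤ 2 / 5 * ((cD k : ℝ) + cD' k) ∧
    2 * k ≤ 2 / 5 * ((cE k : ℝ) + cE' k) := by
  have hv := vo_pos k
  have hk2 : (1 - k) ^ 2 ≤ 1 := by nlinarith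
  rcases le_or_gt k (1 / 4) with h | h
  · have hn : 4 ≤ ⌈1 / k⌉₊ := by
      have : (4 : ℝ) ≤ 1 / k := by
        rw [le_div_iff₀ h0]; linarith
      have h2 : (4 : ℝ) ≤ (⌈1 / k⌉₊ : ℝ) := this.trans (Nat.le_ceil _)
      exact_mod_cast h2
    have hnr : (4 : ℝ) ≤ (⌈1 / k⌉₊ : ℝ) := by exact_mod_cast hn
    have hx : 4 / 5 ≤ xo k := by
      unfold xo
      rw [if_pos h]
      have : (4 : ℝ) ≤ 1 / k := by
        rw [le_div_iff₀ h0]; linarith
      linarith
    have hvo := vo_le hx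
    simp only [cD, cD', cE, cE', if_pos h]
    refine ⟨by omega, by omega, le_rfl, le_rfl, ?_, ?_, ?_, ?_, ?_⟩
    · nlinarith [sq_nonneg (1 - k)]
    · push_cast; nlinarith
    · push_cast; linarith
    · nlinarith
    · push_cast; linarith
  · have h' : ¬ k ≤ 1 / 4 := not_le.mpr h
    rcases le_or_gt k (1 / 2) with g | g
    · have hx : 4 / 5 ≤ xo k := by
        unfold xo
        rw [if_neg h', if_pos g]
        norm_num
      have hvo := vo_le hx
      simp only [cD, cD', cE, cE', if_neg h', if_pos g]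
      refine ⟨by omega, by omega, by omega, by omega, ?_, ?_, ?_, ?_, ?_⟩
      · push_cast
        have : (1 - k) ^ 2 ≤ 9 / 16 := by nlinarith
        nlinarith [sq_nonneg (1 - k)]
      · push_cast; nlinarith
      · push_cast; linarith
      · push_cast; nlinarith
      · push_cast; linarith
    · have g' : ¬ k ≤ 1 / 2 := not_le.mpr g
      have hk4 : (1 - k) ^ 2 ≤ 1 / 4 := by nlinarith
      rcases le_or_gt k (3 / 4) with f | f
      · have hx : 4 / 5 ≤ xo k := by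
          unfold xo
          rw [if_neg h', if_neg g', if_pos f]
        have hvo := vo_le hx
        simp only [cD, cD', cE, cE', if_neg h', if_neg g', if_pos f]
        refine ⟨by omega, by omega, by omega, by omega, ?_, ?_, ?_, ?_, ?_⟩
        · push_cast
          nlinarith [sq_nonneg (1 - k)]
        · push_cast; nlinarith
        · push_cast; linarith
        · push_cast; nlinarith
        · push_cast; linarith
      · have f' : ¬ k ≤ 3 / 4 := not_le.mpr f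
        have hx : 0 ≤ xo k := by
          unfold xo
          rw [if_neg h', if_neg g', if_neg f']
          norm_num
        have hvo := vo_le_one hx
        have hk5 : (1 - k) ^ 2 ≤ 1 / 16 := by nlinarith
        simp only [cD, cD', cE, cE', if_neg h', if_neg g', if_neg f']
        refine ⟨by omega, by omega, by omega, by omega, ?_, ?_, ?_, ?_, ?_⟩
        · push_cast
          nlinarith [sq_nonneg (1 - k)]
        · push_cast; nlinarith
        · push_cast; linarith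
        · push_cast; nlinarith
        · push_cast; linarith

end Lam9Aux

open Lam9Aux in
/-- (N10) the total loss -/
theorem stLam9 (h1 : StLoss9) (h2 : StAdm9) : StLam9 := by
  intro k hk0 hk1 ε hε
  obtain ⟨M₀, hM₀⟩ := h2 k hk0 hk1
  obtain ⟨a1, a2, a3, a4, c1, c2, c3, c4, c5⟩ := cst hk0 hk1
  have r1 : (1 : ℝ) ≤ (cD k : ℝ) := by exact_mod_cast a1
  have r2 : (1 : ℝ) ≤ (cD' k : ℝ) := by exact_mod_cast a2
  have r3 : (1 : ℝ) ≤ (cE k : ℝ) := by exact_mod_cast a3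
  have r4 : (1 : ℝ) ≤ (cE' k : ℝ) := by exact_mod_cast a4
  have hk : 0 < 1 - k := by linarith
  have hkk : (1 - k) ^ 2 ≤ 1 := by nlinarith
  set B : ℝ := max 10 (14 / ε) with hB
  have hB1 : 10 ≤ B := le_max_left _ _
  have hB2 : 14 / ε ≤ B := le_max_right _ _
  refine ⟨max M₀ ⌈B + 1 - Real.log (th k)⌉₊, ?_⟩
  intro M hM
  obtain ⟨-, hN2, -, hV, hV0, hV1⟩ := hM₀ M ((le_max_left _ _).trans hM)
  have hM2 : B + 1 - Real.log (th k) ≤ (M : ℝ) :=
    (Nat.le_ceil _).trans (by exact_mod_cast (le_max_right _ _).trans hM)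
  have hNB : B ≤ (Nt k M : ℝ) := by
    have := Nat.lt_floor_add_one ((M : ℝ) + Real.log (th k))
    unfold Nt
    linarith
  obtain ⟨n, hn⟩ : ∃ n, Nt k M = n + 2 := ⟨Nt k M - 2, by omega⟩
  have hD : ∀ i, (Di k i : ℝ) = cD k + cD' k * i := by
    intro i; unfold Di; push_cast; ring
  have hE : ∀ i, (Ei k i : ℝ) = cE k + cE' k * i := by
    intro i; unfold Ei; push_cast; ring
  have hD1 : ∀ i, 1 ≤ Di k i := by
    intro i; unfold Di; omega
  have hE1 : ∀ i, 1 ≤ Ei k i := by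
    intro i; unfold Ei; omega
  -- the first block
  have hfirst : ls9 k (cfg9 k M) 0 ≤ lb k (vo k) (cD k) (cE k) := by
    have hp := (hV 0 (by omega)).1
    have hD0 : Di k 0 = cD k := by unfold Di; ring
    have hE0 : Ei k 0 = cE k := by unfold Ei; ring
    have h := ls_le h1 hk0 hk1 M 0 (hD1 0) (hE1 0) hp
      (by
        rw [hD0, div_le_iff₀ (by linarith)]
        have : 2 * (1 - k) ^ 2 * V9 k M 0 ≤ 2 * (1 - k) ^ 2 * vo k :=
          mul_le_mul_of_nonneg_left hV0 (by positivity)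
        linarith)
      (by
        rw [hE0, div_le_iff₀ (by linarith)]
        have : 2 * k * V9 k M 0 ≤ 2 * k * vo k :=
          mul_le_mul_of_nonneg_left hV0 (by positivity)
        linarith)
      (by
        rw [hE0, div_le_iff₀ (by linarith)]
        linarith)
    rw [hD0, hE0] at h
    exact h.trans (lb_mono hk0 hk1 hp.le hV0 _ _)
  -- the last block
  have hlast : ls9 k (cfg9 k M) (n + 1) ≤ ε := by
    obtain ⟨hp, hp2⟩ := hV (n + 1) (by omega)
    have hNr : (Nt k M : ℝ) = n + 2 := by rw [hn]; push_cast; ring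
    have hn0 : (0 : ℝ) ≤ n := Nat.cast_nonneg n
    have hn1 : (0 : ℝ) ≤ (n : ℝ) + 1 := by linarith
    have hDB : B ≤ (Di k (n + 1) : ℝ) := by
      rw [hD]
      push_cast
      have := mul_le_mul_of_nonneg_right r2 hn1
      linarith
    have hEB : B ≤ (Ei k (n + 1) : ℝ) := by
      rw [hE]
      push_cast
      have := mul_le_mul_of_nonneg_right r4 hn1
      linarith
    have hDp : 0 < (Di k (n + 1) : ℝ) := by linarith
    have hEp : 0 < (Ei k (n + 1) : ℝ) := by linarith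
    have h := ls_le h1 hk0 hk1 M (n + 1) (hD1 _) (hE1 _) hp
      (by
        rw [div_le_iff₀ hDp]
        have : (1 - k) ^ 2 * V9 k M (n + 1) ≤ 1 * 2 :=
          mul_le_mul hkk hp2 hp.le (by norm_num)
        linarith)
      (by
        rw [div_le_iff₀ hEp]
        have : k * V9 k M (n + 1) ≤ 1 * 2 :=
          mul_le_mul hk1.le hp2 hp.le (by norm_num)
        linarith)
      (by
        rw [div_le_iff₀ hEp]
        linarith)
    refine (h.trans (lb_mono hk0 hk1 hp.le hp2 _ _)).trans ?_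
    exact last_le hk0 hk1 hε hB1 hB2 hDB hEB
  -- the other blocks
  have hterm : ∀ i ∈ Finset.range n, ls9 k (cfg9 k M) (i + 1) ≤
      (1 - k) ^ 4 * (1 + k) * (1 / ((cD k : ℝ) + cD' k * ((i : ℝ) + 1)) ^ 2) +
      (2 * k ^ 3 + 3 / 4 * k ^ 3) * (1 / ((cE k : ℝ) + cE' k * ((i : ℝ) + 1)) ^ 2) := by
    intro i hi
    rw [Finset.mem_range] at hi
    have hp := (hV (i + 1) (by omega)).1
    have hp2 := hV1 (i + 1) (by omega)
    have hi0 : (0 : ℝ) ≤ i := Nat.cast_nonneg i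
    have hDr : (cD k : ℝ) + cD' k ≤ (Di k (i + 1) : ℝ) := by
      rw [hD]
      push_cast
      have := mul_nonneg (zero_le_one.trans r2) hi0
      linarith
    have hEr : (cE k : ℝ) + cE' k ≤ (Ei k (i + 1) : ℝ) := by
      rw [hE]
      push_cast
      have := mul_nonneg (zero_le_one.trans r4) hi0
      linarith
    have hDp : 0 < (Di k (i + 1) : ℝ) := by linarith
    have hEp : 0 < (Ei k (i + 1) : ℝ) := by linarith
    have h := ls_le h1 hk0 hk1 M (i + 1) (hD1 _) (hE1 _) hp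
      (by
        rw [div_le_iff₀ hDp]
        have : 2 * (1 - k) ^ 2 * V9 k M (i + 1) ≤ 2 * (1 - k) ^ 2 * 1 :=
          mul_le_mul_of_nonneg_left hp2 (by positivity)
        linarith)
      (by
        rw [div_le_iff₀ hEp]
        have : 2 * k * V9 k M (i + 1) ≤ 2 * k * 1 :=
          mul_le_mul_of_nonneg_left hp2 (by positivity)
        linarith)
      (by
        rw [div_le_iff₀ hEp]
        linarith)
    refine (h.trans (lb_mono hk0 hk1 hp.le hp2 _ _)).trans (le_of_eq ?_)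
    rw [lb_one, hD, hE]
    push_cast
    ring
  have hmid : ∑ i ∈ Finset.range n, ls9 k (cfg9 k M) (i + 1) ≤
      (1 - k) ^ 4 * (1 + k) * (1 / ((cD' k : ℝ) * (cD k + cD' k / 2))) +
      (2 * k ^ 3 + 3 / 4 * k ^ 3) * (1 / ((cE' k : ℝ) * (cE k + cE' k / 2))) := by
    refine (Finset.sum_le_sum hterm).trans ?_
    rw [Finset.sum_add_distrib, ← Finset.mul_sum, ← Finset.mul_sum]
    have e1 := sum_sq' (cD k : ℝ) (cD' k : ℝ) (by linarith) (by linarith) n
    have e2 := sum_sq' (cE k : ℝ) (cE' k : ℝ) (by linarith) (by linarith) n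
    exact add_le_add (mul_le_mul_of_nonneg_left e1 (by positivity))
      (mul_le_mul_of_nonneg_left e2 (by positivity))
  rw [hn, Finset.sum_range_succ, Finset.sum_range_succ']
  have hfin : LamB k = lb k (vo k) (cD k) (cE k) +
      ((1 - k) ^ 4 * (1 + k) * (1 / ((cD' k : ℝ) * (cD k + cD' k / 2))) +
      (2 * k ^ 3 + 3 / 4 * k ^ 3) * (1 / ((cE' k : ℝ) * (cE k + cE' k / 2)))) := by
    unfold LamB lb
    ring
  rw [hfin]
  linarith

end K9
end Pool.Agent.Lib.MP_973905_nt
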