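import Pool.Agent.Lib.MP_973905_nt.K9.Stmts

/-! (N15) the final inequality on the fourth interval `3/4 < k < 1`. -/

namespace Pool.Agent.Lib.MP_973905_nt
namespace K9

open MeasureTheory ProbabilityTheory Complex Filter Topology K1 K4 K5

namespace NumDaux

/-- The bound for the variance of the first block. -/
theorem vo_le {y : ℝ} (hy : y = Real.exp (-(3 / 10 * Real.exp (-1)))) :
    0 < y ∧ y ≤ 901 / 1000 ∧ y ^ 2 ≤ 812 / 1000 := by
  have h0 : 0 < y := by rw [hy]; exact Real.exp_pos _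
  have he : Real.exp 1 < 2.7182818286 := Real.exp_one_lt_d9
  have hi : (367 / 1000 : ℝ) ≤ Real.exp (-1) := by
    rw [Real.exp_neg, le_inv_comm₀ (by norm_num) (Real.exp_pos _)]
    have : ((367 : ℝ) / 1000)⁻¹ = 1000 / 367 := by norm_num
    rw [this]
    refine he.le.trans ?_
    norm_num
  have h1 : (1101 / 10000 : ℝ) ≤ 3 / 10 * Real.exp (-1) := by linarith
  have h2 : 1 + 3 / 10 * Real.exp (-1) ≤ Real.exp (3 / 10 * Real.exp (-1)) := by
    have := Real.add_one_le_exp (3 / 10 * Real.exp (-1))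
    linarith
  have h3 : y ≤ 901 / 1000 := by
    rw [hy, Real.exp_neg, inv_le_comm₀ (Real.exp_pos _) (by norm_num)]
    have : ((901 : ℝ) / 1000)⁻¹ = 1000 / 901 := by norm_num
    rw [this]
    refine le_trans ?_ h2
    have : (1000 / 901 : ℝ) ≤ 1 + 1101 / 10000 := by norm_num
    linarith
  refine ⟨h0, h3, ?_⟩
  nlinarith

end NumDaux

theorem stNumD (h1 : StE1) (h2 : StGu9) : StNumD := by
  intro k hk1 hk2
  have hk0 : 0 < k := by linarith
  have n1 : ¬ k ≤ 1 / 4 := by linarith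
  have n2 : ¬ k ≤ 1 / 2 := by linarith
  have n3 : ¬ k ≤ 3 / 4 := by linarith
  have e1 : cD k = 1 := by unfold cD; rw [if_neg n1, if_neg n2]
  have e2 : cD' k = 1 := by unfold cD'; rw [if_neg n1, if_neg n2, if_neg n3]
  have e3 : cE k = 5 := by unfold cE; rw [if_neg n1, if_neg n2, if_neg n3]
  have e4 : cE' k = 3 := by unfold cE'; rw [if_neg n1, if_neg n2]
  have e5 : xo k = 3 / 10 := by unfold xo; rw [if_neg n1, if_neg n2, if_neg n3]
  have e6 : th k = 93 / 100 * k / (4085 / 1000 * k + 10673 / 1000) := by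
    unfold th
    rw [if_neg n1, e1, e2, e3, e4]
    congr 1
    push_cast
    ring
  have hden : 0 < 4085 / 1000 * k + 10673 / 1000 := by positivity
  have e7 : xo k / th k = (10 / 31 * (4085 / 1000 * k + 10673 / 1000)) / k := by
    rw [e5, e6]
    field_simp
    ring
  set A : ℝ := 10 / 31 * (4085 / 1000 * k + 10673 / 1000) with hA
  have hA0 : 0 < A := by positivity
  have hlog1 : Real.log (xo k / th k) = Real.log A - Real.log k := by
    rw [e7, Real.log_div hA0.ne' hk0.ne']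
  have hlog2 : Real.log A ≤ 2 * Real.log 2 + (A / 4 - 1) := by
    have h4 : Real.log A = Real.log 4 + Real.log (A / 4) := by
      rw [← Real.log_mul (by norm_num) (by positivity)]
      congr 1
      ring
    have h5 : Real.log (4 : ℝ) = 2 * Real.log 2 := by
      rw [show (4 : ℝ) = 2 ^ 2 by norm_num, Real.log_pow]
      norm_num
    have h6 := Real.log_le_sub_one_of_pos (show 0 < A / 4 by positivity)
    rw [h4, h5]
    linarith
  have hlog3 := Real.log_two_lt_d9
  have hlogk : Real.log k ≤ k - 1 := Real.log_le_sub_one_of_pos hk0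
  have hE : E1 (3 / 10) ≤ 23 / 25 := h1.2.2.1
  have hG : Real.log (barnesG (k + 1) ^ 2 / barnesG (2 * k + 1)) ≤ k ^ 2 * (27 / 25 - k) := by
    have p1 : 0 < barnesG (k + 1) := barnesG_pos (by linarith)
    have p2 : 0 < barnesG (2 * k + 1) := barnesG_pos (by linarith)
    rw [Real.log_le_iff_le_exp (by positivity)]
    exact (h2 k hk0 hk2).2 (by linarith)
  obtain ⟨v0, v1, v2⟩ := NumDaux.vo_le (y := vo k) (by unfold vo; rw [e5])
  have hLam : LamB k ≤ (1 - k) ^ 4 * (1 + k) * (812 / 1000 + 2 / 3) +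
      2 * k ^ 3 * (812 / 1000 / 25 + 2 / 39) + 3 / 4 * k ^ 3 * (901 / 1000 / 25 + 2 / 39) := by
    unfold LamB
    rw [e1, e2, e3, e4]
    push_cast
    have q1 : vo k ^ 2 / 1 ^ 2 + 1 / (1 * (1 + 1 / 2)) ≤ 812 / 1000 + 2 / 3 := by
      norm_num
      linarith
    have q2 : vo k ^ 2 / 5 ^ 2 + 1 / (3 * (5 + 3 / 2)) ≤ 812 / 1000 / 25 + 2 / 39 := by
      norm_num
      linarith
    have q3 : vo k / 5 ^ 2 + 1 / (3 * (5 + 3 / 2)) ≤ 901 / 1000 / 25 + 2 / 39 := by
      norm_num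
      linarith
    have r1 : 0 ≤ (1 - k) ^ 4 * (1 + k) := by positivity
    have r2 : 0 ≤ 2 * k ^ 3 := by positivity
    have r3 : 0 ≤ 3 / 4 * k ^ 3 := by positivity
    exact add_le_add (add_le_add (mul_le_mul_of_nonneg_left q1 r1)
      (mul_le_mul_of_nonneg_left q2 r2)) (mul_le_mul_of_nonneg_left q3 r3)
  have hsm : (1 - k) ^ 4 * (1 + k) ≤ 1 / 128 := by
    have s1 : (1 - k) ^ 4 ≤ (1 / 4) ^ 4 := pow_le_pow_left₀ (by linarith) (by linarith) 4
    have s2 : 0 ≤ (1 - k) ^ 4 := by positivity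
    nlinarith
  have hk2' : 0 < k ^ 2 := by positivity
  unfold FinI
  rw [hlog1, e5]
  have t1 : k ^ 2 * (Real.log A - Real.log k) ≤
      k ^ 2 * (2 * (6931471808 / 10000000000) + (A / 4 - 1)) - k ^ 2 * Real.log k := by
    have : Real.log A ≤ 2 * (6931471808 / 10000000000) + (A / 4 - 1) := by
      norm_num at hlog3 ⊢
      linarith
    nlinarith [mul_le_mul_of_nonneg_left this hk2'.le]
  have t2 : (k ^ 2 + 1 - k) * E1 (3 / 10) ≤ (k ^ 2 + 1 - k) * (23 / 25) :=
    mul_le_mul_of_nonneg_left hE (by nlinarith)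
  have t3 : k ^ 2 * Real.log k ≤ k ^ 2 * (k - 1) := mul_le_mul_of_nonneg_left hlogk hk2'.le
  have main : k ^ 2 * (2 * (6931471808 / 10000000000) + (A / 4 - 1)) +
      (k ^ 2 + 1 - k) * (23 / 25) +
      ((1 / 128) * (812 / 1000 + 2 / 3) +
      2 * k ^ 3 * (812 / 1000 / 25 + 2 / 39) + 3 / 4 * k ^ 3 * (901 / 1000 / 25 + 2 / 39)) +
      k ^ 2 * (27 / 25 - k) + 2 * (k ^ 2 * (k - 1)) ≤ 3 * k ^ 2 := by
    rw [hA]
    nlinarith [mul_nonneg (show 0 ≤ k - 3 / 4 by linarith) (show 0 ≤ 1 - k by linarith),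
      mul_nonneg (mul_nonneg (show 0 ≤ k - 3 / 4 by linarith) (show 0 ≤ 1 - k by linarith)) hk0.le]
  nlinarith [mul_le_mul_of_nonneg_right hsm (show (0 : ℝ) ≤ 812 / 1000 + 2 / 3 by norm_num)]

end K9
end Pool.Agent.Lib.MP_973905_nt
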