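import Pool.Agent.Lib.MP_973905_nt.K9.Stmts
import Pool.Agent.Lib.MP_973905_nt.K1.Fin
import Pool.Agent.Lib.MP_973905_nt.K1.TransferZeta

/-! Module (A7): means of zeta times Dirichlet polynomials to the right of the critical line. -/

namespace Pool.Agent.Lib.MP_973905_nt
namespace K9

open MeasureTheory ProbabilityTheory Complex Filter Topology K1 K4 K5

namespace TransM

lemma zeta_eq_line (a t : ℝ) : riemannZeta (1 / 2 + (a : ℂ) + t * I) =
    riemannZeta (((1 / 2 + a : ℝ) : ℂ) + t * I) := by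
  congr 1
  push_cast
  ring

lemma integrable_pair (T τ : ℝ) {a : ℝ} (ha0 : 0 ≤ a) (ha : a ≤ 1 / 4) {u v : ℕ} (hu : u ≠ 0)
    (hv : v ≠ 0) :
    Integrable (fun t : ℝ => riemannZeta (1 / 2 + (a : ℂ) + t * I) *
      (fs (t * I) u * (starRingEnd ℂ) (fs (t * I) v))) (gaussianReal τ (VV T)) := by
  obtain ⟨C, hC, hz⟩ := zeta_poly
  have hcz : Continuous fun t : ℝ => riemannZeta (1 / 2 + (a : ℂ) + t * I) := by
    have h1 := continuous_zeta_line (σ := 1 / 2 + a) (by linarith)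
    have h2 : (fun t : ℝ => riemannZeta (1 / 2 + (a : ℂ) + t * I)) =
        fun t : ℝ => riemannZeta (((1 / 2 + a : ℝ) : ℂ) + t * I) := by
      funext t
      exact zeta_eq_line a t
    rw [h2]
    exact h1
  refine integrable_of_poly τ (VV T) (C := C) (m := 2) ?_ fun t => ?_
  · exact (hcz.mul ((continuous_fs_mul_I hu).mul
      (continuous_conj.comp (continuous_fs_mul_I hv)))).aestronglyMeasurable
  · rw [norm_mul, norm_mul, RCLike.norm_conj, norm_fs_mul_I t hu, norm_fs_mul_I t hv, mul_one,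
      mul_one, zeta_eq_line]
    exact hz _ t (by linarith) (by linarith)

/-- The coefficients on the critical line. -/
lemma coef {k : ℕ} {c : Fin k → ℂ} {n : Fin k → ℕ} {N M : ℝ}
    (h1 : ∀ i, 1 ≤ n i ∧ (n i : ℝ) ≤ N) (h2 : ∑ i, ‖c i‖ ≤ M) :
    ∑ i, ‖c i * (n i : ℂ) ^ (-(1 / 2 : ℂ))‖ ≤ M := by
  refine (Finset.sum_le_sum fun i _ => ?_).trans h2
  rw [norm_mul]
  refine mul_le_of_le_one_right (norm_nonneg _) ?_
  have hn : n i ≠ 0 := by have := (h1 i).1; omega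
  have h3 : ‖(n i : ℂ) ^ (-(1 / 2 : ℂ))‖ = (n i : ℝ) ^ (-(1 / 2 : ℂ).re) := norm_fs (1 / 2) hn
  rw [h3]
  apply Real.rpow_le_one_of_one_le_of_nonpos
  · exact_mod_cast (h1 i).1
  · norm_num

end TransM

open TransM in
/-- (A7) means of zeta times Dirichlet polynomials to the right of the critical line -/
theorem stTransS (h3 : K1.StZetaPair) : StTransS := by
  obtain ⟨T₁, hT₁, h3⟩ := h3
  refine ⟨T₁, hT₁, fun T hT τ hτ1 hτ2 r Sb hB hUU G H hG hH a ha0 ha => ?_⟩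
  have hT3 : 3 ≤ T := hT₁.trans hT
  have hT1 : 1 < T := by linarith
  have hT0 : 0 < T := by linarith
  have hpow : T ^ (9 / 10 : ℝ) ≤ T := by
    calc T ^ (9 / 10 : ℝ) ≤ T ^ (1 : ℝ) := Real.rpow_le_rpow_of_exponent_le hT1.le (by norm_num)
      _ = T := Real.rpow_one T
  obtain ⟨k, c₀, n, h1, h2, h4⟩ := hG
  obtain ⟨k', c₀', n', h1', h2', h4'⟩ := hH
  have hn0 : ∀ i, n i ≠ 0 := fun i => Nat.one_le_iff_ne_zero.mp (h1 i).1
  have hn0' : ∀ i, n' i ≠ 0 := fun i => Nat.one_le_iff_ne_zero.mp (h1' i).1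
  have h2c := coef h1 h2
  have h2c' := coef h1' h2'
  obtain ⟨c, hc⟩ : ∃ c : Fin k → ℂ, c = fun i => c₀ i * (n i : ℂ) ^ (-(1 / 2 : ℂ)) := ⟨_, rfl⟩
  obtain ⟨c', hc'⟩ : ∃ c' : Fin k' → ℂ, c' = fun i => c₀' i * (n' i : ℂ) ^ (-(1 / 2 : ℂ)) :=
    ⟨_, rfl⟩
  have h2d : ∑ i, ‖c i‖ ≤ T ^ 3 := by rw [hc]; exact h2c
  have h2d' : ∑ i, ‖c' i‖ ≤ T ^ 3 := by rw [hc']; exact h2c'
  have hGt : ∀ f, CMul f → G (tw (1 / 2) f) = ∑ i, c i * f (n i) := by
    intro f hf
    rw [h4 _ (cmul_tw hf _), hc]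
    refine Finset.sum_congr rfl fun i _ => ?_
    simp only [tw]
    ring
  have hHt : ∀ f, CMul f → H (tw (1 / 2) f) = ∑ i, c' i * f (n' i) := by
    intro f hf
    rw [h4' _ (cmul_tw hf _), hc']
    refine Finset.sum_congr rfl fun i _ => ?_
    simp only [tw]
    ring
  have hGs : ∀ t : ℝ, G (fs (1 / 2 + t * I)) = ∑ i, c i * fs (t * I) (n i) := by
    intro t
    rw [h4 _ (cmul_fs _), hc]
    refine Finset.sum_congr rfl fun i _ => ?_
    rw [← tw_fs _ _ _ (hn0 i)]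
    simp only [tw]
    ring
  have hHs : ∀ t : ℝ, H (fs (1 / 2 + t * I)) = ∑ i, c' i * fs (t * I) (n' i) := by
    intro t
    rw [h4' _ (cmul_fs _), hc']
    refine Finset.sum_congr rfl fun i _ => ?_
    rw [← tw_fs _ _ _ (hn0' i)]
    simp only [tw]
    ring
  have e0 : ∀ (z : ℂ) (f : ℕ → ℂ), z * ((∑ i, c i * f (n i)) *
      (starRingEnd ℂ) (∑ i, c' i * f (n' i))) =
      ∑ i, ∑ j, (c i * (starRingEnd ℂ) (c' j)) *
        (z * (f (n i) * (starRingEnd ℂ) (f (n' j)))) := by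
    intro z f
    rw [map_sum, Finset.sum_mul_sum, Finset.mul_sum]
    refine Finset.sum_congr rfl fun i _ => ?_
    rw [Finset.mul_sum]
    refine Finset.sum_congr rfl fun j _ => ?_
    rw [map_mul]
    ring
  have hmem : ∀ m : ℕ, 1 ≤ m → (m : ℝ) ≤ T → m ∈ Nat.factoredNumbers (UU Sb) := by
    intro m hm1 hm2
    have h := mem_factored hT1 0 0 hm1 hm2
    rw [UU_SB hT1] at h
    rw [hUU]
    exact h
  have hw : 0 < (1 / 2 + (a : ℂ)).re := by
    simp
    linarith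
  have eR : ER Sb (fun f => ZZ (PS 0 T) (tw (1 / 2 + (a : ℂ)) f) *
      (G (tw (1 / 2) f) * (starRingEnd ℂ) (H (tw (1 / 2) f)))) =
      ∑ i, ∑ j, (c i * (starRingEnd ℂ) (c' j)) *
        (if n i ∣ n' j then ((n' j / n i : ℕ) : ℂ) ^ (-(1 / 2 + (a : ℂ))) else 0) := by
    have e2 : ER Sb (fun f => ZZ (PS 0 T) (tw (1 / 2 + (a : ℂ)) f) *
        (G (tw (1 / 2) f) * (starRingEnd ℂ) (H (tw (1 / 2) f)))) = ER Sb (fun f =>
        ∑ i, ∑ j, (c i * (starRingEnd ℂ) (c' j)) *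
          (ZZ (PS 0 T) (tw (1 / 2 + (a : ℂ)) f) * (f (n i) * (starRingEnd ℂ) (f (n' j))))) := by
      simp only [ER_eq]
      refine integral_congr_ae (Filter.Eventually.of_forall fun ω => ?_)
      simp only
      rw [hGt _ (cmul_XX _ ω), hHt _ (cmul_XX _ ω)]
      exact e0 _ _
    have hZ : BC Sb (fun f => ZZ (PS 0 T) (tw (1 / 2 + (a : ℂ)) f)) :=
      bc_ZZ (fun p hp => by
        rw [← hUU] at hp
        exact prime_of_mem_UU hB hp) hw
    have hbc : ∀ i j, BC Sb (fun f => (c i * (starRingEnd ℂ) (c' j)) *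
        (ZZ (PS 0 T) (tw (1 / 2 + (a : ℂ)) f) * (f (n i) * (starRingEnd ℂ) (f (n' j))))) :=
      fun i j => BC.const_mul (hZ.mul ((bc_apply _).mul (bc_apply _).conj)) _
    rw [e2, ER_sum _ fun i _ => bc_sum _ fun j _ => hbc i j]
    refine Finset.sum_congr rfl fun i _ => ?_
    rw [ER_sum _ fun j _ => hbc i j]
    refine Finset.sum_congr rfl fun j _ => ?_
    rw [ER_const_mul, ← hUU, FinM.ER_ZZ_pair hB hw (hmem _ (h1 i).1 ((h1 i).2.trans hpow))
      (hmem _ (h1' j).1 ((h1' j).2.trans hpow))]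
  have eG : EG T τ (fun t => riemannZeta (1 / 2 + (a : ℂ) + t * I) *
      (G (fs (1 / 2 + t * I)) * (starRingEnd ℂ) (H (fs (1 / 2 + t * I))))) =
      ∑ i, ∑ j, (c i * (starRingEnd ℂ) (c' j)) *
        EG T τ (fun t => riemannZeta (1 / 2 + (a : ℂ) + t * I) *
          (fs (t * I) (n i) * (starRingEnd ℂ) (fs (t * I) (n' j)))) := by
    have hint : ∀ i j, Integrable (fun t : ℝ => (c i * (starRingEnd ℂ) (c' j)) *
        (riemannZeta (1 / 2 + (a : ℂ) + t * I) *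
          (fs (t * I) (n i) * (starRingEnd ℂ) (fs (t * I) (n' j))))) (gaussianReal τ (VV T)) :=
      fun i j => (integrable_pair T τ ha0 ha (hn0 i) (hn0' j)).const_mul _
    have e3 : (fun t : ℝ => riemannZeta (1 / 2 + (a : ℂ) + t * I) *
        (G (fs (1 / 2 + t * I)) * (starRingEnd ℂ) (H (fs (1 / 2 + t * I))))) = fun t : ℝ =>
        ∑ i, ∑ j, (c i * (starRingEnd ℂ) (c' j)) * (riemannZeta (1 / 2 + (a : ℂ) + t * I) *
          (fs (t * I) (n i) * (starRingEnd ℂ) (fs (t * I) (n' j)))) := by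
      funext t
      rw [hGs, hHs]
      exact e0 _ _
    rw [e3]
    simp only [EG]
    rw [integral_finsetSum _ fun i _ => integrable_finsetSum _ fun j _ => hint i j]
    refine Finset.sum_congr rfl fun i _ => ?_
    rw [integral_finsetSum _ fun j _ => hint i j]
    refine Finset.sum_congr rfl fun j _ => ?_
    exact integral_const_mul _ _
  have hpair : ∀ i j, ‖EG T τ (fun t => riemannZeta (1 / 2 + (a : ℂ) + t * I) *
      (fs (t * I) (n i) * (starRingEnd ℂ) (fs (t * I) (n' j)))) -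
      (if n i ∣ n' j then ((n' j / n i : ℕ) : ℂ) ^ (-(1 / 2 + (a : ℂ))) else 0)‖ ≤
        T ^ (-20 : ℝ) := by
    intro i j
    exact h3 T hT τ hτ1 hτ2 (a : ℂ) (by rw [ofReal_re]; exact ha0) (by rw [ofReal_re]; exact ha)
      (by rw [ofReal_im, abs_zero]; positivity) (n i) (n' j) (h1 i).1 (h1' j).1 (h1 i).2 (h1' j).2
  rw [eR, eG, ← Finset.sum_sub_distrib]
  calc ‖∑ i, (∑ j, (c i * (starRingEnd ℂ) (c' j)) *
        EG T τ (fun t => riemannZeta (1 / 2 + (a : ℂ) + t * I) *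
          (fs (t * I) (n i) * (starRingEnd ℂ) (fs (t * I) (n' j)))) -
        ∑ j, (c i * (starRingEnd ℂ) (c' j)) *
          (if n i ∣ n' j then ((n' j / n i : ℕ) : ℂ) ^ (-(1 / 2 + (a : ℂ))) else 0))‖
      ≤ ∑ i, ∑ j, ‖c i‖ * ‖c' j‖ * T ^ (-20 : ℝ) := by
        refine (norm_sum_le _ _).trans (Finset.sum_le_sum fun i _ => ?_)
        rw [← Finset.sum_sub_distrib]
        refine (norm_sum_le _ _).trans (Finset.sum_le_sum fun j _ => ?_)
        rw [← mul_sub, norm_mul, norm_mul, RCLike.norm_conj]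
        exact mul_le_mul_of_nonneg_left (hpair i j) (by positivity)
    _ = (∑ i, ‖c i‖) * (∑ j, ‖c' j‖) * T ^ (-20 : ℝ) := by
        rw [Finset.sum_mul_sum, Finset.sum_mul]
        refine Finset.sum_congr rfl fun i _ => ?_
        rw [Finset.sum_mul]
    _ ≤ T ^ 3 * T ^ 3 * T ^ (-20 : ℝ) := by gcongr
    _ ≤ T ^ (-2 : ℝ) := by
        rw [← Real.rpow_natCast T 3, ← Real.rpow_add hT0, ← Real.rpow_add hT0]
        apply Real.rpow_le_rpow_of_exponent_le hT1.le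
        norm_num

end K9
end Pool.Agent.Lib.MP_973905_nt
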